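import Mathlib

set_option autoImplicit false

namespace Pool.Agent.P.MP_3acc10_al

/-- The form of degree `d` in the square-free monomials with coefficient vector `c`. -/
noncomputable def form {K : Type} [Field K] {n : ℕ} (d : ℕ) (c : Finset (Fin n) → K) :
    MvPolynomial (Fin n) K :=
  ∑ S ∈ Finset.univ.powersetCard d, MvPolynomial.C (c S) * ∏ s ∈ S, MvPolynomial.X s

/-- The ideal of the polynomial ring generated by the squares of the variables and the forms. -/
noncomputable def idl {K : Type} [Field K] {n r : ℕ} (d : Fin r → ℕ)
    (c : Fin r × Finset (Fin n) → K) : Ideal (MvPolynomial (Fin n) K) :=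
  Ideal.span ((Set.range fun s : Fin n => MvPolynomial.X s ^ 2) ∪
    Set.range fun i : Fin r => form (d i) fun S => c (i, S))

/-- The Hilbert function of the quotient of the square-free algebra by the forms. -/
noncomputable def hilb {K : Type} [Field K] {n r : ℕ} (d : Fin r → ℕ)
    (c : Fin r × Finset (Fin n) → K) (j : ℕ) : ℕ :=
  Module.finrank K ((MvPolynomial.homogeneousSubmodule (Fin n) K j).map
    (Ideal.Quotient.mkₐ K (idl d c)).toLinearMap)

/-- The series before truncation, for the degrees with index in `A`. -/
noncomputable def series (n : ℕ) {r : ℕ} (d : Fin r → ℕ) (A : Finset (Fin r)) : Polynomial ℤ :=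
  (1 + Polynomial.X) ^ n * ∏ i ∈ A, (1 - Polynomial.X ^ d i)

open Classical in
/-- The coefficient of `t ^ j` in the truncation of a series. -/
noncomputable def truncCoeff (p : Polynomial ℤ) (j : ℕ) : ℤ :=
  if ∀ i ≤ j, 0 < p.coeff i then p.coeff j else 0

end Pool.Agent.P.MP_3acc10_al
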