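import Pool.Agent.P.MP_3acc10_al.Gen

set_option autoImplicit false

namespace Pool.Agent.P.MP_3acc10_al

open Module Finset

variable {K : Type*} [Field K] {σ ι : Type*} [Fintype σ] [DecidableEq σ]

/-- contraction of a functional on the square-free algebra by an element of that algebra -/
def act (g F : Finset σ → K) : Finset σ → K :=
  fun T => ∑ Y : Finset σ, if Disjoint Y T then g Y * F (Y ∪ T) else 0

def actL : (Finset σ → K) →ₗ[K] (Finset σ → K) →ₗ[K] (Finset σ → K) :=
  LinearMap.mk₂ K act
    (fun g g' F => by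
      ext T; simp only [act, Pi.add_apply, ← sum_add_distrib]
      refine sum_congr rfl fun Y _ => ?_
      split_ifs <;> ring)
    (fun a g F => by
      ext T; simp only [act, Pi.smul_apply, smul_eq_mul, mul_sum]
      refine sum_congr rfl fun Y _ => ?_
      split_ifs <;> ring)
    (fun g F F' => by
      ext T; simp only [act, Pi.add_apply, ← sum_add_distrib]
      refine sum_congr rfl fun Y _ => ?_
      split_ifs <;> ring)
    (fun a g F => by
      ext T; simp only [act, Pi.smul_apply, smul_eq_mul, mul_sum]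
      refine sum_congr rfl fun Y _ => ?_
      split_ifs <;> ring)

@[simp] lemma actL_apply (g F : Finset σ → K) : actL g F = act g F := rfl

lemma act_zero (g : Finset σ → K) : act g 0 = 0 := map_zero (actL g)

lemma act_comm (g g' F : Finset σ → K) : act g (act g' F) = act g' (act g F) := by
  ext T
  have key : ∀ g g' : Finset σ → K, act g (act g' F) T = ∑ Y : Finset σ, ∑ Z : Finset σ,
      if Disjoint Y T ∧ Disjoint Z T ∧ Disjoint Y Z then g Y * g' Z * F (Y ∪ Z ∪ T) else 0 := by
    intro g g'
    simp only [act]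
    refine sum_congr rfl fun Y _ => ?_
    by_cases h : Disjoint Y T
    · rw [if_pos h, mul_sum]
      refine sum_congr rfl fun Z _ => ?_
      have e : Z ∪ (Y ∪ T) = Y ∪ Z ∪ T := by rw [← union_assoc, union_comm Z Y]
      by_cases h1 : Disjoint Z T <;> by_cases h2 : Disjoint Y Z <;>
        simp [h, h1, h2, e, disjoint_union_right, disjoint_comm (a := Z) (b := Y), mul_assoc]
    · simp [h]
  rw [key, key, sum_comm]
  refine sum_congr rfl fun Y _ => sum_congr rfl fun Z _ => ?_
  rw [union_comm Z Y, mul_comm (g' Y)]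
  congr 1
  simp only [eq_iff_iff, disjoint_comm (a := Z) (b := Y)]
  tauto

lemma act_single (S : Finset σ) (F : Finset σ → K) (T : Finset σ) :
    act (Pi.single S 1) F T = if Disjoint S T then F (S ∪ T) else 0 := by
  rw [act, sum_eq_single S]
  · simp
  · intro Y _ hY; simp [hY]
  · simp

/-- multiplication by a variable -/
def mulX (x : σ) (h : Finset σ → K) : Finset σ → K :=
  fun Y => if x ∈ Y then h (Y.erase x) else 0

lemma act_mulX (x : σ) (h F : Finset σ → K) :
    act (mulX x h) F = act h (act (Pi.single {x} 1) F) := by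
  rw [act_comm]
  ext T
  rw [act_single]
  by_cases hx : x ∈ T
  · rw [if_neg (by simpa using hx), act]
    refine sum_eq_zero fun Y _ => ?_
    split_ifs with hd
    · rw [mulX, if_neg (fun hY => disjoint_left.1 hd hY hx), zero_mul]
    · rfl
  · rw [if_pos (by simpa using hx), act, act]
    rw [← sum_filter_add_sum_filter_not univ (fun Y : Finset σ => x ∈ Y),
      ← sum_filter_add_sum_filter_not univ (fun Y : Finset σ => x ∈ Y)
        (fun Y => if Disjoint Y ({x} ∪ T) then h Y * F (Y ∪ ({x} ∪ T)) else 0)]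
    have h1 : ∑ Y ∈ univ.filter (fun Y : Finset σ => ¬ x ∈ Y),
        (if Disjoint Y T then mulX x h Y * F (Y ∪ T) else 0) = 0 :=
      sum_eq_zero fun Y hY => by simp [mulX, (mem_filter.1 hY).2]
    have h2 : ∑ Y ∈ univ.filter (fun Y : Finset σ => x ∈ Y),
        (if Disjoint Y ({x} ∪ T) then h Y * F (Y ∪ ({x} ∪ T)) else 0) = 0 :=
      sum_eq_zero fun Y hY => by simp [(mem_filter.1 hY).2]
    rw [h1, h2, add_zero, zero_add]
    refine sum_bij' (fun Y _ => Y.erase x) (fun Y _ => insert x Y) (by simp) (by simp)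
      (fun Y hY => insert_erase (mem_filter.1 hY).2)
      (fun Y hY => erase_insert (mem_filter.1 hY).2) fun Y hY => ?_
    have hY := (mem_filter.1 hY).2
    have e : Y.erase x ∪ ({x} ∪ T) = Y ∪ T := by
      ext y; by_cases hy : y = x <;> simp [hy, hY]
    have e' : Disjoint (Y.erase x) ({x} ∪ T) ↔ Disjoint Y T := by
      simp only [disjoint_left, mem_erase, mem_union, mem_singleton]
      constructor
      · intro h y hy hyT
        exact h ⟨fun e => hx (e ▸ hyT), hy⟩ (Or.inr hyT)
      · rintro h y ⟨hy, hy'⟩ (h1 | h1)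
        · exact hy h1
        · exact h hy' h1
    simp only [e, e', mulX, if_pos hY]

/-- functions supported on a family of sets -/
def Supp (K : Type*) [Field K] (𝓤 : Finset σ → Prop) : Submodule K (Finset σ → K) where
  carrier := {F | ∀ X, ¬ 𝓤 X → F X = 0}
  add_mem' := fun h h' X hX => by simp [h X hX, h' X hX]
  zero_mem' := fun _ _ => rfl
  smul_mem' := fun a F h X hX => by simp [h X hX]

omit [DecidableEq σ] in
lemma finrank_Supp (𝓤 : Finset σ → Prop) [DecidablePred 𝓤] :
    finrank K (Supp K 𝓤) ≤ (univ.filter 𝓤).card := by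
  have := finrank_le_sum (Supp K 𝓤) (univ.filter 𝓤) (fun X => LinearMap.proj X) (fun _ => ⊤)
    (by simp) (fun F hF h => by
      ext X
      by_cases hX : 𝓤 X
      · exact h X (by simpa using hX)
      · exact hF X hX)
  simpa using this

/-- the inverse system -/
def W (𝓤 : Finset σ → Prop) (A : Finset ι) (G : ι → Finset σ → K) :
    Submodule K (Finset σ → K) where
  carrier := {F | (∀ X, ¬ 𝓤 X → F X = 0) ∧ ∀ i ∈ A, act (G i) F = 0}
  add_mem' := fun {F F'} h h' => ⟨fun X hX => by simp [h.1 X hX, h'.1 X hX], fun i hi => by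
    have := map_add (actL (G i)) F F'
    simp only [actL_apply] at this
    rw [this, h.2 i hi, h'.2 i hi, add_zero]⟩
  zero_mem' := ⟨fun _ _ => rfl, fun i _ => act_zero _⟩
  smul_mem' := fun a F h => ⟨fun X hX => by simp [h.1 X hX], fun i hi => by
    have := map_smul (actL (G i)) a F
    simp only [actL_apply] at this
    rw [this, h.2 i hi, smul_zero]⟩

lemma mem_W {𝓤 : Finset σ → Prop} {A : Finset ι} {G : ι → Finset σ → K} {F : Finset σ → K} :
    F ∈ W 𝓤 A G ↔ (∀ X, ¬ 𝓤 X → F X = 0) ∧ ∀ i ∈ A, act (G i) F = 0 := Iff.rfl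

lemma W_le_Supp (𝓤 : Finset σ → Prop) (A : Finset ι) (G : ι → Finset σ → K) :
    W 𝓤 A G ≤ Supp K 𝓤 := fun _ h => h.1

lemma W_anti (𝓤 : Finset σ → Prop) {A A' : Finset ι} (h : A ⊆ A') (G : ι → Finset σ → K) :
    W 𝓤 A' G ≤ W 𝓤 A G := fun _ hF => ⟨hF.1, fun i hi => hF.2 i (h hi)⟩

lemma W_congr (𝓤 : Finset σ → Prop) {A : Finset ι} {G G' : ι → Finset σ → K}
    (h : ∀ i ∈ A, G i = G' i) : W 𝓤 A G = W 𝓤 A G' := by
  ext F
  simp only [mem_W]
  exact and_congr_right fun _ => forall₂_congr fun i hi => by rw [h i hi]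

open Classical in
/-- keep only the coefficients on a prescribed family -/
noncomputable def mask (𝓨 : ι → Finset σ → Prop) (c : ι × Finset σ → K) :
    ι → Finset σ → K := fun i Y => if 𝓨 i Y then c (i, Y) else 0

lemma gen_W [Fintype ι] (𝓤 : Finset σ → Prop) (A : Finset ι) (𝓨 : ι → Finset σ → Prop) (m : ℕ)
    (c0 : ι × Finset σ → K) (h : finrank K (W 𝓤 A (mask 𝓨 c0)) ≤ m) :
    Gen fun c : ι × Finset σ → K => finrank K (W 𝓤 A (mask 𝓨 c)) ≤ m := by
  let L : (ι × Finset σ → K) →ₗ[K] ((Finset σ → K) →ₗ[K] (A → Finset σ → K)) :=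
    { toFun := fun c => LinearMap.pi fun i => actL (mask 𝓨 c i)
      map_add' := fun c c' => by
        refine LinearMap.ext fun F => funext fun i => ?_
        have : mask 𝓨 (c + c') i = mask 𝓨 c i + mask 𝓨 c' i := by
          ext Y; simp only [mask, Pi.add_apply]; split_ifs <;> simp
        simp [this]
      map_smul' := fun a c => by
        refine LinearMap.ext fun F => funext fun i => ?_
        have : mask 𝓨 (a • c) i = a • mask 𝓨 c i := by
          ext Y; simp only [mask, Pi.smul_apply]; split_ifs <;> simp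
        simp [this] }
  have e : ∀ c, W 𝓤 A (mask 𝓨 c) = Supp K 𝓤 ⊓ LinearMap.ker (L c) := by
    intro c
    ext F
    simp only [mem_W, Submodule.mem_inf, LinearMap.mem_ker]
    refine and_congr Iff.rfl ⟨fun h => funext fun i => h i i.2, fun h i hi => congrFun h ⟨i, hi⟩⟩
  rw [e] at h
  exact (gen_ker L _ m c0 h).mono fun c hc => by rw [e]; exact hc

end Pool.Agent.P.MP_3acc10_al
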