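import Pool.Agent.P.MP_3acc10_al.Indep

set_option autoImplicit false

namespace Pool.Agent.P.MP_3acc10_al

open Finset Polynomial

variable {B ι : Type*} [DecidableEq B] [DecidableEq ι]

/-- coefficients of the predicted series before truncation -/
noncomputable def al (n : ℕ) (d : ι → ℕ) (A : Finset ι) (i : ℕ) : ℤ :=
  ((1 + X : ℤ[X]) ^ n * ∏ l ∈ A, (1 - X ^ d l)).coeff i

omit [DecidableEq ι] in
@[simp] lemma al_empty (n : ℕ) (d : ι → ℕ) (i : ℕ) : al n d ∅ i = n.choose i := by
  simp [al, coeff_one_add_X_pow]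

lemma al_insert (n : ℕ) (d : ι → ℕ) {A : Finset ι} {l : ι} (hl : l ∉ A) (i : ℕ) :
    al n d (insert l A) i = al n d A i - if d l ≤ i then al n d A (i - d l) else 0 := by
  rw [al, prod_insert hl, mul_left_comm, mul_comm (1 - X ^ d l), mul_sub, mul_one, coeff_sub,
    coeff_mul_X_pow']
  rfl

omit [DecidableEq ι] in
lemma sum_by_degree (d : ι → ℕ) (A : Finset ι) (hd : ∀ l ∈ A, 0 < d l) (i : ℕ) (f : ι → ℝ) :
    ∑ l ∈ A, (if d l ≤ i then f l else 0) =
      ∑ k ∈ range i, ∑ l ∈ A.filter (fun l => d l = i - k), f l := by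
  rw [← sum_filter, ← sum_fiberwise_of_maps_to (s := A.filter fun l => d l ≤ i) (t := range i)
    (g := fun l => i - d l) (fun l hl => by
      have := mem_filter.1 hl
      have := hd l this.1
      simp only [mem_range]; omega)]
  refine sum_congr rfl fun k hk => ?_
  rw [filter_filter]
  refine sum_congr (filter_congr fun l _ => ?_) fun _ _ => rfl
  have := mem_range.1 hk
  omega

lemma geo3 (i : ℕ) : (1 : ℝ) + ∑ k ∈ range i, 2 * 3 ^ k = 3 ^ i := by
  induction i with
  | zero => simp
  | succ i ih => rw [sum_range_succ, ← add_assoc, ih]; ring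

lemma pert (u : Finset ι → ℕ → ℝ) (A0 : Finset ι) (d : ι → ℕ) (hd : ∀ l ∈ A0, 0 < d l) (j : ℕ)
    (x w : ℝ) (hx : 0 ≤ x) (hw : 0 ≤ w) (ε : ι → ℝ) (hε0 : ∀ l, 0 ≤ ε l)
    (h0 : ∀ i ≤ j, |u ∅ i| ≤ w * x ^ i)
    (hs : ∀ A ⊆ A0, ∀ l ∈ A0, l ∉ A → ∀ i ≤ j,
      |u (insert l A) i - u A i| ≤ if d l ≤ i then |u A (i - d l)| + ε l * x ^ (i - d l) else 0)
    (hc : ∀ e ≤ j, 0 < e → ((A0.filter fun l => d l = e).card : ℝ) ≤ x ^ e)
    (hε : ∀ e ≤ j, 0 < e → ∑ l ∈ A0.filter (fun l => d l = e), ε l ≤ w * x ^ e) :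
    ∀ i ≤ j, ∀ A ⊆ A0, |u A i| ≤ 3 ^ i * (w * x ^ i) := by
  intro i
  induction i using Nat.strong_induction_on with
  | _ i ih =>
    intro hi
    have h1 : ∀ A ⊆ A0, |u A i| ≤ w * x ^ i + ∑ l ∈ A, if d l ≤ i then
        (3 ^ (i - d l) * w + ε l) * x ^ (i - d l) else 0 := by
      intro A
      induction A using Finset.induction_on with
      | empty => intro _; simpa using h0 i hi
      | insert l A hl ihA =>
        intro hA
        have hA' : A ⊆ A0 := (subset_insert _ _).trans hA
        have hl0 : l ∈ A0 := hA (mem_insert_self _ _)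
        have h2 := hs A hA' l hl0 hl i hi
        have h3 := ihA hA'
        have h4 := abs_sub_abs_le_abs_sub (u (insert l A) i) (u A i)
        rw [sum_insert hl]
        split_ifs at h2 ⊢ with h5
        · have := ih (i - d l) (by have := hd l hl0; omega) (by omega) A hA'
          nlinarith
        · linarith
    intro A hA
    refine (h1 A hA).trans ?_
    have h2 : ∑ l ∈ A, (if d l ≤ i then (3 ^ (i - d l) * w + ε l) * x ^ (i - d l) else 0) ≤
        ∑ l ∈ A0, if d l ≤ i then (3 ^ (i - d l) * w + ε l) * x ^ (i - d l) else 0 :=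
      sum_le_sum_of_subset_of_nonneg hA fun l _ _ => by
        have := hε0 l
        split_ifs
        · positivity
        · rfl
    rw [sum_by_degree d A0 hd] at h2
    have h3 : ∀ k ∈ range i, ∑ l ∈ A0.filter (fun l => d l = i - k),
        (3 ^ (i - d l) * w + ε l) * x ^ (i - d l) ≤ 2 * 3 ^ k * (w * x ^ i) := by
      intro k hk
      have hk := mem_range.1 hk
      rw [sum_congr rfl (g := fun l => (3 ^ k * w + ε l) * x ^ k) (fun l hl => by
        rw [(mem_filter.1 hl).2, show i - (i - k) = k by omega]), ← sum_mul, sum_add_distrib,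
        sum_const, nsmul_eq_mul]
      have a1 := hc (i - k) (by omega) (by omega)
      have a2 := hε (i - k) (by omega) (by omega)
      have a3 : x ^ i = x ^ (i - k) * x ^ k := by rw [← pow_add]; congr 1; omega
      have a4 : (1 : ℝ) ≤ 3 ^ k := one_le_pow₀ (by norm_num)
      have a5 : (0 : ℝ) ≤ w * x ^ (i - k) := by positivity
      have a6 : ((A0.filter fun l => d l = i - k).card : ℝ) * (3 ^ k * w) ≤
          x ^ (i - k) * (3 ^ k * w) := mul_le_mul_of_nonneg_right a1 (by positivity)
      rw [a3]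
      have a7 : ((A0.filter fun l => d l = i - k).card : ℝ) * (3 ^ k * w) +
          ∑ l ∈ A0.filter (fun l => d l = i - k), ε l ≤ 2 * 3 ^ k * (w * x ^ (i - k)) := by
        nlinarith
      calc _ ≤ (2 * 3 ^ k * (w * x ^ (i - k))) * x ^ k :=
            mul_le_mul_of_nonneg_right a7 (by positivity)
        _ = _ := by ring
    have h4 := sum_le_sum h3
    rw [← sum_mul] at h4
    rw [← geo3 i]
    linarith

lemma choose_le_pow_real (n i : ℕ) : (n.choose i : ℝ) ≤ (n : ℝ) ^ i := by
  exact_mod_cast Nat.choose_le_pow n i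

lemma al_abs (n : ℕ) (d : ι → ℕ) (A0 : Finset ι) (hd : ∀ l ∈ A0, 0 < d l) (j : ℕ)
    (hc : ∀ e ≤ j, 0 < e → ((A0.filter fun l => d l = e).card : ℝ) ≤ (n : ℝ) ^ e) :
    ∀ i ≤ j, ∀ A ⊆ A0, |(al n d A i : ℝ)| ≤ 3 ^ i * (1 * (n : ℝ) ^ i) := by
  refine pert (fun A i => al n d A i) A0 d hd j n 1 (by positivity) zero_le_one (fun _ => 0)
    (fun _ => le_rfl) (fun i _ => ?_) (fun A _ l _ hl i _ => ?_) hc fun e _ _ => by simp
  · simpa using choose_le_pow_real n i
  · simp only [al_insert n d hl]
    split_ifs <;> simp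

/-- positivity passes to subfamilies -/
lemma al_pos_erase (n : ℕ) (d : ι → ℕ) {A : Finset ι} {l : ι} (hl : l ∉ A) (hd : 0 < d l) (j : ℕ)
    (h : ∀ i ≤ j, 0 < al n d (insert l A) i) : ∀ i ≤ j, al n d (insert l A) i ≤ al n d A i := by
  intro i
  induction i using Nat.strong_induction_on with
  | _ i ih =>
    intro hi
    rw [al_insert n d hl]
    split_ifs with h1
    · have := ih (i - d l) (by omega) (by omega)
      have := h (i - d l) (by omega)
      linarith
    · simp

lemma al_mono (n : ℕ) (d : ι → ℕ) (j : ℕ) (A T : Finset ι) (hT : Disjoint T A)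
    (hd : ∀ l ∈ T, 0 < d l) (h : ∀ i ≤ j, 0 < al n d (T ∪ A) i) :
    ∀ i ≤ j, al n d (T ∪ A) i ≤ al n d A i := by
  induction T using Finset.induction_on with
  | empty => simp
  | insert l T hl ih =>
    rw [disjoint_insert_left] at hT
    rw [insert_union] at h ⊢
    have h1 := al_pos_erase n d (A := T ∪ A) (by simp [hl, hT.1]) (hd l (by simp)) j h
    intro i hi
    exact (h1 i hi).trans (ih hT.2 (fun l hl => hd l (by simp [hl]))
      (fun i hi => (h i hi).trans_le (h1 i hi)) i hi)

lemma al_le_of_subset (n : ℕ) (d : ι → ℕ) (j : ℕ) {A A0 : Finset ι} (hA : A ⊆ A0)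
    (hd : ∀ l ∈ A0, 0 < d l) (h : ∀ i ≤ j, 0 < al n d A0 i) :
    ∀ i ≤ j, al n d A0 i ≤ al n d A i := by
  have := al_mono n d j A (A0 \ A) sdiff_disjoint (fun l hl => hd l (mem_sdiff.1 hl).1)
  rw [sdiff_union_of_subset hA] at this
  exact this h

lemma al_same (n : ℕ) (d : ι → ℕ) (e : ℕ) (he : 0 < e) (A : Finset ι) (hd : ∀ l ∈ A, d l = e) :
    al n d A 0 = 1 ∧ al n d A e = n.choose e - A.card := by
  induction A using Finset.induction_on with
  | empty => simp
  | insert l A hl ih =>
    have ih := ih fun l hl => hd l (by simp [hl])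
    rw [al_insert n d hl, al_insert n d hl, hd l (by simp), if_neg (by omega), if_pos le_rfl,
      Nat.sub_self, ih.1, ih.2, card_insert_of_notMem hl]
    push_cast
    exact ⟨trivial, by ring⟩

lemma count_le (n : ℕ) (d : ι → ℕ) (j : ℕ) {A0 : Finset ι} (hd : ∀ l ∈ A0, 0 < d l)
    (h : ∀ i ≤ j, 0 < al n d A0 i) :
    ∀ e ≤ j, 0 < e → ((A0.filter fun l => d l = e).card : ℝ) ≤ (n : ℝ) ^ e := by
  intro e he he0
  have h1 := (h e he).trans_le (al_le_of_subset n d j (filter_subset (fun l => d l = e) A0) hd h e he)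
  rw [(al_same n d e he0 _ fun l hl => (mem_filter.1 hl).2).2] at h1
  refine le_trans ?_ (choose_le_pow_real n e)
  have : (A0.filter fun l => d l = e).card ≤ n.choose e := by omega
  exact_mod_cast this

lemma choose_gap (n m N : ℕ) (h1 : m * N ≤ n) (h2 : n ≤ (m + 1) * N) (i : ℕ) :
    ((n.choose i : ℝ) - m.choose i * N ^ i) * n ≤ i * N * (n : ℝ) ^ i := by
  induction i with
  | zero => simp
  | succ i ih =>
    have a1 : ((i : ℝ) + 1) * n.choose (i + 1) ≤ n * n.choose i := by
      have := Nat.choose_succ_right_eq n i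
      have h : (i + 1) * n.choose (i + 1) ≤ n * n.choose i := by
        rw [mul_comm, this, mul_comm]; exact Nat.mul_le_mul_right _ (Nat.sub_le _ _)
      exact_mod_cast h
    have a2 : ((m : ℝ) - i) * m.choose i ≤ (i + 1) * m.choose (i + 1) := by
      have h : ((m.choose (i + 1) : ℝ)) * (i + 1) = m.choose i * ((m - i : ℕ) : ℝ) := by
        exact_mod_cast Nat.choose_succ_right_eq m i
      have h' : (m : ℝ) - i ≤ ((m - i : ℕ) : ℝ) := by
        rcases le_total i m with h | h
        · rw [Nat.cast_sub h]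
        · have : (m : ℝ) ≤ i := by exact_mod_cast h
          have : (0 : ℝ) ≤ ((m - i : ℕ) : ℝ) := by positivity
          linarith
      have : (0 : ℝ) ≤ m.choose i := by positivity
      nlinarith
    have b1 : (m : ℝ) * N ≤ n := by exact_mod_cast h1
    have b2 : (n : ℝ) ≤ (m + 1) * N := by exact_mod_cast h2
    have a3 : (m.choose i : ℝ) * N ^ i ≤ (n : ℝ) ^ i := by
      calc _ ≤ (m : ℝ) ^ i * N ^ i :=
            mul_le_mul_of_nonneg_right (choose_le_pow_real m i) (by positivity)
        _ = ((m : ℝ) * N) ^ i := by rw [mul_pow]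
        _ ≤ _ := pow_le_pow_left₀ (by positivity) b1 i
    have hN : (0 : ℝ) ≤ N := by positivity
    have hn : (0 : ℝ) ≤ n := by positivity
    have hi : (0 : ℝ) ≤ i := by positivity
    have hp : (0 : ℝ) ≤ (m.choose i : ℝ) * N ^ i := by positivity
    have hq : (0 : ℝ) ≤ (n : ℝ) ^ i := by positivity
    have a4 : ((i : ℝ) + 1) * (n.choose (i + 1) - m.choose (i + 1) * N ^ (i + 1)) ≤
        n * (n.choose i - m.choose i * N ^ i) + (i + 1) * N * (n : ℝ) ^ i := by
      have c1 : ((m : ℝ) - i) * m.choose i * N ^ (i + 1) ≤ (i + 1) * m.choose (i + 1) * N ^ (i + 1) :=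
        mul_le_mul_of_nonneg_right a2 (by positivity)
      have c2 : ((n : ℝ) - (i + 1) * N) * (m.choose i * N ^ i) ≤ ((m - i) * N) * (m.choose i * N ^ i) :=
        mul_le_mul_of_nonneg_right (by linarith) hp
      have c3 : ((i : ℝ) + 1) * N * (m.choose i * N ^ i) ≤ (i + 1) * N * (n : ℝ) ^ i :=
        mul_le_mul_of_nonneg_left a3 (by positivity)
      rw [pow_succ] at c1 ⊢
      nlinarith
    have a5 : ((i : ℝ) + 1) * (n.choose (i + 1) - m.choose (i + 1) * N ^ (i + 1)) ≤
        (i + 1) * ((i + 1) * N * (n : ℝ) ^ i) := by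
      have : (0 : ℝ) ≤ N * (n : ℝ) ^ i := by positivity
      have : (0 : ℝ) ≤ i * i * (N * (n : ℝ) ^ i) := by positivity
      nlinarith
    have a6 := mul_le_mul_of_nonneg_right (le_of_mul_le_mul_left a5 (by positivity)) hn
    push_cast
    rw [pow_succ (n : ℝ)]
    linarith

lemma choose_add_le (a e k : ℕ) : (a + e).choose (k + 1) ≤ a.choose (k + 1) + e * (a + e) ^ k := by
  induction e with
  | zero => simp
  | succ e ih =>
    rw [← add_assoc, Nat.choose_succ_succ']
    have h1 := Nat.choose_le_pow (a + e) k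
    have h2 : (a + e) ^ k ≤ (a + e + 1) ^ k := Nat.pow_le_pow_left (by omega) k
    nlinarith

variable {N : ℕ} {supp : ι → Finset B}

omit [DecidableEq ι] in
lemma sum_fiber (A : Finset ι) (b : B) (U : Finset B) (f : Finset B → ℤ) :
    ∑ i ∈ A, (if b ∈ supp i ∧ supp i ⊆ U then f (supp i) else 0) =
      ∑ S ∈ U.powerset.filter (b ∈ ·), ((A.filter fun i => supp i = S).card : ℤ) * f S := by
  rw [← sum_filter, ← sum_fiberwise_of_maps_to (s := A.filter fun i => b ∈ supp i ∧ supp i ⊆ U)
    (t := U.powerset.filter (b ∈ ·)) (g := supp) (fun i hi => by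
      simpa using (mem_filter.1 hi).2.symm)]
  refine sum_congr rfl fun S hS => ?_
  rw [sum_congr rfl (g := fun _ => f S) (fun i hi => by rw [(mem_filter.1 hi).2]), sum_const,
    nsmul_eq_mul, filter_filter]
  congr 3
  refine filter_congr fun i _ => ?_
  have := mem_filter.1 hS
  exact ⟨fun h => h.2, fun h => ⟨⟨h ▸ this.2, h ▸ mem_powerset.1 this.1⟩, h⟩⟩

lemma Ind_abs (j c : ℕ) (A : Finset ι) (hne : ∀ i ∈ A, supp i ≠ ∅)
    (hload : ∀ S : Finset B, S.card ≤ j → (A.filter fun i => supp i = S).card ≤ c * N ^ S.card) :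
    ∀ k ≤ j, ∀ U : Finset B, U.card = k →
      |Ind N supp A U| ≤ (1 + 2 ^ j * c) ^ k * (N : ℤ) ^ k := by
  intro k
  induction k using Nat.strong_induction_on with
  | _ k ih =>
    intro hk U hU
    rcases k with _ | k
    · rw [card_eq_zero.1 hU, Ind_at_empty hne]; simp
    obtain ⟨b, hb⟩ : U.Nonempty := card_pos.1 (by omega)
    rw [Ind_rec b A U hb, sum_fiber A b U fun S => Ind N supp A (U \ S)]
    set D : ℤ := 1 + 2 ^ j * c with hD
    have hD1 : 1 ≤ D := by rw [hD]; have : (0 : ℤ) ≤ 2 ^ j * c := by positivity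
                           linarith
    have h1 := ih k (by omega) (by omega) (U.erase b) (by rw [card_erase_of_mem hb]; omega)
    have h2 : ∀ S ∈ U.powerset.filter (b ∈ ·),
        |((A.filter fun i => supp i = S).card : ℤ) * Ind N supp A (U \ S)| ≤
          c * (D ^ k * N ^ (k + 1)) := by
      intro S hS
      have hSU := mem_powerset.1 (mem_filter.1 hS).1
      have hc := card_le_card hSU
      have hc1 : 0 < S.card := card_pos.2 ⟨b, (mem_filter.1 hS).2⟩
      have h3 := ih (k + 1 - S.card) (by omega) (by omega) (U \ S)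
        (by rw [card_sdiff_of_subset hSU, hU])
      have h4 : ((A.filter fun i => supp i = S).card : ℤ) ≤ c * N ^ S.card := by
        exact_mod_cast hload S (by omega)
      have h5 : D ^ (k + 1 - S.card) ≤ D ^ k := pow_le_pow_right₀ hD1 (by omega)
      rw [abs_mul, Nat.abs_cast]
      calc _ ≤ (c * N ^ S.card : ℤ) * (D ^ k * N ^ (k + 1 - S.card)) :=
            mul_le_mul h4 (h3.trans (mul_le_mul_of_nonneg_right h5 (by positivity)))
              (abs_nonneg _) (by positivity)
        _ = c * (D ^ k * (N ^ S.card * N ^ (k + 1 - S.card))) := by ring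
        _ = _ := by rw [← pow_add, show S.card + (k + 1 - S.card) = k + 1 by omega]
    have h3 := (abs_sum_le_sum_abs _ _).trans (sum_le_sum h2)
    rw [sum_const, nsmul_eq_mul] at h3
    have h4 : ((U.powerset.filter (b ∈ ·)).card : ℤ) ≤ 2 ^ j := by
      have := card_filter_le U.powerset (b ∈ ·)
      rw [card_powerset, hU] at this
      exact_mod_cast this.trans (Nat.pow_le_pow_right (by norm_num) hk)
    have h5 := mul_le_mul_of_nonneg_right h4
      (show (0 : ℤ) ≤ c * (D ^ k * N ^ (k + 1)) by positivity)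
    refine (abs_sub _ _).trans ?_
    rw [abs_mul, Nat.abs_cast]
    have h6 : (N : ℤ) * |Ind N supp A (U.erase b)| ≤ N * (D ^ k * N ^ k) :=
      mul_le_mul_of_nonneg_left h1 (by positivity)
    calc _ ≤ N * (D ^ k * N ^ k) + 2 ^ j * (c * (D ^ k * N ^ (k + 1))) := by linarith
      _ = _ := by rw [pow_succ D, hD]; ring

lemma Ind_unif (M : Finset B) (j : ℕ) (ρ : ℕ → ℕ) (A : Finset ι) (hne : ∀ i ∈ A, supp i ≠ ∅)
    (hload : ∀ S ⊆ M, S.card ≤ j → S ≠ ∅ → (A.filter fun i => supp i = S).card = ρ S.card) :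
    ∃ φ : ℕ → ℤ, ∀ U ⊆ M, U.card ≤ j → Ind N supp A U = φ U.card := by
  suffices h : ∀ k ≤ j, ∃ φ : ℕ → ℤ, ∀ U ⊆ M, U.card ≤ k → Ind N supp A U = φ U.card from
    h j le_rfl
  intro k
  induction k with
  | zero =>
    intro _
    exact ⟨fun _ => 1, fun U _ hU => by rw [card_eq_zero.1 (Nat.le_zero.1 hU), Ind_at_empty hne]⟩
  | succ k ih =>
    intro hk
    obtain ⟨φ, hφ⟩ := ih (by omega)
    refine ⟨Function.update φ (k + 1) (N * φ k - ∑ t ∈ range (k + 1),
      k.choose t • ((ρ (t + 1) : ℤ) * φ (k - t))), fun U hUM hU => ?_⟩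
    rcases hU.lt_or_eq with hU | hU
    · rw [Function.update_of_ne hU.ne, hφ U hUM (by omega)]
    obtain ⟨b, hb⟩ : U.Nonempty := card_pos.1 (by omega)
    have hc : (U.erase b).card = k := by rw [card_erase_of_mem hb]; omega
    rw [hU, Function.update_self, Ind_rec b A U hb, sum_fiber A b U fun S => Ind N supp A (U \ S),
      hφ _ ((erase_subset _ _).trans hUM) hc.le, hc]
    congr 1
    have := sum_powerset_apply_card (fun t => (ρ (t + 1) : ℤ) * φ (k - t)) (x := U.erase b)
    rw [hc] at this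
    rw [← this]
    refine sum_bij' (fun S _ => S.erase b) (fun S _ => insert b S) ?_ ?_ ?_ ?_ ?_
    · intro S hS
      exact mem_powerset.2 (erase_subset_erase _ (mem_powerset.1 (mem_filter.1 hS).1))
    · intro S hS
      refine mem_filter.2 ⟨mem_powerset.2 (insert_subset hb ?_), mem_insert_self _ _⟩
      exact (mem_powerset.1 hS).trans (erase_subset _ _)
    · intro S hS; exact insert_erase (mem_filter.1 hS).2
    · intro S hS; exact erase_insert fun h => by simpa using mem_powerset.1 hS h
    · intro S hS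
      have hSU := mem_powerset.1 (mem_filter.1 hS).1
      have hbS := (mem_filter.1 hS).2
      have h1 := card_le_card hSU
      have h2 : 0 < S.card := card_pos.2 ⟨b, hbS⟩
      rw [hload S (hSU.trans hUM) (by omega) (ne_empty_of_mem hbS),
        hφ _ (sdiff_subset.trans hUM) (by rw [card_sdiff_of_subset hSU]; omega),
        card_sdiff_of_subset hSU, card_erase_add_one hbS, card_erase_of_mem hbS]
      congr 2
      omega

/-- uniform distribution of forms among block sets -/
lemma exists_unif (d : ι → ℕ) (ρ : ℕ → ℕ) (𝒮 : Finset (Finset B)) : ∀ A : Finset ι,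
    (∀ e, (𝒮.filter fun S => S.card = e).card * ρ e ≤ (A.filter fun i => d i = e).card) →
    ∃ (A' : Finset ι) (supp : ι → Finset B), A' ⊆ A ∧ (∀ i ∈ A', supp i ∈ 𝒮 ∧ (supp i).card = d i) ∧
      ∀ S ∈ 𝒮, (A'.filter fun i => supp i = S).card = ρ S.card := by
  induction 𝒮 using Finset.induction_on with
  | empty => intro A _; exact ⟨∅, fun _ => ∅, by simp⟩
  | insert S 𝒮 hS ih =>
    intro A h
    have h1 := h S.card
    rw [filter_insert, if_pos rfl, card_insert_of_notMem (by simp [hS]), add_mul, one_mul] at h1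
    obtain ⟨T, hT, hc⟩ := exists_subset_card_eq (s := A.filter fun i => d i = S.card)
      (n := ρ S.card) (by omega)
    obtain ⟨A', supp, h2, h3, h4⟩ := ih (A \ T) (fun e => by
      by_cases he : S.card = e
      · subst he
        have : (A \ T).filter (fun i => d i = S.card) = A.filter (fun i => d i = S.card) \ T := by
          ext i; simp only [mem_filter, mem_sdiff]; tauto
        rw [this, card_sdiff_of_subset hT]; omega
      · have h5 := h e
        rw [filter_insert, if_neg he] at h5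
        refine h5.trans (card_le_card fun i hi => ?_)
        simp only [mem_filter, mem_sdiff] at hi ⊢
        exact ⟨⟨hi.1, fun hiT => he ((mem_filter.1 (hT hiT)).2.symm.trans hi.2)⟩, hi.2⟩)
    have hdis : ∀ i ∈ A', i ∉ T := fun i hi => (mem_sdiff.1 (h2 hi)).2
    refine ⟨T ∪ A', fun i => if i ∈ T then S else supp i,
      union_subset (hT.trans (filter_subset _ _)) (h2.trans sdiff_subset), ?_, ?_⟩
    · intro i hi
      by_cases hiT : i ∈ T
      · simp only [if_pos hiT]
        exact ⟨mem_insert_self _ _, (mem_filter.1 (hT hiT)).2.symm⟩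
      · simp only [if_neg hiT]
        have := h3 i ((mem_union.1 hi).resolve_left hiT)
        exact ⟨mem_insert_of_mem this.1, this.2⟩
    · intro S' hS'
      rcases mem_insert.1 hS' with rfl | hS'
      · rw [← hc]
        congr 1
        ext i
        simp only [mem_filter, mem_union]
        by_cases hiT : i ∈ T
        · simp [hiT]
        · simp only [hiT, false_or, if_false, iff_false, not_and]
          exact fun hi e => hS (e ▸ (h3 i hi).1)
      · rw [← h4 S' hS']
        congr 1
        ext i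
        simp only [mem_filter, mem_union]
        by_cases hiT : i ∈ T
        · simp only [hiT, true_or, if_true, true_and]
          exact ⟨fun e => absurd (e ▸ hS') hS, fun h => absurd hiT (hdis i h.1)⟩
        · simp [hiT]

end Pool.Agent.P.MP_3acc10_al
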