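import Pool.Agent.P.MP_3acc10_al.Upper

set_option autoImplicit false

namespace Pool.Agent.P.MP_3acc10_al

open Module Finset

open Classical in
/-- coefficient of the truncated series -/
noncomputable def ex {ι : Type*} (n : ℕ) (d : ι → ℕ) (A : Finset ι) (j : ℕ) : ℤ :=
  if ∀ i ≤ j, 0 < al n d A i then al n d A j else 0

lemma kill {K : Type*} [Field K] {σ ι : Type*} [Fintype σ] [DecidableEq σ] [Fintype ι]
    [DecidableEq ι] (e : ℕ) (d : ι → ℕ) (A : Finset ι)
    (h : (Fintype.card σ).choose e < (A.filter fun l => d l = e).card) :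
    Gen fun c : ι × Finset σ → K => finrank K (WF e d A c) ≤ 0 := by
  obtain ⟨l0, -⟩ : (A.filter fun l => d l = e).Nonempty := card_pos.1 (by omega)
  have : Nonempty ι := ⟨l0⟩
  obtain ⟨g, hg, hinj⟩ := Set.Finite.exists_injOn_of_encard_le
    (s := ((univ : Finset σ).powersetCard e : Set (Finset σ)))
    (t := ((A.filter fun l => d l = e : Finset ι) : Set ι)) (finite_toSet _) (by
      rw [Set.encard_coe_eq_coe_finsetCard, Set.encard_coe_eq_coe_finsetCard, card_powersetCard,
        card_univ]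
      exact_mod_cast h.le)
  refine gen_W _ _ _ 0 (fun p => if g p.2 = p.1 then 1 else 0) ?_
  rw [Nat.le_zero, Submodule.finrank_eq_zero, eq_bot_iff]
  intro F hF
  rw [Submodule.mem_bot]
  ext X
  by_cases hX : X.card = e
  · have hX' : X ∈ (univ : Finset σ).powersetCard e := mem_powersetCard.2 ⟨subset_univ _, hX⟩
    have h1 := mem_filter.1 (mem_coe.1 (hg (mem_coe.2 hX')))
    have h2 := congrFun (hF.2 (g X) h1.1) ∅
    have h3 : mask (fun i Y => Y.card = d i)
        (fun p : ι × Finset σ => if g p.2 = p.1 then (1 : K) else 0) (g X) = Pi.single X 1 := by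
      ext Y
      simp only [mask, h1.2]
      by_cases hY : Y = X
      · simp [hY, hX]
      · rw [Pi.single_eq_of_ne hY]
        split_ifs with h4 h5
        · exact absurd (hinj (mem_coe.2 (mem_powersetCard.2 ⟨subset_univ _, h4⟩)) hX' h5) hY
        · rfl
        · rfl
    rw [h3, act_single] at h2
    simpa using h2
  · exact hF.1 X hX

theorem asym0 (j : ℕ) : ∃ C : ℝ, 0 ≤ C ∧ ∀ (K : Type) [Field K] [Infinite K] (ι : Type)
    [Fintype ι] [DecidableEq ι] (n m N : ℕ) (d : ι → ℕ)
    (A0 : Finset ι), 0 < N → N ≤ m → 2 * j ≤ m → m * N ≤ n → n ≤ (m + 1) * N →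
    (∀ l ∈ A0, 0 < d l) →
    Gen fun c : ι × Finset (Fin n) → K => |(finrank K (WF j d A0 c) : ℝ) - ex n d A0 j| ≤
      C * ((n : ℝ) ^ j / N) := by
  choose Cf hCf h using upper
  set C := ∑ i ∈ range (j + 1), Cf i with hC
  have hC0 : 0 ≤ C := sum_nonneg fun i _ => hCf i
  have hle : ∀ i ≤ j, Cf i ≤ C := fun i hi =>
    single_le_sum (f := Cf) (fun i _ => hCf i) (mem_range.2 (by omega))
  refine ⟨(j + 1) * C, by positivity, ?_⟩
  intro K _ _ ι _ _ n m N d A0 hN hNm hm h1 h2 hd
  have up : ∀ i ≤ j, ∀ A ⊆ A0,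
      (∀ e ≤ i, 0 < e → ((A0.filter fun l => d l = e).card : ℝ) ≤ (n : ℝ) ^ e) →
      Gen fun c : ι × Finset (Fin n) → K => (finrank K (WF i d A c) : ℝ) ≤
        max (al n d A i : ℝ) 0 + C * ((n : ℝ) ^ i / N) := by
    intro i hi A hA hc
    refine (h i K ι n m N d A hN hNm (by omega) h1 h2 (fun l hl => hd l (hA hl))
      fun e he he0 => le_trans ?_ (hc e he he0)).mono fun c hc => hc.trans ?_
    · exact_mod_cast card_le_card (filter_subset_filter _ hA)
    · have := hle i hi
      gcongr
  have hq : (0 : ℝ) ≤ C * ((n : ℝ) ^ j / N) := by positivity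
  have hj0 : (0 : ℝ) ≤ j := by positivity
  by_cases hpos : ∀ i ≤ j, 0 < al n d A0 i
  · rw [ex, if_pos hpos]
    have hcnt := count_le n d j hd hpos
    refine (Gen.all A0.powerset fun A hA => Gen.all (range (j + 1)) fun i hi =>
      up i (Nat.lt_succ_iff.1 (mem_range.1 hi)) A (mem_powerset.1 hA) fun e he =>
        hcnt e (he.trans (Nat.lt_succ_iff.1 (mem_range.1 hi)))).mono fun c hc => ?_
    have hc' : ∀ A ⊆ A0, ∀ i ≤ j, (finrank K (WF i d A c) : ℝ) ≤
        al n d A i + C * ((n : ℝ) ^ i / N) := by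
      intro A hA i hi
      have := hc A (mem_powerset.2 hA) i (mem_range.2 (by omega))
      rwa [max_eq_left] at this
      exact_mod_cast ((hpos i hi).trans_le (al_le_of_subset n d j hA hd hpos i hi)).le
    have low : ∀ A ⊆ A0, (al n d A j : ℝ) ≤ finrank K (WF j d A c) +
        ∑ l ∈ A, if d l ≤ j then C * ((n : ℝ) ^ (j - d l) / N) else 0 := by
      intro A
      induction A using Finset.induction_on with
      | empty => intro _; simp [finrank_WF_empty]
      | insert l A hl ih =>
        intro hA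
        have hA' : A ⊆ A0 := (subset_insert _ _).trans hA
        have a1 := ih hA'
        have a2 := lower_step j d A l c
        rw [sum_insert hl, al_insert n d hl]
        split_ifs at a2 ⊢ with h
        · have a3 := hc' A hA' (j - d l) (by omega)
          have a2 : (finrank K (WF j d A c) : ℝ) ≤ finrank K (WF j d (insert l A) c) +
            finrank K (WF (j - d l) d A c) := by exact_mod_cast a2
          push_cast
          linarith
        · have a2 : (finrank K (WF j d A c) : ℝ) ≤ finrank K (WF j d (insert l A) c) := by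
            exact_mod_cast a2
          push_cast
          linarith
    have a1 := low A0 Subset.rfl
    rw [sum_by_degree d A0 hd] at a1
    have a2 : ∀ k ∈ range j, ∑ l ∈ A0.filter (fun l => d l = j - k),
        C * ((n : ℝ) ^ (j - d l) / N) ≤ C * ((n : ℝ) ^ j / N) := by
      intro k hk
      have hk := mem_range.1 hk
      rw [sum_congr rfl (g := fun _ => C * ((n : ℝ) ^ k / N)) (fun l hl => by
        rw [(mem_filter.1 hl).2, show j - (j - k) = k by omega]), sum_const, nsmul_eq_mul]
      have := hcnt (j - k) (by omega) (by omega)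
      calc _ ≤ (n : ℝ) ^ (j - k) * (C * ((n : ℝ) ^ k / N)) := by gcongr
        _ = C * (((n : ℝ) ^ (j - k) * (n : ℝ) ^ k) / N) := by ring
        _ = _ := by rw [← pow_add, show j - k + k = j by omega]
    have a3 := sum_le_card_nsmul _ _ _ a2
    rw [card_range, nsmul_eq_mul] at a3
    have a4 := hc' A0 Subset.rfl j le_rfl
    rw [abs_le]
    constructor <;> nlinarith
  · rw [ex, if_neg hpos]
    have hex : ∃ i, i ≤ j ∧ al n d A0 i ≤ 0 := by simpa using hpos
    obtain ⟨hi, hi0⟩ := Nat.find_spec hex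
    have hmin := fun k => Nat.find_min hex (m := k)
    set i := Nat.find hex
    have fin : Gen fun c : ι × Finset (Fin n) → K =>
        (finrank K (WF i d A0 c) : ℝ) ≤ C * ((n : ℝ) ^ i / N) := by
      by_cases hb : n.choose i < (A0.filter fun l => d l = i).card
      · refine (kill i d A0 (by rwa [Fintype.card_fin])).mono fun c hc => ?_
        rw [Nat.le_zero.1 hc, Nat.cast_zero]; positivity
      · refine (up i hi A0 Subset.rfl fun e he he0 => ?_).mono fun c hc => ?_
        · rcases he.lt_or_eq with he | rfl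
          · refine count_le n d e hd (fun k hk => ?_) e le_rfl he0
            by_contra h3
            exact hmin k (by omega) ⟨by omega, not_lt.1 h3⟩
          · exact le_trans (by exact_mod_cast not_lt.1 hb) (choose_le_pow_real n _)
        · rwa [max_eq_right (by exact_mod_cast hi0), zero_add] at hc
    refine fin.mono fun c hc => ?_
    have a1 := finrank_WF_add i (j - i) d A0 c
    rw [Fintype.card_fin, show i + (j - i) = j by omega] at a1
    have a2 : (finrank K (WF j d A0 c) : ℝ) ≤ (n : ℝ) ^ (j - i) * finrank K (WF i d A0 c) := by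
      exact_mod_cast a1
    have a3 : (n : ℝ) ^ (j - i) * finrank K (WF i d A0 c) ≤ C * ((n : ℝ) ^ j / N) :=
      calc _ ≤ (n : ℝ) ^ (j - i) * (C * ((n : ℝ) ^ i / N)) := by gcongr
        _ = C * (((n : ℝ) ^ (j - i) * (n : ℝ) ^ i) / N) := by ring
        _ = _ := by rw [← pow_add, show j - i + i = j by omega]
    rw [Int.cast_zero, sub_zero, Nat.abs_cast]
    nlinarith

lemma ex_bounds {ι : Type*} [DecidableEq ι] (n : ℕ) (d : ι → ℕ) (A : Finset ι) (j : ℕ)
    (hd : ∀ l ∈ A, 0 < d l) : 0 ≤ ex n d A j ∧ ex n d A j ≤ n.choose j := by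
  rw [ex]
  split_ifs with h
  · exact ⟨(h j le_rfl).le, by simpa using al_le_of_subset n d j (empty_subset A) hd h j le_rfl⟩
  · simp

theorem asym (j : ℕ) : ∃ C : ℝ, 0 ≤ C ∧ ∀ (K : Type) [Field K] [Infinite K] (ι : Type)
    [Fintype ι] [DecidableEq ι] (n : ℕ) (d : ι → ℕ) (A0 : Finset ι), (∀ l ∈ A0, 0 < d l) →
    Gen fun c : ι × Finset (Fin n) → K => |(finrank K (WF j d A0 c) : ℝ) - ex n d A0 j| * √n ≤
      C * (n : ℝ) ^ j := by
  obtain ⟨C, hC, h⟩ := asym0 j
  refine ⟨2 * C + (2 * j + 1), by positivity, ?_⟩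
  intro K _ _ ι _ _ n d A0 hd
  have hs : √(n : ℝ) ≤ n.sqrt + 1 := by
    rw [Real.sqrt_le_left (by positivity)]
    exact_mod_cast (Nat.lt_succ_sqrt' n).le
  have hp : (0 : ℝ) ≤ (n : ℝ) ^ j := by positivity
  by_cases hn : 2 * j + 1 ≤ n.sqrt
  · have hN : 0 < n.sqrt := by omega
    have hNm : n.sqrt ≤ n / n.sqrt := (Nat.le_div_iff_mul_le hN).2 (Nat.sqrt_le n)
    refine (h K ι n (n / n.sqrt) n.sqrt d A0 hN hNm (by omega) (Nat.div_mul_le_self _ _)
      (by rw [add_mul, one_mul]; exact (Nat.lt_div_mul_add hN).le) hd).mono fun c hc => ?_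
    have hNr : (1 : ℝ) ≤ n.sqrt := by exact_mod_cast hN
    calc _ ≤ C * ((n : ℝ) ^ j / n.sqrt) * (2 * n.sqrt) := by gcongr; linarith
      _ = 2 * C * (n : ℝ) ^ j := by field_simp
      _ ≤ _ := by gcongr; linarith [show (0 : ℝ) ≤ j by positivity]
  · refine Gen.of_forall fun c => ?_
    have a1 := finrank_WF_le j d A0 c
    rw [Fintype.card_fin] at a1
    have a2 : (finrank K (WF j d A0 c) : ℝ) ≤ n.choose j := by exact_mod_cast a1
    have a3 : (0 : ℝ) ≤ ex n d A0 j := by exact_mod_cast (ex_bounds n d A0 j hd).1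
    have a4 : (ex n d A0 j : ℝ) ≤ n.choose j := by exact_mod_cast (ex_bounds n d A0 j hd).2
    have a5 := choose_le_pow_real n j
    have a6 : (0 : ℝ) ≤ finrank K (WF j d A0 c) := by positivity
    have a7 : |(finrank K (WF j d A0 c) : ℝ) - ex n d A0 j| ≤ (n : ℝ) ^ j := by
      rw [abs_le]; constructor <;> linarith
    have a8 : (n.sqrt : ℝ) ≤ 2 * j := by exact_mod_cast (show n.sqrt ≤ 2 * j by omega)
    calc _ ≤ (n : ℝ) ^ j * (2 * j + 1) := by gcongr; linarith
      _ ≤ _ := by nlinarith

end Pool.Agent.P.MP_3acc10_al
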