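import Pool.Agent.P.MP_3acc10_al.BGood

set_option autoImplicit false

namespace Pool.Agent.P.MP_3acc10_al.Bld

open Finset Module Matrix

variable {n j : ℕ} {ι : Type} [Fintype ι] [DecidableEq ι]

variable {x0 x y : Fin j → Fin n} {c : ι × Finset (Fin n) → ℤ} {a : ι}
  {π : Finset (Fin j)}

omit [Fintype ι] in
theorem bratio_toNat (hne : π.image y ≠ π.image x) (γ : ι × Finset (Fin n)) :
    ((c + dl (some a, π) x y) γ).toNat +
        (if γ = (a, π.image x) ∧ 0 < c (a, π.image x) then 1 else 0) =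
      (c γ).toNat + if γ = (a, π.image y) ∧ 0 ≤ c (a, π.image y) then 1 else 0 := by
  have h : ((a, π.image y) : ι × Finset (Fin n)) ≠ (a, π.image x) := fun h =>
    hne (congrArg Prod.snd h)
  have e : (c + dl (some a, π) x y) γ = c γ + ((if γ = (a, π.image y) then 1 else 0) -
      if γ = (a, π.image x) then 1 else 0) := by
    simp only [dl, Option.elim, Pi.add_apply, Pi.sub_apply, Pi.single_apply]
  rw [e]
  by_cases h1 : γ = (a, π.image x)
  · subst h1
    simp only [h.symm, if_false, if_true, true_and, false_and]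
    split_ifs <;> omega
  · by_cases h2 : γ = (a, π.image y)
    · subst h2
      simp only [h, if_false, if_true, true_and, false_and]
      split_ifs <;> omega
    · simp only [h1, h2, if_false, false_and]
      omega

theorem bratio_sum {α : Type} [DecidableEq α] (s : Finset α) (β : α) (P : Prop) [Decidable P] :
    ∑ γ ∈ s, (if γ = β ∧ P then 1 else 0 : ℕ) = if P ∧ β ∈ s then 1 else 0 := by
  by_cases h : P <;> simp [h]

theorem uu_step (hne : π.image y ≠ π.image x) (e : Fin n) :
    uu x0 (c + dl (some a, π) x y) e + (if 0 < c (a, π.image x) ∧ e ∈ π.image x then 1 else 0) =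
      uu x0 c e + if 0 ≤ c (a, π.image y) ∧ e ∈ π.image y then 1 else 0 := by
  have h := Finset.sum_congr (rfl : (univ.filter fun γ : ι × Finset (Fin n) => e ∈ γ.2) = _)
    fun γ _ => bratio_toNat (c := c) (a := a) hne γ
  rw [sum_add_distrib, sum_add_distrib, bratio_sum, bratio_sum] at h
  simp only [mem_filter, mem_univ, true_and] at h
  unfold uu cre
  omega

theorem zz_step (hne : π.image y ≠ π.image x) (b : ι) :
    zz (c + dl (some a, π) x y) b + (if b = a ∧ 0 < c (a, π.image x) then 1 else 0) =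
      zz c b + if b = a ∧ 0 ≤ c (a, π.image y) then 1 else 0 := by
  have h := Finset.sum_congr (rfl : (univ : Finset (Finset (Fin n))) = _)
    fun I _ => bratio_toNat (c := c) (a := a) hne (b, I)
  rw [sum_add_distrib, sum_add_distrib] at h
  unfold zz
  by_cases hb : b = a
  · simp only [hb, Prod.mk.injEq, true_and, bratio_sum, mem_univ, and_true] at h ⊢
    exact h
  · simp only [hb, Prod.mk.injEq, false_and, if_false, sum_const_zero] at h ⊢
    exact h

open Classical in
theorem bratio_fresh : ∑ e, (if e ∈ π.image y ∧ 1 ≤ uu x0 c e then 1 else 0 : ℕ) ≤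
    if Fresh x0 c π y then 0 else j := by
  split_ifs with h
  · refine (sum_eq_zero fun e _ => if_neg ?_).le
    rintro ⟨h1, h2⟩
    obtain ⟨p, hp, rfl⟩ := mem_image.1 h1
    rw [h p hp] at h2
    omega
  · calc _ ≤ ∑ e, (if e ∈ π.image y then 1 else 0 : ℕ) := sum_le_sum fun e _ => by
          split_ifs with h1 h2
          · exact le_rfl
          · exact absurd h1.1 h2
          · exact Nat.zero_le _
          · exact le_rfl
      _ = (π.image y).card := by rw [sum_ite_mem, univ_inter, card_eq_sum_ones]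
      _ ≤ j := card_image_le.trans (by simpa using card_le_univ π)

open Classical in
theorem bratio_old : (if ∃ p ∈ π, 2 ≤ uu x0 c (x p) then 1 else 0 : ℕ) ≤
    ∑ e, (if e ∈ π.image x ∧ 2 ≤ uu x0 c e then 1 else 0 : ℕ) := by
  split_ifs with h
  · obtain ⟨p, hp, h2⟩ := h
    refine le_trans (le_of_eq ?_) (single_le_sum (fun _ _ => Nat.zero_le _) (mem_univ (x p)))
    rw [if_pos ⟨mem_image_of_mem x hp, h2⟩]
  · exact Nat.zero_le _

omit [DecidableEq ι] in
theorem bratio_prod [DecidableEq ι] (ω : ι → ℝ) {z z' : ι → ℕ}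
    (h : ∀ b, z' b = z b + if b = a then 1 else 0) :
    ∏ b, ω b ^ z' b = (∏ b, ω b ^ z b) * ω a := by
  simp only [h, pow_add, prod_mul_distrib, pow_ite, pow_one, pow_zero, prod_ite_eq', mem_univ,
    if_true]

omit [DecidableEq ι] in
theorem bratio_Z [DecidableEq ι] {z z' : ι → ℕ} (h : ∀ b, z' b = z b + if b = a then 1 else 0) :
    ∑ b, (z' b - 1) = ∑ b, (z b - 1) + if z a = 0 then 0 else 1 := by
  have e : ∀ b, z' b - 1 = z b - 1 + if b = a then (if z a = 0 then 0 else 1) else 0 := fun b => by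
    rw [h]
    by_cases hb : b = a
    · subst hb
      simp only [if_true]
      split_ifs <;> omega
    · simp only [hb, if_false, add_zero]
  simp only [e, sum_add_distrib, sum_ite_eq', mem_univ, if_true]

variable {ω : ι → ℝ} {lam : ℝ}

theorem base_nonneg (hω : ∀ b, 0 ≤ ω b) (hl : 1 ≤ lam) : 0 ≤ base ω lam x0 c :=
  mul_nonneg (prod_nonneg fun b _ => pow_nonneg (hω b) _) (pow_nonneg (zero_le_one.trans hl) _)

open Classical in
theorem ratio_NN (hω : ∀ b, 0 ≤ ω b) (hl : 1 ≤ lam) (hne : π.image y ≠ π.image x)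
    (hβ : c (a, π.image x) ≤ 0) (hα : 0 ≤ c (a, π.image y)) :
    base ω lam x0 (c + dl (some a, π) x y) ≤ base ω lam x0 c * ω a *
      lam ^ ((if zz c a = 0 then 0 else 1) + if Fresh x0 c π y then 0 else j) := by
  have hz : ∀ b, zz (c + dl (some a, π) x y) b = zz c b + if b = a then 1 else 0 := fun b => by
    simpa [hα, not_lt.2 hβ] using zz_step (c := c) (a := a) hne b
  have hu : ∑ e, (uu x0 (c + dl (some a, π) x y) e - 1) ≤ ∑ e, (uu x0 c e - 1) +
      ∑ e, (if e ∈ π.image y ∧ 1 ≤ uu x0 c e then 1 else 0 : ℕ) := by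
    rw [← sum_add_distrib]
    refine sum_le_sum fun e _ => ?_
    have h := uu_step (x0 := x0) (c := c) (a := a) hne e
    simp only [hα, not_lt.2 hβ, false_and, true_and, if_false] at h
    by_cases h1 : e ∈ π.image y <;> simp only [h1, if_true, if_false, true_and, false_and] at h ⊢
    · split_ifs <;> omega
    · omega
  have hf := bratio_fresh (x0 := x0) (c := c) (π := π) (y := y)
  unfold base
  rw [bratio_prod ω hz, bratio_Z hz, mul_right_comm _ _ (ω a), mul_assoc _ (lam ^ _), ← pow_add]
  exact mul_le_mul_of_nonneg_left (pow_le_pow_right₀ hl (by omega))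
    (mul_nonneg (prod_nonneg fun b _ => pow_nonneg (hω b) _) (hω a))

theorem ratio_NO (hne : π.image y ≠ π.image x) (hβ : c (a, π.image x) ≤ 0)
    (hα : c (a, π.image y) < 0) :
    base ω lam x0 (c + dl (some a, π) x y) = base ω lam x0 c := by
  have hz : ∀ b, zz (c + dl (some a, π) x y) b = zz c b := fun b => by
    simpa [not_le.2 hα, not_lt.2 hβ] using zz_step (c := c) (a := a) hne b
  have hu : ∀ e, uu x0 (c + dl (some a, π) x y) e = uu x0 c e := fun e => by
    simpa [not_le.2 hα, not_lt.2 hβ] using uu_step (x0 := x0) (c := c) (a := a) hne e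
  simp only [base, hz, hu]

open Classical in
theorem ratio_ON (hω : ∀ b, 0 ≤ ω b) (hl : 1 ≤ lam) (hne : π.image y ≠ π.image x)
    (hβ : 0 < c (a, π.image x)) (hα : 0 ≤ c (a, π.image y)) :
    base ω lam x0 (c + dl (some a, π) x y) * lam ^ (if ∃ p ∈ π, 2 ≤ uu x0 c (x p) then 1 else 0) ≤
      base ω lam x0 c * lam ^ (if Fresh x0 c π y then 0 else j) := by
  have hz : ∀ b, zz (c + dl (some a, π) x y) b = zz c b := fun b => by
    simpa [hα, hβ] using zz_step (c := c) (a := a) hne b
  have hu : ∑ e, (uu x0 (c + dl (some a, π) x y) e - 1) +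
      ∑ e, (if e ∈ π.image x ∧ 2 ≤ uu x0 c e then 1 else 0 : ℕ) ≤ ∑ e, (uu x0 c e - 1) +
      ∑ e, (if e ∈ π.image y ∧ 1 ≤ uu x0 c e then 1 else 0 : ℕ) := by
    rw [← sum_add_distrib, ← sum_add_distrib]
    refine sum_le_sum fun e _ => ?_
    have h := uu_step (x0 := x0) (c := c) (a := a) hne e
    simp only [hα, hβ, true_and] at h
    by_cases h1 : e ∈ π.image y <;> by_cases h2 : e ∈ π.image x <;>
      simp only [h1, h2, if_true, if_false, true_and, false_and] at h ⊢
    · split_ifs <;> omega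
    · split_ifs <;> omega
    · split_ifs <;> omega
    · omega
  have hf := bratio_fresh (x0 := x0) (c := c) (π := π) (y := y)
  have ho := bratio_old (x0 := x0) (c := c) (π := π) (x := x)
  simp only [base, hz]
  rw [mul_assoc, mul_assoc, ← pow_add, ← pow_add]
  exact mul_le_mul_of_nonneg_left (pow_le_pow_right₀ hl (by omega))
    (prod_nonneg fun b _ => pow_nonneg (hω b) _)

open Classical in
theorem ratio_OO (hω : ∀ b, 0 ≤ ω b) (hl : 1 ≤ lam) (hne : π.image y ≠ π.image x)
    (hβ : 0 < c (a, π.image x)) (hα : c (a, π.image y) < 0) :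
    base ω lam x0 (c + dl (some a, π) x y) * ω a *
      lam ^ (if (∃ p ∈ π, 2 ≤ uu x0 c (x p)) ∨ 2 ≤ zz c a then 1 else 0) ≤ base ω lam x0 c := by
  have hz : ∀ b, zz c b = zz (c + dl (some a, π) x y) b + if b = a then 1 else 0 := fun b => by
    simpa [not_le.2 hα, hβ] using (zz_step (c := c) (a := a) hne b).symm
  have hu : ∑ e, (uu x0 (c + dl (some a, π) x y) e - 1) +
      ∑ e, (if e ∈ π.image x ∧ 2 ≤ uu x0 c e then 1 else 0 : ℕ) ≤ ∑ e, (uu x0 c e - 1) := by
    rw [← sum_add_distrib]
    refine sum_le_sum fun e _ => ?_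
    have h := uu_step (x0 := x0) (c := c) (a := a) hne e
    simp only [not_le.2 hα, hβ, false_and, true_and, if_false] at h
    by_cases h2 : e ∈ π.image x <;> simp only [h2, if_true, if_false, true_and, false_and] at h ⊢
    · split_ifs <;> omega
    · omega
  have ho := bratio_old (x0 := x0) (c := c) (π := π) (x := x)
  have ha := hz a
  rw [if_pos rfl] at ha
  unfold base
  rw [bratio_prod ω hz, bratio_Z hz, mul_right_comm _ _ (ω a), mul_assoc _ (lam ^ _), ← pow_add]
  refine mul_le_mul_of_nonneg_left (pow_le_pow_right₀ hl ?_)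
    (mul_nonneg (prod_nonneg fun b _ => pow_nonneg (hω b) _) (hω a))
  by_cases h1 : ∃ p ∈ π, 2 ≤ uu x0 c (x p)
  · rw [if_pos h1] at ho
    rw [if_pos (Or.inl h1)]
    omega
  · simp only [h1, false_or]
    split_ifs <;> omega

end Pool.Agent.P.MP_3acc10_al.Bld
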