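import Pool.Agent.P.MP_3acc10_al.BCount
import Pool.Agent.P.MP_3acc10_al.BRatio

set_option autoImplicit false

namespace Pool.Agent.P.MP_3acc10_al.Bld

open Finset Module Matrix

variable {n j : ℕ} {ι : Type} [Fintype ι] [DecidableEq ι]

variable {x0 x : Fin j → Fin n} {c : ι × Finset (Fin n) → ℤ} {σ : St (Let ι j)} {a : ι}
  {π : Finset (Fin j)}

variable {η0 lam : ℝ} {d : ι → ℕ}

omit [Fintype ι] [DecidableEq ι] in
theorem babn1_zz (h : 0 < c (a, π.image x)) : 1 ≤ zz c a := by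
  have h1 : (c (a, π.image x)).toNat ≤ zz c a :=
    single_le_sum (f := fun I => (c (a, I)).toNat) (fun _ _ => Nat.zero_le _) (mem_univ _)
  omega

theorem babn1_clo (hG : Good x0 x c) (ha : (some a, π) ∈ alw σ) (hx : Set.InjOn x π)
    (h : 0 < c (a, π.image x)) (hC : ¬ Clo x0 x σ c a π) : ∃ p ∈ π, 2 ≤ uu x0 c (x p) := by
  by_contra h2
  refine hC ⟨ha, hx, h, fun p hp => ?_⟩
  have h3 : ¬ 2 ≤ uu x0 c (x p) := fun h4 => h2 ⟨p, hp, h4⟩
  have h4 := mult_le hG (x p)
  have h5 : 0 < mult x (x p) := card_pos.2 ⟨p, by simp⟩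
  omega

open Classical in
theorem babn1_term {ω : ι → ℝ} (hω : ∀ b, 0 ≤ ω b) (hw : 0 < ω a) (hl : 1 ≤ lam)
    (hG : Good x0 x c) (ha : (some a, π) ∈ alw σ) {y : Fin j → Fin n} (hx : Set.InjOn x π)
    (hne : π.image y ≠ π.image x) (hN : ¬ Nrm x0 x σ c a π y) :
    base ω lam x0 (c + dl (some a, π) x y) ≤ base ω lam x0 c *
      ((ω a * lam ^ j + zz c a * lam ^ j) * (if Fresh x0 c π y then 0 else 1)
        + (zz c a * (ω a * lam ^ (j + 1)) + zz c a / lam)
        + (1 + (ω a * lam)⁻¹) * (if c (a, π.image y) < 0 then 1 else 0)) := by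
  have hB : 0 ≤ base ω lam x0 c := base_nonneg hω hl
  have hB' : 0 ≤ base ω lam x0 (c + dl (some a, π) x y) := base_nonneg hω hl
  have hl0 : 0 < lam := by linarith
  have hZ : (0 : ℝ) ≤ zz c a := Nat.cast_nonneg _
  have i1 : (0 : ℝ) ≤ if Fresh x0 c π y then 0 else 1 := by split_ifs <;> norm_num
  have i2 : (0 : ℝ) ≤ if c (a, π.image y) < 0 then 1 else 0 := by split_ifs <;> norm_num
  have p1 : 0 ≤ ω a * lam ^ j := by positivity
  have p2 : 0 ≤ zz c a * lam ^ j := by positivity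
  have p3 : 0 ≤ zz c a * (ω a * lam ^ (j + 1)) := by positivity
  have p4 : 0 ≤ zz c a / lam := by positivity
  have p5 : 0 ≤ (ω a * lam)⁻¹ := by positivity
  have q1 := mul_nonneg (add_nonneg p1 p2) i1
  have q2 := mul_nonneg (add_nonneg zero_le_one p5) i2
  rcases le_or_gt (c (a, π.image x)) 0 with hβ | hβ <;>
    rcases le_or_gt 0 (c (a, π.image y)) with hα | hα
  · have h := ratio_NN (x0 := x0) hω hl hne hβ hα
    rw [mul_assoc] at h
    refine h.trans (mul_le_mul_of_nonneg_left ?_ hB)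
    by_cases hz : zz c a = 0
    · have hF : ¬ Fresh x0 c π y := fun hF => hN (Or.inl ⟨hz, hF⟩)
      rw [if_pos hz, if_neg hF, if_neg hF, zero_add]
      linarith
    · have hz1 : (1 : ℝ) ≤ zz c a := by exact_mod_cast Nat.one_le_iff_ne_zero.2 hz
      have h1 : lam ^ (1 + if Fresh x0 c π y then 0 else j) ≤ lam ^ (j + 1) :=
        pow_le_pow_right₀ hl (by split_ifs <;> omega)
      have h2 := mul_le_mul_of_nonneg_left h1 hw.le
      have h3 : ω a * lam ^ (j + 1) ≤ zz c a * (ω a * lam ^ (j + 1)) :=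
        le_mul_of_one_le_left (by positivity) hz1
      rw [if_neg hz]
      linarith
  · rw [ratio_NO hne hβ hα]
    refine le_mul_of_one_le_right hB ?_
    rw [if_pos hα]
    linarith
  · have h := ratio_ON (x0 := x0) hω hl hne hβ hα
    have hz1 : (1 : ℝ) ≤ zz c a := by exact_mod_cast babn1_zz hβ
    by_cases hF : Fresh x0 c π y
    · have hC : ¬ Clo x0 x σ c a π := fun hC => hN (Or.inr (Or.inl ⟨hC, hF⟩))
      rw [if_pos (babn1_clo hG ha hx hβ hC), if_pos hF, pow_one, pow_zero,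
        ← le_div_iff₀ hl0, mul_div_assoc] at h
      refine h.trans (mul_le_mul_of_nonneg_left ?_ hB)
      have h1 : 1 / lam ≤ zz c a / lam := div_le_div_of_nonneg_right hz1 hl0.le
      linarith
    · rw [if_neg hF] at h
      refine ((le_mul_of_one_le_right hB' (one_le_pow₀ hl)).trans h).trans
        (mul_le_mul_of_nonneg_left ?_ hB)
      have h1 : lam ^ j ≤ zz c a * lam ^ j := le_mul_of_one_le_left (by positivity) hz1
      rw [if_neg hF]
      linarith
  · have h := ratio_OO (x0 := x0) hω hl hne hβ hα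
    have hc : (∃ p ∈ π, 2 ≤ uu x0 c (x p)) ∨ 2 ≤ zz c a := by
      by_cases hC : Clo x0 x σ c a π
      · have h1 : zz c a ≠ 1 := fun h1 => hN (Or.inr (Or.inr ⟨hC, h1, hα⟩))
        have h2 := babn1_zz hβ
        exact Or.inr (by omega)
      · exact Or.inl (babn1_clo hG ha hx hβ hC)
    rw [if_pos hc, pow_one, mul_assoc, ← le_div_iff₀ (by positivity), div_eq_mul_inv] at h
    refine h.trans (mul_le_mul_of_nonneg_left ?_ hB)
    rw [if_pos hα]
    linarith

open Classical in
theorem abn_one (hn : j + 2 ≤ n) (hη : 0 ≤ η0) (hl : 1 ≤ lam)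
    (hG : Good x0 x c) {q : ℕ} (hq : ∑ γ, |c γ| ≤ (q : ℤ)) (ha : (some a, π) ∈ alw σ)
    (hπ : π.Nonempty) (hc : π.card = d a) :
    ∑ y, (if Nrm x0 x σ c a π y then 0 else
      kk (some a, π) x y * base (om η0 n d) lam x0 (c + dl (some a, π) x y)) ≤
      (om η0 n d a * lam ^ j * (2 * (j : ℝ) ^ 2 * (1 + q) / n) +
        zz c a * (om η0 n d a * lam ^ (j + 1) + kap n π.card +
          lam ^ j * (2 * (j : ℝ) ^ 2 * (1 + q) / n) + 2 / lam)) * base (om η0 n d) lam x0 c := by
  have hω : ∀ b, 0 ≤ om η0 n d b := om_nonneg hη n d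
  have hk0 : 0 < kap n π.card := kap_pos hn (card_pos.2 hπ) (by simpa using card_le_univ π)
  have hkw : kap n π.card ≤ om η0 n d a := by
    rw [om, ← hc]
    exact le_mul_of_one_le_left hk0.le (by linarith)
  have hw : 0 < om η0 n d a := hk0.trans_le hkw
  have hB : 0 ≤ base (om η0 n d) lam x0 c := base_nonneg hω hl
  have hl0 : 0 < lam := by linarith
  have hZ : (0 : ℝ) ≤ zz c a := Nat.cast_nonneg _
  set w := om η0 n d a with hwdef
  have p1 : 0 ≤ w * lam ^ j + zz c a * lam ^ j := by positivity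
  have p2 : 0 ≤ zz c a * (w * lam ^ (j + 1)) + zz c a / lam := by positivity
  have p3 : 0 ≤ 1 + (w * lam)⁻¹ := by positivity
  have hterm : ∀ y, (if Nrm x0 x σ c a π y then 0 else
      kk (some a, π) x y * base (om η0 n d) lam x0 (c + dl (some a, π) x y)) ≤
      ((w * lam ^ j + zz c a * lam ^ j) * (if Fresh x0 c π y then 0 else kk (some a, π) x y)
        + (zz c a * (w * lam ^ (j + 1)) + zz c a / lam) * kk (some a, π) x y
        + (1 + (w * lam)⁻¹) * (if c (a, π.image y) < 0 then kk (some a, π) x y else 0))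
        * base (om η0 n d) lam x0 c := by
    intro y
    have hk := kk_nonneg (some a, π) x y
    by_cases hN : Nrm x0 x σ c a π y
    · rw [if_pos hN]
      refine mul_nonneg (add_nonneg (add_nonneg (mul_nonneg p1 ?_) (mul_nonneg p2 hk))
        (mul_nonneg p3 ?_)) hB <;> split_ifs <;> simp [hk]
    · rw [if_neg hN]
      by_cases h0 : kk (some a, π) x y = 0
      · simp [h0]
      · obtain ⟨h1, h2⟩ := kk_ne h0
        refine (mul_le_mul_of_nonneg_left (babn1_term hω hw hl hG ha h1.2.1 h2 hN) hk).trans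
          (le_of_eq ?_)
        split_ifs <;> ring
  refine (sum_le_sum fun y _ => hterm y).trans ?_
  rw [← sum_mul, sum_add_distrib, sum_add_distrib, ← mul_sum, ← mul_sum, ← mul_sum]
  refine mul_le_mul_of_nonneg_right ?_ hB
  have s1 := mul_le_mul_of_nonneg_left (kk_old hn hG hq a π) p1
  have s2 := mul_le_mul_of_nonneg_left (kk_tot hn a π x) p2
  have s3 := mul_le_mul_of_nonneg_left (kk_neg hn hπ hG a) p3
  have s4 : (w * lam)⁻¹ * (kap n π.card * zz c a) ≤ zz c a / lam := by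
    calc (w * lam)⁻¹ * (kap n π.card * zz c a) ≤ (w * lam)⁻¹ * (w * zz c a) := by gcongr
      _ = zz c a / lam := by field_simp
  have e : (zz c a : ℝ) * (2 / lam) = zz c a / lam + zz c a / lam := by ring
  nlinarith

end Pool.Agent.P.MP_3acc10_al.Bld
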