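import Pool.Agent.P.MP_3acc10_al.BDefs

set_option autoImplicit false

namespace Pool.Agent.P.MP_3acc10_al.Bld

open Finset Module Matrix

variable {n j : ℕ} {ι : Type} [Fintype ι] [DecidableEq ι]

omit [Fintype ι] in
theorem bhmain_key {σ : St (Let ι j)} {a b : ι} {π ρ : Finset (Fin j)}
    (hb : (some b, ρ) ∈ alw (upd Adj rk σ (some a, π))) (hd : Disjoint ρ π) :
    (some b, ρ) ∈ alw σ ∧ ¬ rkS ρ < rkS π := by
  rw [mem_alw, upd_fst, mem_upd, not_or] at hb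
  obtain ⟨h1, h2, h3⟩ := hb
  have hA : Adj ((some a, π) : Let ι j) (some b, ρ) := ⟨fun h => h2 h.symm, Or.inl hd.symm⟩
  exact ⟨mem_alw.2 ⟨h1, fun h => h3 ⟨h1, hA, Or.inl h⟩⟩, fun h => h3 ⟨h1, hA, Or.inr h⟩⟩

theorem Ft_nxt (M : Finset (Fin j)) (σ : St (Let ι j)) (a : ι) (π : Finset (Fin j)) :
    nxt (Ft M σ) π ⊆ Ft M (upd Adj rk σ (some a, π)) := by
  intro ρ hρ
  rw [mem_nxt, mem_Ft] at hρ
  rw [mem_Ft]
  rintro ⟨hM, b, hb⟩
  have := bhmain_key hb hρ.1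
  exact hρ.2.elim (fun h => h ⟨hM, b, this.1⟩) this.2

theorem Ft_low (M : Finset (Fin j)) (σ : St (Let ι j)) (a : ι) {π : Finset (Fin j)}
    (h : Disjoint π M) : Ft M σ ∪ lowr j (rkS π) ⊆ Ft M (upd Adj rk σ (some a, π)) := by
  intro ρ hρ
  rw [mem_union, mem_Ft, mem_lowr] at hρ
  rw [mem_Ft]
  rintro ⟨hM, b, hb⟩
  have := bhmain_key hb (Disjoint.mono_left hM h.symm)
  exact hρ.elim (fun h => h ⟨hM, b, this.1⟩) this.2

theorem sum_alw (σ : St (Let ι j)) (f : Let ι j → ℝ) : ∑ t ∈ alw σ, f t =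
    ∑ π, ∑ a ∈ univ.filter (fun a => (some a, π) ∈ alw σ), f (some a, π) +
      ∑ π ∈ univ.filter (fun π => ((none, π) : Let ι j) ∈ alw σ), f (none, π) := by
  have e : ∑ t ∈ alw σ, f t = ∑ t, if t ∈ alw σ then f t else 0 := by
    rw [← sum_filter]; congr 1; ext t; simp
  rw [e, Fintype.sum_prod_type, Fintype.sum_option, sum_comm, add_comm]
  simp only [sum_filter]

theorem om_sum {η0 : ℝ} (hη : 0 ≤ η0) (hn : j + 2 ≤ n) {d : ι → ℕ} (hd : ∀ a, 0 < d a)
    {A0 : Finset ι} {σ : St (Let ι j)} (hv : ∀ t ∈ σ.1, Val d A0 t) (π : Finset (Fin j)) :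
    ∑ a ∈ univ.filter (fun a => (some a, π) ∈ alw σ), om η0 n d a ≤ zf η0 n d A0 π.card := by
  have hs : univ.filter (fun a => (some a, π) ∈ alw σ) ⊆ A0.filter fun a => d a = π.card := by
    intro a ha
    have := Val_some.1 (hv _ (mem_alw.1 (mem_filter.1 ha).2).1)
    exact mem_filter.2 ⟨this.1, this.2.symm⟩
  refine (sum_le_sum_of_subset_of_nonneg hs fun a _ _ => om_nonneg hη n d a).trans (le_of_eq ?_)
  rw [sum_congr rfl (g := fun _ => (1 + η0) * kap n π.card)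
    (fun a ha => by rw [om, (mem_filter.1 ha).2]), sum_const, nsmul_eq_mul, zf]
  ring

theorem h_split {z : ℕ → ℝ} {δ : ℝ} {h : Finset (Finset (Fin j)) → ℝ} (hf : Hf z δ h)
    (F : Finset (Finset (Fin j))) (r : ℕ) :
    ∑ π ∈ Fᶜ.filter (fun π => rkS π < r), z π.card * h (nxt F π) + h (F ∪ lowr j r) = h F := by
  have e1 : (F ∪ lowr j r)ᶜ = Fᶜ.filter (fun π => ¬ rkS π < r) := by
    ext π; simp [mem_lowr]
  have e2 : ∀ π ∈ Fᶜ.filter (fun π => ¬ rkS π < r), z π.card * h (nxt (F ∪ lowr j r) π) =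
      z π.card * h (nxt F π) := by
    intro π hπ
    have h1 := (mem_filter.1 hπ).2
    have : nxt (F ∪ lowr j r) π = nxt F π := by
      ext ρ
      rw [mem_nxt, mem_nxt, mem_union, mem_lowr]
      refine and_congr_right fun _ => ⟨?_, ?_⟩
      · rintro ((h2 | h2) | h2)
        · exact Or.inl h2
        · exact Or.inr (by omega)
        · exact Or.inr h2
      · rintro (h2 | h2)
        · exact Or.inl (Or.inl h2)
        · exact Or.inr h2
    rw [this]
  rw [hf.eq F, hf.eq (F ∪ lowr j r), e1, sum_congr rfl e2,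
    ← sum_filter_add_sum_filter_not Fᶜ (fun π => rkS π < r)]
  ring

theorem h_sup {η0 : ℝ} (hη : 0 ≤ η0) (hn : j + 2 ≤ n) {d : ι → ℕ} (hd : ∀ a, 0 < d a)
    {A0 : Finset ι} {δ : ℝ} {h : Finset (Finset (Fin j)) → ℝ} (hf : Hf (zf η0 n d A0) δ h)
    {σ : St (Let ι j)} (hv : ∀ t ∈ σ.1, Val d A0 t) :
    ∑ t ∈ alw σ, (if t.1.isSome then kap n t.2.card else 0) * h (Ft univ (upd Adj rk σ t)) ≤
      h (Ft univ σ) - 1 := by
  rw [sum_alw, hf.eq (Ft univ σ), add_sub_cancel_left]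
  simp only [Option.isSome_some, Option.isSome_none, if_true, Bool.false_eq_true, if_false,
    zero_mul, sum_const_zero, add_zero]
  rw [← sum_add_sum_compl (Ft univ σ), sum_eq_zero, zero_add]
  · refine sum_le_sum fun π _ => ?_
    have h0 : 0 ≤ h (nxt (Ft univ σ) π) := zero_le_one.trans (hf.ge _)
    refine le_trans ?_ (mul_le_mul_of_nonneg_right (om_sum hη hn hd hv π) h0)
    rw [sum_mul]
    refine sum_le_sum fun a ha => ?_
    have h1 := (Val_some.1 (hv _ (mem_alw.1 (mem_filter.1 ha).2).1)).2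
    have h2 := kap_nonneg n (d a)
    refine mul_le_mul ?_ (hf.anti _ _ (Ft_nxt univ σ a π)) (zero_le_one.trans (hf.ge _))
      (om_nonneg hη n d a)
    rw [om, h1]
    nlinarith
  · intro π hπ
    refine sum_eq_zero fun a ha => ?_
    exact absurd ⟨subset_univ _, a, (mem_filter.1 ha).2⟩ (mem_Ft.1 hπ)

end Pool.Agent.P.MP_3acc10_al.Bld
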