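import Pool.Agent.P.MP_3acc10_al.BAbn1
import Pool.Agent.P.MP_3acc10_al.BHmain

set_option autoImplicit false

namespace Pool.Agent.P.MP_3acc10_al.Bld

open Finset Module Matrix

variable {n j : ℕ} {ι : Type} [Fintype ι] [DecidableEq ι]

variable {x0 x : Fin j → Fin n} {c : ι × Finset (Fin n) → ℤ} {σ : St (Let ι j)}
  {π : Finset (Fin j)}

variable {η0 lam : ℝ} {d : ι → ℕ}

open Classical in
theorem abn (hn : j + 2 ≤ n) (hη : 0 ≤ η0) (hη1 : η0 ≤ 1) (hd : ∀ a, 0 < d a)
    (hl : 1 ≤ lam) {A0 : Finset ι} (hv : ∀ t ∈ σ.1, Val d A0 t)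
    (hz : zf η0 n d A0 π.card ≤ 1) (hG : Good x0 x c) {q : ℕ} (hq : ∑ γ, |c γ| ≤ (q : ℤ)) :
    ∑ a ∈ univ.filter (fun a => (some a, π) ∈ alw σ), ∑ y, (if Nrm x0 x σ c a π y then 0 else
      kk (some a, π) x y * base (om η0 n d) lam x0 (c + dl (some a, π) x y)) ≤
      tau j n q lam * base (om η0 n d) lam x0 c := by
  have hω : ∀ b, 0 ≤ om η0 n d b := om_nonneg hη n d
  have hb : 0 ≤ base (om η0 n d) lam x0 c := base_nonneg hω hl
  have hn0 : (0 : ℝ) < n := by exact_mod_cast (show 0 < n by omega)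
  have hl0 : 0 < lam := by linarith
  set W : ℝ := 2 * (j : ℝ) ^ 2 * (1 + q) / n with hW
  have hW0 : 0 ≤ W := by positivity
  have hpj : lam ^ j ≤ lam ^ (j + 1) := pow_le_pow_right₀ hl (Nat.le_succ j)
  have hp1 : 1 ≤ lam ^ (j + 1) := one_le_pow₀ hl
  have hp0 : 0 ≤ lam ^ j := by positivity
  set K : ℝ := lam ^ (j + 1) * (6 / n + W) + 2 / lam with hK
  have hK0 : 0 ≤ K := by positivity
  set S := univ.filter (fun a => (some a, π) ∈ alw σ) with hS
  have key : ∀ a ∈ S, ∑ y, (if Nrm x0 x σ c a π y then 0 else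
      kk (some a, π) x y * base (om η0 n d) lam x0 (c + dl (some a, π) x y)) ≤
      (om η0 n d a * (lam ^ (j + 1) * W) + zz c a * K) * base (om η0 n d) lam x0 c := by
    intro a ha
    have ha' : (some a, π) ∈ alw σ := (mem_filter.1 ha).2
    have hc : π.card = d a := (Val_some.1 (hv _ (mem_alw.1 ha').1)).2
    have hpos : 0 < π.card := hc ▸ hd a
    have hπ : π.Nonempty := card_pos.1 hpos
    have hj : π.card ≤ j := by simpa using card_le_univ π
    have hk : kap n π.card ≤ 2 / n := kap_le hn hpos hj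
    have hk0 : 0 ≤ kap n π.card := kap_nonneg _ _
    have hom : om η0 n d a ≤ 4 / n := by
      have e : om η0 n d a = (1 + η0) * kap n π.card := by rw [om, hc]
      have e4 : (4 : ℝ) / n = 2 * (2 / n) := by ring
      rw [e, e4]
      exact mul_le_mul (by linarith) hk hk0 (by norm_num)
    refine (abn_one hn hη hl hG hq ha' hπ hc).trans (mul_le_mul_of_nonneg_right ?_ hb)
    have h1 : om η0 n d a * lam ^ j * W ≤ om η0 n d a * (lam ^ (j + 1) * W) := by
      rw [mul_assoc]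
      exact mul_le_mul_of_nonneg_left (mul_le_mul_of_nonneg_right hpj hW0) (hω a)
    have h2 : om η0 n d a * lam ^ (j + 1) + kap n π.card + lam ^ j * W + 2 / lam ≤ K := by
      have a1 : om η0 n d a * lam ^ (j + 1) ≤ 4 / n * lam ^ (j + 1) :=
        mul_le_mul_of_nonneg_right hom (by positivity)
      have a2 : kap n π.card ≤ 2 / n * lam ^ (j + 1) :=
        hk.trans (le_mul_of_one_le_right (by positivity) hp1)
      have a3 : lam ^ j * W ≤ lam ^ (j + 1) * W := mul_le_mul_of_nonneg_right hpj hW0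
      have e : K = 4 / n * lam ^ (j + 1) + 2 / n * lam ^ (j + 1) + lam ^ (j + 1) * W + 2 / lam := by
        rw [hK]; ring
      rw [e]; linarith
    have h3 := mul_le_mul_of_nonneg_left h2 (Nat.cast_nonneg (α := ℝ) (zz c a))
    linarith
  refine (sum_le_sum key).trans ?_
  rw [← sum_mul]
  refine mul_le_mul_of_nonneg_right ?_ hb
  rw [sum_add_distrib, ← sum_mul, ← sum_mul]
  have s1 : ∑ a ∈ S, om η0 n d a ≤ 1 := (om_sum hη hn hd hv π).trans hz
  have s2 : ∑ a ∈ S, (zz c a : ℝ) ≤ q := by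
    have h1 : ∑ a ∈ S, zz c a ≤ ∑ a, zz c a := sum_le_sum_of_subset (subset_univ S)
    have h2 : ∑ a ∈ S, zz c a ≤ q := h1.trans (zz_sum hq)
    exact_mod_cast h2
  have t1 := mul_le_mul_of_nonneg_right s1 (show 0 ≤ lam ^ (j + 1) * W by positivity)
  have t2 := mul_le_mul_of_nonneg_right s2 hK0
  have e : tau j n q lam = 1 * (lam ^ (j + 1) * W) + q * K := by
    rw [tau, hK, hW]; ring
  rw [e]; linarith

end Pool.Agent.P.MP_3acc10_al.Bld
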