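import Pool.Agent.P.MP_3acc10_al.BDefs

set_option autoImplicit false

namespace Pool.Agent.P.MP_3acc10_al.Bld

open Finset Module Matrix

variable {S L X : Type} [Fintype X] [DecidableEq X] [DecidableEq S]

theorem balg1_iter (Q : Finset S) (al : S → Finset L) (up : S → L → S)
    (hQ : ∀ σ ∈ Q, ∀ t ∈ al σ, up σ t ∈ Q) (M : L → Matrix X X ℂ) (D : S → Matrix X X ℂ)
    (hD : ∀ σ ∈ Q, D σ = ∑ t ∈ al σ, D (up σ t) * M t) (k : ℕ) :
    ∀ σ ∈ Q, D σ = ∑ σ' ∈ Q, D σ' * BB al up M k σ σ' := by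
  induction k with
  | zero =>
    intro σ hσ
    simp only [BB_zero, mul_ite, mul_one, mul_zero]
    rw [Finset.sum_ite_eq, if_pos hσ]
  | succ k ih =>
    intro σ hσ
    simp only [BB_succ, Finset.mul_sum]
    rw [Finset.sum_comm, hD σ hσ]
    refine Finset.sum_congr rfl fun t ht => ?_
    rw [ih _ (hQ σ hσ t ht), Finset.sum_mul]
    exact Finset.sum_congr rfl fun σ' _ => mul_assoc _ _ _

theorem uniq_of_frob (Q : Finset S) (al : S → Finset L) (up : S → L → S)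
    (hQ : ∀ σ ∈ Q, ∀ t ∈ al σ, up σ t ∈ Q) (M : L → Matrix X X ℂ) (ℓ : ℕ)
    (h : ∑ σ ∈ Q, ∑ σ' ∈ Q, ∑ y, ∑ x, ‖BB al up M ℓ σ σ' y x‖ ^ 2 < 1) : Uniq Q al up M := by
  intro D hD
  have h1 := balg1_iter Q al up hQ M D hD ℓ
  have key : ∀ w : X, ∑ σ ∈ Q, ∑ x, ‖D σ w x‖ ^ 2 = 0 := by
    intro w
    obtain ⟨N, hN⟩ : ∃ N, N = ∑ σ ∈ Q, ∑ x, ‖D σ w x‖ ^ 2 := ⟨_, rfl⟩
    have hN0 : 0 ≤ N := hN ▸ Finset.sum_nonneg fun _ _ => Finset.sum_nonneg fun _ _ => sq_nonneg _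
    have h2 : ∀ σ ∈ Q, ∀ x, ‖D σ w x‖ ^ 2 ≤
        N * ∑ σ' ∈ Q, ∑ y, ‖BB al up M ℓ σ σ' y x‖ ^ 2 := by
      intro σ hσ x
      have h3 : D σ w x = ∑ p ∈ Q ×ˢ (univ : Finset X),
          D p.1 w p.2 * BB al up M ℓ σ p.1 p.2 x := by
        rw [Finset.sum_product, h1 σ hσ, Matrix.sum_apply]
        exact Finset.sum_congr rfl fun σ' _ => Matrix.mul_apply
      have h4 : ‖D σ w x‖ ≤ ∑ p ∈ Q ×ˢ (univ : Finset X),
          ‖D p.1 w p.2‖ * ‖BB al up M ℓ σ p.1 p.2 x‖ := by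
        rw [h3]
        exact (norm_sum_le _ _).trans (le_of_eq (Finset.sum_congr rfl fun _ _ => norm_mul _ _))
      have h5 := Finset.sum_mul_sq_le_sq_mul_sq (Q ×ˢ (univ : Finset X))
        (fun p => ‖D p.1 w p.2‖) (fun p => ‖BB al up M ℓ σ p.1 p.2 x‖)
      rw [Finset.sum_product (f := fun p : S × X => ‖D p.1 w p.2‖ ^ 2),
        Finset.sum_product (f := fun p : S × X => ‖BB al up M ℓ σ p.1 p.2 x‖ ^ 2), ← hN] at h5
      exact (pow_le_pow_left₀ (norm_nonneg _) h4 2).trans h5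
    have h6 : N ≤ N * ∑ σ ∈ Q, ∑ σ' ∈ Q, ∑ y, ∑ x, ‖BB al up M ℓ σ σ' y x‖ ^ 2 := by
      calc N = ∑ σ ∈ Q, ∑ x, ‖D σ w x‖ ^ 2 := hN
        _ ≤ ∑ σ ∈ Q, ∑ x, N * ∑ σ' ∈ Q, ∑ y, ‖BB al up M ℓ σ σ' y x‖ ^ 2 :=
          Finset.sum_le_sum fun σ hσ => Finset.sum_le_sum fun x _ => h2 σ hσ x
        _ = _ := by
          rw [Finset.mul_sum]
          refine Finset.sum_congr rfl fun σ _ => ?_
          rw [← Finset.mul_sum, Finset.sum_comm]
          refine congrArg _ (Finset.sum_congr rfl fun σ' _ => ?_)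
          exact Finset.sum_comm
    rw [← hN]
    by_contra h7
    have h8 : 0 < N := lt_of_le_of_ne hN0 (Ne.symm h7)
    have h9 := mul_lt_mul_of_pos_left h h8
    linarith
  intro σ hσ
  ext w x
  have h2 := (Finset.sum_eq_zero_iff_of_nonneg fun _ _ =>
    Finset.sum_nonneg fun _ _ => sq_nonneg _).1 (key w) σ hσ
  have h3 := (Finset.sum_eq_zero_iff_of_nonneg fun _ _ => sq_nonneg _).1 h2 x (mem_univ x)
  simpa using h3

/-- Extension by zero. -/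
noncomputable def balg1Ext (Q : Finset S) : (Q → Matrix X X ℂ) →ₗ[ℂ] (S → Matrix X X ℂ) where
  toFun g σ := if h : σ ∈ Q then g ⟨σ, h⟩ else 0
  map_add' g g' := by
    funext σ
    by_cases h : σ ∈ Q <;> simp [h]
  map_smul' c g := by
    funext σ
    by_cases h : σ ∈ Q <;> simp [h]

omit [Fintype X] [DecidableEq X] in
theorem balg1Ext_apply (Q : Finset S) (g : Q → Matrix X X ℂ) {σ : S} (h : σ ∈ Q) :
    balg1Ext Q g σ = g ⟨σ, h⟩ := dif_pos h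

/-- The linear system as a map. -/
noncomputable def balg1Sys (Q : Finset S) (al : S → Finset L) (up : S → L → S)
    (M : L → Matrix X X ℂ) : (S → Matrix X X ℂ) →ₗ[ℂ] (Q → Matrix X X ℂ) where
  toFun G σ := G σ - ∑ t ∈ al σ, G (up σ t) * M t
  map_add' G G' := by
    funext σ
    simp only [Pi.add_apply, add_mul, Finset.sum_add_distrib]
    abel
  map_smul' c G := by
    funext σ
    simp only [Pi.smul_apply, smul_mul_assoc, RingHom.id_apply, smul_sub, Finset.smul_sum]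

theorem exists_G (Q : Finset S) (al : S → Finset L) (up : S → L → S)
    (hQ : ∀ σ ∈ Q, ∀ t ∈ al σ, up σ t ∈ Q) (M : L → Matrix X X ℂ) (h : Uniq Q al up M) :
    ∃ G : S → Matrix X X ℂ, ∀ σ ∈ Q, G σ = 1 + ∑ t ∈ al σ, G (up σ t) * M t := by
  have _ := hQ
  have hinj : Function.Injective ((balg1Sys Q al up M).comp (balg1Ext Q)) := by
    rw [injective_iff_map_eq_zero]
    intro g hg
    have h1 := h (balg1Ext Q g) fun σ hσ => sub_eq_zero.1 (congrFun hg ⟨σ, hσ⟩)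
    funext σ
    exact (balg1Ext_apply Q g σ.2).symm.trans (h1 σ σ.2)
  obtain ⟨g, hg⟩ := LinearMap.injective_iff_surjective.1 hinj fun _ => 1
  exact ⟨balg1Ext Q g, fun σ hσ => sub_eq_iff_eq_add.1 (congrFun hg ⟨σ, hσ⟩)⟩

end Pool.Agent.P.MP_3acc10_al.Bld
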