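import Pool.Agent.P.MP_3acc10_al.BDefs

set_option autoImplicit false

namespace Pool.Agent.P.MP_3acc10_al.Bld

open Finset Module Matrix

theorem balg2_upd_res {L : Type} [DecidableEq L] {Ad : L → L → Prop} (rk : L → ℕ) {u t : L}
    (σ : St L) (h : Ad u t) : upd Ad rk (res Ad u σ) t = res Ad u (upd Ad rk σ t) := by
  refine Prod.ext rfl (Finset.ext fun s => ?_)
  simp only [mem_upd, mem_res_fst, mem_res_snd]
  constructor
  · rintro (rfl | ⟨⟨h1, h2⟩, h3, ⟨h4, -⟩ | h4⟩)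
    · exact ⟨Or.inl rfl, h⟩
    · exact ⟨Or.inr ⟨h1, h3, Or.inl h4⟩, h2⟩
    · exact ⟨Or.inr ⟨h1, h3, Or.inr h4⟩, h2⟩
  · rintro ⟨rfl | ⟨h1, h3, h4 | h4⟩, h2⟩
    · exact Or.inl rfl
    · exact Or.inr ⟨⟨h1, h2⟩, h3, Or.inl ⟨h4, h2⟩⟩
    · exact Or.inr ⟨⟨h1, h2⟩, h3, Or.inr h4⟩

theorem balg2_upd_res2 {L : Type} [DecidableEq L] {Ad : L → L → Prop} (hirr : ∀ t, ¬ Ad t t)
    {rk : L → ℕ} {u t : L} (σ : St L) (h : Ad u t) (hr : rk u < rk t) :
    upd Ad rk (res Ad u (upd Ad rk σ u)) t = res Ad u (upd Ad rk σ t) := by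
  refine Prod.ext rfl (Finset.ext fun s => ?_)
  simp only [mem_upd, mem_res_fst, mem_res_snd, upd_fst]
  constructor
  · rintro (rfl | ⟨⟨h1, h2⟩, h3, ⟨rfl | ⟨-, -, h4 | h4⟩, -⟩ | h4⟩)
    · exact ⟨Or.inl rfl, h⟩
    · exact absurd h2 (hirr _)
    · exact ⟨Or.inr ⟨h1, h3, Or.inl h4⟩, h2⟩
    · exact ⟨Or.inr ⟨h1, h3, Or.inr (h4.trans hr)⟩, h2⟩
    · exact ⟨Or.inr ⟨h1, h3, Or.inr h4⟩, h2⟩
  · rintro ⟨rfl | ⟨h1, h3, h4 | h4⟩, h2⟩
    · exact Or.inl rfl
    · exact Or.inr ⟨⟨h1, h2⟩, h3, Or.inl ⟨Or.inr ⟨h1, h2, Or.inl h4⟩, h2⟩⟩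
    · exact Or.inr ⟨⟨h1, h2⟩, h3, Or.inr h4⟩

theorem E_mul_G {L X : Type} [Fintype X] [DecidableEq X] [DecidableEq L] (Ad : L → L → Prop)
    (hsymm : ∀ t u, Ad t u → Ad u t) (hirr : ∀ t, ¬ Ad t t) (rk : L → ℕ) (Q : Finset (St L))
    (hup : ∀ σ ∈ Q, ∀ t ∈ alw σ, upd Ad rk σ t ∈ Q) (u : L)
    (hres : ∀ σ ∈ Q, u ∈ σ.1 → res Ad u σ ∈ Q)
    (hrk : ∀ σ ∈ Q, u ∈ σ.1 → ∀ t ∈ σ.1, Ad u t → rk u ≠ rk t)
    (M : L → Matrix X X ℂ) (E : Matrix X X ℂ) (hE : E * M u = -E)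
    (hc : ∀ t, Ad u t → E * M t = M t * E) (hU : Uniq Q alw (upd Ad rk) M)
    (G : St L → Matrix X X ℂ) (hG : ∀ σ ∈ Q, G σ = 1 + ∑ t ∈ alw σ, G (upd Ad rk σ t) * M t) :
    ∀ σ ∈ Q, u ∈ σ.1 → E * G σ = if u ∈ σ.2 then G (res Ad u σ) * E else 0 := by
  classical
  let R : St L → Matrix X X ℂ := fun σ => if u ∈ σ.2 then G (res Ad u σ) * E else 0
  have hR : ∀ σ ∈ Q, u ∈ σ.1 → R σ = E + ∑ t ∈ alw σ, R (upd Ad rk σ t) * M t := by
    intro σ hσ hu
    by_cases hu2 : u ∈ σ.2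
    · have h1 : alw (res Ad u σ) = (alw σ).filter (Ad u) := by
        ext t
        simp only [mem_alw, mem_res_fst, mem_res_snd, mem_filter]
        tauto
      have h2 : R σ = G (res Ad u σ) * E := if_pos hu2
      rw [h2, hG _ (hres σ hσ hu), h1, add_mul, one_mul, sum_mul, sum_filter]
      congr 1
      refine sum_congr rfl fun t ht => ?_
      by_cases ha : Ad u t
      · have h3 : u ∈ (upd Ad rk σ t).2 := mem_upd.2 (Or.inr ⟨hu, hsymm _ _ ha, Or.inl hu2⟩)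
        have h4 : R (upd Ad rk σ t) = G (res Ad u (upd Ad rk σ t)) * E := if_pos h3
        rw [if_pos ha, h4, balg2_upd_res rk σ ha, mul_assoc, mul_assoc, hc t ha]
      · have h3 : u ∉ (upd Ad rk σ t).2 := by
          rw [mem_upd]
          rintro (rfl | ⟨-, h, -⟩)
          · exact (mem_alw.1 ht).2 hu2
          · exact ha (hsymm _ _ h)
        have h4 : R (upd Ad rk σ t) = 0 := if_neg h3
        rw [if_neg ha, h4, zero_mul]
    · have hua : u ∈ alw σ := mem_alw.2 ⟨hu, hu2⟩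
      have h0 : R σ = 0 := if_neg hu2
      have hq : res Ad u (upd Ad rk σ u) ∈ Q := hres _ (hup σ hσ u hua) hu
      have h1 : alw (res Ad u (upd Ad rk σ u)) =
          ((alw σ).erase u).filter fun t => Ad u t ∧ rk u < rk t := by
        ext t
        simp only [mem_alw, mem_res_fst, mem_res_snd, mem_filter, mem_erase, mem_upd, upd_fst]
        constructor
        · rintro ⟨⟨ha, hb⟩, hc⟩
          have hne : t ≠ u := by
            rintro rfl
            exact hirr _ hb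
          refine ⟨⟨hne, ha, fun h => hc ⟨Or.inr ⟨ha, hb, Or.inl h⟩, hb⟩⟩, hb, ?_⟩
          rcases lt_or_gt_of_ne (hrk σ hσ hu t ha hb) with h | h
          · exact h
          · exact absurd ⟨Or.inr ⟨ha, hb, Or.inr h⟩, hb⟩ hc
        · rintro ⟨⟨hne, ha, hb⟩, hc, hd⟩
          refine ⟨⟨ha, hc⟩, ?_⟩
          rintro ⟨h | ⟨-, -, h | h⟩, -⟩
          · exact hne h
          · exact hb h
          · exact absurd hd (not_lt.2 h.le)
      have h2 : R (upd Ad rk σ u) = G (res Ad u (upd Ad rk σ u)) * E :=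
        if_pos (mem_upd.2 (Or.inl rfl))
      have h3 : G (res Ad u (upd Ad rk σ u)) * E =
          E + ∑ t ∈ (alw σ).erase u, R (upd Ad rk σ t) * M t := by
        rw [hG _ hq, h1, add_mul, one_mul, sum_mul, sum_filter]
        congr 1
        refine sum_congr rfl fun t ht => ?_
        by_cases ha : Ad u t ∧ rk u < rk t
        · have h3 : u ∈ (upd Ad rk σ t).2 := mem_upd.2 (Or.inr ⟨hu, hsymm _ _ ha.1, Or.inr ha.2⟩)
          have h4 : R (upd Ad rk σ t) = G (res Ad u (upd Ad rk σ t)) * E := if_pos h3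
          rw [if_pos ha, h4, balg2_upd_res2 hirr σ ha.1 ha.2, mul_assoc, mul_assoc, hc t ha.1]
        · have h3 : u ∉ (upd Ad rk σ t).2 := by
            rw [mem_upd]
            rintro (h | ⟨-, h, h' | h'⟩)
            · exact (mem_erase.1 ht).1 h.symm
            · exact hu2 h'
            · exact ha ⟨hsymm _ _ h, h'⟩
          have h4 : R (upd Ad rk σ t) = 0 := if_neg h3
          rw [if_neg ha, h4, zero_mul]
      rw [h0, ← add_sum_erase _ _ hua, h2, mul_assoc, hE, mul_neg, h3]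
      abel
  have hD := hU (fun σ => if u ∈ σ.1 then E * G σ - R σ else 0) (by
    intro σ hσ
    by_cases hu : u ∈ σ.1
    · simp only [upd_fst, if_pos hu]
      rw [hG σ hσ, hR σ hσ hu, mul_add, mul_one, mul_sum, add_sub_add_left_eq_sub,
        ← sum_sub_distrib]
      refine sum_congr rfl fun t _ => ?_
      rw [sub_mul, mul_assoc]
    · simp only [upd_fst, if_neg hu, zero_mul, sum_const_zero])
  intro σ hσ hu
  have h := hD σ hσ
  simp only [if_pos hu] at h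
  exact sub_eq_zero.1 h

end Pool.Agent.P.MP_3acc10_al.Bld
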