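import Pool.Agent.P.MP_3acc10_al.BDefs

set_option autoImplicit false

namespace Pool.Agent.P.MP_3acc10_al.Bld

open Finset Module Matrix

variable {n j : ℕ} {ι : Type} [Fintype ι] [DecidableEq ι]

open PowerSeries in
lemma bar1_one {e : ℕ} (he : 0 < e) :
    d⁄dX ℤ (1 - X ^ e : ℤ⟦X⟧) =
      -(PowerSeries.mk fun k => if e ∣ k + 1 then (e : ℤ) else 0) * (1 - X ^ e) := by
  ext k
  rw [coeff_derivative, neg_mul, mul_sub, mul_one, map_neg, map_sub, map_sub, coeff_mul_X_pow',
    coeff_mk, coeff_mk, coeff_one, coeff_X_pow, if_neg (Nat.succ_ne_zero k)]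
  by_cases h : e ≤ k
  · have h1 : e ∣ k - e + 1 ↔ e ∣ k + 1 := by
      rw [show k + 1 = (k - e + 1) + e by omega]
      exact (Nat.dvd_add_self_right).symm
    rw [if_pos h, if_neg (show ¬ k + 1 = e by omega)]
    simp only [h1]
    ring
  · rw [if_neg h]
    by_cases h2 : k + 1 = e
    · rw [if_pos h2, if_pos (h2 ▸ dvd_rfl), ← h2]; push_cast; ring
    · rw [if_neg h2, if_neg (fun h3 => h2 (by have := Nat.le_of_dvd (Nat.succ_pos k) h3; omega))]
      ring

open PowerSeries in
lemma bar1_base (n : ℕ) :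
    d⁄dX ℤ ((1 + X) ^ n : ℤ⟦X⟧) =
      (PowerSeries.mk fun k => (-1) ^ (k + 1 + 1) * (n : ℤ)) * (1 + X) ^ n := by
  have h1 : (PowerSeries.mk fun k => (-1) ^ (k + 1 + 1) * (n : ℤ)) * (1 + X) = (n : ℤ⟦X⟧) := by
    ext k
    rw [mul_add, mul_one, map_add, coeff_mk]
    rcases k with _ | k
    · simp
    · rw [coeff_succ_mul_X, coeff_mk, ← map_natCast (C (R := ℤ)), coeff_C, if_neg (Nat.succ_ne_zero k)]
      ring
  rcases n with _ | n
  · have h2 : (PowerSeries.mk fun k => (-1) ^ (k + 1 + 1) * ((0 : ℕ) : ℤ)) = 0 := by ext k; simp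
    rw [h2]; simp
  · rw [derivative_pow, map_add, derivative_one, derivative_X, zero_add, mul_one, pow_succ',
      ← mul_assoc, h1, Nat.add_sub_cancel]

open PowerSeries in
omit [Fintype ι] in
lemma bar1_main (n : ℕ) (d : ι → ℕ) (A : Finset ι) (hd : ∀ l ∈ A, 0 < d l) :
    d⁄dX ℤ ((1 + X) ^ n * ∏ l ∈ A, (1 - X ^ d l) : ℤ⟦X⟧) =
      (PowerSeries.mk fun k => bet n d A (k + 1)) * ((1 + X) ^ n * ∏ l ∈ A, (1 - X ^ d l)) := by
  induction A using Finset.induction_on with
  | empty => simpa [bet] using bar1_base n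
  | insert l A hl ih =>
    have e : (PowerSeries.mk fun k => bet n d (insert l A) (k + 1)) =
        (PowerSeries.mk fun k => bet n d A (k + 1)) -
          PowerSeries.mk fun k => if d l ∣ k + 1 then (d l : ℤ) else 0 := by
      ext k
      simp only [map_sub, coeff_mk, bet, sum_filter, sum_insert hl]
      ring
    rw [prod_insert hl, mul_left_comm, Derivation.leibniz, ih fun a ha => hd a (mem_insert_of_mem ha),
      bar1_one (hd l (mem_insert_self _ _)), e, smul_eq_mul, smul_eq_mul]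
    ring

omit [Fintype ι] in
theorem al_rec (n : ℕ) (d : ι → ℕ) (A : Finset ι) (hd : ∀ l ∈ A, 0 < d l) (i : ℕ) :
    ((i : ℤ) + 1) * al n d A (i + 1) =
      ∑ k ∈ range (i + 1), bet n d A (k + 1) * al n d A (i - k) := by
  have hc : ∀ m, PowerSeries.coeff m ((1 + PowerSeries.X) ^ n *
      ∏ l ∈ A, (1 - PowerSeries.X ^ d l) : PowerSeries ℤ) = al n d A m := fun m => by
    rw [al, ← Polynomial.coeff_coe, ← Polynomial.coeToPowerSeries.ringHom_apply]
    simp only [map_mul, map_pow, map_add, map_one, map_prod, map_sub,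
      Polynomial.coeToPowerSeries.ringHom_apply, Polynomial.coe_X]
  have h := congrArg (PowerSeries.coeff i) (bar1_main n d A hd)
  rw [PowerSeries.coeff_derivative, hc, PowerSeries.coeff_mul,
    Finset.Nat.sum_antidiagonal_eq_sum_range_succ_mk] at h
  simp only [PowerSeries.coeff_mk, hc] at h
  rw [← h, mul_comm]

end Pool.Agent.P.MP_3acc10_al.Bld
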