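import Pool.Agent.P.MP_3acc10_al.BDefs

set_option autoImplicit false

namespace Pool.Agent.P.MP_3acc10_al.Bld

open Finset Module Matrix

lemma bar2_div {i : ℕ} {x M : ℝ} {f : ℕ → ℝ} (h : ((i : ℝ) + 1) * x = ∑ k ∈ range (i + 1), f k)
    (hf : ∀ k ∈ range (i + 1), |f k| ≤ M) : |x| ≤ M := by
  have hp : (0 : ℝ) < (i : ℝ) + 1 := by positivity
  have h1 : |((i : ℝ) + 1) * x| ≤ ((i : ℝ) + 1) * M := by
    rw [h]
    refine (abs_sum_le_sum_abs _ _).trans ((sum_le_sum hf).trans ?_)
    simp
  rw [abs_mul, abs_of_pos hp] at h1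
  exact le_of_mul_le_mul_left h1 hp

theorem rec_pert (j : ℕ) (C : ℝ) : ∃ C' : ℝ, 0 ≤ C' ∧ ∀ (a b β γ : ℕ → ℝ) (s : ℝ),
    0 ≤ s → a 0 = 1 → b 0 = 1 →
    (∀ i < j, ((i : ℝ) + 1) * a (i + 1) = ∑ k ∈ range (i + 1), β (k + 1) * a (i - k)) →
    (∀ i < j, ((i : ℝ) + 1) * b (i + 1) = ∑ k ∈ range (i + 1), γ (k + 1) * b (i - k)) →
    (∀ k < j, |β (k + 1)| ≤ C ∧ |γ (k + 1)| ≤ C ∧ |β (k + 1) - γ (k + 1)| ≤ s) →
    ∀ i ≤ j, |a i - b i| ≤ C' * s := by
  have hD : (1 : ℝ) ≤ |C| + 1 := by have := abs_nonneg C; linarith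
  have hCD : C ≤ |C| + 1 := by have := le_abs_self C; linarith
  generalize |C| + 1 = D at hD hCD
  have hD0 : 0 ≤ D := by linarith
  refine ⟨j * D ^ j, by positivity, ?_⟩
  intro a b β γ s hs ha0 hb0 ha hb hc
  have key : ∀ i, i ≤ j → |b i| ≤ D ^ i ∧ |a i - b i| ≤ i * D ^ i * s := by
    intro i
    induction i using Nat.strong_induction_on with
    | _ i ih =>
      intro hij
      rcases i with _ | i
      · simp [ha0, hb0]
      · have hi : i < j := hij
        have hb' : ∀ k ∈ range (i + 1), |b (i - k)| ≤ D ^ i := fun k _ =>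
          (ih (i - k) (by omega) (by omega)).1.trans (pow_le_pow_right₀ hD (Nat.sub_le _ _))
        have hab : ∀ k ∈ range (i + 1), |a (i - k) - b (i - k)| ≤ i * D ^ i * s := by
          intro k _
          refine (ih (i - k) (by omega) (by omega)).2.trans ?_
          have h1 : ((i - k : ℕ) : ℝ) ≤ i := by exact_mod_cast Nat.sub_le _ _
          have h2 : D ^ (i - k) ≤ D ^ i := pow_le_pow_right₀ hD (Nat.sub_le _ _)
          gcongr
        constructor
        · refine bar2_div (hb i hi) fun k hk => ?_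
          have hk' : k < j := by have := mem_range.1 hk; omega
          rw [abs_mul, pow_succ']
          exact mul_le_mul ((hc k hk').2.1.trans hCD) (hb' k hk) (abs_nonneg _) hD0
        · have e : ((i : ℝ) + 1) * (a (i + 1) - b (i + 1)) = ∑ k ∈ range (i + 1),
              (β (k + 1) * (a (i - k) - b (i - k)) + (β (k + 1) - γ (k + 1)) * b (i - k)) := by
            rw [mul_sub, ha i hi, hb i hi, ← sum_sub_distrib]
            exact sum_congr rfl fun k _ => by ring
          refine bar2_div e fun k hk => ?_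
          have hk' : k < j := by have := mem_range.1 hk; omega
          have h1 : |β (k + 1) * (a (i - k) - b (i - k))| ≤ D * (i * D ^ i * s) := by
            rw [abs_mul]
            exact mul_le_mul ((hc k hk').1.trans hCD) (hab k hk) (abs_nonneg _) hD0
          have h2 : |(β (k + 1) - γ (k + 1)) * b (i - k)| ≤ s * D ^ (i + 1) := by
            rw [abs_mul]
            exact mul_le_mul (hc k hk').2.2
              ((hb' k hk).trans (pow_le_pow_right₀ hD (Nat.le_succ _))) (abs_nonneg _) hs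
          refine (abs_add_le _ _).trans ((add_le_add h1 h2).trans (le_of_eq ?_))
          push_cast
          ring
  intro i hi
  refine (key i hi).2.trans ?_
  have h1 : (i : ℝ) ≤ j := by exact_mod_cast hi
  have h2 : D ^ i ≤ D ^ j := pow_le_pow_right₀ hD hi
  gcongr

theorem eta_rec (z : ℕ → ℝ) (i : ℕ) : ((i : ℝ) + 1) * (eta z (i + 1) / (i + 1).factorial) =
    ∑ k ∈ range (i + 1), ((if k = 0 then 1 else 0) - z (k + 1) / k.factorial) *
      (eta z (i - k) / (i - k).factorial) := by
  have hi : ((i.factorial : ℕ) : ℝ) ≠ 0 := by positivity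
  have h1 : ((i : ℝ) + 1) * (eta z (i + 1) / (i + 1).factorial) = eta z (i + 1) / i.factorial := by
    rw [Nat.factorial_succ]
    push_cast
    field_simp
  have h2 : ∑ k ∈ range (i + 1), (if k = 0 then (1 : ℝ) else 0) *
      (eta z (i - k) / (i - k).factorial) = eta z i / i.factorial := by
    rw [sum_eq_single 0]
    · simp
    · intro k _ hk
      simp [hk]
    · simp
  rw [h1, eta_succ, sub_div, sum_div, ← h2, ← sum_sub_distrib]
  refine sum_congr rfl fun k hk => ?_
  have hk' : k ≤ i := Nat.lt_succ_iff.1 (mem_range.1 hk)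
  have h3 : ((i.choose k : ℕ) : ℝ) * k.factorial * (i - k).factorial = i.factorial := by
    exact_mod_cast Nat.choose_mul_factorial_mul_factorial hk'
  have h4 : ((k.factorial : ℕ) : ℝ) ≠ 0 := by positivity
  have h5 : (((i - k).factorial : ℕ) : ℝ) ≠ 0 := by positivity
  have h6 : ((i.choose k : ℕ) : ℝ) ≠ 0 := by
    have := Nat.choose_pos hk'
    positivity
  rw [sub_mul, ← h3]
  congr 1
  field_simp

end Pool.Agent.P.MP_3acc10_al.Bld
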