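import Pool.Agent.P.MP_3acc10_al.BDefs

set_option autoImplicit false

namespace Pool.Agent.P.MP_3acc10_al.Bld

open Finset Module Matrix

lemma bar3_desc (n k : ℕ) (h : k + 1 ≤ n) :
    (n : ℝ) ^ (k + 1) - n.descFactorial (k + 1) ≤ ((k : ℝ) + 1) ^ 2 * n ^ k := by
  induction k with
  | zero => simp
  | succ k ih =>
    have h1 := ih (by omega)
    have h2 : (n.descFactorial (k + 1) : ℝ) ≤ n ^ (k + 1) := by
      exact_mod_cast Nat.descFactorial_le_pow n (k + 1)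
    have h3 : (n.descFactorial (k + 1 + 1) : ℝ) = (n - (k + 1)) * n.descFactorial (k + 1) := by
      rw [Nat.descFactorial_succ, Nat.cast_mul, Nat.cast_sub (by omega)]
      push_cast
      ring
    have h4 : (0 : ℝ) ≤ n := Nat.cast_nonneg n
    have h5 : (0 : ℝ) ≤ k := Nat.cast_nonneg k
    have h6 : (0 : ℝ) ≤ n ^ (k + 1) := pow_nonneg h4 _
    have h7 := mul_le_mul_of_nonneg_left h1 h4
    have h8 := mul_le_mul_of_nonneg_left h2 (show (0 : ℝ) ≤ k + 1 by linarith)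
    rw [h3]
    push_cast
    have e1 : (n : ℝ) ^ (k + 1 + 1) = n * n ^ (k + 1) := by ring
    have e2 : (n : ℝ) * (((k : ℝ) + 1) ^ 2 * n ^ k) = ((k : ℝ) + 1) ^ 2 * n ^ (k + 1) := by ring
    rw [e2] at h7
    rw [e1]
    nlinarith [mul_nonneg h5 h6]

lemma bar3_small {ι : Type} [DecidableEq ι] (j n k : ℕ) (d : ι → ℕ) (A : Finset ι) (hn : 1 ≤ n)
    (hk : k < j) (h : ∀ e ≤ j, 0 < e → (A.filter fun l => d l = e).card ≤ n.choose e) :
    ∑ l ∈ (A.filter fun l => d l ∣ k + 1).filter (fun l => ¬ d l = k + 1), d l ≤ j * (j * n ^ k) := by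
  have h1 : ∑ l ∈ (A.filter fun l => d l ∣ k + 1).filter (fun l => ¬ d l = k + 1), d l ≤
      ∑ l ∈ A.filter (fun l => d l ∈ range (k + 1)), d l := by
    refine sum_le_sum_of_subset fun l hl => ?_
    simp only [mem_filter, mem_range] at hl ⊢
    have := Nat.le_of_dvd (Nat.succ_pos k) hl.1.2
    exact ⟨hl.1.1, by omega⟩
  refine h1.trans ?_
  rw [← sum_fiberwise_eq_sum_filter]
  calc ∑ f ∈ range (k + 1), ∑ l ∈ A.filter (fun l => d l = f), d l
      ≤ ∑ f ∈ range (k + 1), j * n ^ k := by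
        refine sum_le_sum fun f hf => ?_
        have hf' : f < k + 1 := mem_range.1 hf
        rw [sum_congr rfl (fun l hl => (mem_filter.1 hl).2), sum_const, smul_eq_mul, mul_comm]
        rcases Nat.eq_zero_or_pos f with rfl | h0
        · simp
        · exact Nat.mul_le_mul (by omega) ((h f (by omega) h0).trans
            ((Nat.choose_le_pow n f).trans (Nat.pow_le_pow_right hn (by omega))))
    _ ≤ j * (j * n ^ k) := by
        rw [sum_const, card_range, smul_eq_mul]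
        exact Nat.mul_le_mul_right _ (by omega)

lemma bar3_bet {ι : Type} [DecidableEq ι] (n k : ℕ) (d : ι → ℕ) (A : Finset ι) :
    (bet n d A (k + 1) : ℝ) = (-1) ^ k * n - (k + 1) * (A.filter fun l => d l = k + 1).card -
      ((∑ l ∈ (A.filter fun l => d l ∣ k + 1).filter (fun l => ¬ d l = k + 1), d l : ℕ) : ℝ) := by
  have h1 : (A.filter fun l => d l ∣ k + 1).filter (fun l => d l = k + 1) =
      A.filter fun l => d l = k + 1 := by
    ext l
    simp only [mem_filter]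
    exact ⟨fun h => ⟨h.1.1, h.2⟩, fun h => ⟨⟨h.1, h.2 ▸ dvd_rfl⟩, h.2⟩⟩
  have h2 : ∑ l ∈ A.filter (fun l => d l = k + 1), (d l : ℝ) =
      (k + 1) * (A.filter fun l => d l = k + 1).card := by
    rw [sum_congr rfl (fun l hl => congrArg Nat.cast (mem_filter.1 hl).2), sum_const, nsmul_eq_mul]
    push_cast
    ring
  unfold bet
  push_cast
  rw [← sum_filter_add_sum_filter_not (A.filter fun l => d l ∣ k + 1) (fun l => d l = k + 1), h1,
    h2]
  ring

lemma bar3_w {n P e j f r κ c : ℝ} (hn : 0 < n) (hP : 1 ≤ P) (he : 1 ≤ e) (hj : e ≤ j)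
    (hf : 1 ≤ f) (ht0 : 0 ≤ r * κ) (ht : r * κ ≤ 2) (hκ1 : κ * (c - 1) = 1)
    (hD1 : P * n - e * f * c ≤ e ^ 2 * P) (hD2 : e * f * c ≤ P * n) :
    |e * r / (P * n) - r * κ / f| ≤ 4 * j ^ 2 * (1 / n) := by
  have hP0 : 0 < P := by linarith
  have hf0 : 0 < f := by linarith
  have he0 : 0 < e := by linarith
  have e1 : e * r / (P * n) - r * κ / f =
      -(r * κ * ((P * n - e * f * c) / (f * (P * n)) + e / (P * n))) := by
    have e2 : e * r = e * r * (κ * (c - 1)) := by rw [hκ1, mul_one]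
    rw [e2]
    field_simp
    ring
  have hej : e ^ 2 ≤ j ^ 2 := pow_le_pow_left₀ he0.le hj 2
  have a0 : 0 ≤ (P * n - e * f * c) / (f * (P * n)) := div_nonneg (by linarith) (by positivity)
  have a1 : (P * n - e * f * c) / (f * (P * n)) ≤ j ^ 2 * (1 / n) := by
    rw [div_le_iff₀ (by positivity)]
    refine hD1.trans ?_
    have e3 : j ^ 2 * (1 / n) * (f * (P * n)) = j ^ 2 * f * P := by field_simp
    rw [e3]
    exact mul_le_mul_of_nonneg_right (hej.trans (le_mul_of_one_le_right (sq_nonneg j) hf)) hP0.le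
  have a2 : e / (P * n) ≤ j ^ 2 * (1 / n) := by
    rw [div_le_iff₀ (by positivity)]
    have e3 : j ^ 2 * (1 / n) * (P * n) = j ^ 2 * P := by field_simp
    rw [e3]
    exact (le_self_pow₀ he two_ne_zero).trans
      (hej.trans (le_mul_of_one_le_right (sq_nonneg j) hP))
  have a3 : 0 ≤ e / (P * n) := by positivity
  rw [e1, abs_neg, abs_of_nonneg (mul_nonneg ht0 (add_nonneg a0 a3))]
  exact (mul_le_mul ht (add_le_add a1 a2) (add_nonneg a0 a3) (by norm_num)).trans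
    (le_of_eq (by ring))

theorem bet_close (j : ℕ) : ∃ C : ℝ, 0 ≤ C ∧ ∀ (n : ℕ) (ι : Type) [DecidableEq ι] (d : ι → ℕ)
    (A : Finset ι) (η0 : ℝ), j + 2 ≤ n → (∀ l ∈ A, 0 < d l) → 0 ≤ η0 → η0 ≤ 1 →
    (∀ e ≤ j, 0 < e → (A.filter fun l => d l = e).card ≤ n.choose e) → ∀ k < j,
      |(bet n d A (k + 1) : ℝ) / n ^ (k + 1)| ≤ C ∧
      |(if k = 0 then 1 else 0) - zf η0 n d A (k + 1) / k.factorial| ≤ C ∧
      |(bet n d A (k + 1) : ℝ) / n ^ (k + 1) -
        ((if k = 0 then 1 else 0) - zf η0 n d A (k + 1) / k.factorial)| ≤ C * (η0 + 1 / n) := by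
  refine ⟨5 + 2 * (2 + 5 * j ^ 2), by positivity, ?_⟩
  intro n ι _ d A η0 hn _ h0 h1 hc k hk
  have hN : (2 : ℝ) ≤ n := by exact_mod_cast (show 2 ≤ n by omega)
  have hN0 : (0 : ℝ) < n := by linarith
  have hj : (k : ℝ) + 1 ≤ j := by exact_mod_cast hk
  have hk0 : (0 : ℝ) ≤ k := Nat.cast_nonneg k
  have hf : (1 : ℝ) ≤ k.factorial := by exact_mod_cast k.factorial_pos
  have hf0 : (0 : ℝ) < k.factorial := by linarith
  have hP : (0 : ℝ) < n ^ k := pow_pos hN0 k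
  have hP1 : (1 : ℝ) ≤ n ^ k := one_le_pow₀ (by linarith)
  have hκ := kap_pos hn (Nat.succ_pos k) hk
  have hκ1 := kap_mul hn (Nat.succ_pos k) hk
  have hκ2 := kap_choose hn (Nat.succ_pos k) hk
  have hr : ((A.filter fun l => d l = k + 1).card : ℝ) ≤ n.choose (k + 1) := by
    exact_mod_cast hc (k + 1) hk (Nat.succ_pos k)
  have hS : ((∑ l ∈ (A.filter fun l => d l ∣ k + 1).filter (fun l => ¬ d l = k + 1), d l : ℕ) : ℝ)
      ≤ j * (j * n ^ k) := by exact_mod_cast bar3_small j n k d A (by omega) hk hc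
  have hD1 := bar3_desc n k (by omega)
  have hD2 : (n.descFactorial (k + 1) : ℝ) ≤ n ^ (k + 1) := by
    exact_mod_cast Nat.descFactorial_le_pow n (k + 1)
  have hD3 : (n.descFactorial (k + 1) : ℝ) = (k + 1) * k.factorial * n.choose (k + 1) := by
    rw [Nat.descFactorial_eq_factorial_mul_choose, Nat.factorial_succ]
    push_cast
    ring
  rw [bar3_bet, zf]
  simp only [Nat.succ_eq_add_one] at hκ hκ1 hκ2
  set S : ℝ := ((∑ l ∈ (A.filter fun l => d l ∣ k + 1).filter (fun l => ¬ d l = k + 1), d l : ℕ) : ℝ)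
    with hSd
  have hS0 : 0 ≤ S := Nat.cast_nonneg _
  set r : ℝ := ((A.filter fun l => d l = k + 1).card : ℝ) with hrd
  have hr0 : 0 ≤ r := Nat.cast_nonneg _
  set κ := kap n (k + 1) with hκd
  set c : ℝ := (n.choose (k + 1) : ℝ) with hcd
  set f : ℝ := (k.factorial : ℝ) with hfd
  set ε : ℝ := if k = 0 then 1 else 0 with hε
  clear_value S r κ c f ε
  have ht0 : 0 ≤ r * κ := mul_nonneg hr0 hκ.le
  have ht : r * κ ≤ 2 := (mul_le_mul_of_nonneg_right hr hκ.le).trans (by rwa [mul_comm])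
  have ht' : r * κ / f ≤ 2 := (div_le_self ht0 hf).trans ht
  have ht0' : 0 ≤ r * κ / f := div_nonneg ht0 hf0.le
  have hi : 1 / (n : ℝ) ≤ 1 := by rw [div_le_one hN0]; linarith
  have hi0 : 0 < 1 / (n : ℝ) := by positivity
  have hu : |(-1) ^ k * n / n ^ (k + 1) - ε| ≤ 1 / n := by
    rcases Nat.eq_zero_or_pos k with rfl | hk1
    · simp [hε, hN0.ne']
    · obtain ⟨m, rfl⟩ := Nat.exists_eq_succ_of_ne_zero hk1.ne'
      simp only [hε, Nat.succ_ne_zero, if_false, sub_zero, abs_div, abs_mul, abs_pow, abs_neg,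
        abs_one, one_pow, one_mul, abs_of_pos hN0]
      rw [div_le_div_iff₀ (by positivity) hN0, one_mul, ← sq]
      exact pow_le_pow_right₀ (by linarith) (by omega)
  have hv : S / n ^ (k + 1) ≤ j ^ 2 * (1 / n) := by
    rw [div_le_iff₀ (by positivity)]
    refine hS.trans (le_of_eq ?_)
    field_simp
    ring
  have hv0 : 0 ≤ S / n ^ (k + 1) := by positivity
  have hw : |(k + 1) * r / n ^ (k + 1) - r * κ / f| ≤ 4 * j ^ 2 * (1 / n) := by
    rw [pow_succ] at hD1 hD2 ⊢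
    rw [hD3] at hD1 hD2
    exact bar3_w hN0 hP1 (by linarith) hj hf ht0 ht hκ1 hD1 hD2
  have hj2 : (0 : ℝ) ≤ j ^ 2 := sq_nonneg _
  have h3 : |((-1) ^ k * n - (k + 1) * r - S) / n ^ (k + 1) - (ε - (1 + η0) * r * κ / f)| ≤
      (2 + 5 * j ^ 2) * (η0 + 1 / n) := by
    have e1 : ((-1) ^ k * n - (k + 1) * r - S) / n ^ (k + 1) - (ε - (1 + η0) * r * κ / f) =
        ((-1) ^ k * n / n ^ (k + 1) - ε) - ((k + 1) * r / n ^ (k + 1) - r * κ / f) -
          S / n ^ (k + 1) + η0 * (r * κ / f) := by ring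
    have a1 : η0 * (r * κ / f) ≤ η0 * 2 := mul_le_mul_of_nonneg_left ht' h0
    have a2 : 0 ≤ η0 * (r * κ / f) := mul_nonneg h0 ht0'
    have a3 : 0 ≤ (j : ℝ) ^ 2 * η0 := mul_nonneg hj2 h0
    have a4 : 0 ≤ (j : ℝ) ^ 2 * (1 / n) := mul_nonneg hj2 hi0.le
    have e2 : (2 + 5 * (j : ℝ) ^ 2) * (η0 + 1 / n) =
        2 * η0 + 2 * (1 / n) + 5 * (j ^ 2 * η0) + 5 * (j ^ 2 * (1 / n)) := by ring
    rw [mul_assoc 4] at hw
    rw [e1, e2, abs_le]
    constructor <;> linarith [(abs_le.1 hu).1, (abs_le.1 hu).2, (abs_le.1 hw).1, (abs_le.1 hw).2]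
  have h2 : |ε - (1 + η0) * r * κ / f| ≤ 5 := by
    have e1 : (1 + η0) * r * κ / f = (1 + η0) * (r * κ / f) := by ring
    have a1 : (1 + η0) * (r * κ / f) ≤ 2 * 2 := mul_le_mul (by linarith) ht' ht0' (by norm_num)
    have a2 : 0 ≤ (1 + η0) * (r * κ / f) := mul_nonneg (by linarith) ht0'
    have a3 : 0 ≤ ε ∧ ε ≤ 1 := by rw [hε]; split_ifs <;> norm_num
    rw [e1, abs_le]
    constructor <;> linarith [a3.1, a3.2]
  have h4 : (2 + 5 * (j : ℝ) ^ 2) * (η0 + 1 / n) ≤ (2 + 5 * j ^ 2) * 2 :=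
    mul_le_mul_of_nonneg_left (by linarith) (by positivity)
  refine ⟨?_, h2.trans (by linarith), h3.trans ?_⟩
  · have := abs_add_le (((-1) ^ k * n - (k + 1) * r - S) / n ^ (k + 1) -
      (ε - (1 + η0) * r * κ / f)) (ε - (1 + η0) * r * κ / f)
    rw [sub_add_cancel] at this
    linarith
  · exact mul_le_mul_of_nonneg_right (by linarith) (by linarith)

end Pool.Agent.P.MP_3acc10_al.Bld
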