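import Pool.Agent.P.MP_3acc10_al.BAr1
import Pool.Agent.P.MP_3acc10_al.BAr2
import Pool.Agent.P.MP_3acc10_al.BAr3

set_option autoImplicit false

namespace Pool.Agent.P.MP_3acc10_al.Bld

open Finset Module Matrix

lemma BAr4_al_zero (n : ℕ) {ι : Type} [DecidableEq ι] (d : ι → ℕ) (A : Finset ι)
    (hd : ∀ l ∈ A, 0 < d l) : al n d A 0 = 1 := by
  induction A using Finset.induction_on with
  | empty => simp
  | insert l A hl ih =>
    have h1 := hd l (mem_insert_self _ _)
    rw [al_insert n d hl, ih fun l hl => hd l (mem_insert_of_mem hl), if_neg (by omega), sub_zero]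

lemma BAr4_count (n : ℕ) {ι : Type} [DecidableEq ι] (d : ι → ℕ) (j : ℕ) {A : Finset ι}
    (hd : ∀ l ∈ A, 0 < d l) (h : ∀ i ≤ j, 0 < al n d A i) :
    ∀ e ≤ j, 0 < e → (A.filter fun l => d l = e).card ≤ n.choose e := by
  intro e he he0
  have h1 := (h e he).trans_le
    (al_le_of_subset n d j (filter_subset (fun l => d l = e) A) hd h e he)
  rw [(al_same n d e he0 _ fun l hl => (mem_filter.1 hl).2).2] at h1
  omega

theorem arith (j : ℕ) : ∃ C : ℝ, 1 ≤ C ∧ ∀ (ε : ℝ) (n : ℕ) (ι : Type) [DecidableEq ι] (d : ι → ℕ)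
    (A : Finset ι), 0 < ε → ε ≤ 1 → j + 2 ≤ n → C ≤ ε * n → (∀ l ∈ A, 0 < d l) →
    (∀ i ≤ j, 0 < i → ε * (n : ℝ) ^ i ≤ al n d A i) →
    ∀ i ≤ j, ε / 2 ≤ eta (zf (ε / C) n d A) i := by
  obtain ⟨C0, hC0, H0⟩ := bet_close j
  obtain ⟨C1, hC1, H1⟩ := rec_pert j C0
  have hCC : 0 ≤ C1 * C0 := mul_nonneg hC1 hC0
  refine ⟨4 * (C1 * C0) + 1, by linarith, ?_⟩
  intro ε n ι _ d A hε hε1 hn hC hd hal i hi
  set C : ℝ := 4 * (C1 * C0) + 1 with hCdef
  have hCpos : 0 < C := by linarith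
  have hC1' : 1 ≤ C := by linarith
  have hnpos : (0 : ℝ) < n := by exact_mod_cast (show 0 < n by omega)
  have hη0 : 0 ≤ ε / C := by positivity
  have hη1 : ε / C ≤ 1 := by rw [div_le_one hCpos]; linarith
  have h0 := BAr4_al_zero n d A hd
  have hpos : ∀ i ≤ j, 0 < al n d A i := by
    intro i hi
    rcases Nat.eq_zero_or_pos i with rfl | hi0
    · rw [h0]; exact one_pos
    · have h1 := hal i hi hi0
      have h2 : (0 : ℝ) < ε * (n : ℝ) ^ i := by positivity
      exact_mod_cast h2.trans_le h1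
  have hcl := H0 n ι d A (ε / C) hn hd hη0 hη1 (BAr4_count n d j hd hpos)
  have hs : (0 : ℝ) ≤ C0 * (ε / C + 1 / n) := by positivity
  have key := H1 (fun i => (al n d A i : ℝ) / (n : ℝ) ^ i)
    (fun i => eta (zf (ε / C) n d A) i / i.factorial)
    (fun k => (bet n d A k : ℝ) / (n : ℝ) ^ k)
    (fun k => (if k - 1 = 0 then 1 else 0) - zf (ε / C) n d A k / (k - 1).factorial)
    (C0 * (ε / C + 1 / n)) hs (by simp [h0]) (by simp [eta_zero])
    (fun i _ => by
      have h1 : ((i : ℝ) + 1) * al n d A (i + 1) =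
          ∑ k ∈ range (i + 1), (bet n d A (k + 1) : ℝ) * al n d A (i - k) := by
        exact_mod_cast al_rec n d A hd i
      rw [← mul_div_assoc, h1, sum_div]
      refine sum_congr rfl fun k hk => ?_
      have hk := mem_range.1 hk
      have h2 : (n : ℝ) ^ (i + 1) = (n : ℝ) ^ (k + 1) * (n : ℝ) ^ (i - k) := by
        rw [← pow_add]; congr 1; omega
      rw [h2, div_mul_div_comm])
    (fun i _ => by
      simp only [Nat.add_sub_cancel]
      exact eta_rec _ i)
    (fun k hk => by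
      simp only [Nat.add_sub_cancel]
      exact hcl k hk) i hi
  rcases Nat.eq_zero_or_pos i with rfl | hi0
  · rw [eta_zero]; linarith
  have h1 : ε ≤ (al n d A i : ℝ) / (n : ℝ) ^ i := by
    rw [le_div_iff₀ (by positivity)]; exact hal i hi hi0
  have h2 : 1 / (n : ℝ) ≤ ε / C := by
    rw [div_le_div_iff₀ hnpos hCpos]; linarith
  have h3 : C1 * (C0 * (ε / C + 1 / n)) ≤ ε / 2 := by
    have h4 : C1 * (C0 * (ε / C + 1 / n)) ≤ (C1 * C0) * (2 * (ε / C)) := by
      rw [← mul_assoc]; exact mul_le_mul_of_nonneg_left (by linarith) hCC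
    have h5 : C * (ε / C) = ε := by field_simp
    have h6 : 4 * (C1 * C0) * (ε / C) ≤ C * (ε / C) :=
      mul_le_mul_of_nonneg_right (by linarith) hη0
    linarith
  have h4 := (abs_le.1 key).2
  have h5 : ε / 2 ≤ eta (zf (ε / C) n d A) i / i.factorial := by linarith
  have h6 : (1 : ℝ) ≤ i.factorial := by exact_mod_cast Nat.factorial_pos i
  rw [le_div_iff₀ (by linarith)] at h5
  nlinarith

end Pool.Agent.P.MP_3acc10_al.Bld
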