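import Pool.Agent.P.MP_3acc10_al.NDefs

set_option autoImplicit false

namespace Pool.Agent.P.MP_3acc10_al.Nak

open Module Finset

variable {n : ℕ} {ι : Type} [Fintype ι] [DecidableEq ι]

lemma pot_fact {κ : Type} [Fintype κ] [DecidableEq κ] (f : κ → ℕ) (S : Finset κ) :
    ∏ s, ((f s + if s ∈ S then 1 else 0).factorial : ℝ) =
      (∏ s, ((f s).factorial : ℝ)) * ∏ s ∈ S, ((f s : ℝ) + 1) := by
  rw [← Fintype.prod_ite_mem S, ← prod_mul_distrib]
  refine prod_congr rfl fun s _ => ?_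
  split_ifs
  · rw [Nat.factorial_succ]; push_cast; ring
  · simp

lemma pot_up (d : ι → ℕ) (ω : ℝ) (c : ι × Finset (Fin n) → ℤ) {g : ι × Finset (Fin n)}
    (hg : g.2.card = d g.1) (h : 0 ≤ c g) :
    (∀ s, uu d (c + Pi.single g 1) s = uu d c s + if s ∈ g.2 then 1 else 0) ∧
      Phi d ω (c + Pi.single g 1) =
        Phi d ω c * (ω * tt n (d g.1) * ∏ s ∈ g.2, ((uu d c s : ℝ) + 1)) := by
  set c' : ι × Finset (Fin n) → ℤ := c + Pi.single g 1 with hc
  have e : ∀ γ, (c' γ).toNat = (c γ).toNat + (if γ = g then 1 else 0) ∧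
      (-c' γ).toNat = (-c γ).toNat := fun γ => by
    rw [hc, Pi.add_apply, Pi.single_apply]
    split_ifs with h1
    · subst h1; omega
    · simp
  have hu : ∀ s, uu d c' s = uu d c s + if s ∈ g.2 then 1 else 0 := fun s => by
    simp only [uu, (e _).1, sum_add_distrib, sum_ite_eq', mem_filter, mem_univ, hg, true_and,
      and_true]
  have hz : ∀ a, zz c' a = zz c a := fun a => by simp only [zz, (e _).2]
  refine ⟨hu, ?_⟩
  simp only [Phi, hu, hz, (e _).1, (e _).2, pot_fact, pow_add, pow_ite, pow_one, pow_zero,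
    prod_mul_distrib, prod_ite_eq', mem_univ, if_true]
  ring

lemma pot_dn (d : ι → ℕ) (ω : ℝ) (c : ι × Finset (Fin n) → ℤ) {g : ι × Finset (Fin n)}
    (h : c g < 0) : zz c g.1 = zz (c + Pi.single g 1) g.1 + 1 ∧
      Phi d ω c = Phi d ω (c + Pi.single g 1) *
        (tt n (d g.1) * ((zz (c + Pi.single g 1) g.1 : ℝ) + 1)) := by
  set c' : ι × Finset (Fin n) → ℤ := c + Pi.single g 1 with hc
  have e : ∀ γ, (c γ).toNat = (c' γ).toNat ∧
      (-c γ).toNat = (-c' γ).toNat + (if γ = g then 1 else 0) := fun γ => by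
    rw [hc, Pi.add_apply, Pi.single_apply]
    split_ifs with h1
    · subst h1; omega
    · simp
  have hu : ∀ s, uu d c s = uu d c' s := fun s => by simp only [uu, (e _).1]
  have hz : ∀ a, zz c a = zz c' a + if a ∈ ({g.1} : Finset ι) then 1 else 0 := fun a => by
    simp only [zz, (e _).2, sum_add_distrib, Prod.ext_iff, mem_singleton]
    by_cases ha : a = g.1 <;> simp [ha]
  refine ⟨by simpa using hz g.1, ?_⟩
  rw [Phi]
  simp only [hu, hz, (e _).1, (e _).2, pot_fact, pow_add, pow_ite, pow_one, pow_zero,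
    prod_mul_distrib, prod_ite_eq', mem_univ, if_true, prod_singleton]
  simp only [Phi, prod_mul_distrib]
  ring

lemma pot_A (d : ι → ℕ) (ω : ℝ) (c : ι × Finset (Fin n) → ℤ) {g : ι × Finset (Fin n)}
    (hg : g.2.card = d g.1) :
    tt n (d g.1) * Phi d ω (c + Pi.single g 1) = rA d ω c g * Phi d ω c := by
  unfold rA
  split_ifs with h
  · rw [(pot_up d ω c hg h).2, ← tt_sq]
    ring
  · obtain ⟨h1, h2⟩ := pot_dn d ω c (not_le.1 h)
    rw [h2, h1]
    push_cast
    field_simp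

lemma pot_B (d : ι → ℕ) {ω : ℝ} (hω : 0 < ω) (c : ι × Finset (Fin n) → ℤ)
    {g : ι × Finset (Fin n)} (hg : g.2.card = d g.1) :
    tt n (d g.1) * Phi d ω (c - Pi.single g 1) = rB d ω c g * Phi d ω c := by
  have e : (c - Pi.single g 1 : ι × Finset (Fin n) → ℤ) g = c g - 1 := by simp
  unfold rB
  split_ifs with h
  · obtain ⟨h1, h2⟩ := pot_up d ω (c - Pi.single g 1) hg (by omega)
    rw [sub_add_cancel] at h1 h2
    have h3 : ∏ s ∈ g.2, (uu d c s : ℝ) = ∏ s ∈ g.2, ((uu d (c - Pi.single g 1) s : ℝ) + 1) :=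
      prod_congr rfl fun s hs => by rw [h1, if_pos hs]; push_cast; rfl
    have h4 : 0 < ∏ s ∈ g.2, ((uu d (c - Pi.single g 1) s : ℝ) + 1) :=
      prod_pos fun _ _ => by positivity
    rw [h2, h3]
    field_simp
  · have h2 := (pot_dn d ω (c - Pi.single g 1) (g := g) (by omega)).2
    rw [sub_add_cancel] at h2
    rw [h2, ← tt_sq]
    ring

omit [DecidableEq ι] in
lemma pot_mono (d : ι → ℕ) {ω : ℝ} (hω : 0 < ω) {c c' : ι × Finset (Fin n) → ℤ}
    (h : ∀ γ, c' γ ≤ c γ) {α : ι × Finset (Fin n)} (hα : c' α = c α) :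
    rA d ω c' α ≤ rA d ω c α := by
  unfold rA
  rw [hα]
  split_ifs with h1
  · refine mul_le_mul_of_nonneg_left (prod_le_prod (fun _ _ => by positivity) fun s _ => ?_)
      (by positivity)
    have : uu d c' s ≤ uu d c s := sum_le_sum fun γ _ => Int.toNat_le_toNat (h γ)
    gcongr
  · have h2 : zz c α.1 ≤ zz c' α.1 := sum_le_sum fun I _ => Int.toNat_le_toNat (neg_le_neg (h _))
    have h3 : (-c α).toNat ≤ zz c α.1 :=
      single_le_sum (f := fun I => (-c (α.1, I)).toNat) (fun _ _ => Nat.zero_le _) (mem_univ α.2)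
    have h4 : 0 < zz c α.1 := by omega
    gcongr

theorem pot (hn : 0 < n) (d : ι → ℕ) {ω : ℝ} (hω : 0 < ω) (c : ι × Finset (Fin n) → ℤ)
    {α β : ι × Finset (Fin n)} (hne : α ≠ β) (hα : α.2.card = d α.1) (hβ : β.2.card = d β.1) :
    tt n (d α.1) * tt n (d β.1) * Phi d ω (c + Pi.single α 1 - Pi.single β 1) ≤
      rA d ω c α * rB d ω c β * Phi d ω c := by
  have h1 := pot_mono d hω (c := c) (c' := c - Pi.single β 1) (fun γ => by
    rw [Pi.sub_apply, Pi.single_apply]; split_ifs <;> omega) (α := α) (by simp [hne])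
  calc _ = rA d ω (c - Pi.single β 1) α * (rB d ω c β * Phi d ω c) := by
        rw [add_sub_right_comm, mul_right_comm, pot_A d ω _ hα, ← pot_B d hω c hβ]
        ring
    _ ≤ _ := by
        rw [mul_assoc]
        exact mul_le_mul_of_nonneg_right h1
          (mul_nonneg (rB_nonneg d hω.le c β) (Phi_nonneg d hω.le c))

end Pool.Agent.P.MP_3acc10_al.Nak

namespace Pool.Agent.P.MP_3acc10_al.Nak

open Module Finset

variable {n : ℕ} {ι : Type} [Fintype ι] [DecidableEq ι]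

lemma inner_count (I M : Finset (Fin n)) (e j : ℕ) (hj : 0 < j) (hM : M.card ≤ j) :
    (univ.filter fun J : Finset (Fin n) =>
      J.card = e ∧ (I ∩ J).Nonempty ∧ J \ I ⊆ M).card ≤ j ^ (e - 1) * 2 ^ I.card := by
  rw [← card_powerset]
  refine card_le_mul_card_image_of_maps_to (f := fun J => I ∩ J)
    (fun J _ => mem_powerset.2 inter_subset_left) _ fun I' _ => ?_
  rcases I'.eq_empty_or_nonempty with rfl | hne
  · rw [filter_eq_empty_iff.2, card_empty]
    · exact Nat.zero_le _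
    · intro J hJ h
      have := (mem_filter.1 hJ).2.2.1
      rw [h] at this
      exact not_nonempty_empty this
  have h1 : 1 ≤ I'.card := hne.card_pos
  calc _ ≤ (powersetCard (e - I'.card) M).card := by
        refine card_le_card_of_injOn (fun J => J \ I) (fun J hJ => ?_) fun J hJ J' hJ' h => ?_
        · simp only [coe_filter, mem_filter, mem_univ, true_and, Set.mem_ofPred_eq] at hJ
          obtain ⟨⟨h2, -, h3⟩, h4⟩ := hJ
          refine mem_coe.2 (mem_powersetCard.2 ⟨h3, ?_⟩)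
          rw [card_sdiff, h4, h2]
        · simp only [coe_filter, mem_filter, mem_univ, true_and, Set.mem_ofPred_eq] at hJ hJ'
          have h' : J \ I = J' \ I := h
          rw [← sdiff_union_inter J I, ← sdiff_union_inter J' I, h', inter_comm J, inter_comm J',
            hJ.2, hJ'.2]
    _ ≤ M.card ^ (e - I'.card) := by
        rw [card_powersetCard]
        exact Nat.choose_le_pow _ _
    _ ≤ j ^ (e - I'.card) := Nat.pow_le_pow_left hM _
    _ ≤ j ^ (e - 1) := Nat.pow_le_pow_right hj (by omega)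

omit [DecidableEq ι] in
lemma inner_uu (d : ι → ℕ) (c : ι × Finset (Fin n) → ℤ) (s : Fin n) :
    (univ.filter fun β : ι × Finset (Fin n) =>
      s ∈ β.2 ∧ β.2.card = d β.1 ∧ 0 < c β).card ≤ uu d c s := by
  unfold uu
  rw [card_eq_sum_ones]
  refine le_trans (sum_le_sum (g := fun γ => (c γ).toNat) fun β hβ => ?_)
    (sum_le_sum_of_subset fun β hβ => ?_)
  · have := (mem_filter.1 hβ).2.2.2
    omega
  · have := (mem_filter.1 hβ).2
    exact mem_filter.2 ⟨mem_univ _, this.1, this.2.1⟩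

omit [DecidableEq ι] in
lemma inner_close (d : ι → ℕ) (c : ι × Finset (Fin n) → ℤ) (I : Finset (Fin n))
    (β : ι × Finset (Fin n)) (h1 : β.2.card = d β.1) (h2 : (I ∩ β.2).Nonempty) (h3 : 0 < c β) :
    (∏ s ∈ β.2, (uu d c s : ℝ))⁻¹ ≤
      ∑ s ∈ I, if s ∈ β.2 ∧ β.2.card = d β.1 ∧ 0 < c β then (uu d c s : ℝ)⁻¹ else 0 := by
  have h4 : ∀ s ∈ β.2, (1 : ℝ) ≤ uu d c s := by
    intro s hs
    have : 1 ≤ uu d c s := le_trans (card_pos.2 ⟨β, mem_filter.2 ⟨mem_univ _, hs, h1, h3⟩⟩)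
      (inner_uu d c s)
    exact_mod_cast this
  obtain ⟨s, hs⟩ := h2
  rw [mem_inter] at hs
  refine le_trans ?_ (single_le_sum (f := fun s =>
    if s ∈ β.2 ∧ β.2.card = d β.1 ∧ 0 < c β then (uu d c s : ℝ)⁻¹ else 0)
    (fun s _ => by split_ifs <;> positivity) hs.1)
  rw [if_pos ⟨hs.2, h1, h3⟩]
  refine inv_anti₀ (lt_of_lt_of_le one_pos (h4 s hs.2)) ?_
  rw [← mul_prod_erase _ _ hs.2]
  refine le_mul_of_one_le_right (Nat.cast_nonneg _) ?_
  exact one_le_prod (fun t ht => h4 t (mem_of_mem_erase ht))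

omit [DecidableEq ι] in
lemma inner_close_sum (d : ι → ℕ) (c : ι × Finset (Fin n) → ℤ) (I : Finset (Fin n)) :
    ∑ β : ι × Finset (Fin n), ∑ s ∈ I,
        (if s ∈ β.2 ∧ β.2.card = d β.1 ∧ 0 < c β then (uu d c s : ℝ)⁻¹ else 0) ≤
      ((I.filter fun s => 0 < uu d c s).card : ℝ) := by
  rw [sum_comm, card_filter]
  push_cast
  refine sum_le_sum fun s _ => ?_
  rw [← sum_filter, sum_const, nsmul_eq_mul]
  have h : (((univ.filter fun β : ι × Finset (Fin n) =>
      s ∈ β.2 ∧ β.2.card = d β.1 ∧ 0 < c β).card : ℕ) : ℝ) ≤ uu d c s := by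
    exact_mod_cast inner_uu d c s
  split_ifs with h0
  · have : (0 : ℝ) < uu d c s := by exact_mod_cast h0
    rw [← div_eq_mul_inv, div_le_one this]
    exact h
  · have : uu d c s = 0 := by omega
    simp [this]

omit [DecidableEq ι] in
lemma inner_zz (q : ℕ) (c : ι × Finset (Fin n) → ℤ) (hc : ∑ γ, |c γ| ≤ (q : ℤ)) :
    ∑ b, (zz c b : ℝ) ≤ q := by
  have : ∑ b, (zz c b : ℤ) ≤ q := by
    refine le_trans ?_ hc
    rw [Fintype.sum_prod_type]
    refine sum_le_sum fun b _ => ?_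
    unfold zz
    push_cast
    refine sum_le_sum fun J _ => ?_
    rcases le_total 0 (c (b, J)) with h | h
    · rw [abs_of_nonneg h]; omega
    · rw [abs_of_nonpos h]; omega
  exact_mod_cast this

omit [DecidableEq ι] in
lemma inner_open (d : ι → ℕ) (D j q : ℕ) (hd : ∀ a, 0 < d a) (hj : 0 < j) (hjn : j ≤ n)
    (c : ι × Finset (Fin n) → ℤ) (hc : ∑ γ, |c γ| ≤ (q : ℤ)) (I M : Finset (Fin n))
    (hI : I.card ≤ D) (hM : M.card ≤ j) :
    ∑ β ∈ univ.filter (fun β : ι × Finset (Fin n) => β.2.card = d β.1 ∧ d β.1 ≤ j ∧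
        (I ∩ β.2).Nonempty ∧ β.2 \ I ⊆ M), ((n : ℝ) ^ d β.1)⁻¹ * ((zz c β.1 : ℝ) + 1) ≤
      2 ^ D * (ld n d j + q / n) := by
  have hn : (0 : ℝ) < n := by exact_mod_cast lt_of_lt_of_le hj hjn
  have hjn' : (j : ℝ) ≤ n := by exact_mod_cast hjn
  rw [sum_filter, Fintype.sum_prod_type]
  have key : ∀ b : ι, (∑ J : Finset (Fin n), if J.card = d b ∧ d b ≤ j ∧
      (I ∩ J).Nonempty ∧ J \ I ⊆ M then ((n : ℝ) ^ d b)⁻¹ * ((zz c b : ℝ) + 1) else 0) ≤
      2 ^ D * ((if d b ≤ j then (j : ℝ) ^ (d b - 1) / (n : ℝ) ^ d b else 0) + zz c b / n) := by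
    intro b
    by_cases hb : d b ≤ j
    · simp only [hb, true_and, if_true]
      rw [← sum_filter, sum_const, nsmul_eq_mul]
      have h1 : (((univ.filter fun J : Finset (Fin n) =>
          J.card = d b ∧ (I ∩ J).Nonempty ∧ J \ I ⊆ M).card : ℕ) : ℝ) ≤
          (j : ℝ) ^ (d b - 1) * 2 ^ D := by
        have := (inner_count I M (d b) j hj hM).trans
          (Nat.mul_le_mul_left _ (Nat.pow_le_pow_right two_pos hI))
        exact_mod_cast this
      have h2 : (j : ℝ) ^ (d b - 1) / (n : ℝ) ^ d b ≤ 1 / n := by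
        rw [div_le_div_iff₀ (by positivity) hn, one_mul]
        obtain ⟨k, hk⟩ : ∃ k, d b = k + 1 := ⟨d b - 1, by have := hd b; omega⟩
        rw [hk, Nat.add_sub_cancel, pow_succ]
        gcongr
      calc _ ≤ (j : ℝ) ^ (d b - 1) * 2 ^ D * (((n : ℝ) ^ d b)⁻¹ * ((zz c b : ℝ) + 1)) := by
            gcongr
        _ = 2 ^ D * ((j : ℝ) ^ (d b - 1) / (n : ℝ) ^ d b +
            zz c b * ((j : ℝ) ^ (d b - 1) / (n : ℝ) ^ d b)) := by ring
        _ ≤ 2 ^ D * ((j : ℝ) ^ (d b - 1) / (n : ℝ) ^ d b + zz c b * (1 / n)) := by gcongr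
        _ = _ := by ring
    · simp only [hb, false_and, and_false, if_false, sum_const_zero]
      positivity
  refine (sum_le_sum fun b _ => key b).trans ?_
  rw [← mul_sum, sum_add_distrib, ← sum_filter, ← sum_div]
  unfold ld
  gcongr
  exact inner_zz q c hc

theorem inner (d : ι → ℕ) (D j q : ℕ) (hd : ∀ a, 0 < d a) (hj : 0 < j) (hjn : j ≤ n) {ω : ℝ}
    (hω : 0 < ω) (c : ι × Finset (Fin n) → ℤ) (hc : ∑ γ, |c γ| ≤ (q : ℤ)) (I M : Finset (Fin n))
    (hI : I.card ≤ D) (hM : M.card ≤ j) :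
    ∑ β ∈ univ.filter (fun β : ι × Finset (Fin n) => β.2.card = d β.1 ∧ d β.1 ≤ j ∧
        (I ∩ β.2).Nonempty ∧ β.2 \ I ⊆ M), rB d ω c β ≤
      ((I.filter fun s => 0 < uu d c s).card : ℝ) / ω + 2 ^ D * (ld n d j + q / n) := by
  have h0 : ∀ β : ι × Finset (Fin n), 0 ≤ ∑ s ∈ I,
      if s ∈ β.2 ∧ β.2.card = d β.1 ∧ 0 < c β then (uu d c s : ℝ)⁻¹ else 0 :=
    fun β => sum_nonneg fun s _ => by split_ifs <;> positivity
  refine le_trans (sum_le_sum (g := fun β => (∑ s ∈ I,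
      if s ∈ β.2 ∧ β.2.card = d β.1 ∧ 0 < c β then (uu d c s : ℝ)⁻¹ else 0) / ω +
      ((n : ℝ) ^ d β.1)⁻¹ * ((zz c β.1 : ℝ) + 1)) fun β hβ => ?_) ?_
  · obtain ⟨h1, -, h2, -⟩ := (mem_filter.1 hβ).2
    unfold rB
    split_ifs with h3
    · refine le_trans ?_ (le_add_of_nonneg_right (by positivity))
      rw [mul_inv, mul_comm, ← div_eq_mul_inv]
      gcongr
      exact inner_close d c I β h1 h2 h3
    · exact le_add_of_nonneg_left (div_nonneg (h0 β) hω.le)
  · rw [sum_add_distrib, ← sum_div]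
    refine add_le_add ?_ (inner_open d D j q hd hj hjn c hc I M hI hM)
    gcongr
    exact (sum_le_sum_of_subset_of_nonneg (subset_univ _) fun β _ _ => h0 β).trans
      (inner_close_sum d c I)

end Pool.Agent.P.MP_3acc10_al.Nak

namespace Pool.Agent.P.MP_3acc10_al.Nak

open Module Finset

variable {n : ℕ} {ι : Type} [Fintype ι] [DecidableEq ι]

lemma outer_through (w : Fin n → ℝ) (hw : ∀ s, 0 ≤ w s) (k : ℕ) (s : Fin n) :
    ∑ I ∈ univ.filter (fun I : Finset (Fin n) => I.card = k + 1 ∧ s ∈ I), ∏ x ∈ I, w x ≤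
      w s * ∑ J ∈ univ.filter (fun J : Finset (Fin n) => J.card = k), ∏ x ∈ J, w x := by
  have h1 : ∑ I ∈ univ.filter (fun I : Finset (Fin n) => I.card = k + 1 ∧ s ∈ I), ∏ x ∈ I, w x =
      w s * ∑ I ∈ univ.filter (fun I : Finset (Fin n) => I.card = k + 1 ∧ s ∈ I),
        ∏ x ∈ I.erase s, w x := by
    rw [mul_sum]
    refine sum_congr rfl fun I hI => ?_
    rw [mul_prod_erase I w (mem_filter.1 hI).2.2]
  rw [h1]
  refine mul_le_mul_of_nonneg_left ?_ (hw s)
  have hinj : Set.InjOn (fun I : Finset (Fin n) => I.erase s)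
      (univ.filter (fun I : Finset (Fin n) => I.card = k + 1 ∧ s ∈ I) : Finset (Finset (Fin n))) := by
    intro I hI J hJ h
    have hI' := (mem_filter.1 (mem_coe.1 hI)).2.2
    have hJ' := (mem_filter.1 (mem_coe.1 hJ)).2.2
    have h' : I.erase s = J.erase s := h
    rw [← insert_erase hI', ← insert_erase hJ', h']
  rw [← sum_image (f := fun J : Finset (Fin n) => ∏ x ∈ J, w x) hinj]
  refine sum_le_sum_of_subset_of_nonneg ?_ fun J _ _ => prod_nonneg fun x _ => hw x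
  intro J hJ
  obtain ⟨I, hI, rfl⟩ := mem_image.1 hJ
  have hI' := (mem_filter.1 hI).2
  refine mem_filter.2 ⟨mem_univ _, ?_⟩
  rw [card_erase_of_mem hI'.2, hI'.1]
  rfl

lemma outer_swap (f : Finset (Fin n) → ℝ) (e : ℕ) (p : Fin n → Prop) [DecidablePred p] :
    ∑ I ∈ univ.filter (fun I : Finset (Fin n) => I.card = e), f I * ((I.filter p).card : ℝ) =
      ∑ s ∈ univ.filter p, ∑ I ∈ univ.filter (fun I : Finset (Fin n) => I.card = e ∧ s ∈ I), f I := by
  have h1 : ∀ I : Finset (Fin n), f I * ((I.filter p).card : ℝ) =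
      ∑ s ∈ univ.filter p, if s ∈ I then f I else 0 := by
    intro I
    rw [← sum_filter, sum_const, nsmul_eq_mul, mul_comm]
    congr 2
    congr 1
    ext x
    simp [and_comm]
  rw [sum_congr rfl fun I _ => h1 I, sum_comm]
  refine sum_congr rfl fun s _ => ?_
  rw [← sum_filter, filter_filter]

lemma outer_esymm (w : Fin n → ℝ) (hw : ∀ s, 0 ≤ w s) (k : ℕ) :
    ∑ I ∈ univ.filter (fun I : Finset (Fin n) => I.card = k), ∏ x ∈ I, w x ≤ (∑ s, w s) ^ k := by
  induction k with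
  | zero =>
    have : univ.filter (fun I : Finset (Fin n) => I.card = 0) = {∅} := by
      ext I; simp
    rw [this]; simp
  | succ k ih =>
    have h1 : ∑ I ∈ univ.filter (fun I : Finset (Fin n) => I.card = k + 1), ∏ x ∈ I, w x ≤
        ∑ I ∈ univ.filter (fun I : Finset (Fin n) => I.card = k + 1),
          (∏ x ∈ I, w x) * ((I.filter fun _ => True).card : ℝ) := by
      refine sum_le_sum fun I hI => ?_
      have hp : 0 ≤ ∏ x ∈ I, w x := prod_nonneg fun x _ => hw x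
      have hc : (1 : ℝ) ≤ ((I.filter fun _ => True).card : ℝ) := by
        rw [filter_true_of_mem fun _ _ => trivial, (mem_filter.1 hI).2]
        exact_mod_cast Nat.succ_le_succ (Nat.zero_le k)
      nlinarith
    refine h1.trans ?_
    rw [outer_swap, filter_true_of_mem fun _ _ => trivial, pow_succ', sum_mul]
    refine sum_le_sum fun s _ => (outer_through w hw k s).trans ?_
    exact mul_le_mul_of_nonneg_left ih (hw s)

omit [DecidableEq ι] in
lemma outer_U (d : ι → ℕ) (D q : ℕ) (hd : ∀ a, 0 < d a ∧ d a ≤ D)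
    (c : ι × Finset (Fin n) → ℤ) (hc : ∑ γ, |c γ| ≤ (q : ℤ)) : ∑ s, uu d c s ≤ D * q := by
  have h1 : ∑ γ, (c γ).toNat ≤ q := by
    have : ((∑ γ, (c γ).toNat : ℕ) : ℤ) ≤ (q : ℤ) := by
      refine le_trans ?_ hc
      push_cast
      refine sum_le_sum fun γ _ => ?_
      have := le_abs_self (c γ)
      have := abs_nonneg (c γ)
      omega
    exact_mod_cast this
  refine le_trans ?_ (Nat.mul_le_mul_left D h1)
  unfold uu
  simp_rw [sum_filter]
  rw [sum_comm, mul_sum]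
  refine sum_le_sum fun γ _ => ?_
  rw [← sum_filter, sum_const, smul_eq_mul]
  refine Nat.mul_le_mul_right _ ?_
  by_cases h : γ.2.card = d γ.1
  · refine le_trans (card_le_card (t := γ.2) fun s hs => (mem_filter.1 hs).2.1) ?_
    rw [h]; exact (hd _).2
  · rw [filter_false_of_mem fun s _ hs => h hs.2]
    simp

omit [DecidableEq ι] in
lemma outer_zz (c : ι × Finset (Fin n) → ℤ) (a : ι) (S : Finset (Finset (Fin n))) :
    (S.filter fun I => c (a, I) < 0).card ≤ zz c a := by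
  unfold zz
  rw [card_eq_sum_ones]
  refine le_trans (sum_le_sum (g := fun I => (-c (a, I)).toNat) fun I hI => ?_)
    (sum_le_sum_of_subset (subset_univ _))
  have := (mem_filter.1 hI).2
  omega

theorem outer (hn : 0 < n) (d : ι → ℕ) (D q : ℕ) (hd : ∀ a, 0 < d a ∧ d a ≤ D) (hq : D * q ≤ n)
    {ω κ : ℝ} (hω : 0 < ω) (hκ : 0 ≤ κ) (c : ι × Finset (Fin n) → ℤ)
    (hc : ∑ γ, |c γ| ≤ (q : ℤ)) (a : ι) :
    ∑ I ∈ univ.filter (fun I : Finset (Fin n) => I.card = d a),
        rA d ω c (a, I) * (((I.filter fun s => 0 < uu d c s).card : ℝ) / ω + κ) ≤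
      D / ω + κ + ω * 2 ^ D * κ + 2 ^ D * D * (q / n) := by
  have hn' : (0 : ℝ) < n := by exact_mod_cast hn
  obtain ⟨k, hk⟩ : ∃ k, d a = k + 1 := ⟨d a - 1, by have := (hd a).1; omega⟩
  have hkD : k + 1 ≤ D := hk ▸ (hd a).2
  set w : Fin n → ℝ := fun s => (uu d c s : ℝ) + 1 with hw
  have hw0 : ∀ s, 0 ≤ w s := fun s => by simp only [hw]; positivity
  have hU : (∑ s, (uu d c s : ℝ)) ≤ D * q := by exact_mod_cast outer_U d D q hd c hc
  have hq' : (D : ℝ) * q ≤ n := by exact_mod_cast hq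
  have hW : ∑ s, w s ≤ 2 * n := by
    simp only [hw]
    rw [sum_add_distrib, sum_const, card_univ, Fintype.card_fin, nsmul_eq_mul, mul_one]
    linarith
  have hW0 : 0 ≤ ∑ s, w s := sum_nonneg fun s _ => hw0 s
  have hE : ∀ m, ∑ I ∈ univ.filter (fun I : Finset (Fin n) => I.card = m), ∏ x ∈ I, w x ≤
      (2 * (n : ℝ)) ^ m := fun m => (outer_esymm w hw0 m).trans (pow_le_pow_left₀ hW0 hW m)
  have hB : 0 ≤ (D : ℝ) / ω + κ := by positivity
  have hpt : ∀ I ∈ univ.filter (fun I : Finset (Fin n) => I.card = d a),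
      rA d ω c (a, I) * (((I.filter fun s => 0 < uu d c s).card : ℝ) / ω + κ) ≤
        (if c (a, I) < 0 then (zz c a : ℝ)⁻¹ * (D / ω + κ) else 0) +
          ω * κ * ((n : ℝ) ^ (k + 1))⁻¹ * ∏ x ∈ I, w x +
          ((n : ℝ) ^ (k + 1))⁻¹ *
            ((∏ x ∈ I, w x) * ((I.filter fun s => 0 < uu d c s).card : ℝ)) := by
    intro I hI
    have hp : 0 ≤ ∏ x ∈ I, w x := prod_nonneg fun x _ => hw0 x
    unfold rA
    by_cases h : 0 ≤ c (a, I)
    · rw [if_pos h, if_neg (not_lt.2 h)]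
      simp only [hk]
      apply le_of_eq
      change ω * ((n : ℝ) ^ (k + 1))⁻¹ * (∏ x ∈ I, w x) * _ = _
      field_simp
      ring
    · rw [if_neg h, if_pos (not_le.1 h)]
      have hcard : ((I.filter fun s => 0 < uu d c s).card : ℝ) ≤ D := by
        have : (I.filter fun s => 0 < uu d c s).card ≤ D :=
          (card_filter_le _ _).trans (by rw [(mem_filter.1 hI).2]; exact (hd a).2)
        exact_mod_cast this
      have h1 : (zz c a : ℝ)⁻¹ * (((I.filter fun s => 0 < uu d c s).card : ℝ) / ω + κ) ≤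
          (zz c a : ℝ)⁻¹ * (D / ω + κ) := by
        gcongr
      have h2 : 0 ≤ ω * κ * ((n : ℝ) ^ (k + 1))⁻¹ * ∏ x ∈ I, w x := by positivity
      have h3 : 0 ≤ ((n : ℝ) ^ (k + 1))⁻¹ *
            ((∏ x ∈ I, w x) * ((I.filter fun s => 0 < uu d c s).card : ℝ)) := by positivity
      change (zz c a : ℝ)⁻¹ * _ ≤ _
      linarith
  refine (sum_le_sum hpt).trans ?_
  rw [sum_add_distrib, sum_add_distrib]
  have h2D : (2 : ℝ) ^ (k + 1) ≤ 2 ^ D := pow_le_pow_right₀ (by norm_num) hkD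
  have hA : ∑ I ∈ univ.filter (fun I : Finset (Fin n) => I.card = d a),
      (if c (a, I) < 0 then (zz c a : ℝ)⁻¹ * (D / ω + κ) else 0) ≤ D / ω + κ := by
    rw [← sum_filter, sum_const, nsmul_eq_mul, ← mul_assoc]
    refine mul_le_of_le_one_left hB ?_
    have h1 : (((univ.filter (fun I : Finset (Fin n) => I.card = d a)).filter
        fun I => c (a, I) < 0).card : ℝ) ≤ zz c a := by exact_mod_cast outer_zz c a _
    exact (mul_le_mul_of_nonneg_right h1 (by positivity)).trans mul_inv_le_one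
  have hB' : ∑ I ∈ univ.filter (fun I : Finset (Fin n) => I.card = d a),
      ω * κ * ((n : ℝ) ^ (k + 1))⁻¹ * ∏ x ∈ I, w x ≤ ω * 2 ^ D * κ := by
    rw [← mul_sum, hk]
    refine (mul_le_mul_of_nonneg_left (hE (k + 1)) (by positivity)).trans ?_
    have : ω * κ * ((n : ℝ) ^ (k + 1))⁻¹ * (2 * (n : ℝ)) ^ (k + 1) = ω * 2 ^ (k + 1) * κ := by
      rw [mul_pow]; field_simp
    rw [this]
    gcongr
  have hC : ∑ I ∈ univ.filter (fun I : Finset (Fin n) => I.card = d a),
      ((n : ℝ) ^ (k + 1))⁻¹ * ((∏ x ∈ I, w x) * ((I.filter fun s => 0 < uu d c s).card : ℝ)) ≤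
      2 ^ D * D * (q / n) := by
    rw [← mul_sum, outer_swap, hk]
    have h1 : ∑ s ∈ univ.filter (fun s => 0 < uu d c s),
        ∑ I ∈ univ.filter (fun I : Finset (Fin n) => I.card = k + 1 ∧ s ∈ I), ∏ x ∈ I, w x ≤
        ∑ s, 2 * (uu d c s : ℝ) * (2 * (n : ℝ)) ^ k := by
      refine le_trans (sum_le_sum fun s hs => ?_)
        (sum_le_sum_of_subset_of_nonneg (subset_univ _) fun s _ _ => by positivity)
      refine (outer_through w hw0 k s).trans ?_
      have h2 : (1 : ℝ) ≤ uu d c s := by exact_mod_cast (mem_filter.1 hs).2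
      refine mul_le_mul (by simp only [hw]; linarith) (hE k)
        (sum_nonneg fun J _ => prod_nonneg fun x _ => hw0 x) (by positivity)
    refine (mul_le_mul_of_nonneg_left h1 (by positivity)).trans ?_
    rw [← sum_mul, ← mul_sum]
    have h3 : ((n : ℝ) ^ (k + 1))⁻¹ * (2 * (∑ s, (uu d c s : ℝ)) * (2 * (n : ℝ)) ^ k) =
        2 ^ (k + 1) * (∑ s, (uu d c s : ℝ)) / n := by
      rw [mul_pow]; field_simp; ring
    rw [h3, div_le_iff₀ hn']
    have h4 : (2 : ℝ) ^ D * D * (q / n) * n = 2 ^ D * (D * q) := by field_simp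
    rw [h4]
    exact mul_le_mul h2D hU (sum_nonneg fun s _ => by positivity) (by positivity)
  linarith

end Pool.Agent.P.MP_3acc10_al.Nak

namespace Pool.Agent.P.MP_3acc10_al.Nak

open Module Finset

variable {n : ℕ} {ι : Type} [Fintype ι] [DecidableEq ι]

lemma nstep_disj {M I J : Finset (Fin n)} (h : ¬ (I ∩ J).Nonempty) (N : Finset (Fin n)) :
    sg M I J N = 0 := by
  have hd : ∀ x, x ∈ I → x ∉ J := fun x h1 h2 => h ⟨x, mem_inter.2 ⟨h1, h2⟩⟩
  have key : (Disjoint I M ∧ Disjoint J N ∧ I ∪ M = J ∪ N) ↔ (J ⊆ M ∧ I ⊆ N ∧ M \ J = N \ I) := by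
    simp only [Finset.disjoint_left, Finset.ext_iff, mem_union, mem_sdiff, Finset.subset_iff]
    constructor
    · rintro ⟨h1, h2, h3⟩
      refine ⟨fun x hx => ?_, fun x hx => ?_, fun x => ?_⟩
      · have := h3 x; have := hd x; tauto
      · have := h3 x; have := hd x; tauto
      · have := h3 x; have := hd x; have := @h1 x; have := @h2 x; tauto
    · rintro ⟨h1, h2, h3⟩
      refine ⟨fun x hx => ?_, fun x hx => ?_, fun x => ?_⟩
      · have := h3 x; have := hd x; tauto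
      · have := h3 x; have := hd x; tauto
      · have := h3 x; have := hd x; have := @h1 x; have := @h2 x; tauto
  unfold sg
  rw [if_congr key rfl rfl, sub_self]

lemma nstep_nsub {M I J : Finset (Fin n)} (h : ¬ J \ I ⊆ M) (N : Finset (Fin n)) :
    sg M I J N = 0 := by
  unfold sg
  rw [if_neg, if_neg, sub_self]
  · rintro ⟨h1, -, -⟩
    exact h (sdiff_subset.trans h1)
  · rintro ⟨-, -, h3⟩
    refine h fun x hx => ?_
    have h4 : x ∈ I ∪ M := h3 ▸ mem_union_left _ (mem_sdiff.1 hx).1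
    exact (mem_union.1 h4).resolve_left (mem_sdiff.1 hx).2

lemma nstep_two (M I J : Finset (Fin n)) : ∑ N, |sg M I J N| ≤ 2 := by
  have h : ∀ N, |sg M I J N| ≤
      (if N = (I ∪ M) \ J then (1 : ℝ) else 0) + (if N = I ∪ (M \ J) then (1 : ℝ) else 0) := by
    intro N
    have e1 : (Disjoint I M ∧ Disjoint J N ∧ I ∪ M = J ∪ N) → N = (I ∪ M) \ J := by
      rintro ⟨-, h2, h3⟩
      rw [h3, union_sdiff_cancel_left h2]
    have e2 : (J ⊆ M ∧ I ⊆ N ∧ M \ J = N \ I) → N = I ∪ (M \ J) := by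
      rintro ⟨-, h2, h3⟩
      rw [h3, union_sdiff_of_subset h2]
    have b1 : (if Disjoint I M ∧ Disjoint J N ∧ I ∪ M = J ∪ N then (1 : ℝ) else 0) ≤
        (if N = (I ∪ M) \ J then (1 : ℝ) else 0) := by
      by_cases hh : Disjoint I M ∧ Disjoint J N ∧ I ∪ M = J ∪ N
      · rw [if_pos hh, if_pos (e1 hh)]
      · rw [if_neg hh]; split_ifs <;> norm_num
    have b2 : (if J ⊆ M ∧ I ⊆ N ∧ M \ J = N \ I then (1 : ℝ) else 0) ≤
        (if N = I ∪ (M \ J) then (1 : ℝ) else 0) := by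
      by_cases hh : J ⊆ M ∧ I ⊆ N ∧ M \ J = N \ I
      · rw [if_pos hh, if_pos (e2 hh)]
      · rw [if_neg hh]; split_ifs <;> norm_num
    have p1 : (0 : ℝ) ≤ (if Disjoint I M ∧ Disjoint J N ∧ I ∪ M = J ∪ N then (1 : ℝ) else 0) := by
      split_ifs <;> norm_num
    have p2 : (0 : ℝ) ≤ (if J ⊆ M ∧ I ⊆ N ∧ M \ J = N \ I then (1 : ℝ) else 0) := by
      split_ifs <;> norm_num
    unfold sg
    rw [abs_le]
    constructor <;> linarith
  refine (sum_le_sum fun N _ => h N).trans ?_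
  rw [sum_add_distrib, sum_ite_eq', sum_ite_eq', if_pos (mem_univ _), if_pos (mem_univ _)]
  norm_num

lemma nstep_row (hn : 0 < n) (d : ι → ℕ) (j : ℕ) {ω : ℝ} (hω : 0 < ω)
    (x α β : ι × Finset (Fin n)) (c : ι × Finset (Fin n) → ℤ) :
    ∑ y, |ker d j x α β y| * Phi d ω (c + Pi.single α 1 - Pi.single β 1) ≤
      if α.1 = x.1 ∧ α.2.card = d α.1 then
        (if β.2.card = d β.1 ∧ d β.1 ≤ j ∧ (α.2 ∩ β.2).Nonempty ∧ β.2 \ α.2 ⊆ x.2 then
          2 * Phi d ω c * (rA d ω c α * rB d ω c β) else 0) else 0 := by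
  have hP := Phi_nonneg d hω.le (c + Pi.single α 1 - Pi.single β 1)
  by_cases h1 : α.1 = x.1 ∧ α.2.card = d α.1
  swap
  · rw [if_neg h1]
    refine le_of_eq (sum_eq_zero fun y _ => ?_)
    unfold ker
    rw [if_neg fun h => h1 ⟨h.1, h.2.2.2.1⟩, abs_zero, zero_mul]
  rw [if_pos h1]
  by_cases h2 : β.2.card = d β.1 ∧ d β.1 ≤ j ∧ (α.2 ∩ β.2).Nonempty ∧ β.2 \ α.2 ⊆ x.2
  swap
  · rw [if_neg h2]
    refine le_of_eq (sum_eq_zero fun y _ => ?_)
    unfold ker
    split_ifs with h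
    · have h3 : d β.1 ≤ j := by
        have := h.2.2.2.2.2.2
        rw [h.2.1]
        omega
      by_cases h4 : (α.2 ∩ β.2).Nonempty
      · rw [nstep_nsub fun h5 => h2 ⟨h.2.2.2.2.1, h3, h4, h5⟩, mul_zero, abs_zero, zero_mul]
      · rw [nstep_disj h4, mul_zero, abs_zero, zero_mul]
    · rw [abs_zero, zero_mul]
  rw [if_pos h2]
  by_cases h3 : α = β
  · have h4 : ∑ y, |ker d j x α β y| * Phi d ω (c + Pi.single α 1 - Pi.single β 1) = 0 := by
      refine sum_eq_zero fun y _ => ?_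
      unfold ker
      rw [if_neg fun h => h.2.2.1 h3, abs_zero, zero_mul]
    rw [h4]
    exact mul_nonneg (mul_nonneg zero_le_two (Phi_nonneg d hω.le c))
      (mul_nonneg (rA_nonneg d hω.le c α) (rB_nonneg d hω.le c β))
  have hT : 0 ≤ tt n (d α.1) * tt n (d β.1) := mul_nonneg (tt_nonneg _ _) (tt_nonneg _ _)
  have h5 : ∀ y : ι × Finset (Fin n), |ker d j x α β y| ≤
      if y.1 = β.1 then tt n (d α.1) * tt n (d β.1) * |sg x.2 α.2 β.2 y.2| else 0 := by
    intro y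
    unfold ker
    split_ifs with h h'
    · rw [abs_mul, ← h.1, h', abs_of_nonneg hT]
    · exact absurd h.2.1.symm h'
    · rw [abs_zero]
      exact mul_nonneg hT (abs_nonneg _)
    · rw [abs_zero]
  have h6 : ∑ y, |ker d j x α β y| ≤ tt n (d α.1) * tt n (d β.1) * 2 := by
    refine (sum_le_sum fun y _ => h5 y).trans ?_
    rw [Fintype.sum_prod_type, sum_eq_single β.1]
    · simp only [if_true]
      rw [← mul_sum]
      exact mul_le_mul_of_nonneg_left (nstep_two _ _ _) hT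
    · intro b _ hb
      exact sum_eq_zero fun N _ => if_neg hb
    · intro h
      exact absurd (mem_univ _) h
  have h7 := pot hn d hω c h3 h1.2 h2.1
  rw [← sum_mul]
  calc _ ≤ tt n (d α.1) * tt n (d β.1) * 2 * Phi d ω (c + Pi.single α 1 - Pi.single β 1) :=
        mul_le_mul_of_nonneg_right h6 hP
    _ ≤ _ := by linarith

theorem nstep (d : ι → ℕ) (D j q : ℕ) (hd : ∀ a, 0 < d a ∧ d a ≤ D) (hj : 0 < j) (hjn : j ≤ n)
    (hq : D * q ≤ n) {ε : ℝ} (hε : 0 < ε) (hε1 : ε ≤ 1) (hl : ld n d j + q / n ≤ ε)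
    (x : ι × Finset (Fin n)) (c : ι × Finset (Fin n) → ℤ) (hc : ∑ γ, |c γ| ≤ (q : ℤ)) :
    ∑ α, ∑ β, ∑ y, |ker d j x α β y| * Phi d (√ε)⁻¹ (c + Pi.single α 1 - Pi.single β 1) ≤
      (2 * (D + 2 ^ D + 4 ^ D + 2 ^ D * D) * √ε) * Phi d (√ε)⁻¹ c := by
  have hn : 0 < n := hj.trans_le hjn
  have hs : 0 < √ε := Real.sqrt_pos.2 hε
  have hω : 0 < (√ε)⁻¹ := inv_pos.2 hs
  have hP := Phi_nonneg d hω.le c
  by_cases hx : x.2.card + d x.1 ≤ j
  swap
  · have h4 : ∑ α, ∑ β, ∑ y,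
        |ker d j x α β y| * Phi d (√ε)⁻¹ (c + Pi.single α 1 - Pi.single β 1) = 0 := by
      refine sum_eq_zero fun α _ => sum_eq_zero fun β _ => sum_eq_zero fun y _ => ?_
      unfold ker
      rw [if_neg fun h => hx h.2.2.2.2.2.1, abs_zero, zero_mul]
    rw [h4]
    exact mul_nonneg (by positivity) hP
  have hκ : (0 : ℝ) ≤ 2 ^ D * ε := by positivity
  have h1 : ∀ α : ι × Finset (Fin n), ∑ β, ∑ y,
      |ker d j x α β y| * Phi d (√ε)⁻¹ (c + Pi.single α 1 - Pi.single β 1) ≤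
      if α.1 = x.1 then (if α.2.card = d x.1 then 2 * Phi d (√ε)⁻¹ c * (rA d (√ε)⁻¹ c (x.1, α.2) *
        (((α.2.filter fun s => 0 < uu d c s).card : ℝ) / (√ε)⁻¹ + 2 ^ D * ε)) else 0) else 0 := by
    intro α
    refine (sum_le_sum fun β _ => nstep_row hn d j hω x α β c).trans ?_
    by_cases h : α.1 = x.1 ∧ α.2.card = d α.1
    · have e : (x.1, α.2) = α := by rw [← h.1]
      rw [if_pos h.1, if_pos (h.1 ▸ h.2), e]
      simp only [if_pos h]
      rw [← sum_filter, ← mul_sum, ← mul_sum]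
      refine mul_le_mul_of_nonneg_left (mul_le_mul_of_nonneg_left ?_ (rA_nonneg d hω.le c α))
        (mul_nonneg zero_le_two hP)
      refine (inner d D j q (fun a => (hd a).1) hj hjn hω c hc α.2 x.2
        (h.2 ▸ (hd α.1).2) (by omega)).trans ?_
      have : (2 : ℝ) ^ D * (ld n d j + q / n) ≤ 2 ^ D * ε :=
        mul_le_mul_of_nonneg_left hl (by positivity)
      linarith
    · simp only [if_neg h]
      rw [sum_const_zero]
      split_ifs with h' h''
      · exact absurd ⟨h', h' ▸ h''⟩ h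
      · exact le_rfl
      · exact le_rfl
  refine (sum_le_sum fun α _ => h1 α).trans ?_
  rw [Fintype.sum_prod_type, sum_eq_single x.1]
  · simp only [if_true]
    rw [← sum_filter, ← mul_sum]
    have h2 := outer hn d D q hd hq hω hκ c hc x.1
    have h3 : ε ≤ √ε := Real.le_sqrt_of_sq_le (by nlinarith)
    have h4 : (q : ℝ) / n ≤ √ε := by
      have := ld_nonneg n d j
      linarith
    have h5 : (√ε)⁻¹ * 2 ^ D * (2 ^ D * ε) = 4 ^ D * √ε := by
      have e1 : (4 : ℝ) ^ D = 2 ^ D * 2 ^ D := by rw [← mul_pow]; norm_num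
      have e2 : ε = √ε * √ε := (Real.mul_self_sqrt hε.le).symm
      have e3 : (√ε)⁻¹ * √ε = 1 := inv_mul_cancel₀ hs.ne'
      calc (√ε)⁻¹ * 2 ^ D * (2 ^ D * ε) = (√ε)⁻¹ * 2 ^ D * (2 ^ D * (√ε * √ε)) := by rw [← e2]
        _ = ((√ε)⁻¹ * √ε) * (2 ^ D * 2 ^ D * √ε) := by ring
        _ = _ := by rw [e3, e1, one_mul]
    have h6 : (2 : ℝ) ^ D * ε ≤ 2 ^ D * √ε := mul_le_mul_of_nonneg_left h3 (by positivity)
    have h7 : (2 : ℝ) ^ D * D * (q / n) ≤ 2 ^ D * D * √ε :=
      mul_le_mul_of_nonneg_left h4 (by positivity)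
    rw [div_inv_eq_mul, h5] at h2
    have h8 := mul_le_mul_of_nonneg_left
      (h2.trans (show _ ≤ (D + 2 ^ D + 4 ^ D + 2 ^ D * D) * √ε by linarith))
      (mul_nonneg zero_le_two hP)
    refine le_trans (le_of_eq ?_) (h8.trans (le_of_eq (by ring)))
    simp only [div_inv_eq_mul]
  · intro b _ hb
    exact sum_eq_zero fun N _ => if_neg hb
  · intro h
    exact absurd (mem_univ _) h

end Pool.Agent.P.MP_3acc10_al.Nak
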