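import Pool.Agent.P.MP_3acc10_al.ML
import Pool.Agent.P.MP_3acc10_al.Arith

set_option autoImplicit false

namespace Pool.Agent.P.MP_3acc10_al

open Module Finset

variable {K : Type*} [Field K] {σ ι B : Type*} [Fintype σ] [DecidableEq σ] [DecidableEq B]
  [Fintype ι] [DecidableEq ι]

/-- the degree `j` part of the inverse system of the ideal -/
noncomputable abbrev WF (j : ℕ) (d : ι → ℕ) (A : Finset ι) (c : ι × Finset σ → K) :
    Submodule K (Finset σ → K) :=
  W (fun X => X.card = j) A (mask (fun i Y => Y.card = d i) c)

open Classical in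
lemma card_tr (β : σ → B) (N : ℕ) (J : Finset B) (h : ∀ b ∈ J, (univ.filter (β · = b)).card = N) :
    N ^ J.card ≤ (univ.filter (tr β J)).card := by
  induction J using Finset.induction_on with
  | empty => simpa using card_pos.2 ⟨∅, by simp [tr_empty]⟩
  | insert b J hb ih =>
    have ih := ih fun b' hb' => h b' (by simp [hb'])
    rw [card_insert_of_notMem hb, pow_succ']
    refine le_trans (Nat.mul_le_mul (h b (by simp)).ge ih) ?_
    rw [← card_product]
    have hx : ∀ p ∈ univ.filter (β · = b) ×ˢ univ.filter (tr β J), ∀ y ∈ p.2, β y ≠ b := by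
      intro p hp y hy e
      have := (mem_filter.1 (mem_product.1 hp).2).2
      exact hb (e ▸ this.2 ▸ mem_image_of_mem β hy)
    refine card_le_card_of_injOn (fun p => insert p.1 p.2) ?_ ?_
    · intro p hp
      have h1 : β p.1 = b := (mem_filter.1 (mem_product.1 hp).1).2
      have h2 := (mem_filter.1 (mem_product.1 hp).2).2
      simp only [coe_filter, mem_univ, true_and, Set.mem_ofPred_eq]
      rw [tr_erase (mem_insert_self _ _) (by simp [h1]), h1, erase_insert hb,
        erase_insert fun h => hx p hp _ h h1]
      exact h2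
    · intro p hp q hq e
      have h1 : β p.1 = b := (mem_filter.1 (mem_product.1 hp).1).2
      have h2 : β q.1 = b := (mem_filter.1 (mem_product.1 hq).1).2
      have e : insert p.1 p.2 = insert q.1 q.2 := e
      have h3 : p.1 = q.1 := by
        rcases mem_insert.1 (e ▸ mem_insert_self p.1 p.2) with h | h
        · exact h
        · exact absurd h1 (hx q hq _ h)
      refine Prod.ext h3 ?_
      rw [← erase_insert (fun h => hx p hp _ h h1 : p.1 ∉ p.2), e, h3,
        erase_insert fun h => hx q hq _ h h2]

open Classical in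
lemma card_nontr (β : σ → B) (N j : ℕ) (M : Finset B)
    (h : ∀ b ∈ M, (univ.filter (β · = b)).card = N) :
    (univ.filter fun X : Finset σ => X.card = j ∧ ∀ J ∈ M.powersetCard j, ¬ tr β J X).card +
      M.card.choose j * N ^ j ≤ (Fintype.card σ).choose j := by
  have h1 : M.card.choose j * N ^ j ≤
      ((M.powersetCard j).biUnion fun J => univ.filter (tr β J)).card := by
    rw [card_biUnion, ← card_powersetCard, ← smul_eq_mul]
    · refine card_nsmul_le_sum _ _ _ fun J hJ => ?_
      have := mem_powersetCard.1 hJ
      exact this.2 ▸ card_tr β N J fun b hb => h b (this.1 hb)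
    · intro J _ J' _ hne
      refine disjoint_left.2 fun X h1 h2 => hne ?_
      exact (mem_filter.1 h1).2.2.symm.trans (mem_filter.1 h2).2.2
  refine le_trans (Nat.add_le_add_left h1 _) ?_
  rw [← card_union_of_disjoint, ← card_univ, ← card_powersetCard]
  · refine card_le_card fun X hX => mem_powersetCard.2 ⟨subset_univ _, ?_⟩
    rcases mem_union.1 hX with h | h
    · exact (mem_filter.1 h).2.1
    · obtain ⟨J, hJ, h⟩ := mem_biUnion.1 h
      rw [(mem_filter.1 h).2.card, (mem_powersetCard.1 hJ).2]
  · refine disjoint_left.2 fun X h1 h2 => ?_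
    obtain ⟨J, hJ, h⟩ := mem_biUnion.1 h2
    exact (mem_filter.1 h1).2.2 J hJ (mem_filter.1 h).2

open Classical in
/-- restriction to a family -/
noncomputable def res (p : Finset σ → Prop) : (Finset σ → K) →ₗ[K] (Finset σ → K) where
  toFun F X := if p X then F X else 0
  map_add' F F' := by ext X; simp only [Pi.add_apply]; split_ifs <;> simp
  map_smul' a F := by ext X; simp only [Pi.smul_apply]; split_ifs <;> simp

open Classical in
omit [Fintype σ] [DecidableEq σ] in
lemma res_apply (p : Finset σ → Prop) (F : Finset σ → K) (X : Finset σ) :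
    res p F X = if p X then F X else 0 := rfl

omit [DecidableEq ι] in
lemma assemble [Infinite K] (β : σ → B) (N j : ℕ) (M : Finset B)
    (hβ : ∀ b ∈ M, (univ.filter (β · = b)).card = N) (d : ι → ℕ) (supp : ι → Finset B)
    (A : Finset ι) (hd : ∀ i ∈ A, (supp i).card = d i) (z : ℤ)
    (h : ∀ J ∈ M.powersetCard j, Gen fun c : ι × Finset σ → K =>
      (finrank K (WM β J supp A c) : ℤ) ≤ z) :
    Gen fun c : ι × Finset σ → K => (finrank K (WF j d A c) : ℤ) ≤
      M.card.choose j * z + ((Fintype.card σ).choose j - M.card.choose j * N ^ j) := by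
  classical
  obtain ⟨h, hh⟩ := (Gen.all _ h).exists
  let p0 : Finset σ → Prop := fun X => X.card = j ∧ ∀ J ∈ M.powersetCard j, ¬ tr β J X
  refine gen_WZ _ _ _ _ ⟨fun p => if tr β (supp p.1) p.2 then h p else 0, ?_⟩
  have key := finrank_le_sum
    (WF j d A fun p => if tr β (supp p.1) p.2 then h p else 0) (insertNone (M.powersetCard j))
    (fun o => o.elim (res p0) fun J => res (tr β J))
    (fun o => o.elim (Supp K p0) fun J => WM β J supp A h) ?_ ?_
  · rw [sum_insertNone] at key
    simp only [Option.elim] at key
    have h1 := finrank_Supp (K := K) p0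
    have h2 := card_nontr β N j M hβ
    have h3 := sum_le_card_nsmul _ _ _ hh
    rw [card_powersetCard, nsmul_eq_mul, ← Nat.cast_sum] at h3
    have h4 : finrank K (Supp K p0) + M.card.choose j * N ^ j ≤ (Fintype.card σ).choose j := by
      refine le_trans (Nat.add_le_add_right h1 _) ?_
      convert h2
    have h5 : (finrank K (Supp K p0) : ℤ) + M.card.choose j * N ^ j ≤
        (Fintype.card σ).choose j := by exact_mod_cast h4
    have h6 := Int.ofNat_le.2 key
    push_cast at h6 h3
    exact h6.trans ((add_le_add (le_sub_iff_add_le.2 h5) h3).trans (add_comm _ _).le)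
  · rintro (_ | J) hJ F hF
    · intro X hX
      simp only [Option.elim, res_apply, if_neg hX]
    · refine ⟨fun X hX => by simp only [Option.elim, res_apply, if_neg hX], fun i hi => ?_⟩
      have e : mask (fun i Y => Y.card = d i)
          (fun p : ι × Finset σ => if tr β (supp p.1) p.2 then h p else 0) i =
          mask (fun i => tr β (supp i)) h i := by
        ext Y
        simp only [mask]
        by_cases hY : tr β (supp i) Y
        · rw [if_pos (hY.card.trans (hd i hi))]
        · simp [hY]
      have h0 := hF.2 i hi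
      rw [e] at h0
      ext T
      have h1 := congrFun h0 T
      simp only [Option.elim, act, Pi.zero_apply] at h1 ⊢
      by_cases hT : supp i ⊆ J ∧ tr β (J \ supp i) T
      · refine Eq.trans ?_ h1
        refine sum_congr rfl fun Y _ => ?_
        split_ifs with hdis
        · by_cases hY : tr β (supp i) Y
          · rw [res_apply, if_pos ((tr_union hY hdis).2 hT)]
          · simp [mask, hY]
        · rfl
      · refine sum_eq_zero fun Y _ => ?_
        split_ifs with hdis
        · by_cases hY : tr β (supp i) Y
          · rw [res_apply, if_neg (fun h => hT ((tr_union hY hdis).1 h)), mul_zero]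
          · simp [mask, hY]
        · rfl
  · intro F hF h0
    ext X
    by_cases hX : X.card = j
    · by_cases h1 : ∀ J ∈ M.powersetCard j, ¬ tr β J X
      · have := congrFun (h0 none (by simp)) X
        simp only [Option.elim, res_apply] at this
        rwa [if_pos ⟨hX, h1⟩] at this
      · push Not at h1
        obtain ⟨J, hJ, h1⟩ := h1
        have := congrFun (h0 (some J) (by simpa using hJ)) X
        simp only [Option.elim, res_apply] at this
        rwa [if_pos h1] at this
    · exact hF.1 X hX

omit [Fintype ι] [DecidableEq ι] in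
lemma act_mask_supp {j : ℕ} {d : ι → ℕ} (c : ι × Finset σ → K) (l : ι) {F : Finset σ → K}
    (hF : ∀ X : Finset σ, ¬ X.card = j → F X = 0) (T : Finset σ) (hT : ¬ T.card + d l = j) :
    act (mask (fun i Y => Y.card = d i) c l) F T = 0 := by
  refine sum_eq_zero fun Y _ => ?_
  split_ifs with hdis
  · by_cases hY : Y.card = d l
    · rw [hF _ (by rw [card_union_of_disjoint hdis]; omega), mul_zero]
    · simp [mask, hY]
  · rfl

omit [Fintype ι] in
lemma lower_step (j : ℕ) (d : ι → ℕ) (A : Finset ι) (l : ι) (c : ι × Finset σ → K) :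
    finrank K (WF j d A c) ≤ finrank K (WF j d (insert l A) c) +
      if d l ≤ j then finrank K (WF (j - d l) d A c) else 0 := by
  let f := (actL (mask (fun i Y => Y.card = d i) c l)).domRestrict (WF j d A c)
  have h1 := LinearMap.finrank_range_add_finrank_ker f
  have h2 : finrank K (LinearMap.ker f) ≤ finrank K (WF j d (insert l A) c) := by
    rw [← Submodule.finrank_map_subtype_eq]
    refine Submodule.finrank_mono ?_
    rintro _ ⟨⟨F, hF⟩, h0, rfl⟩
    refine ⟨hF.1, fun i hi => ?_⟩
    rcases mem_insert.1 hi with rfl | hi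
    · exact h0
    · exact hF.2 i hi
  have h3 : finrank K (LinearMap.range f) ≤
      if d l ≤ j then finrank K (WF (j - d l) d A c) else 0 := by
    split_ifs with h
    · refine Submodule.finrank_mono ?_
      rintro _ ⟨⟨F, hF⟩, rfl⟩
      refine ⟨fun T hT => act_mask_supp c l hF.1 T (by omega), fun i hi => ?_⟩
      show act _ (act _ F) = 0
      rw [act_comm, hF.2 i hi, act_zero]
    · have : LinearMap.range f = ⊥ := by
        rw [eq_bot_iff]
        rintro _ ⟨⟨F, hF⟩, rfl⟩
        exact funext fun T => act_mask_supp c l hF.1 T (by omega)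
      rw [this, finrank_bot]
  omega

omit [DecidableEq σ] in
lemma finrank_Supp_eq (𝓤 : Finset σ → Prop) [DecidablePred 𝓤] :
    finrank K (Supp K 𝓤) = (univ.filter 𝓤).card := by
  refine le_antisymm (finrank_Supp _) ?_
  have h1 : Supp K 𝓤 ⊔ Supp K (fun X => ¬ 𝓤 X) = ⊤ := by
    rw [eq_top_iff]
    intro F _
    refine Submodule.mem_sup.2 ⟨res 𝓤 F, fun X hX => by simp [res_apply, hX],
      res (fun X => ¬ 𝓤 X) F, fun X hX => by rw [res_apply, if_neg hX], ?_⟩
    ext X
    by_cases hX : 𝓤 X <;> simp [res_apply, hX]
  have h2 := Submodule.finrank_add_le_finrank_add_finrank (Supp K 𝓤) (Supp K (fun X => ¬ 𝓤 X))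
  have h3 := finrank_Supp (K := K) (fun X => ¬ 𝓤 X)
  have h4 := card_filter_add_card_filter_not (s := univ) 𝓤
  rw [h1, finrank_top, finrank_fintype_fun_eq_card, ← card_univ] at h2
  omega

omit [Fintype ι] [DecidableEq ι] in
lemma finrank_WF_empty (j : ℕ) (d : ι → ℕ) (c : ι × Finset σ → K) :
    finrank K (WF j d ∅ c) = (Fintype.card σ).choose j := by
  have : WF j d ∅ c = Supp K fun X => X.card = j :=
    le_antisymm (W_le_Supp _ _ _) fun F hF => ⟨hF, by simp⟩
  rw [this, finrank_Supp_eq, ← card_univ, ← card_powersetCard, powersetCard_eq_filter,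
    powerset_univ]

omit [Fintype ι] [DecidableEq ι] in
lemma finrank_WF_le (j : ℕ) (d : ι → ℕ) (A : Finset ι) (c : ι × Finset σ → K) :
    finrank K (WF j d A c) ≤ (Fintype.card σ).choose j :=
  (Submodule.finrank_mono (W_anti _ (empty_subset A) _)).trans (finrank_WF_empty j d c).le

omit [Fintype ι] [DecidableEq ι] in
lemma finrank_WF_succ (j : ℕ) (d : ι → ℕ) (A : Finset ι) (c : ι × Finset σ → K) :
    finrank K (WF (j + 1) d A c) ≤ Fintype.card σ * finrank K (WF j d A c) := by
  have := finrank_le_sum (WF (j + 1) d A c) univ (fun x : σ => actL (Pi.single {x} 1))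
    (fun _ => WF j d A c) ?_ ?_
  · simpa using this
  · intro x _ F hF
    refine ⟨fun X hX => ?_, fun i hi => ?_⟩
    · rw [actL_apply, act_single]
      split_ifs with hd
      · refine hF.1 _ fun h => hX ?_
        have h : ({x} ∪ X).card = j + 1 := h
        rw [card_union_of_disjoint hd, card_singleton] at h
        show X.card = j
        omega
      · rfl
    · rw [actL_apply, act_comm, hF.2 i hi, act_zero]
  · intro F hF h0
    ext X
    by_cases hX : X.card = j + 1
    · obtain ⟨x, hx⟩ : X.Nonempty := card_pos.1 (by omega)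
      have := congrFun (h0 x (mem_univ _)) (X.erase x)
      rw [actL_apply, act_single, if_pos (by simp), ← insert_eq, insert_erase hx] at this
      exact this
    · exact hF.1 X hX

omit [Fintype ι] [DecidableEq ι] in
lemma finrank_WF_add (j k : ℕ) (d : ι → ℕ) (A : Finset ι) (c : ι × Finset σ → K) :
    finrank K (WF (j + k) d A c) ≤ Fintype.card σ ^ k * finrank K (WF j d A c) := by
  induction k with
  | zero => simp
  | succ k ih =>
    rw [← add_assoc, pow_succ', mul_assoc]
    exact (finrank_WF_succ _ d A c).trans (Nat.mul_le_mul_left _ ih)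

end Pool.Agent.P.MP_3acc10_al
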