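import Pool.Agent.P.MP_3acc10_al.NDefs
import Pool.Agent.P.MP_3acc10_al.Full

set_option autoImplicit false

namespace Pool.Agent.P.MP_3acc10_al.Nak

open Module Finset

variable {n : ℕ} {ι : Type} [Fintype ι] [DecidableEq ι]

lemma form_pair {α β γ : Type} [Fintype α] [Fintype β] [Fintype γ] [DecidableEq γ]
    (p : α → Prop) (q : β → Prop) [DecidablePred p] [DecidablePred q] (u : α → γ) (v : β → γ)
    (f : α → ℂ) (g : β → ℂ) :
    ∑ X : γ, (∑ s, if p s ∧ u s = X then f s else 0) * (∑ t, if q t ∧ v t = X then g t else 0) =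
      ∑ s, ∑ t, if p s ∧ q t ∧ u s = v t then f s * g t else 0 := by
  simp_rw [sum_mul_sum]
  rw [sum_comm]
  refine sum_congr rfl fun s _ => ?_
  rw [sum_comm]
  refine sum_congr rfl fun t _ => ?_
  rw [sum_eq_single (u s)]
  · by_cases h1 : p s <;> by_cases h2 : q t <;> by_cases h3 : u s = v t <;>
      simp [h1, h2, h3, eq_comm]
  · intro X _ hX
    simp [hX.symm]
  · simp

lemma form_mul (h F : Finset (Fin n) → ℂ) (X : Finset (Fin n)) :
    mul h F X = ∑ s : Finset (Fin n) × Finset (Fin n),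
      if Disjoint s.1 s.2 ∧ s.1 ∪ s.2 = X then h s.1 * F s.2 else 0 := by
  rw [Fintype.sum_prod_type, mul]
  refine sum_congr rfl fun Y _ => ?_
  rw [sum_eq_single (X \ Y)]
  · by_cases hY : Y ⊆ X
    · simp [hY, disjoint_sdiff, union_eq_right.2 hY]
    · rw [if_neg hY, if_neg]
      rintro ⟨-, h2⟩
      exact hY (h2 ▸ subset_union_left)
  · intro M _ hM
    rw [if_neg]
    rintro ⟨h1, h2⟩
    apply hM
    dsimp only at h1 h2
    rw [← h2, union_sdiff_cancel_left h1]
  · simp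

lemma form_act (g F : Finset (Fin n) → ℂ) (T : Finset (Fin n)) :
    act g F T = ∑ s : Finset (Fin n) × Finset (Fin n),
      if s.1 ⊆ s.2 ∧ s.2 \ s.1 = T then g s.1 * F s.2 else 0 := by
  rw [Fintype.sum_prod_type, act]
  refine sum_congr rfl fun Y _ => ?_
  rw [sum_eq_single (Y ∪ T)]
  · by_cases hY : Disjoint Y T
    · rw [if_pos hY, if_pos ⟨subset_union_left, union_sdiff_cancel_left hY⟩]
    · rw [if_neg hY, if_neg]
      rintro ⟨-, h2⟩
      exact hY (h2 ▸ disjoint_sdiff)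
  · intro M _ hM
    rw [if_neg]
    rintro ⟨h1, h2⟩
    apply hM
    dsimp only at h1 h2
    rw [← h2, union_sdiff_of_subset h1]
  · simp

lemma form_swap (F : Finset (Fin n) → Finset (Fin n) → Finset (Fin n) → Finset (Fin n) → ℂ) :
    ∑ J, ∑ N, ∑ I, ∑ M, F J N I M = ∑ N, ∑ M, ∑ I, ∑ J, F J N I M := by
  rw [sum_comm]
  refine sum_congr rfl fun N _ => ?_
  rw [sum_comm]
  conv_rhs => rw [sum_comm]
  refine sum_congr rfl fun I _ => ?_
  rw [sum_comm]

lemma form_one (g h φ ψ : Finset (Fin n) → ℂ) :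
    ∑ X, star (mul (star h) ψ X) * mul (star g) φ X =
      ∑ N, ∑ M, star (ψ N) * φ M * ∑ I : Finset (Fin n), ∑ J : Finset (Fin n), star (g I) * h J *
        (if Disjoint I M ∧ Disjoint J N ∧ I ∪ M = J ∪ N then 1 else 0) := by
  have h1 : ∀ X, star (mul (star h) ψ X) = ∑ s : Finset (Fin n) × Finset (Fin n),
      if Disjoint s.1 s.2 ∧ s.1 ∪ s.2 = X then h s.1 * star (ψ s.2) else 0 := by
    intro X
    rw [form_mul, star_sum]
    refine sum_congr rfl fun s _ => ?_
    split_ifs <;> simp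
  simp_rw [h1, form_mul]
  rw [form_pair (fun s : Finset (Fin n) × Finset (Fin n) => Disjoint s.1 s.2)
    (fun s : Finset (Fin n) × Finset (Fin n) => Disjoint s.1 s.2)
    (fun s => s.1 ∪ s.2) (fun s => s.1 ∪ s.2)]
  simp_rw [Fintype.sum_prod_type, mul_sum]
  rw [form_swap]
  refine sum_congr rfl fun N _ => sum_congr rfl fun M _ => sum_congr rfl fun I _ =>
    sum_congr rfl fun J _ => ?_
  by_cases hc : Disjoint I M ∧ Disjoint J N ∧ I ∪ M = J ∪ N
  · rw [if_pos hc, if_pos ⟨hc.2.1, hc.1, hc.2.2.symm⟩, Pi.star_apply]; ring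
  · rw [if_neg hc, if_neg (fun h' => hc ⟨h'.2.1, h'.1, h'.2.2.symm⟩)]; ring

lemma form_two (g h φ ψ : Finset (Fin n) → ℂ) :
    ∑ T, star (act g ψ T) * act h φ T =
      ∑ N, ∑ M, star (ψ N) * φ M * ∑ I : Finset (Fin n), ∑ J : Finset (Fin n), star (g I) * h J *
        (if J ⊆ M ∧ I ⊆ N ∧ M \ J = N \ I then 1 else 0) := by
  have h1 : ∀ T, star (act g ψ T) = ∑ s : Finset (Fin n) × Finset (Fin n),
      if s.1 ⊆ s.2 ∧ s.2 \ s.1 = T then star (g s.1) * star (ψ s.2) else 0 := by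
    intro X
    rw [form_act, star_sum]
    refine sum_congr rfl fun s _ => ?_
    split_ifs <;> simp
  simp_rw [h1, form_act]
  rw [form_pair (fun s : Finset (Fin n) × Finset (Fin n) => s.1 ⊆ s.2)
    (fun s : Finset (Fin n) × Finset (Fin n) => s.1 ⊆ s.2)
    (fun s => s.2 \ s.1) (fun s => s.2 \ s.1)]
  simp_rw [Fintype.sum_prod_type, mul_sum]
  rw [form_swap]
  refine sum_congr rfl fun N _ => sum_congr rfl fun M _ => ?_
  rw [sum_comm]
  refine sum_congr rfl fun I _ => sum_congr rfl fun J _ => ?_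
  by_cases hc : J ⊆ M ∧ I ⊆ N ∧ M \ J = N \ I
  · rw [if_pos hc, if_pos ⟨hc.2.1, hc.1, hc.2.2.symm⟩]; ring
  · rw [if_neg hc, if_neg (fun h' => hc ⟨h'.2.1, h'.1, h'.2.2.symm⟩)]; ring

omit [DecidableEq ι] in
theorem form_eq (G φ : ι → Finset (Fin n) → ℂ) :
    Qf G φ = ∑ y : ι × Finset (Fin n), ∑ x : ι × Finset (Fin n), star (φ y.1 y.2) * φ x.1 x.2 *
      ∑ I : Finset (Fin n), ∑ J : Finset (Fin n),
        star (G x.1 I) * G y.1 J * (sg x.2 I J y.2 : ℂ) := by
  have h1 : ∑ X : Finset (Fin n), star (∑ a, mul (star (G a)) (φ a) X) *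
      (∑ a, mul (star (G a)) (φ a) X) =
      ∑ b, ∑ a, ∑ X, star (mul (star (G b)) (φ b) X) * mul (star (G a)) (φ a) X := by
    simp_rw [star_sum, sum_mul_sum]
    rw [sum_comm]
    refine sum_congr rfl fun b _ => ?_
    rw [sum_comm]
  rw [Qf, h1]
  conv_lhs => rw [sum_comm (f := fun a b => ∑ T : Finset (Fin n),
    star (act (G a) (φ b) T) * act (G b) (φ a) T)]
  simp_rw [form_one, form_two, Fintype.sum_prod_type]
  rw [← sum_sub_distrib]
  refine sum_congr rfl fun b _ => ?_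
  rw [← sum_sub_distrib, sum_comm]
  refine sum_congr rfl fun a _ => ?_
  rw [← sum_sub_distrib]
  refine sum_congr rfl fun N _ => ?_
  rw [← sum_sub_distrib]
  refine sum_congr rfl fun M _ => ?_
  rw [← mul_sub, ← sum_sub_distrib]
  congr 1
  refine sum_congr rfl fun I _ => ?_
  rw [← sum_sub_distrib]
  refine sum_congr rfl fun J _ => ?_
  rw [← mul_sub, sg]
  congr 1
  push_cast
  congr 1 <;> split_ifs <;> simp

end Pool.Agent.P.MP_3acc10_al.Nak

namespace Pool.Agent.P.MP_3acc10_al.Nak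

open Module Finset

variable {n : ℕ} {ι : Type} [Fintype ι] [DecidableEq ι]

lemma pos_diff {n m e D j : ℕ} (he : 0 < e) (heD : e ≤ D) (hm : m + e ≤ j) (hj : 4 * j ≤ n) :
    ((2 : ℝ) ^ (D + 1) * D.factorial)⁻¹ * (n : ℝ) ^ e ≤
      ((n - m).choose e : ℝ) - (m.choose e : ℝ) := by
  have hf : (0 : ℝ) < e.factorial := by exact_mod_cast e.factorial_pos
  have hn0 : (0 : ℝ) ≤ n := Nat.cast_nonneg n
  have h1 : ((n : ℝ) / 2) ^ e / e.factorial ≤ ((n - m).choose e : ℝ) := by
    refine le_trans ?_ (Nat.pow_le_choose (α := ℝ) e (n - m))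
    have h2 : n ≤ 2 * (n - m + 1 - e) := by omega
    have h3 : (n : ℝ) ≤ 2 * ((n - m + 1 - e : ℕ) : ℝ) := by exact_mod_cast h2
    have h4 : (n : ℝ) / 2 ≤ ((n - m + 1 - e : ℕ) : ℝ) := by linarith
    gcongr
  have h2 : (m.choose e : ℝ) ≤ ((n : ℝ) / 2) ^ e / 2 / e.factorial := by
    refine le_trans (Nat.choose_le_pow_div (α := ℝ) e m) ?_
    have h3 : 4 * m ≤ n := by omega
    have h4 : (4 : ℝ) * m ≤ n := by exact_mod_cast h3
    have h5 : (m : ℝ) ≤ (n : ℝ) / 2 * (1 / 2) := by linarith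
    have h6 : (m : ℝ) ^ e ≤ ((n : ℝ) / 2) ^ e / 2 := by
      calc (m : ℝ) ^ e ≤ ((n : ℝ) / 2 * (1 / 2)) ^ e := by gcongr
        _ = ((n : ℝ) / 2) ^ e * (1 / 2) ^ e := mul_pow _ _ _
        _ ≤ ((n : ℝ) / 2) ^ e * (1 / 2) ^ 1 := by
          refine mul_le_mul_of_nonneg_left ?_ (by positivity)
          exact pow_le_pow_of_le_one (by norm_num) (by norm_num) he
        _ = ((n : ℝ) / 2) ^ e / 2 := by ring
    gcongr
  have h3 : ((2 : ℝ) ^ (D + 1) * D.factorial)⁻¹ ≤ ((2 : ℝ) ^ (e + 1) * e.factorial)⁻¹ := by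
    have h4 : (e.factorial : ℝ) ≤ D.factorial := by exact_mod_cast Nat.factorial_le heD
    have h5 : (2 : ℝ) ^ (e + 1) ≤ 2 ^ (D + 1) := pow_le_pow_right₀ (by norm_num) (by omega)
    apply inv_anti₀ (by positivity)
    gcongr
  have h4 : ((2 : ℝ) ^ (e + 1) * e.factorial)⁻¹ * (n : ℝ) ^ e =
      ((n : ℝ) / 2) ^ e / e.factorial - ((n : ℝ) / 2) ^ e / 2 / e.factorial := by
    rw [div_pow, pow_succ]
    field_simp
    ring
  have h5 := mul_le_mul_of_nonneg_right h3 (pow_nonneg hn0 e)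
  linarith

lemma pos_sg_ne {M N : Finset (Fin n)} (h : M ≠ N) (I : Finset (Fin n)) : sg M I I N = 0 := by
  unfold sg
  rw [if_neg, if_neg, sub_zero]
  · rintro ⟨h1, h2, h3⟩
    apply h
    rw [← sdiff_union_of_subset h1, h3, sdiff_union_of_subset h2]
  · rintro ⟨h1, h2, h3⟩
    apply h
    rw [← union_sdiff_cancel_left h1, h3, union_sdiff_cancel_left h2]

lemma pos_sg_sum (M : Finset (Fin n)) (e : ℕ) :
    ∑ I : Finset (Fin n), (if I.card = e then sg M I I M else 0) =
      ((n - M.card).choose e : ℝ) - (M.card.choose e : ℝ) := by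
  have h1 : ∀ I : Finset (Fin n), (if I.card = e then sg M I I M else 0) =
      (if I ∈ powersetCard e Mᶜ then (1 : ℝ) else 0) -
        (if I ∈ powersetCard e M then (1 : ℝ) else 0) := by
    intro I
    simp only [sg, mem_powersetCard, subset_compl_iff_disjoint_right, and_self, and_true]
    by_cases hI : I.card = e
    · simp [hI]
    · simp [hI]
  rw [sum_congr rfl fun I _ => h1 I, sum_sub_distrib]
  simp only [sum_ite_mem, univ_inter, sum_const, card_powersetCard, nsmul_eq_mul, mul_one,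
    card_compl, Fintype.card_fin]

/-- the sum over the labels splits into the off diagonal kernel and the diagonal -/
lemma pos_split (d : ι → ℕ) (j : ℕ) (A : ι × Finset (Fin n) → ℂ) (hA : ∀ γ, ‖A γ‖ = 1)
    (x y : ι × Finset (Fin n)) (hx : x.2.card + d x.1 ≤ j) (hy : y.2.card + d y.1 ≤ j) :
    ((tt n (d x.1) * tt n (d y.1) : ℝ) : ℂ) * ∑ I : Finset (Fin n), ∑ J : Finset (Fin n),
        star (mask (fun i Y => Y.card = d i) (fun p => star (A p)) x.1 I) *
          mask (fun i Y => Y.card = d i) (fun p => star (A p)) y.1 J * (sg x.2 I J y.2 : ℂ) =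
      YM (ker d j) A y x + ((tt n (d x.1) * tt n (d y.1) : ℝ) : ℂ) *
        (if y = x then (((n - x.2.card).choose (d x.1) : ℝ) - (x.2.card.choose (d x.1) : ℝ) : ℝ)
          else 0) := by
  obtain ⟨a, M⟩ := x
  obtain ⟨b, N⟩ := y
  simp only at hx hy ⊢
  have hY : YM (ker d j) A (b, N) (a, M) = ∑ I : Finset (Fin n), ∑ J : Finset (Fin n),
      A (a, I) * star (A (b, J)) * (ker d j (a, M) (a, I) (b, J) (b, N) : ℂ) := by
    simp only [YM, Matrix.of_apply, Fintype.sum_prod_type]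
    rw [sum_eq_single a]
    · refine sum_congr rfl fun I _ => ?_
      rw [sum_eq_single b]
      · intro b' _ hb'
        refine sum_eq_zero fun J _ => ?_
        simp [ker, hb']
      · simp
    · intro a' _ ha'
      refine sum_eq_zero fun I _ => sum_eq_zero fun b' _ => sum_eq_zero fun J _ => ?_
      simp [ker, ha']
    · simp
  have hAA : ∀ γ, A γ * star (A γ) = 1 := by
    intro γ
    rw [Complex.star_def, Complex.mul_conj, Complex.normSq_eq_norm_sq, hA]
    simp
  have hD : ((if ((b, N) : ι × Finset (Fin n)) = (a, M) then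
      (((n - M.card).choose (d a) : ℝ) - (M.card.choose (d a) : ℝ) : ℝ) else 0 : ℝ) : ℂ) =
      ∑ I : Finset (Fin n), ∑ J : Finset (Fin n),
        (if ((a, I) : ι × Finset (Fin n)) = (b, J) then
          ((if I.card = d a then sg M I I N else 0 : ℝ) : ℂ) else 0) := by
    by_cases hab : a = b
    · subst hab
      simp only [Prod.mk.injEq, true_and, sum_ite_eq, mem_univ, if_true]
      by_cases hMN : N = M
      · subst hMN
        rw [if_pos rfl, ← pos_sg_sum, Complex.ofReal_sum]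
      · rw [if_neg hMN]
        simp [pos_sg_ne (Ne.symm hMN)]
    · have hba : ¬ b = a := fun h => hab h.symm
      simp [hab, hba]
  rw [hY, hD, mul_sum, mul_sum, ← sum_add_distrib]
  refine sum_congr rfl fun I _ => ?_
  rw [mul_sum, mul_sum, ← sum_add_distrib]
  refine sum_congr rfl fun J _ => ?_
  by_cases hI : I.card = d a
  · by_cases hJ : J.card = d b
    · by_cases hE : ((a, I) : ι × Finset (Fin n)) = (b, J)
      · have hk : ker d j (a, M) (a, I) (b, J) (b, N) = 0 := by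
          unfold ker
          rw [if_neg]
          rintro ⟨_, _, h3, _⟩
          exact h3 hE
        obtain ⟨rfl, rfl⟩ := Prod.mk.inj hE
        rw [hk, if_pos rfl, if_pos hI]
        simp only [mask, if_pos hI, star_star, hAA]
        simp
      · have hk : ker d j (a, M) (a, I) (b, J) (b, N) =
            tt n (d a) * tt n (d b) * sg M I J N := by
          unfold ker
          rw [if_pos ⟨rfl, rfl, hE, hI, hJ, hx, hy⟩]
        rw [hk, if_neg hE]
        simp only [mask, if_pos hI, if_pos hJ, star_star]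
        push_cast
        ring
    · have hE : ¬ ((a, I) : ι × Finset (Fin n)) = (b, J) := by
        intro hE
        obtain ⟨rfl, rfl⟩ := Prod.mk.inj hE
        exact hJ hI
      simp [mask, ker, hJ, hE]
  · simp [mask, ker, hI]

theorem pos_of (hn : 0 < n) (d : ι → ℕ) (D j : ℕ) (hd : ∀ a, 0 < d a ∧ d a ≤ D) (hj : 4 * j ≤ n)
    (hD : 4 * D ≤ n) (A : ι × Finset (Fin n) → ℂ) (hA : ∀ γ, ‖A γ‖ = 1) {θ : ℝ}
    (hθ : θ < ((2 : ℝ) ^ (D + 1) * D.factorial)⁻¹)
    (h : ∀ ψ : ι × Finset (Fin n) → ℂ, -(θ * ∑ x, ‖ψ x‖ ^ 2) ≤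
      (∑ y, ∑ x, star (ψ y) * YM (ker d j) A y x * ψ x).re) :
    Pos j d (mask (fun i Y => Y.card = d i) fun p => star (A p)) := by
  intro φ hφ hne
  set ψ : ι × Finset (Fin n) → ℂ := fun x => φ x.1 x.2 / (tt n (d x.1) : ℂ) with hψ
  have ht : ∀ e, (tt n e : ℂ) ≠ 0 := fun e => by exact_mod_cast (tt_pos hn e).ne'
  have hφψ : ∀ x : ι × Finset (Fin n), φ x.1 x.2 = (tt n (d x.1) : ℂ) * ψ x := by
    intro x
    simp only [hψ]
    rw [mul_div_cancel₀ _ (ht _)]
  have hψ0 : ∀ x : ι × Finset (Fin n), ¬ x.2.card + d x.1 ≤ j → ψ x = 0 := by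
    intro x hx
    simp only [hψ]
    rw [hφ x.1 x.2 hx, zero_div]
  set c : ι × Finset (Fin n) → ℝ := fun x =>
    ((n - x.2.card).choose (d x.1) : ℝ) - (x.2.card.choose (d x.1) : ℝ) with hc
  have key : Qf (mask (fun i Y => Y.card = d i) fun p => star (A p)) φ =
      (∑ y, ∑ x, star (ψ y) * YM (ker d j) A y x * ψ x) +
        ((∑ x, ‖ψ x‖ ^ 2 * (((n : ℝ) ^ d x.1)⁻¹ * c x) : ℝ) : ℂ) := by
    rw [form_eq, Complex.ofReal_sum, ← sum_add_distrib]
    refine sum_congr rfl fun y _ => ?_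
    have h1 : (((‖ψ y‖ ^ 2 * (((n : ℝ) ^ d y.1)⁻¹ * c y)) : ℝ) : ℂ) =
        ∑ x, star (ψ y) * (((tt n (d x.1) * tt n (d y.1) : ℝ) : ℂ) *
          ((if y = x then c x else 0 : ℝ) : ℂ)) * ψ x := by
      rw [sum_eq_single y]
      · rw [if_pos rfl, tt_sq]
        have h2 : ((‖ψ y‖ ^ 2 : ℝ) : ℂ) = star (ψ y) * ψ y := by
          rw [Complex.star_def, mul_comm, Complex.mul_conj, Complex.normSq_eq_norm_sq]
        rw [Complex.ofReal_mul, h2, Complex.ofReal_mul]
        ring
      · intro x _ hx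
        rw [if_neg (Ne.symm hx)]
        simp
      · simp
    rw [h1, ← sum_add_distrib]
    refine sum_congr rfl fun x _ => ?_
    by_cases hx : x.2.card + d x.1 ≤ j
    · by_cases hy : y.2.card + d y.1 ≤ j
      · have h3 := pos_split d j A hA x y hx hy
        rw [hφψ x, hφψ y, ← add_mul, ← mul_add, ← h3]
        simp only [star_mul', Complex.star_def, Complex.conj_ofReal]
        push_cast
        ring
      · rw [hφ y.1 y.2 hy, hψ0 y hy]
        simp
    · rw [hφ x.1 x.2 hx, hψ0 x hx]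
      simp
  have hlow : ((2 : ℝ) ^ (D + 1) * D.factorial)⁻¹ * ∑ x, ‖ψ x‖ ^ 2 ≤
      ∑ x, ‖ψ x‖ ^ 2 * (((n : ℝ) ^ d x.1)⁻¹ * c x) := by
    rw [mul_sum]
    refine sum_le_sum fun x _ => ?_
    by_cases hx : x.2.card + d x.1 ≤ j
    · rw [mul_comm]
      refine mul_le_mul_of_nonneg_left ?_ (by positivity)
      have hp : (0 : ℝ) < (n : ℝ) ^ d x.1 := by
        have : (0 : ℝ) < n := by exact_mod_cast hn
        positivity
      rw [le_inv_mul_iff₀ hp, mul_comm]
      exact pos_diff (hd x.1).1 (hd x.1).2 hx hj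
    · rw [hψ0 x hx]
      simp
  have hpos : 0 < ∑ x, ‖ψ x‖ ^ 2 := by
    obtain ⟨a, ha⟩ := Function.ne_iff.1 hne
    obtain ⟨T, hT⟩ := Function.ne_iff.1 ha
    refine sum_pos' (fun x _ => by positivity) ⟨(a, T), mem_univ _, ?_⟩
    have : ψ (a, T) ≠ 0 := div_ne_zero hT (ht _)
    positivity
  rw [key, Complex.add_re, Complex.ofReal_re]
  have h5 := h ψ
  have h6 := mul_lt_mul_of_pos_right hθ hpos
  linarith

end Pool.Agent.P.MP_3acc10_al.Nak

namespace Pool.Agent.P.MP_3acc10_al.Nak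

open Module Finset

variable {n : ℕ} {ι : Type} [Fintype ι] [DecidableEq ι]

lemma nsurj_proj {κ : Type} [Fintype κ] (U : Submodule ℂ (κ → ℂ)) (v : κ → ℂ) :
    ∃ u ∈ U, ∀ w ∈ U, ∑ k, star (w k) * (v k - u k) = 0 := by
  let e := (WithLp.linearEquiv 2 ℂ (κ → ℂ)).symm
  let U' : Submodule ℂ (EuclideanSpace ℂ κ) := U.map e.toLinearMap
  obtain ⟨y, hy, z, hz, hv⟩ := U'.exists_add_mem_mem_orthogonal (e v)
  obtain ⟨u, hu, rfl⟩ := hy
  refine ⟨u, hu, fun w hw => ?_⟩
  have h1 := (Submodule.mem_orthogonal U' z).1 hz (e w) ⟨w, hw, rfl⟩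
  rw [PiLp.inner_apply] at h1
  refine Eq.trans (sum_congr rfl fun k _ => ?_) h1
  have h2 : v k = u k + z k := congrArg (fun t : EuclideanSpace ℂ κ => t k) hv
  rw [h2, add_sub_cancel_left, RCLike.inner_apply, mul_comm]
  rfl

lemma nsurj_adj (g F p : Finset (Fin n) → ℂ) :
    ∑ T, star (act g F T) * p T = ∑ X, star (F X) * mul (star g) p X := by
  simp only [act, mul, star_sum, sum_mul, mul_sum]
  rw [sum_comm, sum_comm (f := fun X Y : Finset (Fin n) =>
    star (F X) * if Y ⊆ X then star g Y * p (X \ Y) else 0)]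
  refine sum_congr rfl fun Y _ => ?_
  have h1 : ∀ T : Finset (Fin n), star (if Disjoint Y T then g Y * F (Y ∪ T) else 0) * p T =
      if Disjoint Y T then star (F (Y ∪ T)) * (star (g Y) * p T) else 0 := by
    intro T
    split_ifs
    · rw [star_mul']; ring
    · simp
  have h2 : ∀ X : Finset (Fin n), (star (F X) * if Y ⊆ X then star g Y * p (X \ Y) else 0) =
      if Y ⊆ X then star (F X) * (star (g Y) * p (X \ Y)) else 0 := by
    intro X
    split_ifs
    · rfl
    · simp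
  simp only [h1, h2]
  rw [← sum_filter, ← sum_filter]
  refine sum_bij' (fun T _ => Y ∪ T) (fun X _ => X \ Y) ?_ ?_ ?_ ?_ ?_
  · intro T _
    simp
  · intro X _
    simp [disjoint_sdiff]
  · intro T hT
    exact union_sdiff_cancel_left (mem_filter.1 hT).2
  · intro X hX
    exact union_sdiff_of_subset (mem_filter.1 hX).2
  · intro T hT
    rw [union_sdiff_cancel_left (mem_filter.1 hT).2]

omit [Fintype ι] [DecidableEq ι] in
lemma nsurj_mul_supp {i : ℕ} {d : ι → ℕ} (x : ι × Finset (Fin n) → ℂ) (a : ι)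
    {p : Finset (Fin n) → ℂ} (hp : ∀ T : Finset (Fin n), ¬ T.card + d a = i → p T = 0)
    (X : Finset (Fin n)) (hX : ¬ X.card = i) :
    mul (star (mask (fun i Y => Y.card = d i) x a)) p X = 0 := by
  refine sum_eq_zero fun Y _ => ?_
  split_ifs with hs
  · by_cases hY : Y.card = d a
    · have h1 := card_sdiff_add_card_eq_card hs
      rw [hp _ (by omega), mul_zero]
    · simp [mask, hY]
  · rfl

lemma nsurj_mul_zero (g : Finset (Fin n) → ℂ) (X : Finset (Fin n)) : mul g 0 X = 0 := by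
  simp [mul]

lemma nsurj_surj (j : ℕ) (d : ι → ℕ) (x : ι × Finset (Fin n) → ℂ)
    (h : Pos j d (mask (fun i Y => Y.card = d i) x)) (A : Finset ι) (l : ι) (hl : l ∉ A)
    (i : ℕ) (hi : i ≤ j) (hd : d l ≤ i) (G : Finset (Fin n) → ℂ) (hG : G ∈ WF (i - d l) d A x) :
    ∃ F ∈ WF i d A x, act (mask (fun i Y => Y.card = d i) x l) F = G := by
  set g := mask (fun i Y => Y.card = d i) x with hg
  let L : (Finset (Fin n) → ℂ) →ₗ[ℂ] (ι × Finset (Fin n) → ℂ) :=
    LinearMap.pi fun p => if p.1 ∈ insert l A then (LinearMap.proj p.2).comp (actL (g p.1)) else 0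
  have hL : ∀ F a T, L F (a, T) = if a ∈ insert l A then act (g a) F T else 0 := by
    intro F a T
    simp only [L, LinearMap.pi_apply]
    split_ifs <;> rfl
  obtain ⟨u, hu, horth⟩ := nsurj_proj ((Supp ℂ fun X : Finset (Fin n) => X.card = i).map L)
    (fun p => if p.1 = l then G p.2 else 0)
  obtain ⟨F, hF, rfl⟩ := hu
  have hF : ∀ X : Finset (Fin n), ¬ X.card = i → F X = 0 := hF
  let ψ : ι → Finset (Fin n) → ℂ := fun a T => (if a = l then G T else 0) - L F (a, T)
  have ψoff : ∀ a, a ∉ insert l A → ψ a = 0 := by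
    intro a ha
    have hne : a ≠ l := fun e => ha (e ▸ mem_insert_self _ _)
    funext T
    simp only [ψ, hL, if_neg ha, if_neg hne, sub_zero, Pi.zero_apply]
  have ψl : ψ l = G - act (g l) F := by
    funext T
    simp only [ψ, hL, if_pos (mem_insert_self l A), if_true, Pi.sub_apply]
  have ψA : ∀ a ∈ A, ψ a = - act (g a) F := by
    intro a ha
    have hne : a ≠ l := fun e => hl (e ▸ ha)
    funext T
    simp only [ψ, hL, if_pos (mem_insert_of_mem ha), if_neg hne, zero_sub, Pi.neg_apply]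
  have ψsupp : ∀ a (T : Finset (Fin n)), ¬ T.card + d a = i → ψ a T = 0 := by
    intro a T hT
    have h0 : act (g a) F T = 0 := act_mask_supp x a hF T hT
    by_cases ha : a ∈ insert l A
    · rcases mem_insert.1 ha with rfl | ha
      · rw [ψl, Pi.sub_apply, h0, hG.1 T (by omega), sub_zero]
      · rw [ψA a ha, Pi.neg_apply, h0, neg_zero]
    · rw [ψoff a ha]; rfl
  have hsub : ∀ a (P Q : Finset (Fin n) → ℂ), act (g a) (P - Q) = act (g a) P - act (g a) Q :=
    fun a P Q => map_sub (actL (g a)) P Q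
  have hneg : ∀ a (P : Finset (Fin n) → ℂ), act (g a) (-P) = - act (g a) P :=
    fun a P => map_neg (actL (g a)) P
  have ψcomm : ∀ a ∈ insert l A, ∀ b ∈ insert l A, act (g a) (ψ b) = act (g b) (ψ a) := by
    have key : ∀ a ∈ A, act (g a) (ψ l) = act (g l) (ψ a) := by
      intro a ha
      rw [ψl, ψA a ha, hsub, hneg, hG.2 a ha, zero_sub, act_comm]
    intro a ha b hb
    rcases mem_insert.1 ha with ha1 | ha1 <;> rcases mem_insert.1 hb with hb1 | hb1
    · rw [ha1, hb1]
    · rw [ha1]; exact (key b hb1).symm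
    · rw [hb1]; exact key a ha1
    · rw [ψA a ha1, ψA b hb1, hneg, hneg, act_comm]
  let F' : Finset (Fin n) → ℂ := fun X => ∑ a, mul (star (g a)) (ψ a) X
  have hF' : ∀ X : Finset (Fin n), ¬ X.card = i → F' X = 0 := fun X hX =>
    sum_eq_zero fun a _ => nsurj_mul_supp x a (ψsupp a) X hX
  have h1 : ∑ X, star (F' X) * F' X = 0 := by
    have h2 := horth (L F') ⟨F', hF', rfl⟩
    rw [Fintype.sum_prod_type] at h2
    rw [← h2]
    simp only [F', mul_sum]
    rw [sum_comm]
    refine sum_congr rfl fun a _ => ?_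
    by_cases ha : a ∈ insert l A
    · rw [← nsurj_adj]
      refine sum_congr rfl fun T _ => ?_
      rw [hL F', if_pos ha]
    · rw [ψoff a ha]
      simp only [nsurj_mul_zero, mul_zero, sum_const_zero]
      refine (sum_eq_zero fun T _ => ?_).symm
      rw [hL F', if_neg ha, star_zero, zero_mul]
  have h2 : 0 ≤ (∑ a, ∑ b, ∑ T : Finset (Fin n),
      star (act (g a) (ψ b) T) * act (g b) (ψ a) T).re := by
    simp only [Complex.re_sum]
    refine sum_nonneg fun a _ => sum_nonneg fun b _ => sum_nonneg fun T _ => ?_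
    by_cases ha : a ∈ insert l A
    · by_cases hb : b ∈ insert l A
      · rw [ψcomm a ha b hb, Complex.star_def, ← Complex.normSq_eq_conj_mul_self,
          Complex.ofReal_re]
        exact Complex.normSq_nonneg _
      · rw [ψoff b hb, act_zero]
        simp
    · rw [ψoff a ha, act_zero]
      simp
  have h3 : ψ = 0 := by
    by_contra hne
    have h4 := h ψ (fun a T hT => ψsupp a T (by omega)) hne
    unfold Qf at h4
    have h5 : ∑ X : Finset (Fin n), star (∑ a, mul (star (g a)) (ψ a) X) *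
        (∑ a, mul (star (g a)) (ψ a) X) = 0 := h1
    rw [h5, zero_sub, Complex.neg_re] at h4
    linarith
  refine ⟨F, ⟨hF, fun a ha => ?_⟩, ?_⟩
  · have h4 := ψA a ha
    rw [h3] at h4
    exact neg_eq_zero.1 h4.symm
  · rw [h3] at ψl
    exact (sub_eq_zero.1 ψl.symm).symm

lemma nsurj_step (j : ℕ) (d : ι → ℕ) (x : ι × Finset (Fin n) → ℂ)
    (h : Pos j d (mask (fun i Y => Y.card = d i) x)) (A : Finset ι) (l : ι) (hl : l ∉ A)
    (i : ℕ) (hi : i ≤ j) :
    finrank ℂ (WF i d A x) = finrank ℂ (WF i d (insert l A) x) +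
      if d l ≤ i then finrank ℂ (WF (i - d l) d A x) else 0 := by
  refine le_antisymm (lower_step i d A l x) ?_
  let f := (actL (mask (fun i Y => Y.card = d i) x l)).domRestrict (WF i d A x)
  have h1 := LinearMap.finrank_range_add_finrank_ker f
  have h2 : finrank ℂ (WF i d (insert l A) x) ≤ finrank ℂ (LinearMap.ker f) := by
    rw [← Submodule.finrank_map_subtype_eq]
    refine Submodule.finrank_mono ?_
    intro F hF
    exact ⟨⟨F, W_anti _ (subset_insert l A) _ hF⟩, hF.2 l (mem_insert_self _ _), rfl⟩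
  have h3 : (if d l ≤ i then finrank ℂ (WF (i - d l) d A x) else 0) ≤
      finrank ℂ (LinearMap.range f) := by
    split_ifs with hd
    · refine Submodule.finrank_mono ?_
      intro G hG
      obtain ⟨F, hF, e⟩ := nsurj_surj j d x h A l hl i hi hd G hG
      exact ⟨⟨F, hF⟩, e⟩
    · exact Nat.zero_le _
  omega

theorem exact_of_pos (j : ℕ) (d : ι → ℕ) (x : ι × Finset (Fin n) → ℂ)
    (h : Pos j d (mask (fun i Y => Y.card = d i) x)) (A : Finset ι) :
    ∀ i ≤ j, (finrank ℂ (WF i d A x) : ℤ) = al n d A i := by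
  induction A using Finset.induction_on with
  | empty =>
    intro i _
    rw [finrank_WF_empty, al_empty, Fintype.card_fin]
  | insert l A hl ih =>
    intro i hi
    have h1 := nsurj_step j d x h A l hl i hi
    rw [al_insert n d hl, ← ih i hi]
    split_ifs at h1 ⊢ with hd
    · rw [← ih (i - d l) (by omega), h1]
      push_cast
      ring
    · rw [h1]
      simp

end Pool.Agent.P.MP_3acc10_al.Nak
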