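import Pool.Agent.P.MP_3acc10_al.Exact

set_option autoImplicit false

namespace Pool.Agent.P.MP_3acc10_al

open Module Finset MvPolynomial

variable {K : Type*} [Field K] {τ : Type*}

lemma exists_AB {R C : Type*} [Fintype R] [Fintype C] (M : Matrix R C K) :
    ∃ (A : Matrix (Fin M.rank) R K) (B : Matrix C (Fin M.rank) K), A * M * B = 1 := by
  classical
  let f := M.mulVecLin
  let b := (finBasis K (LinearMap.range f)).equivFun
  obtain ⟨g, hg⟩ := f.rangeRestrict.exists_rightInverse_of_surjective
    (LinearMap.range_rangeRestrict f)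
  obtain ⟨h, hh⟩ := (LinearMap.range f).subtype.exists_leftInverse_of_injective
    (Submodule.ker_subtype _)
  have hM : M = LinearMap.toMatrix' f := (LinearMap.toMatrix'_toLin' M).symm
  suffices hs : LinearMap.toMatrix' (b.toLinearMap ∘ₗ h) * LinearMap.toMatrix' f *
      LinearMap.toMatrix' (g ∘ₗ b.symm.toLinearMap) = 1 from ⟨_, _, by rw [← hM] at hs; exact hs⟩
  rw [← LinearMap.toMatrix'_comp, ← LinearMap.toMatrix'_comp, ← LinearMap.toMatrix'_id]
  congr 1
  refine LinearMap.ext fun x => ?_
  have e1 : f (g (b.symm x)) = b.symm x := congrArg Subtype.val (LinearMap.congr_fun hg _)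
  have e2 : h (b.symm x) = b.symm x := LinearMap.congr_fun hh _
  show b (h (f (g (b.symm x)))) = x
  rw [e1, e2, b.apply_symm_apply]

lemma rank_eval_le {R C : Type*} [Fintype R] [Fintype C] (M : Matrix R C (MvPolynomial τ K))
    (c : τ → K) : (M.map (eval c)).rank ≤
      (M.map (algebraMap _ (FractionRing (MvPolynomial τ K)))).rank := by
  classical
  obtain ⟨A, B, h⟩ := exists_AB (M.map (eval c))
  let φ := algebraMap (MvPolynomial τ K) (FractionRing (MvPolynomial τ K))
  let A' : Matrix _ R (MvPolynomial τ K) := A.map MvPolynomial.C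
  let B' : Matrix C _ (MvPolynomial τ K) := B.map MvPolynomial.C
  let N := A' * M * B'
  have hN : N = A' * M * B' := rfl
  have h1 : N.det ≠ 0 := by
    intro h0
    have := RingHom.map_det (eval c) N
    rw [h0, map_zero, RingHom.mapMatrix_apply, hN, Matrix.map_mul, Matrix.map_mul,
      Matrix.map_map, Matrix.map_map] at this
    have e : ⇑(eval c) ∘ ⇑(MvPolynomial.C (σ := τ) (R := K)) = id := by ext a; simp
    rw [e, Matrix.map_id, Matrix.map_id, h, Matrix.det_one] at this
    exact zero_ne_one this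
  have h2 : IsUnit (N.map φ) := by
    rw [Matrix.isUnit_iff_isUnit_det, ← RingHom.mapMatrix_apply, ← RingHom.map_det]
    exact ((map_ne_zero_iff _ (IsFractionRing.injective _ _)).2 h1).isUnit
  have h3 := Matrix.rank_of_isUnit _ h2
  rw [hN, Matrix.map_mul, Matrix.map_mul, Fintype.card_fin] at h3
  exact h3.ge.trans ((Matrix.rank_mul_le_left _ _).trans (Matrix.rank_mul_le_right _ _))

variable {σ ι : Type*} [Fintype σ] [DecidableEq σ] [Fintype ι] [DecidableEq ι]

lemma WF_trick (j : ℕ) (d : ι → ℕ) (A : Finset ι) (c : ι × Finset σ → K) :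
    WF j d A c = WF j (fun i => if i ∈ A then d i else j + 1) univ c := by
  have e : ∀ i ∈ A, mask (fun i Y => Y.card = if i ∈ A then d i else j + 1) c i =
      mask (fun i Y => Y.card = d i) c i := fun i hi => by ext Y; simp [mask, hi]
  ext F
  refine and_congr_right fun hF => ⟨fun h i _ => ?_, fun h i hi => e i hi ▸ h i (mem_univ _)⟩
  by_cases hi : i ∈ A
  · rw [e i hi, h i hi]
  · exact funext fun T => act_mask_supp c i hF T (by simp only [if_neg hi]; omega)

lemma spec_WF (j : ℕ) (d : ι → ℕ) (A : Finset ι) (c : ι × Finset σ → K) :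
    finrank (FractionRing (MvPolynomial (ι × Finset σ) K)) (WF j d A (gp K (τ := ι × Finset σ))) ≤
      finrank K (WF j d A c) := by
  rw [WF_trick, WF_trick j d A c]
  set d' := fun i => if i ∈ A then d i else j + 1
  have hc := rank_eval_le (Mat j d' (X : ι × Finset σ → MvPolynomial _ K)) c
  rw [Mat_map, Mat_map] at hc
  have h1 := Mat_rank j d' c
  have h2 := Mat_rank j d' (gp K (τ := ι × Finset σ))
  simp only [eval_X] at hc
  change (Mat j d' c).rank ≤ (Mat j d' (gp K)).rank at hc
  omega

/-- the generic value of the Hilbert function for `t` forms of degree `d` -/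
noncomputable def Hm (K : Type*) [Field K] (n j d t : ℕ) : ℕ :=
  sInf (Set.range fun c : Fin t × Finset (Fin n) → K => finrank K (WF j (fun _ => d) univ c))

lemma gen_Hm (n j d t : ℕ) : Gen fun c : Fin t × Finset (Fin n) → K =>
    finrank K (WF j (fun _ => d) univ c) = Hm K n j d t := by
  obtain ⟨c0, h⟩ := Nat.sInf_mem (Set.range_nonempty
    fun c : Fin t × Finset (Fin n) → K => finrank K (WF j (fun _ => d) univ c))
  exact (gen_W _ _ _ _ c0 h.le).mono fun c hc => le_antisymm hc (Nat.sInf_le ⟨c, rfl⟩)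

omit [Fintype ι] [DecidableEq ι] in
lemma WF_reindex {n j d : ℕ} {S : Finset ι} (e : S ≃ Fin S.card) (c : ι × Finset (Fin n) → K)
    (c' : Fin S.card × Finset (Fin n) → K) (h : ∀ i Y, c' (e i, Y) = c (i, Y)) :
    WF j (fun _ => d) S c = WF j (fun _ => d) univ c' := by
  have e1 : ∀ i : S, mask (fun _ Y => Y.card = d) c' (e i) = mask (fun _ Y => Y.card = d) c i :=
    fun i => by ext Y; simp [mask, h]
  ext F
  refine and_congr_right fun _ => ⟨fun hF i _ => ?_, fun hF i hi => ?_⟩
  · obtain ⟨i, rfl⟩ := e.surjective i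
    rw [e1, hF i i.2]
  · exact (e1 ⟨i, hi⟩) ▸ hF _ (mem_univ _)

lemma HL [Infinite K] (n j d : ℕ) (S : Finset ι) :
    finrank (FractionRing (MvPolynomial (ι × Finset (Fin n)) K))
      (WF j (fun _ => d) S (gp K (τ := ι × Finset (Fin n)))) = Hm K n j d S.card := by
  apply le_antisymm
  · obtain ⟨c', h⟩ := (gen_Hm (K := K) n j d S.card).exists
    rw [← h, ← WF_reindex S.equivFin
      (fun p => if h : p.1 ∈ S then c' (S.equivFin ⟨p.1, h⟩, p.2) else 0) c' (by simp)]
    exact spec_WF _ _ _ _
  · rw [WF_trick]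
    obtain ⟨c, h⟩ := (gen_WF (K := K) (σ := Fin n) j fun i => if i ∈ S then d else j + 1).exists
    refine le_trans ?_ h
    rw [← WF_trick j (fun _ => d), WF_reindex S.equivFin c
      (fun p => c (S.equivFin.symm p.1, p.2)) (by simp)]
    exact Nat.sInf_le ⟨_, rfl⟩

omit [Fintype ι] [DecidableEq ι] in
/-- the support of the inverse system at the generic point is symmetric -/
lemma supp_symm {j : ℕ} {d : ι → ℕ} {S : Finset ι} {F} (hF : F ∈ WF j d S (gp K (τ := ι × Finset σ)))
    (h0 : F ≠ 0) (X : Finset σ) (hX : X.card = j) :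
    ∃ F' ∈ WF j d S (gp K (τ := ι × Finset σ)), F' X ≠ 0 := by
  obtain ⟨X0, hX0⟩ := Function.ne_iff.1 h0
  have hj : X0.card = j := by
    by_contra hne
    exact hX0 (hF.1 X0 hne)
  obtain ⟨π, hπ⟩ := Equiv.Perm.exists_map_finset_eq X X0 (hX.trans hj.symm)
  let e := π.finsetCongr
  have he : ∀ Y, e Y = Y.map π.toEmbedding := fun _ => rfl
  let g := (algebraMap (MvPolynomial (ι × Finset σ) K)
    (FractionRing (MvPolynomial (ι × Finset σ) K))).comp
      (rename (Prod.map id e.symm) : MvPolynomial (ι × Finset σ) K →ₐ[K] _).toRingHom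
  have hg : Function.Injective g := (IsFractionRing.injective _ _).comp
    (rename_injective _ (Function.injective_id.prodMap e.symm.injective))
  let θ : FractionRing (MvPolynomial (ι × Finset σ) K) →+* _ := IsFractionRing.lift hg
  have hθ : ∀ i Y, θ (gp K (i, e Y)) = gp K (i, Y) := fun i Y => by simp [θ, gp, g]
  refine ⟨fun Y => θ (F (e Y)), ⟨fun Y hY => ?_, fun i hi => funext fun T => ?_⟩, ?_⟩
  · show θ (F (e Y)) = 0
    rw [hF.1 _ (by simpa [he] using hY), map_zero]
  · have := congrArg θ (congrFun (hF.2 i hi) (e T))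
    rw [act, ← e.sum_comp, map_sum, Pi.zero_apply, map_zero] at this
    refine Eq.trans (sum_congr rfl fun Y _ => ?_) this
    have e1 : e Y ∪ e T = e (Y ∪ T) := by simp [he, map_union]
    have e2 : Disjoint (e Y) (e T) ↔ Disjoint Y T := disjoint_map _
    have e3 : (e Y).card = Y.card := card_map _
    simp only [mask, e1, e2, e3]
    split_ifs <;> simp [hθ]
  · show θ (F (e X)) ≠ 0
    rw [he, hπ]
    exact (map_ne_zero θ).2 hX0

end Pool.Agent.P.MP_3acc10_al
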