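import Pool.Agent.P.MP_3acc10_al.NA
import Pool.Agent.P.MP_3acc10_al.NB
import Pool.Agent.P.MP_3acc10_al.NC
import Pool.Agent.P.MP_3acc10_al.Spec

set_option autoImplicit false

namespace Pool.Agent.P.MP_3acc10_al.Nak

open Module Finset

lemma trans_factor {K : Type*} [Field K] {R C : Type*} [Fintype R] [Fintype C]
    (M : Matrix R C K) :
    ∃ (P : Matrix R (Fin M.rank) K) (Q : Matrix (Fin M.rank) C K), P * Q = M := by
  classical
  let f := M.mulVecLin
  let b := (finBasis K (LinearMap.range f)).equivFun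
  have hM : M = LinearMap.toMatrix' f := (LinearMap.toMatrix'_toLin' M).symm
  suffices hs : LinearMap.toMatrix' ((LinearMap.range f).subtype ∘ₗ b.symm.toLinearMap) *
      LinearMap.toMatrix' (b.toLinearMap ∘ₗ f.rangeRestrict) = LinearMap.toMatrix' f from
    ⟨_, _, by rw [← hM] at hs; exact hs⟩
  rw [← LinearMap.toMatrix'_comp]
  congr 1
  refine LinearMap.ext fun x => ?_
  show ((b.symm (b (f.rangeRestrict x)) : LinearMap.range f) : R → K) = f x
  rw [b.symm_apply_apply]
  rfl

lemma trans_rank_map {K L : Type*} [Field K] [Field L] (f : K →+* L) {R C : Type*} [Fintype R]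
    [Fintype C] (M : Matrix R C K) : (M.map f).rank = M.rank := by
  classical
  apply le_antisymm
  · obtain ⟨P, Q, h⟩ := trans_factor M
    have e : M.map f = P.map f * Q.map f := by rw [← Matrix.map_mul, h]
    rw [e]
    refine (Matrix.rank_mul_le_left _ _).trans ((Matrix.rank_le_card_width _).trans ?_)
    rw [Fintype.card_fin]
  · obtain ⟨A, B, h⟩ := exists_AB M
    have e : A.map f * M.map f * B.map f = 1 := by
      rw [← Matrix.map_mul, ← Matrix.map_mul, h, Matrix.map_one _ (map_zero f) (map_one f)]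
    have h3 : (A.map f * M.map f * B.map f).rank = M.rank := by
      rw [e, Matrix.rank_one, Fintype.card_fin]
    exact h3.ge.trans ((Matrix.rank_mul_le_left _ _).trans (Matrix.rank_mul_le_right _ _))

variable {n : ℕ} {ι : Type} [Fintype ι] [DecidableEq ι]

omit [DecidableEq ι] in
lemma trans_gp (K : Type) [Field K] [CharZero K] (i : ℕ) (d : ι → ℕ) :
    (Mat i d (gp K (τ := ι × Finset (Fin n)))).rank =
      (Mat i d (gp ℚ (τ := ι × Finset (Fin n)))).rank := by
  let g := (algebraMap (MvPolynomial (ι × Finset (Fin n)) K)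
    (FractionRing (MvPolynomial (ι × Finset (Fin n)) K))).comp
      (MvPolynomial.map (algebraMap ℚ K))
  have hg : Function.Injective g := (IsFractionRing.injective _ _).comp
    (MvPolynomial.map_injective _ (algebraMap ℚ K).injective)
  let θ : FractionRing (MvPolynomial (ι × Finset (Fin n)) ℚ) →+* _ := IsFractionRing.lift hg
  have hθ : ∀ p, θ (gp ℚ p) = gp K p := fun p => by simp [θ, gp, g]
  rw [← trans_rank_map θ, Mat_map]
  simp only [hθ]

theorem transfer (K : Type) [Field K] [CharZero K] (i : ℕ) (d : ι → ℕ) (A : Finset ι)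
    (x0 : ι × Finset (Fin n) → ℂ) :
    Gen fun x : ι × Finset (Fin n) → K => finrank K (WF i d A x) ≤ finrank ℂ (WF i d A x0) := by
  refine (gen_WF (K := K) (σ := Fin n) i fun l => if l ∈ A then d l else i + 1).mono
    fun x hx => ?_
  rw [← WF_trick] at hx
  have h0 := spec_WF i d A x0
  rw [WF_trick] at h0
  have h1 := Mat_rank i (fun l => if l ∈ A then d l else i + 1) (gp K (τ := ι × Finset (Fin n)))
  have h2 := Mat_rank i (fun l => if l ∈ A then d l else i + 1) (gp ℂ (τ := ι × Finset (Fin n)))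
  have h3 := trans_gp (n := n) K i fun l => if l ∈ A then d l else i + 1
  have h4 := trans_gp (n := n) ℂ i fun l => if l ∈ A then d l else i + 1
  omega

theorem gen_exact (K : Type) [Field K] [CharZero K] (j : ℕ) (d : ι → ℕ)
    (x0 : ι × Finset (Fin n) → ℂ)
    (h : ∀ A : Finset ι, ∀ i ≤ j, (finrank ℂ (WF i d A x0) : ℤ) = al n d A i) :
    Gen fun x : ι × Finset (Fin n) → K => (finrank K (WF j d univ x) : ℤ) = al n d univ j := by
  have H : Gen fun x : ι × Finset (Fin n) → K => ∀ A ∈ (univ : Finset (Finset ι)),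
      ∀ i ∈ range (j + 1), finrank K (WF i d A x) ≤ finrank ℂ (WF i d A x0) :=
    Gen.all _ fun A _ => Gen.all _ fun i _ => transfer K i d A x0
  refine H.mono fun x hx => ?_
  have up : ∀ A : Finset ι, ∀ i ≤ j, (finrank K (WF i d A x) : ℤ) ≤ al n d A i := by
    intro A i hi
    rw [← h A i hi]
    exact_mod_cast hx A (mem_univ _) i (mem_range.2 (by omega))
  have lo : ∀ A : Finset ι, ∀ i ≤ j, al n d A i ≤ (finrank K (WF i d A x) : ℤ) := by
    intro A
    induction A using Finset.induction_on with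
    | empty =>
      intro i _
      rw [al_empty, finrank_WF_empty, Fintype.card_fin]
    | insert l A hl ih =>
      intro i hi
      have h1 := lower_step i d A l x
      have h2 := ih i hi
      rw [al_insert n d hl]
      split_ifs at h1 ⊢ with hd
      · have h3 := up A (i - d l) (by omega)
        have h4 := ih (i - d l) (by omega)
        omega
      · omega
  exact le_antisymm (up _ j le_rfl) (lo _ j le_rfl)

end Pool.Agent.P.MP_3acc10_al.Nak

namespace Pool.Agent.P.MP_3acc10_al.Nak

open Module Finset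

theorem exists_pos (D : ℕ) : ∃ c : ℝ, 0 < c ∧ ∀ (n : ℕ) (ι : Type) [Fintype ι] [DecidableEq ι]
    (d : ι → ℕ) (j : ℕ), 0 < n → (∀ a, 0 < d a ∧ d a ≤ D) → (j : ℝ) / n + ld n d j ≤ c →
    ∃ x : ι × Finset (Fin n) → ℂ, Pos j d (mask (fun i Y => Y.card = d i) x) := by
  set δ : ℝ := ((2 : ℝ) ^ (D + 1) * D.factorial)⁻¹ with hδ
  set κ : ℝ := 2 * (D + 2 ^ D + 4 ^ D + 2 ^ D * D) with hκ
  have hδ0 : 0 < δ := by positivity
  have hδ1 : δ ≤ 1 := by
    refine inv_le_one_of_one_le₀ (one_le_mul_of_one_le_of_one_le (one_le_pow₀ (by norm_num)) ?_)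
    exact_mod_cast Nat.factorial_pos D
  have hκ0 : 0 ≤ κ := by positivity
  set s : ℝ := δ / (4 * κ + 4) with hs
  have hs0 : 0 < s := by positivity
  have hs1 : s ≤ 1 := by rw [hs, div_le_one (by positivity)]; linarith
  have hsκ : 2 * (κ * s) < δ := by
    have : s * (4 * κ + 4) = δ := by rw [hs]; field_simp
    nlinarith
  set ε : ℝ := s ^ 2 with hε
  have hε0 : 0 < ε := by positivity
  have hε1 : ε ≤ 1 := pow_le_one₀ hs0.le hs1
  have hsq : √ε = s := Real.sqrt_sq hs0.le
  have hD0 : (0 : ℝ) ≤ D := by positivity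
  set u : ℝ := (4 * ((D : ℝ) + 1))⁻¹ with hu
  have hu0 : 0 < u := by positivity
  have hu1 : u * (4 * ((D : ℝ) + 1)) = 1 := by rw [hu]; field_simp
  obtain ⟨c1, hc1, hpar⟩ := param D (η := min (ε / 8) u) (lt_min (by positivity) hu0)
  refine ⟨min c1 (min (ε / 2) u), lt_min hc1 (lt_min (by positivity) hu0), ?_⟩
  intro n ι _ _ d j hn hd hl
  rcases Nat.eq_zero_or_pos j with rfl | hj
  · refine ⟨0, fun φ hφ h0 => absurd (funext fun a => funext fun T => hφ a T ?_) h0⟩
    have := (hd a).1
    omega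
  have hnr : (0 : ℝ) < n := by exact_mod_cast hn
  have hjr : (1 : ℝ) ≤ j := by exact_mod_cast hj
  have hld := ld_nonneg n d j
  have hjn0 : (0 : ℝ) ≤ (j : ℝ) / n := by positivity
  have a1 : (j : ℝ) ≤ c1 * n := by
    rw [← div_le_iff₀ hnr]; linarith [min_le_left c1 (min (ε / 2) u)]
  have a2 : (j : ℝ) ≤ u * n := by
    rw [← div_le_iff₀ hnr]
    linarith [min_le_right c1 (min (ε / 2) u), min_le_right (ε / 2) u]
  have a3 : ld n d j ≤ ε / 2 := by
    linarith [min_le_right c1 (min (ε / 2) u), min_le_left (ε / 2) u]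
  have a4 : 4 * ((D : ℝ) + 1) * j ≤ n := by
    have := mul_le_mul_of_nonneg_left a2 (show (0 : ℝ) ≤ 4 * ((D : ℝ) + 1) by positivity)
    calc _ ≤ 4 * ((D : ℝ) + 1) * (u * n) := this
      _ = u * (4 * ((D : ℝ) + 1)) * n := by ring
      _ = n := by rw [hu1, one_mul]
  have a5 : 4 * j ≤ n := by
    have : 4 * (j : ℝ) ≤ n := by nlinarith
    exact_mod_cast this
  have a6 : 4 * D ≤ n := by
    have : 4 * (D : ℝ) ≤ n := by nlinarith
    exact_mod_cast this
  obtain ⟨k, hk, hk1, hk2⟩ := hpar n j hj a1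
  have hk0 : (0 : ℝ) ≤ k := by positivity
  have b1 : (k : ℝ) ≤ ε / 8 * n :=
    hk1.trans (mul_le_mul_of_nonneg_right (min_le_left _ _) hnr.le)
  have b2 : (k : ℝ) ≤ u * n := hk1.trans (mul_le_mul_of_nonneg_right (min_le_right _ _) hnr.le)
  have b3 : D * (4 * k) ≤ n := by
    have h1 := mul_le_mul_of_nonneg_left b2 (show (0 : ℝ) ≤ 4 * ((D : ℝ) + 1) by positivity)
    have h2 : 4 * ((D : ℝ) + 1) * (u * n) = n := by
      calc _ = u * (4 * ((D : ℝ) + 1)) * n := by ring
        _ = n := by rw [hu1, one_mul]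
    have : (D : ℝ) * (4 * k) ≤ n := by nlinarith
    exact_mod_cast this
  have b4 : ld n d j + ((4 * k : ℕ) : ℝ) / n ≤ ε := by
    have : ((4 * k : ℕ) : ℝ) / n ≤ ε / 2 := by
      rw [div_le_iff₀ hnr]; push_cast; linarith
    linarith
  obtain ⟨A, hA, htr⟩ := walk (ker d j)
    (univ.filter fun x : ι × Finset (Fin n) => x.2.card + d x.1 ≤ j)
    (fun x hx α β y => by
      rw [ker, if_neg]
      exact fun h => hx (mem_filter.2 ⟨mem_univ _, h.2.2.2.2.2.1⟩))
    (Phi d (√ε)⁻¹) (Phi_nonneg d (by positivity)) (Phi_zero d _) (2 * k) (by omega)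
    (κ * √ε) (by positivity) (fun x c hc => nstep d D j (4 * k) hd hj (by omega) b3 hε0 hε1 b4 x c
      (by push_cast at hc ⊢; linarith))
  have c1 := (card_states hn d D j (fun a => (hd a).2) hj (by linarith)).trans hk2
  have c2 : ((YM (ker d j) A) ^ (2 * k)).trace.re ≤ (2 * (κ * s)) ^ (2 * k) := by
    refine htr.trans ?_
    rw [hsq, mul_pow 2, pow_mul (2 : ℝ)]
    refine mul_le_mul_of_nonneg_right ?_ (by positivity)
    have : (((univ.filter fun x : ι × Finset (Fin n) => x.2.card + d x.1 ≤ j).card : ℕ) : ℝ) ≤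
        ((4 ^ k : ℕ) : ℝ) := by exact_mod_cast c1
    refine this.trans (le_of_eq ?_)
    push_cast; norm_num
  exact ⟨_, pos_of hn d D j hd a5 a6 A hA hsκ
    (spec _ (YM_herm _ (ker_symm d j) A) k hk _ (by positivity) c2)⟩

lemma al_zero {ι : Type} [DecidableEq ι] (n : ℕ) (d : ι → ℕ) (A : Finset ι)
    (hd : ∀ a, 0 < d a) : al n d A 0 = 1 := by
  induction A using Finset.induction_on with
  | empty => simp
  | insert l A hl ih =>
    rw [al_insert n d hl, ih, if_neg (by have := hd l; omega), sub_zero]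

theorem low (D : ℕ) : ∃ c : ℝ, 0 < c ∧ ∀ (K : Type) [Field K] [CharZero K] (n : ℕ) (ι : Type)
    [Fintype ι] [DecidableEq ι] (d : ι → ℕ) (j : ℕ), 0 < n → (∀ a, 0 < d a ∧ d a ≤ D) →
    (j : ℝ) / n + ld n d j ≤ c →
    Gen fun x : ι × Finset (Fin n) → K => (finrank K (WF j d univ x) : ℤ) = ex n d univ j := by
  obtain ⟨c, hc, h⟩ := exists_pos (D + 1)
  refine ⟨c / 2, by positivity, ?_⟩
  intro K _ _ n ι _ _ d j hn hd hl
  have hld := ld_nonneg n d j
  have hjn0 : (0 : ℝ) ≤ (j : ℝ) / n := by positivity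
  obtain ⟨x0, hx0⟩ := h n ι d j hn (fun a => ⟨(hd a).1, (hd a).2.trans (Nat.le_succ D)⟩)
    (by linarith)
  have hpos : ∀ i ≤ j, 0 < al n d univ i := by
    rcases Nat.eq_zero_or_pos j with rfl | hj
    · intro i hi
      rw [Nat.le_zero.1 hi, al_zero n d _ fun a => (hd a).1]
      exact one_pos
    let d' : Option ι → ℕ := fun o => o.elim 1 d
    have hl' : ld n d' j = 1 / n + ld n d j := by
      simp only [ld, sum_filter, Fintype.sum_option, d', Option.elim]
      rw [if_pos (show 1 ≤ j from hj)]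
      simp
    have hj' : (1 : ℝ) / n ≤ j / n := by
      have : (1 : ℝ) ≤ j := by exact_mod_cast hj
      gcongr
    obtain ⟨x1, hx1⟩ := h n (Option ι) d' j hn (fun a => by
      rcases a with _ | a
      · exact ⟨Nat.one_pos, Nat.succ_le_succ (Nat.zero_le D)⟩
      · exact ⟨(hd a).1, (hd a).2.trans (Nat.le_succ D)⟩) (by rw [hl']; linarith)
    have e1 : ∀ i, al n d' (univ.map Function.Embedding.some) i = al n d univ i := by
      intro i
      rw [al, al, prod_map]
      rfl
    intro i
    induction i with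
    | zero =>
      intro _
      rw [al_zero n d _ fun a => (hd a).1]
      exact one_pos
    | succ i ih =>
      intro hi
      have h1 := exact_of_pos j d' x1 hx1 (insert none (univ.map Function.Embedding.some)) (i + 1) hi
      rw [al_insert n d' (by simp), if_pos (show d' none ≤ i + 1 from Nat.succ_le_succ (Nat.zero_le i)),
        e1, e1] at h1
      have h2 := ih (by omega)
      have h3 : i + 1 - d' none = i := rfl
      rw [h3] at h1
      have h4 := Int.natCast_nonneg
        (finrank ℂ (WF (i + 1) d' (insert none (univ.map Function.Embedding.some)) x1))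
      omega
  rw [ex, if_pos hpos]
  exact gen_exact K j d x0 fun A => exact_of_pos j d x0 hx0 A

lemma load_le (D L n j : ℕ) {ι : Type} [Fintype ι] [DecidableEq ι] (d : ι → ℕ) (hn : 0 < n)
    (hL : 0 < L) (hd : ∀ a, 0 < d a ∧ d a ≤ D) (h1 : L * (univ.filter fun a => d a = 1).card ≤ n)
    (hpos : ∀ i ≤ L * j, 0 < al n d univ i) :
    (j : ℝ) / n + ld n d j ≤ (1 + D * (2 * D) ^ D) / L := by
  have hnr : (0 : ℝ) < n := by exact_mod_cast hn
  have hLr : (0 : ℝ) < L := by exact_mod_cast hL
  have hle := al_le_of_subset n d (L * j) (empty_subset univ) (fun l _ => (hd l).1) hpos _ le_rfl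
  have hjn : L * j ≤ n := by
    by_contra hcon
    have := hpos _ le_rfl
    rw [al_empty, Nat.choose_eq_zero_of_lt (not_le.1 hcon)] at hle
    omega
  have a1 : (j : ℝ) / n ≤ 1 / L := by
    rw [div_le_div_iff₀ hnr hLr, one_mul, mul_comm]
    exact_mod_cast hjn
  have a2 : ld n d j ≤ D * ((2 * D) ^ D / L) := by
    rw [ld, ← sum_fiberwise_of_maps_to (t := Icc 1 D) (g := d)
      (fun a _ => mem_Icc.2 ⟨(hd a).1, (hd a).2⟩)]
    have h3 : ∀ e ∈ Icc 1 D, ∑ a ∈ (univ.filter fun a => d a ≤ j).filter (fun a => d a = e),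
        (j : ℝ) ^ (d a - 1) / (n : ℝ) ^ d a ≤ (2 * D) ^ D / L := by
      intro e he
      obtain ⟨he1, he2⟩ := mem_Icc.1 he
      by_cases hej : e ≤ j
      · rw [sum_congr rfl (g := fun _ => (j : ℝ) ^ (e - 1) / (n : ℝ) ^ e)
          (fun a ha => by rw [(mem_filter.1 ha).2]), sum_const, nsmul_eq_mul, ← mul_div_assoc,
          div_le_div_iff₀ (by positivity) hLr]
        have h4 : (univ.filter fun a => d a = e).card * j ^ (e - 1) * L ≤ (2 * D) ^ D * n ^ e := by
          rcases he1.eq_or_lt with rfl | he1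
          · rw [Nat.sub_self, pow_zero, mul_one, pow_one, mul_comm]
            exact h1.trans (Nat.le_mul_of_pos_left _ (by positivity))
          have h5 := al_le_of_subset n d (L * j) (filter_subset (fun l => d l = e) univ)
            (fun l _ => (hd l).1) hpos
          have h6 := trunc_le n (univ.filter fun l => d l = e).card e (L * j) (by omega)
            (hej.trans (Nat.le_mul_of_pos_left _ hL)) hjn fun i hi => by
              have := (hpos i hi).trans_le (h5 i hi)
              rwa [al, prod_congr rfl (g := fun _ => 1 - Polynomial.X ^ e)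
                (fun l hl => by rw [(mem_filter.1 hl).2]), prod_const] at this
          have h7 : (2 * e) ^ (e - 1) ≤ (2 * D) ^ D :=
            (Nat.pow_le_pow_left (by omega) _).trans (Nat.pow_le_pow_right (by omega) (by omega))
          refine le_trans ?_ (h6.trans (Nat.mul_le_mul_right _ h7))
          rw [mul_assoc, mul_pow, mul_comm (L ^ (e - 1))]
          exact Nat.mul_le_mul_left _ (Nat.mul_le_mul_left _ (Nat.le_self_pow (by omega) L))
        have h8 : ((univ.filter fun a => d a ≤ j).filter (fun a => d a = e)).card * j ^ (e - 1) * L ≤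
            (2 * D) ^ D * n ^ e := le_trans (Nat.mul_le_mul_right _ (Nat.mul_le_mul_right _
              (card_le_card (filter_subset_filter _ (filter_subset _ _))))) h4
        exact_mod_cast h8
      · rw [sum_eq_zero]
        · positivity
        · intro a ha
          have h5 := (mem_filter.1 ha).2
          have h6 := (mem_filter.1 (mem_filter.1 ha).1).2
          omega
    have := sum_le_card_nsmul _ _ _ h3
    rw [Nat.card_Icc, nsmul_eq_mul] at this
    simpa using this
  rw [add_div, mul_div_assoc]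
  linarith

theorem fraction (D : ℕ) : ∃ L : ℕ, 0 < L ∧ ∀ (K : Type) [Field K] [CharZero K] (n r : ℕ)
    (d : Fin r → ℕ), 0 < n → (∀ i, 0 < d i ∧ d i ≤ D) →
    L * (univ.filter fun i => d i = 1).card ≤ n →
    ∃ P : MvPolynomial (Fin r × Finset (Fin n)) K, P ≠ 0 ∧ ∀ x, MvPolynomial.eval x P ≠ 0 →
      ∀ j : ℕ, 0 < truncCoeff (series n d univ) (L * j) →
        (hilb d x j : ℤ) = truncCoeff (series n d univ) j := by
  obtain ⟨c, hc, h⟩ := low D
  obtain ⟨L, hL⟩ := exists_nat_gt ((1 + (D : ℝ) * (2 * D) ^ D) / c)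
  have hL0 : (0 : ℝ) < L := lt_of_le_of_lt (by positivity) hL
  have hL1 : 0 < L := by exact_mod_cast hL0
  have hL2 : (1 + (D : ℝ) * (2 * D) ^ D) / L ≤ c := by
    rw [div_lt_iff₀ hc] at hL
    rw [div_le_iff₀ hL0]
    linarith
  refine ⟨L, hL1, ?_⟩
  intro K _ _ n r d hn hd h1
  have key : ∀ j ∈ range (n + 1), Gen fun x : Fin r × Finset (Fin n) → K =>
      (∀ i ≤ L * j, 0 < al n d univ i) → (finrank K (WF j d univ x) : ℤ) = ex n d univ j := by
    intro j _
    by_cases hpos : ∀ i ≤ L * j, 0 < al n d univ i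
    · exact (h K n (Fin r) d j hn hd ((load_le D L n j d hn hL1 hd h1 hpos).trans hL2)).mono
        fun x hx _ => hx
    · exact Gen.of_forall fun x hx => (hpos hx).elim
  refine (Gen.all _ key).mono fun x hx j hj => ?_
  have hj' : 0 < ex n d univ (L * j) := hj
  have hpos : ∀ i ≤ L * j, 0 < al n d univ i := by
    by_contra hcon
    rw [ex, if_neg hcon] at hj'
    exact lt_irrefl _ hj'
  have hjn : L * j ≤ n := by
    by_contra hcon
    have h2 := (ex_bounds n d univ (L * j) fun l _ => (hd l).1).2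
    rw [Nat.choose_eq_zero_of_lt (not_le.1 hcon)] at h2
    omega
  rw [hilb_eq]
  exact hx j (mem_range.2 (Nat.lt_succ_iff.2 ((Nat.le_mul_of_pos_left _ hL1).trans hjn))) hpos

end Pool.Agent.P.MP_3acc10_al.Nak
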