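import Pool.Agent.P.MP_3acc10_al.BDefs
import Pool.Agent.P.MP_3acc10_al.NMain

set_option autoImplicit false

namespace Pool.Agent.P.MP_3acc10_al.Bld

open Finset Module Matrix

variable {n j : ℕ} {ι : Type} [Fintype ι] [DecidableEq ι]

omit [Fintype ι] in
lemma bchain_union (n : ℕ) (d : ι → ℕ) (A : Finset ι) (i : ℕ) (T : Finset ι) :
    Disjoint T A → (∀ a ∈ T, i < d a) → al n d (T ∪ A) i = al n d A i := by
  induction T using Finset.induction_on with
  | empty =>
    intro _ _
    rw [empty_union]
  | insert l T hl ih =>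
    intro hd h
    have h1 : l ∉ T ∪ A := by
      rw [mem_union, not_or]
      exact ⟨hl, disjoint_left.1 hd (mem_insert_self _ _)⟩
    have h2 := h l (mem_insert_self _ _)
    rw [insert_union, al_insert n d h1, if_neg (by omega), sub_zero]
    exact ih (disjoint_of_subset_left (subset_insert _ _) hd)
      fun a ha => h a (mem_insert_of_mem ha)

omit [Fintype ι] in
theorem al_low (n : ℕ) (d : ι → ℕ) (A A' : Finset ι) (hA : A ⊆ A') (i : ℕ)
    (h : ∀ a ∈ A', a ∉ A → i < d a) : al n d A' i = al n d A i := by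
  have h1 := bchain_union n d A i (A' \ A) sdiff_disjoint
    fun a ha => h a (mem_sdiff.1 ha).1 (mem_sdiff.1 ha).2
  rwa [sdiff_union_of_subset hA] at h1

omit [DecidableEq ι] in
lemma bchain_WF {K : Type} [Field K] (d : ι → ℕ) (A : Finset ι) (i : ℕ)
    (h : ∀ a, a ∉ A → i < d a) (x : ι × Finset (Fin n) → K) :
    WF i d univ x = WF i d A x := by
  refine le_antisymm (W_anti _ (subset_univ A) _) fun F hF => ⟨hF.1, fun a _ => ?_⟩
  by_cases ha : a ∈ A
  · exact hF.2 a ha
  · have h1 := h a ha
    exact funext fun T => act_mask_supp x a hF.1 T (by omega)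

theorem chain_gen (K : Type) [Field K] [CharZero K] (d : ι → ℕ) (m : ℕ) (Bk : ℕ → Finset ι)
    (x0 : ι × Finset (Fin n) → ℂ) (h0 : Bk 0 = ∅) (hm : ∀ a, a ∉ Bk m → j < d a)
    (hS : ∀ k < m, ∃ l, l ∉ Bk k ∧ Bk (k + 1) = insert l (Bk k) ∧ ∀ N ≤ j,
      finrank ℂ (WF N d (Bk k) x0) = finrank ℂ (WF N d (insert l (Bk k)) x0) +
        if d l ≤ N then finrank ℂ (WF (N - d l) d (Bk k) x0) else 0) :
    Gen fun x : ι × Finset (Fin n) → K =>
      ∀ i ≤ j, (finrank K (WF i d univ x) : ℤ) = al n d univ i := by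
  have ex : ∀ k ≤ m, ∀ i ≤ j, (finrank ℂ (WF i d (Bk k) x0) : ℤ) = al n d (Bk k) i := by
    intro k
    induction k with
    | zero =>
      intro _ i _
      rw [h0, finrank_WF_empty, al_empty, Fintype.card_fin]
    | succ k ih =>
      intro hk i hi
      obtain ⟨l, hl, e, h⟩ := hS k (by omega)
      have h1 := h i hi
      have h2 := ih (by omega) i hi
      rw [e, al_insert n d hl]
      split_ifs at h1 ⊢ with hd
      · have h3 := ih (by omega) (i - d l) (by omega)
        omega
      · omega
  have H : Gen fun x : ι × Finset (Fin n) → K => ∀ k ∈ range (m + 1),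
      ∀ i ∈ range (j + 1), finrank K (WF i d (Bk k) x) ≤ finrank ℂ (WF i d (Bk k) x0) :=
    Gen.all _ fun k _ => Gen.all _ fun i _ => Nak.transfer K i d (Bk k) x0
  refine H.mono fun x hx => ?_
  have up : ∀ k ≤ m, ∀ i ≤ j, (finrank K (WF i d (Bk k) x) : ℤ) ≤ al n d (Bk k) i := by
    intro k hk i hi
    rw [← ex k hk i hi]
    exact_mod_cast hx k (mem_range.2 (by omega)) i (mem_range.2 (by omega))
  have lo : ∀ k ≤ m, ∀ i ≤ j, al n d (Bk k) i ≤ (finrank K (WF i d (Bk k) x) : ℤ) := by
    intro k
    induction k with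
    | zero =>
      intro _ i _
      rw [h0, al_empty, finrank_WF_empty, Fintype.card_fin]
    | succ k ih =>
      intro hk i hi
      obtain ⟨l, hl, e, -⟩ := hS k (by omega)
      have h1 := lower_step i d (Bk k) l x
      have h2 := ih (by omega) i hi
      rw [e, al_insert n d hl]
      split_ifs at h1 ⊢ with hd
      · have h3 := up k (by omega) (i - d l) (by omega)
        have h4 := ih (by omega) (i - d l) (by omega)
        omega
      · omega
  intro i hi
  have hm' : ∀ a, a ∉ Bk m → i < d a := fun a ha => lt_of_le_of_lt hi (hm a ha)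
  rw [bchain_WF d (Bk m) i hm' x, al_low n d (Bk m) univ (subset_univ _) i fun a _ ha => hm' a ha]
  exact le_antisymm (up m le_rfl i hi) (lo m le_rfl i hi)

omit [Fintype ι] in
theorem exists_chain (A0 : Finset ι) : ∃ Bk : ℕ → Finset ι, Bk 0 = ∅ ∧ Bk A0.card = A0 ∧
    (∀ k, Bk k ⊆ A0) ∧ ∀ k < A0.card, ∃ l, l ∉ Bk k ∧ Bk (k + 1) = insert l (Bk k) := by
  induction A0 using Finset.induction_on with
  | empty => exact ⟨fun _ => ∅, rfl, rfl, fun _ => subset_rfl, fun k hk => by simp at hk⟩
  | insert a A ha ih =>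
    obtain ⟨Bk, h0, h1, h2, h3⟩ := ih
    refine ⟨fun k => if k ≤ A.card then Bk k else insert a A, by simp [h0], ?_, fun k => ?_,
      fun k hk => ?_⟩
    · show (if (insert a A).card ≤ A.card then Bk (insert a A).card else insert a A) = insert a A
      rw [if_neg (by rw [card_insert_of_notMem ha]; omega)]
    · show (if k ≤ A.card then Bk k else insert a A) ⊆ insert a A
      split_ifs
      · exact (h2 k).trans (subset_insert _ _)
      · exact subset_rfl
    · rw [card_insert_of_notMem ha] at hk
      show ∃ l, l ∉ (if k ≤ A.card then Bk k else insert a A) ∧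
        (if k + 1 ≤ A.card then Bk (k + 1) else insert a A) =
          insert l (if k ≤ A.card then Bk k else insert a A)
      rw [if_pos (show k ≤ A.card by omega)]
      by_cases hk1 : k < A.card
      · rw [if_pos (show k + 1 ≤ A.card by omega)]
        exact h3 k hk1
      · have e : k = A.card := by omega
        rw [if_neg (show ¬ k + 1 ≤ A.card by omega), e, h1]
        exact ⟨a, ha, rfl⟩

end Pool.Agent.P.MP_3acc10_al.Bld
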