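import Pool.Agent.P.MP_3acc10_al.BDefs

set_option autoImplicit false

namespace Pool.Agent.P.MP_3acc10_al.Bld

open Finset Module Matrix

variable {n j : ℕ} {ι : Type} [Fintype ι] [DecidableEq ι]

variable {d : ι → ℕ} {ℬ : Finset (Finset ι)} {σ : St (Let ι j)}

/-- commutation of shapes -/
def bq_AdjS (τ ρ : Bool × Finset (Fin j)) : Prop :=
  Disjoint τ.2 ρ.2 ∨ (τ.1 = false ∧ ρ.1 = false ∧ τ.2 ≠ ρ.2)

omit [Fintype ι] [DecidableEq ι] in
lemma bq_ne (hd : ∀ a, 0 < d a) {B : Finset ι} {t : Let ι j} (ht : Val d B t) :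
    t.2.Nonempty := by
  obtain ⟨o, π⟩ := t
  rw [← Finset.card_pos]
  cases o with
  | none => have := Val_none.1 ht; simp only; omega
  | some a => have := (Val_some.1 ht).2; have := hd a; simp only; omega

omit [Fintype ι] [DecidableEq ι] in
lemma bq_adj {t u : Let ι j} (ht : t.2.Nonempty) : Adj t u ↔ bq_AdjS (sh t) (sh u) := by
  obtain ⟨o, π⟩ := t
  obtain ⟨o', π'⟩ := u
  simp only [Adj, bq_AdjS, sh] at ht ⊢
  constructor
  · rintro ⟨hne, h | ⟨h1, h2⟩⟩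
    · exact Or.inl h
    · subst h1 h2
      refine Or.inr ⟨rfl, rfl, fun h => hne ?_⟩
      rw [h]
  · rintro (h | ⟨h1, h2, h3⟩)
    · refine ⟨fun he => ?_, Or.inl h⟩
      have h2 : π = π' := congrArg Prod.snd he
      subst h2
      exact ht.ne_empty (disjoint_self.1 h)
    · refine ⟨fun he => h3 (congrArg Prod.snd he), Or.inr ⟨?_, ?_⟩⟩
      · cases o with
        | none => rfl
        | some a => simp at h1
      · cases o' with
        | none => rfl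
        | some a => simp at h2

theorem Qs_val (hσ : σ ∈ Qs j d ℬ) : ∃ B ∈ ℬ, ∀ t ∈ σ.1, Val d B t := by
  obtain ⟨B, hB, 𝒮, Fs, cl, h1, -, -, -⟩ := mem_Qs.1 hσ
  refine ⟨B, hB, fun t ht => ?_⟩
  rw [h1] at ht
  exact (mem_Alph.1 ht).1

theorem rk_ne (hd : ∀ a, 0 < d a) {B : Finset ι} {t u : Let ι j} (ht : Val d B t)
    (h : Adj t u) : rk t ≠ rk u := by
  have hne := bq_ne hd ht
  intro he
  have h2 : t.2 = u.2 := rkS_inj he
  rcases (bq_adj hne).1 h with h3 | ⟨-, -, h3⟩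
  · have h4 : Disjoint t.2 u.2 := h3
    rw [← h2] at h4
    exact hne.ne_empty (disjoint_self.1 h4)
  · exact h3 h2

theorem Qs_upd (hd : ∀ a, 0 < d a) (hσ : σ ∈ Qs j d ℬ) {t : Let ι j} (ht : t ∈ alw σ) :
    upd Adj rk σ t ∈ Qs j d ℬ := by
  classical
  obtain ⟨B, hB, 𝒮, Fs, cl, h1, h2, h3, h4⟩ := mem_Qs.1 hσ
  obtain ⟨ht1, ht2⟩ := mem_alw.1 ht
  have htv : Val d B t := by
    rw [h1] at ht1
    exact (mem_Alph.1 ht1).1
  have hne := bq_ne hd htv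
  refine mem_Qs.2 ⟨B, hB, 𝒮,
    univ.filter (fun τ => bq_AdjS (sh t) τ ∧ (τ ∈ Fs ∨ rkS τ.2 < rk t)),
    insert t (cl.filter (Adj t)), h1, ?_, ?_, ?_⟩
  · intro s hs
    rcases mem_insert.1 hs with hs | hs
    · rw [hs]; exact ht1
    · exact h2 (mem_filter.1 hs).1
  · intro s hs u hu hsu
    rcases mem_insert.1 hs with hs | hs
    · rcases mem_insert.1 hu with hu | hu
      · exact absurd (hs.trans hu.symm) hsu
      · rw [hs]; exact (mem_filter.1 hu).2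
    · rcases mem_insert.1 hu with hu | hu
      · rw [hu]; exact Adj_symm (mem_filter.1 hs).2
      · exact h3 s (mem_filter.1 hs).1 u (mem_filter.1 hu).1 hsu
  · intro s
    rw [mem_upd, upd_fst, h4 s, mem_insert, mem_filter, mem_filter, ← bq_adj hne]
    have h5 : s ∈ cl → s ∈ σ.1 := fun h => h2 h
    have h6 : rkS (sh s).2 = rk s := rfl
    rw [h6]
    simp only [mem_univ, true_and]
    tauto

theorem Qs_res (hd : ∀ a, 0 < d a) (hσ : σ ∈ Qs j d ℬ) {u : Let ι j} (hu : u ∈ σ.1) :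
    res Adj u σ ∈ Qs j d ℬ := by
  classical
  obtain ⟨B, hB, 𝒮, Fs, cl, h1, h2, h3, h4⟩ := mem_Qs.1 hσ
  have huv : Val d B u := by
    rw [h1] at hu
    exact (mem_Alph.1 hu).1
  have hne := bq_ne hd huv
  refine mem_Qs.2 ⟨B, hB, 𝒮.filter (bq_AdjS (sh u)), Fs, cl.filter (Adj u), ?_, ?_, ?_, ?_⟩
  · ext s
    rw [mem_res_fst, h1, mem_Alph, mem_Alph, mem_filter, ← bq_adj hne, and_assoc]
  · intro s hs
    exact mem_res_fst.2 ⟨h2 (mem_filter.1 hs).1, (mem_filter.1 hs).2⟩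
  · intro s hs t ht hst
    exact h3 s (mem_filter.1 hs).1 t (mem_filter.1 ht).1 hst
  · intro s
    rw [mem_res_snd, mem_res_fst, h4 s, mem_filter]
    tauto

theorem Qs_ini {B : Finset ι} (hB : B ∈ ℬ) {l : ι} (hl : l ∈ B) (U : Finset (Fin j))
    (Ω : Finset (Finset (Fin j))) (hΩ : ∀ π ∈ Ω, π ⊆ U ∧ π.card = d l)
    (hdis : ∀ π ∈ Ω, ∀ ρ ∈ Ω, π ≠ ρ → Disjoint π ρ) : ini d B l U Ω ∈ Qs j d ℬ := by
  classical
  refine mem_Qs.2 ⟨B, hB, univ.filter (fun τ => τ.2 ⊆ U), ∅, Ω.image fun π => (some l, π),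
    ?_, ?_, ?_, ?_⟩
  · ext s
    simp only [ini]
    rw [mem_AlU, mem_Alph, mem_filter]
    simp [sh]
  · intro s hs
    obtain ⟨π, hπ, rfl⟩ := mem_image.1 hs
    exact mem_AlU.2 ⟨Val_some.2 ⟨hl, (hΩ π hπ).2⟩, (hΩ π hπ).1⟩
  · intro s hs u hu hsu
    obtain ⟨π, hπ, rfl⟩ := mem_image.1 hs
    obtain ⟨ρ, hρ, rfl⟩ := mem_image.1 hu
    refine ⟨hsu, Or.inl (hdis π hπ ρ hρ fun h => hsu ?_)⟩
    rw [h]
  · intro s
    simp [ini]

theorem res_ini (hd : ∀ a, 0 < d a) (B : Finset ι) (l : ι) (U : Finset (Fin j))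
    (Ω : Finset (Finset (Fin j))) (hdis : ∀ π ∈ Ω, ∀ ρ ∈ Ω, π ≠ ρ → Disjoint π ρ)
    {π : Finset (Fin j)} (hπ : π ∈ Ω) (hc : π.card = d l) :
    res Adj (some l, π) (ini d B l U Ω) = ini d B l (U \ π) (Ω.erase π) := by
  have hne : π.Nonempty := by
    rw [← Finset.card_pos, hc]; exact hd l
  have hadj : ∀ s : Let ι j, Adj (some l, π) s ↔ Disjoint π s.2 := by
    intro s
    rw [bq_adj (t := (some l, π)) hne]
    simp [bq_AdjS, sh]
  refine Prod.ext ?_ ?_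
  · ext s
    rw [mem_res_fst, hadj]
    simp only [ini]
    rw [mem_AlU, mem_AlU, subset_sdiff, and_assoc, disjoint_comm]
  · ext s
    rw [mem_res_snd, hadj]
    simp only [ini, mem_image, mem_erase]
    constructor
    · rintro ⟨⟨ρ, hρ, rfl⟩, hdj⟩
      refine ⟨ρ, ⟨fun h => ?_, hρ⟩, rfl⟩
      rw [h] at hdj
      exact hne.ne_empty (disjoint_self.1 hdj)
    · rintro ⟨ρ, ⟨h1, hρ⟩, rfl⟩
      exact ⟨⟨ρ, hρ, rfl⟩, hdis π hπ ρ hρ (Ne.symm h1)⟩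

end Pool.Agent.P.MP_3acc10_al.Bld
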