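import Pool.Agent.P.MP_3acc10_al.BOps1

set_option autoImplicit false

namespace Pool.Agent.P.MP_3acc10_al.Bld

open Finset Module Matrix

variable {n j : ℕ} {ι : Type} [Fintype ι] [DecidableEq ι]

variable {A : ι × Finset (Fin n) → ℂ}

theorem Av_E (hA : ∀ γ, ‖A γ‖ = 1) (hn : j ≤ n) (a : ι) {π U V : Finset (Fin j)}
    {w : (Fin j → Fin n) → ℂ} (hw : Dep V w) (hV : Disjoint V π) (hU : Disjoint U π)
    (F : (Fin j → Fin n) → ℂ) :
    Av U (w * fl A a π) (Em A (some a, π) *ᵥ F) = Av U (w * fl A a π) F := by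
  classical
  funext S
  set w' : (Fin j → Fin n) → ℂ := fun x => if Set.InjOn x U ∧ U.image x = S then w x else 0
    with hw'
  have hD : Dep (V ∪ U) w' := by
    intro x y h
    have h1 : ∀ p ∈ U, x p = y p := fun p hp => h p (mem_union_right _ hp)
    have h2 : U.image x = U.image y := image_congr fun p hp => h1 p hp
    have h3 : Set.InjOn x U ↔ Set.InjOn y U := Set.EqOn.injOn_iff fun p hp => h1 p hp
    simp only [hw', h2, h3, hw x y fun p hp => h p (mem_union_left _ hp)]
  have key : ∀ G : (Fin j → Fin n) → ℂ,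
      Av U (w * fl A a π) G S = ∑ x, star ((fl A a π * w') x) * G x := by
    intro G
    refine sum_congr rfl fun x _ => ?_
    simp only [hw', Pi.mul_apply]
    split_ifs
    · rw [mul_comm (w x)]
    · simp
  have hf := E_fix hA hn a hD (disjoint_union_left.2 ⟨hV, hU⟩)
  rw [key, key]
  conv_rhs => rw [← hf]
  simp only [mulVec, dotProduct, mul_sum, star_sum, sum_mul]
  rw [sum_comm]
  refine sum_congr rfl fun x _ => sum_congr rfl fun y _ => ?_
  rw [star_mul', E_herm hA]
  ring

theorem T_lift_some (hA : ∀ γ, ‖A γ‖ = 1) (d : ι → ℕ) (a : ι) {π U V : Finset (Fin j)}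
    (hπ : π ⊆ U) (hc : π.card = d a) {w : (Fin j → Fin n) → ℂ} (hw : Dep V w)
    (hV : Disjoint V U) {ξ : Finset (Fin n) → ℂ} (hξ : act (gf d A a) ξ = 0) :
    Tm A (some a, π) *ᵥ (w * lift U ξ) = (kap n π.card : ℂ) • (w * lift U ξ) := by
  classical
  funext y
  simp only [mulVec, dotProduct, Pi.smul_apply, smul_eq_mul, Pi.mul_apply]
  by_cases hy : Set.InjOn y π
  swap
  · have h0 : lift U ξ y = 0 := if_neg fun h' => hy (h'.mono (coe_subset.2 hπ))
    rw [h0, mul_zero, mul_zero]
    refine sum_eq_zero fun x _ => ?_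
    rw [Tm_apply, kk_some, if_neg fun h => hy h.1.2.2]
    simp
  set T := (U \ π).image y with hT
  set φ : Finset (Fin n) → ℂ := fun I => if Disjoint I T then star (A (a, I)) * ξ (I ∪ T) else 0
    with hφ
  set χ : ℂ := if Set.InjOn y (U \ π : Finset (Fin j)) then 1 else 0 with hχ
  have hU : U = π ∪ U \ π := (union_sdiff_of_subset hπ).symm
  have hl : ∀ x, Pan π y x → star (A (a, π.image x)) * lift U ξ x = χ * φ (π.image x) := by
    intro x hx
    have e1 : ∀ p ∈ U \ π, x p = y p := fun p hp => hx.1 p (mem_sdiff.1 hp).2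
    have e2 : (U \ π).image x = T := image_congr fun p hp => e1 p hp
    have e3 : U.image x = π.image x ∪ T := by rw [← e2, ← image_union, ← hU]
    have e4 : Set.InjOn x U ↔ Set.InjOn y (U \ π : Finset (Fin j)) ∧ Disjoint (π.image x) T := by
      rw [← Set.EqOn.injOn_iff (f₁ := x) fun p hp => e1 p hp, ← e2]
      conv_lhs => rw [hU, coe_union]
      rw [Set.injOn_union (disjoint_coe.2 disjoint_sdiff), disjoint_left]
      constructor
      · rintro ⟨-, h2, h3⟩
        refine ⟨h2, fun v hv hv' => ?_⟩
        obtain ⟨p, hp, rfl⟩ := mem_image.1 hv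
        obtain ⟨p', hp', e⟩ := mem_image.1 hv'
        exact h3 p hp p' hp' e.symm
      · rintro ⟨h2, h3⟩
        exact ⟨hx.2.2, h2, fun p hp p' hp' e =>
          h3 (mem_image_of_mem x hp) (e ▸ mem_image_of_mem x hp')⟩
    simp only [lift, hχ, hφ, e3, e4]
    by_cases h1 : Set.InjOn y (U \ π : Finset (Fin j)) <;>
      by_cases h2 : Disjoint (π.image x) T <;> simp [h1, h2]
  have htot : ∑ I ∈ powersetCard π.card univ, φ I = 0 := by
    have h1 := congrFun hξ T
    rw [Pi.zero_apply] at h1
    rw [← h1, act, powersetCard_eq_filter, powerset_univ, sum_filter]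
    refine sum_congr rfl fun I _ => ?_
    simp only [hφ, gf, mask, hc]
    split_ifs <;> simp
  have hmem : π.image y ∈ powersetCard π.card (univ : Finset (Fin n)) :=
    mem_powersetCard.2 ⟨subset_univ _, card_image_of_injOn hy⟩
  have hf : (π.card.factorial : ℂ) ≠ 0 := by exact_mod_cast π.card.factorial_ne_zero
  have hterm : ∀ x, Tm A (some a, π) y x * (w x * lift U ξ x) =
      -((kap n π.card : ℂ) / π.card.factorial * A (a, π.image y) * w y * χ) *
        (if Pan π y x then (if π.image x = π.image y then 0 else φ (π.image x)) else 0) := by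
    intro x
    rw [Tm_apply, kk_some, chi_dl hA]
    by_cases hP : Pan π y x
    · rw [if_pos hP]
      by_cases he : π.image x = π.image y
      · rw [if_neg fun h => h.2 he.symm, if_pos he]
        simp
      · have e5 : w x = w y := hw x y fun p hp =>
          hP.1 p fun hp' => disjoint_left.1 hV hp (hπ hp')
        rw [if_pos ⟨Pan_symm hP, fun h => he h.symm⟩, if_neg he, e5]
        push_cast
        linear_combination
          -((kap n π.card : ℂ) / π.card.factorial * A (a, π.image y) * w y) * hl x hP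
    · rw [if_neg fun h => hP (Pan_symm h.1), if_neg hP]
      simp
  have hsum : ∑ I ∈ powersetCard π.card univ, (if I = π.image y then 0 else φ I) =
      -φ (π.image y) := by
    rw [← add_sum_erase _ _ hmem] at htot ⊢
    rw [if_pos rfl, zero_add, sum_congr rfl fun I hI => if_neg (ne_of_mem_erase hI)]
    linear_combination htot
  rw [sum_congr rfl fun x _ => hterm x, ← mul_sum,
    panel hy fun I => if I = π.image y then 0 else φ I, hsum]
  have h5 := hl y ⟨fun _ _ => rfl, hy, hy⟩
  have h6 := mul_star_self hA (a, π.image y)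
  field_simp
  linear_combination (-(kap n π.card : ℂ) * A (a, π.image y) * w y) * h5 +
    ((kap n π.card : ℂ) * w y * lift U ξ y) * h6

theorem T_lift_none (A : ι × Finset (Fin n) → ℂ) {π U : Finset (Fin j)} (hπ : π ⊆ U)
    (w : (Fin j → Fin n) → ℂ) (ξ : Finset (Fin n) → ℂ) :
    Tm A (none, π) *ᵥ (w * lift U ξ) = 0 := by
  funext y
  simp only [mulVec, dotProduct, Pi.zero_apply]
  refine sum_eq_zero fun x _ => ?_
  rw [Tm_apply, kk_none]
  split_ifs with h
  · have : lift U ξ x = 0 := if_neg fun h' => h.2 (h'.mono (coe_subset.2 hπ))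
    simp [this]
  · simp

end Pool.Agent.P.MP_3acc10_al.Bld
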