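import Pool.Agent.P.MP_3acc10_al.BScal
import Pool.Agent.P.MP_3acc10_al.BSurB
import Pool.Agent.P.MP_3acc10_al.BQ
import Pool.Agent.P.MP_3acc10_al.BHmain

set_option autoImplicit false

namespace Pool.Agent.P.MP_3acc10_al.Bld

open Finset Module Matrix

variable {n j : ℕ} {ι : Type} [Fintype ι] [DecidableEq ι]

theorem G_lift {A : ι × Finset (Fin n) → ℂ} (hA : ∀ γ, ‖A γ‖ = 1) (hn : j + 2 ≤ n) {d : ι → ℕ}
    (hd : ∀ a, 0 < d a) {A0 : Finset ι} {ℬ : Finset (Finset ι)} (hℬ : ∀ B ∈ ℬ, B ⊆ A0) {η0 : ℝ}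
    (hη : 0 ≤ η0) {δ : ℝ} {h : Finset (Finset (Fin j)) → ℝ} (hf : Hf (zf η0 n d A0) δ h)
    {G : St (Let ι j) → Matrix (Fin j → Fin n) (Fin j → Fin n) ℂ}
    (hG : ∀ σ ∈ Qs j d ℬ, G σ = 1 + ∑ t ∈ alw σ, G (upd Adj rk σ t) * Tm A t)
    {B : Finset ι} (hB : B ∈ ℬ) {l : ι} (hl : l ∈ B) (U : Finset (Fin j)) :
    ∃ μ : ℝ, 1 ≤ μ ∧ ∀ (V : Finset (Fin j)) (w : (Fin j → Fin n) → ℂ) (ξ : Finset (Fin n) → ℂ),
      Dep V w → Disjoint V U → (∀ a ∈ B, act (gf d A a) ξ = 0) →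
      G (ini d B l U ∅) *ᵥ (w * lift U ξ) = (μ : ℂ) • (w * lift U ξ) := by
  classical
  set Q' := (Qs j d ℬ).filter (fun σ => σ.1 = AlU d B U) with hQ'
  set k : Let ι j → ℝ := fun t => if t.1.isSome then kap n t.2.card else 0 with hk
  have hmem : ∀ σ, σ ∈ Q' ↔ σ ∈ Qs j d ℬ ∧ σ.1 = AlU d B U := fun σ => mem_filter
  have hval : ∀ σ ∈ Q', ∀ t ∈ σ.1, Val d B t ∧ t.2 ⊆ U := fun σ hσ t ht => by
    rw [((hmem σ).1 hσ).2] at ht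
    exact mem_AlU.1 ht
  obtain ⟨μ, hμ1, hμ⟩ := scal Q' alw (upd Adj rk)
    (fun σ hσ t ht => (hmem _).2 ⟨Qs_upd hd ((hmem σ).1 hσ).1 ht, ((hmem σ).1 hσ).2⟩) k
    (fun σ _ t _ => by
      simp only [hk]
      split_ifs
      · exact kap_nonneg _ _
      · exact le_rfl)
    (fun σ => h (Ft univ σ)) (fun σ _ => zero_le_one.trans (hf.ge _))
    (fun σ hσ => h_sup hη hn hd hf fun t ht =>
      ⟨fun a ha => hℬ B hB ((hval σ hσ t ht).1.1 a ha), (hval σ hσ t ht).1.2⟩)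
  have hini : ini d B l U ∅ ∈ Q' :=
    (hmem _).2 ⟨Qs_ini hB hl U ∅ (by simp) (by simp), rfl⟩
  refine ⟨μ (ini d B l U ∅), hμ1 _ hini, fun V w ξ hw hV hξ => ?_⟩
  have hT : ∀ t : Let ι j, Val d B t → t.2 ⊆ U →
      Tm A t *ᵥ (w * lift U ξ) = (k t : ℂ) • (w * lift U ξ) := by
    rintro ⟨_ | a, π⟩ hv hπ
    · rw [T_lift_none A hπ]
      simp [hk]
    · obtain ⟨ha, hc⟩ := Val_some.1 hv
      rw [T_lift_some hA d a hπ hc hw hV (hξ a ha)]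
      simp [hk]
  funext x
  have := hμ (fun σ => (G σ *ᵥ (w * lift U ξ)) x) ((w * lift U ξ) x) (fun σ hσ => by
    rw [hG σ ((hmem σ).1 hσ).1, add_mulVec, one_mulVec, Matrix.sum_mulVec, Pi.add_apply,
      Finset.sum_apply]
    congr 1
    refine sum_congr rfl fun t ht => ?_
    obtain ⟨hv, hπ⟩ := hval σ hσ t (mem_alw.1 ht).1
    rw [← mulVec_mulVec, hT t hv hπ, mulVec_smul, Pi.smul_apply, smul_eq_mul]) _ hini
  rw [this, Pi.smul_apply, smul_eq_mul]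

end Pool.Agent.P.MP_3acc10_al.Bld
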