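import Pool.Agent.P.MP_3acc10_al.BInd1

set_option autoImplicit false

namespace Pool.Agent.P.MP_3acc10_al.Bld

open Finset Module Matrix

variable {j : ℕ} {z : ℕ → ℝ}

theorem bind2_union (hz : z 0 = 0) (F T : Finset (Finset (Fin j))) (hd : ∀ π ∈ T, π ∉ F)
    (hT : ∀ π ∈ T, ∀ ρ ∈ T, ¬ Disjoint π ρ) :
    IP z (F ∪ T) = IP z F - ∑ π ∈ T, z π.card * IP z (F.filter fun ρ => Disjoint ρ π) := by
  induction T using Finset.induction_on with
  | empty => simp
  | insert π T hπ ih =>
    have h1 : π ∉ F ∪ T := by
      rw [mem_union, not_or]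
      exact ⟨hd π (mem_insert_self _ _), hπ⟩
    have h2 : ((F ∪ T).filter fun ρ => Disjoint ρ π) = F.filter fun ρ => Disjoint ρ π := by
      ext ρ
      simp only [mem_filter, mem_union]
      constructor
      · rintro ⟨h | h, h'⟩
        · exact ⟨h, h'⟩
        · exact absurd h' (hT ρ (mem_insert_of_mem h) π (mem_insert_self _ _))
      · rintro ⟨h, h'⟩
        exact ⟨Or.inl h, h'⟩
    rw [union_insert, IP_insert hz h1, h2, sum_insert hπ,
      ih (fun ρ hρ => hd ρ (mem_insert_of_mem hρ))
        (fun a ha b hb => hT a (mem_insert_of_mem ha) b (mem_insert_of_mem hb))]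
    ring

theorem bind2_single (hz : z 0 = 0) (π : Finset (Fin j)) :
    IP z ({π} : Finset (Finset (Fin j))) = 1 - z π.card := by
  have h := IP_insert (z := z) hz (F := ∅) (π := π) (notMem_empty π)
  rw [filter_empty, IP_empty, mul_one] at h
  exact h

theorem IP_pow (hz : z 0 = 0) (V : Finset (Fin j)) : IP z V.powerset = eta z V.card := by
  induction V using Finset.strongInduction with
  | H V ih =>
    rcases V.eq_empty_or_nonempty with rfl | ⟨v, hv⟩
    · rw [powerset_empty, bind2_single hz, card_empty, hz, eta_zero, sub_zero]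
    · obtain ⟨W, hW, rfl⟩ : ∃ W, v ∉ W ∧ V = insert v W :=
        ⟨V.erase v, notMem_erase v V, (insert_erase hv).symm⟩
      have hss : W ⊂ insert v W := ssubset_insert hW
      have hinj : ∀ a ∈ W.powerset, ∀ b ∈ W.powerset, insert v a = insert v b → a = b := by
        intro a ha b hb e
        have ha' : v ∉ a := fun h => hW (mem_powerset.1 ha h)
        have hb' : v ∉ b := fun h => hW (mem_powerset.1 hb h)
        rw [← erase_insert ha', e, erase_insert hb']
      have hterm : ∀ ρ ∈ W.powerset, z (insert v ρ).card *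
          IP z (W.powerset.filter fun σ => Disjoint σ (insert v ρ)) =
          z (ρ.card + 1) * eta z (W.card - ρ.card) := by
        intro ρ hρ
        have hρ' : v ∉ ρ := fun h => hW (mem_powerset.1 hρ h)
        have e : (W.powerset.filter fun σ => Disjoint σ (insert v ρ)) = (W \ ρ).powerset := by
          ext σ
          simp only [mem_filter, mem_powerset, disjoint_insert_right, subset_sdiff]
          constructor
          · rintro ⟨h1, -, h3⟩
            exact ⟨h1, h3⟩
          · rintro ⟨h1, h3⟩
            exact ⟨h1, fun h => hW (h1 h), h3⟩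
        rw [e, ih _ (Finset.ssubset_of_subset_of_ssubset sdiff_subset hss), card_insert_of_notMem hρ',
          card_sdiff_of_subset (mem_powerset.1 hρ)]
      rw [powerset_insert, bind2_union hz, sum_image hinj, sum_congr rfl hterm, ih W hss,
        card_insert_of_notMem hW, eta_succ,
        sum_powerset_apply_card (fun k => z (k + 1) * eta z (W.card - k))]
      · refine congrArg _ (sum_congr rfl fun k _ => ?_)
        rw [nsmul_eq_mul, mul_assoc]
      · intro π hπ h
        obtain ⟨ρ, -, rfl⟩ := mem_image.1 hπ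
        exact hW (mem_powerset.1 h (mem_insert_self _ _))
      · intro π hπ σ hσ h
        obtain ⟨a, -, rfl⟩ := mem_image.1 hπ
        obtain ⟨b, -, rfl⟩ := mem_image.1 hσ
        exact disjoint_left.1 h (mem_insert_self _ _) (mem_insert_self _ _)

theorem bind2_card (V : Finset (Fin j)) : V.card ≤ j := by
  have := card_le_univ V
  rwa [Fintype.card_fin] at this

theorem bind2_mono (hz : z 0 = 0) (hz' : ∀ e ≤ j, 0 ≤ z e) {δ : ℝ} (hδ : 0 < δ)
    (h : ∀ i ≤ j, δ ≤ eta z i) (V : Finset (Fin j)) :
    ∀ F F' : Finset (Finset (Fin j)), F ⊆ F' → F' ⊆ V.powerset → IP z F' ≤ IP z F := by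
  induction V using Finset.strongInduction with
  | H V ih =>
    have step : ∀ (F : Finset (Finset (Fin j))) (π : Finset (Fin j)), F ⊆ V.powerset → π ⊆ V →
        IP z (insert π F) ≤ IP z F := by
      intro F π hF hπ
      by_cases hm : π ∈ F
      · rw [insert_eq_of_mem hm]
      rw [IP_insert hz hm]
      rcases π.eq_empty_or_nonempty with rfl | hne
      · rw [card_empty, hz, zero_mul, sub_zero]
      · have h1 : (F.filter fun ρ => Disjoint ρ π) ⊆ (V \ π).powerset := by
          intro ρ hρ
          rw [mem_filter] at hρ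
          exact mem_powerset.2 (subset_sdiff.2 ⟨mem_powerset.1 (hF hρ.1), hρ.2⟩)
        have h2 := ih (V \ π) (sdiff_ssubset hπ hne) _ _ h1 subset_rfl
        rw [IP_pow hz] at h2
        have h3 := h _ (bind2_card (V \ π))
        have h4 := mul_nonneg (hz' _ (bind2_card π)) (hδ.le.trans (h3.trans h2))
        linarith
    have many : ∀ (F T : Finset (Finset (Fin j))), F ⊆ V.powerset → T ⊆ V.powerset →
        IP z (F ∪ T) ≤ IP z F := by
      intro F T hF
      induction T using Finset.induction_on with
      | empty => intro _; rw [union_empty]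
      | insert π T _ ihT =>
        intro hT
        have hT' : T ⊆ V.powerset := (subset_insert _ _).trans hT
        rw [union_insert]
        exact (step _ π (union_subset hF hT') (mem_powerset.1 (hT (mem_insert_self _ _)))).trans
          (ihT hT')
    intro F F' h1 h2
    have := many F F' (h1.trans h2) h2
    rwa [union_eq_right.2 h1] at this

theorem exists_Hf (hz : z 0 = 0) (hz' : ∀ e ≤ j, 0 ≤ z e) {δ : ℝ} (hδ : 0 < δ)
    (h : ∀ i ≤ j, δ ≤ eta z i) : ∃ h : Finset (Finset (Fin j)) → ℝ, Hf z δ h := by
  have mono : ∀ F F' : Finset (Finset (Fin j)), F ⊆ F' → IP z F' ≤ IP z F := fun F F' h1 =>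
    bind2_mono hz hz' hδ h univ F F' h1 (by rw [powerset_univ]; exact subset_univ _)
  have hU : δ ≤ IP z (univ : Finset (Finset (Fin j))) := by
    have := IP_pow (j := j) hz univ
    rw [powerset_univ] at this
    rw [this]
    exact h _ (bind2_card _)
  have hU0 : 0 < IP z (univ : Finset (Finset (Fin j))) := hδ.trans_le hU
  refine ⟨fun F => IP z F / IP z (univ : Finset (Finset (Fin j))), hz', ?_, ?_, ?_, ?_, ?_⟩
  · intro e he
    obtain ⟨π, -, hπ⟩ := exists_subset_card_eq (s := (univ : Finset (Fin j))) (n := e)
      (by rwa [card_univ, Fintype.card_fin])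
    have h1 := mono {π} univ (subset_univ _)
    rw [bind2_single hz, hπ] at h1
    linarith
  · intro F
    rw [le_div_iff₀ hU0, one_mul]
    exact mono F univ (subset_univ _)
  · intro F
    have h1 := mono ∅ F (empty_subset _)
    rw [IP_empty] at h1
    calc IP z F / IP z (univ : Finset (Finset (Fin j)))
        ≤ 1 / IP z (univ : Finset (Finset (Fin j))) := div_le_div_of_nonneg_right h1 hU0.le
      _ ≤ 1 / δ := one_div_le_one_div_of_le hδ hU
      _ = δ⁻¹ := one_div δ
  · intro F F' h1
    exact div_le_div_of_nonneg_right (mono F F' h1) hU0.le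
  · intro F
    show IP z F / _ = 1 + ∑ π ∈ Fᶜ, z π.card * (IP z (nxt F π) / _)
    rw [IP_eq hz F, add_div, div_self hU0.ne', sum_div]
    refine congrArg _ (sum_congr rfl fun π _ => ?_)
    rw [mul_div_assoc]

end Pool.Agent.P.MP_3acc10_al.Bld
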