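import Pool.Agent.P.MP_3acc10_al.BDefs

set_option autoImplicit false

namespace Pool.Agent.P.MP_3acc10_al.Bld

open Finset Module Matrix

variable {n j : ℕ} {ι : Type} [Fintype ι] [DecidableEq ι]

/-- matrices which act on a set of slots only -/
def bops2_Loc (π : Finset (Fin j)) (M : Matrix (Fin j → Fin n) (Fin j → Fin n) ℂ) : Prop :=
  (∀ y x, M y x ≠ 0 → ∀ p, p ∉ π → y p = x p) ∧
    ∀ y x y' x', (∀ p, p ∉ π → y p = x p) → (∀ p, p ∉ π → y' p = x' p) →
      (∀ p ∈ π, y p = y' p) → (∀ p ∈ π, x p = x' p) → M y x = M y' x'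

theorem bops2_mul {π ρ : Finset (Fin j)} {M N : Matrix (Fin j → Fin n) (Fin j → Fin n) ℂ}
    (hd : Disjoint π ρ) (hM : bops2_Loc π M) (hN : bops2_Loc ρ N) (y x : Fin j → Fin n) :
    (M * N) y x = M y (fun p => if p ∈ ρ then y p else x p) *
      N (fun p => if p ∈ ρ then y p else x p) x := by
  rw [Matrix.mul_apply]
  refine sum_eq_single _ (fun z _ hz => ?_) fun h => absurd (mem_univ _) h
  by_contra h
  refine hz (funext fun p => ?_)
  split_ifs with hp
  · exact (hM.1 y z (left_ne_zero_of_mul h) p fun h1 => disjoint_left.1 hd h1 hp).symm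
  · exact hN.1 z x (right_ne_zero_of_mul h) p hp

theorem bops2_comm {π ρ : Finset (Fin j)} {M N : Matrix (Fin j → Fin n) (Fin j → Fin n) ℂ}
    (hd : Disjoint π ρ) (hM : bops2_Loc π M) (hN : bops2_Loc ρ N) : M * N = N * M := by
  ext y x
  rw [bops2_mul hd hM hN, bops2_mul hd.symm hN hM]
  by_cases h : ∀ p, p ∉ π → p ∉ ρ → y p = x p
  · rw [mul_comm]
    congr 1
    · refine hN.2 _ _ _ _ (fun p hp => if_neg hp) (fun p hp => ?_) (fun p hp => if_pos hp)
        fun p hp => (if_neg fun h1 => disjoint_left.1 hd h1 hp).symm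
      split_ifs with h1
      · rfl
      · exact h p h1 hp
    · refine hM.2 _ _ _ _ (fun p hp => ?_) (fun p hp => if_neg hp) (fun p hp => (if_pos hp).symm)
        fun p hp => if_neg (disjoint_left.1 hd hp)
      split_ifs with h1
      · rfl
      · exact h p hp h1
  · push Not at h
    obtain ⟨p, h1, h2, h3⟩ := h
    have e1 : M y (fun p => if p ∈ ρ then y p else x p) = 0 := by
      by_contra h4
      exact h3 ((hM.1 _ _ h4 p h1).trans (if_neg h2))
    have e2 : N y (fun p => if p ∈ π then y p else x p) = 0 := by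
      by_contra h4
      exact h3 ((hN.1 _ _ h4 p h2).trans (if_neg h1))
    rw [e1, e2, zero_mul, zero_mul]

theorem bops2_inj {π : Finset (Fin j)} {x x' : Fin j → Fin n} (h : ∀ p ∈ π, x p = x' p) :
    Set.InjOn x π ↔ Set.InjOn x' π :=
  Set.EqOn.injOn_iff fun p hp => h p hp

theorem bops2_img {π : Finset (Fin j)} {x x' : Fin j → Fin n} (h : ∀ p ∈ π, x p = x' p) :
    π.image x = π.image x' :=
  image_congr fun p hp => h p hp

theorem bops2_pan {π : Finset (Fin j)} {y x y' x' : Fin j → Fin n} (h1 : ∀ p, p ∉ π → y p = x p)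
    (h2 : ∀ p, p ∉ π → y' p = x' p) (h3 : ∀ p ∈ π, y p = y' p) (h4 : ∀ p ∈ π, x p = x' p) :
    Pan π x y ↔ Pan π x' y' := by
  unfold Pan
  rw [bops2_inj h3, bops2_inj h4]
  exact ⟨fun h => ⟨h2, h.2⟩, fun h => ⟨h1, h.2⟩⟩

theorem bops2_diag {π : Finset (Fin j)} {y x y' x' : Fin j → Fin n} (h1 : ∀ p, p ∉ π → y p = x p)
    (h2 : ∀ p, p ∉ π → y' p = x' p) (h3 : ∀ p ∈ π, y p = y' p) (h4 : ∀ p ∈ π, x p = x' p) :
    (y = x ∧ ¬ Set.InjOn x π) ↔ (y' = x' ∧ ¬ Set.InjOn x' π) := by
  rw [bops2_inj h4]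
  refine and_congr_left fun _ => ⟨fun h => funext fun p => ?_, fun h => funext fun p => ?_⟩
  · by_cases hp : p ∈ π
    · rw [← h3 p hp, ← h4 p hp, h]
    · exact h2 p hp
  · by_cases hp : p ∈ π
    · rw [h3 p hp, h4 p hp, h]
    · exact h1 p hp

theorem bops2_E (A : ι × Finset (Fin n) → ℂ) (u : Let ι j) : bops2_Loc u.2 (Em A u) := by
  classical
  obtain ⟨_ | a, π⟩ := u
  · refine ⟨fun y x h p _ => ?_, fun y x y' x' h1 h2 h3 h4 => ?_⟩
    · rw [Em_none] at h
      split_ifs at h with h1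
      · rw [h1.1]
      · exact absurd rfl h
    · rw [Em_none, Em_none]
      exact if_congr (bops2_diag h1 h2 h3 h4) rfl rfl
  · refine ⟨fun y x h => ?_, fun y x y' x' h1 h2 h3 h4 => ?_⟩
    · rw [Em_some] at h
      split_ifs at h with h1
      · exact h1.1
      · exact absurd rfl h
    · rw [Em_some, Em_some, dl_some, dl_some, bops2_img h3, bops2_img h4]
      exact if_congr (bops2_pan h1 h2 h3 h4) rfl rfl

theorem bops2_T (A : ι × Finset (Fin n) → ℂ) (t : Let ι j) : bops2_Loc t.2 (Tm A t) := by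
  classical
  obtain ⟨_ | a, π⟩ := t
  · refine ⟨fun y x h p _ => ?_, fun y x y' x' h1 h2 h3 h4 => ?_⟩
    · rw [Tm_apply, kk_none] at h
      split_ifs at h with h1
      · rw [h1.1]
      · simp at h
    · rw [Tm_apply, Tm_apply, kk_none, kk_none, dl_none, dl_none,
        if_congr (bops2_diag h1 h2 h3 h4) rfl rfl]
  · refine ⟨fun y x h => ?_, fun y x y' x' h1 h2 h3 h4 => ?_⟩
    · rw [Tm_apply, kk_some] at h
      split_ifs at h with h1
      · exact h1.1.1
      · simp at h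
    · rw [Tm_apply, Tm_apply, kk_some, kk_some, dl_some, dl_some, bops2_img h3, bops2_img h4,
        if_congr (and_congr_left fun _ => bops2_pan h1 h2 h3 h4) rfl rfl]

theorem bops2_diag_comm {M N : Matrix (Fin j → Fin n) (Fin j → Fin n) ℂ} (hM : M.IsDiag)
    (hN : N.IsDiag) : M * N = N * M := by
  rw [← hM.diagonal_diag, ← hN.diagonal_diag, diagonal_mul_diagonal, diagonal_mul_diagonal]
  simp only [mul_comm]

theorem E_comm (A : ι × Finset (Fin n) → ℂ) {u t : Let ι j} (h : Adj u t) :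
    Em A u * Tm A t = Tm A t * Em A u := by
  rcases h.2 with hd | ⟨h1, h2⟩
  · exact bops2_comm hd (bops2_E A u) (bops2_T A t)
  · obtain ⟨a, π⟩ := u
    obtain ⟨b, ρ⟩ := t
    obtain rfl : a = none := h1
    obtain rfl : b = none := h2
    refine bops2_diag_comm (fun y x hyx => ?_) fun y x hyx => ?_
    · show Em A (none, π) y x = 0
      rw [Em_none, if_neg fun h => hyx h.1]
    · show Tm A (none, ρ) y x = 0
      rw [Tm_apply, kk_none, if_neg fun h => hyx h.1]
      simp

end Pool.Agent.P.MP_3acc10_al.Bld
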