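import Pool.Agent.P.MP_3acc10_al.BDefs

set_option autoImplicit false

namespace Pool.Agent.P.MP_3acc10_al.Bld

open Finset Module Matrix

variable {n j : ℕ} {ι : Type} [Fintype ι] [DecidableEq ι]

omit [DecidableEq ι] in
/-- the shape is injective on a clique of valid letters -/
lemma bqc_inj {d : ι → ℕ} (hd : ∀ a, 0 < d a) {B : Finset ι}
    {𝒮 : Finset (Bool × Finset (Fin j))} {cl : Finset (Let ι j)} (hcl : cl ⊆ Alph d B 𝒮)
    (hadj : ∀ t ∈ cl, ∀ u ∈ cl, t ≠ u → Adj t u) {t u : Let ι j} (ht : t ∈ cl) (hu : u ∈ cl)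
    (h : sh t = sh u) : t = u := by
  by_contra hne
  have h2 : t.2 = u.2 := (Prod.ext_iff.1 h).2
  rcases (hadj t ht u hu hne).2 with hdis | ⟨h1, h1'⟩
  · have hv := (mem_Alph.1 (hcl ht)).1.2
    rw [← h2, disjoint_self, bot_eq_empty] at hdis
    rw [hdis, card_empty] at hv
    rcases hta : t.1 with _ | a
    · rw [hta] at hv
      simp at hv
    · rw [hta] at hv
      have := hd a
      simp only [Option.elim_some] at hv
      omega
  · exact hne (Prod.ext (h1.trans h1'.symm) h2)

open Classical in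
/-- the code of a clique -/
noncomputable def bqc_code (cl : Finset (Let ι j)) (τ : Bool × Finset (Fin j)) :
    Option (Option ι) :=
  if h : ∃ t ∈ cl, sh t = τ then some h.choose.1 else none

omit [Fintype ι] [DecidableEq ι] in
lemma bqc_code_iff {cl : Finset (Let ι j)}
    (hinj : ∀ t ∈ cl, ∀ u ∈ cl, sh t = sh u → t = u) (t : Let ι j) :
    bqc_code cl (sh t) = some t.1 ↔ t ∈ cl := by
  unfold bqc_code
  constructor
  · intro h
    split_ifs at h with hex
    have h1 : hex.choose.1 = t.1 := Option.some.inj h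
    have hs := hex.choose_spec
    have h2 : hex.choose.2 = t.2 := (Prod.ext_iff.1 hs.2).2
    have : hex.choose = t := Prod.ext h1 h2
    rw [← this]
    exact hs.1
  · intro ht
    have hex : ∃ u ∈ cl, sh u = sh t := ⟨t, ht, rfl⟩
    rw [dif_pos hex]
    have hs := hex.choose_spec
    rw [hinj _ hs.1 t ht hs.2]

/-- the values of the codes -/
def bqc_T (A0 : Finset ι) : Finset (Option (Option ι)) :=
  insert none (insert (some none) (A0.image fun a => some (some a)))

omit [Fintype ι] in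
lemma bqc_T_card (A0 : Finset ι) : (bqc_T A0).card ≤ A0.card + 2 := by
  unfold bqc_T
  have h1 := card_insert_le (none : Option (Option ι))
    (insert (some none) (A0.image fun a => some (some a)))
  have h2 := card_insert_le (some none : Option (Option ι)) (A0.image fun a => some (some a))
  have h3 : (A0.image fun a => (some (some a) : Option (Option ι))).card ≤ A0.card :=
    card_image_le
  omega

lemma bqc_code_mem {d : ι → ℕ} {B A0 : Finset ι} (hB : B ⊆ A0)
    {𝒮 : Finset (Bool × Finset (Fin j))} {cl : Finset (Let ι j)} (hcl : cl ⊆ Alph d B 𝒮)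
    (τ : Bool × Finset (Fin j)) : bqc_code cl τ ∈ bqc_T A0 := by
  unfold bqc_code bqc_T
  split_ifs with hex
  · have hs := hex.choose_spec
    have hv := (mem_Alph.1 (hcl hs.1)).1.1
    rcases hta : hex.choose.1 with _ | a
    · simp
    · have := hB (hv a hta)
      simp [this]
  · simp

open Classical in
/-- the state with given data -/
noncomputable def bqc_F (d : ι → ℕ)
    (p : Finset ι × Finset (Bool × Finset (Fin j)) × Finset (Bool × Finset (Fin j)) ×
      (Bool × Finset (Fin j) → Option (Option ι))) : St (Let ι j) :=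
  (Alph d p.1 p.2.1, univ.filter fun s =>
    (s ∈ Alph d p.1 p.2.1 ∧ sh s ∈ p.2.2.1) ∨ p.2.2.2 (sh s) = some s.1)

theorem Qs_card {d : ι → ℕ} (hd : ∀ a, 0 < d a) (ℬ : Finset (Finset ι)) (A0 : Finset ι)
    (hℬ : ∀ B ∈ ℬ, B ⊆ A0) : (Qs j d ℬ).card ≤
      ℬ.card * 2 ^ 2 ^ (j + 1) * 2 ^ 2 ^ (j + 1) * (A0.card + 2) ^ 2 ^ (j + 1) := by
  classical
  have hsub : Qs j d ℬ ⊆ (ℬ ×ˢ (univ : Finset (Finset (Bool × Finset (Fin j)))) ×ˢ
      (univ : Finset (Finset (Bool × Finset (Fin j)))) ×ˢ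
        Fintype.piFinset fun _ : Bool × Finset (Fin j) => bqc_T A0).image (bqc_F d) := by
    intro σ hσ
    obtain ⟨B, hB, 𝒮, Fs, cl, h1, hcl, hadj, h2⟩ := mem_Qs.1 hσ
    rw [h1] at hcl
    have hinj : ∀ t ∈ cl, ∀ u ∈ cl, sh t = sh u → t = u :=
      fun t ht u hu h => bqc_inj hd hcl hadj ht hu h
    refine mem_image.2 ⟨(B, 𝒮, Fs, bqc_code cl), ?_, ?_⟩
    · simp only [mem_product, mem_univ, true_and, Fintype.mem_piFinset]
      exact ⟨hB, fun τ => bqc_code_mem (hℬ B hB) hcl τ⟩
    · refine Prod.ext h1.symm ?_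
      ext s
      rw [h2 s, h1, ← bqc_code_iff hinj s]
      simp only [bqc_F, mem_filter, mem_univ, true_and]
  have hc : Fintype.card (Bool × Finset (Fin j)) = 2 ^ (j + 1) := by
    rw [Fintype.card_prod, Fintype.card_bool, Fintype.card_finset, Fintype.card_fin, pow_succ,
      mul_comm]
  have hu : (univ : Finset (Finset (Bool × Finset (Fin j)))).card = 2 ^ 2 ^ (j + 1) := by
    rw [card_univ, Fintype.card_finset, hc]
  refine (card_le_card hsub).trans (card_image_le.trans ?_)
  rw [card_product, card_product, card_product, hu, Fintype.card_piFinset, prod_const, card_univ,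
    hc]
  have h3 : (bqc_T A0).card ^ 2 ^ (j + 1) ≤ (A0.card + 2) ^ 2 ^ (j + 1) :=
    Nat.pow_le_pow_left (bqc_T_card A0) _
  calc ℬ.card * (2 ^ 2 ^ (j + 1) * (2 ^ 2 ^ (j + 1) * (bqc_T A0).card ^ 2 ^ (j + 1)))
      ≤ ℬ.card * (2 ^ 2 ^ (j + 1) * (2 ^ 2 ^ (j + 1) * (A0.card + 2) ^ 2 ^ (j + 1))) :=
        Nat.mul_le_mul_left _ (Nat.mul_le_mul_left _ (Nat.mul_le_mul_left _ h3))
    _ = _ := by simp only [mul_assoc]

end Pool.Agent.P.MP_3acc10_al.Bld
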