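import Pool.Agent.P.MP_3acc10_al.BInv1
import Pool.Agent.P.MP_3acc10_al.BHmain

set_option autoImplicit false

namespace Pool.Agent.P.MP_3acc10_al.Bld

open Finset Module Matrix

variable {n j : ℕ} {ι : Type} [Fintype ι] [DecidableEq ι]

variable {x0 x : Fin j → Fin n} {c : ι × Finset (Fin n) → ℤ} {σ : St (Let ι j)}
  {M : Finset (Fin j)} {N : Finset (ι × Finset (Fin n))} {Γ : Finset (Finset (Fin j))}
  {η0 lam δ μ : ℝ} {d : ι → ℕ} {A0 : Finset ι} {h : Finset (Finset (Fin j)) → ℝ}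

lemma bstep2_ne (hd : ∀ a, 0 < d a) (hv : ∀ t ∈ σ.1, Val d A0 t) {a : ι} {π : Finset (Fin j)}
    (hC : Clo x0 x σ c a π) : π.Nonempty := by
  have h1 := Val_some.1 (hv _ (mem_alw.1 hC.1).1)
  exact card_pos.1 (by rw [h1.2]; exact hd a)

open Classical in
lemma bstep2_one (hn : j + 2 ≤ n) (hη : 0 ≤ η0) (hd : ∀ a, 0 < d a)
    (hf : Hf (zf η0 n d A0) δ h) (hv : ∀ t ∈ σ.1, Val d A0 t) (π : Finset (Fin j))
    {A B ε : ℝ} (hA : 0 ≤ A) (hε : 0 ≤ ε) :
    ∑ a ∈ univ.filter (fun a => (some a, π) ∈ alw σ),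
      (om η0 n d a * (A + ε) + if Clo x0 x σ c a π then B + 2 * ε else 0) ≤
      zf η0 n d A0 π.card * A + (if ∃ a, Clo x0 x σ c a π then B else 0) + 3 * ε := by
  rw [sum_add_distrib, ← sum_mul]
  have h1 := om_sum hη hn hd hv π
  have h2 : zf η0 n d A0 π.card ≤ 1 := hf.zle _ (by simpa using card_le_univ π)
  have h3 : (∑ a ∈ univ.filter (fun a => (some a, π) ∈ alw σ), om η0 n d a) * (A + ε) ≤
      zf η0 n d A0 π.card * A + ε := by
    refine (mul_le_mul_of_nonneg_right h1 (by positivity)).trans ?_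
    nlinarith
  have h4 : ∑ a ∈ univ.filter (fun a => (some a, π) ∈ alw σ),
      (if Clo x0 x σ c a π then B + 2 * ε else 0) ≤
      (if ∃ a, Clo x0 x σ c a π then B else 0) + 2 * ε := by
    by_cases hC : ∃ a, Clo x0 x σ c a π
    · rw [if_pos hC]
      obtain ⟨a, ha⟩ := hC
      rw [sum_eq_single a]
      · rw [if_pos ha]
      · intro b _ hb
        exact if_neg fun hb' => hb (Clo_uniq (bstep2_ne hd hv ha) hb' ha)
      · intro hb
        exact (hb (mem_filter.2 ⟨mem_univ a, ha.1⟩)).elim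
    · rw [if_neg hC, sum_eq_zero fun a _ => if_neg fun ha => hC ⟨a, ha⟩]
      positivity
  linarith

open Classical in
omit [DecidableEq ι] in
lemma bstep2_main (hη : 0 ≤ η0) (hη1 : η0 ≤ 1) {z : ℕ → ℝ} (hf : Hf z δ h)
    (C : ι → Finset (Fin j) → Prop) (F : Finset (Finset (Fin j))) :
    ∑ π, z π.card * (if π ∉ F ∧ ∀ b ρ, C b ρ → rkS π < rkS ρ then h (nxt F π) else 0) +
      ∑ π, (if ∃ a, C a π then (1 + η0)⁻¹ * (if ∀ b ρ, C b ρ → rkS π ≤ rkS ρ then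
        h (F ∪ lowr j (rkS π)) else 0) else 0) ≤ (1 - δ * η0 / 2) * h F := by
  have h1 := hf.ge F
  have h2 := hf.le F
  have hδ : 0 < δ := inv_pos.1 (by linarith)
  have h3 : δ * h F ≤ 1 := by
    have := mul_le_mul_of_nonneg_left h2 hδ.le
    rwa [mul_inv_cancel₀ hδ.ne'] at this
  have h4 : η0 * (δ * h F) ≤ η0 := by nlinarith
  by_cases hC : ∃ π, ∃ a, C a π
  · obtain ⟨s, hs, hmin⟩ := exists_min_image (univ.filter fun π => ∃ a, C a π) rkS
      (by obtain ⟨π, hπ⟩ := hC; exact ⟨π, mem_filter.2 ⟨mem_univ _, hπ⟩⟩)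
    have hs' := (mem_filter.1 hs).2
    have hm : ∀ b ρ, C b ρ → rkS s ≤ rkS ρ := fun b ρ hb =>
      hmin ρ (mem_filter.2 ⟨mem_univ _, b, hb⟩)
    have e1 : ∑ π, z π.card * (if π ∉ F ∧ ∀ b ρ, C b ρ → rkS π < rkS ρ then h (nxt F π) else 0) =
        ∑ π ∈ Fᶜ.filter (fun π => rkS π < rkS s), z π.card * h (nxt F π) := by
      rw [← sum_subset (subset_univ (Fᶜ.filter fun π => rkS π < rkS s))]
      · refine sum_congr rfl fun π hπ => ?_
        rw [mem_filter, mem_compl] at hπ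
        rw [if_pos ⟨hπ.1, fun b ρ hb => hπ.2.trans_le (hm b ρ hb)⟩]
      · intro π _ hπ
        obtain ⟨b, hb⟩ := hs'
        rw [if_neg fun hh => hπ (mem_filter.2 ⟨mem_compl.2 hh.1, hh.2 b s hb⟩), mul_zero]
    have e2 : ∑ π, (if ∃ a, C a π then (1 + η0)⁻¹ * (if ∀ b ρ, C b ρ → rkS π ≤ rkS ρ then
        h (F ∪ lowr j (rkS π)) else 0) else 0) = (1 + η0)⁻¹ * h (F ∪ lowr j (rkS s)) := by
      rw [sum_eq_single s]
      · rw [if_pos hs', if_pos hm]
      · intro π _ hπ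
        by_cases hπ' : ∃ a, C a π
        · obtain ⟨b, hb⟩ := hs'
          obtain ⟨a, ha⟩ := hπ'
          rw [if_neg fun hh : ∀ b ρ, C b ρ → rkS π ≤ rkS ρ =>
            hπ (rkS_inj (le_antisymm (hh b s hb) (hm a π ha))), mul_zero, ite_self]
        · rw [if_neg hπ']
      · intro hh
        exact absurd (mem_univ _) hh
    rw [e1, e2]
    have h5 := h_split hf F (rkS s)
    have h6 := hf.ge (F ∪ lowr j (rkS s))
    have h7 : (1 + η0)⁻¹ ≤ 1 - η0 / 2 := by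
      rw [inv_le_iff_one_le_mul₀ (by linarith)]
      nlinarith
    have h8 := mul_le_mul_of_nonneg_right h7 (zero_le_one.trans h6)
    nlinarith
  · have e1 : ∑ π, z π.card * (if π ∉ F ∧ ∀ b ρ, C b ρ → rkS π < rkS ρ then h (nxt F π) else 0) =
        ∑ π ∈ Fᶜ, z π.card * h (nxt F π) := by
      rw [← sum_subset (subset_univ Fᶜ)]
      · refine sum_congr rfl fun π hπ => ?_
        rw [if_pos ⟨mem_compl.1 hπ, fun b ρ hb => absurd ⟨ρ, b, hb⟩ hC⟩]
      · intro π _ hπ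
        rw [if_neg fun hh => hπ (mem_compl.2 hh.1), mul_zero]
    rw [e1, sum_eq_zero fun π _ => if_neg fun hh => hC ⟨π, hh⟩]
    have h5 := hf.eq F
    nlinarith

open Classical in
theorem step_main (hn : j + 2 ≤ n) (hη : 0 ≤ η0) (hη1 : η0 ≤ 1) (hd : ∀ a, 0 < d a) (hμ : 1 ≤ μ)
    (hf : Hf (zf η0 n d A0) δ h) (hv : ∀ t ∈ σ.1, Val d A0 t) (F : Finset (Finset (Fin j))) :
    ∑ π, ∑ a ∈ univ.filter (fun a => (some a, π) ∈ alw σ),
      (om η0 n d a * ((if π ∉ F ∧ ∀ b ρ, Clo x0 x σ c b ρ → rkS π < rkS ρ then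
            h (nxt F π) else 0) + (δ * μ)⁻¹) +
          if Clo x0 x σ c a π then (1 + η0)⁻¹ * (if ∀ b ρ, Clo x0 x σ c b ρ → rkS π ≤ rkS ρ then
            h (F ∪ lowr j (rkS π)) else 0) + 2 * (δ * μ)⁻¹ else 0) ≤
      (1 - δ * η0 / 2) * h F + 3 * 2 ^ j / (δ * μ) := by
  have hδ : 0 < δ := inv_pos.1 (by linarith [hf.ge F, hf.le F])
  have hε : 0 ≤ (δ * μ)⁻¹ := by positivity
  have h0 : ∀ G, 0 ≤ h G := fun G => zero_le_one.trans (hf.ge G)
  refine (sum_le_sum fun π _ => bstep2_one hn hη hd hf hv π ?_ hε).trans ?_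
  · split_ifs
    · exact h0 _
    · exact le_rfl
  · rw [sum_add_distrib, sum_add_distrib, sum_const, card_univ, Fintype.card_finset,
      Fintype.card_fin, nsmul_eq_mul, div_eq_mul_inv (3 * 2 ^ j)]
    have := bstep2_main hη hη1 hf (Clo x0 x σ c) F
    push_cast
    linarith

end Pool.Agent.P.MP_3acc10_al.Bld
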