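import Pool.Agent.P.MP_3acc10_al.BSurA
import Pool.Agent.P.MP_3acc10_al.BSurB
import Pool.Agent.P.MP_3acc10_al.BQ

set_option autoImplicit false

namespace Pool.Agent.P.MP_3acc10_al.Bld

open Finset Module Matrix

variable {n j : ℕ} {ι : Type} [Fintype ι] [DecidableEq ι]

variable {A : ι × Finset (Fin n) → ℂ} {d : ι → ℕ} {B : Finset ι} {l : ι}
  {G : St (Let ι j) → Matrix (Fin j → Fin n) (Fin j → Fin n) ℂ}

omit [Fintype ι] [DecidableEq ι] in
theorem bsure_av_zero (U : Finset (Fin j)) (w : (Fin j → Fin n) → ℂ) : Av U w 0 = 0 := by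
  ext S
  simp [Av]

theorem bsure_vanish {U : Finset (Fin j)} {Ω : Finset (Finset (Fin j))}
    (h : ∀ u ∈ AlU d (insert l B) U, Em A u * G (ini d (insert l B) l U Ω) =
        if u ∈ (ini d (insert l B) l U Ω).2 then
          G (res Adj u (ini d (insert l B) l U Ω)) * Em A u else 0)
    (ψ : (Fin j → Fin n) → ℂ) (x : Fin j → Fin n) (hx : ¬ Set.InjOn x U) :
    (G (ini d (insert l B) l U Ω) *ᵥ ψ) x = 0 := by
  obtain ⟨p, hp, q, hq, hpq, hne⟩ : ∃ p ∈ U, ∃ q ∈ U, x p = x q ∧ p ≠ q := by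
    by_contra hc
    exact hx fun p hp q hq hpq => by_contra fun hne => hc ⟨p, hp, q, hq, hpq, hne⟩
  have hu : ((none, {p, q}) : Let ι j) ∈ AlU d (insert l B) U := by
    refine mem_AlU.2 ⟨Val_none.2 (card_pair hne), ?_⟩
    exact insert_subset hp (singleton_subset_iff.2 hq)
  have h1 := h _ hu
  rw [if_neg (by simp [ini])] at h1
  have h2 : (Em A ((none, {p, q}) : Let ι j) *ᵥ (G (ini d (insert l B) l U Ω) *ᵥ ψ)) x = 0 := by
    rw [mulVec_mulVec, h1, zero_mulVec, Pi.zero_apply]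
  have h3 : ¬ Set.InjOn x ({p, q} : Finset (Fin j)) := fun hi =>
    hne (hi (by simp) (by simp) hpq)
  rw [mulVec, dotProduct, sum_eq_single x] at h2
  · rwa [Em_none, if_pos ⟨rfl, h3⟩, one_mul] at h2
  · intro y _ hy
    rw [Em_none, if_neg fun hc => hy hc.1.symm, zero_mul]
  · simp

omit [Fintype ι] [DecidableEq ι] in
theorem bsure_iter_sum {κ : Type} (g : Finset (Fin n) → ℂ) (m : ℕ) (s : Finset κ)
    (f : κ → Finset (Fin n) → ℂ) :
    (act g)^[m] (∑ i ∈ s, f i) = ∑ i ∈ s, (act g)^[m] (f i) := by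
  induction m with
  | zero => rfl
  | succ m ih =>
    simp only [Function.iterate_succ_apply', ih]
    exact map_sum (actL g) _ s

omit [Fintype ι] [DecidableEq ι] in
theorem bsure_dep (A : ι × Finset (Fin n) → ℂ) (l : ι) {V π : Finset (Fin j)}
    {w : (Fin j → Fin n) → ℂ} (hw : Dep V w) : Dep (V ∪ π) (w * fl A l π) := by
  intro x y h
  have h1 : w x = w y := hw x y fun p hp => h p (mem_union_left _ hp)
  have h2 : Set.EqOn x y π := fun p hp => h p (mem_union_right _ hp)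
  have h3 : π.image x = π.image y := image_congr h2
  have h4 : Set.InjOn x π ↔ Set.InjOn y π := h2.injOn_iff
  simp only [Pi.mul_apply, fl, h1, h3, h4]

theorem Av_mem (hA : ∀ γ, ‖A γ‖ = 1) (hn : j ≤ n) (hl : l ∉ B)
    (hGE : ∀ (U : Finset (Fin j)) (Ω : Finset (Finset (Fin j))),
      (∀ π ∈ Ω, π ⊆ U ∧ π.card = d l) → (∀ π ∈ Ω, ∀ ρ ∈ Ω, π ≠ ρ → Disjoint π ρ) →
      ∀ u ∈ AlU d (insert l B) U, Em A u * G (ini d (insert l B) l U Ω) =
        if u ∈ (ini d (insert l B) l U Ω).2 then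
          G (res Adj u (ini d (insert l B) l U Ω)) * Em A u else 0)
    (U : Finset (Fin j)) (Ω : Finset (Finset (Fin j))) (hΩ : ∀ π ∈ Ω, π ⊆ U ∧ π.card = d l)
    (hdis : ∀ π ∈ Ω, ∀ ρ ∈ Ω, π ≠ ρ → Disjoint π ρ) (ψ : (Fin j → Fin n) → ℂ) :
    Av U 1 (G (ini d (insert l B) l U Ω) *ᵥ ψ) ∈ WF U.card d B fun p => star (A p) := by
  refine mem_W.2 ⟨fun S hS => Av_supp U _ _ S hS, fun a ha => ?_⟩
  have h := hGE U Ω hΩ hdis
  change act (gf d A a) _ = 0
  rw [Av_act d A a U 1 _ (bsure_vanish h ψ)]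
  refine sum_eq_zero fun π hπ => ?_
  rw [mem_powersetCard] at hπ
  have hu : ((some a, π) : Let ι j) ∈ AlU d (insert l B) U :=
    mem_AlU.2 ⟨Val_some.2 ⟨mem_insert_of_mem ha, hπ.2⟩, hπ.1⟩
  have hal : l ≠ a := fun e => hl (e ▸ ha)
  have h1 := h _ hu
  rw [if_neg (by simp [ini, hal])] at h1
  rw [← Av_E hA hn a (V := ∅) (fun _ _ _ => rfl) (disjoint_empty_left _) sdiff_disjoint,
    mulVec_mulVec, h1, zero_mulVec, bsure_av_zero]

theorem Av_pow (hA : ∀ γ, ‖A γ‖ = 1) (hn : j ≤ n) (hd : ∀ a, 0 < d a)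
    (hGE : ∀ (U : Finset (Fin j)) (Ω : Finset (Finset (Fin j))),
      (∀ π ∈ Ω, π ⊆ U ∧ π.card = d l) → (∀ π ∈ Ω, ∀ ρ ∈ Ω, π ≠ ρ → Disjoint π ρ) →
      ∀ u ∈ AlU d (insert l B) U, Em A u * G (ini d (insert l B) l U Ω) =
        if u ∈ (ini d (insert l B) l U Ω).2 then
          G (res Adj u (ini d (insert l B) l U Ω)) * Em A u else 0)
    (ψ : (Fin j → Fin n) → ℂ) (m : ℕ) : ∀ (U V : Finset (Fin j)) (Ω : Finset (Finset (Fin j)))
      (w : (Fin j → Fin n) → ℂ), Ω.card = m → (∀ π ∈ Ω, π ⊆ U ∧ π.card = d l) →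
      (∀ π ∈ Ω, ∀ ρ ∈ Ω, π ≠ ρ → Disjoint π ρ) → Dep V w → Disjoint V U →
      (∀ π ∈ Ω, Em A (some l, π) *ᵥ ψ = ψ) →
      (act (gf d A l))^[m] (Av U w (G (ini d (insert l B) l U Ω) *ᵥ ψ)) =
        (m.factorial : ℂ) • Av (U \ Ω.biUnion id) (w * ∏ π ∈ Ω, fl A l π)
          (G (ini d (insert l B) l (U \ Ω.biUnion id) ∅) *ᵥ ψ) := by
  induction m with
  | zero =>
    intro U V Ω w hm _ _ _ _ _
    rw [card_eq_zero] at hm
    subst hm
    simp
  | succ m ih =>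
    intro U V Ω w hm hΩ hdis hw hVU hψ
    have h := hGE U Ω hΩ hdis
    have hsub : Ω ⊆ powersetCard (d l) U := fun π hπ => mem_powersetCard.2 (hΩ π hπ)
    have hE : ∀ π ∈ powersetCard (d l) U,
        Av (U \ π) (w * fl A l π) (G (ini d (insert l B) l U Ω) *ᵥ ψ) = if π ∈ Ω then
          Av (U \ π) (w * fl A l π) (G (ini d (insert l B) l (U \ π) (Ω.erase π)) *ᵥ ψ)
        else 0 := by
      intro π hπ
      rw [mem_powersetCard] at hπ
      have hu : ((some l, π) : Let ι j) ∈ AlU d (insert l B) U :=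
        mem_AlU.2 ⟨Val_some.2 ⟨mem_insert_self _ _, hπ.2⟩, hπ.1⟩
      rw [← Av_E hA hn l hw (hVU.mono_right hπ.1) sdiff_disjoint, mulVec_mulVec, h _ hu]
      by_cases hπΩ : π ∈ Ω
      · rw [if_pos (by simp [ini, hπΩ]), if_pos hπΩ, ← mulVec_mulVec, hψ π hπΩ,
          res_ini hd _ l U Ω hdis hπΩ hπ.2]
      · rw [if_neg (by simp [ini, hπΩ]), if_neg hπΩ, zero_mulVec, bsure_av_zero]
    rw [Function.iterate_succ_apply, Av_act d A l U w _ (bsure_vanish h ψ), sum_congr rfl hE,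
      ← sum_filter, filter_mem_eq_inter, inter_eq_right.2 hsub, bsure_iter_sum]
    have hterm : ∀ π ∈ Ω, (act (gf d A l))^[m] (Av (U \ π) (w * fl A l π)
        (G (ini d (insert l B) l (U \ π) (Ω.erase π)) *ᵥ ψ)) =
        (m.factorial : ℂ) • Av (U \ Ω.biUnion id) (w * ∏ π ∈ Ω, fl A l π)
          (G (ini d (insert l B) l (U \ Ω.biUnion id) ∅) *ᵥ ψ) := by
      intro π hπ
      have e1 : (U \ π) \ (Ω.erase π).biUnion id = U \ Ω.biUnion id := by
        conv_rhs => rw [← insert_erase hπ, biUnion_insert, id]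
        exact sdiff_sdiff _ _ _
      have e2 : w * fl A l π * ∏ ρ ∈ Ω.erase π, fl A l ρ = w * ∏ ρ ∈ Ω, fl A l ρ := by
        rw [mul_assoc, mul_prod_erase _ _ hπ]
      rw [ih (U \ π) (V ∪ π) (Ω.erase π) (w * fl A l π) (by rw [card_erase_of_mem hπ, hm]; rfl)
        (fun ρ hρ => ⟨subset_sdiff.2 ⟨(hΩ ρ (mem_of_mem_erase hρ)).1,
          hdis ρ (mem_of_mem_erase hρ) π hπ (ne_of_mem_erase hρ)⟩,
          (hΩ ρ (mem_of_mem_erase hρ)).2⟩)
        (fun ρ hρ ρ' hρ' => hdis ρ (mem_of_mem_erase hρ) ρ' (mem_of_mem_erase hρ'))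
        (bsure_dep A l hw)
        (disjoint_union_left.2 ⟨hVU.mono_right sdiff_subset, disjoint_sdiff⟩)
        (fun ρ hρ => hψ ρ (mem_of_mem_erase hρ)), e1, e2]
    rw [sum_congr rfl hterm, sum_const, hm, ← Nat.cast_smul_eq_nsmul ℂ, smul_smul,
      Nat.factorial_succ, Nat.cast_mul]

end Pool.Agent.P.MP_3acc10_al.Bld
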