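import Pool.Agent.P.MP_3acc10_al.BSurD
import Pool.Agent.P.MP_3acc10_al.BSurE

set_option autoImplicit false

namespace Pool.Agent.P.MP_3acc10_al.Bld

open Finset Module Matrix

variable {n j : ℕ} {ι : Type} [Fintype ι] [DecidableEq ι]

variable {A : ι × Finset (Fin n) → ℂ} {d : ι → ℕ} {B : Finset ι} {l : ι}
  {G : St (Let ι j) → Matrix (Fin j → Fin n) (Fin j → Fin n) ℂ}

theorem bsurf_fam {α : Type} [DecidableEq α] {e : ℕ} (he : 0 < e) (t : ℕ) :
    ∀ U : Finset α, t * e ≤ U.card → ∃ Ω : Finset (Finset α), Ω.card = t ∧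
      (∀ π ∈ Ω, π ⊆ U ∧ π.card = e) ∧ (∀ π ∈ Ω, ∀ ρ ∈ Ω, π ≠ ρ → Disjoint π ρ) ∧
      (U \ Ω.biUnion id).card = U.card - t * e := by
  induction t with
  | zero => intro U _; exact ⟨∅, rfl, by simp, by simp, by simp⟩
  | succ t ih =>
    intro U hU
    rw [add_mul, one_mul] at hU
    obtain ⟨Ω, h1, h2, h3, h4⟩ := ih U (by omega)
    obtain ⟨π, hπ, hc⟩ := exists_subset_card_eq (s := U \ Ω.biUnion id) (n := e) (by omega)
    have hdis : ∀ ρ ∈ Ω, Disjoint π ρ := fun ρ hρ =>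
      disjoint_left.2 fun x hx hx' => (mem_sdiff.1 (hπ hx)).2 (mem_biUnion.2 ⟨ρ, hρ, hx'⟩)
    have hn : π ∉ Ω := fun h => by
      have := hdis π h
      rw [disjoint_self, bot_eq_empty] at this
      rw [this, card_empty] at hc
      omega
    refine ⟨insert π Ω, by rw [card_insert_of_notMem hn, h1], ?_, ?_, ?_⟩
    · intro ρ hρ
      rcases mem_insert.1 hρ with rfl | hρ
      · exact ⟨hπ.trans sdiff_subset, hc⟩
      · exact h2 ρ hρ
    · intro ρ hρ σ hσ hne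
      rcases mem_insert.1 hρ with a | a <;> rcases mem_insert.1 hσ with b | b
      · exact absurd (a.trans b.symm) hne
      · rw [a]; exact hdis σ b
      · rw [b]; exact (hdis ρ a).symm
      · exact h3 ρ a σ b hne
    · have e1 : U \ (insert π Ω).biUnion id = (U \ Ω.biUnion id) \ π := by
        ext x
        simp only [biUnion_insert, id, mem_sdiff, mem_union]
        tauto
      rw [e1, card_sdiff_of_subset hπ, h4, hc, add_mul, one_mul]
      omega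

omit [Fintype ι] [DecidableEq ι] in
theorem bsurf_dep_fl (A : ι × Finset (Fin n) → ℂ) (a : ι) {π V : Finset (Fin j)} (h : π ⊆ V) :
    Dep V (fl A a π) := by
  intro x y hxy
  have e : Set.EqOn x y π := fun p hp => hxy p (h hp)
  unfold fl
  rw [image_congr e, if_congr e.injOn_iff rfl rfl]

theorem bsurf_dep_lift (ξ : Finset (Fin n) → ℂ) {U V : Finset (Fin j)} (h : U ⊆ V) :
    Dep V (lift U ξ) := by
  intro x y hxy
  have e : Set.EqOn x y U := fun p hp => hxy p (h hp)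
  unfold lift
  rw [image_congr e, if_congr e.injOn_iff rfl rfl]

theorem bsurf_dep_mul {V : Finset (Fin j)} {w w' : (Fin j → Fin n) → ℂ} (h : Dep V w)
    (h' : Dep V w') : Dep V (w * w') := fun x y hxy => by
  rw [Pi.mul_apply, Pi.mul_apply, h x y hxy, h' x y hxy]

theorem bsurf_dep_prod {β : Type} {V : Finset (Fin j)} (s : Finset β)
    {w : β → (Fin j → Fin n) → ℂ} (h : ∀ b ∈ s, Dep V (w b)) : Dep V (∏ b ∈ s, w b) :=
  fun x y hxy => by
    rw [Finset.prod_apply, Finset.prod_apply]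
    exact prod_congr rfl fun b hb => h b hb x y hxy

theorem bsurf_Av_smul (U : Finset (Fin j)) (w F : (Fin j → Fin n) → ℂ) (c : ℂ) :
    Av U w (c • F) = c • Av U w F := by
  ext S
  simp only [Av, Pi.smul_apply, smul_eq_mul, mul_sum]
  refine sum_congr rfl fun x _ => ?_
  split_ifs <;> ring

theorem bsurf_iter (g F : Finset (Fin n) → ℂ) (c : ℂ) (t : ℕ) :
    (act g)^[t] (c • F) = c • (act g)^[t] F := by
  induction t with
  | zero => rfl
  | succ t ih =>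
    rw [Function.iterate_succ_apply', Function.iterate_succ_apply', ih]
    exact map_smul (actL g) c _

theorem surj_pow (hA : ∀ γ, ‖A γ‖ = 1) (hn : j ≤ n) (hd : ∀ a, 0 < d a) (hl : l ∉ B)
    (hGE : ∀ (U : Finset (Fin j)) (Ω : Finset (Finset (Fin j))),
      (∀ π ∈ Ω, π ⊆ U ∧ π.card = d l) → (∀ π ∈ Ω, ∀ ρ ∈ Ω, π ≠ ρ → Disjoint π ρ) →
      ∀ u ∈ AlU d (insert l B) U, Em A u * G (ini d (insert l B) l U Ω) =
        if u ∈ (ini d (insert l B) l U Ω).2 then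
          G (res Adj u (ini d (insert l B) l U Ω)) * Em A u else 0)
    (hGψ : ∀ U : Finset (Fin j), ∃ μ : ℝ, 1 ≤ μ ∧ ∀ (V : Finset (Fin j))
      (w : (Fin j → Fin n) → ℂ) (ξ : Finset (Fin n) → ℂ), Dep V w → Disjoint V U →
      (∀ a ∈ insert l B, act (gf d A a) ξ = 0) →
      G (ini d (insert l B) l U ∅) *ᵥ (w * lift U ξ) = (μ : ℂ) • (w * lift U ξ))
    (N : ℕ) (hN : N ≤ j) (t : ℕ) (ht : t * d l ≤ N) (ξ : Finset (Fin n) → ℂ)
    (hξ : ξ ∈ WF (N - t * d l) d (insert l B) fun p => star (A p)) :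
    ∃ F ∈ WF N d B fun p => star (A p), (act (gf d A l))^[t] F = ξ := by
  obtain ⟨U, -, hU⟩ := exists_subset_card_eq (s := (univ : Finset (Fin j))) (n := N) (by simpa)
  obtain ⟨Ω, h1, h2, h3, h4⟩ := bsurf_fam (hd l) t U (by omega)
  rw [hU] at h4
  obtain ⟨μ, hμ, hG⟩ := hGψ (U \ Ω.biUnion id)
  obtain ⟨ν, hν, hE⟩ := Av_end hA hn l (U \ Ω.biUnion id) Ω
  obtain ⟨hξ1, hξ2⟩ := mem_W.1 hξ
  have hfix : ∀ π ∈ Ω, Em A (some l, π) *ᵥ ((∏ ρ ∈ Ω, fl A l ρ) * lift (U \ Ω.biUnion id) ξ) =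
      (∏ ρ ∈ Ω, fl A l ρ) * lift (U \ Ω.biUnion id) ξ := fun π hπ => by
    rw [← mul_prod_erase Ω _ hπ, mul_assoc]
    refine E_fix hA hn l (V := πᶜ) (bsurf_dep_mul (bsurf_dep_prod _ fun ρ hρ => ?_) ?_)
      disjoint_compl_left
    · refine bsurf_dep_fl A l fun x hx => mem_compl.2 ?_
      exact disjoint_left.1 (h3 ρ (mem_of_mem_erase hρ) π hπ (ne_of_mem_erase hρ)) hx
    · refine bsurf_dep_lift ξ fun x hx => mem_compl.2 fun hx' => ?_
      exact (mem_sdiff.1 hx).2 (mem_biUnion.2 ⟨π, hπ, hx'⟩)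
  have hpow := Av_pow hA hn hd hGE ((∏ ρ ∈ Ω, fl A l ρ) * lift (U \ Ω.biUnion id) ξ) t U ∅ Ω 1
    h1 h2 h3 (fun _ _ _ => rfl) (disjoint_empty_left _) hfix
  have hdep : Dep (Ω.biUnion id) (∏ ρ ∈ Ω, fl A l ρ) :=
    bsurf_dep_prod _ fun ρ hρ => bsurf_dep_fl A l fun x hx => mem_biUnion.2 ⟨ρ, hρ, hx⟩
  rw [one_mul, hG _ _ ξ hdep disjoint_sdiff hξ2, bsurf_Av_smul,
    hE ξ (fun S hS => hξ1 S (by rwa [h4] at hS)), smul_smul, smul_smul] at hpow
  have hm := Av_mem hA hn hl hGE U Ω h2 h3 ((∏ ρ ∈ Ω, fl A l ρ) * lift (U \ Ω.biUnion id) ξ)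
  rw [hU] at hm
  have hc : ((t.factorial : ℂ) * (μ : ℂ) * (ν : ℂ)) ≠ 0 := by
    refine mul_ne_zero (mul_ne_zero ?_ ?_) ?_
    · exact_mod_cast t.factorial_ne_zero
    · exact_mod_cast (show μ ≠ 0 by linarith)
    · exact_mod_cast hν.ne'
  refine ⟨_, Submodule.smul_mem _ ((t.factorial : ℂ) * (μ : ℂ) * (ν : ℂ))⁻¹ hm, ?_⟩
  rw [bsurf_iter, hpow, smul_smul, inv_mul_cancel₀ hc, one_smul]

end Pool.Agent.P.MP_3acc10_al.Bld
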