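import Pool.Agent.P.MP_3acc10_al.BDefs

set_option autoImplicit false

namespace Pool.Agent.P.MP_3acc10_al.Bld

open Finset Module Matrix

variable {n j : ℕ} {ι : Type} [Fintype ι] [DecidableEq ι]

omit [Fintype ι] [DecidableEq ι] in
lemma bsurg_act_mem (d : ι → ℕ) (x : ι × Finset (Fin n) → ℂ) (B : Finset ι) (l : ι) {i : ℕ}
    (hi : d l ≤ i) {F : Finset (Fin n) → ℂ} (hF : F ∈ WF i d B x) :
    act (mask (fun i Y => Y.card = d i) x l) F ∈ WF (i - d l) d B x :=
  ⟨fun T hT => act_mask_supp x l hF.1 T (by omega), fun a ha => by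
    rw [act_comm, hF.2 a ha, act_zero]⟩

omit [Fintype ι] [DecidableEq ι] in
lemma bsurg_iter_mem (d : ι → ℕ) (x : ι × Finset (Fin n) → ℂ) (B : Finset ι) (l : ι) {N : ℕ}
    {F : Finset (Fin n) → ℂ} (hF : F ∈ WF N d B x) (m : ℕ) (hm : m * d l ≤ N) :
    (act (mask (fun i Y => Y.card = d i) x l))^[m] F ∈ WF (N - m * d l) d B x := by
  induction m with
  | zero => simpa using hF
  | succ m ih =>
    rw [Nat.succ_mul] at hm
    have := bsurg_act_mem d x B l (i := N - m * d l) (by omega) (ih (by omega))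
    rw [Function.iterate_succ_apply', Nat.succ_mul, Nat.sub_add_eq]
    exact this

lemma bsurg_iter_add (g F F' : Finset (Fin n) → ℂ) (m : ℕ) :
    (act g)^[m] (F + F') = (act g)^[m] F + (act g)^[m] F' := by
  induction m with
  | zero => rfl
  | succ m ih =>
    simp only [Function.iterate_succ_apply', ih]
    exact map_add (actL g) _ _

omit [Fintype ι] in
lemma bsurg_surj (d : ι → ℕ) (x : ι × Finset (Fin n) → ℂ) (B : Finset ι) (l : ι)
    (hd : 0 < d l) (N : ℕ)
    (h : ∀ t, 0 < t → t * d l ≤ N → ∀ ξ ∈ WF (N - t * d l) d (insert l B) x,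
      ∃ F ∈ WF N d B x, (act (mask (fun i Y => Y.card = d i) x l))^[t] F = ξ) (k : ℕ) :
    ∀ m, 0 < m → m * d l ≤ N → N - m * d l < k → ∀ v ∈ WF (N - m * d l) d B x,
      ∃ F ∈ WF N d B x, (act (mask (fun i Y => Y.card = d i) x l))^[m] F = v := by
  induction k with
  | zero => intro m _ _ hk; omega
  | succ k ih =>
    intro m hm hmN hk v hv
    have ins : ∀ w ∈ WF (N - m * d l) d B x, act (mask (fun i Y => Y.card = d i) x l) w = 0 →
        w ∈ WF (N - m * d l) d (insert l B) x := fun w hw h0 =>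
      ⟨hw.1, fun a ha => by
        rcases mem_insert.1 ha with rfl | ha
        · exact h0
        · exact hw.2 a ha⟩
    by_cases hc : (m + 1) * d l ≤ N
    · have hc' := hc
      rw [Nat.succ_mul] at hc'
      have h1 := bsurg_act_mem d x B l (i := N - m * d l) (by omega) hv
      rw [← Nat.sub_add_eq, ← Nat.succ_mul] at h1
      obtain ⟨u, hu, e⟩ := ih (m + 1) (by omega) hc (by rw [Nat.succ_mul]; omega) _ h1
      have h2 := bsurg_iter_mem d x B l hu m hmN
      rw [Function.iterate_succ_apply'] at e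
      have h3 := ins _ (sub_mem hv h2) (by
        have := map_sub (actL (mask (fun i Y => Y.card = d i) x l)) v
          ((act (mask (fun i Y => Y.card = d i) x l))^[m] u)
        simp only [actL_apply] at this
        rw [this, e, sub_self])
      obtain ⟨F, hF, e'⟩ := h m hm hmN _ h3
      exact ⟨F + u, add_mem hF hu, by rw [bsurg_iter_add, e', sub_add_cancel]⟩
    · rw [Nat.succ_mul] at hc
      exact h m hm hmN v (ins v hv (funext fun T => act_mask_supp x l hv.1 T (by omega)))

theorem rank_step (d : ι → ℕ) (x : ι × Finset (Fin n) → ℂ) (B : Finset ι) (l : ι)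
    (hd : 0 < d l) (N : ℕ)
    (h : ∀ t, 0 < t → t * d l ≤ N → ∀ ξ ∈ WF (N - t * d l) d (insert l B) x,
      ∃ F ∈ WF N d B x, (act (mask (fun i Y => Y.card = d i) x l))^[t] F = ξ) :
    finrank ℂ (WF N d B x) = finrank ℂ (WF N d (insert l B) x) +
      if d l ≤ N then finrank ℂ (WF (N - d l) d B x) else 0 := by
  refine le_antisymm (lower_step N d B l x) ?_
  let f := (actL (mask (fun i Y => Y.card = d i) x l)).domRestrict (WF N d B x)
  have h1 := LinearMap.finrank_range_add_finrank_ker f
  have h2 : finrank ℂ (WF N d (insert l B) x) ≤ finrank ℂ (LinearMap.ker f) := by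
    rw [← Submodule.finrank_map_subtype_eq]
    refine Submodule.finrank_mono ?_
    intro F hF
    exact ⟨⟨F, W_anti _ (subset_insert l B) _ hF⟩, hF.2 l (mem_insert_self _ _), rfl⟩
  have h3 : (if d l ≤ N then finrank ℂ (WF (N - d l) d B x) else 0) ≤
      finrank ℂ (LinearMap.range f) := by
    split_ifs with hN
    · refine Submodule.finrank_mono ?_
      intro G hG
      obtain ⟨F, hF, e⟩ := bsurg_surj d x B l hd N h (N + 1) 1 one_pos (by omega) (by omega) G
        (by rwa [one_mul])
      exact ⟨⟨F, hF⟩, e⟩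
    · exact Nat.zero_le _
  omega

end Pool.Agent.P.MP_3acc10_al.Bld
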