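import Pool.Agent.P.MP_3acc10_al.NDefs

set_option autoImplicit false

namespace Pool.Agent.P.MP_3acc10_al.Nak

open Module Finset

open scoped ComplexOrder in
theorem spec {Ω : Type} [Fintype Ω] [DecidableEq Ω] (Y : Matrix Ω Ω ℂ) (hY : Y.IsHermitian)
    (k : ℕ) (hk : 0 < k) (θ : ℝ) (hθ : 0 ≤ θ) (h : (Y ^ (2 * k)).trace.re ≤ θ ^ (2 * k))
    (ψ : Ω → ℂ) :
    -(θ * ∑ x, ‖ψ x‖ ^ 2) ≤ (∑ y, ∑ x, star (ψ y) * Y y x * ψ x).re := by
  set U : Matrix Ω Ω ℂ := (hY.eigenvectorUnitary : Matrix Ω Ω ℂ) with hU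
  set D : Matrix Ω Ω ℂ := Matrix.diagonal fun i => (hY.eigenvalues i : ℂ) with hD
  have h1 : star U * U = 1 := Unitary.coe_star_mul_self _
  have h2 : U * star U = 1 := Unitary.coe_mul_star_self _
  have hs : Y = U * D * star U := by
    have := hY.spectral_theorem
    rw [Unitary.conjStarAlgAut_apply] at this
    exact this
  have hp : ∀ m : ℕ, Y ^ m = U * D ^ m * star U := by
    intro m
    induction m with
    | zero => simp [h2]
    | succ m ih =>
      rw [pow_succ, ih, pow_succ]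
      conv_lhs => rw [hs]
      calc U * D ^ m * star U * (U * D * star U) = U * D ^ m * (star U * U) * D * star U := by
            simp only [Matrix.mul_assoc]
        _ = _ := by rw [h1]; simp only [Matrix.mul_one, Matrix.mul_assoc]
  have ht : (Y ^ (2 * k)).trace.re = ∑ i, hY.eigenvalues i ^ (2 * k) := by
    rw [hp, Matrix.trace_mul_comm, ← Matrix.mul_assoc, h1, Matrix.one_mul, hD,
      Matrix.diagonal_pow, Matrix.trace_diagonal, Complex.re_sum]
    refine sum_congr rfl fun i _ => ?_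
    rw [Pi.pow_apply, ← Complex.ofReal_pow, Complex.ofReal_re]
  have hl : ∀ i, 0 ≤ hY.eigenvalues i + θ := by
    intro i
    have h3 : hY.eigenvalues i ^ (2 * k) ≤ θ ^ (2 * k) := by
      refine le_trans ?_ (ht ▸ h)
      exact single_le_sum (f := fun i => hY.eigenvalues i ^ (2 * k))
        (fun i _ => by rw [pow_mul]; positivity) (mem_univ i)
    have h4 : |hY.eigenvalues i| ^ (2 * k) ≤ θ ^ (2 * k) := by
      rwa [Even.pow_abs (even_two_mul k)]
    have h5 := (pow_le_pow_iff_left₀ (abs_nonneg _) hθ (by omega)).1 h4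
    linarith [neg_abs_le (hY.eigenvalues i)]
  have hP : (Matrix.diagonal fun i => ((hY.eigenvalues i + θ : ℝ) : ℂ)).PosSemidef :=
    Matrix.PosSemidef.diagonal fun i => by
      show (0 : ℂ) ≤ ((hY.eigenvalues i + θ : ℝ) : ℂ)
      exact_mod_cast hl i
  have hQ := hP.mul_mul_conjTranspose_same U
  have e : U * (Matrix.diagonal fun i => ((hY.eigenvalues i + θ : ℝ) : ℂ)) * U.conjTranspose =
      Y + (θ : ℂ) • (1 : Matrix Ω Ω ℂ) := by
    have : (Matrix.diagonal fun i => ((hY.eigenvalues i + θ : ℝ) : ℂ)) =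
        D + (θ : ℂ) • (1 : Matrix Ω Ω ℂ) := by
      ext i i'
      by_cases hi : i = i' <;> simp [hD, hi]
    rw [this, Matrix.mul_add, Matrix.add_mul, ← Matrix.star_eq_conjTranspose, ← hs,
      Matrix.mul_smul, Matrix.mul_one, Matrix.smul_mul, h2]
  rw [e] at hQ
  have h6 := (Complex.nonneg_iff.1 (hQ.dotProduct_mulVec_nonneg ψ)).1
  have h7 : star ψ ⬝ᵥ (Y + (θ : ℂ) • (1 : Matrix Ω Ω ℂ)).mulVec ψ =
      (∑ y, ∑ x, star (ψ y) * Y y x * ψ x) + ((θ * ∑ x, ‖ψ x‖ ^ 2 : ℝ) : ℂ) := by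
    rw [Matrix.add_mulVec, dotProduct_add, Matrix.smul_mulVec, Matrix.one_mulVec, dotProduct_smul]
    congr 1
    · simp only [dotProduct, Matrix.mulVec, Pi.star_apply, mul_sum, mul_assoc]
    · push_cast
      rw [smul_eq_mul]
      congr 1
      refine sum_congr rfl fun x _ => ?_
      rw [Pi.star_apply, Complex.star_def, Complex.conj_mul']
  rw [h7, Complex.add_re, Complex.ofReal_re] at h6
  linarith

end Pool.Agent.P.MP_3acc10_al.Nak

namespace Pool.Agent.P.MP_3acc10_al.Nak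

open Module Finset

/-- a character of the group of phases -/
noncomputable def walkChi {Λ : Type} [Fintype Λ] (L : ℕ) [NeZero L] (c : Λ → ℤ)
    (s : Λ → ZMod L) : ℂ := ∏ γ, ZMod.stdAddChar ((c γ : ZMod L) * s γ)

lemma walk_one {Λ : Type} [Fintype Λ] [DecidableEq Λ] (L : ℕ) [NeZero L] (α : Λ)
    (s : Λ → ZMod L) :
    ∏ γ, ZMod.stdAddChar ((((Pi.single α 1 : Λ → ℤ) γ : ℤ) : ZMod L) * s γ) =
      ZMod.stdAddChar (s α) := by
  rw [prod_eq_single α]
  · simp
  · intro γ _ h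
    simp [Pi.single_eq_of_ne h]
  · simp

lemma walk_shift {Λ : Type} [Fintype Λ] [DecidableEq Λ] (L : ℕ) [NeZero L] (c : Λ → ℤ) (α β : Λ)
    (s : Λ → ZMod L) : walkChi L (c + Pi.single α 1 - Pi.single β 1) s =
      ZMod.stdAddChar (s α) * star (ZMod.stdAddChar (s β)) * walkChi L c s := by
  have h : star (ZMod.stdAddChar (s β)) = ZMod.stdAddChar ((-s) β) := by
    rw [Pi.neg_apply, AddChar.map_neg_eq_conj]; rfl
  rw [h, ← walk_one L α s, ← walk_one L β (-s), walkChi, walkChi, ← prod_mul_distrib,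
    ← prod_mul_distrib]
  refine prod_congr rfl fun γ _ => ?_
  rw [← AddChar.map_add_eq_mul, ← AddChar.map_add_eq_mul]
  congr 1
  simp only [Pi.sub_apply, Pi.add_apply, Pi.neg_apply]
  push_cast
  ring

lemma walk_orth {Λ : Type} [Fintype Λ] [DecidableEq Λ] (L : ℕ) [NeZero L] (c : Λ → ℤ)
    (hc : ∀ γ, |c γ| < L) (h : c ≠ 0) : ∑ s, walkChi L c s = 0 := by
  obtain ⟨γ, hγ⟩ := Function.ne_iff.1 h
  have h1 := prod_univ_sum (fun _ : Λ => (univ : Finset (ZMod L)))
    (fun γ t => ZMod.stdAddChar ((c γ : ZMod L) * t))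
  rw [Fintype.piFinset_univ] at h1
  unfold walkChi
  rw [← h1]
  refine prod_eq_zero (mem_univ γ) ?_
  have h2 : (c γ : ZMod L) ≠ 0 := by
    intro h3
    rw [ZMod.intCast_zmod_eq_zero_iff_dvd] at h3
    exact hγ (Int.eq_zero_of_abs_lt_dvd h3 (hc γ))
  have h3 := AddChar.sum_mulShift (c γ : ZMod L) (ZMod.isPrimitive_stdAddChar L)
  rw [if_neg h2] at h3
  simpa [mul_comm] using h3

lemma walk_abs {Λ : Type} [Fintype Λ] [DecidableEq Λ] (c : Λ → ℤ) (α β : Λ) :
    ∑ γ, |(c + Pi.single α 1 - Pi.single β 1 : Λ → ℤ) γ| ≤ ∑ γ, |c γ| + 2 := by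
  have h : ∀ a : Λ, ∑ γ, |(Pi.single a 1 : Λ → ℤ) γ| = 1 := by
    intro a
    rw [sum_eq_single a]
    · simp
    · intro γ _ h
      simp [Pi.single_eq_of_ne h]
    · simp
  calc _ ≤ ∑ γ, (|c γ| + |(Pi.single α 1 : Λ → ℤ) γ| + |(Pi.single β 1 : Λ → ℤ) γ|) := by
        refine sum_le_sum fun γ _ => ?_
        rw [Pi.sub_apply, Pi.add_apply]
        exact (abs_sub _ _).trans (add_le_add_left (abs_add_le _ _) _)
    _ = _ := by rw [sum_add_distrib, sum_add_distrib, h, h]; ring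

lemma walk_rec {Ω Λ : Type} [Fintype Ω] [DecidableEq Ω] [Fintype Λ] [DecidableEq Λ]
    (e : Ω → Λ → Λ → Ω → ℝ) (L : ℕ) [NeZero L] (k : ℕ) (y x : Ω) (c : Λ → ℤ) :
    ∑ s : Λ → ZMod L, (YM e (fun γ => ZMod.stdAddChar (s γ)) ^ (k + 1)) y x * walkChi L c s =
      ∑ α, ∑ β, ∑ z, (e x α β z : ℂ) * ∑ s : Λ → ZMod L,
        (YM e (fun γ => ZMod.stdAddChar (s γ)) ^ k) y z *
          walkChi L (c + Pi.single α 1 - Pi.single β 1) s := by
  have h : ∀ s : Λ → ZMod L,
      (YM e (fun γ => ZMod.stdAddChar (s γ)) ^ (k + 1)) y x * walkChi L c s =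
      ∑ α, ∑ β, ∑ z, (e x α β z : ℂ) * ((YM e (fun γ => ZMod.stdAddChar (s γ)) ^ k) y z *
          walkChi L (c + Pi.single α 1 - Pi.single β 1) s) := by
    intro s
    rw [pow_succ, Matrix.mul_apply]
    obtain ⟨P, hP⟩ : ∃ P, P = YM e (fun γ => ZMod.stdAddChar (s γ)) ^ k := ⟨_, rfl⟩
    rw [← hP]
    simp only [YM, Matrix.of_apply, mul_sum, sum_mul, walk_shift]
    rw [sum_comm]
    refine sum_congr rfl fun α _ => ?_
    rw [sum_comm]
    refine sum_congr rfl fun β _ => sum_congr rfl fun z _ => ?_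
    ring
  simp only [h, mul_sum]
  rw [sum_comm]
  refine sum_congr rfl fun α _ => ?_
  rw [sum_comm]
  refine sum_congr rfl fun β _ => ?_
  rw [sum_comm]

theorem walk {Ω Λ : Type} [Fintype Ω] [DecidableEq Ω] [Fintype Λ] [DecidableEq Λ]
    (e : Ω → Λ → Λ → Ω → ℝ) (S : Finset Ω) (hS : ∀ x ∉ S, ∀ α β y, e x α β y = 0)
    (Φ : (Λ → ℤ) → ℝ) (hΦ : ∀ c, 0 ≤ Φ c) (h0 : Φ 0 = 1) (p : ℕ) (hp : 0 < p) (θ : ℝ)
    (hθ : 0 ≤ θ)
    (hstep : ∀ x, ∀ c : Λ → ℤ, ∑ γ, |c γ| ≤ 2 * (p : ℤ) →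
      ∑ α, ∑ β, ∑ y, |e x α β y| * Φ (c + Pi.single α 1 - Pi.single β 1) ≤ θ * Φ c) :
    ∃ A : Λ → ℂ, (∀ γ, ‖A γ‖ = 1) ∧ ((YM e A) ^ p).trace.re ≤ S.card * θ ^ p := by
  obtain ⟨L, hL⟩ : ∃ L, L = 2 * p + 1 := ⟨_, rfl⟩
  have : NeZero L := ⟨by omega⟩
  obtain ⟨N, hN⟩ : ∃ N : ℝ, N = Fintype.card (Λ → ZMod L) := ⟨_, rfl⟩
  have hN0 : 0 ≤ N := by rw [hN]; positivity
  have c0 : ∀ s : Λ → ZMod L, walkChi L (0 : Λ → ℤ) s = 1 := fun s => by simp [walkChi]
  have key : ∀ (y : Ω) (k : ℕ) (x : Ω) (c : Λ → ℤ), ∑ γ, |c γ| + 2 * (k : ℤ) ≤ 2 * (p : ℤ) →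
      ‖∑ s : Λ → ZMod L, (YM e (fun γ => ZMod.stdAddChar (s γ)) ^ k) y x * walkChi L c s‖ ≤
        N * θ ^ k * Φ c := by
    intro y k
    induction k with
    | zero =>
      intro x c hc
      simp only [pow_zero, mul_one]
      rw [← mul_sum]
      by_cases h : c = 0
      · subst h
        simp only [c0, sum_const, card_univ, nsmul_eq_mul, mul_one, h0, norm_mul,
          Complex.norm_natCast, ← hN]
        refine mul_le_of_le_one_left hN0 ?_
        rw [Matrix.one_apply]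
        split_ifs <;> simp
      · rw [walk_orth L c (fun γ => ?_) h, mul_zero, norm_zero]
        · exact mul_nonneg hN0 (hΦ c)
        · have := single_le_sum (f := fun γ => |c γ|) (fun γ _ => abs_nonneg (c γ)) (mem_univ γ)
          rw [hL]; push_cast at hc ⊢; linarith
    | succ k ih =>
      intro x c hc
      rw [walk_rec]
      push_cast at hc
      have hk : (0 : ℤ) ≤ k := Int.natCast_nonneg k
      calc _ ≤ ∑ α, ∑ β, ∑ z, N * θ ^ k *
            (|e x α β z| * Φ (c + Pi.single α 1 - Pi.single β 1)) := by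
            refine (norm_sum_le _ _).trans (sum_le_sum fun α _ => (norm_sum_le _ _).trans
              (sum_le_sum fun β _ => (norm_sum_le _ _).trans (sum_le_sum fun z _ => ?_)))
            rw [norm_mul, Complex.norm_real, Real.norm_eq_abs, mul_left_comm]
            refine mul_le_mul_of_nonneg_left (ih z _ ?_) (abs_nonneg _)
            have := walk_abs c α β
            linarith
        _ ≤ N * θ ^ k * (θ * Φ c) := by
            simp only [← mul_sum]
            exact mul_le_mul_of_nonneg_left (hstep x c (by linarith)) (by positivity)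
        _ = _ := by ring
  have tot : ∑ s : Λ → ZMod L, (YM e (fun γ => ZMod.stdAddChar (s γ)) ^ p).trace.re ≤
      ∑ _s : Λ → ZMod L, (S.card : ℝ) * θ ^ p := by
    rw [← Complex.re_sum, sum_const, card_univ, nsmul_eq_mul, ← hN]
    simp only [Matrix.trace, Matrix.diag_apply]
    rw [sum_comm, ← sum_subset (subset_univ S)]
    · refine (Complex.re_le_norm _).trans ((norm_sum_le _ _).trans ?_)
      calc _ ≤ ∑ _x ∈ S, N * θ ^ p := by
            refine sum_le_sum fun x _ => ?_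
            have := key x p x 0 (by simp)
            simpa only [c0, mul_one, h0] using this
        _ = _ := by rw [sum_const, nsmul_eq_mul]; ring
    · intro x _ hx
      obtain ⟨k, rfl⟩ : ∃ k, p = k + 1 := ⟨p - 1, by omega⟩
      have := walk_rec e L k x x 0
      simpa only [c0, mul_one, hS x hx, Complex.ofReal_zero, zero_mul, sum_const_zero] using this
  obtain ⟨s, -, hs⟩ := exists_le_of_sum_le univ_nonempty tot
  exact ⟨_, fun γ => AddChar.norm_apply _ _, hs⟩

end Pool.Agent.P.MP_3acc10_al.Nak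

namespace Pool.Agent.P.MP_3acc10_al.Nak

open Module Finset

variable {n : ℕ} {ι : Type} [Fintype ι] [DecidableEq ι]

theorem param_sum (n j : ℕ) {x : ℝ} (hx : 0 < x) (hx1 : x ≤ 1) :
    ((∑ m ∈ range (j + 1), n.choose m : ℕ) : ℝ) ≤ Real.exp (x * n + j / x) := by
  have h1 : ((∑ m ∈ range (j + 1), n.choose m : ℕ) : ℝ) * x ^ j ≤ (x + 1) ^ n := by
    rw [add_pow, Nat.cast_sum, sum_mul]
    calc ∑ m ∈ range (j + 1), (n.choose m : ℝ) * x ^ j
        ≤ ∑ m ∈ range (j + 1), x ^ m * 1 ^ (n - m) * (n.choose m : ℝ) := by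
          refine sum_le_sum fun m hm => ?_
          rw [one_pow, mul_one, mul_comm]
          gcongr ?_ * _
          exact pow_le_pow_of_le_one hx.le hx1 (Nat.lt_succ_iff.1 (mem_range.1 hm))
      _ ≤ ∑ m ∈ range (j + 1) ∪ range (n + 1), x ^ m * 1 ^ (n - m) * (n.choose m : ℝ) :=
          sum_le_sum_of_subset_of_nonneg subset_union_left fun _ _ _ => by positivity
      _ = _ := by
          refine (sum_subset subset_union_right fun m _ hm => ?_).symm
          rw [Nat.choose_eq_zero_of_lt (by simpa using hm), Nat.cast_zero, mul_zero]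
  have h2 : (x + 1) ^ n ≤ Real.exp (x * n) := by
    rw [mul_comm, Real.exp_nat_mul]
    gcongr
    exact Real.add_one_le_exp x
  have h3 : 1 ≤ Real.exp (j / x) * x ^ j := by
    rw [div_eq_mul_inv, Real.exp_nat_mul, ← mul_pow]
    refine one_le_pow₀ ?_
    have := Real.add_one_le_exp x⁻¹
    have h4 : x⁻¹ * x = 1 := inv_mul_cancel₀ hx.ne'
    nlinarith
  refine le_of_mul_le_mul_right ?_ (pow_pos hx j)
  rw [Real.exp_add, mul_assoc]
  exact h1.trans (h2.trans (le_mul_of_one_le_right (Real.exp_pos _).le h3))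

theorem param_aux (D : ℕ) {η : ℝ} (hη : 0 < η) (hη1 : η ≤ 1) :
    ∃ c : ℝ, 0 < c ∧ ∀ n j : ℕ, 0 < j → (j : ℝ) ≤ c * n →
    ∃ k : ℕ, 0 < k ∧ (k : ℝ) ≤ η * n ∧ n ^ D * ∑ m ∈ range (j + 1), n.choose m ≤ 4 ^ k := by
  set y : ℝ := η / (16 * (D + 1)) with hy
  have hy0 : 0 < y := by positivity
  have hD : (0 : ℝ) ≤ D := Nat.cast_nonneg D
  have hyη : y * (16 * (D + 1)) = η := by rw [hy]; field_simp
  refine ⟨y ^ 2, by positivity, fun n j hj hjn => ?_⟩
  have hj1 : (1 : ℝ) ≤ j := by exact_mod_cast hj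
  have hn0 : (0 : ℝ) ≤ n := Nat.cast_nonneg n
  set s := Real.sqrt n with hs
  have hs0 : 0 ≤ s := Real.sqrt_nonneg _
  have hss : s * s = n := Real.mul_self_sqrt hn0
  have hys : 1 ≤ y * s := by
    by_contra h
    push Not at h
    have : (y * s) * (y * s) < 1 := by nlinarith [mul_nonneg hy0.le hs0]
    nlinarith
  have hy16 : 16 * y ≤ η := by nlinarith
  have hs1 : 1 ≤ s := by nlinarith
  have hnpos : (0 : ℝ) < n := by nlinarith
  have hηs : 16 * (D + 1) ≤ η * s := by rw [← hyη]; nlinarith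
  have hηn : 16 * (D + 1) * s ≤ η * n := by rw [← hss]; nlinarith
  have hη2 : 2 ≤ η * n := by nlinarith
  have hk := Nat.lt_floor_add_one (η * n)
  refine ⟨⌊η * n⌋₊, Nat.floor_pos.2 (by linarith), Nat.floor_le (by positivity), ?_⟩
  have h1 := param_sum n j (x := η / 8) (by positivity) (by linarith)
  have h2 : (n : ℝ) ^ D ≤ Real.exp (η * n / 8) := by
    have h3 : (n : ℝ) ≤ Real.exp (2 * s) := by
      rw [two_mul, Real.exp_add, ← hss]
      have := Real.add_one_le_exp s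
      nlinarith
    calc (n : ℝ) ^ D ≤ Real.exp (2 * s) ^ D := by gcongr
      _ = Real.exp (D * (2 * s)) := (Real.exp_nat_mul _ _).symm
      _ ≤ _ := by gcongr; nlinarith
  have h4 : (j : ℝ) / (η / 8) ≤ η * n / 8 := by
    rw [div_le_iff₀ (by positivity)]
    have : y ^ 2 ≤ (η / 8) ^ 2 := by gcongr; linarith
    nlinarith
  have h5 : Real.exp (⌊η * n⌋₊ : ℝ) ≤ 4 ^ ⌊η * n⌋₊ := by
    rw [← mul_one (⌊η * n⌋₊ : ℝ), Real.exp_nat_mul]
    gcongr
    exact (Real.exp_one_lt_d9.trans (by norm_num)).le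
  have h6 : ((n ^ D * ∑ m ∈ range (j + 1), n.choose m : ℕ) : ℝ) ≤ 4 ^ ⌊η * n⌋₊ := by
    rw [Nat.cast_mul, Nat.cast_pow]
    refine (mul_le_mul h2 h1 (by positivity) (by positivity)).trans (le_trans ?_ h5)
    rw [← Real.exp_add]
    gcongr
    linarith
  exact_mod_cast h6

theorem param (D : ℕ) {η : ℝ} (hη : 0 < η) : ∃ c : ℝ, 0 < c ∧ ∀ n j : ℕ, 0 < j → (j : ℝ) ≤ c * n →
    ∃ k : ℕ, 0 < k ∧ (k : ℝ) ≤ η * n ∧ n ^ D * ∑ m ∈ range (j + 1), n.choose m ≤ 4 ^ k := by
  obtain ⟨c, hc, h⟩ := param_aux D (lt_min hη one_pos) (min_le_right η 1)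
  refine ⟨c, hc, fun n j hj hjn => ?_⟩
  obtain ⟨k, h1, h2, h3⟩ := h n j hj hjn
  exact ⟨k, h1, h2.trans (mul_le_mul_of_nonneg_right (min_le_left _ _) (Nat.cast_nonneg n)), h3⟩

omit [DecidableEq ι] in
theorem card_states (hn : 0 < n) (d : ι → ℕ) (D j : ℕ) (hd : ∀ a, d a ≤ D) (hj : 0 < j)
    (hl : ld n d j ≤ 1) :
    (univ.filter fun x : ι × Finset (Fin n) => x.2.card + d x.1 ≤ j).card ≤
      n ^ D * ∑ m ∈ range (j + 1), n.choose m := by
  have hn1 : (1 : ℝ) ≤ n := by exact_mod_cast hn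
  have hj1 : (1 : ℝ) ≤ j := by exact_mod_cast hj
  have h1 : (univ.filter fun a => d a ≤ j).card ≤ n ^ D := by
    have h2 : ((univ.filter fun a => d a ≤ j).card : ℝ) * (1 / (n : ℝ) ^ D) ≤ 1 := by
      refine le_trans ?_ hl
      rw [← nsmul_eq_mul]
      refine card_nsmul_le_sum _ _ _ fun a _ => ?_
      exact div_le_div₀ (by positivity) (one_le_pow₀ hj1) (by positivity)
        (pow_le_pow_right₀ hn1 (hd a))
    rw [mul_one_div, div_le_one (by positivity)] at h2
    exact_mod_cast h2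
  have h3 : ((range (j + 1)).biUnion fun m => powersetCard m (univ : Finset (Fin n))).card ≤
      ∑ m ∈ range (j + 1), n.choose m :=
    card_biUnion_le.trans (le_of_eq (sum_congr rfl fun m _ => by simp))
  refine le_trans (card_le_card ?_) ((card_product _ _).le.trans (Nat.mul_le_mul h1 h3))
  intro x hx
  have hx' := (mem_filter.1 hx).2
  refine mem_product.2 ⟨mem_filter.2 ⟨mem_univ _, by omega⟩,
    mem_biUnion.2 ⟨x.2.card, mem_range.2 (by omega), ?_⟩⟩
  exact mem_powersetCard.2 ⟨subset_univ _, rfl⟩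

end Pool.Agent.P.MP_3acc10_al.Nak

namespace Pool.Agent.P.MP_3acc10_al.Nak

open Module Finset

/-- the geometric series in the `m`-th power of the variable -/
noncomputable def truncG (m : ℕ) : PowerSeries ℤ :=
  PowerSeries.mk fun i => if m ∣ i then 1 else 0

/-- nonnegative coefficients up to degree `j` -/
def truncNN (j : ℕ) (f : PowerSeries ℤ) : Prop := ∀ i ≤ j, 0 ≤ PowerSeries.coeff i f

lemma trunc_G_mul (m : ℕ) (hm : 0 < m) : truncG m * (1 - PowerSeries.X ^ m) = 1 := by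
  ext i
  rw [mul_sub, mul_one, map_sub, PowerSeries.coeff_mul_X_pow', PowerSeries.coeff_one]
  simp only [truncG, PowerSeries.coeff_mk]
  by_cases h : m ≤ i
  · have h0 : i ≠ 0 := by omega
    have h1 : m ∣ i - m ↔ m ∣ i := by
      constructor
      · intro h2
        have := dvd_add h2 (dvd_refl m)
        rwa [Nat.sub_add_cancel h] at this
      · intro h2
        exact Nat.dvd_sub h2 (dvd_refl m)
    rw [if_pos h, if_neg h0, if_congr h1 rfl rfl, sub_self]
  · rw [if_neg h, sub_zero]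
    refine if_congr ⟨fun h2 => ?_, fun h2 => by rw [h2]; exact dvd_zero m⟩ rfl rfl
    exact Nat.eq_zero_of_dvd_of_lt h2 (not_le.1 h)

lemma trunc_NN_mul {j : ℕ} {f g : PowerSeries ℤ} (hf : truncNN j f) (hg : truncNN j g) :
    truncNN j (f * g) := by
  intro i hi
  rw [PowerSeries.coeff_mul]
  refine sum_nonneg fun p hp => ?_
  have := mem_antidiagonal.1 hp
  exact mul_nonneg (hf _ (by omega)) (hg _ (by omega))

lemma trunc_NN_pow {j : ℕ} {f : PowerSeries ℤ} (hf : truncNN j f) (n : ℕ) :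
    truncNN j (f ^ n) := by
  induction n with
  | zero =>
    intro i _
    rw [pow_zero, PowerSeries.coeff_one]
    split_ifs <;> simp
  | succ n ih => rw [pow_succ]; exact trunc_NN_mul ih hf

lemma trunc_NN_G (j m : ℕ) : truncNN j (truncG m) := by
  intro i _
  simp only [truncG, PowerSeries.coeff_mk]
  split_ifs <;> simp

lemma trunc_core (n r e m : ℕ) (hjn : m + e + 1 ≤ n) (R S R1 : PowerSeries ℤ)
    (hS : S * (1 - PowerSeries.X) = R)
    (hd : PowerSeries.derivative ℤ R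
      = (n : ℤ) • S - ((r : ℤ) * (e + 1)) • (PowerSeries.X ^ e * R1))
    (hg : (∑ t ∈ range (e + 1), PowerSeries.X ^ t) * R1 = S)
    (hR : truncNN (m + e + 1) R) (hR1 : truncNN (m + e + 1) R1)
    (h0 : 0 < PowerSeries.coeff 0 R) :
    r * (m + e + 1) ^ e ≤ (2 * (e + 1)) ^ e * n ^ (e + 1) := by
  set s : ℕ → ℤ := fun i => PowerSeries.coeff i S with hs
  have s0 : s 0 = PowerSeries.coeff 0 R := by
    rw [← hS, mul_sub, mul_one, map_sub]
    simp [hs]
  have ss : ∀ i, s (i + 1) = s i + PowerSeries.coeff (i + 1) R := fun i => by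
    rw [← hS, mul_sub, mul_one, map_sub, PowerSeries.coeff_succ_mul_X]
    simp [hs]
  have smono : ∀ a b, a + b ≤ m + e + 1 → s a ≤ s (a + b) := fun a b => by
    induction b with
    | zero => intro _; exact le_rfl
    | succ b ih =>
      intro hb
      have h1 := ih (by omega)
      have h2 := hR (a + b + 1) (by omega)
      rw [← add_assoc, ss]
      linarith
  have spos : ∀ a, a ≤ m + e + 1 → 0 < s a := fun a ha => by
    have := smono 0 a (by omega)
    rw [zero_add] at this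
    linarith
  have hX : truncNN (m + e + 1) (PowerSeries.X ^ e * R1) := by
    intro i hi
    rw [PowerSeries.coeff_X_pow_mul']
    split_ifs
    · exact hR1 _ (by omega)
    · exact le_rfl
  have hre : (0 : ℤ) ≤ (r : ℤ) * (e + 1) := by positivity
  have step : ∀ i, i + 1 ≤ m + e + 1 → ((i : ℤ) + 1) * s (i + 1) ≤ 2 * n * s i := fun i hi => by
    have h1 := congrArg (PowerSeries.coeff i) hd
    rw [PowerSeries.coeff_derivative, map_sub, map_zsmul, map_zsmul, smul_eq_mul,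
      smul_eq_mul] at h1
    have h2 := mul_nonneg hre (hX i (by omega))
    have h3 := spos i (by omega)
    have h4 : ((i : ℤ) + 1) ≤ n := by exact_mod_cast le_trans hi hjn
    have h5 : ((i : ℤ) + 1) * s i ≤ n * s i := mul_le_mul_of_nonneg_right h4 h3.le
    have h6 : PowerSeries.coeff i S = s i := rfl
    rw [h6] at h1
    rw [ss]
    nlinarith
  have iter : ∀ t, t ≤ e →
      ((m : ℤ) + e + 1) ^ t * s (m + t) ≤ (2 * ((e : ℤ) + 1) * n) ^ t * s m := fun t => by
    induction t with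
    | zero => intro _; simp
    | succ t ih =>
      intro ht
      have h1 := ih (by omega)
      have h2 := step (m + t) (by omega)
      have h3 := spos (m + t + 1) (by omega)
      have h4 : ((m : ℤ) + e + 1) ≤ ((e : ℤ) + 1) * (((m + t : ℕ) : ℤ) + 1) := by
        push_cast
        have a1 : (0 : ℤ) ≤ m := by positivity
        have a2 : (0 : ℤ) ≤ e := by positivity
        have a3 : (0 : ℤ) ≤ t := by positivity
        nlinarith [mul_nonneg a1 a2, mul_nonneg a2 a3]
      have h5 : ((m : ℤ) + e + 1) * s (m + t + 1) ≤ 2 * ((e : ℤ) + 1) * n * s (m + t) := by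
        have a1 := mul_le_mul_of_nonneg_right h4 h3.le
        have a2 := mul_le_mul_of_nonneg_left h2 (show (0 : ℤ) ≤ (e : ℤ) + 1 by positivity)
        nlinarith
      have h6 : (0 : ℤ) ≤ ((m : ℤ) + e + 1) ^ t := by positivity
      have h7 : (0 : ℤ) ≤ 2 * ((e : ℤ) + 1) * n := by positivity
      calc ((m : ℤ) + e + 1) ^ (t + 1) * s (m + (t + 1))
          = ((m : ℤ) + e + 1) ^ t * (((m : ℤ) + e + 1) * s (m + t + 1)) := by
            rw [← add_assoc]; ring
        _ ≤ ((m : ℤ) + e + 1) ^ t * (2 * ((e : ℤ) + 1) * n * s (m + t)) :=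
            mul_le_mul_of_nonneg_left h5 h6
        _ = 2 * ((e : ℤ) + 1) * n * (((m : ℤ) + e + 1) ^ t * s (m + t)) := by ring
        _ ≤ 2 * ((e : ℤ) + 1) * n * ((2 * ((e : ℤ) + 1) * n) ^ t * s m) :=
            mul_le_mul_of_nonneg_left h1 h7
        _ = (2 * ((e : ℤ) + 1) * n) ^ (t + 1) * s m := by ring
  have hgN : truncNN (m + e) (∑ t ∈ range (e + 1), (PowerSeries.X : PowerSeries ℤ) ^ t) := by
    intro i _
    rw [map_sum]
    refine sum_nonneg fun t _ => ?_
    rw [PowerSeries.coeff_X_pow]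
    split_ifs <;> simp
  have hdN : truncNN (m + e) (PowerSeries.derivative ℤ R) := by
    intro i hi
    rw [PowerSeries.coeff_derivative]
    exact mul_nonneg (hR _ (by omega)) (by positivity)
  have key := trunc_NN_mul hgN hdN (m + e) le_rfl
  rw [hd, mul_sub, mul_smul_comm, mul_smul_comm, mul_left_comm, hg, map_sub, map_zsmul, map_zsmul,
    smul_eq_mul, smul_eq_mul, PowerSeries.coeff_X_pow_mul', if_pos (Nat.le_add_left e m),
    Nat.add_sub_cancel] at key
  have hgs : PowerSeries.coeff (m + e)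
      ((∑ t ∈ range (e + 1), (PowerSeries.X : PowerSeries ℤ) ^ t) * S)
      ≤ ((e : ℤ) + 1) * s (m + e) := by
    rw [sum_mul, map_sum]
    refine (sum_le_card_nsmul _ _ (s (m + e)) fun t ht => ?_).trans ?_
    · have ht' : t ≤ e := Nat.lt_succ_iff.1 (mem_range.1 ht)
      rw [PowerSeries.coeff_X_pow_mul', if_pos (by omega)]
      have := smono (m + e - t) t (by omega)
      rwa [Nat.sub_add_cancel (by omega)] at this
    · rw [card_range, nsmul_eq_mul]; push_cast; exact le_rfl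
  have h6 : PowerSeries.coeff m S = s m := rfl
  rw [h6] at key
  have k1 : (r : ℤ) * s m ≤ n * s (m + e) := by
    have a1 := mul_le_mul_of_nonneg_left hgs (show (0 : ℤ) ≤ n by positivity)
    have a2 : ((e : ℤ) + 1) * ((r : ℤ) * s m) ≤ ((e : ℤ) + 1) * (n * s (m + e)) := by nlinarith
    exact le_of_mul_le_mul_left a2 (by positivity)
  have k2 := iter e le_rfl
  have k3 : ((r : ℤ) * ((m : ℤ) + e + 1) ^ e) * s m
      ≤ ((2 * ((e : ℤ) + 1)) ^ e * (n : ℤ) ^ (e + 1)) * s m := by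
    calc ((r : ℤ) * ((m : ℤ) + e + 1) ^ e) * s m = ((m : ℤ) + e + 1) ^ e * (r * s m) := by ring
      _ ≤ ((m : ℤ) + e + 1) ^ e * (n * s (m + e)) :=
          mul_le_mul_of_nonneg_left k1 (by positivity)
      _ = n * (((m : ℤ) + e + 1) ^ e * s (m + e)) := by ring
      _ ≤ n * ((2 * ((e : ℤ) + 1) * n) ^ e * s m) :=
          mul_le_mul_of_nonneg_left k2 (by positivity)
      _ = ((2 * ((e : ℤ) + 1)) ^ e * (n : ℤ) ^ (e + 1)) * s m := by rw [mul_pow]; ring
  have k4 := le_of_mul_le_mul_right k3 (spos m (by omega))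
  exact_mod_cast k4

theorem trunc_le (n r e j : ℕ) (he : 0 < e) (hej : e ≤ j) (hjn : j ≤ n)
    (h : ∀ i ≤ j, 0 < (((1 + Polynomial.X) ^ n * (1 - Polynomial.X ^ e) ^ r :
      Polynomial ℤ)).coeff i) :
    r * j ^ (e - 1) ≤ (2 * e) ^ (e - 1) * n ^ e := by
  rcases r with _ | r
  · simp
  obtain ⟨e, rfl⟩ : ∃ e', e = e' + 1 := ⟨e - 1, by omega⟩
  obtain ⟨m, rfl⟩ : ∃ m, j = m + e + 1 := ⟨j - (e + 1), by omega⟩
  obtain ⟨n, rfl⟩ : ∃ n', n = n' + 1 := ⟨n - 1, by omega⟩
  rw [Nat.add_sub_cancel]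
  set u := truncG 1 with hu
  have u1 : u * (1 - PowerSeries.X) = 1 := by
    have := trunc_G_mul 1 one_pos
    rwa [pow_one] at this
  have u2 : (1 + PowerSeries.X) * truncG 2 = u := by
    have := trunc_G_mul 2 two_pos
    linear_combination u * this - (1 + PowerSeries.X) * truncG 2 * u1
  have ue := trunc_G_mul (e + 1) he
  have du : PowerSeries.derivative ℤ u = u * u := by
    have h1 := congrArg (PowerSeries.derivative ℤ) u1
    rw [Derivation.leibniz, map_sub, PowerSeries.derivative_one, PowerSeries.derivative_X,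
      smul_eq_mul, smul_eq_mul] at h1
    linear_combination u * h1 - PowerSeries.derivative ℤ u * u1
  set w : PowerSeries ℤ := 1 - PowerSeries.X ^ (e + 1) with hw
  have dw : PowerSeries.derivative ℤ w = -(((e : ℤ) + 1) • PowerSeries.X ^ e) := by
    rw [hw, map_sub, PowerSeries.derivative_one, PowerSeries.derivative_pow,
      PowerSeries.derivative_X, Nat.add_sub_cancel]
    simp
  have hP : truncNN (m + e + 1) ((1 + PowerSeries.X) ^ (n + 1) * w ^ (r + 1)) := by
    intro i hi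
    have := (h i hi).le
    rw [← Polynomial.coeff_coe] at this
    simpa [hw] using this
  have hR : truncNN (m + e + 1) (u ^ (n + 1) * w ^ (r + 1)) := by
    have := trunc_NN_mul hP (trunc_NN_pow (trunc_NN_G (m + e + 1) 2) (n + 1))
    rwa [mul_right_comm, ← mul_pow, u2] at this
  have hR1 : truncNN (m + e + 1) (u ^ (n + 1) * w ^ r) := by
    have := trunc_NN_mul hR (trunc_NN_G (m + e + 1) (e + 1))
    rwa [pow_succ w, mul_assoc, mul_assoc, mul_comm w, ue, mul_one] at this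
  refine trunc_core (n + 1) (r + 1) e m hjn (u ^ (n + 1) * w ^ (r + 1))
    (u * (u ^ (n + 1) * w ^ (r + 1))) (u ^ (n + 1) * w ^ r) ?_ ?_ ?_ hR hR1 ?_
  · linear_combination (u ^ (n + 1) * w ^ (r + 1)) * u1
  · rw [Derivation.leibniz, PowerSeries.derivative_pow, PowerSeries.derivative_pow, du, dw]
    simp only [Nat.add_sub_cancel, smul_eq_mul, zsmul_eq_mul]
    push_cast
    ring
  · have hg : (∑ t ∈ range (e + 1), (PowerSeries.X : PowerSeries ℤ) ^ t) * (1 - PowerSeries.X)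
        = w := geom_sum_mul_neg _ _
    linear_combination (u ^ (n + 1) * w ^ r) * u * hg
      - (∑ t ∈ range (e + 1), (PowerSeries.X : PowerSeries ℤ) ^ t) * (u ^ (n + 1) * w ^ r) * u1
  · simp [hu, hw, truncG, PowerSeries.coeff_zero_eq_constantCoeff]

end Pool.Agent.P.MP_3acc10_al.Nak
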