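import Pool.Agent.P.MP_3acc10_al.BDefs
import Pool.Agent.P.MP_3acc10_al.NA

set_option autoImplicit false

namespace Pool.Agent.P.MP_3acc10_al.Bld

open Finset Module Matrix

lemma bwalk_rec {S L X Λ : Type} [DecidableEq S] [Fintype X] [DecidableEq X] [Fintype Λ]
    (al : S → Finset L) (up : S → L → S) (k : L → X → X → ℝ) (dl : L → X → X → Λ → ℤ)
    {A : Λ → ℂ} (hA : ∀ γ, ‖A γ‖ = 1) (m : ℕ) (σ σ' : S) (y x : X) (c : Λ → ℤ) :
    BB al up (Tg k dl A) (m + 1) σ σ' y x * chi A c = ∑ t ∈ al σ, ∑ z, (-(k t x z : ℂ)) *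
      (BB al up (Tg k dl A) m (up σ t) σ' y z * chi A (c + dl t x z)) := by
  rw [BB_succ, Matrix.sum_apply, sum_mul]
  refine sum_congr rfl fun t _ => ?_
  rw [Matrix.mul_apply, sum_mul]
  refine sum_congr rfl fun z _ => ?_
  rw [chi_add hA]
  simp only [Tg, Matrix.of_apply]
  ring

lemma bwalk_norm {Ω L X : Type} [Fintype Ω] [Fintype X] (T : Finset L) (a : L → X → ℝ)
    (f : L → X → Ω → ℂ) :
    ‖∑ s, ∑ t ∈ T, ∑ z, (-(a t z : ℂ)) * f t z s‖ ≤ ∑ t ∈ T, ∑ z, |a t z| * ‖∑ s, f t z s‖ := by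
  rw [sum_comm]
  refine (norm_sum_le _ _).trans (sum_le_sum fun t _ => ?_)
  rw [sum_comm]
  refine (norm_sum_le _ _).trans (sum_le_sum fun z _ => le_of_eq ?_)
  rw [← mul_sum, norm_mul, norm_neg, Complex.norm_real, Real.norm_eq_abs]

lemma bwalk_ind {S L X Λ : Type} [Fintype X] [Fintype Λ] (Q : Finset S) (al : S → Finset L)
    (up : S → L → S) (hQ : ∀ σ ∈ Q, ∀ t ∈ al σ, up σ t ∈ Q) (k : L → X → X → ℝ)
    (dl : L → X → X → Λ → ℤ) (hdl : ∀ t x y, ∑ γ, |dl t x y γ| ≤ 2) (Gd : X → (Λ → ℤ) → Prop)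
    (Ψ : X → S → (Λ → ℤ) → ℝ) (B : ℤ) (θ C : ℝ) (hθ : 0 ≤ θ) (hC : 0 ≤ C)
    (P1 : ∀ x, ∀ σ ∈ Q, ∀ c, Gd x c → ∑ γ, |c γ| ≤ B →
      ∑ t ∈ al σ, ∑ y, |k t x y| * Ψ y (up σ t) (c + dl t x y) ≤ θ * Ψ x σ c)
    (P2 : ∀ x c t y, Gd x c → k t x y ≠ 0 → Gd y (c + dl t x y))
    (W : ℕ → S → X → (Λ → ℤ) → ℝ)
    (hr : ∀ m σ x c, W (m + 1) σ x c ≤
      ∑ t ∈ al σ, ∑ z, |k t x z| * W m (up σ t) z (c + dl t x z))
    (h0 : ∀ σ ∈ Q, ∀ x c, Gd x c → ∑ γ, |c γ| ≤ B → W 0 σ x c ≤ C * Ψ x σ c) (m : ℕ) :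
    ∀ σ ∈ Q, ∀ x c, Gd x c → ∑ γ, |c γ| + 2 * (m : ℤ) ≤ B → W m σ x c ≤ C * θ ^ m * Ψ x σ c := by
  induction m with
  | zero =>
    intro σ hσ x c hg hc
    rw [pow_zero, mul_one]
    exact h0 σ hσ x c hg (by simpa using hc)
  | succ m ih =>
    intro σ hσ x c hg hc
    push_cast at hc
    have hm : (0 : ℤ) ≤ m := Int.natCast_nonneg m
    have hCm : 0 ≤ C * θ ^ m := by positivity
    calc _ ≤ _ := hr m σ x c
      _ ≤ ∑ t ∈ al σ, ∑ z, C * θ ^ m * (|k t x z| * Ψ z (up σ t) (c + dl t x z)) := by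
        refine sum_le_sum fun t ht => sum_le_sum fun z _ => ?_
        by_cases hk : k t x z = 0
        · simp [hk]
        · rw [mul_left_comm]
          refine mul_le_mul_of_nonneg_left
            (ih _ (hQ σ hσ t ht) z _ (P2 x c t z hg hk) ?_) (abs_nonneg _)
          have h1 : ∑ γ, |(c + dl t x z) γ| ≤ ∑ γ, |c γ| + ∑ γ, |dl t x z γ| := by
            rw [← sum_add_distrib]
            exact sum_le_sum fun γ _ => abs_add_le _ _
          linarith [hdl t x z]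
      _ = C * θ ^ m * ∑ t ∈ al σ, ∑ z, |k t x z| * Ψ z (up σ t) (c + dl t x z) := by
        simp only [mul_sum]
      _ ≤ C * θ ^ m * (θ * Ψ x σ c) :=
        mul_le_mul_of_nonneg_left (P1 x σ hσ c hg (by linarith)) hCm
      _ = _ := by ring

lemma bwalk_chi {Λ : Type} [Fintype Λ] (L : ℕ) [NeZero L] (c : Λ → ℤ) (s : Λ → ZMod L) :
    chi (fun γ => ZMod.stdAddChar (s γ)) c = Nak.walkChi L c s := by
  refine prod_congr rfl fun γ _ => ?_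
  rw [← AddChar.map_zsmul_eq_zpow, zsmul_eq_mul]

theorem walk2 {S L X Λ : Type} [DecidableEq S] [Fintype X] [DecidableEq X] [Fintype Λ]
    [DecidableEq Λ] (Q : Finset S) (al : S → Finset L) (up : S → L → S)
    (hQ : ∀ σ ∈ Q, ∀ t ∈ al σ, up σ t ∈ Q) (k : L → X → X → ℝ) (dl : L → X → X → Λ → ℤ)
    (hdl : ∀ t x y, ∑ γ, |dl t x y γ| ≤ 2) (Gd : X → X → (Λ → ℤ) → Prop)
    (Ψ : X → X → S → (Λ → ℤ) → ℝ) (hΨ : ∀ x0 x σ c, 0 ≤ Ψ x0 x σ c) (ℓ : ℕ) (θ R : ℝ)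
    (hθ : 0 ≤ θ) (hR : 0 ≤ R) (P0 : ∀ x, Gd x x 0)
    (P1 : ∀ x0 x, ∀ σ ∈ Q, ∀ c, Gd x0 x c → ∑ γ, |c γ| ≤ ((4 * ℓ : ℕ) : ℤ) →
      ∑ t ∈ al σ, ∑ y, |k t x y| * Ψ x0 y (up σ t) (c + dl t x y) ≤ θ * Ψ x0 x σ c)
    (P2 : ∀ x0 x c t y, Gd x0 x c → k t x y ≠ 0 → Gd x0 y (c + dl t x y))
    (P3 : ∀ x0 x c, Gd x0 x c → Gd x x0 (-c) ∧ ∀ σ σ', Ψ x x0 σ (-c) ≤ R * Ψ x0 x σ' c)
    (P4 : ∀ x σ, 1 ≤ R * Ψ x x σ 0) (P5 : ∀ x σ, Ψ x x σ 0 ≤ R) :
    ∃ A : Λ → ℂ, (∀ γ, ‖A γ‖ = 1) ∧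
      ∑ σ ∈ Q, ∑ σ' ∈ Q, ∑ y, ∑ x, ‖BB al up (Tg k dl A) ℓ σ σ' y x‖ ^ 2 ≤
        Q.card * Fintype.card X * R ^ 3 * θ ^ (2 * ℓ) := by
  obtain ⟨M, hM⟩ : ∃ M, M = 4 * ℓ + 1 := ⟨_, rfl⟩
  have : NeZero M := ⟨by omega⟩
  obtain ⟨A, hAe⟩ : ∃ A : (Λ → ZMod M) → Λ → ℂ, A = fun s γ => ZMod.stdAddChar (s γ) := ⟨_, rfl⟩
  have hA : ∀ s γ, ‖A s γ‖ = 1 := fun s γ => by
    rw [hAe]
    exact AddChar.norm_apply _ _
  have orth : ∀ c : Λ → ℤ, ∑ γ, |c γ| ≤ ((4 * ℓ : ℕ) : ℤ) → c ≠ 0 → ∑ s, chi (A s) c = 0 := by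
    intro c hc h
    simp only [hAe, bwalk_chi]
    refine Nak.walk_orth M c (fun γ => ?_) h
    have := single_le_sum (f := fun γ => |c γ|) (fun γ _ => abs_nonneg (c γ)) (mem_univ γ)
    rw [hM]
    push_cast at hc ⊢
    linarith
  obtain ⟨N, hN⟩ : ∃ N : ℝ, N = Fintype.card (Λ → ZMod M) := ⟨_, rfl⟩
  have hN0 : 0 ≤ N := by rw [hN]; positivity
  have one : ∀ (y : X) (σ' : S) (m : ℕ), ∀ σ ∈ Q, ∀ x c, Gd y x c →
      ∑ γ, |c γ| + 2 * (m : ℤ) ≤ ((4 * ℓ : ℕ) : ℤ) →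
      ‖∑ s, BB al up (Tg k dl (A s)) m σ σ' y x * chi (A s) c‖ ≤ N * R * θ ^ m * Ψ y x σ c := by
    intro y σ'
    refine bwalk_ind Q al up hQ k dl hdl (Gd y) (Ψ y) _ θ (N * R) hθ (mul_nonneg hN0 hR) (P1 y)
      (P2 y) (fun m σ x c => ‖∑ s, BB al up (Tg k dl (A s)) m σ σ' y x * chi (A s) c‖)
      (fun m σ x c => ?_) fun σ _ x c _ hc => ?_
    · simp only [bwalk_rec al up k dl (hA _)]
      exact bwalk_norm _ _ _
    · have h1 : 0 ≤ N * R * Ψ y x σ c := mul_nonneg (mul_nonneg hN0 hR) (hΨ _ _ _ _)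
      simp only [BB_zero]
      rw [← mul_sum]
      by_cases h : c = 0
      · subst h
        by_cases h2 : σ = σ' ∧ y = x
        · obtain ⟨rfl, rfl⟩ := h2
          simp only [if_true, Matrix.one_apply_eq, one_mul, chi_zero, sum_const, card_univ,
            nsmul_eq_mul, mul_one, Complex.norm_natCast, ← hN]
          rw [mul_assoc]
          exact le_mul_of_one_le_right hN0 (P4 y σ)
        · have h3 : (if σ = σ' then (1 : Matrix X X ℂ) else 0) y x = 0 := by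
            split_ifs with h4
            · exact Matrix.one_apply_ne fun h5 => h2 ⟨h4, h5⟩
            · rfl
          rw [h3, zero_mul, norm_zero]
          exact h1
      · rw [orth c hc h, mul_zero, norm_zero]
        exact h1
  have two : ∀ σ₁ ∈ Q, ∀ (x₁ : X) (m : ℕ), ∀ σ ∈ Q, ∀ x c, Gd x₁ x c →
      ∑ γ, |c γ| + 2 * (m : ℤ) ≤ ((2 * ℓ : ℕ) : ℤ) →
      ∑ σ' ∈ Q, ∑ y, ‖∑ s, BB al up (Tg k dl (A s)) ℓ σ₁ σ' y x₁ *
        star (BB al up (Tg k dl (A s)) m σ σ' y x * chi (A s) c)‖ ≤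
        N * R ^ 2 * θ ^ ℓ * θ ^ m * Ψ x₁ x σ c := by
    intro σ₁ hσ₁ x₁
    refine bwalk_ind Q al up hQ k dl hdl (Gd x₁) (Ψ x₁) _ θ (N * R ^ 2 * θ ^ ℓ) hθ
      (by positivity) (fun x σ hσ c hg hc => P1 x₁ x σ hσ c hg (hc.trans (by push_cast; omega)))
      (P2 x₁) (fun m σ x c => ∑ σ' ∈ Q, ∑ y, ‖∑ s, BB al up (Tg k dl (A s)) ℓ σ₁ σ' y x₁ *
        star (BB al up (Tg k dl (A s)) m σ σ' y x * chi (A s) c)‖)
      (fun m σ x c => ?_) fun σ hσ x c hg hc => ?_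
    · calc _ ≤ ∑ σ' ∈ Q, ∑ y, ∑ t ∈ al σ, ∑ z, |k t x z| *
            ‖∑ s, BB al up (Tg k dl (A s)) ℓ σ₁ σ' y x₁ *
              star (BB al up (Tg k dl (A s)) m (up σ t) σ' y z * chi (A s) (c + dl t x z))‖ := by
            refine sum_le_sum fun σ' _ => sum_le_sum fun y _ => ?_
            refine le_of_eq_of_le ?_ (bwalk_norm (al σ) (fun t z => k t x z) _)
            congr 1
            refine sum_congr rfl fun s _ => ?_
            rw [bwalk_rec al up k dl (hA s), star_sum, mul_sum]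
            refine sum_congr rfl fun t _ => ?_
            rw [star_sum, mul_sum]
            refine sum_congr rfl fun z _ => ?_
            rw [star_mul', star_neg, Complex.star_def, Complex.conj_ofReal]
            ring
        _ = _ := by
            simp only [mul_sum]
            rw [sum_congr rfl fun σ' _ => sum_comm, sum_comm]
            refine sum_congr rfl fun t _ => ?_
            rw [sum_congr rfl fun σ' _ => sum_comm, sum_comm]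
    · have h1 := one x σ ℓ σ₁ hσ₁ x₁ (-c) (P3 x₁ x c hg).1 (by
        simp only [Pi.neg_apply, abs_neg]
        push_cast at hc ⊢
        linarith)
      rw [sum_eq_single σ (fun σ' _ h => ?_) (fun h => absurd hσ h),
        sum_eq_single x (fun y _ h => ?_) (fun h => absurd (mem_univ x) h)]
      · simp only [BB_zero, if_true, Matrix.one_apply_eq, one_mul, ← chi_neg (hA _)]
        refine h1.trans ?_
        calc _ ≤ N * R * θ ^ ℓ * (R * Ψ x₁ x σ c) :=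
              mul_le_mul_of_nonneg_left ((P3 x₁ x c hg).2 σ₁ σ) (by positivity)
          _ = _ := by ring
      · simp [BB_zero, Matrix.one_apply_ne h]
      · simp [BB_zero, h.symm]
  have fin : ∀ σ ∈ Q, ∀ x, ∑ σ' ∈ Q, ∑ y, ∑ s, ‖BB al up (Tg k dl (A s)) ℓ σ σ' y x‖ ^ 2 ≤
      N * (R ^ 3 * θ ^ (2 * ℓ)) := by
    intro σ hσ x
    have h1 := two σ hσ x ℓ σ hσ x 0 (P0 x) (by simp)
    calc _ = _ := by
          refine sum_congr rfl fun σ' _ => sum_congr rfl fun y _ => ?_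
          simp only [chi_zero, mul_one, Complex.star_def, Complex.mul_conj']
          rw [← Real.norm_of_nonneg (sum_nonneg fun s _ => sq_nonneg
            ‖BB al up (Tg k dl (A s)) ℓ σ σ' y x‖), ← Complex.norm_real]
          push_cast
          rfl
      _ ≤ _ := h1
      _ ≤ N * R ^ 2 * θ ^ ℓ * θ ^ ℓ * R := mul_le_mul_of_nonneg_left (P5 x σ) (by positivity)
      _ = _ := by ring
  obtain ⟨s, -, hs⟩ := exists_le_of_sum_le (s := (univ : Finset (Λ → ZMod M))) univ_nonempty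
    (f := fun s => ∑ σ ∈ Q, ∑ σ' ∈ Q, ∑ y, ∑ x, ‖BB al up (Tg k dl (A s)) ℓ σ σ' y x‖ ^ 2)
    (g := fun _ => (Q.card * Fintype.card X * R ^ 3 * θ ^ (2 * ℓ) : ℝ)) (by
      calc _ = ∑ σ ∈ Q, ∑ x, ∑ σ' ∈ Q, ∑ y, ∑ s,
            ‖BB al up (Tg k dl (A s)) ℓ σ σ' y x‖ ^ 2 := by
            rw [sum_comm]
            refine sum_congr rfl fun σ _ => ?_
            rw [sum_comm, sum_comm (s := (univ : Finset X))]
            refine sum_congr rfl fun σ' _ => ?_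
            rw [sum_comm, sum_comm (s := (univ : Finset X)) (t := (univ : Finset X))]
            exact sum_congr rfl fun y _ => sum_comm
        _ ≤ ∑ σ ∈ Q, ∑ x : X, N * (R ^ 3 * θ ^ (2 * ℓ)) :=
            sum_le_sum fun σ hσ => sum_le_sum fun x _ => fin σ hσ x
        _ = _ := by
            simp only [sum_const, card_univ, nsmul_eq_mul, ← hN]
            ring)
  exact ⟨A s, hA s, hs⟩

end Pool.Agent.P.MP_3acc10_al.Bld
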