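import Pool.Agent.P.MP_3acc10_al.BAlg1
import Pool.Agent.P.MP_3acc10_al.BAlg2
import Pool.Agent.P.MP_3acc10_al.BWalk
import Pool.Agent.P.MP_3acc10_al.BQc
import Pool.Agent.P.MP_3acc10_al.BOps2
import Pool.Agent.P.MP_3acc10_al.BSurF
import Pool.Agent.P.MP_3acc10_al.BSurG
import Pool.Agent.P.MP_3acc10_al.BGpsi
import Pool.Agent.P.MP_3acc10_al.BInd2
import Pool.Agent.P.MP_3acc10_al.BAr4
import Pool.Agent.P.MP_3acc10_al.BStep3
import Pool.Agent.P.MP_3acc10_al.BParam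
import Pool.Agent.P.MP_3acc10_al.BChain

set_option autoImplicit false

namespace Pool.Agent.P.MP_3acc10_al.Bld

open Finset Module Matrix

theorem core (j : ℕ) : ∃ k n0 : ℕ, ∀ (K : Type) [Field K] [CharZero K]
    (n : ℕ) (ι : Type) [Fintype ι] [DecidableEq ι] (d : ι → ℕ) (ε : ℝ), n0 ≤ n → 0 < ε → ε ≤ 1 →
    1 ≤ ε ^ k * n → (∀ a, 0 < d a) → (∀ i ≤ j, 0 < i → ε * (n : ℝ) ^ i ≤ al n d univ i) →
    Gen fun x : ι × Finset (Fin n) → K =>
      ∀ i ≤ j, (finrank K (WF i d univ x) : ℤ) = al n d univ i := by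
  obtain ⟨C, hC, har⟩ := arith j
  obtain ⟨k0, n2, hpar⟩ := param j hC
  refine ⟨k0, max n2 (j + 2), ?_⟩
  intro K _ _ n ι _ _ d ε hn hε hε1 hεk hd hal
  have hn2 : n2 ≤ n := (le_max_left _ _).trans hn
  have hnj : j + 2 ≤ n := (le_max_right _ _).trans hn
  obtain ⟨hCn, ℓ, μ, lam, hμ, hl, hθ, hlt⟩ := hpar n ε hn2 hε hε1 hεk
  replace har := har ε n ι d
  obtain ⟨δ, hδe⟩ : ∃ δ, δ = ε / 2 := ⟨_, rfl⟩
  obtain ⟨η0, hηe⟩ : ∃ η0, η0 = ε / C := ⟨_, rfl⟩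
  have hδ : 0 < δ := by rw [hδe]; positivity
  have hδ1 : δ ≤ 1 := by rw [hδe]; linarith
  have hη : 0 < η0 := by rw [hηe]; positivity
  have hη1 : η0 ≤ 1 := by rw [hηe, div_le_one (by linarith)]; linarith
  rw [← hδe, ← hηe] at hθ hlt har
  have hnr : (0 : ℝ) < n := by exact_mod_cast (show 0 < n by omega)
  obtain ⟨A0, hA0⟩ : ∃ A0 : Finset ι, ∀ a, a ∈ A0 ↔ d a ≤ j :=
    ⟨univ.filter fun a => d a ≤ j, by simp⟩
  have hlow : ∀ i ≤ j, al n d univ i = al n d A0 i := fun i hi =>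
    al_low n d A0 univ (subset_univ _) i fun a _ ha => by rw [hA0] at ha; omega
  have hpos : ∀ i ≤ j, 0 < al n d A0 i := by
    intro i hi
    rcases Nat.eq_zero_or_pos i with rfl | h0
    · rw [Nak.al_zero n d _ hd]; exact one_pos
    · have h1 := hal i hi h0
      rw [hlow i hi] at h1
      have h2 : (0 : ℝ) < al n d A0 i := lt_of_lt_of_le (by positivity) h1
      exact_mod_cast h2
  have hm : A0.card ≤ j * n ^ j := by
    rw [card_eq_sum_card_fiberwise (f := d) (t := Icc 1 j)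
      (fun a ha => mem_coe.2 (mem_Icc.2 ⟨hd a, (hA0 a).1 (mem_coe.1 ha)⟩))]
    have h1 : ∀ e ∈ Icc 1 j, (A0.filter fun a => d a = e).card ≤ n ^ j := by
      intro e he
      obtain ⟨he1, he2⟩ := mem_Icc.1 he
      have h2 := count_le n d j (fun l _ => hd l) hpos e he2 he1
      have h3 : (A0.filter fun a => d a = e).card ≤ n ^ e := by exact_mod_cast h2
      exact h3.trans (Nat.pow_le_pow_right (by omega) he2)
    have := sum_le_card_nsmul _ _ _ h1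
    simpa using this
  obtain ⟨h, hf⟩ := exists_Hf (j := j) (z := zf η0 n d A0)
    (by
      rw [zf, filter_eq_empty_iff.2 fun a _ => (hd a).ne']
      simp)
    (fun e _ => mul_nonneg (by positivity) (kap_nonneg _ _)) hδ
    (har A0 hε hε1 hnj hCn (fun l _ => hd l) fun i hi h0 => by rw [← hlow i hi]; exact hal i hi h0)
  obtain ⟨Bk, hB0, hBm, hBs, hBk⟩ := exists_chain A0
  obtain ⟨ℬ, hℬ⟩ : ∃ ℬ : Finset (Finset ι), ℬ = (range (A0.card + 1)).image Bk := ⟨_, rfl⟩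
  have hℬ1 : ∀ B ∈ ℬ, B ⊆ A0 := by
    intro B hB
    rw [hℬ] at hB
    obtain ⟨k, -, rfl⟩ := mem_image.1 hB
    exact hBs k
  have hℬ2 : ℬ.card ≤ A0.card + 1 := by
    rw [hℬ]; exact card_image_le.trans (card_range _).le
  have hval : ∀ σ ∈ Qs j d ℬ, ∀ t ∈ σ.1, Val d A0 t := by
    intro σ hσ t ht
    obtain ⟨B, hB, hv⟩ := Qs_val hσ
    exact ⟨fun a ha => hℬ1 B hB ((hv t ht).1 a ha), (hv t ht).2⟩
  have hup : ∀ σ ∈ Qs j d ℬ, ∀ t ∈ alw σ, upd Adj rk σ t ∈ Qs j d ℬ :=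
    fun σ hσ t ht => Qs_upd hd hσ ht
  have hω := om_nonneg hη.le n d
  have hμ0 : 0 < μ := by linarith
  have hK : 0 < μ⁻¹ ^ (j + 2 ^ j) := by positivity
  have hKK : μ ^ (j + 2 ^ j) * μ⁻¹ ^ (j + 2 ^ j) = 1 := by
    rw [← mul_pow, mul_inv_cancel₀ hμ0.ne', one_pow]
  have hK1 : 1 ≤ μ ^ (j + 2 ^ j) := one_le_pow₀ hμ
  have hl1 : 1 ≤ lam ^ j := one_le_pow₀ hl
  have hδi : 1 ≤ δ⁻¹ := (one_le_inv₀ hδ).2 hδ1
  obtain ⟨R, hR⟩ : ∃ R, R = μ ^ (j + 2 ^ j) * lam ^ j / δ := ⟨_, rfl⟩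
  have hR0 : 0 ≤ R := by rw [hR]; positivity
  have hRl : ∀ (x0 x : Fin j → Fin n) (σ : St (Let ι j)) (c : ι × Finset (Fin n) → ℤ),
      δ⁻¹ ≤ R * phi μ h x0 x σ c := by
    intro x0 x σ c
    have h1 := (phi_bd hf hμ x0 x σ c).1
    calc δ⁻¹ ≤ lam ^ j * δ⁻¹ := le_mul_of_one_le_left (by positivity) hl1
      _ = R * μ⁻¹ ^ (j + 2 ^ j) := by
          rw [hR, div_eq_mul_inv, mul_assoc (μ ^ _), mul_right_comm, hKK, one_mul]
      _ ≤ _ := mul_le_mul_of_nonneg_left h1 hR0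
  obtain ⟨A, hA, hfro⟩ := walk2 (Qs j d ℬ) alw (upd Adj rk) hup kk dl dl_abs Good
    (Psi (om η0 n d) lam μ h)
    (fun x0 x σ c => mul_nonneg (base_nonneg hω hl) (hK.le.trans (phi_bd hf hμ x0 x σ c).1))
    ℓ (th j n (4 * ℓ) δ η0 μ lam) R hθ hR0 Good_refl
    (fun x0 x σ hσ c hG hq => step hnj hη.le hη1 hd hl hμ hf (hval σ hσ) hG hq)
    (fun x0 x c t y hG hk => Good_step hG t hk)
    (fun x0 x c hG => ⟨Good_symm hG, fun σ σ' => by
      rw [Psi, Psi, base_neg hG, mul_left_comm]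
      exact mul_le_mul_of_nonneg_left ((phi_bd hf hμ x x0 σ (-c)).2.trans (hRl x0 x σ' c))
        (base_nonneg hω hl)⟩)
    (fun x σ => by
      rw [Psi, mul_left_comm]
      exact one_le_mul_of_one_le_of_one_le (base_zero _ hl x).1 (hδi.trans (hRl x x σ 0)))
    (fun x σ => by
      rw [Psi, hR, div_eq_mul_inv, mul_assoc]
      refine le_trans ?_ (le_mul_of_one_le_left (by positivity) hK1)
      exact mul_le_mul (base_zero _ hl x).2 (phi_bd hf hμ x x σ 0).2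
        (hK.le.trans (phi_bd hf hμ x x σ 0).1) (by positivity))
  have hU : Uniq (Qs j d ℬ) alw (upd Adj rk) (Tm A) := by
    refine uniq_of_frob _ _ _ hup _ ℓ (lt_of_le_of_lt (hfro.trans ?_) (hlt A0.card hm))
    rw [← hR]
    refine mul_le_mul_of_nonneg_right (mul_le_mul_of_nonneg_right ?_ (by positivity))
      (by positivity)
    rw [Fintype.card_fun, Fintype.card_fin, Fintype.card_fin, Nat.cast_pow]
    refine mul_le_mul_of_nonneg_right ?_ (by positivity)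
    exact_mod_cast (Qs_card hd ℬ A0 hℬ1).trans (by gcongr)
  obtain ⟨G, hG⟩ := exists_G _ _ _ hup _ hU
  refine chain_gen K d A0.card Bk (fun p => star (A p)) hB0
    (fun a ha => by rw [hBm, hA0] at ha; omega) fun k hk => ?_
  obtain ⟨l, hl1, hl2⟩ := hBk k hk
  have hB : insert l (Bk k) ∈ ℬ := by
    rw [hℬ, ← hl2]; exact mem_image_of_mem _ (mem_range.2 (by omega))
  refine ⟨l, hl1, hl2, fun N hN => rank_step d _ (Bk k) l (hd l) N fun t _ ht ξ hξ => ?_⟩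
  refine surj_pow (G := G) hA (by omega) hd hl1 (fun U Ω hΩ hdis u hu => ?_)
    (fun U => G_lift hA hnj hd hℬ1 hη.le hf hG hB (mem_insert_self _ _) U) N hN t ht ξ hξ
  have hu1 : Val d (insert l (Bk k)) u := (mem_AlU.1 hu).1
  have hu2 : u.2.Nonempty := by
    rw [← card_pos, hu1.2]
    rcases u.1 with _ | a
    · exact two_pos
    · exact hd a
  exact E_mul_G Adj (fun _ _ => Adj_symm) Adj_irrefl rk (Qs j d ℬ) hup u
    (fun σ hσ hu => Qs_res hd hσ hu) (fun σ _ _ t _ h => rk_ne hd hu1 h) (Tm A) (Em A u)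
    (E_mul_T hA hnj u hu2) (fun t h => E_comm A h) hU G hG _
    (Qs_ini hB (mem_insert_self _ _) U Ω hΩ hdis) hu

end Pool.Agent.P.MP_3acc10_al.Bld
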