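import Pool.Agent.P.MP_3acc10_al.BDefs

set_option autoImplicit false

namespace Pool.Agent.P.MP_3acc10_al.Bld

open Finset Module Matrix

variable {n j : ℕ} {ι : Type} [Fintype ι] [DecidableEq ι]

open Classical in
lemma bpanel_fibre {π : Finset (Fin j)} {x : Fin j → Fin n} (hx : Set.InjOn x π)
    {I : Finset (Fin n)} (hI : I.card = π.card) :
    (univ.filter fun y => Pan π x y ∧ π.image y = I).card = π.card.factorial := by
  have h1 : Fintype.card (π ↪ I) = π.card.factorial := by
    rw [Fintype.card_embedding_eq, Fintype.card_coe, Fintype.card_coe, hI, Nat.descFactorial_self]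
  rw [← h1, ← card_univ]
  symm
  refine card_bij (fun f _ => fun p => if h : p ∈ π then (f ⟨p, h⟩ : Fin n) else x p) ?_ ?_ ?_
  · intro f _
    have hinj : Set.InjOn (fun p => if h : p ∈ π then (f ⟨p, h⟩ : Fin n) else x p) π := by
      intro p hp q hq e
      have hp' : p ∈ π := hp
      have hq' : q ∈ π := hq
      simp only [dif_pos hp', dif_pos hq'] at e
      have := f.injective (Subtype.ext e)
      exact congrArg Subtype.val this
    simp only [mem_filter, mem_univ, true_and]
    refine ⟨⟨fun p hp => dif_neg hp, hx, hinj⟩, ?_⟩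
    apply eq_of_subset_of_card_le
    · intro e he
      obtain ⟨p, hp, rfl⟩ := mem_image.1 he
      simp only [dif_pos hp]
      exact (f ⟨p, hp⟩).2
    · rw [card_image_of_injOn hinj, hI]
  · intro f _ g _ e
    ext p
    have := congrFun e p.1
    simp only [dif_pos p.2] at this
    exact congrArg Fin.val this
  · intro y hy
    simp only [mem_filter, mem_univ, true_and] at hy
    obtain ⟨⟨h1, _, h3⟩, h4⟩ := hy
    refine ⟨⟨fun p => ⟨y p, h4 ▸ mem_image_of_mem y p.2⟩, fun p q e => ?_⟩, mem_univ _, ?_⟩
    · exact Subtype.ext (h3 p.2 q.2 (congrArg Subtype.val e))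
    · funext p
      by_cases hp : p ∈ π
      · simp only [dif_pos hp]; rfl
      · simp only [dif_neg hp]; exact (h1 p hp).symm

open Classical in
theorem panel {R : Type*} [CommSemiring R] {π : Finset (Fin j)} {x : Fin j → Fin n}
    (hx : Set.InjOn x π) (φ : Finset (Fin n) → R) :
    ∑ y, (if Pan π x y then φ (π.image y) else 0) =
      (π.card.factorial : R) * ∑ I ∈ powersetCard π.card univ, φ I := by
  rw [← sum_filter, mul_sum]
  have hm : ∀ y ∈ univ.filter (fun y => Pan π x y), π.image y ∈ powersetCard π.card univ := by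
    intro y hy
    simp only [mem_filter, mem_univ, true_and] at hy
    exact mem_powersetCard.2 ⟨subset_univ _, card_image_of_injOn hy.2.2⟩
  rw [← sum_fiberwise_of_maps_to hm]
  refine sum_congr rfl fun I hI => ?_
  rw [filter_filter, sum_congr rfl (g := fun _ => φ I), sum_const,
    bpanel_fibre hx (mem_powersetCard.1 hI).2, nsmul_eq_mul]
  intro y hy
  simp only [mem_filter, mem_univ, true_and] at hy
  rw [hy.2]

omit [Fintype ι] [DecidableEq ι] in
theorem kk_sum (a : ι) {π : Finset (Fin j)} {x : Fin j → Fin n} (hx : Set.InjOn x π)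
    (φ : Finset (Fin n) → ℝ) : ∑ y, kk (some a, π) x y * φ (π.image y) =
      kap n π.card * ∑ I ∈ (powersetCard π.card univ).erase (π.image x), φ I := by
  classical
  have h := panel hx fun I => if I ≠ π.image x then kap n π.card / π.card.factorial * φ I else 0
  have hf : (π.card.factorial : ℝ) ≠ 0 := by exact_mod_cast (Nat.factorial_pos _).ne'
  have e1 : ∀ y, kk (some a, π) x y * φ (π.image y) = if Pan π x y then
      (if π.image y ≠ π.image x then kap n π.card / π.card.factorial * φ (π.image y) else 0)
      else 0 := by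
    intro y
    rw [kk_some]
    by_cases h1 : Pan π x y <;> by_cases h2 : π.image y = π.image x <;> simp [h1, h2]
  rw [sum_congr rfl fun y _ => e1 y, h, ← sum_filter, filter_ne', ← mul_sum, ← mul_assoc,
    mul_div_cancel₀ _ hf]

end Pool.Agent.P.MP_3acc10_al.Bld
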