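import Pool.Agent.P.MP_3acc10_al.BGood
import Pool.Agent.P.MP_3acc10_al.BPanel

set_option autoImplicit false

namespace Pool.Agent.P.MP_3acc10_al.Bld

open Finset Module Matrix

variable {n j : ℕ} {ι : Type} [Fintype ι] [DecidableEq ι]

variable {x0 x : Fin j → Fin n} {c : ι × Finset (Fin n) → ℤ} {π : Finset (Fin j)}

omit [Fintype ι] [DecidableEq ι] in
theorem bcount_zero (a : ι) (hx : ¬ Set.InjOn x π) (y : Fin j → Fin n) :
    kk (some a, π) x y = 0 := by
  by_contra h
  exact hx (kk_ne h).1.2.1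

omit [Fintype ι] [DecidableEq ι] in
theorem bcount_le (a : ι) (π : Finset (Fin j)) (x : Fin j → Fin n) (φ : Finset (Fin n) → ℝ)
    (hφ : ∀ I, 0 ≤ φ I) : ∑ y, kk (some a, π) x y * φ (π.image y) ≤
      kap n π.card * ∑ I ∈ powersetCard π.card univ, φ I := by
  by_cases hx : Set.InjOn x π
  · rw [kk_sum a hx]
    exact mul_le_mul_of_nonneg_left
      (sum_le_sum_of_subset_of_nonneg (erase_subset _ _) fun I _ _ => hφ I) (kap_nonneg _ _)
  · simp only [bcount_zero a hx, zero_mul, sum_const_zero]
    exact mul_nonneg (kap_nonneg _ _) (sum_nonneg fun I _ => hφ I)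

theorem bcount_through (e : ℕ) (v : Fin n) :
    ((powersetCard (e + 1) (univ : Finset (Fin n))).filter fun I => v ∈ I).card * n ≤
      n.choose (e + 1) * (e + 1) := by
  have h1 : ((powersetCard (e + 1) (univ : Finset (Fin n))).filter fun I => v ∈ I).card ≤
      (powersetCard e (univ.erase v)).card := by
    refine card_le_card_of_injOn (fun I => I.erase v) (fun I hI => ?_) fun I hI J hJ h => ?_
    · obtain ⟨h1, h2⟩ := mem_filter.1 (mem_coe.1 hI)
      refine mem_coe.2 (mem_powersetCard.2 ⟨erase_subset_erase _ (subset_univ _), ?_⟩)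
      rw [card_erase_of_mem h2, (mem_powersetCard.1 h1).2]
      rfl
    · rw [← insert_erase (mem_filter.1 (mem_coe.1 hI)).2,
        ← insert_erase (mem_filter.1 (mem_coe.1 hJ)).2]
      exact congrArg (insert v) h
  rw [card_powersetCard, card_erase_of_mem (mem_univ v), card_univ, Fintype.card_fin] at h1
  obtain ⟨m, rfl⟩ := Nat.exists_eq_add_of_le' (show 1 ≤ n from v.pos)
  rw [← Nat.add_one_mul_choose_eq m e, mul_comm]
  exact Nat.mul_le_mul_left _ h1

omit [Fintype ι] [DecidableEq ι] in
theorem kk_tot (hn : j + 2 ≤ n) (a : ι) (π : Finset (Fin j)) (x : Fin j → Fin n) :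
    ∑ y, kk (some a, π) x y ≤ 1 := by
  by_cases hx : Set.InjOn x π
  · have h := kk_sum a hx fun _ => 1
    simp only [mul_one] at h
    have hm : π.image x ∈ powersetCard π.card (univ : Finset (Fin n)) :=
      mem_powersetCard.2 ⟨subset_univ _, card_image_of_injOn hx⟩
    rw [h, sum_const, card_erase_of_mem hm, card_powersetCard, card_univ, Fintype.card_fin,
      nsmul_eq_mul, mul_one, kap]
    by_cases h0 : ((n.choose π.card - 1 : ℕ) : ℝ) = 0
    · rw [h0]
      simp
    · rw [inv_mul_cancel₀ h0]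
  · simp [bcount_zero a hx]

theorem kk_neg (hn : j + 2 ≤ n) (hπ : π.Nonempty) (hG : Good x0 x c) (a : ι) :
    ∑ y, (if c (a, π.image y) < 0 then kk (some a, π) x y else 0) ≤ kap n π.card * zz c a := by
  have h := bcount_le a π x (fun I => if c (a, I) < 0 then 1 else 0)
    fun I => by split_ifs <;> norm_num
  simp only [mul_ite, mul_one, mul_zero] at h
  refine h.trans (mul_le_mul_of_nonneg_left ?_ (kap_nonneg _ _))
  rw [← zz_neg hG a, zz, Nat.cast_sum]
  refine le_trans (sum_le_sum fun I _ => ?_)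
    (sum_le_sum_of_subset_of_nonneg (subset_univ _) fun I _ _ => Nat.cast_nonneg _)
  split_ifs with hI
  · have : 1 ≤ ((-c) (a, I)).toNat := by
      rw [Pi.neg_apply]
      omega
    exact_mod_cast this
  · exact Nat.cast_nonneg _

open Classical in
theorem kk_old (hn : j + 2 ≤ n) (hG : Good x0 x c) {q : ℕ} (hq : ∑ γ, |c γ| ≤ (q : ℤ)) (a : ι)
    (π : Finset (Fin j)) : ∑ y, (if Fresh x0 c π y then 0 else kk (some a, π) x y) ≤
      2 * (j : ℝ) ^ 2 * (1 + q) / n := by
  have hn0 : (0 : ℝ) < n := by exact_mod_cast (show 0 < n by omega)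
  rcases π.eq_empty_or_nonempty with rfl | hπ
  · have : ∀ y, Fresh x0 c (∅ : Finset (Fin j)) y := fun y p hp => absurd hp (notMem_empty p)
    simp only [this, if_true, sum_const_zero]
    positivity
  obtain ⟨e, he⟩ : ∃ e, π.card = e + 1 := Nat.exists_eq_add_one_of_ne_zero hπ.card_pos.ne'
  have hej : e + 1 ≤ j := by
    have := card_le_univ π
    rwa [Fintype.card_fin, he] at this
  set D := univ.filter fun v => uu x0 c v ≠ 0 with hD
  have h := bcount_le a π x (fun I => ∑ v ∈ D, if v ∈ I then 1 else 0)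
    fun I => sum_nonneg fun v _ => by split_ifs <;> norm_num
  refine le_trans (sum_le_sum fun y _ => ?_) (h.trans ?_)
  · have h0 : (0 : ℝ) ≤ ∑ v ∈ D, if v ∈ π.image y then 1 else 0 :=
      sum_nonneg fun v _ => by split_ifs <;> norm_num
    split_ifs with hF
    · exact mul_nonneg (kk_nonneg _ _ _) h0
    · refine le_mul_of_one_le_right (kk_nonneg _ _ _) ?_
      simp only [Fresh, not_forall] at hF
      obtain ⟨p, hp, hu⟩ := hF
      have h1 := single_le_sum (f := fun v => if v ∈ π.image y then (1 : ℝ) else 0)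
        (fun v _ => by split_ifs <;> norm_num) (show y p ∈ D from mem_filter.2 ⟨mem_univ _, hu⟩)
      rwa [if_pos (mem_image_of_mem y hp)] at h1
  · rw [he, sum_comm]
    have h1 : ∀ v ∈ D, (∑ I ∈ powersetCard (e + 1) (univ : Finset (Fin n)),
        if v ∈ I then (1 : ℝ) else 0) ≤ n.choose (e + 1) * j / n := by
      intro v _
      rw [sum_boole, le_div_iff₀ hn0]
      have h2 := (bcount_through e v).trans (Nat.mul_le_mul_left _ hej)
      exact_mod_cast h2
    have h2 := sum_le_card_nsmul _ _ _ h1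
    have h3 : (D.card : ℝ) ≤ j * (1 + q) := by exact_mod_cast uu_card hG hq
    have h4 := kap_choose hn (Nat.succ_pos e) hej
    have h5 := kap_nonneg n (e + 1)
    rw [nsmul_eq_mul] at h2
    calc kap n (e + 1) * _ ≤ kap n (e + 1) * (j * (1 + q) * (n.choose (e + 1) * j / n)) :=
          mul_le_mul_of_nonneg_left (h2.trans (mul_le_mul_of_nonneg_right h3 (by positivity))) h5
      _ = kap n (e + 1) * n.choose (e + 1) * ((j : ℝ) ^ 2 * (1 + q) / n) := by ring
      _ ≤ 2 * ((j : ℝ) ^ 2 * (1 + q) / n) := mul_le_mul_of_nonneg_right h4 (by positivity)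
      _ = _ := by ring

end Pool.Agent.P.MP_3acc10_al.Bld
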