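import Pool.Agent.P.MP_3acc10_al.BDefs

set_option autoImplicit false

namespace Pool.Agent.P.MP_3acc10_al.Bld

open Finset Module Matrix

theorem bdecay_exp (m : ℕ) {C : ℝ} (hC : 0 < C) :
    ∃ W : ℕ, ∀ w : ℕ, W ≤ w → C * (w : ℝ) ^ m * Real.exp (-(2 * w / C)) < 1 := by
  have h1 := Real.tendsto_pow_mul_exp_neg_atTop_nhds_zero m
  have h2 : Filter.Tendsto (fun w : ℕ => 2 * (w : ℝ) / C) Filter.atTop Filter.atTop :=
    (tendsto_natCast_atTop_atTop.const_mul_atTop two_pos).atTop_div_const hC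
  have h3 := (h1.comp h2).const_mul (C * (C / 2) ^ m)
  rw [mul_zero] at h3
  obtain ⟨W, hW⟩ := Filter.eventually_atTop.1 (h3.eventually_lt_const zero_lt_one)
  refine ⟨W, fun w hw => lt_of_eq_of_lt ?_ (hW w hw)⟩
  have e : (w : ℝ) ^ m = (C / 2) ^ m * (2 * (w : ℝ) / C) ^ m := by
    rw [← mul_pow]
    congr 1
    field_simp
  rw [e, Function.comp_apply]
  ring

theorem decay (a b : ℕ) {C : ℝ} (hC : 1 ≤ C) : ∃ n0 : ℕ, ∀ (n : ℕ) (ε : ℝ), n0 ≤ n → 0 < ε →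
    ε ≤ 1 → 1 ≤ ε ^ (b + 1) * n → ∃ w : ℕ, 0 < w ∧ 1 ≤ ε * w ∧ C * (w : ℝ) ^ b ≤ n ∧
      C * (n : ℝ) ^ a * (1 - 1 / (C * (w : ℝ) ^ 2)) ^ (2 * w ^ 3) < 1 := by
  have hC0 : 0 < C := by linarith
  obtain ⟨W1, hW1⟩ := bdecay_exp ((b + 1) * a) hC0
  obtain ⟨W2, hW2⟩ := exists_nat_ge (C * 2 ^ b)
  refine ⟨(W1 + W2 + 1) ^ (b + 1) + 1, fun n ε hn h0 _ hε => ?_⟩
  have hex : ∃ w : ℕ, n ≤ w ^ (b + 1) := ⟨n, Nat.le_self_pow (Nat.succ_ne_zero b) n⟩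
  have hw := Nat.find_spec hex
  have hmin : ∀ v < Nat.find hex, v ^ (b + 1) < n := fun v hv => not_le.1 (Nat.find_min hex hv)
  generalize Nat.find hex = w at hw hmin
  have hbig : W1 + W2 + 1 < w := lt_of_pow_lt_pow_left₀ (b + 1) (Nat.zero_le _) (by omega)
  obtain ⟨v, rfl⟩ : ∃ v, w = v + 1 := ⟨w - 1, by omega⟩
  have hv : ((v : ℝ)) ^ (b + 1) ≤ n := by exact_mod_cast (hmin v (Nat.lt_succ_self v)).le
  have hwR : (n : ℝ) ≤ ((v + 1 : ℕ) : ℝ) ^ (b + 1) := by exact_mod_cast hw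
  have v1 : (1 : ℝ) ≤ v := by exact_mod_cast (show 1 ≤ v by omega)
  have v2 : (W2 : ℝ) ≤ v := by exact_mod_cast (show W2 ≤ v by omega)
  have hexp := hW1 (v + 1) (by omega)
  have w1 : ((v + 1 : ℕ) : ℝ) ≤ 2 * v := by push_cast; linarith
  have w2 : (1 : ℝ) ≤ ((v + 1 : ℕ) : ℝ) := by push_cast; linarith
  refine ⟨v + 1, Nat.succ_pos v, ?_, ?_, ?_⟩
  · refine le_of_pow_le_pow_left₀ (Nat.succ_ne_zero b) (by positivity) ?_
    rw [one_pow, mul_pow]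
    exact hε.trans (mul_le_mul_of_nonneg_left hwR (by positivity))
  · calc C * ((v + 1 : ℕ) : ℝ) ^ b ≤ C * (2 * v) ^ b :=
          mul_le_mul_of_nonneg_left (pow_le_pow_left₀ (by positivity) w1 b) hC0.le
      _ = C * 2 ^ b * (v : ℝ) ^ b := by rw [mul_pow, mul_assoc]
      _ ≤ v * (v : ℝ) ^ b := mul_le_mul_of_nonneg_right (hW2.trans v2) (by positivity)
      _ = (v : ℝ) ^ (b + 1) := by ring
      _ ≤ n := hv
  · have ec : ((2 * (v + 1) ^ 3 : ℕ) : ℝ) = 2 * ((v + 1 : ℕ) : ℝ) ^ 3 := by push_cast; ring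
    generalize 2 * (v + 1) ^ 3 = N at ec
    generalize ((v + 1 : ℕ) : ℝ) = x at *
    have x0 : 0 < x := by linarith
    have p1 : 1 ≤ C * x ^ 2 := one_le_mul_of_one_le_of_one_le hC (one_le_pow₀ w2)
    have p2 : 0 ≤ 1 - 1 / (C * x ^ 2) := sub_nonneg.2 (div_le_one_of_le₀ p1 (by positivity))
    have p3 : (1 - 1 / (C * x ^ 2)) ^ N ≤ Real.exp (-(2 * x / C)) := by
      refine (pow_le_pow_left₀ p2 (Real.one_sub_le_exp_neg _) N).trans_eq ?_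
      rw [← Real.exp_nat_mul, ec]
      congr 1
      field_simp
    have p4 : (n : ℝ) ^ a ≤ x ^ ((b + 1) * a) := by
      rw [pow_mul]
      exact pow_le_pow_left₀ (Nat.cast_nonneg n) hwR a
    refine lt_of_le_of_lt ?_ hexp
    exact mul_le_mul (mul_le_mul_of_nonneg_left p4 hC0.le) p3 (pow_nonneg p2 N) (by positivity)

end Pool.Agent.P.MP_3acc10_al.Bld
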