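import Pool.Agent.P.MP_3acc10_al.Full

set_option autoImplicit false

namespace Pool.Agent.P.MP_3acc10_al.Bld

open Finset

section Auto

variable {S L X Λ : Type}

/-- the homogeneous system has only the zero solution -/
def Uniq [Fintype X] (Q : Finset S) (al : S → Finset L) (up : S → L → S)
    (M : L → Matrix X X ℂ) : Prop :=
  ∀ Δ : S → Matrix X X ℂ, (∀ σ ∈ Q, Δ σ = ∑ t ∈ al σ, Δ (up σ t) * M t) → ∀ σ ∈ Q, Δ σ = 0

/-- sums over paths of a given length -/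
noncomputable def BB [Fintype X] [DecidableEq X] [DecidableEq S] (al : S → Finset L)
    (up : S → L → S) (M : L → Matrix X X ℂ) : ℕ → S → S → Matrix X X ℂ
  | 0 => fun σ σ' => if σ = σ' then 1 else 0
  | k + 1 => fun σ σ' => ∑ t ∈ al σ, BB al up M k (up σ t) σ' * M t

theorem BB_realize : True := by have := @BB.eq_def; trivial

lemma BB_zero [Fintype X] [DecidableEq X] [DecidableEq S] (al : S → Finset L)
    (up : S → L → S) (M : L → Matrix X X ℂ) (σ σ' : S) :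
    BB al up M 0 σ σ' = if σ = σ' then 1 else 0 := rfl

lemma BB_succ [Fintype X] [DecidableEq X] [DecidableEq S] (al : S → Finset L)
    (up : S → L → S) (M : L → Matrix X X ℂ) (k : ℕ) (σ σ' : S) :
    BB al up M (k + 1) σ σ' = ∑ t ∈ al σ, BB al up M k (up σ t) σ' * M t := rfl

/-- a monomial in the phases -/
noncomputable def chi [Fintype Λ] (A : Λ → ℂ) (c : Λ → ℤ) : ℂ := ∏ γ, A γ ^ c γ

/-- the step matrices -/
noncomputable def Tg [Fintype Λ] (k : L → X → X → ℝ) (dl : L → X → X → Λ → ℤ) (A : Λ → ℂ)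
    (t : L) : Matrix X X ℂ :=
  Matrix.of fun y x => -((k t x y : ℂ) * chi A (dl t x y))

/-- a state is an alphabet and a set of forbidden letters -/
abbrev St (L : Type) := Finset L × Finset L

variable [DecidableEq L]

/-- the allowed letters -/
def alw (σ : St L) : Finset L := σ.1 \ σ.2

open Classical in
/-- the state after a letter -/
noncomputable def upd (Ad : L → L → Prop) (rk : L → ℕ) (σ : St L) (t : L) : St L :=
  (σ.1, insert t (σ.1.filter fun s => Ad t s ∧ (s ∈ σ.2 ∨ rk s < rk t)))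

open Classical in
/-- restriction to the letters which commute with a given one -/
noncomputable def res (Ad : L → L → Prop) (u : L) (σ : St L) : St L :=
  (σ.1.filter (Ad u), σ.2.filter (Ad u))

lemma mem_alw {σ : St L} {t : L} : t ∈ alw σ ↔ t ∈ σ.1 ∧ t ∉ σ.2 := mem_sdiff

lemma upd_fst (Ad : L → L → Prop) (rk : L → ℕ) (σ : St L) (t : L) : (upd Ad rk σ t).1 = σ.1 := rfl

lemma mem_upd {Ad : L → L → Prop} {rk : L → ℕ} {σ : St L} {t s : L} :
    s ∈ (upd Ad rk σ t).2 ↔ s = t ∨ (s ∈ σ.1 ∧ Ad t s ∧ (s ∈ σ.2 ∨ rk s < rk t)) := by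
  simp [upd]

omit [DecidableEq L] in
lemma mem_res_fst {Ad : L → L → Prop} {u : L} {σ : St L} {s : L} :
    s ∈ (res Ad u σ).1 ↔ s ∈ σ.1 ∧ Ad u s := by
  simp [res]

omit [DecidableEq L] in
lemma mem_res_snd {Ad : L → L → Prop} {u : L} {σ : St L} {s : L} :
    s ∈ (res Ad u σ).2 ↔ s ∈ σ.2 ∧ Ad u s := by
  simp [res]

end Auto

variable {n j : ℕ} {ι : Type} [Fintype ι] [DecidableEq ι]

/-- letters: a form or the repetition test, on a set of slots -/
abbrev Let (ι : Type) (j : ℕ) := Option ι × Finset (Fin j)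

/-- commuting letters -/
def Adj (t u : Let ι j) : Prop := t ≠ u ∧ (Disjoint t.2 u.2 ∨ (t.1 = none ∧ u.1 = none))

/-- an injective rank of the sets of slots -/
noncomputable def rkS (π : Finset (Fin j)) : ℕ := (Fintype.equivFin (Finset (Fin j)) π : ℕ)

/-- the rank of a letter -/
noncomputable def rk (t : Let ι j) : ℕ := rkS t.2

/-- valid letters -/
def Val (d : ι → ℕ) (B : Finset ι) (t : Let ι j) : Prop :=
  (∀ a, t.1 = some a → a ∈ B) ∧ t.2.card = t.1.elim 2 d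

/-- the shape of a letter -/
def sh (t : Let ι j) : Bool × Finset (Fin j) := (t.1.isSome, t.2)

open Classical in
/-- the valid letters with prescribed shapes -/
noncomputable def Alph (d : ι → ℕ) (B : Finset ι) (𝒮 : Finset (Bool × Finset (Fin j))) :
    Finset (Let ι j) := univ.filter fun t => Val d B t ∧ sh t ∈ 𝒮

open Classical in
/-- the valid letters inside a set of slots -/
noncomputable def AlU (d : ι → ℕ) (B : Finset ι) (U : Finset (Fin j)) : Finset (Let ι j) :=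
  univ.filter fun t => Val d B t ∧ t.2 ⊆ U

/-- the initial states -/
noncomputable def ini (d : ι → ℕ) (B : Finset ι) (l : ι) (U : Finset (Fin j))
    (Ω : Finset (Finset (Fin j))) : St (Let ι j) :=
  (AlU d B U, Ω.image fun π => (some l, π))

open Classical in
/-- the set of states -/
noncomputable def Qs (j : ℕ) (d : ι → ℕ) (ℬ : Finset (Finset ι)) : Finset (St (Let ι j)) :=
  univ.filter fun σ => ∃ B ∈ ℬ, ∃ 𝒮 Fs : Finset (Bool × Finset (Fin j)), ∃ cl : Finset (Let ι j),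
    σ.1 = Alph d B 𝒮 ∧ cl ⊆ σ.1 ∧ (∀ t ∈ cl, ∀ u ∈ cl, t ≠ u → Adj t u) ∧
      ∀ s, s ∈ σ.2 ↔ (s ∈ σ.1 ∧ sh s ∈ Fs) ∨ s ∈ cl

/-- two points in the same panel -/
def Pan (π : Finset (Fin j)) (x y : Fin j → Fin n) : Prop :=
  (∀ p, p ∉ π → y p = x p) ∧ Set.InjOn x π ∧ Set.InjOn y π

/-- the weight of a step -/
noncomputable def kap (n e : ℕ) : ℝ := ((n.choose e - 1 : ℕ) : ℝ)⁻¹

open Classical in
/-- the kernel of a step -/
noncomputable def kk (t : Let ι j) (x y : Fin j → Fin n) : ℝ :=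
  if t.1.isSome then
    (if Pan t.2 x y ∧ t.2.image y ≠ t.2.image x then kap n t.2.card / t.2.card.factorial else 0)
  else (if y = x ∧ ¬ Set.InjOn x t.2 then 1 else 0)

/-- the labels of a step -/
def dl (t : Let ι j) (x y : Fin j → Fin n) : ι × Finset (Fin n) → ℤ :=
  t.1.elim 0 fun a => Pi.single (a, t.2.image y) 1 - Pi.single (a, t.2.image x) 1

/-- the step matrices -/
noncomputable def Tm (A : ι × Finset (Fin n) → ℂ) (t : Let ι j) :
    Matrix (Fin j → Fin n) (Fin j → Fin n) ℂ := Tg kk dl A t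

open Classical in
/-- the projections -/
noncomputable def Em (A : ι × Finset (Fin n) → ℂ) (u : Let ι j) :
    Matrix (Fin j → Fin n) (Fin j → Fin n) ℂ :=
  Matrix.of fun y x => if u.1.isSome then
    (if Pan u.2 x y then ((u.2.card.factorial * n.choose u.2.card : ℕ) : ℂ)⁻¹ * chi A (dl u x y)
      else 0)
  else (if y = x ∧ ¬ Set.InjOn x u.2 then 1 else 0)

open Classical in
/-- a form placed on a set of slots -/
noncomputable def fl (A : ι × Finset (Fin n) → ℂ) (a : ι) (π : Finset (Fin j)) :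
    (Fin j → Fin n) → ℂ := fun x => if Set.InjOn x π then A (a, π.image x) else 0

open Classical in
/-- a function of sets placed on a set of slots -/
noncomputable def lift (U : Finset (Fin j)) (F : Finset (Fin n) → ℂ) : (Fin j → Fin n) → ℂ :=
  fun x => if Set.InjOn x U then F (U.image x) else 0

/-- dependence on the coordinates in a set of slots only -/
def Dep (V : Finset (Fin j)) (w : (Fin j → Fin n) → ℂ) : Prop :=
  ∀ x y, (∀ p ∈ V, x p = y p) → w x = w y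

open Classical in
/-- averaging -/
noncomputable def Av (U : Finset (Fin j)) (w F : (Fin j → Fin n) → ℂ) : Finset (Fin n) → ℂ :=
  fun S => ∑ x, if Set.InjOn x U ∧ U.image x = S then star (w x) * F x else 0

/-- the forms -/
noncomputable abbrev gf (d : ι → ℕ) (A : ι × Finset (Fin n) → ℂ) : ι → Finset (Fin n) → ℂ :=
  mask (fun i Y => Y.card = d i) fun p => star (A p)

/-- multiplicity of a value -/
def mult (x : Fin j → Fin n) (e : Fin n) : ℕ := (univ.filter fun p => x p = e).card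

/-- positive labels through a value -/
def cre (c : ι × Finset (Fin n) → ℤ) (e : Fin n) : ℕ :=
  ∑ γ ∈ univ.filter (fun γ : ι × Finset (Fin n) => e ∈ γ.2), (c γ).toNat

/-- the use of a value -/
def uu (x0 : Fin j → Fin n) (c : ι × Finset (Fin n) → ℤ) (e : Fin n) : ℕ := mult x0 e + cre c e

/-- the use of a form -/
def zz (c : ι × Finset (Fin n) → ℤ) (a : ι) : ℕ := ∑ I : Finset (Fin n), (c (a, I)).toNat

/-- label vectors which can occur on a walk -/
def Good (x0 x : Fin j → Fin n) (c : ι × Finset (Fin n) → ℤ) : Prop :=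
  (∀ e, (mult x e : ℤ) - mult x0 e =
    ∑ γ ∈ univ.filter (fun γ : ι × Finset (Fin n) => e ∈ γ.2), c γ) ∧
  (∀ a, ∑ I : Finset (Fin n), c (a, I) = 0) ∧ ∀ γ, c γ ≠ 0 → γ.2.card ≤ j

/-- the symmetric part of the potential -/
noncomputable def base (ω : ι → ℝ) (lam : ℝ) (x0 : Fin j → Fin n)
    (c : ι × Finset (Fin n) → ℤ) : ℝ :=
  (∏ a, ω a ^ zz c a) * lam ^ (∑ e, (uu x0 c e - 1) + ∑ a, (zz c a - 1))

/-- letters which close a label without a coincidence -/
def Clo (x0 x : Fin j → Fin n) (σ : St (Let ι j)) (c : ι × Finset (Fin n) → ℤ) (a : ι)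
    (π : Finset (Fin j)) : Prop :=
  (some a, π) ∈ alw σ ∧ Set.InjOn x π ∧ 0 < c (a, π.image x) ∧ ∀ p ∈ π, uu x0 c (x p) = 1

/-- new values -/
def Fresh (x0 : Fin j → Fin n) (c : ι × Finset (Fin n) → ℤ) (π : Finset (Fin j))
    (y : Fin j → Fin n) : Prop := ∀ p ∈ π, uu x0 c (y p) = 0

/-- steps without a coincidence -/
def Nrm (x0 x : Fin j → Fin n) (σ : St (Let ι j)) (c : ι × Finset (Fin n) → ℤ) (a : ι)
    (π : Finset (Fin j)) (y : Fin j → Fin n) : Prop :=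
  (zz c a = 0 ∧ Fresh x0 c π y) ∨ (Clo x0 x σ c a π ∧ Fresh x0 c π y) ∨
    (Clo x0 x σ c a π ∧ zz c a = 1 ∧ c (a, π.image y) < 0)

/-- the invariant: blocked slots, doomed labels and used repetition tests -/
def Inv (x0 x : Fin j → Fin n) (σ : St (Let ι j)) (c : ι × Finset (Fin n) → ℤ)
    (M : Finset (Fin j)) (N : Finset (ι × Finset (Fin n))) (Γ : Finset (Finset (Fin j))) : Prop :=
  (∀ γ ∈ N, 0 < c γ) ∧ (∀ p ∈ M, ∃ γ ∈ N, x p ∈ γ.2) ∧
  (∀ γ ∈ N, (∃ π, π ⊆ M ∧ π.image x = γ.2 ∧ (some γ.1, π) ∉ alw σ) ∨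
    (∃ e ∈ γ.2, ∃ β : ι × Finset (Fin n), e ∈ β.2 ∧ c β < 0 ∧ ∃ γ' ∈ N, γ'.1 = β.1) ∨
    ∃ e ∈ γ.2, 2 ≤ uu x0 c e) ∧
  ∀ ρ ∈ Γ, ρ.card = 2 ∧
    (((none, ρ) ∉ alw σ ∧ ¬ Set.InjOn x ρ) ∨ ∃ p ∈ ρ, p ∈ M ∧ uu x0 c (x p) = 1)

open Classical in
/-- sets of slots which carry no free step -/
noncomputable def Ft (M : Finset (Fin j)) (σ : St (Let ι j)) : Finset (Finset (Fin j)) :=
  univ.filter fun π => ¬ (π ⊆ M ∧ ∃ a, (some a, π) ∈ alw σ)

/-- the forbidden sets of slots after a step -/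
noncomputable def nxt (F : Finset (Finset (Fin j))) (π : Finset (Fin j)) :
    Finset (Finset (Fin j)) := univ.filter fun ρ => Disjoint ρ π ∧ (ρ ∈ F ∨ rkS ρ < rkS π)

/-- the sets of slots of small rank -/
noncomputable def lowr (j r : ℕ) : Finset (Finset (Fin j)) := univ.filter fun ρ => rkS ρ < r

open Classical in
/-- valid auxiliary data -/
noncomputable def VS (x0 x : Fin j → Fin n) (σ : St (Let ι j)) (c : ι × Finset (Fin n) → ℤ) :
    Finset (Finset (Fin j) × Finset (Finset (Fin j))) :=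
  univ.filter fun P => ∃ N, Inv x0 x σ c P.1 N P.2

lemma Inv_empty (x0 x : Fin j → Fin n) (σ : St (Let ι j))
    (c : ι × Finset (Fin n) → ℤ) : Inv x0 x σ c ∅ ∅ ∅ := by
  simp [Inv]

lemma VS_ne (x0 x : Fin j → Fin n) (σ : St (Let ι j)) (c : ι × Finset (Fin n) → ℤ) :
    (VS x0 x σ c).Nonempty :=
  ⟨(∅, ∅), by simp only [VS, mem_filter, mem_univ, true_and]; exact ⟨∅, Inv_empty _ _ _ _⟩⟩

/-- the part of the potential which depends on the state -/
noncomputable def phi (μ : ℝ) (h : Finset (Finset (Fin j)) → ℝ) (x0 x : Fin j → Fin n)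
    (σ : St (Let ι j)) (c : ι × Finset (Fin n) → ℤ) : ℝ :=
  (VS x0 x σ c).inf' (VS_ne x0 x σ c) fun P => μ⁻¹ ^ (P.1.card + P.2.card) * h (Ft P.1 σ)

/-- the potential -/
noncomputable def Psi (ω : ι → ℝ) (lam μ : ℝ) (h : Finset (Finset (Fin j)) → ℝ)
    (x0 x : Fin j → Fin n) (σ : St (Let ι j)) (c : ι × Finset (Fin n) → ℤ) : ℝ :=
  base ω lam x0 c * phi μ h x0 x σ c

/-- the generating function of heaps with forbidden initial pieces -/
structure Hf (z : ℕ → ℝ) (δ : ℝ) (h : Finset (Finset (Fin j)) → ℝ) : Prop where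
  znn : ∀ e ≤ j, 0 ≤ z e
  zle : ∀ e ≤ j, z e ≤ 1
  ge : ∀ F, 1 ≤ h F
  le : ∀ F, h F ≤ δ⁻¹
  anti : ∀ F F', F ⊆ F' → h F' ≤ h F
  eq : ∀ F, h F = 1 + ∑ π ∈ Fᶜ, z π.card * h (nxt F π)

open Classical in
/-- the independence polynomial of a family of sets of slots -/
noncomputable def IP (z : ℕ → ℝ) (F : Finset (Finset (Fin j))) : ℝ :=
  ∑ C ∈ F.powerset.filter (fun C => ∀ π ∈ C, ∀ ρ ∈ C, π ≠ ρ → Disjoint π ρ),
    ∏ π ∈ C, -z π.card

/-- signed counts of families of disjoint sets of slots -/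
noncomputable def eta (z : ℕ → ℝ) : ℕ → ℝ
  | 0 => 1
  | i + 1 => eta z i - ∑ k : Fin (i + 1), (i.choose k : ℝ) * z (k + 1) * eta z (i - k)

theorem eta_realize : True := by have := @eta.eq_def; trivial

lemma eta_zero (z : ℕ → ℝ) : eta z 0 = 1 := by rw [eta]

lemma eta_succ (z : ℕ → ℝ) (i : ℕ) : eta z (i + 1) =
    eta z i - ∑ k ∈ range (i + 1), (i.choose k : ℝ) * z (k + 1) * eta z (i - k) := by
  rw [eta, ← Fin.sum_univ_eq_sum_range (fun k => (i.choose k : ℝ) * z (k + 1) * eta z (i - k))]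

/-- the weight of a form -/
noncomputable def om (η0 : ℝ) (n : ℕ) (d : ι → ℕ) (a : ι) : ℝ := (1 + η0) * kap n (d a)

/-- the weight of a set of slots -/
noncomputable def zf (η0 : ℝ) (n : ℕ) (d : ι → ℕ) (A0 : Finset ι) (e : ℕ) : ℝ :=
  (1 + η0) * (A0.filter fun a => d a = e).card * kap n e

/-- logarithmic derivative of the predicted series -/
def bet (n : ℕ) (d : ι → ℕ) (A : Finset ι) (k : ℕ) : ℤ :=
  (-1) ^ (k + 1) * n - ∑ l ∈ A.filter (fun l => d l ∣ k), (d l : ℤ)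

/-- cost of the coincidences -/
noncomputable def tau (j n q : ℕ) (lam : ℝ) : ℝ :=
  lam ^ (j + 1) * (6 * q + 2 * j ^ 2 * (1 + q) ^ 2) / n + 2 * q / lam

/-- the contraction factor -/
noncomputable def th (j n q : ℕ) (δ η0 μ lam : ℝ) : ℝ :=
  1 - δ * η0 / 2 + 4 * 2 ^ j / (δ * μ) + 2 ^ j * tau j n q lam * μ ^ (j + 2 ^ j) / δ

omit [Fintype ι] [DecidableEq ι] in
lemma Adj_symm {t u : Let ι j} (h : Adj t u) : Adj u t :=
  ⟨h.1.symm, h.2.imp (fun h => h.symm) And.symm⟩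

omit [Fintype ι] [DecidableEq ι] in
lemma Adj_irrefl (t : Let ι j) : ¬ Adj t t := fun h => h.1 rfl

lemma rkS_inj : Function.Injective (rkS (j := j)) := fun _ _ h =>
  (Fintype.equivFin _).injective (Fin.val_injective h)

omit [Fintype ι] [DecidableEq ι] in
lemma Val_some {d : ι → ℕ} {B : Finset ι} {a : ι} {π : Finset (Fin j)} :
    Val d B (some a, π) ↔ a ∈ B ∧ π.card = d a := by
  simp [Val]

omit [Fintype ι] [DecidableEq ι] in
lemma Val_none {d : ι → ℕ} {B : Finset ι} {π : Finset (Fin j)} :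
    Val d B ((none, π) : Let ι j) ↔ π.card = 2 := by
  simp [Val]

omit [DecidableEq ι] in
lemma mem_Alph {d : ι → ℕ} {B : Finset ι} {𝒮 : Finset (Bool × Finset (Fin j))} {t : Let ι j} :
    t ∈ Alph d B 𝒮 ↔ Val d B t ∧ sh t ∈ 𝒮 := by
  simp [Alph]

omit [DecidableEq ι] in
lemma mem_AlU {d : ι → ℕ} {B : Finset ι} {U : Finset (Fin j)} {t : Let ι j} :
    t ∈ AlU d B U ↔ Val d B t ∧ t.2 ⊆ U := by
  simp [AlU]

omit [DecidableEq ι] in
lemma mem_Qs {d : ι → ℕ} {ℬ : Finset (Finset ι)} {σ : St (Let ι j)} :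
    σ ∈ Qs j d ℬ ↔ ∃ B ∈ ℬ, ∃ 𝒮 Fs : Finset (Bool × Finset (Fin j)), ∃ cl : Finset (Let ι j),
      σ.1 = Alph d B 𝒮 ∧ cl ⊆ σ.1 ∧ (∀ t ∈ cl, ∀ u ∈ cl, t ≠ u → Adj t u) ∧
        ∀ s, s ∈ σ.2 ↔ (s ∈ σ.1 ∧ sh s ∈ Fs) ∨ s ∈ cl := by
  simp only [Qs, mem_filter, mem_univ, true_and]

lemma Pan_symm {π : Finset (Fin j)} {x y : Fin j → Fin n} (h : Pan π x y) : Pan π y x :=
  ⟨fun p hp => (h.1 p hp).symm, h.2.2, h.2.1⟩

open Classical in
omit [Fintype ι] [DecidableEq ι] in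
lemma kk_some (a : ι) (π : Finset (Fin j)) (x y : Fin j → Fin n) : kk (some a, π) x y =
    if Pan π x y ∧ π.image y ≠ π.image x then kap n π.card / π.card.factorial else 0 := by
  simp [kk]

open Classical in
omit [Fintype ι] [DecidableEq ι] in
lemma kk_none (π : Finset (Fin j)) (x y : Fin j → Fin n) :
    kk ((none, π) : Let ι j) x y = if y = x ∧ ¬ Set.InjOn x π then 1 else 0 := by
  simp [kk]

omit [Fintype ι] in
lemma dl_some (a : ι) (π : Finset (Fin j)) (x y : Fin j → Fin n) : dl (some a, π) x y =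
    Pi.single (a, π.image y) 1 - Pi.single (a, π.image x) 1 := rfl

omit [Fintype ι] in
lemma dl_none (π : Finset (Fin j)) (x y : Fin j → Fin n) :
    dl ((none, π) : Let ι j) x y = 0 := rfl

lemma Tm_apply (A : ι × Finset (Fin n) → ℂ) (t : Let ι j) (y x : Fin j → Fin n) :
    Tm A t y x = -((kk t x y : ℂ) * chi A (dl t x y)) := rfl

open Classical in
lemma Em_some (A : ι × Finset (Fin n) → ℂ) (a : ι) (π : Finset (Fin j)) (y x : Fin j → Fin n) :
    Em A (some a, π) y x = if Pan π x y then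
      ((π.card.factorial * n.choose π.card : ℕ) : ℂ)⁻¹ * chi A (dl (some a, π) x y) else 0 := by
  simp [Em]

open Classical in
lemma Em_none (A : ι × Finset (Fin n) → ℂ) (π : Finset (Fin j)) (y x : Fin j → Fin n) :
    Em A (none, π) y x = if y = x ∧ ¬ Set.InjOn x π then 1 else 0 := by
  simp [Em]

lemma chi_zero {Λ : Type} [Fintype Λ] (A : Λ → ℂ) : chi A 0 = 1 := by simp [chi]

lemma chi_add {Λ : Type} [Fintype Λ] {A : Λ → ℂ} (hA : ∀ γ, ‖A γ‖ = 1) (c c' : Λ → ℤ) :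
    chi A (c + c') = chi A c * chi A c' := by
  rw [chi, chi, chi, ← prod_mul_distrib]
  refine prod_congr rfl fun γ _ => ?_
  rw [Pi.add_apply, zpow_add₀ (fun h => by simpa [h] using hA γ)]

lemma chi_neg {Λ : Type} [Fintype Λ] {A : Λ → ℂ} (hA : ∀ γ, ‖A γ‖ = 1) (c : Λ → ℤ) :
    chi A (-c) = star (chi A c) := by
  rw [chi, chi, star_prod]
  refine prod_congr rfl fun γ _ => ?_
  rw [Pi.neg_apply, star_zpow₀, zpow_neg, ← inv_zpow, Complex.inv_eq_conj (hA γ)]
  rfl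

lemma chi_single {Λ : Type} [Fintype Λ] [DecidableEq Λ] (A : Λ → ℂ) (α : Λ) :
    chi A (Pi.single α 1) = A α := by
  rw [chi, prod_eq_single α]
  · simp
  · intro γ _ h
    simp [Pi.single_eq_of_ne h]
  · simp

lemma chi_dl {A : ι × Finset (Fin n) → ℂ} (hA : ∀ γ, ‖A γ‖ = 1) (a : ι) (π : Finset (Fin j))
    (x y : Fin j → Fin n) :
    chi A (dl (some a, π) x y) = A (a, π.image y) * star (A (a, π.image x)) := by
  rw [dl_some, sub_eq_add_neg, chi_add hA, chi_neg hA, chi_single, chi_single]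

lemma mul_star_self {Λ : Type} {A : Λ → ℂ} (hA : ∀ γ, ‖A γ‖ = 1) (γ : Λ) :
    A γ * star (A γ) = 1 := by
  rw [Complex.star_def, Complex.mul_conj, Complex.normSq_eq_norm_sq, hA]
  simp

lemma le_choose {e : ℕ} (hn : j + 2 ≤ n) (he : 0 < e) (hej : e ≤ j) : n ≤ n.choose e := by
  obtain ⟨e, rfl⟩ := Nat.exists_eq_add_of_lt he
  obtain ⟨m, rfl⟩ := Nat.exists_eq_add_of_le' (show 1 ≤ n by omega)
  have h1 := Nat.add_one_mul_choose_eq m (0 + e)
  have h2 : 0 + e + 1 ≤ m.choose (0 + e) := by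
    have h3 := Nat.choose_le_choose (0 + e) (show 0 + e + 1 ≤ m by omega)
    rwa [Nat.choose_succ_self_right] at h3
  have h4 : (m + 1) * (0 + e + 1) ≤ (m + 1).choose (0 + e + 1) * (0 + e + 1) := by
    rw [← h1]; exact Nat.mul_le_mul_left _ h2
  exact Nat.le_of_mul_le_mul_right h4 (by omega)

lemma kap_nonneg (n e : ℕ) : 0 ≤ kap n e := by unfold kap; positivity

lemma kap_eq {n e : ℕ} (h : e ≤ n) : kap n e = ((n.choose e : ℝ) - 1)⁻¹ := by
  rw [kap, Nat.cast_sub (Nat.choose_pos h), Nat.cast_one]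

lemma kap_pos {e : ℕ} (hn : j + 2 ≤ n) (he : 0 < e) (hej : e ≤ j) : 0 < kap n e := by
  have h1 : (n : ℝ) ≤ n.choose e := by exact_mod_cast le_choose hn he hej
  have h2 : (2 : ℝ) ≤ n := by exact_mod_cast (show 2 ≤ n by omega)
  rw [kap_eq (by omega)]
  exact inv_pos.2 (by linarith)

lemma kap_mul {e : ℕ} (hn : j + 2 ≤ n) (he : 0 < e) (hej : e ≤ j) :
    kap n e * ((n.choose e : ℝ) - 1) = 1 := by
  have h1 : (n : ℝ) ≤ n.choose e := by exact_mod_cast le_choose hn he hej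
  have h2 : (2 : ℝ) ≤ n := by exact_mod_cast (show 2 ≤ n by omega)
  rw [kap_eq (by omega)]
  exact inv_mul_cancel₀ (by linarith)

lemma kap_choose {e : ℕ} (hn : j + 2 ≤ n) (he : 0 < e) (hej : e ≤ j) :
    kap n e * n.choose e ≤ 2 := by
  have h1 : (n : ℝ) ≤ n.choose e := by exact_mod_cast le_choose hn he hej
  have h2 : (2 : ℝ) ≤ n := by exact_mod_cast (show 2 ≤ n by omega)
  have h3 := kap_pos hn he hej
  have h4 := kap_mul hn he hej
  nlinarith

lemma kap_le {e : ℕ} (hn : j + 2 ≤ n) (he : 0 < e) (hej : e ≤ j) : kap n e ≤ 2 / n := by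
  have h1 : (n : ℝ) ≤ n.choose e := by exact_mod_cast le_choose hn he hej
  have h2 : (2 : ℝ) ≤ n := by exact_mod_cast (show 2 ≤ n by omega)
  have h3 := kap_pos hn he hej
  have h4 := kap_choose hn he hej
  rw [le_div_iff₀ (by linarith)]
  nlinarith

lemma mem_Ft {M : Finset (Fin j)} {σ : St (Let ι j)} {π : Finset (Fin j)} :
    π ∈ Ft M σ ↔ ¬ (π ⊆ M ∧ ∃ a, (some a, π) ∈ alw σ) := by
  simp only [Ft, mem_filter, mem_univ, true_and]

omit [Fintype ι] [DecidableEq ι] in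
lemma om_nonneg {η0 : ℝ} (hη : 0 ≤ η0) (n : ℕ) (d : ι → ℕ) (a : ι) : 0 ≤ om η0 n d a :=
  mul_nonneg (by linarith) (kap_nonneg _ _)

omit [Fintype ι] [DecidableEq ι] in
lemma kk_nonneg (t : Let ι j) (x y : Fin j → Fin n) : 0 ≤ kk t x y := by
  have := kap_nonneg n t.2.card
  unfold kk
  split_ifs <;> positivity

omit [Fintype ι] [DecidableEq ι] in
lemma kk_ne {a : ι} {π : Finset (Fin j)} {x y : Fin j → Fin n} (h : kk (some a, π) x y ≠ 0) :
    Pan π x y ∧ π.image y ≠ π.image x := by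
  by_contra h'
  exact h (by rw [kk_some, if_neg h'])

lemma mem_nxt {F : Finset (Finset (Fin j))} {π ρ : Finset (Fin j)} :
    ρ ∈ nxt F π ↔ Disjoint ρ π ∧ (ρ ∈ F ∨ rkS ρ < rkS π) := by
  simp only [nxt, mem_filter, mem_univ, true_and]

lemma mem_lowr {r : ℕ} {ρ : Finset (Fin j)} : ρ ∈ lowr j r ↔ rkS ρ < r := by
  simp only [lowr, mem_filter, mem_univ, true_and]

lemma phi_le (μ : ℝ) (h : Finset (Finset (Fin j)) → ℝ) {x0 x : Fin j → Fin n}
    {σ : St (Let ι j)} {c : ι × Finset (Fin n) → ℤ} {M : Finset (Fin j)}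
    {N : Finset (ι × Finset (Fin n))} {Γ : Finset (Finset (Fin j))} (hI : Inv x0 x σ c M N Γ) :
    phi μ h x0 x σ c ≤ μ⁻¹ ^ (M.card + Γ.card) * h (Ft M σ) :=
  inf'_le (b := (M, Γ)) _ (by simp only [VS, mem_filter, mem_univ, true_and]; exact ⟨N, hI⟩)

lemma phi_eq (μ : ℝ) (h : Finset (Finset (Fin j)) → ℝ) (x0 x : Fin j → Fin n)
    (σ : St (Let ι j)) (c : ι × Finset (Fin n) → ℤ) : ∃ M N Γ, Inv x0 x σ c M N Γ ∧
      phi μ h x0 x σ c = μ⁻¹ ^ (M.card + Γ.card) * h (Ft M σ) := by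
  obtain ⟨P, hP, e⟩ := exists_mem_eq_inf' (VS_ne x0 x σ c)
    fun P => μ⁻¹ ^ (P.1.card + P.2.card) * h (Ft P.1 σ)
  simp only [VS, mem_filter, mem_univ, true_and] at hP
  obtain ⟨N, hN⟩ := hP
  exact ⟨P.1, N, P.2, hN, e⟩

end Pool.Agent.P.MP_3acc10_al.Bld
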