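import Pool.Agent.P.MP_3acc10_al.BDefs

set_option autoImplicit false

namespace Pool.Agent.P.MP_3acc10_al.Bld

open Finset Module Matrix

variable {n j : ℕ} {ι : Type} [Fintype ι] [DecidableEq ι]

variable {x0 x y : Fin j → Fin n} {c : ι × Finset (Fin n) → ℤ}

lemma bgood_split {π : Finset (Fin j)} (hx : Set.InjOn x π) (e : Fin n) :
    mult x e = (if e ∈ π.image x then 1 else 0) +
      (univ.filter fun p => p ∉ π ∧ x p = e).card := by
  have h1 := card_filter_add_card_filter_not (s := univ.filter fun p => x p = e) fun p => p ∈ π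
  rw [mult, ← h1, filter_filter, filter_filter]
  congr 1
  · split_ifs with h
    · obtain ⟨p, hp, rfl⟩ := mem_image.1 h
      refine card_eq_one.2 ⟨p, ?_⟩
      ext p'
      simp only [mem_filter, mem_univ, true_and, mem_singleton]
      exact ⟨fun h' => hx h'.2 hp h'.1, fun h' => by rw [h']; exact ⟨rfl, hp⟩⟩
    · refine card_eq_zero.2 (filter_eq_empty_iff.2 fun p _ hp => h ?_)
      exact mem_image.2 ⟨p, hp.2, hp.1⟩
  · congr 1
    exact filter_congr fun p _ => and_comm

lemma bgood_pan {π : Finset (Fin j)} (h : Pan π x y) (e : Fin n) :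
    (mult y e : ℤ) - mult x e =
      (if e ∈ π.image y then 1 else 0) - (if e ∈ π.image x then 1 else 0) := by
  have e1 : (univ.filter fun p => p ∉ π ∧ y p = e) = univ.filter fun p => p ∉ π ∧ x p = e :=
    filter_congr fun p _ => and_congr_right fun hp => by rw [h.1 p hp]
  rw [bgood_split h.2.1 e, bgood_split h.2.2 e, e1]
  push_cast
  ring

lemma bgood_toNat {Λ : Type} (s : Finset Λ) (f : Λ → ℤ) :
    ∑ γ ∈ s, f γ = ((∑ γ ∈ s, (f γ).toNat : ℕ) : ℤ) - ((∑ γ ∈ s, (-f γ).toNat : ℕ) : ℤ) := by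
  push_cast
  rw [← sum_sub_distrib]
  exact sum_congr rfl fun γ _ => (Int.toNat_sub_toNat_neg _).symm

lemma bgood_sum_mult (x : Fin j → Fin n) : ∑ e, mult x e = j := by
  have := card_eq_sum_card_fiberwise (f := x) (s := univ) (t := univ) fun _ _ => mem_univ _
  rw [card_univ, Fintype.card_fin] at this
  exact this.symm

lemma bgood_le_cre (c : ι × Finset (Fin n) → ℤ) {e : Fin n} {γ : ι × Finset (Fin n)}
    (hγ : e ∈ γ.2) : (c γ).toNat ≤ cre c e :=
  single_le_sum (f := fun γ => (c γ).toNat) (fun _ _ => Nat.zero_le _)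
    (mem_filter.2 ⟨mem_univ _, hγ⟩)

lemma bgood_pos_sum {q : ℕ} (hq : ∑ γ, |c γ| ≤ (q : ℤ)) : ∑ γ, (c γ).toNat ≤ q := by
  have : ((∑ γ, (c γ).toNat : ℕ) : ℤ) ≤ q := by
    push_cast
    refine le_trans (sum_le_sum fun γ _ => ?_) hq
    have := le_abs_self (c γ)
    have := abs_nonneg (c γ)
    omega
  exact_mod_cast this

theorem Good_refl (x : Fin j → Fin n) : Good x x (0 : ι × Finset (Fin n) → ℤ) := by
  simp [Good]

theorem Good_step (h : Good x0 x c) (t : Let ι j) (hk : kk t x y ≠ 0) :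
    Good x0 y (c + dl t x y) := by
  obtain ⟨_ | a, π⟩ := t
  · rw [kk_none] at hk
    have : y = x := by
      by_contra h'
      exact hk (if_neg fun h2 => h' h2.1)
    rw [dl_none, add_zero, this]
    exact h
  · have hp := (kk_ne hk).1
    rw [dl_some]
    refine ⟨fun e => ?_, fun b => ?_, fun γ hγ => ?_⟩
    · simp only [Pi.add_apply, Pi.sub_apply, sum_add_distrib, sum_sub_distrib, sum_pi_single',
        mem_filter, mem_univ, true_and]
      rw [← h.1 e, ← bgood_pan hp e]
      ring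
    · simp only [Pi.add_apply, Pi.sub_apply, sum_add_distrib, sum_sub_distrib, h.2.1 b]
      by_cases hb : b = a
      · subst hb
        simp [Pi.single_apply]
      · simp [hb]
    · have hle : ∀ z : Fin j → Fin n, (π.image z).card ≤ j := fun z =>
        card_image_le.trans ((card_le_univ _).trans (Fintype.card_fin j).le)
      by_cases h1 : γ = (a, π.image y)
      · rw [h1]; exact hle y
      by_cases h2 : γ = (a, π.image x)
      · rw [h2]; exact hle x
      refine h.2.2 γ ?_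
      simpa [Pi.single_eq_of_ne h1, Pi.single_eq_of_ne h2] using hγ

theorem Good_symm (h : Good x0 x c) : Good x x0 (-c) := by
  refine ⟨fun e => ?_, fun a => ?_, fun γ hγ => h.2.2 γ fun h' => hγ (by simp [h'])⟩
  · simp only [Pi.neg_apply, sum_neg_distrib, ← h.1 e]
    ring
  · simp only [Pi.neg_apply, sum_neg_distrib, h.2.1 a, neg_zero]

theorem uu_neg (h : Good x0 x c) (e : Fin n) : uu x (-c) e = uu x0 c e := by
  have h1 := h.1 e
  rw [bgood_toNat] at h1
  simp only [uu, cre, Pi.neg_apply]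
  omega

theorem zz_neg (h : Good x0 x c) (a : ι) : zz (-c) a = zz c a := by
  have h1 := h.2.1 a
  rw [bgood_toNat] at h1
  simp only [zz, Pi.neg_apply]
  omega

theorem base_neg (h : Good x0 x c) (ω : ι → ℝ) (lam : ℝ) :
    base ω lam x (-c) = base ω lam x0 c := by
  simp only [base, uu_neg h, zz_neg h]

theorem mult_le (h : Good x0 x c) (e : Fin n) : mult x e ≤ uu x0 c e := by
  rw [← uu_neg h]
  exact Nat.le_add_right _ _

theorem mult_lt (h : Good x0 x c) {β : ι × Finset (Fin n)} (hβ : c β < 0) {e : Fin n}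
    (he : e ∈ β.2) : mult x e + 1 ≤ uu x0 c e := by
  rw [← uu_neg h, uu]
  have := bgood_le_cre (-c) he
  rw [Pi.neg_apply] at this
  omega

theorem eq_of_uu_one (h : Good x0 x c) {p p' : Fin j} (hp : uu x0 c (x p) = 1)
    (hx : x p' = x p) : p' = p := by
  have h1 := mult_le h (x p)
  rw [hp, mult] at h1
  exact card_le_one.1 h1 p' (mem_filter.2 ⟨mem_univ _, hx⟩) p (mem_filter.2 ⟨mem_univ _, rfl⟩)

theorem label_eq {e : Fin n} (he : uu x0 c e ≤ 1) {γ γ' : ι × Finset (Fin n)} (h : 0 < c γ)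
    (h' : 0 < c γ') (hγ : e ∈ γ.2) (hγ' : e ∈ γ'.2) : γ = γ' ∧ c γ = 1 := by
  have h1 := bgood_le_cre c hγ
  rw [uu] at he
  refine ⟨?_, by omega⟩
  by_contra hne
  have h2 : ∑ γ ∈ {γ, γ'}, (c γ).toNat ≤ cre c e := by
    refine sum_le_sum_of_subset fun δ hδ => mem_filter.2 ⟨mem_univ _, ?_⟩
    rcases mem_insert.1 hδ with rfl | hδ
    · exact hγ
    · rw [mem_singleton.1 hδ]; exact hγ'
  rw [sum_pair hne] at h2
  omega

theorem zero_of_zz (h : Good x0 x c) {a : ι} (ha : zz c a = 0) (I : Finset (Fin n)) :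
    c (a, I) = 0 := by
  have ha' := ha
  rw [← zz_neg h] at ha'
  have h1 := sum_eq_zero_iff.1 ha I (mem_univ _)
  have h2 := sum_eq_zero_iff.1 ha' I (mem_univ _)
  rw [Pi.neg_apply] at h2
  omega

theorem zero_of_uu (h : Good x0 x c) {e : Fin n} (he : uu x0 c e = 0)
    {γ : ι × Finset (Fin n)} (hγ : e ∈ γ.2) : c γ = 0 := by
  have he' := he
  rw [← uu_neg h] at he'
  have h1 := bgood_le_cre c hγ
  have h2 := bgood_le_cre (-c) hγ
  rw [Pi.neg_apply] at h2
  rw [uu] at he he'
  omega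

theorem zz_sum {q : ℕ} (hq : ∑ γ, |c γ| ≤ (q : ℤ)) : ∑ a, zz c a ≤ q := by
  have := bgood_pos_sum hq
  rwa [Fintype.sum_prod_type] at this

theorem uu_card (h : Good x0 x c) {q : ℕ} (hq : ∑ γ, |c γ| ≤ (q : ℤ)) :
    (univ.filter fun e => uu x0 c e ≠ 0).card ≤ j * (1 + q) := by
  have h1 : (univ.filter fun e => uu x0 c e ≠ 0).card ≤ ∑ e, uu x0 c e := by
    rw [card_filter]
    refine sum_le_sum fun e _ => ?_
    split_ifs <;> omega
  have h2 : ∑ e, cre c e ≤ j * q := by
    simp only [cre, sum_filter]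
    rw [sum_comm]
    refine le_trans (sum_le_sum fun γ _ => ?_) ((mul_sum _ _ _).symm.le.trans
      (Nat.mul_le_mul_left j (bgood_pos_sum hq)))
    rw [← sum_filter, filter_mem_eq_inter, univ_inter, sum_const, smul_eq_mul]
    by_cases h0 : c γ = 0
    · simp [h0]
    · exact Nat.mul_le_mul_right _ (h.2.2 γ h0)
  simp only [uu] at h1
  rw [sum_add_distrib, bgood_sum_mult] at h1
  simp only [uu]
  rw [mul_add, mul_one]
  omega

theorem base_zero (ω : ι → ℝ) {lam : ℝ} (hl : 1 ≤ lam) (x : Fin j → Fin n) :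
    1 ≤ base ω lam x 0 ∧ base ω lam x 0 ≤ lam ^ j := by
  have h1 : base ω lam x 0 = lam ^ ∑ e, (mult x e - 1) := by
    simp [base, zz, uu, cre]
  rw [h1]
  refine ⟨one_le_pow₀ hl, pow_le_pow_right₀ hl ?_⟩
  exact (sum_le_sum fun e _ => Nat.sub_le _ _).trans (bgood_sum_mult x).le

theorem dl_abs (t : Let ι j) (x y : Fin j → Fin n) : ∑ γ, |dl t x y γ| ≤ 2 := by
  obtain ⟨_ | a, π⟩ := t
  · simp [dl_none]
  · rw [dl_some]
    have h1 : ∀ α : ι × Finset (Fin n), ∑ γ, |(Pi.single α 1 : ι × Finset (Fin n) → ℤ) γ| = 1 := by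
      intro α
      rw [sum_eq_single α]
      · simp
      · intro γ _ h
        simp [Pi.single_eq_of_ne h]
      · simp
    refine le_trans (sum_le_sum fun γ _ => abs_sub _ _) ?_
    rw [sum_add_distrib, h1, h1]
    norm_num

end Pool.Agent.P.MP_3acc10_al.Bld
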