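import Pool.Agent.P.MP_3acc10_al.BDefs

set_option autoImplicit false

namespace Pool.Agent.P.MP_3acc10_al.Bld

open Finset Module Matrix

variable {j : ℕ} {z : ℕ → ℝ}

theorem IP_empty : IP z (∅ : Finset (Finset (Fin j))) = 1 := by
  classical
  unfold IP
  rw [sum_filter, powerset_empty, sum_singleton, if_pos (by simp), prod_empty]

theorem IP_insert (hz : z 0 = 0) {F : Finset (Finset (Fin j))} {π : Finset (Fin j)} (h : π ∉ F) :
    IP z (insert π F) = IP z F - z π.card * IP z (F.filter fun ρ => Disjoint ρ π) := by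
  classical
  have _h0 := hz
  unfold IP
  rw [sum_filter, sum_powerset_insert h, sum_filter, sub_eq_add_neg]
  refine congrArg₂ (· + ·) rfl ?_
  have e : (F.filter fun ρ => Disjoint ρ π).powerset
      = F.powerset.filter fun C => ∀ ρ ∈ C, Disjoint ρ π := by
    ext C
    simp only [mem_powerset, mem_filter]
    constructor
    · intro hC
      exact ⟨fun ρ hρ => (mem_filter.1 (hC hρ)).1, fun ρ hρ => (mem_filter.1 (hC hρ)).2⟩
    · rintro ⟨h1, h2⟩ ρ hρ
      exact mem_filter.2 ⟨h1 hρ, h2 ρ hρ⟩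
  rw [e, filter_filter, sum_filter, mul_sum, ← sum_neg_distrib]
  refine sum_congr rfl fun C hC => ?_
  have hπ : π ∉ C := fun hh => h (mem_powerset.1 hC hh)
  have key : (∀ σ ∈ insert π C, ∀ ρ ∈ insert π C, σ ≠ ρ → Disjoint σ ρ) ↔
      ((∀ ρ ∈ C, Disjoint ρ π) ∧ ∀ σ ∈ C, ∀ ρ ∈ C, σ ≠ ρ → Disjoint σ ρ) := by
    constructor
    · intro H
      refine ⟨fun ρ hρ => H ρ (mem_insert_of_mem hρ) π (mem_insert_self _ _) ?_,
        fun σ hσ ρ hρ => H σ (mem_insert_of_mem hσ) ρ (mem_insert_of_mem hρ)⟩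
      rintro rfl
      exact hπ hρ
    · rintro ⟨H1, H2⟩ σ hσ ρ hρ hne
      rcases mem_insert.1 hσ with e1 | hσ'
      · rcases mem_insert.1 hρ with e2 | hρ'
        · exact absurd (e1.trans e2.symm) hne
        · rw [e1]; exact (H1 ρ hρ').symm
      · rcases mem_insert.1 hρ with e2 | hρ'
        · rw [e2]; exact H1 σ hσ'
        · exact H2 σ hσ' ρ hρ' hne
  by_cases H : (∀ ρ ∈ C, Disjoint ρ π) ∧ ∀ σ ∈ C, ∀ ρ ∈ C, σ ≠ ρ → Disjoint σ ρ
  · rw [if_pos (key.2 H), if_pos H, prod_insert hπ]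
    ring
  · rw [if_neg (fun hh => H (key.1 hh)), if_neg H]
    ring

theorem IP_eq (hz : z 0 = 0) (F : Finset (Finset (Fin j))) :
    IP z F = IP z (univ : Finset (Finset (Fin j))) + ∑ π ∈ Fᶜ, z π.card * IP z (nxt F π) := by
  classical
  induction hm : Fᶜ.card generalizing F with
  | zero =>
    have h1 : Fᶜ = ∅ := card_eq_zero.1 hm
    have h2 : F = univ := (compl_eq_empty_iff F).1 h1
    rw [h1, sum_empty, add_zero, h2]
  | succ m ih =>
    have hne : Fᶜ.Nonempty := card_pos.1 (by omega)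
    obtain ⟨π, hπ, hmin⟩ := exists_min_image Fᶜ rkS hne
    have hπF : π ∉ F := mem_compl.1 hπ
    have hc : (insert π F)ᶜ = Fᶜ.erase π := compl_insert
    have hcard : (insert π F)ᶜ.card = m := by
      rw [hc, card_erase_of_mem hπ, hm]; rfl
    have IH := ih (insert π F) hcard
    have e1 : nxt F π = F.filter fun ρ => Disjoint ρ π := by
      ext ρ
      rw [mem_nxt, mem_filter]
      constructor
      · rintro ⟨h1, h2⟩
        refine ⟨?_, h1⟩
        rcases h2 with h2 | h2
        · exact h2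
        · by_contra h3
          have := hmin ρ (mem_compl.2 h3)
          omega
      · rintro ⟨h1, h2⟩
        exact ⟨h2, Or.inl h1⟩
    have e2 : ∀ ρ ∈ Fᶜ.erase π, nxt (insert π F) ρ = nxt F ρ := by
      intro ρ hρ
      have h1 := (mem_erase.1 hρ).1
      have h2 := hmin ρ (mem_erase.1 hρ).2
      have h3 : rkS π ≠ rkS ρ := fun hh => h1 (rkS_inj hh).symm
      ext σ
      rw [mem_nxt, mem_nxt, mem_insert]
      constructor
      · rintro ⟨a, b⟩
        refine ⟨a, ?_⟩
        rcases b with (b | b) | b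
        · right; rw [b]; omega
        · exact Or.inl b
        · exact Or.inr b
      · rintro ⟨a, b⟩
        exact ⟨a, b.imp Or.inr id⟩
    rw [IP_insert hz hπF, hc, sum_congr rfl (fun ρ hρ => by rw [e2 ρ hρ])] at IH
    rw [← add_sum_erase _ _ hπ, e1]
    linarith

end Pool.Agent.P.MP_3acc10_al.Bld
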