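import Pool.Agent.P.MP_3acc10_al.BRatio

set_option autoImplicit false

namespace Pool.Agent.P.MP_3acc10_al.Bld

open Finset Module Matrix

variable {n j : ℕ} {ι : Type} [Fintype ι] [DecidableEq ι]

variable {x0 x y : Fin j → Fin n} {c : ι × Finset (Fin n) → ℤ} {σ : St (Let ι j)} {a : ι}
  {π : Finset (Fin j)} {M : Finset (Fin j)} {N : Finset (ι × Finset (Fin n))}
  {Γ : Finset (Finset (Fin j))}

lemma binv1_eq (hG : Good x0 x c) (h1 : ∀ p ∈ π, uu x0 c (x p) = 1) {ρ : Finset (Fin j)}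
    (h : ρ.image x = π.image x) : ρ = π := by
  ext p
  constructor
  · intro hp
    have : x p ∈ π.image x := h ▸ mem_image_of_mem x hp
    obtain ⟨q, hq, e⟩ := mem_image.1 this
    rw [eq_of_uu_one hG (h1 q hq) e.symm]
    exact hq
  · intro hp
    have : x p ∈ ρ.image x := h ▸ mem_image_of_mem x hp
    obtain ⟨q, hq, e⟩ := mem_image.1 this
    rw [← eq_of_uu_one hG (h1 p hp) e]
    exact hq

lemma binv1_mult (x : Fin j → Fin n) (p : Fin j) : 1 ≤ mult x (x p) :=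
  card_pos.2 ⟨p, by simp⟩

lemma binv1_two (hc : π.card = 2) (hx : ¬ Set.InjOn x π) {p : Fin j} (hp : p ∈ π) :
    2 ≤ mult x (x p) := by
  obtain ⟨u, v, huv, rfl⟩ := card_eq_two.1 hc
  have hx' : x u = x v := by
    by_contra hne
    apply hx
    intro s hs t ht e
    simp only [coe_insert, coe_singleton, Set.mem_insert_iff, Set.mem_singleton_iff] at hs ht
    rcases hs with rfl | rfl <;> rcases ht with rfl | rfl
    · rfl
    · exact absurd e hne
    · exact absurd e.symm hne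
    · rfl
  rw [← hc]
  apply card_le_card
  intro s hs
  simp only [mem_insert, mem_singleton] at hs hp
  simp only [mem_filter, mem_univ, true_and]
  rcases hs with rfl | rfl <;> rcases hp with rfl | rfl
  · rfl
  · exact hx'
  · exact hx'.symm
  · rfl

lemma binv1_stay {s t : Let ι j} (hs : s ∉ alw σ) (h : Adj t s) :
    s ∉ alw (upd Adj rk σ t) := by
  intro h'
  rw [mem_alw, upd_fst] at h'
  apply h'.2
  rw [mem_upd]
  refine Or.inr ⟨h'.1, h, Or.inl ?_⟩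
  by_contra h2
  exact hs (mem_alw.2 ⟨h'.1, h2⟩)

theorem Clo_notin (hG : Good x0 x c) (hI : Inv x0 x σ c M N Γ) (hC : Clo x0 x σ c a π) :
    (a, π.image x) ∉ N ∧ Disjoint π M := by
  have h1 : (a, π.image x) ∉ N := by
    intro hN
    rcases hI.2.2.1 _ hN with ⟨ρ, _, h2, h3⟩ | ⟨e, he, β, hβ, hc, _⟩ | ⟨e, he, h2⟩
    · rw [binv1_eq hG hC.2.2.2 h2] at h3
      exact h3 hC.1
    · obtain ⟨p, hp, rfl⟩ := mem_image.1 he
      have h4 := mult_lt hG hc hβ
      have h5 := hC.2.2.2 p hp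
      have h6 := binv1_mult x p
      omega
    · obtain ⟨p, hp, rfl⟩ := mem_image.1 he
      have h5 := hC.2.2.2 p hp
      omega
  refine ⟨h1, disjoint_left.2 fun p hp hM => h1 ?_⟩
  obtain ⟨γ, hγ, h2⟩ := hI.2.1 p hM
  have := label_eq (x0 := x0) (hC.2.2.2 p hp).le (hI.1 γ hγ) hC.2.2.1 h2
    (mem_image_of_mem x hp)
  rw [← this.1]
  exact hγ

theorem Clo_uniq (hπ : π.Nonempty) {b : ι} (hC : Clo x0 x σ c a π) (hC' : Clo x0 x σ c b π) :
    a = b := by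
  obtain ⟨p, hp⟩ := hπ
  have := label_eq (x0 := x0) (hC.2.2.2 p hp).le hC.2.2.1 hC'.2.2.1
    (mem_image_of_mem x hp) (mem_image_of_mem x hp)
  exact congrArg Prod.fst this.1

theorem Clo_disj (hG : Good x0 x c) {b : ι} {ρ : Finset (Fin j)} (hC : Clo x0 x σ c a π)
    (hC' : Clo x0 x σ c b ρ) (h : π ≠ ρ) : Disjoint π ρ := by
  refine disjoint_left.2 fun p hp hp' => h ?_
  have := label_eq (x0 := x0) (hC.2.2.2 p hp).le hC.2.2.1 hC'.2.2.1
    (mem_image_of_mem x hp) (mem_image_of_mem x hp')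
  exact binv1_eq hG hC'.2.2.2 (congrArg Prod.snd this.1)

theorem Inv_add (hI : Inv x0 x σ c M N Γ) (ha : (some a, π) ∉ alw σ)
    (hc : 0 < c (a, π.image x)) : Inv x0 x σ c (M ∪ π) (insert (a, π.image x) N) Γ := by
  refine ⟨?_, ?_, ?_, ?_⟩
  · intro γ hγ
    rcases mem_insert.1 hγ with rfl | hγ
    · exact hc
    · exact hI.1 γ hγ
  · intro p hp
    rcases mem_union.1 hp with hp | hp
    · obtain ⟨γ, hγ, h⟩ := hI.2.1 p hp
      exact ⟨γ, mem_insert_of_mem hγ, h⟩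
    · exact ⟨_, mem_insert_self _ _, mem_image_of_mem x hp⟩
  · intro γ hγ
    rcases mem_insert.1 hγ with rfl | hγ
    · exact Or.inl ⟨π, subset_union_right, rfl, ha⟩
    · rcases hI.2.2.1 _ hγ with ⟨ρ, h1, h2, h3⟩ | ⟨e, he, β, hβ, hc, γ', h1, h2⟩ | h
      · exact Or.inl ⟨ρ, h1.trans subset_union_left, h2, h3⟩
      · exact Or.inr (Or.inl ⟨e, he, β, hβ, hc, γ', mem_insert_of_mem h1, h2⟩)
      · exact Or.inr (Or.inr h)
  · intro ρ hρ
    obtain ⟨h1, h2 | ⟨p, hp, h3, h4⟩⟩ := hI.2.2.2 ρ hρ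
    · exact ⟨h1, Or.inl h2⟩
    · exact ⟨h1, Or.inr ⟨p, hp, mem_union_left _ h3, h4⟩⟩

theorem Inv_g (hG : Good x0 x c) (hI : Inv x0 x σ c M N Γ) (ha : (none, π) ∈ alw σ)
    (hc : π.card = 2) (hx : ¬ Set.InjOn x π) :
    π ∉ Γ ∧ Inv x0 x (upd Adj rk σ (none, π)) c M N (insert π Γ) := by
  have h2 : ∀ p ∈ π, 2 ≤ uu x0 c (x p) := fun p hp =>
    (binv1_two hc hx hp).trans (mult_le hG _)
  refine ⟨?_, hI.1, hI.2.1, ?_, ?_⟩
  · intro hΓ
    obtain ⟨_, h | ⟨p, hp, _, h4⟩⟩ := hI.2.2.2 π hΓ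
    · exact h.1 ha
    · have := h2 p hp
      omega
  · intro γ hγ
    rcases hI.2.2.1 _ hγ with ⟨ρ, h1, h3, h4⟩ | h | h
    · by_cases hd : Disjoint π ρ
      · exact Or.inl ⟨ρ, h1, h3, binv1_stay h4 ⟨by simp, Or.inl hd⟩⟩
      · obtain ⟨p, hp, hp'⟩ := not_disjoint_iff.1 hd
        exact Or.inr (Or.inr ⟨x p, h3 ▸ mem_image_of_mem x hp', h2 p hp⟩)
    · exact Or.inr (Or.inl h)
    · exact Or.inr (Or.inr h)
  · intro ρ hρ
    rcases mem_insert.1 hρ with rfl | hρ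
    · refine ⟨hc, Or.inl ⟨fun h => (mem_alw.1 h).2 ?_, hx⟩⟩
      rw [mem_upd]
      exact Or.inl rfl
    · obtain ⟨h1, h | h⟩ := hI.2.2.2 ρ hρ
      · refine ⟨h1, Or.inl ⟨binv1_stay h.1 ⟨?_, Or.inr ⟨rfl, rfl⟩⟩, h.2⟩⟩
        intro e
        exact h.1 (e ▸ ha)
      · exact ⟨h1, Or.inr h⟩

theorem Inv_OO (hG : Good x0 x c) (hI : Inv x0 x σ c M N Γ) (hC : Clo x0 x σ c a π)
    (hP : Pan π x y) (hne : π.image y ≠ π.image x) (hz : zz c a = 1)
    (hα : c (a, π.image y) < 0) :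
    Inv x0 y (upd Adj rk σ (some a, π)) (c + dl (some a, π) x y) M N Γ := by
  obtain ⟨hN, hM⟩ := Clo_notin hG hI hC
  have hNa : ∀ γ ∈ N, γ.1 ≠ a := by
    rintro ⟨b, I⟩ hγ (rfl : b = a)
    have hI' : I ≠ π.image x := fun e => hN (e ▸ hγ)
    have h1 : ∑ J ∈ {I, π.image x}, (c (b, J)).toNat ≤ zz c b :=
      sum_le_sum_of_subset (subset_univ _)
    rw [sum_pair hI'] at h1
    have h2 := hI.1 _ hγ
    have h3 := hC.2.2.1
    omega
  have hc : ∀ γ : ι × Finset (Fin n), γ.1 ≠ a → (c + dl (some a, π) x y) γ = c γ := by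
    intro γ hγ
    have h1 : γ ≠ (a, π.image y) := fun e => hγ (congrArg Prod.fst e)
    have h2 : γ ≠ (a, π.image x) := fun e => hγ (congrArg Prod.fst e)
    simp [dl_some, Pi.single_eq_of_ne h1, Pi.single_eq_of_ne h2]
  have hy : ∀ p ∈ M, y p = x p := fun p hp => hP.1 p (disjoint_right.1 hM hp)
  have hu : ∀ e, e ∉ π.image x → uu x0 (c + dl (some a, π) x y) e = uu x0 c e := by
    intro e he
    have h1 := uu_step (x0 := x0) (c := c) (a := a) hne e
    rw [if_neg (fun h => he h.2), if_neg (fun h => absurd h.1 (not_le.2 hα))] at h1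
    omega
  refine ⟨?_, ?_, ?_, ?_⟩
  · intro γ hγ
    rw [hc γ (hNa γ hγ)]
    exact hI.1 γ hγ
  · intro p hp
    rw [hy p hp]
    exact hI.2.1 p hp
  · intro γ hγ
    rcases hI.2.2.1 _ hγ with ⟨ρ, h1, h2, h3⟩ | ⟨e, he, β, hβ, hc', γ', h1, h2⟩ | ⟨e, he, h2⟩
    · refine Or.inl ⟨ρ, h1, ?_, binv1_stay h3 ⟨?_, Or.inl (hM.mono_right h1)⟩⟩
      · rw [← h2]
        exact image_congr fun p hp => hy p (h1 hp)
      · intro e
        exact hNa γ hγ (Option.some.inj (congrArg Prod.fst e)).symm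
    · refine Or.inr (Or.inl ⟨e, he, β, hβ, ?_, γ', h1, h2⟩)
      rw [hc β (h2 ▸ hNa γ' h1)]
      exact hc'
    · refine Or.inr (Or.inr ⟨e, he, ?_⟩)
      rw [hu e]
      · exact h2
      · intro h
        obtain ⟨p, hp, rfl⟩ := mem_image.1 h
        have := hC.2.2.2 p hp
        omega
  · intro ρ hρ
    obtain ⟨h1, h | ⟨p, hp, h3, h4⟩⟩ := hI.2.2.2 ρ hρ
    · have hd : Disjoint π ρ := by
        refine disjoint_left.2 fun p hp hp' => ?_
        have h2 := (binv1_two h1 h.2 hp').trans (mult_le hG _)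
        have := hC.2.2.2 p hp
        omega
      refine ⟨h1, Or.inl ⟨binv1_stay h.1 ⟨by simp, Or.inl hd⟩, fun h' => h.2 ?_⟩⟩
      exact h'.congr fun p hp => hP.1 p (disjoint_right.1 hd hp)
    · refine ⟨h1, Or.inr ⟨p, hp, h3, ?_⟩⟩
      rw [hy p h3, hu]
      · exact h4
      · intro h
        obtain ⟨q, hq, e⟩ := mem_image.1 h
        have := eq_of_uu_one hG h4 e
        exact disjoint_left.1 hM hq (this ▸ h3)

end Pool.Agent.P.MP_3acc10_al.Bld
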