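import Pool.Agent.P.MP_3acc10_al.BInv1

set_option autoImplicit false

namespace Pool.Agent.P.MP_3acc10_al.Bld

open Finset Module Matrix

variable {n j : ℕ} {ι : Type} [Fintype ι] [DecidableEq ι]

variable {x0 x y : Fin j → Fin n} {c : ι × Finset (Fin n) → ℤ} {σ : St (Let ι j)} {a : ι}
  {π : Finset (Fin j)} {M : Finset (Fin j)} {N : Finset (ι × Finset (Fin n))}
  {Γ : Finset (Finset (Fin j))}

omit [Fintype ι] in
theorem binv2_val (γ : ι × Finset (Fin n)) :
    (c + dl (some a, π) x y) γ = c γ + (if γ = (a, π.image y) then 1 else 0) -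
      (if γ = (a, π.image x) then 1 else 0) := by
  simp only [dl_some, Pi.add_apply, Pi.sub_apply, Pi.single_apply]
  ring

omit [Fintype ι] in
theorem binv2_stay {s t : Let ι j} (hs : s ∉ alw σ) (hA : Adj t s) :
    s ∉ alw (upd Adj rk σ t) := by
  intro h
  rw [mem_alw, upd_fst, mem_upd] at h
  rw [mem_alw] at hs
  refine h.2 (Or.inr ⟨h.1, hA, Or.inl ?_⟩)
  by_contra h2
  exact hs ⟨h.1, h2⟩

omit [Fintype ι] in
theorem binv2_self (t : Let ι j) : t ∉ alw (upd Adj rk σ t) := by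
  intro h
  rw [mem_alw, mem_upd] at h
  exact h.2 (Or.inl rfl)

theorem binv2_image {ρ : Finset (Fin j)} (hP : Pan π x y) (hd : Disjoint π ρ) :
    ρ.image y = ρ.image x :=
  image_congr fun p hp => hP.1 p fun hπ => disjoint_left.1 hd hπ hp

theorem binv2_inj {ρ : Finset (Fin j)} (hP : Pan π x y) (hd : Disjoint π ρ)
    (h : ¬ Set.InjOn x ρ) : ¬ Set.InjOn y ρ := by
  intro hy
  refine h fun p hp q hq e => hy hp hq ?_
  rw [hP.1 p fun hπ => disjoint_left.1 hd hπ hp, hP.1 q fun hπ => disjoint_left.1 hd hπ hq, e]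

theorem binv2_cov (hI : Inv x0 x σ c M N Γ) (hP : Pan π x y) :
    ∀ p ∈ M ∪ π, ∃ γ ∈ insert (a, π.image y) N, y p ∈ γ.2 := by
  intro p hp
  by_cases hπ : p ∈ π
  · exact ⟨_, mem_insert_self _ _, mem_image_of_mem y hπ⟩
  · obtain ⟨γ, hγ, hx⟩ := hI.2.1 p ((mem_union.1 hp).resolve_right hπ)
    exact ⟨γ, mem_insert_of_mem hγ, by rw [hP.1 p hπ]; exact hx⟩

theorem Inv_NN (hG : Good x0 x c) (hI : Inv x0 x σ c M N Γ) (ha : (some a, π) ∈ alw σ)
    (hP : Pan π x y) (hne : π.image y ≠ π.image x) (hz : zz c a = 0) (hF : Fresh x0 c π y) :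
    Inv x0 y (upd Adj rk σ (some a, π)) (c + dl (some a, π) x y) (M ∪ π)
      (insert (a, π.image y) N) Γ := by
  have h0 : ∀ I, c (a, I) = 0 := zero_of_zz hG hz
  have hαβ : ((a, π.image y) : ι × Finset (Fin n)) ≠ (a, π.image x) :=
    fun e => hne (congrArg Prod.snd e)
  have hoff : ∀ γ : ι × Finset (Fin n), c γ ≠ 0 → γ.1 ≠ a := by
    rintro ⟨b, I⟩ hc rfl
    exact hc (h0 I)
  have hsame : ∀ γ : ι × Finset (Fin n), γ.1 ≠ a → (c + dl (some a, π) x y) γ = c γ := by
    intro γ hγ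
    rw [binv2_val, if_neg fun e => hγ (congrArg Prod.fst e),
      if_neg fun e => hγ (congrArg Prod.fst e)]
    ring
  have hα : (c + dl (some a, π) x y) (a, π.image y) = 1 := by
    rw [binv2_val, if_pos rfl, if_neg hαβ, h0]
    ring
  have hβ : (c + dl (some a, π) x y) (a, π.image x) = -1 := by
    rw [binv2_val, if_neg hαβ.symm, if_pos rfl, h0]
    ring
  have huu : ∀ e, uu x0 (c + dl (some a, π) x y) e =
      uu x0 c e + if e ∈ π.image y then 1 else 0 := by
    intro e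
    have := uu_step (x0 := x0) (c := c) (a := a) hne e
    simpa only [h0, lt_irrefl, false_and, if_false, add_zero, le_refl, true_and] using this
  have hN : ∀ γ ∈ N, γ.1 ≠ a := fun γ hγ => hoff γ (hI.1 γ hγ).ne'
  refine ⟨fun γ hγ => ?_, binv2_cov hI hP, fun γ hγ => ?_, fun ρ hρ => ⟨(hI.2.2.2 ρ hρ).1, ?_⟩⟩
  · rcases mem_insert.1 hγ with rfl | hγ
    · rw [hα]; exact one_pos
    · rw [hsame γ (hN γ hγ)]; exact hI.1 γ hγ
  · rcases mem_insert.1 hγ with rfl | hγ
    · exact Or.inl ⟨π, subset_union_right, rfl, binv2_self _⟩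
    rcases hI.2.2.1 γ hγ with ⟨π', h1, h2, h3⟩ | ⟨e, he, β', h1, h2, γ', h3, h4⟩ | ⟨e, he, h1⟩
    · by_cases hd : Disjoint π π'
      · refine Or.inl ⟨π', h1.trans subset_union_left, by rw [binv2_image hP hd, h2],
          binv2_stay h3 ⟨fun e => h3 (e ▸ ha), Or.inl hd⟩⟩
      · obtain ⟨p, hp, hp'⟩ := not_disjoint_iff.1 hd
        refine Or.inr (Or.inl ⟨x p, h2 ▸ mem_image_of_mem x hp', (a, π.image x),
          mem_image_of_mem x hp, ?_, (a, π.image y), mem_insert_self _ _, rfl⟩)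
        rw [hβ]
        norm_num
    · refine Or.inr (Or.inl ⟨e, he, β', h1, ?_, γ', mem_insert_of_mem h3, h4⟩)
      rw [hsame β' (hoff β' h2.ne)]
      exact h2
    · refine Or.inr (Or.inr ⟨e, he, ?_⟩)
      rw [huu]
      omega
  · by_cases hd : Disjoint π ρ
    · rcases (hI.2.2.2 ρ hρ).2 with ⟨h1, h2⟩ | ⟨p, hp, hM, h1⟩
      · exact Or.inl ⟨binv2_stay h1 ⟨fun e => h1 (e ▸ ha), Or.inl hd⟩, binv2_inj hP hd h2⟩
      · refine Or.inr ⟨p, hp, mem_union_left _ hM, ?_⟩
        rw [hP.1 p fun hπ => disjoint_left.1 hd hπ hp, huu, h1, if_neg]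
        intro hm
        obtain ⟨q, hq, e⟩ := mem_image.1 hm
        have := hF q hq
        rw [e, h1] at this
        exact one_ne_zero this
    · obtain ⟨p, hp, hp'⟩ := not_disjoint_iff.1 hd
      refine Or.inr ⟨p, hp', mem_union_right _ hp, ?_⟩
      rw [huu, hF p hp, if_pos (mem_image_of_mem y hp)]

theorem Inv_ON (hG : Good x0 x c) (hI : Inv x0 x σ c M N Γ) (hC : Clo x0 x σ c a π)
    (hP : Pan π x y) (hne : π.image y ≠ π.image x) (hF : Fresh x0 c π y) :
    Inv x0 y (upd Adj rk σ (some a, π)) (c + dl (some a, π) x y) (M ∪ π)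
      (insert (a, π.image y) N) Γ := by
  obtain ⟨hβN, hdM⟩ := Clo_notin hG hI hC
  obtain ⟨ha, -, hβ0, hu1⟩ := hC
  have hαβ : ((a, π.image y) : ι × Finset (Fin n)) ≠ (a, π.image x) :=
    fun e => hne (congrArg Prod.snd e)
  obtain ⟨p0, hp0⟩ : π.Nonempty := by
    rw [nonempty_iff_ne_empty]
    rintro rfl
    exact hne (by simp)
  have hα0 : c (a, π.image y) = 0 := zero_of_uu hG (hF p0 hp0) (mem_image_of_mem y hp0)
  have huu : ∀ e, e ∉ π.image x → uu x0 (c + dl (some a, π) x y) e =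
      uu x0 c e + if e ∈ π.image y then 1 else 0 := by
    intro e he
    have := uu_step (x0 := x0) (c := c) (a := a) hne e
    simpa only [hα0, he, and_false, if_false, add_zero, le_refl, true_and] using this
  refine ⟨fun γ hγ => ?_, binv2_cov hI hP, fun γ hγ => ?_, fun ρ hρ => ⟨(hI.2.2.2 ρ hρ).1, ?_⟩⟩
  · rcases mem_insert.1 hγ with rfl | hγ
    · rw [binv2_val, if_pos rfl, if_neg hαβ, hα0]
      norm_num
    · have h1 := hI.1 γ hγ
      have h2 : γ ≠ (a, π.image x) := fun e => hβN (e ▸ hγ)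
      rw [binv2_val, if_neg h2]
      split_ifs <;> omega
  · rcases mem_insert.1 hγ with rfl | hγ
    · exact Or.inl ⟨π, subset_union_right, rfl, binv2_self _⟩
    rcases hI.2.2.1 γ hγ with ⟨π', h1, h2, h3⟩ | ⟨e, he, β', h1, h2, γ', h3, h4⟩ | ⟨e, he, h1⟩
    · have hd : Disjoint π π' := hdM.mono_right h1
      exact Or.inl ⟨π', h1.trans subset_union_left, by rw [binv2_image hP hd, h2],
        binv2_stay h3 ⟨fun e => h3 (e ▸ ha), Or.inl hd⟩⟩
    · refine Or.inr (Or.inl ⟨e, he, β', h1, ?_, γ', mem_insert_of_mem h3, h4⟩)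
      have n1 : β' ≠ (a, π.image y) := by
        rintro rfl
        omega
      have n2 : β' ≠ (a, π.image x) := by
        rintro rfl
        omega
      rw [binv2_val, if_neg n1, if_neg n2]
      omega
    · refine Or.inr (Or.inr ⟨e, he, ?_⟩)
      have hex : e ∉ π.image x := by
        intro hm
        obtain ⟨q, hq, rfl⟩ := mem_image.1 hm
        have := hu1 q hq
        omega
      rw [huu e hex]
      omega
  · by_cases hd : Disjoint π ρ
    · rcases (hI.2.2.2 ρ hρ).2 with ⟨h1, h2⟩ | ⟨p, hp, hM, h1⟩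
      · exact Or.inl ⟨binv2_stay h1 ⟨fun e => h1 (e ▸ ha), Or.inl hd⟩, binv2_inj hP hd h2⟩
      · have hpπ : p ∉ π := fun hπ => disjoint_left.1 hd hπ hp
        refine Or.inr ⟨p, hp, mem_union_left _ hM, ?_⟩
        have hex : x p ∉ π.image x := by
          intro hm
          obtain ⟨q, hq, e⟩ := mem_image.1 hm
          exact hpπ (eq_of_uu_one hG h1 e ▸ hq)
        rw [hP.1 p hpπ, huu _ hex, h1, if_neg]
        intro hm
        obtain ⟨q, hq, e⟩ := mem_image.1 hm
        have := hF q hq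
        rw [e, h1] at this
        exact one_ne_zero this
    · obtain ⟨p, hp, hp'⟩ := not_disjoint_iff.1 hd
      refine Or.inr ⟨p, hp', mem_union_right _ hp, ?_⟩
      have hex : y p ∉ π.image x := by
        intro hm
        obtain ⟨q, hq, e⟩ := mem_image.1 hm
        have h1 := hu1 q hq
        rw [e, hF p hp] at h1
        exact zero_ne_one h1
      rw [huu _ hex, hF p hp, if_pos (mem_image_of_mem y hp)]

end Pool.Agent.P.MP_3acc10_al.Bld
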