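import Pool.Agent.P.MP_3acc10_al.BDefs
import Pool.Agent.P.MP_3acc10_al.Vanish

set_option autoImplicit false

namespace Pool.Agent.P.MP_3acc10_al.Bld

open Finset Module Matrix

theorem bvan_remove {n r : ℕ} (d : Fin r → ℕ) (j : ℕ) (hd : ∀ i, 0 < d i)
    (hpos : ∀ i ≤ j, 0 < al n d univ i) (A T : Finset (Fin r)) (hT : Disjoint T A) :
    (al n d A (j + 1) : ℝ) ≤ al n d (T ∪ A) (j + 1) +
      ∑ l ∈ T, (if d l ≤ j + 1 then (3 : ℝ) ^ j * (n : ℝ) ^ (j + 1 - d l) else 0) := by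
  have habs := al_abs n d univ (fun l _ => hd l) j (count_le n d j (fun l _ => hd l) hpos)
  induction T using Finset.induction_on with
  | empty => simp
  | insert l T hl ih =>
    rw [disjoint_insert_left] at hT
    have hl' : l ∉ T ∪ A := by simp [hl, hT.1]
    rw [insert_union, al_insert n d hl', sum_insert hl]
    have h1 := ih hT.2
    split_ifs with h
    · have h0 := hd l
      have h2 := (le_abs_self _).trans (habs (j + 1 - d l) (by omega) (T ∪ A) (subset_univ _))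
      have h3 : (3 : ℝ) ^ (j + 1 - d l) ≤ 3 ^ j := pow_le_pow_right₀ (by norm_num) (by omega)
      have h4 : (3 : ℝ) ^ (j + 1 - d l) * (1 * (n : ℝ) ^ (j + 1 - d l)) ≤
          3 ^ j * (n : ℝ) ^ (j + 1 - d l) := by
        rw [one_mul]
        exact mul_le_mul_of_nonneg_right h3 (by positivity)
      push_cast
      linarith
    · push_cast
      linarith

theorem bvan_size {n J e : ℕ} (hn : 1 ≤ n) (hJ : 1 ≤ J) (he : 0 < e) (C M : ℝ)
    (hM : |C| + 1 ≤ M) : (⌈C * (n : ℝ) ^ ((e : ℝ) - e / (2 * J))⌉₊ : ℝ) ≤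
      M * ((n : ℝ) ^ e / (n : ℝ) ^ (1 / (2 * J : ℝ))) := by
  have hn1 : (1 : ℝ) ≤ n := by exact_mod_cast hn
  have hJ1 : (1 : ℝ) ≤ J := by exact_mod_cast hJ
  have he1 : (1 : ℝ) ≤ e := by exact_mod_cast he
  have h1 : (n : ℝ) ^ e / (n : ℝ) ^ (1 / (2 * J : ℝ)) = (n : ℝ) ^ ((e : ℝ) - 1 / (2 * J)) := by
    rw [Real.rpow_sub (by linarith), Real.rpow_natCast]
  have h2 : (n : ℝ) ^ ((e : ℝ) - e / (2 * J)) ≤ (n : ℝ) ^ ((e : ℝ) - 1 / (2 * J)) := by
    refine Real.rpow_le_rpow_of_exponent_le hn1 ?_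
    have := div_le_div_of_nonneg_right he1 (by positivity : (0 : ℝ) ≤ 2 * J)
    linarith
  have h3 : (1 : ℝ) ≤ (n : ℝ) ^ ((e : ℝ) - 1 / (2 * J)) := by
    refine Real.one_le_rpow hn1 ?_
    have : 1 / (2 * J : ℝ) ≤ 1 := by
      rw [div_le_one (by positivity)]
      linarith
    linarith
  have h0 : 0 ≤ (n : ℝ) ^ ((e : ℝ) - e / (2 * J)) := by positivity
  have h4 : C * (n : ℝ) ^ ((e : ℝ) - e / (2 * J)) ≤ |C| * (n : ℝ) ^ ((e : ℝ) - 1 / (2 * J)) :=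
    mul_le_mul (le_abs_self C) h2 h0 (abs_nonneg C)
  rw [h1]
  generalize (n : ℝ) ^ ((e : ℝ) - 1 / (2 * J)) = u at h3 h4 ⊢
  have h5 : 0 ≤ |C| * u := mul_nonneg (abs_nonneg C) (by linarith)
  calc (⌈C * (n : ℝ) ^ ((e : ℝ) - e / (2 * J))⌉₊ : ℝ) ≤ (⌈|C| * u⌉₊ : ℝ) := by
        exact_mod_cast Nat.ceil_mono h4
    _ ≤ |C| * u + 1 := (Nat.ceil_lt_add_one h5).le
    _ ≤ (|C| + 1) * u := by linarith
    _ ≤ M * u := mul_le_mul_of_nonneg_right hM (by linarith)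

theorem van (j : ℕ) : ∃ k n0 : ℕ, ∀ (K : Type) [Field K] [Infinite K] (n r : ℕ) (d : Fin r → ℕ)
    (ε : ℝ), n0 ≤ n → 0 < ε → 1 ≤ ε ^ k * n → (∀ i, 0 < d i) → (∀ i ≤ j, 0 < al n d univ i) →
    (al n d univ (j + 1) : ℝ) ≤ -(ε * (n : ℝ) ^ (j + 1)) →
    Gen fun c : Fin r × Finset (Fin n) → K => hilb d c (j + 1) = 0 := by
  have hv : ∀ e : ℕ, ∃ C : ℝ, 0 < e → e ≤ j + 1 → ∀ (K : Type) [Field K] [Infinite K]
      (n r : ℕ) (d : Fin r → ℕ) (A : Finset (Fin r)), (∀ i, 0 < d i) →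
      truncCoeff (series n d A) (j + 1) = 0 →
      C * (n : ℝ) ^ ((e : ℝ) - e / (2 * ((j + 1 : ℕ) : ℝ))) ≤ (Aᶜ.filter fun i => d i = e).card →
      Gen fun c : Fin r × Finset (Fin n) → K => hilb d c (j + 1) = 0 := by
    intro e
    by_cases h : 0 < e ∧ e ≤ j + 1
    · obtain ⟨C, hC⟩ := vanish (j + 1) e h.1 h.2
      exact ⟨C, fun _ _ => hC⟩
    · exact ⟨0, fun h1 h2 => absurd ⟨h1, h2⟩ h⟩
  choose C hC using hv
  obtain ⟨M, hM0, hM⟩ : ∃ M : ℝ, 0 ≤ M ∧ ∀ e ≤ j + 1, |C e| + 1 ≤ M :=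
    ⟨∑ e ∈ range (j + 2), (|C e| + 1), sum_nonneg fun e _ => by positivity, fun e he =>
      single_le_sum (f := fun e => |C e| + 1) (fun e _ => by positivity)
        (mem_range.2 (by omega))⟩
  refine ⟨4 * (j + 1), ⌈(((j + 1 : ℕ) : ℝ) * (3 ^ j * M)) ^ (4 * (j + 1))⌉₊ + 1,
    fun K _ _ n r d ε hn hε hεn hd hpos hneg => ?_⟩
  have hn1 : 1 ≤ n := by omega
  have hn0 : (0 : ℝ) < n := by exact_mod_cast hn1
  have hJ : (1 : ℝ) ≤ ((j + 1 : ℕ) : ℝ) := by exact_mod_cast Nat.succ_pos j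
  have hsz := fun e (he : 0 < e) (he' : e ≤ j + 1) =>
    bvan_size hn1 (Nat.succ_pos j) he (C e) M (hM e he')
  set y : ℝ := (n : ℝ) ^ (1 / (2 * ((j + 1 : ℕ) : ℝ))) with hy
  have hy0 : 0 < y := Real.rpow_pos_of_pos hn0 _
  have hyn : y ^ (4 * (j + 1)) = (n : ℝ) * n := by
    rw [hy, ← Real.rpow_natCast, ← Real.rpow_mul hn0.le, ← sq, ← Real.rpow_natCast]
    congr 1
    push_cast
    field_simp
    norm_num
  have hB : ((j + 1 : ℕ) : ℝ) * (3 ^ j * M) < ε * y := by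
    refine lt_of_pow_lt_pow_left₀ (4 * (j + 1)) (by positivity) ?_
    have h1 : (((j + 1 : ℕ) : ℝ) * (3 ^ j * M)) ^ (4 * (j + 1)) < n :=
      (Nat.le_ceil _).trans_lt (by exact_mod_cast hn)
    refine h1.trans_le ?_
    rw [mul_pow, hyn, ← mul_assoc]
    exact le_mul_of_one_le_left hn0.le hεn
  have hu : 0 < (n : ℝ) ^ (j + 1) / y := by positivity
  have hkey : ((j + 1 : ℕ) : ℝ) * (3 ^ j * M * ((n : ℝ) ^ (j + 1) / y)) <
      ε * (n : ℝ) ^ (j + 1) := by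
    have h1 := mul_lt_mul_of_pos_right hB hu
    have h2 : ε * y * ((n : ℝ) ^ (j + 1) / y) = ε * (n : ℝ) ^ (j + 1) := by field_simp
    rw [h2, mul_assoc] at h1
    exact h1
  have hterm : ∀ e, 0 < e → e ≤ j + 1 → ∀ S : Finset (Fin r), (∀ l ∈ S, d l = e) →
      S.card ≤ ⌈C e * (n : ℝ) ^ ((e : ℝ) - e / (2 * ((j + 1 : ℕ) : ℝ)))⌉₊ →
      ∑ l ∈ S, (3 : ℝ) ^ j * (n : ℝ) ^ (j + 1 - d l) ≤ 3 ^ j * M * ((n : ℝ) ^ (j + 1) / y) := by
    intro e he he' S hS hc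
    rw [sum_congr rfl fun l hl => by rw [hS l hl], sum_const, nsmul_eq_mul]
    have h1 : (S.card : ℝ) ≤ M * ((n : ℝ) ^ e / y) := (Nat.cast_le.2 hc).trans (hsz e he he')
    refine (mul_le_mul_of_nonneg_right h1 (by positivity)).trans (le_of_eq ?_)
    have h2 : (n : ℝ) ^ (j + 1) = (n : ℝ) ^ e * (n : ℝ) ^ (j + 1 - e) := by
      rw [← pow_add]
      congr 1
      omega
    rw [h2]
    ring
  have hW : 0 ≤ 3 ^ j * M * ((n : ℝ) ^ (j + 1) / y) := by positivity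
  by_cases hcase : ∃ e, 0 < e ∧ e ≤ j + 1 ∧
      ⌈C e * (n : ℝ) ^ ((e : ℝ) - e / (2 * ((j + 1 : ℕ) : ℝ)))⌉₊ ≤
        (univ.filter fun l => d l = e).card
  · obtain ⟨e, he, he', hc⟩ := hcase
    obtain ⟨S, hS, hSc⟩ := exists_subset_card_eq hc
    have hSe : ∀ l ∈ S, d l = e := fun l hl => (mem_filter.1 (hS hl)).2
    refine hC e he he' K n r d Sᶜ hd ?_ ?_
    · have h1 := bvan_remove d j hd hpos Sᶜ S disjoint_compl_right
      rw [union_compl, sum_congr rfl fun l hl => if_pos ((hSe l hl).trans_le he')] at h1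
      have h2 := hterm e he he' S hSe hSc.le
      have h3 := le_mul_of_one_le_left hW hJ
      have h4 : (al n d Sᶜ (j + 1) : ℝ) < 0 := by linarith
      have h5 : al n d Sᶜ (j + 1) < 0 := by exact_mod_cast h4
      exact if_neg fun h => absurd (h (j + 1) le_rfl) (not_lt.2 h5.le)
    · rw [compl_compl, filter_true_of_mem hSe, hSc]
      exact Nat.le_ceil _
  · exfalso
    have h1 := bvan_remove d j hd hpos ∅ univ (disjoint_empty_right _)
    rw [union_empty, sum_by_degree d univ (fun l _ => hd l)] at h1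
    have h2 : ∑ k ∈ range (j + 1), ∑ l ∈ univ.filter (fun l => d l = j + 1 - k),
        (3 : ℝ) ^ j * (n : ℝ) ^ (j + 1 - d l) ≤
        ∑ _k ∈ range (j + 1), 3 ^ j * M * ((n : ℝ) ^ (j + 1) / y) := by
      refine sum_le_sum fun k hk => ?_
      have hk' := mem_range.1 hk
      refine hterm (j + 1 - k) (by omega) (by omega) _ (fun l hl => (mem_filter.1 hl).2) ?_
      by_contra hlt
      exact hcase ⟨j + 1 - k, by omega, by omega, (not_le.1 hlt).le⟩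
    rw [sum_const, card_range, nsmul_eq_mul] at h2
    have h3 : (0 : ℝ) ≤ al n d ∅ (j + 1) := by
      rw [al, prod_empty, mul_one, Polynomial.coeff_one_add_X_pow]
      positivity
    linarith

end Pool.Agent.P.MP_3acc10_al.Bld
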