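import Pool.Agent.P.MP_3acc10_al.BCore
import Pool.Agent.P.MP_3acc10_al.BVan

set_option autoImplicit false

namespace Pool.Agent.P.MP_3acc10_al.Bld

open Finset Module Matrix

theorem margin (J : ℕ) : ∃ (γ : ℝ) (n0 : ℕ), 0 < γ ∧ ∀ (K : Type) [Field K] [CharZero K]
    (n r : ℕ) (d : Fin r → ℕ), n0 ≤ n → (∀ i, 0 < d i) →
    (∀ i < J, 0 < truncCoeff (series n d univ) i →
      (n : ℝ) ^ ((i + 1 : ℝ) - γ) ≤ |(((series n d univ).coeff (i + 1) : ℤ) : ℝ)|) →
    ∃ P : MvPolynomial (Fin r × Finset (Fin n)) K, P ≠ 0 ∧ ∀ c, MvPolynomial.eval c P ≠ 0 →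
      ∀ j, (j ≤ J ∨ truncCoeff (series n d univ) J = 0) →
        (hilb d c j : ℤ) = truncCoeff (series n d univ) j := by
  choose k1 n1 h1 using core
  choose k2 n2 h2 using van
  obtain ⟨k, hk⟩ : ∃ k, k = (range (J + 1)).sup k1 + (range (J + 1)).sup k2 + 1 := ⟨_, rfl⟩
  have hk0 : (0 : ℝ) < k := by exact_mod_cast (show 0 < k by omega)
  refine ⟨(k : ℝ)⁻¹, (range (J + 1)).sup n1 + (range (J + 1)).sup n2 + 1, by positivity, ?_⟩
  intro K _ _ n r d hn hd hmar
  have : Infinite K := Infinite.of_injective _ Nat.cast_injective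
  have hnr : (0 : ℝ) < n := by exact_mod_cast (show 0 < n by omega)
  have hnr1 : (1 : ℝ) ≤ n := by exact_mod_cast (show 1 ≤ n by omega)
  obtain ⟨ε, hεe⟩ : ∃ ε : ℝ, ε = (n : ℝ) ^ (-(k : ℝ)⁻¹) := ⟨_, rfl⟩
  have hε : 0 < ε := by rw [hεe]; positivity
  have hε1 : ε ≤ 1 := by
    rw [hεe]; exact Real.rpow_le_one_of_one_le_of_nonpos hnr1 (neg_nonpos.2 (by positivity))
  have hεk : ∀ k' ≤ k, 1 ≤ ε ^ k' * n := by
    intro k' hk'
    refine le_trans (le_of_eq ?_)
      (mul_le_mul_of_nonneg_right (pow_le_pow_of_le_one hε.le hε1 hk') hnr.le)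
    rw [hεe, ← Real.rpow_natCast, ← Real.rpow_mul hnr.le, neg_mul, inv_mul_cancel₀ hk0.ne',
      Real.rpow_neg_one, inv_mul_cancel₀ hnr.ne']
  have hεi : ∀ i : ℕ, (n : ℝ) ^ ((i + 1 : ℝ) - (k : ℝ)⁻¹) = ε * (n : ℝ) ^ (i + 1) := by
    intro i
    rw [hεe, sub_eq_add_neg, Real.rpow_add hnr, mul_comm, ← Real.rpow_natCast]
    push_cast
    rfl
  simp only [hεi] at hmar
  classical
  have tc : ∀ i, truncCoeff (series n d univ) i =
      if ∀ k ≤ i, 0 < al n d univ k then al n d univ i else 0 := fun i => by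
    rw [truncCoeff]; congr
  have co : ∀ i, (series n d univ).coeff i = al n d univ i := fun i => rfl
  obtain ⟨s, hs⟩ : ∃ s, s = Nat.findGreatest (fun i => ∀ k ≤ i, 0 < al n d univ k) J := ⟨_, rfl⟩
  have hsJ : s ≤ J := hs ▸ Nat.findGreatest_le J
  have hpos : ∀ k ≤ s, 0 < al n d univ k := by
    rw [hs]
    refine Nat.findGreatest_spec (P := fun i => ∀ k ≤ i, 0 < al n d univ k) (Nat.zero_le J) ?_
    intro k hk
    rw [Nat.le_zero.1 hk, Nak.al_zero n d _ hd]
    exact one_pos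
  have hs1 : n1 s ≤ n := by
    have := le_sup (f := n1) (mem_range.2 (show s < J + 1 by omega))
    omega
  have hs2 : n2 s ≤ n := by
    have := le_sup (f := n2) (mem_range.2 (show s < J + 1 by omega))
    omega
  have hs3 : k1 s ≤ k := by
    have := le_sup (f := k1) (mem_range.2 (show s < J + 1 by omega))
    omega
  have hs4 : k2 s ≤ k := by
    have := le_sup (f := k2) (mem_range.2 (show s < J + 1 by omega))
    omega
  have hm : ∀ i < J, i ≤ s → ε * (n : ℝ) ^ (i + 1) ≤ |(al n d univ (i + 1) : ℝ)| := by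
    intro i hi his
    refine hmar i hi ?_
    rw [tc, if_pos fun k hk => hpos k (hk.trans his)]
    exact hpos i his
  have g1 := h1 s K n (Fin r) d ε hs1 hε hε1 (hεk _ hs3) hd fun i hi h0 => by
    obtain ⟨i, rfl⟩ := Nat.exists_eq_succ_of_ne_zero h0.ne'
    have h3 := hm i (by omega) (by omega)
    rwa [abs_of_pos (by exact_mod_cast hpos _ hi)] at h3
  have lo : ∀ c : Fin r × Finset (Fin n) → K,
      (∀ i ≤ s, (finrank K (WF i d univ c) : ℤ) = al n d univ i) →
      ∀ j ≤ s, (hilb d c j : ℤ) = truncCoeff (series n d univ) j := by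
    intro c hc j hj
    rw [hilb_eq, tc, if_pos fun k hk => hpos k (hk.trans hj), hc j hj]
  rcases hsJ.eq_or_lt with rfl | hlt
  · refine g1.mono fun c hc j hj => lo c hc j (hj.resolve_right ?_)
    rw [tc, if_pos hpos]
    exact (hpos _ le_rfl).ne'
  have hneg : ¬ 0 < al n d univ (s + 1) := by
    intro h
    refine Nat.findGreatest_is_greatest (P := fun i => ∀ k ≤ i, 0 < al n d univ k)
      (hs ▸ Nat.lt_succ_self s) (Nat.succ_le_of_lt hlt) fun k hk => ?_
    rcases hk.eq_or_lt with rfl | hk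
    · exact h
    · exact hpos k (by omega)
  have g2 := h2 s K n r d ε hs2 hε (hεk _ hs4) hd hpos (by
    have h3 := hm s hlt le_rfl
    rw [abs_of_nonpos (by exact_mod_cast not_lt.1 hneg)] at h3
    linarith)
  refine (g1.and g2).mono fun c hc j _ => ?_
  rcases le_or_gt j s with hj | hj
  · exact lo c hc.1 j hj
  · obtain ⟨k, rfl⟩ := Nat.exists_eq_add_of_le (Nat.succ_le_of_lt hj)
    have h3 := finrank_WF_add (s + 1) k d univ c
    have h4 := hc.2
    rw [hilb_eq] at h4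
    rw [h4, mul_zero, Nat.le_zero] at h3
    rw [hilb_eq, tc, if_neg fun h => hneg (h _ (by omega)), h3]
    rfl

end Pool.Agent.P.MP_3acc10_al.Bld
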