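import Pool.Agent.P.MP_3acc10_al.BPanel

set_option autoImplicit false

namespace Pool.Agent.P.MP_3acc10_al.Bld

open Finset Module Matrix

variable {n j : ℕ} {ι : Type} [Fintype ι] [DecidableEq ι]

variable {A : ι × Finset (Fin n) → ℂ}

lemma bops1_trans {π : Finset (Fin j)} {x y z : Fin j → Fin n} (h : Pan π x y) (h' : Pan π y z) :
    Pan π x z := ⟨fun p hp => (h'.1 p hp).trans (h.1 p hp), h.2.1, h'.2.2⟩

omit [Fintype ι] [DecidableEq ι] in
lemma bops1_sum (hn : j + 2 ≤ n) (a : ι) {π : Finset (Fin j)} (hu : π.Nonempty)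
    {x : Fin j → Fin n} (hx : Set.InjOn x π) : ∑ z, ((kk (some a, π) x z : ℝ) : ℂ) = 1 := by
  have h1 := kk_sum a hx fun _ => 1
  have hle : π.card ≤ j := by simpa using π.card_le_univ
  have hm : π.image x ∈ powersetCard π.card (univ : Finset (Fin n)) :=
    mem_powersetCard.2 ⟨subset_univ _, card_image_of_injOn hx⟩
  simp only [mul_one, sum_const, nsmul_eq_mul] at h1
  rw [card_erase_of_mem hm, card_powersetCard, card_univ, Fintype.card_fin,
    Nat.cast_sub (Nat.choose_pos (by omega)), Nat.cast_one, kap_mul hn hu.card_pos hle] at h1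
  exact_mod_cast h1

theorem E_mul_T (hA : ∀ γ, ‖A γ‖ = 1) (hn : j + 2 ≤ n) (u : Let ι j) (hu : u.2.Nonempty) :
    Em A u * Tm A u = -Em A u := by
  classical
  ext y x
  obtain ⟨_ | a, π⟩ := u
  · rw [Matrix.mul_apply, sum_eq_single y]
    · simp only [Matrix.neg_apply, Em_none, Tm_apply, kk_none, dl_none, chi_zero]
      by_cases h : y = x
      · subst h
        by_cases h2 : Set.InjOn y π <;> simp [h2]
      · simp [h]
    · intro z _ hz
      simp [Em_none, hz.symm]
    · simp
  · have key : ∀ z, Em A (some a, π) y z * Tm A (some a, π) z x =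
        -Em A (some a, π) y x * (kk (some a, π) x z : ℝ) := fun z => by
      by_cases hk : kk (some a, π) x z = 0
      · simp [Tm_apply, hk]
      have hp := (kk_ne hk).1
      rw [Tm_apply, Em_some, Em_some]
      by_cases h : Pan π x y
      · rw [if_pos h, if_pos (bops1_trans (Pan_symm hp) h), chi_dl hA, chi_dl hA, chi_dl hA]
        have e := mul_star_self hA (a, π.image z)
        linear_combination (-((π.card.factorial * n.choose π.card : ℕ) : ℂ)⁻¹ *
          A (a, π.image y) * star (A (a, π.image x)) * (kk (some a, π) x z : ℝ)) * e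
      · rw [if_neg h, if_neg fun h' => h (bops1_trans hp h')]
        simp
    rw [Matrix.mul_apply, sum_congr rfl fun z _ => key z, ← mul_sum, Matrix.neg_apply]
    by_cases hx : Set.InjOn x π
    · rw [bops1_sum hn a hu hx, mul_one]
    · rw [Em_some, if_neg fun h => hx h.2.1]
      simp

theorem E_herm (hA : ∀ γ, ‖A γ‖ = 1) (u : Let ι j) (y x : Fin j → Fin n) :
    star (Em A u y x) = Em A u x y := by
  classical
  obtain ⟨_ | a, π⟩ := u
  · rw [Em_none, Em_none]
    by_cases h : y = x
    · subst h
      split_ifs <;> simp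
    · rw [if_neg fun h' => h h'.1, if_neg fun h' => h h'.1.symm, star_zero]
  · rw [Em_some, Em_some]
    by_cases h : Pan π x y
    · rw [if_pos h, if_pos (Pan_symm h), chi_dl hA, chi_dl hA, star_mul', star_mul', star_star,
        star_inv₀, star_natCast, mul_comm (star _)]
    · rw [if_neg h, if_neg fun h' => h (Pan_symm h'), star_zero]

theorem E_fix (hA : ∀ γ, ‖A γ‖ = 1) (hn : j ≤ n) (a : ι) {π V : Finset (Fin j)}
    {w : (Fin j → Fin n) → ℂ} (hw : Dep V w) (hV : Disjoint V π) :
    Em A (some a, π) *ᵥ (fl A a π * w) = fl A a π * w := by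
  classical
  ext y
  have hle : π.card ≤ n := le_trans (by simpa using π.card_le_univ) hn
  have key : ∀ x, Em A (some a, π) y x * (fl A a π * w) x =
      (((π.card.factorial * n.choose π.card : ℕ) : ℂ)⁻¹ * (fl A a π * w) y) *
        if Pan π y x then 1 else 0 := fun x => by
    rw [Em_some]
    by_cases h : Pan π x y
    · have e := mul_star_self hA (a, π.image x)
      have e2 : w x = w y := hw x y fun p hp => (h.1 p (disjoint_left.1 hV hp)).symm
      rw [if_pos h, if_pos (Pan_symm h), chi_dl hA, Pi.mul_apply, Pi.mul_apply, fl, fl]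
      simp only [if_pos h.2.1, if_pos h.2.2, e2]
      linear_combination (((π.card.factorial * n.choose π.card : ℕ) : ℂ)⁻¹ *
        A (a, π.image y) * w y) * e
    · rw [if_neg h, if_neg fun h' => h (Pan_symm h'), zero_mul, mul_zero]
  rw [Matrix.mulVec, dotProduct, sum_congr rfl fun x _ => key x, ← mul_sum]
  by_cases hy : Set.InjOn y π
  · have h1 := panel (R := ℂ) hy fun _ => 1
    simp only [sum_const, nsmul_eq_mul, mul_one, card_powersetCard, card_univ,
      Fintype.card_fin] at h1
    have h2 : ((π.card.factorial * n.choose π.card : ℕ) : ℂ) ≠ 0 :=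
      Nat.cast_ne_zero.2 (Nat.mul_pos (Nat.factorial_pos _) (Nat.choose_pos hle)).ne'
    rw [h1, ← Nat.cast_mul, mul_comm, ← mul_assoc, mul_inv_cancel₀ h2, one_mul]
  · simp [fl, hy]

end Pool.Agent.P.MP_3acc10_al.Bld
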