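import Pool.Agent.P.MP_3acc10_al.BDecay

set_option autoImplicit false

namespace Pool.Agent.P.MP_3acc10_al.Bld

open Finset Module Matrix

lemma bparam_count (j n m : ℕ) (hn : 1 ≤ n) (hm : m ≤ j * n ^ j) :
    (m + 1) * 2 ^ 2 ^ (j + 1) * 2 ^ 2 ^ (j + 1) * (m + 2) ^ 2 ^ (j + 1) ≤
      (2 ^ 2 ^ (j + 1) * 2 ^ 2 ^ (j + 1) * (j + 2) ^ (2 ^ (j + 1) + 1)) *
        n ^ (j * (2 ^ (j + 1) + 1)) := by
  have h1 : 1 ≤ n ^ j := Nat.one_le_pow _ _ hn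
  have h2 : m + 2 ≤ (j + 2) * n ^ j := by nlinarith
  generalize 2 ^ (j + 1) = D
  generalize 2 ^ D = E
  calc (m + 1) * E * E * (m + 2) ^ D ≤ (m + 2) * E * E * (m + 2) ^ D := by gcongr; omega
    _ = E * E * (m + 2) ^ (D + 1) := by ring
    _ ≤ E * E * ((j + 2) * n ^ j) ^ (D + 1) := by gcongr
    _ = _ := by rw [mul_pow, ← pow_mul]; ring

lemma bparam_poly (j : ℝ) {u : ℝ} (hu : 1 ≤ u) :
    6 * (4 * u) + 2 * j ^ 2 * (1 + 4 * u) ^ 2 ≤ (24 + 50 * j ^ 2) * u ^ 2 := by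
  have h1 : (1 + 4 * u) ^ 2 ≤ 25 * u ^ 2 := by nlinarith
  have h2 : 2 * j ^ 2 * (1 + 4 * u) ^ 2 ≤ 2 * j ^ 2 * (25 * u ^ 2) := by gcongr
  nlinarith

lemma bparam_th (j n q : ℕ) {C ε w μ lam c : ℝ} (hC : 1 ≤ C) (hε : 0 < ε) (hε1 : ε ≤ 1)
    (hw : 1 ≤ ε * w) (hq : 0 < q) (hμ : μ = 128 * 2 ^ j * C * w ^ 3)
    (hl : lam = q * μ ^ (j + 2 ^ j + 1)) (hc : 6 * (q : ℝ) + 2 * j ^ 2 * (1 + q) ^ 2 ≤ c)
    (hn : 32 * C * 2 ^ j * w ^ 3 * lam ^ (j + 1) * c * μ ^ (j + 2 ^ j) ≤ n) :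
    0 ≤ th j n q (ε / 2) (ε / C) μ lam ∧
      th j n q (ε / 2) (ε / C) μ lam ≤ 1 - 1 / (16 * C * w ^ 2) := by
  have hw0 : 0 < w := by nlinarith
  have hC0 : 0 < C := by linarith
  have hμ0 : 0 < μ := by rw [hμ]; positivity
  have hq0 : (0 : ℝ) < q := by exact_mod_cast hq
  have hl0 : 0 < lam := by rw [hl]; positivity
  have hc0 : 0 < c := lt_of_lt_of_le (by positivity) hc
  have hn0 : (0 : ℝ) < n := lt_of_lt_of_le (by positivity) hn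
  have hi : 1 / (ε / 2) ≤ 2 * w := by
    rw [div_le_iff₀ (by positivity)]
    linarith
  have e0 : ε / 2 * (ε / C) / 2 = ε ^ 2 / (4 * C) := by field_simp; ring
  constructor
  · have h1 : ε ^ 2 / (4 * C) ≤ 1 := by
      rw [div_le_one (by positivity)]
      nlinarith
    have h2 : 0 ≤ 4 * 2 ^ j / (ε / 2 * μ) := by positivity
    have h3 : 0 ≤ 2 ^ j * tau j n q lam * μ ^ (j + 2 ^ j) / (ε / 2) := by
      unfold tau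
      positivity
    unfold th
    rw [e0]
    linarith
  · obtain ⟨s, hs⟩ : ∃ s : ℝ, s = 1 / (16 * C * w ^ 2) := ⟨_, rfl⟩
    have hs0 : 0 < s := by rw [hs]; positivity
    have h1 : 4 * s ≤ ε ^ 2 / (4 * C) := by
      have : 1 ≤ (ε * w) ^ 2 := one_le_pow₀ hw
      rw [hs, le_div_iff₀ (by positivity)]
      have e : 4 * (1 / (16 * C * w ^ 2)) * (4 * C) = 1 / w ^ 2 := by field_simp; ring
      rw [e, div_le_iff₀ (by positivity)]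
      linarith [mul_pow ε w 2]
    have h2 : 4 * 2 ^ j / (ε / 2 * μ) ≤ s := by
      calc 4 * 2 ^ j / (ε / 2 * μ) = 4 * 2 ^ j / μ * (1 / (ε / 2)) := by field_simp
        _ ≤ 4 * 2 ^ j / μ * (2 * w) := by gcongr
        _ = s := by rw [hs, hμ]; field_simp; ring
    have h3 : 2 ^ j * (2 * q / lam) * μ ^ (j + 2 ^ j) / (ε / 2) ≤ s := by
      calc 2 ^ j * (2 * q / lam) * μ ^ (j + 2 ^ j) / (ε / 2)
          = 2 ^ j * 2 / μ * (1 / (ε / 2)) := by rw [hl, pow_succ μ (j + 2 ^ j)]; field_simp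
        _ ≤ 2 ^ j * 2 / μ * (2 * w) := by gcongr
        _ = s / 2 := by rw [hs, hμ]; field_simp; ring
        _ ≤ s := by linarith
    have h4 : 2 ^ j * (lam ^ (j + 1) * (6 * q + 2 * j ^ 2 * (1 + q) ^ 2) / n) *
        μ ^ (j + 2 ^ j) / (ε / 2) ≤ s := by
      calc 2 ^ j * (lam ^ (j + 1) * (6 * q + 2 * j ^ 2 * (1 + q) ^ 2) / n) *
            μ ^ (j + 2 ^ j) / (ε / 2)
          = 2 ^ j * (lam ^ (j + 1) * (6 * q + 2 * j ^ 2 * (1 + q) ^ 2) / n) *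
            μ ^ (j + 2 ^ j) * (1 / (ε / 2)) := by rw [mul_one_div]
        _ ≤ 2 ^ j * (lam ^ (j + 1) * c / n) * μ ^ (j + 2 ^ j) * (2 * w) := by gcongr
        _ = (32 * C * 2 ^ j * w ^ 3 * lam ^ (j + 1) * c * μ ^ (j + 2 ^ j)) / n * s := by
            rw [hs]; field_simp; ring
        _ ≤ 1 * s := by
            gcongr
            rwa [div_le_one hn0]
        _ = s := one_mul s
    unfold th tau
    rw [e0, ← hs, mul_add, add_mul, add_div]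
    linarith

theorem param (j : ℕ) {C : ℝ} (hC : 1 ≤ C) : ∃ k n0 : ℕ, ∀ (n : ℕ) (ε : ℝ), n0 ≤ n → 0 < ε →
    ε ≤ 1 → 1 ≤ ε ^ k * n → C ≤ ε * n ∧ ∃ (ℓ : ℕ) (μ lam : ℝ), 1 ≤ μ ∧ 1 ≤ lam ∧
      0 ≤ th j n (4 * ℓ) (ε / 2) (ε / C) μ lam ∧ ∀ m : ℕ, m ≤ j * n ^ j →
        (((m + 1) * 2 ^ 2 ^ (j + 1) * 2 ^ 2 ^ (j + 1) * (m + 2) ^ 2 ^ (j + 1) : ℕ) : ℝ) *
          (n : ℝ) ^ j * (μ ^ (j + 2 ^ j) * lam ^ j / (ε / 2)) ^ 3 *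
            th j n (4 * ℓ) (ε / 2) (ε / C) μ lam ^ (2 * ℓ) < 1 := by
  have hC0 : 0 < C := by linarith
  obtain ⟨K, hK⟩ : ∃ K : ℕ, K = j + 2 ^ j := ⟨_, rfl⟩
  obtain ⟨c1, hc1⟩ : ∃ c : ℝ, c = 128 * 2 ^ j * C := ⟨_, rfl⟩
  obtain ⟨c3, hc3⟩ : ∃ c : ℝ, c = 24 + 50 * (j : ℝ) ^ 2 := ⟨_, rfl⟩
  obtain ⟨c4, hc4⟩ : ∃ c : ℝ,
    c = 32 * C * 2 ^ j * (4 * c1 ^ (K + 1)) ^ (j + 1) * c3 * c1 ^ K := ⟨_, rfl⟩
  obtain ⟨c5, hc5⟩ : ∃ c : ℕ,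
    c = 2 ^ 2 ^ (j + 1) * 2 ^ 2 ^ (j + 1) * (j + 2) ^ (2 ^ (j + 1) + 1) := ⟨_, rfl⟩
  obtain ⟨a, ha⟩ : ∃ a : ℕ, a = j * (2 ^ (j + 1) + 1) := ⟨_, rfl⟩
  have hD : (1 : ℝ) ≤ 2 ^ j := one_le_pow₀ one_le_two
  have hc11 : 1 ≤ c1 := by rw [hc1]; nlinarith
  have hc31 : 1 ≤ c3 := by rw [hc3]; nlinarith [sq_nonneg (j : ℝ)]
  have hc40 : 0 ≤ c4 := by rw [hc4]; positivity
  have hc50 : (0 : ℝ) ≤ c5 := Nat.cast_nonneg _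
  have h4 : (2 : ℝ) ≤ 32 * C * 2 ^ j := by
    have := one_le_mul_of_one_le_of_one_le hC hD
    linarith
  obtain ⟨n0, hn0⟩ := decay (a + j + 3) ((3 * K + 6) * (j + 1) + 3 * K + 8 + 1)
    (C := c4 + c5 + 16 * C) (by linarith)
  refine ⟨(3 * K + 6) * (j + 1) + 3 * K + 8 + 1 + 1, n0, fun n ε hn hε hε1 hk => ?_⟩
  obtain ⟨w, hw0, hw, hb, hd⟩ := hn0 n ε hn hε hε1 hk
  have hw1 : (1 : ℝ) ≤ w := by exact_mod_cast hw0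
  have hwb : (w : ℝ) ≤ (w : ℝ) ^ ((3 * K + 6) * (j + 1) + 3 * K + 8 + 1) :=
    le_self_pow₀ hw1 (Nat.succ_ne_zero _)
  have hCw : C * w ≤ n := by
    refine le_trans ?_ hb
    gcongr
    linarith
  have hn1 : (1 : ℝ) ≤ n := (one_le_mul_of_one_le_of_one_le hC hw1).trans hCw
  have hCn : C ≤ ε * n := by
    calc C = C * 1 := (mul_one C).symm
      _ ≤ C * (ε * w) := by gcongr
      _ = ε * (C * w) := by ring
      _ ≤ ε * n := by gcongr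
  refine ⟨hCn, w ^ 3, c1 * (w : ℝ) ^ 3,
    ((4 * w ^ 3 : ℕ) : ℝ) * (c1 * (w : ℝ) ^ 3) ^ (K + 1), ?_⟩
  obtain ⟨μ, hμ⟩ : ∃ μ : ℝ, μ = c1 * (w : ℝ) ^ 3 := ⟨_, rfl⟩
  obtain ⟨lam, hl⟩ : ∃ lam : ℝ, lam = ((4 * w ^ 3 : ℕ) : ℝ) * μ ^ (K + 1) := ⟨_, rfl⟩
  rw [← hμ, ← hl]
  have hw3 : (1 : ℝ) ≤ (w : ℝ) ^ 3 := one_le_pow₀ hw1
  have hμ1 : 1 ≤ μ := by rw [hμ]; exact one_le_mul_of_one_le_of_one_le hc11 hw3
  have hq : ((4 * w ^ 3 : ℕ) : ℝ) = 4 * (w : ℝ) ^ 3 := by push_cast; ring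
  have hl1 : 1 ≤ lam := by
    have : 1 ≤ μ ^ (K + 1) := one_le_pow₀ hμ1
    rw [hl, hq]
    exact one_le_mul_of_one_le_of_one_le (by linarith) this
  have hc : 6 * ((4 * w ^ 3 : ℕ) : ℝ) + 2 * (j : ℝ) ^ 2 * (1 + ((4 * w ^ 3 : ℕ) : ℝ)) ^ 2 ≤
      c3 * (w : ℝ) ^ 6 := by
    rw [hq, hc3, show (w : ℝ) ^ 6 = ((w : ℝ) ^ 3) ^ 2 by ring]
    exact bparam_poly _ hw3
  have hZ : 32 * C * 2 ^ j * (w : ℝ) ^ 3 * lam ^ (j + 1) * (c3 * (w : ℝ) ^ 6) * μ ^ K ≤ n := by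
    calc 32 * C * 2 ^ j * (w : ℝ) ^ 3 * lam ^ (j + 1) * (c3 * (w : ℝ) ^ 6) * μ ^ K
        = c4 * (w : ℝ) ^ ((3 * K + 6) * (j + 1) + 3 * K + 8 + 1) := by
          have e1 : lam = 4 * c1 ^ (K + 1) * (w : ℝ) ^ (3 * K + 6) := by
            rw [hl, hq, hμ]; ring
          rw [e1, hμ, hc4, mul_pow (4 * c1 ^ (K + 1)), ← pow_mul, mul_pow c1, ← pow_mul]
          generalize (4 * c1 ^ (K + 1)) ^ (j + 1) = x
          generalize (3 * K + 6) * (j + 1) = y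
          ring
      _ ≤ _ := by
          refine le_trans ?_ hb
          gcongr
          linarith
  obtain ⟨t0, t1⟩ := bparam_th j n (4 * w ^ 3) (C := C) (w := w) (μ := μ) (lam := lam) hC hε hε1
    hw (by positivity) (by rw [hμ, hc1]) (by rw [hl, hK]) hc (by rw [← hK]; exact hZ)
  refine ⟨hμ1, hl1, t0, fun m hm => ?_⟩
  have hR : μ ^ (j + 2 ^ j) * lam ^ j / (ε / 2) ≤ n := by
    refine le_trans ?_ hZ
    have hi : 1 / (ε / 2) ≤ 2 * (w : ℝ) := by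
      rw [div_le_iff₀ (by positivity)]
      linarith
    have h1 : (w : ℝ) ≤ (w : ℝ) ^ 3 := le_self_pow₀ hw1 three_ne_zero
    have h2 : lam ^ j ≤ lam ^ (j + 1) := pow_le_pow_right₀ hl1 (Nat.le_succ j)
    have h3 : 1 ≤ c3 * (w : ℝ) ^ 6 := one_le_mul_of_one_le_of_one_le hc31 (one_le_pow₀ hw1)
    calc μ ^ (j + 2 ^ j) * lam ^ j / (ε / 2) = 1 / (ε / 2) * lam ^ j * 1 * μ ^ K := by
          rw [hK]; ring
      _ ≤ 2 * (w : ℝ) * lam ^ j * 1 * μ ^ K := by gcongr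
      _ ≤ _ := by gcongr
  have hcnt : (((m + 1) * 2 ^ 2 ^ (j + 1) * 2 ^ 2 ^ (j + 1) * (m + 2) ^ 2 ^ (j + 1) : ℕ) : ℝ) ≤
      c5 * (n : ℝ) ^ a := by
    have := bparam_count j n m (by exact_mod_cast hn1) hm
    rw [← hc5, ← ha] at this
    exact_mod_cast this
  have t2 : th j n (4 * w ^ 3) (ε / 2) (ε / C) μ lam ≤
      1 - 1 / ((c4 + c5 + 16 * C) * (w : ℝ) ^ 2) := by
    refine t1.trans ?_
    gcongr
    linarith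
  refine lt_of_le_of_lt ?_ hd
  calc _ ≤ c5 * (n : ℝ) ^ a * (n : ℝ) ^ j * (n : ℝ) ^ 3 *
        (1 - 1 / ((c4 + c5 + 16 * C) * (w : ℝ) ^ 2)) ^ (2 * w ^ 3) := by gcongr
    _ = c5 * (n : ℝ) ^ (a + j + 3) *
        (1 - 1 / ((c4 + c5 + 16 * C) * (w : ℝ) ^ 2)) ^ (2 * w ^ 3) := by
          rw [pow_add, pow_add]; ring
    _ ≤ _ := by
          have := t0.trans t2
          gcongr
          linarith

end Pool.Agent.P.MP_3acc10_al.Bld
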