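import Pool.Agent.P.MP_3acc10_al.BInv2
import Pool.Agent.P.MP_3acc10_al.BHmain

set_option autoImplicit false

namespace Pool.Agent.P.MP_3acc10_al.Bld

open Finset Module Matrix

variable {n j : ℕ} {ι : Type} [Fintype ι] [DecidableEq ι]

variable {x0 x y : Fin j → Fin n} {c : ι × Finset (Fin n) → ℤ} {σ : St (Let ι j)} {a : ι}
  {π : Finset (Fin j)} {M : Finset (Fin j)} {N : Finset (ι × Finset (Fin n))}
  {Γ : Finset (Finset (Fin j))}

variable {z : ℕ → ℝ} {δ μ : ℝ} {h : Finset (Finset (Fin j)) → ℝ}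

theorem bphi_nn (hf : Hf z δ h) (hμ : 1 ≤ μ) : 0 ≤ (δ * μ)⁻¹ := by
  have h1 : 0 ≤ δ⁻¹ := (zero_le_one.trans (hf.ge ∅)).trans (hf.le ∅)
  rw [mul_inv]
  exact mul_nonneg h1 (inv_nonneg.2 (by linarith))

theorem bphi_grow (hf : Hf z δ h) (hμ : 1 ≤ μ) (hI : Inv x0 x σ c M N Γ) {k : ℕ}
    (hk : k + 1 ≤ M.card + Γ.card) : phi μ h x0 x σ c ≤ μ⁻¹ ^ k * (δ * μ)⁻¹ := by
  have h0 : 0 ≤ μ⁻¹ := inv_nonneg.2 (by linarith)
  have h1 : μ⁻¹ ≤ 1 := inv_le_one_of_one_le₀ hμ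
  calc phi μ h x0 x σ c ≤ μ⁻¹ ^ (M.card + Γ.card) * h (Ft M σ) := phi_le μ h hI
    _ ≤ μ⁻¹ ^ (k + 1) * δ⁻¹ :=
        mul_le_mul (pow_le_pow_of_le_one h0 h1 hk) (hf.le _) (zero_le_one.trans (hf.ge _))
          (pow_nonneg h0 _)
    _ = _ := by rw [pow_succ, mul_inv]; ring

theorem bphi_same (hf : Hf z δ h) (hμ : 1 ≤ μ) (hI : Inv x0 x σ c M N Γ)
    {F : Finset (Finset (Fin j))} (hF : F ⊆ Ft M σ) :
    phi μ h x0 x σ c ≤ μ⁻¹ ^ (M.card + Γ.card) * (h F + (δ * μ)⁻¹) := by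
  have h0 : 0 ≤ μ⁻¹ := inv_nonneg.2 (by linarith)
  refine (phi_le μ h hI).trans (mul_le_mul_of_nonneg_left ?_ (pow_nonneg h0 _))
  exact (hf.anti _ _ hF).trans (le_add_of_nonneg_right (bphi_nn hf hμ))

theorem bphi_card {ρ M' : Finset (Fin j)} (hρ : ρ.Nonempty) (hd : Disjoint ρ M) (h1 : M ⊆ M') :
    M.card + 1 ≤ (M' ∪ ρ).card := by
  obtain ⟨p, hp⟩ := hρ
  refine card_lt_card ⟨h1.trans subset_union_left, fun hh => ?_⟩
  exact disjoint_left.1 hd hp (hh (mem_union_right _ hp))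

/-- a closing letter of smaller rank is lost, its slots become blocked -/
theorem bphi_lost {b : ι} {ρ M' : Finset (Fin j)} {N' : Finset (ι × Finset (Fin n))}
    (hC : Clo x0 x σ c b ρ) (hP : Pan π x y) (hd : Disjoint π ρ) (hr : rkS ρ < rkS π)
    (hb : b ≠ a)
    (hI : Inv x0 y (upd Adj rk σ (some a, π)) (c + dl (some a, π) x y) M' N' Γ) :
    Inv x0 y (upd Adj rk σ (some a, π)) (c + dl (some a, π) x y) (M' ∪ ρ)
      (insert (b, ρ.image y) N') Γ := by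
  have hne : π ≠ ρ := fun e => by rw [e] at hr; exact lt_irrefl _ hr
  have him : ρ.image y = ρ.image x :=
    image_congr fun p hp => hP.1 p fun hp' => disjoint_left.1 hd hp' hp
  refine Inv_add hI (fun hh => (mem_alw.1 hh).2 ?_) ?_
  · exact mem_upd.2 (Or.inr ⟨(mem_alw.1 hC.1).1,
      ⟨fun e => hne (congrArg Prod.snd e), Or.inl hd⟩, Or.inr hr⟩)
  · have e1 : ∀ I J : Finset (Fin n), ((b, I) : ι × Finset (Fin n)) ≠ (a, J) :=
      fun I J e => hb (congrArg Prod.fst e)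
    rw [Pi.add_apply, dl_some, Pi.sub_apply, Pi.single_eq_of_ne (e1 _ _),
      Pi.single_eq_of_ne (e1 _ _), him]
    simpa using hC.2.2.1

theorem phi_bd (hf : Hf z δ h) (hμ : 1 ≤ μ) (x0 x : Fin j → Fin n) (σ : St (Let ι j))
    (c : ι × Finset (Fin n) → ℤ) :
    μ⁻¹ ^ (j + 2 ^ j) ≤ phi μ h x0 x σ c ∧ phi μ h x0 x σ c ≤ δ⁻¹ := by
  have h0 : 0 ≤ μ⁻¹ := inv_nonneg.2 (by linarith)
  have h1 : μ⁻¹ ≤ 1 := inv_le_one_of_one_le₀ hμ
  constructor
  · obtain ⟨M, N, Γ, -, e⟩ := phi_eq μ h x0 x σ c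
    have c1 : M.card ≤ j := by simpa using card_le_univ M
    have c2 : Γ.card ≤ 2 ^ j := by simpa using card_le_univ Γ
    rw [e]
    exact (pow_le_pow_of_le_one h0 h1 (Nat.add_le_add c1 c2)).trans
      (le_mul_of_one_le_right (pow_nonneg h0 _) (hf.ge _))
  · have := phi_le μ h (Inv_empty x0 x σ c)
    simp only [card_empty, add_zero, pow_zero, one_mul] at this
    exact this.trans (hf.le _)

open Classical in
theorem phi_NN (hf : Hf z δ h) (hμ : 1 ≤ μ) (hv : ∀ t ∈ σ.1, t.2.Nonempty) (hG : Good x0 x c)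
    (hI : Inv x0 x σ c M N Γ) (ha : (some a, π) ∈ alw σ) (hP : Pan π x y)
    (hne : π.image y ≠ π.image x) (hz : zz c a = 0) (hF : Fresh x0 c π y) :
    phi μ h x0 y (upd Adj rk σ (some a, π)) (c + dl (some a, π) x y) ≤
      μ⁻¹ ^ (M.card + Γ.card) *
        ((if π ∉ Ft M σ ∧ ∀ b ρ, Clo x0 x σ c b ρ → rkS π < rkS ρ then h (nxt (Ft M σ) π) else 0) +
          (δ * μ)⁻¹) := by
  have h0 : 0 ≤ μ⁻¹ := inv_nonneg.2 (by linarith)
  have hI' := Inv_NN hG hI ha hP hne hz hF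
  have fin : ∀ {t u : ℝ}, t ≤ μ⁻¹ ^ (M.card + Γ.card) * (δ * μ)⁻¹ → 0 ≤ u →
      t ≤ μ⁻¹ ^ (M.card + Γ.card) * (u + (δ * μ)⁻¹) := fun ht hu =>
    ht.trans (mul_le_mul_of_nonneg_left (le_add_of_nonneg_left hu) (pow_nonneg h0 _))
  by_cases hπ : π ⊆ M
  · rw [union_eq_left.2 hπ] at hI'
    by_cases hall : ∀ b ρ, Clo x0 x σ c b ρ → rkS π < rkS ρ
    · rw [if_pos ⟨fun hh => mem_Ft.1 hh ⟨hπ, a, ha⟩, hall⟩]
      exact bphi_same hf hμ hI' (Ft_nxt M σ a π)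
    · rw [if_neg fun hh => hall hh.2]
      push Not at hall
      obtain ⟨b, ρ, hC, hr⟩ := hall
      have hρ : ρ.Nonempty := hv _ (mem_alw.1 hC.1).1
      have hd : Disjoint ρ M := (Clo_notin hG hI hC).2
      have hne' : ρ ≠ π := fun e => by
        obtain ⟨p, hp⟩ := hρ
        exact disjoint_left.1 hd hp (hπ (e ▸ hp))
      have hr' : rkS ρ < rkS π := lt_of_le_of_ne hr fun e => hne' (rkS_inj e)
      have hb : b ≠ a := fun e => by
        have h1 := hC.2.2.1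
        rw [e, zero_of_zz hG hz] at h1
        exact lt_irrefl _ h1
      have hI2 := bphi_lost hC hP (hd.symm.mono_left hπ) hr' hb hI'
      have hc := bphi_card hρ hd (subset_refl M)
      exact fin (bphi_grow hf hμ hI2 (by omega)) le_rfl
  · have hc : M.card + 1 ≤ (M ∪ π).card :=
      card_lt_card ⟨subset_union_left, fun hh => hπ (subset_union_right.trans hh)⟩
    refine fin (bphi_grow hf hμ hI' (by omega)) ?_
    split_ifs
    · exact zero_le_one.trans (hf.ge _)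
    · exact le_rfl

theorem phi_ON (hf : Hf z δ h) (hμ : 1 ≤ μ) (hG : Good x0 x c) (hI : Inv x0 x σ c M N Γ)
    (hC : Clo x0 x σ c a π) (hP : Pan π x y) (hne : π.image y ≠ π.image x) (hF : Fresh x0 c π y) :
    phi μ h x0 y (upd Adj rk σ (some a, π)) (c + dl (some a, π) x y) ≤
      μ⁻¹ ^ (M.card + Γ.card) * (δ * μ)⁻¹ := by
  have hπ : π.Nonempty := by
    rw [nonempty_iff_ne_empty]
    rintro rfl
    exact hne (by simp)
  have hc := bphi_card hπ (Clo_notin hG hI hC).2 (subset_refl M)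
  exact bphi_grow hf hμ (Inv_ON hG hI hC hP hne hF) (by omega)

open Classical in
theorem phi_OO (hf : Hf z δ h) (hμ : 1 ≤ μ) (hv : ∀ t ∈ σ.1, t.2.Nonempty) (hG : Good x0 x c)
    (hI : Inv x0 x σ c M N Γ) (hC : Clo x0 x σ c a π) (hP : Pan π x y)
    (hne : π.image y ≠ π.image x) (hz : zz c a = 1) (hα : c (a, π.image y) < 0) :
    phi μ h x0 y (upd Adj rk σ (some a, π)) (c + dl (some a, π) x y) ≤
      μ⁻¹ ^ (M.card + Γ.card) *
        ((if ∀ b ρ, Clo x0 x σ c b ρ → rkS π ≤ rkS ρ then h (Ft M σ ∪ lowr j (rkS π)) else 0) +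
          (δ * μ)⁻¹) := by
  have hI' := Inv_OO hG hI hC hP hne hz hα
  by_cases hall : ∀ b ρ, Clo x0 x σ c b ρ → rkS π ≤ rkS ρ
  · rw [if_pos hall]
    exact bphi_same hf hμ hI' (Ft_low M σ a (Clo_notin hG hI hC).2)
  · rw [if_neg hall, zero_add]
    push Not at hall
    obtain ⟨b, ρ, hC', hr⟩ := hall
    have hρ : ρ.Nonempty := hv _ (mem_alw.1 hC'.1).1
    have hne' : π ≠ ρ := fun e => by rw [e] at hr; exact lt_irrefl _ hr
    have hd := Clo_disj hG hC hC' hne'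
    have hb : b ≠ a := by
      rintro rfl
      have hi : π.image x ≠ ρ.image x := fun e => by
        obtain ⟨p, hp⟩ := hρ
        obtain ⟨p', hp', e'⟩ := mem_image.1 (e ▸ mem_image_of_mem x hp : x p ∈ π.image x)
        rw [eq_of_uu_one hG (hC'.2.2.2 p hp) e'] at hp'
        exact disjoint_left.1 hd hp' hp
      have h1 := add_le_sum (f := fun I : Finset (Fin n) => (c (b, I)).toNat)
        (fun _ _ => Nat.zero_le _) (mem_univ (π.image x)) (mem_univ (ρ.image x)) hi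
      have h2 := hC.2.2.1
      have h3 := hC'.2.2.1
      unfold zz at hz
      omega
    have hI2 := bphi_lost hC' hP hd hr hb hI'
    have hc := bphi_card hρ (Clo_notin hG hI hC').2 (subset_refl M)
    exact bphi_grow hf hμ hI2 (by omega)

theorem phi_g (hf : Hf z δ h) (hμ : 1 ≤ μ) (hG : Good x0 x c) (hI : Inv x0 x σ c M N Γ)
    (ha : (none, π) ∈ alw σ) (hc : π.card = 2) (hx : ¬ Set.InjOn x π) :
    phi μ h x0 x (upd Adj rk σ (none, π)) c ≤ μ⁻¹ ^ (M.card + Γ.card) * (δ * μ)⁻¹ := by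
  obtain ⟨h1, h2⟩ := Inv_g hG hI ha hc hx
  exact bphi_grow hf hμ h2 (by rw [card_insert_of_notMem h1]; omega)

end Pool.Agent.P.MP_3acc10_al.Bld
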