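import Pool.Agent.P.MP_3acc10_al.BDefs

set_option autoImplicit false

namespace Pool.Agent.P.MP_3acc10_al.Bld

open Finset Module Matrix

theorem bscal_max {S L : Type} [DecidableEq S] (Q : Finset S) (al : S → Finset L)
    (up : S → L → S)
    (hQ : ∀ σ ∈ Q, ∀ t ∈ al σ, up σ t ∈ Q) (k : L → ℝ) (hk : ∀ σ ∈ Q, ∀ t ∈ al σ, 0 ≤ k t)
    (H : S → ℝ) (hH0 : ∀ σ ∈ Q, 0 ≤ H σ)
    (hH : ∀ σ ∈ Q, ∑ t ∈ al σ, k t * H (up σ t) ≤ H σ - 1)
    (v : S → ℝ) (hv : ∀ σ ∈ Q, ∑ t ∈ al σ, k t * v (up σ t) ≤ v σ) :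
    ∀ σ ∈ Q, 0 ≤ v σ := by
  have hH1 : ∀ σ ∈ Q, 1 ≤ H σ := by
    intro σ hσ
    have h1 : 0 ≤ ∑ t ∈ al σ, k t * H (up σ t) :=
      Finset.sum_nonneg fun t ht => mul_nonneg (hk σ hσ t ht) (hH0 _ (hQ σ hσ t ht))
    have h2 := hH σ hσ
    linarith
  intro σ hσ
  by_contra hneg
  have hneg' : v σ < 0 := lt_of_not_ge hneg
  obtain ⟨s, hs, hmin⟩ := Finset.exists_min_image Q (fun s => v s / H s) ⟨σ, hσ⟩
  have hHs : 0 < H s := lt_of_lt_of_le one_pos (hH1 s hs)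
  have hHσ : 0 < H σ := lt_of_lt_of_le one_pos (hH1 σ hσ)
  set m : ℝ := v s / H s with hm
  have hm0 : m < 0 := lt_of_le_of_lt (hmin σ hσ) (div_neg_of_neg_of_pos hneg' hHσ)
  have hlow : ∀ r ∈ Q, m * H r ≤ v r := by
    intro r hr
    have hHr : 0 < H r := lt_of_lt_of_le one_pos (hH1 r hr)
    have h3 : m ≤ v r / H r := hmin r hr
    exact (le_div_iff₀ hHr).1 h3
  have h4 : m * ∑ t ∈ al s, k t * H (up s t) ≤ ∑ t ∈ al s, k t * v (up s t) := by
    rw [Finset.mul_sum]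
    refine Finset.sum_le_sum fun t ht => ?_
    have h5 := hlow _ (hQ s hs t ht)
    have h6 := hk s hs t ht
    calc m * (k t * H (up s t)) = k t * (m * H (up s t)) := by ring
      _ ≤ k t * v (up s t) := mul_le_mul_of_nonneg_left h5 h6
  have h7 : m * (H s - 1) ≤ m * ∑ t ∈ al s, k t * H (up s t) :=
    mul_le_mul_of_nonpos_left (hH s hs) hm0.le
  have h8 : v s = m * H s := by
    rw [hm]
    field_simp
  have h9 := hv s hs
  nlinarith

theorem bscal_zero {S L : Type} [DecidableEq S] (Q : Finset S) (al : S → Finset L)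
    (up : S → L → S)
    (hQ : ∀ σ ∈ Q, ∀ t ∈ al σ, up σ t ∈ Q) (k : L → ℝ) (hk : ∀ σ ∈ Q, ∀ t ∈ al σ, 0 ≤ k t)
    (H : S → ℝ) (hH0 : ∀ σ ∈ Q, 0 ≤ H σ)
    (hH : ∀ σ ∈ Q, ∑ t ∈ al σ, k t * H (up σ t) ≤ H σ - 1)
    (v : S → ℝ) (hv : ∀ σ ∈ Q, v σ = ∑ t ∈ al σ, k t * v (up σ t)) :
    ∀ σ ∈ Q, v σ = 0 := by
  intro σ hσ
  have h1 := bscal_max Q al up hQ k hk H hH0 hH v (fun s hs => (hv s hs).ge) σ hσ
  have h2 := bscal_max Q al up hQ k hk H hH0 hH (fun s => - v s) (fun s hs => by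
    have h3 := hv s hs
    have h4 : ∑ t ∈ al s, k t * (- v (up s t)) = - ∑ t ∈ al s, k t * v (up s t) := by
      rw [← Finset.sum_neg_distrib]
      exact Finset.sum_congr rfl fun t _ => by ring
    rw [h4]
    linarith) σ hσ
  linarith

/-- extension by zero of a function on the subtype -/
noncomputable def bscalExt {S : Type} [DecidableEq S] (Q : Finset S) (g : Q → ℝ) (s : S) : ℝ :=
  if h : s ∈ Q then g ⟨s, h⟩ else 0

theorem bscalExt_add {S : Type} [DecidableEq S] (Q : Finset S) (g g' : Q → ℝ) (s : S) :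
    bscalExt Q (g + g') s = bscalExt Q g s + bscalExt Q g' s := by
  unfold bscalExt
  split_ifs <;> simp

theorem bscalExt_smul {S : Type} [DecidableEq S] (Q : Finset S) (c : ℝ) (g : Q → ℝ) (s : S) :
    bscalExt Q (c • g) s = c * bscalExt Q g s := by
  unfold bscalExt
  split_ifs <;> simp

theorem bscalExt_mem {S : Type} [DecidableEq S] (Q : Finset S) (g : Q → ℝ) (s : S) (h : s ∈ Q) :
    bscalExt Q g s = g ⟨s, h⟩ := by
  unfold bscalExt
  rw [dif_pos h]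

/-- the map `I - K` on functions on `Q` -/
noncomputable def bscalMap {S L : Type} [DecidableEq S] (Q : Finset S) (al : S → Finset L)
    (up : S → L → S) (k : L → ℝ) : (Q → ℝ) →ₗ[ℝ] (Q → ℝ) where
  toFun g := fun s => g s - ∑ t ∈ al s.1, k t * bscalExt Q g (up s.1 t)
  map_add' g g' := by
    funext s
    simp only [Pi.add_apply, bscalExt_add, mul_add, Finset.sum_add_distrib]
    ring
  map_smul' c g := by
    funext s
    simp only [Pi.smul_apply, bscalExt_smul, smul_eq_mul, RingHom.id_apply, mul_sub,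
      Finset.mul_sum]
    congr 1
    exact Finset.sum_congr rfl fun t _ => by ring

theorem bscal_exists {S L : Type} [DecidableEq S] (Q : Finset S) (al : S → Finset L)
    (up : S → L → S)
    (hQ : ∀ σ ∈ Q, ∀ t ∈ al σ, up σ t ∈ Q) (k : L → ℝ) (hk : ∀ σ ∈ Q, ∀ t ∈ al σ, 0 ≤ k t)
    (H : S → ℝ) (hH0 : ∀ σ ∈ Q, 0 ≤ H σ)
    (hH : ∀ σ ∈ Q, ∑ t ∈ al σ, k t * H (up σ t) ≤ H σ - 1) :
    ∃ μ : S → ℝ, ∀ σ ∈ Q, μ σ = 1 + ∑ t ∈ al σ, k t * μ (up σ t) := by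
  have hinj : Function.Injective (bscalMap Q al up k) := by
    rw [injective_iff_map_eq_zero]
    intro g hg
    have h1 := bscal_zero Q al up hQ k hk H hH0 hH (bscalExt Q g) (fun s hs => by
      have h2 : g ⟨s, hs⟩ - ∑ t ∈ al s, k t * bscalExt Q g (up s t) = 0 := congrFun hg ⟨s, hs⟩
      rw [bscalExt_mem Q g s hs]
      linarith)
    funext s
    have h3 := h1 s.1 s.2
    rw [bscalExt_mem Q g s.1 s.2] at h3
    exact h3
  have hsurj : Function.Surjective (bscalMap Q al up k) :=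
    LinearMap.injective_iff_surjective.1 hinj
  obtain ⟨g, hg⟩ := hsurj (fun _ => 1)
  refine ⟨bscalExt Q g, fun s hs => ?_⟩
  have h2 : g ⟨s, hs⟩ - ∑ t ∈ al s, k t * bscalExt Q g (up s t) = 1 := congrFun hg ⟨s, hs⟩
  rw [bscalExt_mem Q g s hs]
  linarith

theorem scal {S L : Type} [DecidableEq S] (Q : Finset S) (al : S → Finset L) (up : S → L → S)
    (hQ : ∀ σ ∈ Q, ∀ t ∈ al σ, up σ t ∈ Q) (k : L → ℝ) (hk : ∀ σ ∈ Q, ∀ t ∈ al σ, 0 ≤ k t)
    (H : S → ℝ) (hH0 : ∀ σ ∈ Q, 0 ≤ H σ)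
    (hH : ∀ σ ∈ Q, ∑ t ∈ al σ, k t * H (up σ t) ≤ H σ - 1) :
    ∃ μ : S → ℝ, (∀ σ ∈ Q, 1 ≤ μ σ) ∧ ∀ (v : S → ℂ) (a : ℂ),
      (∀ σ ∈ Q, v σ = a + ∑ t ∈ al σ, (k t : ℂ) * v (up σ t)) → ∀ σ ∈ Q, v σ = μ σ * a := by
  obtain ⟨μ, hμ⟩ := bscal_exists Q al up hQ k hk H hH0 hH
  have hμ0 : ∀ σ ∈ Q, 0 ≤ μ σ :=
    bscal_max Q al up hQ k hk H hH0 hH μ (fun s hs => by
      have h1 := hμ s hs
      linarith)
  refine ⟨μ, fun σ hσ => ?_, fun v a hv => ?_⟩
  · have h1 := hμ σ hσ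
    have h2 : 0 ≤ ∑ t ∈ al σ, k t * μ (up σ t) :=
      Finset.sum_nonneg fun t ht => mul_nonneg (hk σ hσ t ht) (hμ0 _ (hQ σ hσ t ht))
    linarith
  · have hw : ∀ σ ∈ Q, v σ - μ σ * a =
        ∑ t ∈ al σ, (k t : ℂ) * (v (up σ t) - μ (up σ t) * a) := by
      intro σ hσ
      have h1 : (μ σ : ℂ) = 1 + ∑ t ∈ al σ, (k t : ℂ) * (μ (up σ t) : ℂ) := by
        have h2 := congrArg (fun x : ℝ => (x : ℂ)) (hμ σ hσ)
        simpa using h2
      have h3 : ∑ t ∈ al σ, (k t : ℂ) * (v (up σ t) - μ (up σ t) * a) =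
          ∑ t ∈ al σ, (k t : ℂ) * v (up σ t) -
            (∑ t ∈ al σ, (k t : ℂ) * (μ (up σ t) : ℂ)) * a := by
        rw [Finset.sum_mul, ← Finset.sum_sub_distrib]
        exact Finset.sum_congr rfl fun t _ => by ring
      rw [h3]
      have h4 := hv σ hσ
      linear_combination h4 - a * h1
    have hre := bscal_zero Q al up hQ k hk H hH0 hH (fun s => (v s - μ s * a).re)
      (fun s hs => by
        have h1 := congrArg Complex.re (hw s hs)
        rw [Complex.re_sum] at h1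
        rw [h1]
        exact Finset.sum_congr rfl fun t _ => by rw [Complex.re_ofReal_mul])
    have him := bscal_zero Q al up hQ k hk H hH0 hH (fun s => (v s - μ s * a).im)
      (fun s hs => by
        have h1 := congrArg Complex.im (hw s hs)
        rw [Complex.im_sum] at h1
        rw [h1]
        exact Finset.sum_congr rfl fun t _ => by rw [Complex.im_ofReal_mul])
    intro σ hσ
    have h1 : v σ - μ σ * a = 0 := Complex.ext (hre σ hσ) (him σ hσ)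
    exact sub_eq_zero.1 h1

end Pool.Agent.P.MP_3acc10_al.Bld
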