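import Pool.Agent.P.MP_3acc10_al.BCount
import Pool.Agent.P.MP_3acc10_al.BRatio

set_option autoImplicit false

namespace Pool.Agent.P.MP_3acc10_al.Bld

open Finset Module Matrix

variable {n j : ℕ} {ι : Type} [Fintype ι] [DecidableEq ι]

variable {x0 x : Fin j → Fin n} {c : ι × Finset (Fin n) → ℤ} {σ : St (Let ι j)} {a : ι}
  {π : Finset (Fin j)}

variable {η0 lam : ℝ} {d : ι → ℕ}

open Classical in
theorem sum_NN (hn : j + 2 ≤ n) (hη : 0 ≤ η0) (hl : 1 ≤ lam) (hG : Good x0 x c) :
    ∑ y, (if zz c a = 0 ∧ Fresh x0 c π y then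
      kk (some a, π) x y * base (om η0 n d) lam x0 (c + dl (some a, π) x y) else 0) ≤
      om η0 n d a * base (om η0 n d) lam x0 c := by
  have hω := om_nonneg hη n d
  have hb : 0 ≤ base (om η0 n d) lam x0 c := base_nonneg hω hl
  have hw : 0 ≤ om η0 n d a * base (om η0 n d) lam x0 c := mul_nonneg (hω a) hb
  calc _ ≤ ∑ y, kk (some a, π) x y * (om η0 n d a * base (om η0 n d) lam x0 c) := by
        refine sum_le_sum fun y _ => ?_
        split_ifs with h
        · by_cases hk : kk (some a, π) x y = 0
          · simp [hk]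
          refine mul_le_mul_of_nonneg_left ?_ (kk_nonneg _ _ _)
          have h1 := ratio_NN (x0 := x0) (c := c) (a := a) hω hl (kk_ne hk).2
            (zero_of_zz hG h.1 _).le (zero_of_zz hG h.1 _).ge
          rw [if_pos h.1, if_pos h.2] at h1
          simpa [mul_comm] using h1
        · exact mul_nonneg (kk_nonneg _ _ _) hw
    _ ≤ _ := by
        rw [← sum_mul]
        exact mul_le_of_le_one_left hw (kk_tot hn a π x)

open Classical in
theorem sum_ON (hn : j + 2 ≤ n) (hη : 0 ≤ η0) (hl : 1 ≤ lam) (hG : Good x0 x c)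
    (hC : Clo x0 x σ c a π) :
    ∑ y, (if Fresh x0 c π y then
      kk (some a, π) x y * base (om η0 n d) lam x0 (c + dl (some a, π) x y) else 0) ≤
      base (om η0 n d) lam x0 c := by
  have hω := om_nonneg hη n d
  have hb : 0 ≤ base (om η0 n d) lam x0 c := base_nonneg hω hl
  calc _ ≤ ∑ y, kk (some a, π) x y * base (om η0 n d) lam x0 c := by
        refine sum_le_sum fun y _ => ?_
        split_ifs with h
        · by_cases hk : kk (some a, π) x y = 0
          · simp [hk]
          refine mul_le_mul_of_nonneg_left ?_ (kk_nonneg _ _ _)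
          have hne := (kk_ne hk).2
          obtain ⟨p, hp⟩ : π.Nonempty := by
            rw [nonempty_iff_ne_empty]
            rintro rfl
            simp at hne
          have h0 : c (a, π.image y) = 0 := zero_of_uu hG (h p hp) (mem_image_of_mem y hp)
          have h1 := ratio_ON (x0 := x0) (c := c) (a := a) hω hl hne hC.2.2.1 h0.ge
          rw [if_pos h, pow_zero, mul_one] at h1
          exact le_trans (le_mul_of_one_le_right (base_nonneg hω hl) (one_le_pow₀ hl)) h1
        · exact mul_nonneg (kk_nonneg _ _ _) hb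
    _ ≤ _ := by
        rw [← sum_mul]
        exact mul_le_of_le_one_left hb (kk_tot hn a π x)

theorem sum_OO (hn : j + 2 ≤ n) (hη : 0 ≤ η0) (hl : 1 ≤ lam)
    (hG : Good x0 x c) (hC : Clo x0 x σ c a π) (hπ : π.Nonempty) (hc : π.card = d a) :
    ∑ y, (if zz c a = 1 ∧ c (a, π.image y) < 0 then
      kk (some a, π) x y * base (om η0 n d) lam x0 (c + dl (some a, π) x y) else 0) ≤
      (1 + η0)⁻¹ * base (om η0 n d) lam x0 c := by
  have hω := om_nonneg hη n d
  have hb : 0 ≤ base (om η0 n d) lam x0 c := base_nonneg hω hl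
  have hκ : 0 < kap n π.card := kap_pos hn (card_pos.2 hπ) (by simpa using card_le_univ π)
  have hw : om η0 n d a = (1 + η0) * kap n π.card := by rw [om, hc]
  have hw0 : 0 < om η0 n d a := by rw [hw]; positivity
  by_cases hz : zz c a = 1
  swap
  · simp only [hz, false_and, if_false, sum_const_zero]
    positivity
  calc _ ≤ ∑ y, (if c (a, π.image y) < 0 then kk (some a, π) x y else 0) *
          ((om η0 n d a)⁻¹ * base (om η0 n d) lam x0 c) := by
        refine sum_le_sum fun y _ => ?_
        by_cases h : c (a, π.image y) < 0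
        · rw [if_pos ⟨hz, h⟩, if_pos h]
          by_cases hk : kk (some a, π) x y = 0
          · simp [hk]
          refine mul_le_mul_of_nonneg_left ?_ (kk_nonneg _ _ _)
          have h1 := ratio_OO (x0 := x0) (c := c) (a := a) hω hl (kk_ne hk).2 hC.2.2.1 h
          rw [le_inv_mul_iff₀ hw0, mul_comm]
          exact le_trans (le_mul_of_one_le_right (mul_nonneg (base_nonneg hω hl) hw0.le)
            (one_le_pow₀ hl)) h1
        · rw [if_neg fun h' => h h'.2, if_neg h, zero_mul]
    _ ≤ kap n π.card * zz c a * ((om η0 n d a)⁻¹ * base (om η0 n d) lam x0 c) := by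
        rw [← sum_mul]
        exact mul_le_mul_of_nonneg_right (kk_neg hn hπ hG a) (by positivity)
    _ = _ := by
        rw [hz, hw]
        field_simp
        simp

end Pool.Agent.P.MP_3acc10_al.Bld
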