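import Pool.Agent.P.MP_3acc10_al.BPhi
import Pool.Agent.P.MP_3acc10_al.BSums

set_option autoImplicit false

namespace Pool.Agent.P.MP_3acc10_al.Bld

open Finset Module Matrix

variable {n j : ℕ} {ι : Type} [Fintype ι] [DecidableEq ι]

variable {x0 x : Fin j → Fin n} {c : ι × Finset (Fin n) → ℤ} {σ : St (Let ι j)}
  {M : Finset (Fin j)} {N : Finset (ι × Finset (Fin n))} {Γ : Finset (Finset (Fin j))}
  {η0 lam δ μ : ℝ} {d : ι → ℕ} {A0 : Finset ι} {h : Finset (Finset (Fin j)) → ℝ}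

open Classical in
theorem step_letter (hn : j + 2 ≤ n) (hη : 0 ≤ η0) (hd : ∀ a, 0 < d a) (hl : 1 ≤ lam)
    (hμ : 1 ≤ μ) (hf : Hf (zf η0 n d A0) δ h) (hv : ∀ t ∈ σ.1, Val d A0 t) (hG : Good x0 x c)
    (hI : Inv x0 x σ c M N Γ) {a : ι} {π : Finset (Fin j)} (ha : (some a, π) ∈ alw σ) :
    ∑ y, kk (some a, π) x y *
        Psi (om η0 n d) lam μ h x0 y (upd Adj rk σ (some a, π)) (c + dl (some a, π) x y) ≤
      base (om η0 n d) lam x0 c * μ⁻¹ ^ (M.card + Γ.card) *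
        (om η0 n d a * ((if π ∉ Ft M σ ∧ ∀ b ρ, Clo x0 x σ c b ρ → rkS π < rkS ρ then
            h (nxt (Ft M σ) π) else 0) + (δ * μ)⁻¹) +
          if Clo x0 x σ c a π then (1 + η0)⁻¹ * (if ∀ b ρ, Clo x0 x σ c b ρ → rkS π ≤ rkS ρ then
            h (Ft M σ ∪ lowr j (rkS π)) else 0) + 2 * (δ * μ)⁻¹ else 0) +
      δ⁻¹ * ∑ y, (if Nrm x0 x σ c a π y then 0 else
        kk (some a, π) x y * base (om η0 n d) lam x0 (c + dl (some a, π) x y)) := by
  have hω : ∀ b, 0 ≤ om η0 n d b := om_nonneg hη n d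
  have hδ : 0 ≤ δ⁻¹ := le_trans zero_le_one ((hf.ge ∅).trans (hf.le ∅))
  have hμ0 : 0 ≤ μ⁻¹ := inv_nonneg.2 (by linarith)
  have hD : 0 ≤ (δ * μ)⁻¹ := by rw [mul_inv]; exact mul_nonneg hδ hμ0
  have hh : ∀ F, 0 ≤ h F := fun F => le_trans zero_le_one (hf.ge F)
  have hne : ∀ t ∈ σ.1, t.2.Nonempty := by
    rintro ⟨_ | b, ρ⟩ ht
    · exact card_pos.1 (by rw [Val_none.1 (hv _ ht)]; norm_num)
    · exact card_pos.1 (by rw [(Val_some.1 (hv _ ht)).2]; exact hd b)
  have hπ : π.Nonempty := hne _ (mem_alw.1 ha).1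
  have hc : π.card = d a := (Val_some.1 (hv _ (mem_alw.1 ha).1)).2
  have hB : 0 ≤ base (om η0 n d) lam x0 c := base_nonneg hω hl
  have s1 := sum_NN (x0 := x0) (x := x) (c := c) (a := a) (π := π) (d := d) hn hη hl hG
  have s2 := fun hC : Clo x0 x σ c a π => sum_ON (d := d) hn hη hl hG hC
  have s3 := fun hC : Clo x0 x σ c a π => sum_OO (d := d) hn hη hl hG hC hπ hc
  have p1 := fun (y : Fin j → Fin n) (hP : Pan π x y) hy hz hF =>
    phi_NN hf hμ hne hG hI ha hP hy hz hF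
  have p2 := fun (y : Fin j → Fin n) hC (hP : Pan π x y) hy hF =>
    phi_ON (a := a) hf hμ hG hI hC hP hy hF
  have p3 := fun (y : Fin j → Fin n) hC (hP : Pan π x y) hy hz hα =>
    phi_OO (a := a) hf hμ hne hG hI hC hP hy hz hα
  have hm : 0 ≤ μ⁻¹ ^ (M.card + Γ.card) := pow_nonneg hμ0 _
  have hI1 : 0 ≤ (if π ∉ Ft M σ ∧ ∀ b ρ, Clo x0 x σ c b ρ → rkS π < rkS ρ then
      h (nxt (Ft M σ) π) else 0) := by
    split_ifs
    · exact hh _
    · exact le_rfl
  have hI3 : 0 ≤ (if ∀ b ρ, Clo x0 x σ c b ρ → rkS π ≤ rkS ρ then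
      h (Ft M σ ∪ lowr j (rkS π)) else 0) := by
    split_ifs
    · exact hh _
    · exact le_rfl
  generalize (if π ∉ Ft M σ ∧ ∀ b ρ, Clo x0 x σ c b ρ → rkS π < rkS ρ then
      h (nxt (Ft M σ) π) else 0) = I1 at p1 hI1 ⊢
  generalize (if ∀ b ρ, Clo x0 x σ c b ρ → rkS π ≤ rkS ρ then
      h (Ft M σ ∪ lowr j (rkS π)) else 0) = I3 at p3 hI3 ⊢
  generalize μ⁻¹ ^ (M.card + Γ.card) = m at p1 p2 p3 hm ⊢
  generalize (δ * μ)⁻¹ = D at p1 p2 p3 hD ⊢
  have hkb : ∀ y, 0 ≤ kk (some a, π) x y * base (om η0 n d) lam x0 (c + dl (some a, π) x y) :=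
    fun y => mul_nonneg (kk_nonneg _ _ _) (base_nonneg hω hl)
  have c1 : 0 ≤ m * (I1 + D) := mul_nonneg hm (add_nonneg hI1 hD)
  have c2 : 0 ≤ m * D := mul_nonneg hm hD
  have c3 : 0 ≤ m * (I3 + D) := mul_nonneg hm (add_nonneg hI3 hD)
  have key : ∀ y, kk (some a, π) x y *
      Psi (om η0 n d) lam μ h x0 y (upd Adj rk σ (some a, π)) (c + dl (some a, π) x y) ≤
      m * (I1 + D) * (if zz c a = 0 ∧ Fresh x0 c π y then
        kk (some a, π) x y * base (om η0 n d) lam x0 (c + dl (some a, π) x y) else 0) +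
      (if Clo x0 x σ c a π then m * D else 0) * (if Fresh x0 c π y then
        kk (some a, π) x y * base (om η0 n d) lam x0 (c + dl (some a, π) x y) else 0) +
      (if Clo x0 x σ c a π then m * (I3 + D) else 0) * (if zz c a = 1 ∧ c (a, π.image y) < 0 then
        kk (some a, π) x y * base (om η0 n d) lam x0 (c + dl (some a, π) x y) else 0) +
      δ⁻¹ * (if Nrm x0 x σ c a π y then 0 else
        kk (some a, π) x y * base (om η0 n d) lam x0 (c + dl (some a, π) x y)) := by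
    intro y
    have hk := hkb y
    have t1 : 0 ≤ m * (I1 + D) * (if zz c a = 0 ∧ Fresh x0 c π y then
        kk (some a, π) x y * base (om η0 n d) lam x0 (c + dl (some a, π) x y) else 0) :=
      mul_nonneg c1 (by split_ifs; exacts [hk, le_rfl])
    have t2 : 0 ≤ (if Clo x0 x σ c a π then m * D else 0) * (if Fresh x0 c π y then
        kk (some a, π) x y * base (om η0 n d) lam x0 (c + dl (some a, π) x y) else 0) :=
      mul_nonneg (by split_ifs; exacts [c2, le_rfl]) (by split_ifs; exacts [hk, le_rfl])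
    have t3 : 0 ≤ (if Clo x0 x σ c a π then m * (I3 + D) else 0) *
        (if zz c a = 1 ∧ c (a, π.image y) < 0 then
        kk (some a, π) x y * base (om η0 n d) lam x0 (c + dl (some a, π) x y) else 0) :=
      mul_nonneg (by split_ifs; exacts [c3, le_rfl]) (by split_ifs; exacts [hk, le_rfl])
    have t4 : 0 ≤ δ⁻¹ * (if Nrm x0 x σ c a π y then 0 else
        kk (some a, π) x y * base (om η0 n d) lam x0 (c + dl (some a, π) x y)) :=
      mul_nonneg hδ (by split_ifs; exacts [le_rfl, hk])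
    by_cases h0 : kk (some a, π) x y = 0
    · refine le_trans (le_of_eq ?_) (add_nonneg (add_nonneg (add_nonneg t1 t2) t3) t4)
      rw [h0, zero_mul]
    obtain ⟨hP, hy⟩ := kk_ne h0
    rw [Psi, ← mul_assoc]
    by_cases hN : Nrm x0 x σ c a π y
    · rcases hN with ⟨hz, hF⟩ | ⟨hC, hF⟩ | ⟨hC, hz, hα⟩
      · have := mul_le_mul_of_nonneg_left (p1 y hP hy hz hF) hk
        rw [if_pos (And.intro hz hF)]
        linarith
      · have := mul_le_mul_of_nonneg_left (p2 y hC hP hy hF) hk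
        rw [if_pos hC (t := m * D), if_pos hF]
        linarith
      · have := mul_le_mul_of_nonneg_left (p3 y hC hP hy hz hα) hk
        rw [if_pos hC (t := m * (I3 + D)), if_pos (And.intro hz hα)]
        linarith
    · have := mul_le_mul_of_nonneg_left (phi_bd hf hμ x0 y (upd Adj rk σ (some a, π))
        (c + dl (some a, π) x y)).2 hk
      rw [if_neg hN]
      linarith
  refine (sum_le_sum fun y _ => key y).trans ?_
  rw [sum_add_distrib, sum_add_distrib, sum_add_distrib, ← mul_sum, ← mul_sum, ← mul_sum,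
    ← mul_sum]
  refine add_le_add ?_ le_rfl
  have u1 := mul_le_mul_of_nonneg_left s1 c1
  by_cases hC : Clo x0 x σ c a π
  · rw [if_pos hC, if_pos hC, if_pos hC]
    have u2 := mul_le_mul_of_nonneg_left (s2 hC) c2
    have u3 := mul_le_mul_of_nonneg_left (s3 hC) c3
    have u4 : (1 + η0)⁻¹ ≤ 1 := inv_le_one_of_one_le₀ (by linarith)
    have u5 := mul_le_mul_of_nonneg_left u4 (mul_nonneg c2 hB)
    nlinarith
  · rw [if_neg hC, if_neg hC, if_neg hC]
    nlinarith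

theorem step_g (hη : 0 ≤ η0) (hl : 1 ≤ lam) (hμ : 1 ≤ μ) (hf : Hf (zf η0 n d A0) δ h)
    (hv : ∀ t ∈ σ.1, Val d A0 t) (hG : Good x0 x c) (hI : Inv x0 x σ c M N Γ)
    {π : Finset (Fin j)} (ha : (none, π) ∈ alw σ) :
    ∑ y, kk ((none, π) : Let ι j) x y *
        Psi (om η0 n d) lam μ h x0 y (upd Adj rk σ (none, π)) (c + dl (none, π) x y) ≤
      base (om η0 n d) lam x0 c * μ⁻¹ ^ (M.card + Γ.card) * (δ * μ)⁻¹ := by
  have hω : ∀ b, 0 ≤ om η0 n d b := om_nonneg hη n d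
  have hδ : 0 ≤ δ⁻¹ := le_trans zero_le_one ((hf.ge ∅).trans (hf.le ∅))
  have hμ0 : 0 ≤ μ⁻¹ := inv_nonneg.2 (by linarith)
  have hD : 0 ≤ (δ * μ)⁻¹ := by rw [mul_inv]; exact mul_nonneg hδ hμ0
  have hB : 0 ≤ base (om η0 n d) lam x0 c := base_nonneg hω hl
  have hc : π.card = 2 := Val_none.1 (hv _ (mem_alw.1 ha).1)
  rw [sum_eq_single x]
  · rw [kk_none, dl_none, add_zero]
    by_cases hx : Set.InjOn x π
    · rw [if_neg (fun h' => h'.2 hx), zero_mul]
      exact mul_nonneg (mul_nonneg hB (pow_nonneg hμ0 _)) hD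
    · rw [if_pos ⟨rfl, hx⟩, one_mul, Psi, mul_assoc]
      exact mul_le_mul_of_nonneg_left (phi_g hf hμ hG hI ha hc hx) hB
  · intro y _ hy
    rw [kk_none, if_neg (fun h' => hy h'.1), zero_mul]
  · intro h'
    exact absurd (mem_univ x) h'

end Pool.Agent.P.MP_3acc10_al.Bld
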