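import Pool.Agent.P.MP_3acc10_al.BDefs

set_option autoImplicit false

namespace Pool.Agent.P.MP_3acc10_al.Bld

open Finset Module Matrix

variable {n j : ℕ} {ι : Type} [Fintype ι] [DecidableEq ι]

theorem Av_supp (U : Finset (Fin j)) (w F : (Fin j → Fin n) → ℂ) (S : Finset (Fin n))
    (h : ¬ S.card = U.card) : Av U w F S = 0 := by
  refine sum_eq_zero fun x _ => if_neg fun h1 => h ?_
  rw [← h1.2, card_image_of_injOn h1.1]

theorem bSurA_bij (e : ℕ) (U : Finset (Fin j)) (x : Fin j → Fin n) (hx : Set.InjOn x U)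
    (T : Finset (Fin n)) (φ : Finset (Fin n) → ℂ) :
    ∑ π ∈ (powersetCard e U).filter (fun π => (U \ π).image x = T), φ (π.image x)
      = ∑ Y ∈ univ.filter (fun Y => Disjoint Y T ∧ Y.card = e ∧ U.image x = Y ∪ T), φ Y := by
  refine sum_bij (fun π _ => π.image x) ?_ ?_ ?_ fun _ _ => rfl
  · intro π hπ
    obtain ⟨h1, rfl⟩ := mem_filter.1 hπ
    obtain ⟨h2, h3⟩ := mem_powersetCard.1 h1
    refine mem_filter.2 ⟨mem_univ _, ?_, ?_, ?_⟩
    · rw [image_sdiff_of_injOn hx h2]
      exact disjoint_sdiff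
    · rw [card_image_of_injOn (hx.mono (coe_subset.2 h2)), h3]
    · rw [← image_union, union_sdiff_of_subset h2]
  · intro π hπ π' hπ' h
    have h1 := (mem_powersetCard.1 (mem_filter.1 hπ).1).1
    have h2 := (mem_powersetCard.1 (mem_filter.1 hπ').1).1
    have key : ∀ {ρ ρ' : Finset (Fin j)}, ρ ⊆ U → ρ' ⊆ U → ρ.image x = ρ'.image x → ρ ⊆ ρ' := by
      intro ρ ρ' h3 h4 h5 p hp
      obtain ⟨q, hq, h6⟩ := mem_image.1 (h5 ▸ mem_image_of_mem x hp)
      rwa [← hx (h4 hq) (h3 hp) h6]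
    exact Subset.antisymm (key h1 h2 h) (key h2 h1 h.symm)
  · intro Y hY
    obtain ⟨-, h1, h2, h3⟩ := mem_filter.1 hY
    have h4 : (U.filter fun p => x p ∈ Y).image x = Y := by
      ext y
      simp only [mem_image, mem_filter]
      constructor
      · rintro ⟨p, hp, rfl⟩
        exact hp.2
      · intro hy
        obtain ⟨p, hp, rfl⟩ := mem_image.1 (h3 ▸ mem_union_left T hy)
        exact ⟨p, ⟨hp, hy⟩, rfl⟩
    have h5 : (U.filter fun p => x p ∈ Y) ⊆ U := filter_subset _ _
    refine ⟨U.filter fun p => x p ∈ Y, mem_filter.2 ⟨mem_powersetCard.2 ⟨h5, ?_⟩, ?_⟩, h4⟩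
    · rw [← card_image_of_injOn (hx.mono (coe_subset.2 h5)), h4, h2]
    · rw [image_sdiff_of_injOn hx h5, h4, h3, union_sdiff_cancel_left h1]

omit [Fintype ι] [DecidableEq ι] in
theorem Av_act (d : ι → ℕ) (A : ι × Finset (Fin n) → ℂ) (a : ι) (U : Finset (Fin j))
    (w F : (Fin j → Fin n) → ℂ) (hF : ∀ x, ¬ Set.InjOn x U → F x = 0) :
    act (gf d A a) (Av U w F) = ∑ π ∈ powersetCard (d a) U, Av (U \ π) (w * fl A a π) F := by
  classical
  funext T
  have h1 : act (gf d A a) (Av U w F) T = ∑ x, ∑ Y ∈ univ.filter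
      (fun Y => Disjoint Y T ∧ Y.card = d a ∧ U.image x = Y ∪ T),
        star (A (a, Y)) * (if Set.InjOn x U then star (w x) * F x else 0) := by
    simp only [sum_filter]
    rw [sum_comm, act]
    refine sum_congr rfl fun Y _ => ?_
    by_cases h2 : Disjoint Y T
    · by_cases h3 : Y.card = d a
      · simp only [h2, h3, mask, Av, if_true, true_and, mul_sum]
        refine sum_congr rfl fun x _ => ?_
        by_cases h4 : U.image x = Y ∪ T <;> simp [h4]
      · simp [h3, mask]
    · simp [h2]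
  rw [h1, Finset.sum_apply]
  simp only [Av]
  rw [sum_comm]
  refine sum_congr rfl fun x _ => ?_
  by_cases hx : Set.InjOn x U
  · rw [← bSurA_bij (d a) U x hx T
      (fun Y => star (A (a, Y)) * (if Set.InjOn x U then star (w x) * F x else 0)), sum_filter]
    refine sum_congr rfl fun π hπ => ?_
    have h2 := (mem_powersetCard.1 hπ).1
    have h3 : Set.InjOn x π := hx.mono (coe_subset.2 h2)
    have h4 : Set.InjOn x (U \ π : Finset (Fin j)) := hx.mono (coe_subset.2 sdiff_subset)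
    simp only [hx, h3, h4, if_true, true_and, Pi.mul_apply, fl, star_mul, mul_assoc]
  · simp [hF x hx]

end Pool.Agent.P.MP_3acc10_al.Bld
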