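import Pool.Agent.P.MP_3acc10_al.BDefs

set_option autoImplicit false

namespace Pool.Agent.P.MP_3acc10_al.Bld

open Finset Module Matrix

variable {n j : ℕ} {ι : Type} [Fintype ι] [DecidableEq ι]

open Classical in
/-- the points counted by the final average -/
noncomputable def bsd_cnt (U : Finset (Fin j)) (Ω : Finset (Finset (Fin j)))
    (S : Finset (Fin n)) : Finset (Fin j → Fin n) :=
  univ.filter fun x => (Set.InjOn x U ∧ U.image x = S) ∧ ∀ π ∈ Ω, Set.InjOn x π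

lemma bsd_mem {U : Finset (Fin j)} {Ω : Finset (Finset (Fin j))} {S : Finset (Fin n)}
    {x : Fin j → Fin n} : x ∈ bsd_cnt U Ω S ↔
      (Set.InjOn x U ∧ U.image x = S) ∧ ∀ π ∈ Ω, Set.InjOn x π := by
  simp only [bsd_cnt, mem_filter, mem_univ, true_and]

lemma bsd_le (U : Finset (Fin j)) (Ω : Finset (Finset (Fin j))) {S S' : Finset (Fin n)}
    (h : S.card = S'.card) : (bsd_cnt U Ω S).card ≤ (bsd_cnt U Ω S').card := by
  obtain ⟨τ, hτ⟩ := Equiv.Perm.exists_map_finset_eq S S' h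
  refine card_le_card_of_injOn (fun x => τ ∘ x) ?_ ?_
  · intro x hx
    rw [mem_coe, bsd_mem] at hx
    rw [mem_coe, bsd_mem]
    refine ⟨⟨τ.injective.comp_injOn hx.1.1, ?_⟩, fun π hπ => τ.injective.comp_injOn (hx.2 π hπ)⟩
    rw [← image_image, hx.1.2, ← hτ, map_eq_image]
    rfl
  · intro x _ y _ hxy
    exact τ.injective.comp_left hxy

omit [Fintype ι] [DecidableEq ι] in
open Classical in
lemma bsd_star {A : ι × Finset (Fin n) → ℂ} (hA : ∀ γ, ‖A γ‖ = 1) (l : ι)
    (Ω : Finset (Finset (Fin j))) (x : Fin j → Fin n) :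
    star ((∏ π ∈ Ω, fl A l π) x) * (∏ π ∈ Ω, fl A l π) x =
      if ∀ π ∈ Ω, Set.InjOn x π then 1 else 0 := by
  rw [Finset.prod_apply]
  split_ifs with h
  · rw [star_prod, ← prod_mul_distrib]
    refine prod_eq_one fun π hπ => ?_
    simp only [fl, if_pos (h π hπ)]
    rw [mul_comm]
    exact mul_star_self hA _
  · push Not at h
    obtain ⟨π, hπ, hx⟩ := h
    rw [prod_eq_zero hπ (by simp only [fl, if_neg hx]), mul_zero]

omit [Fintype ι] [DecidableEq ι] in
theorem Av_end {A : ι × Finset (Fin n) → ℂ} (hA : ∀ γ, ‖A γ‖ = 1) (hn : j ≤ n) (l : ι)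
    (U : Finset (Fin j)) (Ω : Finset (Finset (Fin j))) : ∃ ν : ℝ, 0 < ν ∧
      ∀ ξ : Finset (Fin n) → ℂ, (∀ S, ¬ S.card = U.card → ξ S = 0) →
        Av U (∏ π ∈ Ω, fl A l π) ((∏ π ∈ Ω, fl A l π) * lift U ξ) = (ν : ℂ) • ξ := by
  classical
  have hinj : Function.Injective (Fin.castLE hn) := Fin.castLE_injective hn
  have hS0 : (U.image (Fin.castLE hn)).card = U.card := card_image_of_injective _ hinj
  refine ⟨((bsd_cnt U Ω (U.image (Fin.castLE hn))).card : ℝ), ?_, fun ξ hξ => ?_⟩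
  · have : (bsd_cnt U Ω (U.image (Fin.castLE hn))).Nonempty :=
      ⟨Fin.castLE hn, bsd_mem.2 ⟨⟨hinj.injOn, rfl⟩, fun _ _ => hinj.injOn⟩⟩
    exact_mod_cast card_pos.2 this
  · funext S
    have key : Av U (∏ π ∈ Ω, fl A l π) ((∏ π ∈ Ω, fl A l π) * lift U ξ) S =
        ((bsd_cnt U Ω S).card : ℂ) * ξ S := by
      rw [← nsmul_eq_mul, ← sum_const, bsd_cnt, sum_filter]
      refine sum_congr rfl fun x _ => ?_
      by_cases h1 : Set.InjOn x U ∧ U.image x = S
      · rw [if_pos h1, Pi.mul_apply, ← mul_assoc, bsd_star hA]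
        have h2 : lift U ξ x = ξ S := by simp only [lift, if_pos h1.1, h1.2]
        by_cases h3 : ∀ π ∈ Ω, Set.InjOn x π
        · rw [if_pos h3, if_pos ⟨h1, h3⟩, one_mul, h2]
        · rw [if_neg h3, if_neg (fun h => h3 h.2), zero_mul]
      · rw [if_neg h1, if_neg (fun h => h1 h.1)]
    rw [key, Pi.smul_apply, smul_eq_mul]
    by_cases hS : S.card = U.card
    · have := le_antisymm (bsd_le U Ω (hS.trans hS0.symm)) (bsd_le U Ω (hS0.trans hS.symm))
      rw [this]
      simp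
    · rw [hξ S hS, mul_zero, mul_zero]

end Pool.Agent.P.MP_3acc10_al.Bld
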