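import Pool.Agent.P.MP_3acc10_al.Asym
import Pool.Agent.P.MP_3acc10_al.Defs

set_option autoImplicit false

namespace Pool.Agent.P.MP_3acc10_al

open Module Finset MvPolynomial

variable {K : Type} [Field K] {n r : ℕ}

noncomputable def ind (S : Finset (Fin n)) : Fin n →₀ ℕ := ∑ s ∈ S, Finsupp.single s 1

lemma ind_apply (S : Finset (Fin n)) (s : Fin n) : ind S s = if s ∈ S then 1 else 0 := by
  simp [ind, Finsupp.finsetSum_apply, Finsupp.single_apply]

lemma prod_X (S : Finset (Fin n)) :
    ∏ s ∈ S, (X s : MvPolynomial (Fin n) K) = monomial (ind S) 1 := by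
  rw [ind, monomial_sum_one]; rfl

lemma ind_support {m : Fin n →₀ ℕ} (h : ∀ s, m s ≤ 1) : ind m.support = m := by
  ext s
  have := h s
  rw [ind_apply]
  split_ifs with h1
  · have := Finsupp.mem_support_iff.1 h1; omega
  · exact (Finsupp.notMem_support_iff.1 h1).symm

lemma support_ind (S : Finset (Fin n)) : (ind S).support = S := by
  ext s; simp [ind_apply]

lemma degree_ind (S : Finset (Fin n)) : (ind S).degree = S.card := by
  simp [ind]

lemma ind_add {S T : Finset (Fin n)} (h : Disjoint S T) : ind S + ind T = ind (S ∪ T) := by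
  rw [ind, ind, ind, sum_union h]

lemma monomial_mul_form (e : ℕ) (g : Finset (Fin n) → K) (m : Fin n →₀ ℕ) :
    monomial m 1 * form e g =
      ∑ Y : Finset (Fin n), (if Y.card = e then g Y else 0) • monomial (ind Y + m) (1 : K) := by
  rw [form, mul_sum, powersetCard_eq_filter, powerset_univ, sum_filter]
  refine sum_congr rfl fun Y _ => ?_
  split_ifs
  · rw [prod_X, C_mul', mul_smul_comm, monomial_mul, add_comm, one_mul]
  · simp

lemma mem_idl_of_two (d : Fin r → ℕ) (c : Fin r × Finset (Fin n) → K) {m : Fin n →₀ ℕ}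
    (h : ¬ ∀ s, m s ≤ 1) : monomial m (1 : K) ∈ idl d c := by
  push Not at h
  obtain ⟨s, hs⟩ := h
  have : monomial m (1 : K) = monomial (m - Finsupp.single s 2) 1 * X s ^ 2 := by
    rw [X_pow_eq_monomial, monomial_mul, tsub_add_cancel_of_le (Finsupp.single_le_iff.2 hs),
      one_mul]
  rw [this]
  exact Ideal.mul_mem_left _ _ (Ideal.subset_span (Or.inl ⟨s, rfl⟩))

lemma sqfree_add {Y : Finset (Fin n)} {m : Fin n →₀ ℕ} :
    (∀ s, (ind Y + m) s ≤ 1) ↔ (∀ s, m s ≤ 1) ∧ Disjoint Y m.support := by
  simp only [Finsupp.add_apply, ind_apply, disjoint_left, Finsupp.notMem_support_iff]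
  constructor
  · intro h
    exact ⟨fun s => by have := h s; omega, fun s hs => by have := h s; rw [if_pos hs] at this; omega⟩
  · rintro ⟨h1, h2⟩ s
    split_ifs with hs
    · simp [h2 hs]
    · simpa using h1 s

open Classical in
noncomputable def lam (F : Finset (Fin n) → K) : MvPolynomial (Fin n) K →ₗ[K] K :=
  (basisMonomials (Fin n) K).constr K fun m => if ∀ s, m s ≤ 1 then F m.support else 0

open Classical in
lemma lam_monomial (F : Finset (Fin n) → K) (m : Fin n →₀ ℕ) :
    lam F (monomial m 1) = if ∀ s, m s ≤ 1 then F m.support else 0 :=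
  (basisMonomials (Fin n) K).constr_basis K _ m

lemma lam_ind (F : Finset (Fin n) → K) (S : Finset (Fin n)) : lam F (monomial (ind S) 1) = F S := by
  rw [lam_monomial, if_pos, support_ind]
  intro s; rw [ind_apply]; split_ifs <;> simp

lemma mask_eq (d : Fin r → ℕ) (c : Fin r × Finset (Fin n) → K) (i : Fin r) (Y : Finset (Fin n)) :
    mask (fun i Y => Y.card = d i) c i Y = if Y.card = d i then c (i, Y) else 0 := by
  simp [mask]

lemma lam_idl {j : ℕ} {d : Fin r → ℕ} {c : Fin r × Finset (Fin n) → K} {F : Finset (Fin n) → K}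
    (hF : F ∈ WF j d univ c) {p : MvPolynomial (Fin n) K} (hp : p ∈ idl d c) : lam F p = 0 := by
  have key : ∀ q, lam F (q * p) = 0 := by
    induction hp using Submodule.span_induction with
    | mem g hg =>
      intro q
      have : ∀ m : Fin n →₀ ℕ, lam F (monomial m 1 * g) = 0 := by
        intro m
        rcases hg with ⟨s, rfl⟩ | ⟨i, rfl⟩
        · simp only
          rw [X_pow_eq_monomial, monomial_mul, one_mul, lam_monomial, if_neg]
          intro h
          have := h s
          simp at this
        · simp only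
          rw [monomial_mul_form, map_sum]
          by_cases hm : ∀ s, m s ≤ 1
          · refine Eq.trans ?_ (congrFun (hF.2 i (mem_univ _)) m.support)
            refine sum_congr rfl fun Y _ => ?_
            rw [map_smul, lam_monomial, mask_eq, smul_eq_mul]
            by_cases hd : Disjoint Y m.support
            · rw [if_pos (sqfree_add.2 ⟨hm, hd⟩), if_pos hd]
              conv_lhs => rw [← ind_support hm, ind_add hd, support_ind]
            · rw [if_neg fun h => hd (sqfree_add.1 h).2, if_neg hd, mul_zero]
          · refine sum_eq_zero fun Y _ => ?_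
            rw [map_smul, lam_monomial, if_neg fun h => hm (sqfree_add.1 h).1, smul_zero]
      induction q using MvPolynomial.induction_on' with
      | monomial m a =>
        rw [show monomial m a = a • monomial m (1 : K) by simp [smul_monomial], smul_mul_assoc,
          map_smul, this, smul_zero]
      | add q q' h h' => rw [add_mul, map_add, h, h', add_zero]
    | zero => simp
    | add x y _ _ hx hy => intro q; rw [mul_add, map_add, hx, hy, add_zero]
    | smul a x _ hx => intro q; rw [smul_eq_mul, ← mul_assoc, hx]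
  simpa using key 1

theorem hilb_eq (d : Fin r → ℕ) (c : Fin r × Finset (Fin n) → K) (j : ℕ) :
    hilb d c j = finrank K (WF j d univ c) := by
  classical
  set π := (Ideal.Quotient.mkₐ K (idl d c)).toLinearMap with hπ
  set H := (homogeneousSubmodule (Fin n) K j).map π with hH
  have hπ0 : ∀ p, π p = 0 ↔ p ∈ idl d c := fun p => Ideal.Quotient.eq_zero_iff_mem
  have hmem : ∀ S : Finset (Fin n), S.card = j → π (monomial (ind S) 1) ∈ H := fun S hS =>
    ⟨_, isHomogeneous_monomial _ (by rw [degree_ind, hS]), rfl⟩
  let v : Finset (Fin n) → H := fun S => if hS : S.card = j then ⟨_, hmem S hS⟩ else 0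
  have hspan : Submodule.span K (Set.range v) = ⊤ := by
    rw [eq_top_iff]
    rintro ⟨_, p, hp, rfl⟩ -
    have : π p ∈ (Submodule.span K (Set.range v)).map H.subtype := by
      rw [p.as_sum, map_sum]
      refine Submodule.sum_mem _ fun m hm => ?_
      rw [show monomial m (coeff m p) = coeff m p • monomial m (1 : K) by simp [smul_monomial],
        map_smul]
      refine Submodule.smul_mem _ _ ?_
      by_cases h : ∀ s, m s ≤ 1
      · have hc : m.support.card = j := by
          rw [← degree_ind, ind_support h, Finsupp.degree_eq_weight_one]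
          exact hp (mem_support_iff.1 hm)
        refine ⟨v m.support, Submodule.subset_span ⟨_, rfl⟩, ?_⟩
        simp only [v, dif_pos hc, Submodule.subtype_apply, ind_support h]
      · rw [(hπ0 _).2 (mem_idl_of_two d c h)]; exact Submodule.zero_mem _
    obtain ⟨x, hx, e⟩ := this
    exact (Subtype.ext e : x = ⟨_, _⟩) ▸ hx
  have hfin : FiniteDimensional K H :=
    ⟨hspan ▸ Submodule.fg_span (Set.finite_range v)⟩
  show finrank K H = _
  rw [← Subspace.dual_finrank_eq]
  let Φ : Dual K H →ₗ[K] (Finset (Fin n) → K) := LinearMap.pi fun S => LinearMap.applyₗ (v S)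
  have hΦ : Function.Injective Φ := by
    rw [← LinearMap.ker_eq_bot, eq_bot_iff]
    intro ψ h0
    rw [Submodule.mem_bot]
    refine LinearMap.ext_on_range hspan fun S => congrFun (show Φ ψ = 0 from h0) S
  rw [← LinearMap.finrank_range_of_inj hΦ]
  suffices h : LinearMap.range Φ = WF j d univ c by rw [h]
  apply le_antisymm
  · rintro _ ⟨ψ, rfl⟩
    refine ⟨fun S hS => ?_, fun i _ => ?_⟩
    · show ψ (v S) = 0
      simp only [v, dif_neg hS, map_zero]
    · ext T
      by_cases hT : T.card + d i = j
      swap
      · refine act_mask_supp c i (fun S hS => ?_) T hT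
        show ψ (v S) = 0
        simp only [v, dif_neg hS, map_zero]
      have h1 : π (monomial (ind T) 1 * form (d i) fun S => c (i, S)) = 0 :=
        (hπ0 _).2 (Ideal.mul_mem_left _ _ (Ideal.subset_span (Or.inr ⟨i, rfl⟩)))
      have h2 : ∑ Y : Finset (Fin n), (if Disjoint Y T then
          mask (fun i Y => Y.card = d i) c i Y • v (Y ∪ T) else 0) = 0 := by
        apply Subtype.ext
        rw [monomial_mul_form, map_sum] at h1
        rw [Submodule.coe_sum, Submodule.coe_zero, ← h1]
        refine sum_congr rfl fun Y _ => ?_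
        rw [map_smul, mask_eq]
        by_cases hd : Disjoint Y T
        · rw [if_pos hd]
          by_cases hY : Y.card = d i
          · have : (Y ∪ T).card = j := by rw [card_union_of_disjoint hd]; omega
            simp only [v, dif_pos this, ind_add hd, Submodule.coe_smul]
          · simp [hY]
        · rw [if_neg hd, (hπ0 _).2 (mem_idl_of_two d c fun h => hd ?_), smul_zero,
            Submodule.coe_zero]
          simpa [support_ind] using (sqfree_add.1 h).2
      have h3 := congrArg ψ h2
      rw [map_sum, map_zero] at h3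
      refine Eq.trans (sum_congr rfl fun Y _ => ?_) h3
      split_ifs
      · rw [map_smul]; rfl
      · simp
  · intro F hF
    let μ : (MvPolynomial (Fin n) K ⧸ idl d c) →ₗ[K] K :=
      ((idl d c).restrictScalars K).liftQ (lam F) fun p hp => lam_idl hF hp
    refine ⟨μ ∘ₗ H.subtype, ?_⟩
    ext S
    show μ (v S) = F S
    by_cases hS : S.card = j
    · simp only [v, dif_pos hS]
      exact lam_ind F S
    · simp only [v, dif_neg hS, Submodule.coe_zero, map_zero]
      exact (hF.1 S hS).symm

theorem asymptotic (j : ℕ) : ∃ C : ℝ, ∀ (K : Type) [Field K] [Infinite K] (n r : ℕ)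
    (d : Fin r → ℕ), (∀ i, 0 < d i) →
    ∃ P : MvPolynomial (Fin r × Finset (Fin n)) K, P ≠ 0 ∧ ∀ c, eval c P ≠ 0 →
      |(hilb d c j : ℝ) - truncCoeff (series n d univ) j| * √n ≤ C * (n : ℝ) ^ j := by
  obtain ⟨C, -, h⟩ := asym j
  refine ⟨C, fun K _ _ n r d hd => ?_⟩
  exact (h K (Fin r) n d univ fun l _ => hd l).mono fun c hc => by rw [hilb_eq]; exact hc

end Pool.Agent.P.MP_3acc10_al
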