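import Pool.Agent.P.MP_3acc10_al.Spec

set_option autoImplicit false

namespace Pool.Agent.P.MP_3acc10_al

open Module Finset

/-- subspaces which meet pairwise in hyperplanes lie in a common space -/
lemma common {L V κ : Type*} [Field L] [AddCommGroup V] [Module L V] [FiniteDimensional L V]
    [Fintype κ] [DecidableEq κ] (U : Submodule L V) (hy : κ → Submodule L V)
    (St : κ → Submodule L V → Prop) (s1 : ∀ a b Q, a ≠ b → St b Q → St b (Q ⊓ hy a))
    (s2 : ∀ b Q Q', St b Q → St b Q' → St b (Q ⊔ Q'))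
    (s3 : ∀ b Q, St b Q → Q ≤ U → Q ≤ hy b → Q = ⊥) (t : ℕ) (ht : t + 2 ≤ Fintype.card κ) :
    ∀ (α : ℕ) (Q : Finset κ → Submodule L V), 2 ≤ α → (∀ S, S.card = t → Q S ≤ U) →
      (∀ S, S.card = t → ∀ a ∈ S, Q S ≤ hy a) → (∀ S, S.card = t → finrank L (Q S) = α) →
      (∀ S, S.card = t → ∀ b ∉ S, St b (Q S)) →
      (∀ M, M.card + 1 = t → ∀ a ∉ M, ∀ b ∉ M, a ≠ b →
        α ≤ finrank L ↥(Q (insert a M) ⊓ Q (insert b M)) + 1) →
      ∃ Q0 : Submodule L V, finrank L Q0 = α + t ∧ (∀ b, St b Q0) ∧ ∀ S, S.card = t → Q S ≤ Q0 := by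
  have s4 : ∀ b Q, St b Q → Q ≤ U → 0 < finrank L Q → finrank L ↥(Q ⊓ hy b) < finrank L Q := by
    intro b Q h1 h2 h3
    refine Submodule.finrank_lt_finrank_of_lt (lt_of_le_of_ne inf_le_left fun h => ?_)
    rw [s3 b Q h1 h2 (inf_eq_left.1 h), finrank_bot] at h3
    omega
  induction t with
  | zero =>
    intro α Q _ _ _ h3 h4 _
    exact ⟨Q ∅, h3 _ rfl, fun b => h4 _ rfl b (by simp), fun S hS => by rw [card_eq_zero.1 hS]⟩
  | succ t ih =>
    intro α Q hα h1 h2 h3 h4 h5
    have hc : ∀ {M : Finset κ} {a}, M.card = t → a ∉ M → (insert a M).card = t + 1 :=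
      fun hM ha => by rw [card_insert_of_notMem ha, hM]
    have k1 : ∀ M, M.card = t → ∀ a ∉ M, ∀ b ∉ M, a ≠ b →
        Q (insert a M) ⊓ hy b = Q (insert a M) ⊓ Q (insert b M) ∧
          finrank L ↥(Q (insert a M) ⊓ hy b) + 1 = α := by
      intro M hM a ha b hb hab
      have a1 := s4 b _ (h4 _ (hc hM ha) b (by simp [hb, hab.symm])) (h1 _ (hc hM ha))
        (by rw [h3 _ (hc hM ha)]; omega)
      have a2 := h5 M (by omega) a ha b hb hab
      have a3 : Q (insert a M) ⊓ Q (insert b M) ≤ Q (insert a M) ⊓ hy b :=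
        inf_le_inf_left _ (h2 _ (hc hM hb) b (by simp))
      have a4 := Submodule.finrank_mono a3
      rw [h3 _ (hc hM ha)] at a1
      exact ⟨(Submodule.eq_of_le_of_finrank_le a3 (by omega)).symm, by omega⟩
    let Q' : Finset κ → Submodule L V := fun M => ⨆ a : {a // a ∉ M}, Q (insert a.1 M)
    have k2 : ∀ M, M.card = t → ∀ a ∉ M, ∀ b ∉ M, a ≠ b →
        Q' M = Q (insert a M) ⊔ Q (insert b M) := by
      intro M hM a ha b hb hab
      refine le_antisymm (iSup_le fun c => ?_) (sup_le (le_iSup_of_le ⟨a, ha⟩ le_rfl)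
        (le_iSup_of_le ⟨b, hb⟩ le_rfl))
      obtain ⟨c, hc'⟩ := c
      show Q (insert c M) ≤ _
      by_cases e1 : c = a
      · rw [e1]; exact le_sup_left
      by_cases e2 : c = b
      · rw [e2]; exact le_sup_right
      obtain ⟨a1, a2⟩ := k1 M hM c hc' a ha e1
      obtain ⟨b1, b2⟩ := k1 M hM c hc' b hb e2
      have a3 := s4 b _ (s1 a b _ hab (h4 _ (hc hM hc') b (by simp [hb, Ne.symm e2])))
        (inf_le_left.trans (h1 _ (hc hM hc'))) (by omega)
      have a4 := Submodule.finrank_sup_add_finrank_inf_eq (Q (insert c M) ⊓ hy a)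
        (Q (insert c M) ⊓ hy b)
      rw [← inf_assoc, inf_right_comm _ (hy a), inf_idem] at a4
      have a5 : Q (insert c M) ⊓ hy a ⊔ Q (insert c M) ⊓ hy b = Q (insert c M) :=
        Submodule.eq_of_le_of_finrank_le (sup_le inf_le_left inf_le_left)
          (by rw [h3 _ (hc hM hc')]; omega)
      rw [← a5, a1, b1]
      exact sup_le_sup inf_le_right inf_le_right
    have k3 : ∀ M : Finset κ, M.card ≤ t + 1 → ∃ a ∉ M, ∃ b ∉ M, a ≠ b := by
      intro M hM
      obtain ⟨a, ha, b, hb, h⟩ := one_lt_card.1 (show 1 < Mᶜ.card by rw [card_compl]; omega)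
      exact ⟨a, mem_compl.1 ha, b, mem_compl.1 hb, h⟩
    obtain ⟨Q0, q1, q2, q3⟩ := ih (by omega) (α + 1) Q' (by omega)
      (fun M hM => iSup_le fun a => h1 _ (hc hM a.2))
      (fun M hM a ha => iSup_le fun b => h2 _ (hc hM b.2) a (mem_insert_of_mem ha))
      (fun M hM => by
        obtain ⟨a, ha, b, hb, hab⟩ := k3 M (by omega)
        obtain ⟨a1, a2⟩ := k1 M hM a ha b hb hab
        have := Submodule.finrank_sup_add_finrank_inf_eq (Q (insert a M)) (Q (insert b M))
        rw [h3 _ (hc hM ha), h3 _ (hc hM hb), ← a1] at this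
        rw [k2 M hM a ha b hb hab]
        omega)
      (fun M hM c hc' => by
        obtain ⟨a, ha, b, hb, hab⟩ := k3 (insert c M) (hc hM hc').le
        rw [mem_insert, not_or] at ha hb
        rw [k2 M hM a ha.2 b hb.2 hab]
        exact s2 _ _ _ (h4 _ (hc hM ha.2) c (by simp [hc', Ne.symm ha.1]))
          (h4 _ (hc hM hb.2) c (by simp [hc', Ne.symm hb.1])))
      (fun N hN a ha b hb hab => by
        have a1 : b ∉ insert a N := by simp [hb, hab.symm]
        have a2 : a ∉ insert b N := by simp [ha, hab]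
        have a3 : (insert a N).card = t := by rw [card_insert_of_notMem ha, hN]
        rw [← h3 _ (hc a3 a1)]
        refine Nat.add_le_add_right (Submodule.finrank_mono (le_inf
          (le_iSup (fun x : {x // x ∉ insert a N} => Q (insert x.1 (insert a N))) ⟨b, a1⟩) ?_)) _
        rw [insert_comm]
        exact le_iSup (fun x : {x // x ∉ insert b N} => Q (insert x.1 (insert b N))) ⟨a, a2⟩)
    refine ⟨Q0, by omega, q2, fun S hS => ?_⟩
    obtain ⟨a, ha⟩ : S.Nonempty := card_pos.1 (by omega)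
    refine le_trans ?_ (q3 (S.erase a) (by rw [card_erase_of_mem ha]; omega))
    exact le_iSup_of_le ⟨a, notMem_erase a S⟩ (by rw [insert_erase ha])

variable {L : Type*} [Field L] {n : ℕ}

/-- lowering operator -/
noncomputable def dn : (Finset (Fin n) → L) →ₗ[L] (Finset (Fin n) → L) :=
  ∑ x : Fin n, actL (Pi.single {x} 1)

lemma dn_apply (F : Finset (Fin n) → L) (T : Finset (Fin n)) :
    dn F T = ∑ x ∈ Tᶜ, F (insert x T) := by
  simp only [dn, LinearMap.sum_apply, Finset.sum_apply, actL_apply, act_single,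
    disjoint_singleton_left, ← insert_eq]
  rw [← sum_filter]
  exact sum_congr (by ext; simp) fun _ _ => rfl

/-- raising operator -/
def up : (Finset (Fin n) → L) →ₗ[L] (Finset (Fin n) → L) where
  toFun G X := ∑ x ∈ X, G (X.erase x)
  map_add' G G' := by ext X; simp [sum_add_distrib]
  map_smul' a G := by ext X; simp [mul_sum]

lemma up_apply (G : Finset (Fin n) → L) (X : Finset (Fin n)) :
    up G X = ∑ x ∈ X, G (X.erase x) := rfl

lemma dn_up (G : Finset (Fin n) → L) (T : Finset (Fin n)) :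
    dn (up G) T + T.card * G T = up (dn G) T + (n - T.card : ℕ) * G T := by
  have h1 : dn (up G) T = (n - T.card : ℕ) * G T +
      ∑ x ∈ Tᶜ, ∑ y ∈ T, G (insert x (T.erase y)) := by
    rw [dn_apply, show ((n - T.card : ℕ) : L) * G T = ∑ x ∈ Tᶜ, G T by simp [card_compl],
      ← sum_add_distrib]
    refine sum_congr rfl fun x hx => ?_
    have hx := mem_compl.1 hx
    rw [up_apply, sum_insert hx, erase_insert hx]
    congr 1
    exact sum_congr rfl fun y hy => by rw [erase_insert_of_ne (ne_of_mem_of_not_mem hy hx).symm]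
  have h2 : up (dn G) T = T.card * G T + ∑ y ∈ T, ∑ x ∈ Tᶜ, G (insert x (T.erase y)) := by
    rw [up_apply, show (T.card : L) * G T = ∑ x ∈ T, G T by simp, ← sum_add_distrib]
    refine sum_congr rfl fun y hy => ?_
    rw [dn_apply, compl_erase, sum_insert (by simpa using hy), insert_erase hy]
  rw [h1, h2, sum_comm]
  ring

lemma dn_supp {i : ℕ} {F : Finset (Fin n) → L} (h : F ∈ Supp L fun X => X.card = i) :
    dn F ∈ Supp L fun X => X.card + 1 = i := fun T hT => by
  rw [dn_apply]
  exact sum_eq_zero fun x hx => h _ (by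
    show ¬ _ = _
    rwa [card_insert_of_notMem (mem_compl.1 hx)])

lemma up_supp {i : ℕ} {F : Finset (Fin n) → L} (h : F ∈ Supp L fun X => X.card = i) :
    up F ∈ Supp L fun X => X.card = i + 1 := fun T hT => by
  rw [up_apply]
  refine sum_eq_zero fun x hx => h _ fun e => hT ?_
  have e : (T.erase x).card = i := e
  show T.card = i + 1
  rw [← e, card_erase_add_one hx]

lemma dn_up_inj [CharZero L] (i : ℕ) (hi : 2 * i < n) : ∀ (m : ℕ) (G : Finset (Fin n) → L),
    (G ∈ Supp L fun X => X.card = i) → dn (up G) + (m : L) • G = 0 → G = 0 := by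
  have key : ∀ i, 2 * i < n → ∀ (m : ℕ) (G : Finset (Fin n) → L),
      (G ∈ Supp L fun X => X.card = i) → dn (up G) + (m : L) • G = 0 →
      up (dn G) + ((m + (n - 2 * i) : ℕ) : L) • G = 0 := by
    intro i hi m G hG h
    ext T
    have h1 := congrFun h T
    have h2 := dn_up G T
    simp only [Pi.add_apply, Pi.smul_apply, smul_eq_mul, Pi.zero_apply] at h1 ⊢
    by_cases hT : T.card = i
    · rw [hT, show n - i = n - 2 * i + i by omega] at h2
      push_cast at h2 ⊢
      linear_combination h1 - h2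
    · rw [hG T hT] at h1 h2 ⊢
      linear_combination h1 - h2
  have fin : ∀ i, 2 * i < n → ∀ (m : ℕ) (G : Finset (Fin n) → L),
      up (dn G) + ((m + (n - 2 * i) : ℕ) : L) • G = 0 → dn G = 0 → G = 0 := by
    intro i hi m G h h0
    rw [h0, map_zero, zero_add] at h
    exact (smul_eq_zero.1 h).resolve_left (Nat.cast_ne_zero.2 (by omega))
  induction i with
  | zero =>
    intro m G hG h
    exact fin 0 hi m G (key 0 hi m G hG h) (funext fun T => dn_supp hG T (by omega))
  | succ i ih =>
    intro m G hG h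
    have h1 := key _ hi m G hG h
    refine fin _ hi m G h1 (ih (by omega) (m + (n - 2 * (i + 1))) _
      (fun T hT => dn_supp hG T (by omega)) ?_)
    simpa using congrArg dn h1

lemma dn_surj [CharZero L] (i : ℕ) (hi : 2 * i < n) (G : Finset (Fin n) → L)
    (hG : G ∈ Supp L fun X => X.card = i) :
    ∃ F ∈ Supp L fun X : Finset (Fin n) => X.card = i + 1, dn F = G := by
  let φ : (Supp L fun X : Finset (Fin n) => X.card = i) →ₗ[L]
      Supp L fun X : Finset (Fin n) => X.card = i :=
    (dn ∘ₗ up).restrict fun F hF T hT => dn_supp (up_supp hF) T (by omega)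
  have h : Function.Injective φ := by
    rw [injective_iff_map_eq_zero]
    intro F hF
    have : dn (up (F : Finset (Fin n) → L)) = 0 := congrArg Subtype.val hF
    have h1 : dn (up F.1) + ((0 : ℕ) : L) • F.1 = 0 := by rw [this]; simp
    exact Subtype.ext (dn_up_inj i hi 0 F.1 F.2 h1)
  obtain ⟨F, hF⟩ := LinearMap.injective_iff_surjective.1 h ⟨G, hG⟩
  exact ⟨up F, up_supp F.2, congrArg Subtype.val hF⟩

lemma exists_surj [CharZero L] (i k : ℕ) (h : 2 * (i + k) ≤ n) :
    ∃ g ∈ Supp L fun X : Finset (Fin n) => X.card = k,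
      ∀ G ∈ Supp L fun X : Finset (Fin n) => X.card = i,
        ∃ F ∈ Supp L fun X : Finset (Fin n) => X.card = i + k, act g F = G := by
  induction k with
  | zero =>
    refine ⟨Pi.single ∅ 1, fun X hX => Pi.single_eq_of_ne (fun e => hX (by simp [e])) _,
      fun G hG => ⟨G, hG, funext fun T => by simp [act_single]⟩⟩
  | succ k ih =>
    obtain ⟨g, hg, h1⟩ := ih (by omega)
    refine ⟨∑ x, mulX x g, Submodule.sum_mem _ fun x _ X hX => ?_, fun G hG => ?_⟩
    · rw [mulX]
      split_ifs with hx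
      · refine hg _ fun e => hX ?_
        have e : (X.erase x).card = k := e
        show X.card = k + 1
        rw [← e, card_erase_add_one hx]
      · rfl
    · obtain ⟨F', hF', rfl⟩ := h1 G hG
      obtain ⟨F, hF, rfl⟩ := dn_surj (i + k) (by omega) F' hF'
      refine ⟨F, hF, ?_⟩
      rw [← actL_apply, map_sum, LinearMap.sum_apply, dn, LinearMap.sum_apply, ← actL_apply,
        map_sum]
      exact sum_congr rfl fun x _ => act_mulX x g F

lemma rank_step {ι : Type*} [DecidableEq ι] (j : ℕ) (d : ι → ℕ) (S : Finset ι) (o : ι)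
    (c : ι × Finset (Fin n) → L) :
    finrank L ((WF j d S c).map (actL (mask (fun i Y => Y.card = d i) c o))) +
      finrank L (WF j d (insert o S) c) = finrank L (WF j d S c) := by
  have h := LinearMap.finrank_range_add_finrank_ker
    ((actL (mask (fun i Y => Y.card = d i) c o)).domRestrict (WF j d S c))
  rw [LinearMap.range_domRestrict, LinearMap.ker_domRestrict,
    ← Submodule.finrank_map_subtype_eq, Submodule.map_comap_subtype] at h
  suffices e : WF j d (insert o S) c = WF j d S c ⊓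
      LinearMap.ker (actL (mask (fun i Y => Y.card = d i) c o)) by rw [← h, e]
  ext F
  simp only [mem_W, Submodule.mem_inf, LinearMap.mem_ker, forall_mem_insert, actL_apply]
  tauto

lemma Hm_one [CharZero L] (d : ℕ) (h : 4 * d ≤ n) :
    Hm L n (2 * d) d 1 + n.choose d ≤ n.choose (2 * d) := by
  obtain ⟨g, hg, h1⟩ := exists_surj (L := L) (n := n) d d (by omega)
  have h2 := rank_step (2 * d) (fun _ : Fin 1 => d) ∅ 0 fun p => g p.2
  have e : mask (fun (_ : Fin 1) (Y : Finset (Fin n)) => Y.card = d) (fun p => g p.2) 0 = g := by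
    ext Y
    simp only [mask]
    split_ifs with hY
    · rfl
    · exact (hg Y hY).symm
  rw [finrank_WF_empty, Fintype.card_fin, e] at h2
  have h3 : Hm L n (2 * d) d 1 ≤ _ := Nat.sInf_le ⟨fun p => g p.2, rfl⟩
  have h4 : n.choose d ≤ finrank L ((WF (2 * d) (fun _ : Fin 1 => d) ∅ fun p => g p.2).map
      (actL g)) := by
    rw [← finrank_Supp_card (K := L)]
    refine Submodule.finrank_mono fun G hG => ?_
    obtain ⟨F, hF, rfl⟩ := h1 G hG
    exact ⟨F, ⟨by rwa [two_mul], by simp⟩, rfl⟩
  have e2 : (insert 0 ∅ : Finset (Fin 1)) = univ := rfl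
  rw [e2] at h2
  simp only at h3
  omega

end Pool.Agent.P.MP_3acc10_al
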