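import Pool.Agent.P.MP_3acc10_al.Lead

set_option autoImplicit false

namespace Pool.Agent.P.MP_3acc10_al

open Module Finset

variable {L : Type*} [Field L] {n : ℕ} {ι : Type*} [Fintype ι] [DecidableEq ι]

lemma zero_act (F : Finset (Fin n) → L) : act 0 F = 0 := by
  ext T; simp [act]

section
variable (δ : L →+ L) (hδ : ∀ x y, δ (x * y) = x * δ y + δ x * y)

/-- coefficientwise derivative -/
def Dv (F : Finset (Fin n) → L) : Finset (Fin n) → L := fun X => δ (F X)

lemma Dv_supp {p : Finset (Fin n) → Prop} {F : Finset (Fin n) → L} (h : F ∈ Supp L p) :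
    Dv δ F ∈ Supp L p := fun X hX => by rw [Dv, h X hX, map_zero]

include hδ

lemma Dv_single (Y : Finset (Fin n)) : Dv δ (Pi.single Y 1) = 0 := by
  have h1 : δ 1 = 0 := by simpa using hδ 1 1
  ext X
  by_cases h : X = Y <;> simp [Dv, h, h1]

lemma Dv_act (g F : Finset (Fin n) → L) :
    Dv δ (act g F) = act g (Dv δ F) + act (Dv δ g) F := by
  ext T
  simp only [Dv, act, map_sum, Pi.add_apply, ← sum_add_distrib]
  refine sum_congr rfl fun Y _ => ?_
  split_ifs
  · exact hδ _ _
  · simp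

lemma Dv_sum {α : Type*} [Fintype α] (l : α → L) (s : α → Finset (Fin n) → L) :
    Dv δ (∑ a, l a • s a) = ∑ a, l a • Dv δ (s a) + ∑ a, δ (l a) • s a := by
  ext T
  simp only [Dv, Finset.sum_apply, Pi.smul_apply, smul_eq_mul, map_sum, Pi.add_apply,
    ← sum_add_distrib, hδ]

lemma der_dot (z H : Finset (Fin n) → L) : δ (z ⬝ᵥ H) = z ⬝ᵥ Dv δ H + Dv δ z ⬝ᵥ H := by
  simp only [dotProduct, map_sum, hδ, sum_add_distrib, Dv]

end

/-- the span of the contractions of `F` by monomials of degree `e` -/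
def Sp (e : ℕ) (F : Finset (Fin n) → L) : Submodule L (Finset (Fin n) → L) :=
  Submodule.span L {H | ∃ Y : Finset (Fin n), Y.card = e ∧ act (Pi.single Y 1) F = H}

lemma Sp_supp {j e : ℕ} {F : Finset (Fin n) → L} (hF : F ∈ Supp L fun X => X.card = j) :
    Sp e F ≤ Supp L fun T => T.card + e = j := by
  rw [Sp, Submodule.span_le]
  rintro _ ⟨Y, hY, rfl⟩ T hT
  rw [act_single]
  split_ifs with hd
  · refine hF _ fun h => hT ?_
    have h : (Y ∪ T).card = j := h
    rw [card_union_of_disjoint hd] at h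
    show T.card + e = j
    omega
  · rfl

lemma Sp_pos {j e : ℕ} (he : e ≤ j) {F : Finset (Fin n) → L}
    (hF : F ∈ Supp L fun X => X.card = j) (h0 : F ≠ 0) : 0 < finrank L (Sp e F) := by
  obtain ⟨X, hX⟩ := Function.ne_iff.1 h0
  have hXj : X.card = j := by
    by_contra hne
    exact hX (hF X hne)
  obtain ⟨Y, hY, hc⟩ := exists_subset_card_eq (s := X) (n := e) (by omega)
  rw [Nat.pos_iff_ne_zero, Ne, Submodule.finrank_eq_zero]
  intro hb
  have : act (Pi.single Y 1) F ∈ Sp e F := Submodule.subset_span ⟨Y, hc, rfl⟩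
  rw [hb, Submodule.mem_bot] at this
  have := congrFun this (X \ Y)
  rw [act_single, if_pos disjoint_sdiff, union_sdiff_of_subset hY] at this
  exact hX this

/-- restriction as a map into the space of supported functions -/
noncomputable def resS (p : Finset (Fin n) → Prop) : (Finset (Fin n) → L) →ₗ[L] Supp L p :=
  (res p).codRestrict _ fun F X hX => by rw [res_apply, if_neg hX]

variable (δ : ι × Finset (Fin n) → L →+ L) (hδ : ∀ p x y, δ p (x * y) = x * δ p y + δ p x * y)
  (c : ι × Finset (Fin n) → L) (hc : ∀ p q, δ p (c q) = if q = p then 1 else 0) (d : ι → ℕ)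

include hc in
omit [Fintype ι] in
lemma Dv_mask (l i : ι) (Y : Finset (Fin n)) (hY : Y.card = d l) :
    Dv (δ (l, Y)) (mask (fun i Y => Y.card = d i) c i) = if i = l then Pi.single Y 1 else 0 := by
  ext X
  by_cases h1 : i = l <;> by_cases h2 : X = Y <;> by_cases h3 : X.card = d i <;>
    simp_all [Dv, mask]

include hδ hc

lemma ineq1 {j e k : ℕ} (hk : k + e = j) {F : Finset (Fin n) → L} (hF : F ∈ WF j d univ c) :
    ∑ i, finrank L (Sp (d i) F) ≤
      finrank L (Sp e F) * n.choose k + (Fu j k (ld wz (Sp e F))).card := by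
  set 𝒢 := Submodule.span L (Set.range fun p => Dv (δ p) F) with h𝒢
  have low : ∑ i, finrank L (Sp (d i) F) ≤ finrank L 𝒢 := by
    let Φ : (Finset (Fin n) → L) →ₗ[L] (ι → Finset (Fin n) → L) :=
      LinearMap.pi fun i => actL (mask (fun i Y => Y.card = d i) c i)
    let ψ : (∀ i, Sp (d i) F) →ₗ[L] (ι → Finset (Fin n) → L) :=
      LinearMap.pi fun i => (Sp (d i) F).subtype ∘ₗ LinearMap.proj i
    have hψ : Function.Injective ψ := fun x y h => funext fun i => Subtype.ext (congrFun h i)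
    have h1 : ∀ l, ∀ s ∈ Sp (d l) F, (Pi.single l s : ι → Finset (Fin n) → L) ∈ 𝒢.map Φ := by
      intro l
      suffices h : Sp (d l) F ≤ (𝒢.map Φ).comap (LinearMap.single L (fun _ => _) l) from h
      rw [Sp, Submodule.span_le]
      rintro _ ⟨Y, hY, rfl⟩
      refine ⟨-Dv (δ (l, Y)) F, 𝒢.neg_mem (Submodule.subset_span ⟨_, rfl⟩), ?_⟩
      rw [map_neg]
      funext i
      have h2 := Dv_act (δ (l, Y)) (hδ _) (mask (fun i Y => Y.card = d i) c i) F
      rw [hF.2 i (mem_univ _), Dv_mask δ c hc d l i Y hY] at h2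
      have h3 : Dv (δ (l, Y)) (0 : Finset (Fin n) → L) = 0 := funext fun _ => map_zero _
      rw [h3, eq_comm, add_eq_zero_iff_neg_eq] at h2
      refine h2.trans ?_
      by_cases h : i = l
      · subst h; simp
      · rw [if_neg h, zero_act]
        simp [h]
    rw [← finrank_pi_fintype, ← LinearMap.finrank_range_of_inj hψ]
    refine (Submodule.finrank_mono ?_).trans (Submodule.finrank_map_le Φ 𝒢)
    rintro _ ⟨x, rfl⟩
    rw [← univ_sum_single (ψ x)]
    exact Submodule.sum_mem _ fun l _ => h1 l _ (x l).2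
  refine low.trans ?_
  set S := Sp e F with hS
  have hSs : S ≤ Supp L fun T => T.card = k := (Sp_supp hF.1).trans fun H hH T hT =>
    hH T (by omega)
  let b := finBasis L S
  let l : {Y : Finset (Fin n) // Y.card = e} → Fin (finrank L S) → L := fun Y a =>
    b.repr ⟨act (Pi.single Y.1 1) F, Submodule.subset_span ⟨Y.1, Y.2, rfl⟩⟩ a
  have hl : ∀ Y, act (Pi.single Y.1 1) F = ∑ a, l Y a • (b a : Finset (Fin n) → L) := by
    intro Y
    have := congrArg Subtype.val (b.sum_repr
      ⟨act (Pi.single Y.1 1) F, Submodule.subset_span ⟨Y.1, Y.2, rfl⟩⟩)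
    simpa only [Submodule.coe_sum, Submodule.coe_smul] using this.symm
  let Ξ : (Finset (Fin n) → L) →ₗ[L]
      ({Y : Finset (Fin n) // Y.card = e} → (Finset (Fin n) → L) ⧸ S) :=
    LinearMap.pi fun Y => S.mkQ ∘ₗ actL (Pi.single Y.1 1)
  let Θ : (Fin (finrank L S) → Supp L fun T : Finset (Fin n) => T.card = k) →ₗ[L]
      ({Y : Finset (Fin n) // Y.card = e} → (Finset (Fin n) → L) ⧸ S) :=
    LinearMap.pi fun Y => S.mkQ ∘ₗ ∑ a, l Y a • ((Submodule.subtype _) ∘ₗ LinearMap.proj a)
  have h1 : 𝒢 ≤ (LinearMap.range Θ).comap Ξ := by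
    rw [h𝒢, Submodule.span_le]
    rintro _ ⟨p, rfl⟩
    refine ⟨fun a => ⟨Dv (δ p) (b a), Dv_supp _ (hSs (b a).2)⟩, funext fun Y => ?_⟩
    have h2 := Dv_act (δ p) (hδ _) (Pi.single Y.1 1) F
    rw [Dv_single _ (hδ p), hl, Dv_sum _ (hδ p)] at h2
    rw [zero_act, add_zero] at h2
    have h4 : S.mkQ (∑ a, δ p (l Y a) • (b a : Finset (Fin n) → L)) = 0 :=
      (Submodule.Quotient.mk_eq_zero S).2 (S.sum_mem fun a _ => S.smul_mem _ (b a).2)
    show S.mkQ _ = S.mkQ (act (Pi.single Y.1 1) (Dv (δ p) F))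
    rw [← h2, map_add, h4, add_zero]
    simp
  have h2 : 𝒢 ≤ Supp L fun X => X.card = j := by
    rw [h𝒢, Submodule.span_le]
    rintro _ ⟨p, rfl⟩
    exact Dv_supp _ hF.1
  refine (finrank_le_add 𝒢 (EE j e S) (LinearMap.range Θ) Ξ (fun x hx => h1 hx) fun x hx h0 =>
    mem_EE.2 ⟨h2 hx, fun Y hY => (Submodule.Quotient.mk_eq_zero S).1
      (congrFun h0 ⟨Y, hY⟩)⟩).trans (add_le_add ?_ (finrank_EE hk S))
  refine (LinearMap.finrank_range_le Θ).trans ?_
  rw [finrank_pi_fintype]
  simp [finrank_Supp_card]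

variable {j : ℕ} (z : ι → Finset (Fin n) → L) (hz : ∀ i, z i ∈ Supp L fun T => T.card + d i = j)
  (hs : ∀ G ∈ Supp L fun X : Finset (Fin n) => X.card = j,
    ∑ i, z i ⬝ᵥ act (mask (fun i Y => Y.card = d i) c i) G = 0)

include hs

lemma der_syz (l : ι) (Y : Finset (Fin n)) (hY : Y.card = d l) (G : Finset (Fin n) → L)
    (hG : G ∈ Supp L fun X : Finset (Fin n) => X.card = j) :
    z l ⬝ᵥ act (Pi.single Y 1) G +
      ∑ i, Dv (δ (l, Y)) (z i) ⬝ᵥ act (mask (fun i Y => Y.card = d i) c i) G = 0 := by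
  have h1 := congrArg (δ (l, Y)) (hs G hG)
  have h2 := hs _ (Dv_supp (δ (l, Y)) hG)
  rw [map_zero, map_sum] at h1
  simp only [der_dot _ (hδ _), Dv_act _ (hδ _), dotProduct_add, sum_add_distrib, h2, zero_add,
    Dv_mask δ c hc d l _ Y hY] at h1
  rw [sum_eq_single l (fun i _ hi => ?_) (by simp), if_pos rfl] at h1
  · exact h1
  · rw [if_neg hi, zero_act, dotProduct_zero]

/-- the span of the components of degree class `e` -/
def Zs (d : ι → ℕ) (z : ι → Finset (Fin n) → L) (e : ℕ) : Submodule L (Finset (Fin n) → L) :=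
  Submodule.span L {H | ∃ i, d i = e ∧ z i = H}

lemma ineq3 {F : Finset (Fin n) → L} (hF : F ∈ WF j d univ c) (e : ℕ) :
    ∀ y ∈ Zs d z e, ∀ H ∈ Sp e F, y ⬝ᵥ H = 0 := by
  suffices h : Sp e F ≤ perp (Zs d z e) from fun y hy H hH => h hH y hy
  rw [Sp, Submodule.span_le]
  rintro _ ⟨Y, hY, rfl⟩ y hy
  induction hy using Submodule.span_induction with
  | mem y hy =>
    obtain ⟨l, rfl, rfl⟩ := hy
    have := der_syz δ hδ c hc d z hs l Y hY F hF.1
    simpa [hF.2] using this
  | zero => exact zero_dotProduct _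
  | add x y _ _ h1 h2 => rw [add_dotProduct, h1, h2, add_zero]
  | smul a x _ h => rw [smul_dotProduct, h, smul_zero]

include hz

omit [Fintype ι] [DecidableEq ι] hδ hc hs in
lemma Zs_supp (e : ℕ) : Zs d z e ≤ Supp L fun T => T.card + e = j := by
  rw [Zs, Submodule.span_le]
  rintro _ ⟨i, rfl, rfl⟩
  exact hz i

lemma ineq2 {e k : ℕ} (hk : k + e = j) :
    (Up j (ld (fun X => -wz X) (Zs d z e))).card ≤ ∑ i, finrank L (Zs d z (d i)) +
      ∑ e ∈ range (j + 1), finrank L (Zs d z e) * n.choose (j - e) := by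
  let f := mask (fun i (Y : Finset (Fin n)) => Y.card = d i) c
  let b := fun e => finBasis L (Zs d z e)
  let l : ∀ e, ι → Fin (finrank L (Zs d z e)) → L := fun e i a =>
    if h : d i = e then (b e).repr ⟨z i, Submodule.subset_span ⟨i, h, rfl⟩⟩ a else 0
  have hl : ∀ i, z i = ∑ a, l (d i) i a • (b (d i) a : Finset (Fin n) → L) := by
    intro i
    have := congrArg Subtype.val ((b (d i)).sum_repr ⟨z i, Submodule.subset_span ⟨i, rfl, rfl⟩⟩)
    simpa only [Submodule.coe_sum, Submodule.coe_smul, l, dif_pos] using this.symm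
  let f1 : (Finset (Fin n) → L) →ₗ[L] ((Σ i, Fin (finrank L (Zs d z (d i)))) → L) :=
    LinearMap.pi fun q => dotProductBilin L L (b (d q.1) q.2 : Finset (Fin n) → L) ∘ₗ actL (f q.1)
  let f2 : (Finset (Fin n) → L) →ₗ[L] (∀ q : Σ e : Fin (j + 1), Fin (finrank L (Zs d z e)),
      Supp L fun T : Finset (Fin n) => T.card = j - q.1) :=
    LinearMap.pi fun q => resS _ ∘ₗ actL (∑ i, l q.1 i q.2 • f i)
  have h1 := finrank_le_add (Supp L fun X => X.card = j) (EE j e (perp (Zs d z e))) ⊤
    (f1.prod f2) (fun _ _ => trivial) ?_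
  · have h2 := finrank_EE_perp hk (Zs d z e) ((Zs_supp d z hz e).trans fun H hH T hT =>
      hH T (by omega))
    rw [finrank_top, finrank_prod, finrank_fintype_fun_eq_card, finrank_pi_fintype,
      finrank_Supp_card, Fintype.sum_sigma] at h1
    simp only [finrank_Supp_card, Fintype.card_sigma, Fintype.card_fin, sum_const, card_univ,
      smul_eq_mul] at h1
    rw [Fin.sum_univ_eq_sum_range (fun e => finrank L (Zs d z e) * n.choose (j - e))] at h1
    omega
  intro G hG h0
  have a1 : ∀ i a, (b (d i) a : Finset (Fin n) → L) ⬝ᵥ act (f i) G = 0 := fun i a =>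
    congrFun (congrArg Prod.fst h0) ⟨i, a⟩
  have a2 : ∀ (e : Fin (j + 1)) a (T : Finset (Fin n)), T.card = j - e →
      act (∑ i, l e i a • f i) G T = 0 := by
    intro e a T hT
    have := congrFun (congrArg Subtype.val (congrFun (congrArg Prod.snd h0) ⟨e, a⟩)) T
    exact (if_pos hT).symm.trans this
  have a3 : ∀ D : L →+ L, (∀ x y, D (x * y) = x * D y + D x * y) →
      ∑ i, Dv D (z i) ⬝ᵥ act (f i) G = 0 := by
    intro D hD
    have b1 : ∀ i, Dv D (z i) ⬝ᵥ act (f i) G =
        ∑ e : Fin (j + 1), ∑ a, l e i a * (Dv D (b e a) ⬝ᵥ act (f i) G) := by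
      intro i
      by_cases hi : d i < j + 1
      · rw [sum_eq_single ⟨d i, hi⟩ (fun e _ he => sum_eq_zero fun a _ => ?_) (by simp)]
        · conv_lhs => rw [hl i]
          rw [Dv_sum D hD, add_dotProduct, sum_dotProduct, sum_dotProduct]
          simp [a1]
        · simp only [l]
          rw [dif_neg fun h => he (Fin.ext h.symm), zero_mul]
      · have : Dv D (z i) = 0 := funext fun T => Dv_supp D (hz i) T (by omega)
        rw [this, zero_dotProduct, eq_comm]
        refine sum_eq_zero fun e _ => sum_eq_zero fun a _ => ?_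
        simp only [l]
        rw [dif_neg (by have := e.2; omega), zero_mul]
    rw [sum_congr rfl fun i _ => b1 i, sum_comm]
    refine sum_eq_zero fun e _ => ?_
    rw [sum_comm]
    refine sum_eq_zero fun a _ => ?_
    have b2 : act (∑ i, l e i a • f i) G = ∑ i, l e i a • act (f i) G := by
      rw [← actL_apply, map_sum, LinearMap.sum_apply]
      simp
    have b3 : Dv D (b e a) ⬝ᵥ act (∑ i, l e i a • f i) G = 0 := by
      refine sum_eq_zero fun T _ => ?_
      by_cases hT : T.card = j - e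
      · rw [a2 e a T hT, mul_zero]
      · rw [Dv_supp D (Zs_supp d z hz e (b e a).2) T (by omega), zero_mul]
    rw [b2, dotProduct_sum] at b3
    simpa using b3
  refine mem_EE.2 ⟨hG, fun Y hY y hy => ?_⟩
  induction hy using Submodule.span_induction with
  | mem y hy =>
    obtain ⟨i, rfl, rfl⟩ := hy
    have := der_syz δ hδ c hc d z hs i Y hY G hG
    rwa [a3 _ (hδ _), add_zero] at this
  | zero => exact zero_dotProduct _
  | add x y _ _ h1 h2 => rw [add_dotProduct, h1, h2, add_zero]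
  | smul a x _ h => rw [smul_dotProduct, h, smul_zero]

end Pool.Agent.P.MP_3acc10_al
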