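import Pool.Agent.P.MP_3acc10_al.Arith

set_option autoImplicit false

namespace Pool.Agent.P.MP_3acc10_al

open Finset

variable {σ : Type*} [Fintype σ] [DecidableEq σ]

open Classical in
/-- sets of size `j` all of whose subsets of size `k` belong to the family -/
noncomputable def Fu (j k : ℕ) (𝓢 : Finset (Finset σ)) : Finset (Finset σ) :=
  (univ.powersetCard j).filter fun X => ∀ T ⊆ X, T.card = k → T ∈ 𝓢

open Classical in
/-- sets of size `j` which contain a member of the family -/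
noncomputable def Up (j : ℕ) (𝓢 : Finset (Finset σ)) : Finset (Finset σ) :=
  (univ.powersetCard j).filter fun X => ∃ T ∈ 𝓢, T ⊆ X

lemma mem_Fu {j k : ℕ} {𝓢 : Finset (Finset σ)} {X : Finset σ} :
    X ∈ Fu j k 𝓢 ↔ X.card = j ∧ ∀ T ⊆ X, T.card = k → T ∈ 𝓢 := by
  simp [Fu, mem_powersetCard]

lemma mem_Up {j : ℕ} {𝓢 : Finset (Finset σ)} {X : Finset σ} :
    X ∈ Up j 𝓢 ↔ X.card = j ∧ ∃ T ∈ 𝓢, T ⊆ X := by
  simp [Up, mem_powersetCard]

lemma card_sup (j : ℕ) (T : Finset σ) (h : T.card ≤ j) :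
    ((univ.powersetCard j).filter (T ⊆ ·)).card =
      (Fintype.card σ - T.card).choose (j - T.card) := by
  rw [card_filter_powersetCard_subset T univ j (subset_univ _) h, card_univ]

variable {j k : ℕ} {𝓢 : Finset (Finset σ)}

lemma c1 (hk : k ≤ j) (h : ∀ T ∈ 𝓢, T.card = k) :
    (Fu j k 𝓢).card * j.choose k ≤ 𝓢.card * (Fintype.card σ - k).choose (j - k) := by
  refine card_mul_le_card_mul (fun X T => T ⊆ X) (fun X hX => ?_) fun T hT => ?_
  · have hX := mem_Fu.1 hX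
    rw [← hX.1, ← card_powersetCard]
    refine card_le_card fun T hT => ?_
    have hT := mem_powersetCard.1 hT
    exact (mem_bipartiteAbove _).2 ⟨hX.2 T hT.1 hT.2, hT.1⟩
  · rw [← h T hT, ← card_sup j T (by rw [h T hT]; exact hk)]
    refine card_le_card fun X hX => ?_
    have hX := (mem_bipartiteBelow _).1 hX
    exact mem_filter.2 ⟨mem_powersetCard.2 ⟨subset_univ _, (mem_Fu.1 hX.1).1⟩, hX.2⟩

lemma c2 (hk : 2 * k ≤ j) (h : ∀ T ∈ 𝓢, T.card = k) :
    (Fu j k 𝓢).card * (j.choose k * (j - k).choose k) ≤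
      𝓢.card * 𝓢.card * (Fintype.card σ - 2 * k).choose (j - 2 * k) := by
  rw [← card_product]
  refine card_mul_le_card_mul (fun X (p : Finset σ × Finset σ) => Disjoint p.1 p.2 ∧ p.1 ∪ p.2 ⊆ X)
    (fun X hX => ?_) fun p hp => ?_
  · have hX := mem_Fu.1 hX
    have e : ((X.powersetCard k).sigma fun T => (X \ T).powersetCard k).card =
        j.choose k * (j - k).choose k := by
      rw [card_sigma, sum_const_nat (m := (j - k).choose k), card_powersetCard, hX.1]
      intro T hT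
      have hT := mem_powersetCard.1 hT
      rw [card_powersetCard, card_sdiff_of_subset hT.1, hX.1, hT.2]
    rw [← e]
    refine card_le_card_of_injOn (fun q => (q.1, q.2)) ?_ ?_
    · rintro ⟨T, T'⟩ hq
      obtain ⟨h1, h2⟩ := mem_sigma.1 (mem_coe.1 hq)
      have h1 := mem_powersetCard.1 h1
      have h2 := mem_powersetCard.1 h2
      have h3 : T' ⊆ X := h2.1.trans sdiff_subset
      exact mem_coe.2 ((mem_bipartiteAbove _).2 ⟨mem_product.2 ⟨hX.2 _ h1.1 h1.2, hX.2 _ h3 h2.2⟩,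
        disjoint_sdiff.mono_right h2.1, union_subset h1.1 h3⟩)
    · rintro ⟨T, T'⟩ _ ⟨S, S'⟩ _ e
      obtain ⟨rfl, rfl⟩ := Prod.mk.inj e
      rfl
  · have hp := mem_product.1 hp
    by_cases hd : Disjoint p.1 p.2
    · have e : (p.1 ∪ p.2).card = 2 * k := by
        rw [card_union_of_disjoint hd, h _ hp.1, h _ hp.2, two_mul]
      rw [← e, ← card_sup j _ (by omega)]
      refine card_le_card fun X hX => ?_
      have hX := (mem_bipartiteBelow _).1 hX
      exact mem_filter.2 ⟨mem_powersetCard.2 ⟨subset_univ _, (mem_Fu.1 hX.1).1⟩, hX.2.2⟩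
    · rw [card_eq_zero.2 (eq_empty_of_forall_notMem fun X hX =>
        hd ((mem_bipartiteBelow _).1 hX).2.1)]
      exact Nat.zero_le _

lemma c3 (hk : k ≤ j) (h : ∀ T ∈ 𝓢, T.card = k) :
    𝓢.card * (Fintype.card σ - k).choose (j - k) + (Up j 𝓢).card ≤
      j.choose k * (Up j 𝓢).card + (Up j 𝓢 ∩ Fu j k 𝓢).card := by
  classical
  have h1 := sum_card_bipartiteAbove_eq_sum_card_bipartiteBelow (s := Up j 𝓢) (t := 𝓢)
    (fun X T => T ⊆ X)
  have h2 : ∑ T ∈ 𝓢, ((Up j 𝓢).bipartiteBelow (fun X T => T ⊆ X) T).card =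
      𝓢.card * (Fintype.card σ - k).choose (j - k) := by
    refine sum_const_nat fun T hT => ?_
    rw [← h T hT, ← card_sup j T (by rw [h T hT]; exact hk)]
    congr 1
    ext X
    rw [mem_bipartiteBelow, mem_filter, mem_powersetCard, mem_Up]
    exact ⟨fun h => ⟨⟨subset_univ _, h.1.1⟩, h.2⟩, fun h => ⟨⟨h.1.2, T, hT, h.2⟩, h.2⟩⟩
  rw [← h2, ← h1, ← filter_mem_eq_inter, card_filter, card_eq_sum_ones (Up j 𝓢), mul_sum,
    ← sum_add_distrib, ← sum_add_distrib]
  refine sum_le_sum fun X hX => ?_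
  have hX := mem_Up.1 hX
  have h3 : 𝓢.bipartiteAbove (fun X T => T ⊆ X) X ⊆ X.powersetCard k := fun T hT =>
    mem_powersetCard.2 ⟨((mem_bipartiteAbove _).1 hT).2, h T ((mem_bipartiteAbove _).1 hT).1⟩
  have h4 := card_powersetCard k X
  rw [hX.1] at h4
  split_ifs with hF
  · have := card_le_card h3
    omega
  · rw [mem_Fu] at hF
    push Not at hF
    obtain ⟨T, h5, h6, h7⟩ := hF hX.1
    have := card_lt_card ⟨h3, fun hh => h7 ((mem_bipartiteAbove _).1
      (hh (mem_powersetCard.2 ⟨h5, h6⟩))).1⟩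
    omega

lemma n1 (hk : k ≤ j) (h : ∀ T ∈ 𝓢, T.card = k) :
    (Fu j k 𝓢).card * (Fintype.card σ).choose k ≤ 𝓢.card * (Fintype.card σ).choose j := by
  refine Nat.le_of_mul_le_mul_right ?_ (Nat.choose_pos hk)
  have := c1 hk h
  rw [mul_assoc 𝓢.card, Nat.choose_mul hk]
  nlinarith [Nat.mul_le_mul_left ((Fintype.card σ).choose k) this]

lemma n2 (hk : 2 * k ≤ j) (hn : j ≤ Fintype.card σ) (h : ∀ T ∈ 𝓢, T.card = k)
    (h2 : 2 * 𝓢.card ≤ (Fintype.card σ).choose k)
    (h3 : 2 * (Fintype.card σ).choose k ≤ 3 * (Fintype.card σ - k).choose k) :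
    4 * ((Fu j k 𝓢).card * (Fintype.card σ).choose k) ≤
      3 * (𝓢.card * (Fintype.card σ).choose j) := by
  have h4 := c2 hk h
  set n := Fintype.card σ
  have e1 := Nat.choose_mul (n := n) (show k ≤ j by omega)
  have e2 := Nat.choose_mul (n := n - k) (show k ≤ j - k by omega)
  rw [show n - k - k = n - 2 * k by omega, show j - k - k = j - 2 * k by omega] at e2
  have p1 : 0 < j.choose k * (j - k).choose k :=
    Nat.mul_pos (Nat.choose_pos (by omega)) (Nat.choose_pos (by omega))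
  have p2 : 0 < n.choose k := Nat.choose_pos (by omega)
  set f := (Fu j k 𝓢).card
  set s := 𝓢.card
  set a := n.choose k
  set b := (n - k).choose k
  set B := j.choose k
  set B' := (j - k).choose k
  set g := (n - 2 * k).choose (j - 2 * k)
  have h5 : f * a * b ≤ s * s * n.choose j := by
    refine Nat.le_of_mul_le_mul_right ?_ p1
    calc f * a * b * (B * B') = f * (B * B') * (a * b) := by ring
      _ ≤ s * s * g * (a * b) := Nat.mul_le_mul_right _ h4
      _ = s * s * a * (b * g) := by ring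
      _ = s * s * (a * (n - k).choose (j - k)) * B' := by rw [← e2]; ring
      _ = s * s * n.choose j * (B * B') := by rw [← e1]; ring
  refine Nat.le_of_mul_le_mul_right ?_ p2
  calc 4 * (f * a) * a = 2 * (f * a) * (2 * a) := by ring
    _ ≤ 2 * (f * a) * (3 * b) := Nat.mul_le_mul_left _ h3
    _ = 6 * (f * a * b) := by ring
    _ ≤ 6 * (s * s * n.choose j) := Nat.mul_le_mul_left _ h5
    _ = 3 * (s * n.choose j) * (2 * s) := by ring
    _ ≤ _ := Nat.mul_le_mul_left _ h2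

lemma n3 (hk : k ≤ j) (h : ∀ T ∈ 𝓢, T.card = k) :
    𝓢.card * (Fintype.card σ).choose j * j.choose k +
      (Up j 𝓢).card * (Fintype.card σ).choose k ≤
      j.choose k * ((Up j 𝓢).card * (Fintype.card σ).choose k) +
        (Up j 𝓢 ∩ Fu j k 𝓢).card * (Fintype.card σ).choose k := by
  have := Nat.mul_le_mul_left ((Fintype.card σ).choose k) (c3 hk h)
  rw [mul_assoc 𝓢.card, Nat.choose_mul hk]
  nlinarith

lemma ev_choose (t c s : ℕ) : ∃ n0, ∀ n, n0 ≤ n → c * n ^ t ≤ (n - s).choose (t + 1) := by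
  refine ⟨2 * (s + t) + c * 2 ^ (t + 1) * (t + 1).factorial, fun n hn => ?_⟩
  have h1 : ((n - s + 1 - (t + 1) : ℕ) ^ (t + 1) : ℝ) / (t + 1).factorial ≤
    (n - s).choose (t + 1) := Nat.pow_le_choose _ _
  have h2 : (n : ℝ) / 2 ≤ (n - s + 1 - (t + 1) : ℕ) := by
    rw [div_le_iff₀ two_pos]
    exact_mod_cast (show n ≤ (n - s + 1 - (t + 1)) * 2 by omega)
  have h3 : (c * 2 ^ (t + 1) * (t + 1).factorial : ℝ) ≤ n := by
    exact_mod_cast (show c * 2 ^ (t + 1) * (t + 1).factorial ≤ n by omega)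
  have : (c * n ^ t : ℝ) ≤ (n - s).choose (t + 1) := by
    refine le_trans ?_ h1
    rw [le_div_iff₀ (by positivity)]
    refine le_trans ?_ (pow_le_pow_left₀ (by positivity) h2 _)
    rw [div_pow, le_div_iff₀ (by positivity), pow_succ (n : ℝ)]
    nlinarith [pow_nonneg (Nat.cast_nonneg n : (0 : ℝ) ≤ n) t]
  exact_mod_cast this

lemma ev_ratio (k : ℕ) : ∃ n0, ∀ n, n0 ≤ n → 2 * n.choose k ≤ 3 * (n - k).choose k := by
  rcases k with _ | k
  · exact ⟨0, by simp⟩
  obtain ⟨n0, h⟩ := ev_choose k (2 * (k + 1)) (k + 1)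
  refine ⟨n0 + (k + 1), fun n hn => ?_⟩
  have h1 := h n (by omega)
  have h2 := choose_add_le (n - (k + 1)) (k + 1) k
  rw [show n - (k + 1) + (k + 1) = n by omega] at h2
  nlinarith

/-- the numerical contradiction -/
lemma numeric {a a1 a2 w Q B s1 s2 m f1 f2 u : ℝ} (ha1 : 0 < a1) (ha2 : 0 < a2) (hs : 0 < s1)
    (hm : 0 < m) (hB : 1 ≤ B) (hQ : 0 ≤ Q) (hbig : 8 * B * Q < a)
    (h1 : s1 * w ≤ s1 * Q + f1 * a1) (h1a : f1 * a1 ≤ s1 * a)
    (h1b : 2 * s1 ≤ a1 → 4 * (f1 * a1) ≤ 3 * (s1 * a))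
    (h2 : u * a2 ≤ m * (w + Q)) (h2a : m * a * B + u * a2 ≤ B * (u * a2) + f2 * a2)
    (h2c : f2 ≤ u) (h2b : 2 * m ≤ a2 → 4 * (f2 * a2) ≤ 3 * (m * a))
    (h3 : s2 + m ≤ a2) (h4 : s1 * a2 ≤ s2 * a1) : False := by
  have hw : w ≤ Q + a := le_of_mul_le_mul_left (by nlinarith) hs
  have hQB : Q ≤ B * Q := by nlinarith
  by_cases hc : 2 * m ≤ a2
  · have h5 := h2b hc
    have h6 : u * a2 ≤ m * (a + 2 * Q) := h2.trans (by nlinarith)
    have h7 : (B - 1) * (u * a2) ≤ (B - 1) * (m * (a + 2 * Q)) :=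
      mul_le_mul_of_nonneg_left h6 (by linarith)
    have h8 : m * a ≤ m * (8 * (B - 1) * Q) := by nlinarith
    have := le_of_mul_le_mul_left h8 hm
    nlinarith
  · have h5 : 2 * s1 ≤ a1 := le_of_mul_le_mul_right (by nlinarith) ha2
    have h6 := h1b h5
    have h7 : 4 * w ≤ 4 * Q + 3 * a := le_of_mul_le_mul_left (by nlinarith) hs
    have h8 : m * a * B ≤ u * a2 * B := by nlinarith [mul_le_mul_of_nonneg_right h2c ha2.le]
    have h9 : m * a ≤ u * a2 := le_of_mul_le_mul_right h8 (by linarith)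
    have h10 : a ≤ w + Q := le_of_mul_le_mul_left (h9.trans h2) hm
    nlinarith

end Pool.Agent.P.MP_3acc10_al
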