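import Pool.Agent.P.MP_3acc10_al.Full

set_option autoImplicit false

namespace Pool.Agent.P.MP_3acc10_al

open Module Finset MvPolynomial

variable {K : Type*} [Field K] {τ : Type*}

/-- the generic point -/
noncomputable def gp (K : Type*) [Field K] (p : τ) : FractionRing (MvPolynomial τ K) :=
  algebraMap (MvPolynomial τ K) _ (X p)

lemma exists_der [DecidableEq τ] (p : τ) :
    ∃ δ : FractionRing (MvPolynomial τ K) →+ FractionRing (MvPolynomial τ K),
      (∀ x y, δ (x * y) = x * δ y + δ x * y) ∧ ∀ q, δ (gp K q) = if q = p then 1 else 0 := by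
  set L := FractionRing (MvPolynomial τ K)
  let φ0 : MvPolynomial τ K →+* TrivSqZeroExt L L :=
    eval₂Hom ((algebraMap L (TrivSqZeroExt L L)).comp
      ((algebraMap (MvPolynomial τ K) L).comp C))
      fun q => TrivSqZeroExt.inl (gp K q) + TrivSqZeroExt.inr (if q = p then 1 else 0)
  let π : TrivSqZeroExt L L →+* L := (TrivSqZeroExt.fstHom L L L).toRingHom
  have h1 : π.comp φ0 = algebraMap (MvPolynomial τ K) L := by
    refine MvPolynomial.ringHom_ext (fun a => ?_) fun q => ?_
    · simp [φ0, π, TrivSqZeroExt.algebraMap_eq_inl]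
    · by_cases e : q = p <;> simp [φ0, π, gp, e, L]
  have h2 : ∀ y : nonZeroDivisors (MvPolynomial τ K), IsUnit (φ0 y) := by
    intro y
    rw [TrivSqZeroExt.isUnit_iff_isUnit_fst]
    have : (φ0 y).fst = algebraMap (MvPolynomial τ K) L y := RingHom.congr_fun h1 y
    rw [this]
    exact IsLocalization.map_units L y
  let φ : L →+* TrivSqZeroExt L L := IsLocalization.lift h2
  have h3 : π.comp φ = RingHom.id L := by
    refine IsLocalization.ringHom_ext (nonZeroDivisors (MvPolynomial τ K)) ?_
    rw [RingHom.comp_assoc, IsLocalization.lift_comp, h1, RingHom.id_comp]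
  have h4 : ∀ x, (φ x).fst = x := fun x => RingHom.congr_fun h3 x
  refine ⟨AddMonoidHom.mk' (fun x => (φ x).snd) fun x y => by simp, fun x y => ?_, fun q => ?_⟩
  · simp [h4, mul_comm]
  · show (φ (algebraMap _ L (X q))).snd = _
    rw [IsLocalization.lift_eq]
    by_cases e : q = p <;> simp [φ0, e]

lemma gen_rank {R C : Type*} [Fintype R] [Fintype C] (M : Matrix R C (MvPolynomial τ K)) :
    Gen fun c : τ → K => (M.map (algebraMap _ (FractionRing (MvPolynomial τ K)))).rank ≤
      (M.map (eval c)).rank := by
  classical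
  let L := FractionRing (MvPolynomial τ K)
  let P := MvPolynomial τ K
  let ML := M.map (algebraMap P L)
  have hML : ML = M.map (algebraMap P L) := rfl
  let f := ML.mulVecLin
  let b := (finBasis L (LinearMap.range f)).equivFun
  obtain ⟨g, hg⟩ := f.rangeRestrict.exists_rightInverse_of_surjective
    (LinearMap.range_rangeRestrict f)
  obtain ⟨h, hh⟩ := (LinearMap.range f).subtype.exists_leftInverse_of_injective
    (Submodule.ker_subtype _)
  let A := LinearMap.toMatrix' (b.toLinearMap ∘ₗ h)
  let B := LinearMap.toMatrix' (g ∘ₗ b.symm.toLinearMap)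
  have hAB : A * ML * B = 1 := by
    rw [← LinearMap.toMatrix'_toLin' ML, ← LinearMap.toMatrix'_comp, ← LinearMap.toMatrix'_comp,
      ← LinearMap.toMatrix'_id]
    congr 1
    refine LinearMap.ext fun x => ?_
    have e1 : f (g (b.symm x)) = b.symm x := congrArg Subtype.val (LinearMap.congr_fun hg _)
    have e2 : h (b.symm x) = b.symm x := LinearMap.congr_fun hh _
    show b (h (f (g (b.symm x)))) = x
    rw [e1, e2, b.apply_symm_apply]
  obtain ⟨a, ha⟩ := IsLocalization.exist_integer_multiples_of_finite (nonZeroDivisors P)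
    fun q : _ × R => A q.1 q.2
  obtain ⟨a', ha'⟩ := IsLocalization.exist_integer_multiples_of_finite (nonZeroDivisors P)
    fun q : C × _ => B q.1 q.2
  choose A' hA' using ha
  choose B' hB' using ha'
  let A1 : Matrix _ R P := Matrix.of fun i r => A' (i, r)
  let B1 : Matrix C _ P := Matrix.of fun s i => B' (s, i)
  have e1 : A1.map (algebraMap P L) = (a : P) • A := by ext i r; exact hA' (i, r)
  have e2 : B1.map (algebraMap P L) = (a' : P) • B := by ext i r; exact hB' (i, r)
  have e3 : A1 * M * B1 = ((a : P) * a') • (1 : Matrix _ _ P) := by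
    apply Matrix.map_injective (IsFractionRing.injective P L)
    show (A1 * M * B1).map _ = _
    rw [Matrix.map_mul, Matrix.map_mul, e1, e2, ← hML, Matrix.smul_mul, Matrix.smul_mul,
      Matrix.mul_smul, hAB, smul_smul]
    ext i i'
    show ((a : P) * a') • (1 : Matrix _ _ L) i i' =
      algebraMap P L (((a : P) * a') • (1 : Matrix _ _ P) i i')
    by_cases e : i = i' <;> simp [Matrix.one_apply, e, Algebra.smul_def]
  refine ⟨a * a', mul_ne_zero (nonZeroDivisors.coe_ne_zero a) (nonZeroDivisors.coe_ne_zero a'),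
    fun c hc => ?_⟩
  have e4 : A1.map (eval c) * M.map (eval c) * B1.map (eval c) =
      eval c ((a : P) * a') • (1 : Matrix _ _ K) := by
    rw [← Matrix.map_mul, ← Matrix.map_mul, e3]
    ext i i'
    by_cases e : i = i' <;> simp [e]
  have e5 : IsUnit (eval c ((a : P) * a') • (1 : Matrix (Fin (finrank L (LinearMap.range f)))
      (Fin (finrank L (LinearMap.range f))) K)) := by
    rw [Matrix.isUnit_iff_isUnit_det, Matrix.det_smul, Matrix.det_one, mul_one]
    exact (pow_ne_zero _ hc).isUnit
  have e6 := Matrix.rank_of_isUnit _ e5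
  rw [← e4, Fintype.card_fin] at e6
  exact e6.ge.trans ((Matrix.rank_mul_le_left _ _).trans (Matrix.rank_mul_le_right _ _))

variable {σ ι : Type*} [Fintype σ] [DecidableEq σ] [Fintype ι]

/-- the matrix of the conditions which define the inverse system -/
def Mat {R : Type*} [CommRing R] (j : ℕ) (d : ι → ℕ) (c : ι × Finset σ → R) :
    Matrix (Option ι × Finset σ) (Finset σ) R := fun p X =>
  p.1.elim (if p.2 = X ∧ ¬ X.card = j then 1 else 0) fun i =>
    ∑ Y : Finset σ, if Y ∪ p.2 = X ∧ Disjoint Y p.2 ∧ Y.card = d i then c (i, Y) else 0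

omit [Fintype ι] in
lemma Mat_map {R S : Type*} [CommRing R] [CommRing S] (f : R →+* S) (j : ℕ) (d : ι → ℕ)
    (c : ι × Finset σ → R) : (Mat j d c).map f = Mat j d fun p => f (c p) := by
  ext ⟨_ | i, T⟩ X
  · simp [Mat, apply_ite f]
  · simp [Mat, apply_ite f]

lemma Mat_rank (j : ℕ) (d : ι → ℕ) (c : ι × Finset σ → K) :
    (Mat j d c).rank + finrank K (WF j d univ c) = Fintype.card (Finset σ) := by
  have h := LinearMap.finrank_range_add_finrank_ker (Mat j d c).mulVecLin
  rw [finrank_fintype_fun_eq_card] at h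
  suffices e : LinearMap.ker (Mat j d c).mulVecLin = WF j d univ c by rw [← e]; exact h
  have h1 : ∀ F T, (Mat j d c).mulVec F (none, T) = if ¬ T.card = j then F T else 0 := by
    intro F T
    simp only [Matrix.mulVec, dotProduct, Mat, Option.elim]
    rw [sum_eq_single T (fun X _ hX => by simp [hX.symm]) (by simp)]
    simp
  have h2 : ∀ F i T, (Mat j d c).mulVec F (some i, T) =
      act (mask (fun i Y => Y.card = d i) c i) F T := by
    intro F i T
    simp only [Matrix.mulVec, dotProduct, Mat, Option.elim, act, sum_mul]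
    rw [sum_comm]
    refine sum_congr rfl fun Y _ => ?_
    rw [sum_eq_single (Y ∪ T) (fun X _ hX => by simp [hX.symm]) (by simp)]
    by_cases a1 : Disjoint Y T <;> by_cases a2 : Y.card = d i <;> simp [mask, a1, a2]
  ext F
  rw [LinearMap.mem_ker, mem_W, Matrix.mulVecLin_apply]
  constructor
  · intro h
    refine ⟨fun X hX => ?_, fun i _ => funext fun T => ?_⟩
    · have := congrFun h (none, X)
      rwa [h1, if_pos hX] at this
    · exact (h2 F i T).symm.trans (congrFun h (some i, T))
  · intro h
    ext ⟨_ | i, T⟩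
    · rw [h1]
      split_ifs with a
      · rfl
      · exact h.1 T a
    · rw [h2, h.2 i (mem_univ _)]
      rfl

lemma gen_WF (j : ℕ) (d : ι → ℕ) : Gen fun c : ι × Finset σ → K => finrank K (WF j d univ c) ≤
    finrank (FractionRing (MvPolynomial (ι × Finset σ) K))
      (WF j d univ (gp K (τ := ι × Finset σ))) := by
  refine (gen_rank (Mat j d (X : ι × Finset σ → MvPolynomial _ K))).mono fun c hc => ?_
  rw [Mat_map, Mat_map] at hc
  have h1 := Mat_rank j d c
  have h2 := Mat_rank j d (gp K (τ := ι × Finset σ))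
  simp only [eval_X] at hc
  change (Mat j d (gp K)).rank ≤ (Mat j d c).rank at hc
  omega

end Pool.Agent.P.MP_3acc10_al
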