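import Pool.Agent.P.MP_3acc10_al.Core
import Pool.Agent.P.MP_3acc10_al.Deriv

set_option autoImplicit false

namespace Pool.Agent.P.MP_3acc10_al

open Module Finset

variable {L : Type*} [Field L] {n : ℕ} {ι : Type*} [Fintype ι] [DecidableEq ι]

omit [DecidableEq ι] in
lemma card_good (j : ℕ) (d : ι → ℕ) :
    (univ.filter fun q : ι × Finset (Fin n) => q.2.card + d q.1 = j).card =
      ∑ i, if d i ≤ j then n.choose (j - d i) else 0 := by
  rw [card_filter, Fintype.sum_prod_type]
  refine sum_congr rfl fun i _ => ?_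
  rw [← card_filter]
  split_ifs with h
  · have : (univ.filter fun T : Finset (Fin n) => T.card + d i = j) =
        univ.powersetCard (j - d i) := by
      ext T; simp only [mem_filter, mem_univ, true_and, mem_powersetCard, subset_univ]; omega
    rw [this]; simp
  · exact card_eq_zero.2 (filter_eq_empty_iff.2 fun T _ => by simp only; omega)

lemma exists_syz (j : ℕ) (d : ι → ℕ) (c : ι × Finset (Fin n) → L)
    (h : n.choose j < finrank L (WF j d univ c) + ∑ i, if d i ≤ j then n.choose (j - d i) else 0) :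
    ∃ z : ι → Finset (Fin n) → L, (∀ i, z i ∈ Supp L fun T => T.card + d i = j) ∧ (∃ i, z i ≠ 0) ∧
      ∀ G ∈ Supp L fun X : Finset (Fin n) => X.card = j,
        ∑ i, z i ⬝ᵥ act (mask (fun i Y => Y.card = d i) c i) G = 0 := by
  let Φ : (Finset (Fin n) → L) →ₗ[L] (ι × Finset (Fin n) → L) :=
    LinearMap.pi fun q => LinearMap.proj q.2 ∘ₗ actL (mask (fun i Y => Y.card = d i) c q.1)
  set R := (Supp L fun X : Finset (Fin n) => X.card = j).map Φ with hR
  let R' : Submodule L (ι × Finset (Fin n) → L) :=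
    Submodule.pi {q | q.2.card + d q.1 = j} fun _ => ⊥
  have hlt : R ⊔ R' < ⊤ := by
    rw [lt_top_iff_ne_top]
    intro htop
    have h1 := Submodule.finrank_add_le_finrank_add_finrank R R'
    have h2 := finrank_le_sum R' (univ.filter fun q => ¬ (q.2.card + d q.1 = j))
      (fun q => LinearMap.proj q) (fun _ => ⊤) (by simp) fun x hx h0 => funext fun q => by
        by_cases hq : q.2.card + d q.1 = j
        · exact hx q hq
        · exact h0 q (by simpa using hq)
    have h3 := card_filter_add_card_filter_not (s := univ)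
      fun q : ι × Finset (Fin n) => q.2.card + d q.1 = j
    have h4 := LinearMap.finrank_range_add_finrank_ker
      (Φ.domRestrict (Supp L fun X : Finset (Fin n) => X.card = j))
    have h5 : finrank L (WF j d univ c) ≤ finrank L (LinearMap.ker
        (Φ.domRestrict (Supp L fun X : Finset (Fin n) => X.card = j))) := by
      rw [← Submodule.finrank_map_subtype_eq]
      exact Submodule.finrank_mono fun F hF =>
        ⟨⟨F, hF.1⟩, funext fun q => congrFun (hF.2 q.1 (mem_univ _)) q.2, rfl⟩
    rw [LinearMap.range_domRestrict, finrank_Supp_card, ← hR] at h4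
    rw [htop, finrank_top, finrank_fintype_fun_eq_card, ← card_univ] at h1
    simp only [finrank_top, finrank_self, sum_const, smul_eq_mul, mul_one] at h2
    rw [card_good] at h3
    omega
  obtain ⟨ψ, h0, hψ⟩ := Submodule.exists_le_ker_of_lt_top _ hlt
  have e : ∀ x, ψ x = ∑ q, x q * ψ (Pi.single q 1) := by
    intro x
    conv_lhs => rw [← univ_sum_single x, map_sum]
    refine sum_congr rfl fun q _ => ?_
    rw [← smul_eq_mul, ← map_smul, ← Pi.single_smul, smul_eq_mul, mul_one]
  refine ⟨fun i T => ψ (Pi.single (i, T) 1), fun i T hT => hψ (Submodule.mem_sup_right ?_), ?_,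
    fun G hG => ?_⟩
  · intro q hq
    exact Pi.single_eq_of_ne (fun e => hT (by subst e; exact hq)) _
  · by_contra hne
    push Not at hne
    refine h0 (LinearMap.ext fun x => ?_)
    rw [e]
    exact sum_eq_zero fun q _ => by rw [show ψ (Pi.single q 1) = 0 from congrFun (hne q.1) q.2,
      mul_zero]
  · have : ψ (Φ G) = 0 := hψ (Submodule.mem_sup_left ⟨G, hG, rfl⟩)
    rw [e, Fintype.sum_prod_type] at this
    refine Eq.trans (sum_congr rfl fun i _ => sum_congr rfl fun T _ => mul_comm _ _) this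

lemma core_max (j : ℕ) : ∃ n0, ∀ n, n0 ≤ n → ∀ (L : Type) [Field L] (ι : Type) [Fintype ι]
    [DecidableEq ι] (δ : ι × Finset (Fin n) → L →+ L)
    (_ : ∀ p x y, δ p (x * y) = x * δ p y + δ p x * y) (c : ι × Finset (Fin n) → L)
    (_ : ∀ p q, δ p (c q) = if q = p then 1 else 0) (d : ι → ℕ), (∀ i, j < 2 * d i) →
    finrank L (WF j d univ c) ≤ n.choose j - ∑ i, if d i ≤ j then n.choose (j - d i) else 0 := by
  obtain ⟨m1, hn1⟩ := ev_choose (j - 1) (8 * 2 ^ j * (j + 1) + 1) 0
  choose m2 hn2 using ev_ratio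
  refine ⟨m1 + (j + 1) + ∑ k ∈ range (j + 1), m2 k, fun n hn L _ ι _ _ δ hδ c hc d hd => ?_⟩
  have hr : ∀ k ≤ j, 2 * n.choose k ≤ 3 * (n - k).choose k := fun k hk =>
    hn2 k n ((single_le_sum (f := m2) (s := range (j + 1)) (fun _ _ => Nat.zero_le _)
      (mem_range.2 (by omega))).trans (by omega))
  by_contra hcon
  obtain ⟨z, hz, ⟨i0, hi0⟩, hs⟩ := exists_syz j d c (by omega)
  obtain ⟨⟨F, hF⟩, hF0⟩ := finrank_pos_iff_exists_ne_zero.1
    (show 0 < finrank L (WF j d univ c) by omega)
  have hF0 : F ≠ 0 := fun h => hF0 (Subtype.ext h)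
  have hZ : ∀ e, 0 < finrank L (Zs d z e) → e ≤ j := by
    intro e he
    obtain ⟨⟨y, hy⟩, hy0⟩ := finrank_pos_iff_exists_ne_zero.1 he
    by_contra hlt
    exact hy0 (Subtype.ext (funext fun T => Zs_supp d z hz e hy T (by omega)))
  have hZ' : ∀ e, 0 < finrank L (Zs d z e) → ∃ i, d i = e := by
    intro e he
    by_contra hne
    have : Zs d z e = ⊥ := Submodule.span_eq_bot.2 fun H ⟨i, hi, _⟩ => (hne ⟨i, hi⟩).elim
    rw [this, finrank_bot] at he
    omega
  have hm0 : 0 < finrank L (Zs d z (d i0)) := finrank_pos_iff_exists_ne_zero.2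
    ⟨⟨z i0, Submodule.subset_span ⟨i0, rfl, rfl⟩⟩, fun h => hi0 (congrArg Subtype.val h)⟩
  have hI : (univ.filter fun i => d i ≤ j).Nonempty := ⟨i0, by simpa using hZ _ hm0⟩
  have hj : 0 < j := by have := hZ _ hm0; have := hd i0; omega
  have ha : ∀ k ≤ j, (0 : ℝ) < n.choose k := fun k hk => by
    exact_mod_cast Nat.choose_pos (by omega)
  obtain ⟨i1, hi1, hmin⟩ := exists_min_image _
    (fun i => (finrank L (Sp (d i) F) : ℝ) / n.choose (j - d i)) hI
  obtain ⟨i2, hi2, hmax⟩ := exists_max_image _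
    (fun i => (finrank L (Zs d z (d i)) : ℝ) / n.choose (j - d i)) hI
  simp only [mem_filter, mem_univ, true_and] at hi1 hi2 hmin hmax
  have hmin' : ∀ i, d i ≤ j → finrank L (Sp (d i1) F) * n.choose (j - d i) ≤
      finrank L (Sp (d i) F) * n.choose (j - d i1) := fun i hi => by
    have := hmin i hi
    rw [div_le_div_iff₀ (ha _ (by omega)) (ha _ (by omega))] at this
    exact_mod_cast this
  have hmax' : ∀ e, finrank L (Zs d z e) * n.choose (j - d i2) ≤
      finrank L (Zs d z (d i2)) * n.choose (j - e) := fun e => by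
    rcases Nat.eq_zero_or_pos (finrank L (Zs d z e)) with h | h
    · rw [h, zero_mul]; exact Nat.zero_le _
    obtain ⟨i, rfl⟩ := hZ' e h
    have := hmax i (hZ _ h)
    rw [div_le_div_iff₀ (ha _ (by omega)) (ha _ (by omega))] at this
    exact_mod_cast this
  have hsq : ∀ i, n.choose (j - d i) * n.choose (j - d i) ≤ n ^ (j - 1) := fun i =>
    (Nat.mul_le_mul (Nat.choose_le_pow _ _) (Nat.choose_le_pow _ _)).trans (by
      rw [← pow_add]
      exact Nat.pow_le_pow_right (by omega) (by have := hd i; omega))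
  have k1 : j - d i1 + d i1 = j := by omega
  have k2 : j - d i2 + d i2 = j := by omega
  have s1 : ∀ e, Sp e F ≤ Supp L fun T => T.card = j - e := fun e =>
    (Sp_supp hF.1).trans fun H hH T hT => hH T (by omega)
  have s2 : Zs d z (d i2) ≤ Supp L fun T => T.card = j - d i2 :=
    (Zs_supp d z hz _).trans fun H hH T hT => hH T (by omega)
  have q1 := ineq1 δ hδ c hc d k1 hF
  have q2 := ineq2 δ hδ c hc d z hz hs k2
  have q3 := perp_le (s1 _) s2 (ineq3 δ hδ c hc d z hs hF (d i2))
  have u1 := ld_card (w := wz) (s1 (d i1))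
  have u2 := ld_card (w := fun X => -wz X) s2
  have v1 := card_ld wz_inj (Sp (d i1) F)
  have v2 := card_ld (w := fun X => -wz X) (neg_injective.comp wz_inj) (Zs d z (d i2))
  have r1 := n1 (show j - d i1 ≤ j by omega) u1
  have r2 := n2 (show 2 * (j - d i1) ≤ j by have := hd i1; omega) (by simp; omega) u1
  have r3 := n3 (show j - d i2 ≤ j by omega) u2
  have r4 := n2 (show 2 * (j - d i2) ≤ j by have := hd i2; omega) (by simp; omega) u2
  simp only [Fintype.card_fin, v1, v2] at r1 r2 r3 r4
  set w := ∑ i, if d i ≤ j then n.choose (j - d i) else 0 with hw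
  set 𝓜 := ld (fun X => -wz X) (Zs d z (d i2))
  have t1 : finrank L (Sp (d i1) F) * w ≤ (∑ i, finrank L (Sp (d i) F)) * n.choose (j - d i1) := by
    rw [hw, mul_sum, sum_mul]
    refine sum_le_sum fun i _ => ?_
    split_ifs with h
    · exact hmin' i h
    · exact Nat.zero_le _
  have t2 : (∑ i, finrank L (Zs d z (d i))) * n.choose (j - d i2) ≤
      finrank L (Zs d z (d i2)) * w := by
    rw [hw, mul_sum, sum_mul]
    refine sum_le_sum fun i _ => ?_
    split_ifs with h
    · exact hmax' _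
    · rw [Nat.eq_zero_of_not_pos fun h' => h (hZ _ h')]; simp
  have t3 : (∑ e ∈ range (j + 1), finrank L (Zs d z e) * n.choose (j - e)) * n.choose (j - d i2) ≤
      finrank L (Zs d z (d i2)) * ((j + 1) * n ^ (j - 1)) := by
    rw [sum_mul, mul_left_comm, ← smul_eq_mul (j + 1)]
    conv_rhs => rw [← card_range (j + 1)]
    refine sum_le_card_nsmul _ _ _ fun e _ => ?_
    rcases Nat.eq_zero_or_pos (finrank L (Zs d z e)) with h | h
    · rw [h]; simp
    obtain ⟨i, rfl⟩ := hZ' e h
    rw [mul_right_comm]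
    refine (Nat.mul_le_mul_right _ (hmax' _)).trans ?_
    rw [mul_assoc]
    exact Nat.mul_le_mul_left _ (hsq i)
  have hm2 : 0 < finrank L (Zs d z (d i2)) := by
    refine Nat.pos_of_mul_pos_right (b := n.choose (j - d i0)) (lt_of_lt_of_le ?_ (hmax' (d i0)))
    exact Nat.mul_pos hm0 (Nat.choose_pos (by omega))
  have hbig : 8 * j.choose (j - d i2) * ((j + 1) * n ^ (j - 1)) < n.choose j := by
    have b1 := hn1 n (by omega)
    rw [Nat.sub_zero, show j - 1 + 1 = j by omega] at b1
    have b2 := Nat.choose_le_two_pow j (j - d i2)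
    have b3 : 0 < n ^ (j - 1) := Nat.pow_pos (by omega)
    have b4 := Nat.mul_le_mul_right ((j + 1) * n ^ (j - 1)) b2
    nlinarith
  have t4 : (Up j 𝓜 ∩ Fu j (j - d i2) 𝓜).card ≤ (Fu j (j - d i2) 𝓜).card :=
    card_le_card inter_subset_right
  refine numeric (a := n.choose j) (a1 := n.choose (j - d i1)) (a2 := n.choose (j - d i2))
    (w := w) (Q := ((j + 1) * n ^ (j - 1) : ℕ)) (B := j.choose (j - d i2))
    (s1 := finrank L (Sp (d i1) F)) (s2 := finrank L (Sp (d i2) F))
    (m := finrank L (Zs d z (d i2))) (f1 := (Fu j (j - d i1) (ld wz (Sp (d i1) F))).card)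
    (f2 := (Up j 𝓜 ∩ Fu j (j - d i2) 𝓜).card) (u := (Up j 𝓜).card)
    (ha _ (by omega)) (ha _ (by omega)) (by exact_mod_cast Sp_pos hi1 hF.1 hF0)
    (by exact_mod_cast hm2) (by exact_mod_cast Nat.choose_pos (by omega)) (by positivity)
    (by exact_mod_cast hbig) ?_ (by exact_mod_cast r1) (fun h => ?_) ?_ (by exact_mod_cast r3)
    (by exact_mod_cast card_le_card inter_subset_left) (fun h => ?_) (by exact_mod_cast q3)
    (by exact_mod_cast hmin' i2 hi2)
  · norm_cast
    have b1 := Nat.mul_le_mul_right (n.choose (j - d i1)) q1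
    have b2 := Nat.mul_le_mul_left (finrank L (Sp (d i1) F)) (hsq i1)
    have b3 : finrank L (Sp (d i1) F) * n ^ (j - 1) ≤
        finrank L (Sp (d i1) F) * ((j + 1) * n ^ (j - 1)) :=
      Nat.mul_le_mul_left _ (Nat.le_mul_of_pos_left _ (Nat.succ_pos j))
    rw [add_mul, mul_assoc] at b1
    omega
  · exact_mod_cast r2 (by exact_mod_cast h) (hr _ (by omega))
  · norm_cast
    have b1 := Nat.mul_le_mul_right (n.choose (j - d i2)) q2
    rw [add_mul] at b1
    rw [mul_add]
    omega
  · have b1 := r4 (by exact_mod_cast h) (hr _ (by omega))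
    have b2 := Nat.mul_le_mul_right (n.choose (j - d i2)) t4
    norm_cast
    omega

omit [Fintype ι] in
lemma lower_all {K : Type*} [Field K] (j : ℕ) (d : ι → ℕ) (A : Finset ι)
    (c : ι × Finset (Fin n) → K) : n.choose j ≤ finrank K (WF j d A c) +
      ∑ i ∈ A, if d i ≤ j then n.choose (j - d i) else 0 := by
  induction A using Finset.induction_on with
  | empty => rw [finrank_WF_empty]; simp
  | insert l A hl ih =>
    have h1 := lower_step j d A l c
    have h2 := finrank_WF_le (j - d l) d A c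
    rw [Fintype.card_fin] at h2
    rw [sum_insert hl]
    split_ifs at h1 ⊢ <;> omega

omit [Fintype ι] in
lemma al_low (D : ℕ) (d : ι → ℕ) (A : Finset ι) (hd : ∀ l ∈ A, D ≤ d l) : ∀ j < 2 * D,
    al n d A j = n.choose j - ((∑ i ∈ A, if d i ≤ j then n.choose (j - d i) else 0 : ℕ) : ℤ) := by
  induction A using Finset.induction_on with
  | empty => simp
  | insert l A hl ih =>
    intro j hj
    have ih := ih fun l hl => hd l (by simp [hl])
    have hl' := hd l (by simp)
    rw [al_insert n d hl, sum_insert hl, ih j hj]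
    split_ifs with h
    · rw [ih _ (by omega), sum_eq_zero (s := A) (f := fun i => if d i ≤ j - d l then
        n.choose (j - d l - d i) else 0) fun i hi => if_neg (by
          have := hd i (by simp [hi]); omega)]
      push_cast; ring
    · simp

theorem exact_low (D : ℕ) : ∃ n0, ∀ (K : Type) [Field K] (n r : ℕ) (d : Fin r → ℕ), n0 ≤ n →
    (∀ i, D ≤ d i) → Gen fun c : Fin r × Finset (Fin n) → K =>
      ∀ j < 2 * D, (hilb d c j : ℤ) = truncCoeff (series n d univ) j := by
  choose m hm using core_max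
  refine ⟨∑ j ∈ range (2 * D), m j, fun K _ n r d hn hd => ?_⟩
  have h1 : ∀ j ∈ range (2 * D), Gen fun c : Fin r × Finset (Fin n) → K =>
      finrank K (WF j d univ c) ≤
        n.choose j - ∑ i, if d i ≤ j then n.choose (j - d i) else 0 := by
    intro j hj
    choose δ h1 h2 using exists_der (K := K) (τ := Fin r × Finset (Fin n))
    exact (gen_WF j d).mono fun c hc => hc.trans (hm j n
      ((single_le_sum (f := m) (fun _ _ => Nat.zero_le _) hj).trans hn) _ _ δ h1 _ h2 d
        fun i => by have := hd i; have := mem_range.1 hj; omega)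
  refine (Gen.all _ h1).mono fun c hc j hj => ?_
  rw [hilb_eq]
  change _ = ex n d univ j
  unfold ex
  split_ifs with h
  · have a1 := hc j (mem_range.2 hj)
    have a2 := lower_all j d univ c
    have a3 := h j le_rfl
    rw [al_low D d univ (fun l _ => hd l) j hj] at a3 ⊢
    omega
  · push Not at h
    obtain ⟨i, hi, h⟩ := h
    have a1 := hc i (mem_range.2 (by omega))
    rw [al_low D d univ (fun l _ => hd l) i (by omega)] at h
    have a2 := finrank_WF_add i (j - i) d univ c
    rw [show i + (j - i) = j by omega, show finrank K (WF i d univ c) = 0 by omega] at a2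
    omega

theorem exact_range (D : ℕ) : ∃ (C : ℝ) (n0 : ℕ), ∀ (K : Type) [Field K] [Infinite K] (n r : ℕ)
    (d : Fin r → ℕ), n0 ≤ n → (∀ i, D ≤ d i) →
    (∃ P : MvPolynomial (Fin r × Finset (Fin n)) K, P ≠ 0 ∧ ∀ c, MvPolynomial.eval c P ≠ 0 →
      ∀ j < 2 * D, (hilb d c j : ℤ) = truncCoeff (series n d univ) j) ∧
    ∀ (A : Finset (Fin r)) (e : ℕ), 0 < e → e ≤ 2 * D → truncCoeff (series n d A) (2 * D) = 0 →
      C * (n : ℝ) ^ ((e : ℝ) - e / (4 * D)) ≤ (Aᶜ.filter fun i => d i = e).card →
      ∃ P : MvPolynomial (Fin r × Finset (Fin n)) K, P ≠ 0 ∧ ∀ c, MvPolynomial.eval c P ≠ 0 →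
        ∀ j, (hilb d c j : ℤ) = truncCoeff (series n d univ) j := by
  obtain ⟨n0, h0⟩ := exact_low D
  have hv := fun e : ℕ => fun h : 0 < e ∧ e ≤ 2 * D => vanish (2 * D) e h.1 h.2
  choose C hC using hv
  let C' : ℕ → ℝ := fun e => if h : 0 < e ∧ e ≤ 2 * D then |C e h| else 0
  have hC' : ∀ e, 0 ≤ C' e := fun e => by
    simp only [C']; split_ifs
    · exact abs_nonneg _
    · exact le_rfl
  refine ⟨∑ e ∈ range (2 * D + 1), C' e, n0, fun K _ _ n r d hn hd =>
    ⟨h0 K n r d hn hd, fun A e he0 he hA hc => ?_⟩⟩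
  have hd0 : ∀ i, 0 < d i := fun i => by have := hd i; omega
  have h1 : C e ⟨he0, he⟩ ≤ ∑ e ∈ range (2 * D + 1), C' e := by
    refine le_trans ?_ (single_le_sum (f := C') (fun i _ => hC' i) (mem_range.2 (by omega : e < _)))
    simp only [C', dif_pos (And.intro he0 he)]
    exact le_abs_self _
  have h2 : Gen fun c : Fin r × Finset (Fin n) → K => hilb d c (2 * D) = 0 := by
    refine hC e ⟨he0, he⟩ K n r d A hd0 hA (le_trans ?_ hc)
    rw [show (2 * ((2 * D : ℕ) : ℝ)) = 4 * D by push_cast; ring]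
    exact mul_le_mul_of_nonneg_right h1 (by positivity)
  refine ((h0 K n r d hn hd).and h2).mono fun c ⟨a1, a2⟩ j => ?_
  by_cases hj : j < 2 * D
  · exact a1 j hj
  have a3 := finrank_WF_add (2 * D) (j - 2 * D) d univ c
  rw [hilb_eq] at a2
  rw [show 2 * D + (j - 2 * D) = j by omega, a2, mul_zero, Nat.le_zero] at a3
  rw [hilb_eq, a3]
  change _ = ex n d univ j
  unfold ex
  rw [if_neg, Nat.cast_zero]
  intro h
  have a4 : ex n d A (2 * D) = 0 := hA
  have a5 := al_le_of_subset n d (2 * D) (subset_univ A) (fun l _ => hd0 l)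
    fun i hi => h i (by omega)
  have a6 : ∀ i ≤ 2 * D, 0 < al n d A i := fun i hi => (h i (by omega)).trans_le (a5 i hi)
  unfold ex at a4
  rw [if_pos a6] at a4
  exact (a6 _ le_rfl).ne' a4

end Pool.Agent.P.MP_3acc10_al
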