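import Mathlib

set_option autoImplicit false

namespace Pool.Agent.P.MP_3acc10_al

open MvPolynomial Module

variable {K : Type*} [Field K]

/-- holds on a nonempty principal Zariski open set -/
def Gen {τ : Type*} (Φ : (τ → K) → Prop) : Prop :=
  ∃ P : MvPolynomial τ K, P ≠ 0 ∧ ∀ c, eval c P ≠ 0 → Φ c

section
variable {τ : Type*} {Φ Ψ : (τ → K) → Prop}

lemma Gen.mono (h : Gen Φ) (hi : ∀ c, Φ c → Ψ c) : Gen Ψ := by
  obtain ⟨P, hP, h⟩ := h
  exact ⟨P, hP, fun c hc => hi c (h c hc)⟩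

lemma Gen.and (h : Gen Φ) (h' : Gen Ψ) : Gen fun c => Φ c ∧ Ψ c := by
  obtain ⟨P, hP, h⟩ := h
  obtain ⟨Q, hQ, h'⟩ := h'
  refine ⟨P * Q, mul_ne_zero hP hQ, fun c hc => ?_⟩
  rw [map_mul] at hc
  exact ⟨h c (left_ne_zero_of_mul hc), h' c (right_ne_zero_of_mul hc)⟩

lemma Gen.of_forall (h : ∀ c, Φ c) : Gen Φ := ⟨1, one_ne_zero, fun c _ => h c⟩

lemma Gen.all {α : Type*} (s : Finset α) {Θ : α → (τ → K) → Prop} (h : ∀ a ∈ s, Gen (Θ a)) :
    Gen fun c => ∀ a ∈ s, Θ a c := by
  classical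
  induction s using Finset.induction_on with
  | empty => exact Gen.of_forall (by simp)
  | insert a s _ ih =>
    refine ((h a (by simp)).and (ih fun b hb => h b (by simp [hb]))).mono ?_
    rintro c ⟨h1, h2⟩ b hb
    rcases Finset.mem_insert.1 hb with rfl | hb
    · exact h1
    · exact h2 b hb

lemma Gen.exists [Infinite K] (h : Gen Φ) : ∃ c, Φ c := by
  obtain ⟨P, hP, h⟩ := h
  by_contra hc
  push Not at hc
  apply hP
  apply MvPolynomial.funext
  intro x
  by_contra hx
  exact hc x (h x (by simpa using hx))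

lemma gen_coord (s : τ) : Gen fun c : τ → K => c s ≠ 0 :=
  ⟨X s, X_ne_zero s, fun c hc => by simpa using hc⟩

end

lemma gen_det {τ : Type*} [Fintype τ] {C : Type*} [AddCommGroup C] [Module K C]
    [FiniteDimensional K C] (M : (τ → K) →ₗ[K] (C →ₗ[K] C)) (c0 : τ → K)
    (h0 : M c0 = LinearMap.id) : Gen fun c => Function.Injective (M c) := by
  classical
  let b := Module.finBasis K C
  let PM : Matrix (Fin (finrank K C)) (Fin (finrank K C)) (MvPolynomial τ K) :=
    fun a a' => ∑ s, X s * MvPolynomial.C (LinearMap.toMatrix b b (M (Pi.single s 1)) a a')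
  have key : ∀ c, eval c PM.det = (LinearMap.toMatrix b b (M c)).det := by
    intro c
    rw [RingHom.map_det]
    congr 1
    ext a a'
    have : c = ∑ s, c s • Pi.single s (1 : K) := by
      ext t; simp [Finset.sum_apply, Pi.single_apply]
    conv_rhs => rw [this]
    rw [RingHom.mapMatrix_apply, Matrix.map_apply]
    simp [PM, map_sum, Matrix.sum_apply]
  refine ⟨PM.det, fun h => ?_, fun c hc => ?_⟩
  · have := key c0
    rw [h, h0] at this
    simp at this
  · rw [key, LinearMap.det_toMatrix] at hc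
    exact (LinearMap.ker_eq_bot).1 (by
      by_contra hk
      exact hc (LinearMap.det_eq_zero_iff_ker_ne_bot.2 hk))

lemma gen_ker {τ : Type*} [Fintype τ] {V V' : Type*} [AddCommGroup V] [Module K V]
    [AddCommGroup V'] [Module K V'] [FiniteDimensional K V]
    (L : (τ → K) →ₗ[K] (V →ₗ[K] V')) (U : Submodule K V) (m : ℕ) (c0 : τ → K)
    (h : finrank K ↥(U ⊓ LinearMap.ker (L c0)) ≤ m) :
    Gen fun c => finrank K ↥(U ⊓ LinearMap.ker (L c)) ≤ m := by
  set Z := U ⊓ LinearMap.ker (L c0) with hZ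
  obtain ⟨Q, hQ⟩ := Submodule.exists_isCompl Z
  set C := U ⊓ Q with hC
  have hZC : Z ⊓ C = ⊥ := by
    rw [eq_bot_iff, ← hQ.inf_eq_bot]
    exact inf_le_inf_left _ inf_le_right
  have hsup : Z ⊔ C = U := by
    rw [hC, inf_comm, ← sup_inf_assoc_of_le _ (show Z ≤ U from inf_le_left), hQ.sup_eq_top,
      top_inf_eq]
  have hd : finrank K U = finrank K Z + finrank K C := by
    have := Submodule.finrank_sup_add_finrank_inf_eq Z C
    rw [hZC, hsup] at this
    simpa using this
  have hinj : LinearMap.ker ((L c0).domRestrict C) = ⊥ := by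
    rw [eq_bot_iff]
    rintro ⟨x, hx⟩ hx0
    have : x ∈ Z ⊓ C := ⟨⟨hx.1, by simpa using hx0⟩, hx⟩
    rw [hZC] at this
    simpa using this
  obtain ⟨p, hp⟩ := LinearMap.exists_leftInverse_of_injective _ hinj
  let M : (τ → K) →ₗ[K] (C →ₗ[K] C) :=
    { toFun := fun c => p ∘ₗ (L c).domRestrict C
      map_add' := fun c c' => by ext x; simp
      map_smul' := fun a c => by ext x; simp }
  refine (gen_det M c0 hp).mono fun c hc => ?_
  have h1 : (U ⊓ LinearMap.ker (L c)) ⊓ C = ⊥ := by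
    rw [eq_bot_iff]
    rintro x ⟨⟨_, hx0⟩, hx⟩
    have : M c ⟨x, hx⟩ = M c 0 := by
      have : L c x = 0 := hx0
      simp [M, this]
    simpa using hc this
  have h2 := Submodule.finrank_sup_add_finrank_inf_eq (U ⊓ LinearMap.ker (L c)) C
  rw [h1] at h2
  have h3 : finrank K ↥((U ⊓ LinearMap.ker (L c)) ⊔ C) ≤ finrank K U :=
    Submodule.finrank_mono (sup_le inf_le_left inf_le_left)
  simp only [finrank_bot, add_zero] at h2
  omega

/-- a space detected by finitely many maps into smaller spaces -/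
lemma finrank_le_sum {V V' α : Type*} [AddCommGroup V] [Module K V] [AddCommGroup V']
    [Module K V'] [FiniteDimensional K V'] (W : Submodule K V) (s : Finset α)
    (φ : α → V →ₗ[K] V') (W' : α → Submodule K V') (h : ∀ a ∈ s, ∀ x ∈ W, φ a x ∈ W' a)
    (hinj : ∀ x ∈ W, (∀ a ∈ s, φ a x = 0) → x = 0) :
    finrank K W ≤ ∑ a ∈ s, finrank K (W' a) := by
  classical
  let Φ : W →ₗ[K] (∀ a : s, W' a) :=
    LinearMap.pi fun a => ((φ a).domRestrict W).codRestrict (W' a) fun x => h a a.2 x x.2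
  have hi : Function.Injective Φ := by
    rw [← LinearMap.ker_eq_bot, eq_bot_iff]
    rintro ⟨x, hx⟩ h0
    have : x = 0 := hinj x hx fun a ha => by
      exact congrArg Subtype.val (congrFun (show Φ ⟨x, hx⟩ = 0 from h0) ⟨a, ha⟩)
    exact (Submodule.mem_bot K).2 (Subtype.ext this)
  have := LinearMap.finrank_le_finrank_of_injective hi
  rw [Module.finrank_pi_fintype] at this
  rw [← Finset.sum_coe_sort s]
  exact this

end Pool.Agent.P.MP_3acc10_al
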