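import Pool.Agent.P.MP_3acc10_al.Common

set_option autoImplicit false

namespace Pool.Agent.P.MP_3acc10_al

open Module Finset

section
variable {L : Type*} [Field L] {n : ℕ} {ι : Type*} [DecidableEq ι]
  (δ : ι × Finset (Fin n) → L →+ L) (hδ : ∀ p x y, δ p (x * y) = x * δ p y + δ p x * y)
  (c : ι × Finset (Fin n) → L) (hc : ∀ p q, δ p (c q) = if q = p then 1 else 0) (d : ℕ)

/-- the coefficient vector of a form -/
noncomputable abbrev fm (b : ι) : Finset (Fin n) → L := mask (fun _ Y => Y.card = d) c b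

/-- stability under the derivatives with respect to the coefficients of one form -/
def St (b : ι) (Q : Submodule L (Finset (Fin n) → L)) : Prop :=
  ∀ Y : Finset (Fin n), Y.card = d → ∀ H ∈ Q, Dv (δ (b, Y)) H ∈ Q

/-- the hyperplane of a form -/
noncomputable def hy (b : ι) : Submodule L (Finset (Fin n) → L) :=
  LinearMap.ker (dotProductBilin L L (fm c d b))

omit [DecidableEq ι] in
lemma St_sup (b : ι) (Q Q' : Submodule L (Finset (Fin n) → L)) (h : St δ d b Q)
    (h' : St δ d b Q') : St δ d b (Q ⊔ Q') := by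
  intro Y hY H hH
  obtain ⟨x, hx, y, hy, rfl⟩ := Submodule.mem_sup.1 hH
  exact Submodule.mem_sup.2 ⟨_, h Y hY x hx, _, h' Y hY y hy,
    funext fun T => (map_add (δ (b, Y)) _ _).symm⟩

omit [DecidableEq ι] in
lemma map_le_hy {j : ℕ} {S : Finset ι} {a : ι} (ha : a ∈ S) (g : Finset (Fin n) → L) :
    (WF j (fun _ => d) S c).map (actL g) ≤ hy c d a := by
  rintro _ ⟨F, hF, rfl⟩
  have := congrFun (act_comm (fm c d a) g F) ∅
  rw [hF.2 a ha, act_zero] at this
  simpa [act, hy, dotProduct] using this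

include hδ hc

lemma Dv_act_ne {a b : ι} (h : a ≠ b) (Y : Finset (Fin n)) (hY : Y.card = d)
    (F : Finset (Fin n) → L) :
    Dv (δ (b, Y)) (act (fm c d a) F) = act (fm c d a) (Dv (δ (b, Y)) F) := by
  rw [Dv_act _ (hδ _), Dv_mask δ c hc (fun _ => d) b a Y hY, if_neg h, zero_act, add_zero]

lemma St_hy (a b : ι) (Q : Submodule L (Finset (Fin n) → L)) (hab : a ≠ b) (h : St δ d b Q) :
    St δ d b (Q ⊓ hy c d a) := by
  intro Y hY H hH
  refine ⟨h Y hY H hH.1, ?_⟩
  have h1 : fm c d a ⬝ᵥ H = 0 := hH.2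
  have := der_dot _ (hδ (b, Y)) (fm c d a) H
  rw [h1, map_zero, Dv_mask δ c hc (fun _ => d) b a Y hY, if_neg hab, zero_dotProduct,
    add_zero] at this
  exact this.symm

lemma St_bot (b : ι) (Q : Submodule L (Finset (Fin n) → L)) (h : St δ d b Q)
    (h1 : Q ≤ Supp L fun T => T.card = d) (h2 : Q ≤ hy c d b) : Q = ⊥ := by
  rw [eq_bot_iff]
  intro H hH
  refine funext fun Y => ?_
  by_cases hY : Y.card = d
  · have a1 : fm c d b ⬝ᵥ H = 0 := h2 hH
    have a2 : fm c d b ⬝ᵥ Dv (δ (b, Y)) H = 0 := h2 (h Y hY H hH)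
    have := der_dot _ (hδ (b, Y)) (fm c d b) H
    rw [a1, a2, map_zero, Dv_mask δ c hc (fun _ => d) b b Y hY, if_pos rfl, zero_add,
      single_dotProduct, one_mul] at this
    exact this.symm
  · exact h1 hH Y hY

lemma St_W {j : ℕ} {S : Finset ι} {b : ι} (hb : b ∉ S) : St δ d b (WF j (fun _ => d) S c) := by
  intro Y hY F hF
  refine ⟨Dv_supp _ hF.1, fun i hi => ?_⟩
  rw [← Dv_act_ne δ hδ c hc d (ne_of_mem_of_not_mem hi hb) Y hY, hF.2 i hi]
  exact funext fun _ => map_zero _

lemma St_map {o b : ι} (h : o ≠ b) {Q : Submodule L (Finset (Fin n) → L)} (hQ : St δ d b Q) :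
    St δ d b (Q.map (actL (fm c d o))) := by
  rintro Y hY _ ⟨F, hF, rfl⟩
  exact ⟨_, hQ Y hY F hF, (Dv_act_ne δ hδ c hc d h Y hY F).symm⟩

lemma St_comap {o b : ι} (h : o ≠ b) {Q : Submodule L (Finset (Fin n) → L)} (hQ : St δ d b Q) :
    St δ d b (Q.comap (actL (fm c d o))) := by
  intro Y hY F hF
  have := hQ Y hY _ hF
  rwa [actL_apply, Dv_act_ne δ hδ c hc d h Y hY F] at this

lemma euler {j : ℕ} {S : Finset ι} {F : Finset (Fin n) → L} (hF : F ∈ WF j (fun _ => d) S c)
    (s : Fin n) : res (s ∈ ·) F + ∑ b ∈ S, ∑ Y ∈ univ.filter (fun Y => Y.card = d ∧ s ∈ Y),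
      c (b, Y) • Dv (δ (b, Y)) F ∈ WF j (fun _ => d) S c := by
  refine ⟨(Supp L _).add_mem (fun X hX => by simp [res_apply, hF.1 X hX])
    (Submodule.sum_mem _ fun b _ => Submodule.sum_mem _ fun Y _ =>
      Submodule.smul_mem _ _ (Dv_supp _ hF.1)), fun i hi => ?_⟩
  have h1 : ∀ Y : Finset (Fin n), Y.card = d →
      act (fm c d i) (Dv (δ (i, Y)) F) = -act (Pi.single Y 1) F := by
    intro Y hY
    have := Dv_act _ (hδ (i, Y)) (fm c d i) F
    rw [hF.2 i hi, Dv_mask δ c hc (fun _ => d) i i Y hY, if_pos rfl] at this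
    exact eq_neg_of_add_eq_zero_left (this.symm.trans (funext fun _ => map_zero _))
  rw [← actL_apply, map_add, map_sum, sum_eq_single i (fun b _ hb => ?_) (by simp [hi]), map_sum,
    sum_congr rfl fun Y hY => by rw [map_smul, actL_apply, h1 Y (mem_filter.1 hY).2.1]]
  · ext T
    have h2 := congrFun (hF.2 i hi) T
    rw [Pi.add_apply, Finset.sum_apply, sum_filter, actL_apply, act, Pi.zero_apply]
    rw [act, Pi.zero_apply] at h2
    by_cases hs : s ∈ T
    · rw [sum_eq_zero (f := fun Y : Finset (Fin n) => if Y.card = d ∧ s ∈ Y then _ else 0)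
        fun Y _ => ?_, add_zero]
      · exact (sum_congr rfl fun Y _ => by simp [res_apply, hs]).trans h2
      · split_ifs with a1
        · simp [act_single, show ¬ Disjoint Y T from fun h => disjoint_left.1 h a1.2 hs]
        · rfl
    · rw [← sum_add_distrib]
      refine sum_eq_zero fun Y _ => ?_
      by_cases a1 : Disjoint Y T <;> by_cases a2 : Y.card = d <;> by_cases a3 : s ∈ Y <;>
        simp [res_apply, mask, act_single, a1, a2, a3, hs]
  · rw [map_sum]
    refine sum_eq_zero fun Y hY => ?_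
    rw [map_smul, actL_apply, ← Dv_act_ne δ hδ c hc d hb.symm Y (mem_filter.1 hY).2.1, hF.2 i hi,
      show Dv (δ (b, Y)) (0 : Finset (Fin n) → L) = 0 from funext fun _ => map_zero _, smul_zero]

lemma single_mem {j : ℕ} {S : Finset ι} {T : Submodule L (Finset (Fin n) → L)}
    (h1 : WF j (fun _ => d) S c ≤ T) (h2 : ∀ b ∈ S, St δ d b T) {F : Finset (Fin n) → L}
    (hF : F ∈ WF j (fun _ => d) S c) {X : Finset (Fin n)} (hX : F X ≠ 0) :
    (Pi.single X 1 : Finset (Fin n) → L) ∈ T := by
  let 𝒬 := {Q : Submodule L (Finset (Fin n) → L) | WF j (fun _ => d) S c ≤ Q ∧ ∀ b ∈ S, St δ d b Q}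
  have a1 : WF j (fun _ => d) S c ≤ sInf 𝒬 := le_sInf fun Q hQ => hQ.1
  have a2 : ∀ b ∈ S, St δ d b (sInf 𝒬) := fun b hb Y hY H hH =>
    Submodule.mem_sInf.2 fun Q hQ => hQ.2 b hb Y hY H (Submodule.mem_sInf.1 hH Q hQ)
  have a3 : ∀ s : Fin n, sInf 𝒬 ≤ (sInf 𝒬).comap (res (s ∈ ·)) := by
    intro s
    refine sInf_le ⟨fun G hG => ?_, fun b hb Y hY G hG => ?_⟩
    · exact ((sInf 𝒬).add_mem_iff_left (Submodule.sum_mem _ fun b hb => Submodule.sum_mem _
        fun Y hY => Submodule.smul_mem _ _ (a2 b hb Y (mem_filter.1 hY).2.1 G (a1 hG)))).1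
        (a1 (euler δ hδ c hc d hG s))
    · have := a2 b hb Y hY _ hG
      have e : Dv (δ (b, Y)) (res (s ∈ ·) G) = res (s ∈ ·) (Dv (δ (b, Y)) G) := by
        ext T; simp only [Dv, res_apply]; split_ifs <;> simp
      rwa [e] at this
  have a4 : ∀ Z : Finset (Fin n), res (Z ⊆ ·) F ∈ sInf 𝒬 := by
    intro Z
    induction Z using Finset.induction_on with
    | empty => convert a1 hF; ext T; simp [res_apply]
    | insert s Z _ ih =>
      convert Submodule.mem_comap.1 (a3 s ih) using 1
      ext T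
      by_cases b1 : s ∈ T <;> by_cases b2 : Z ⊆ T <;> simp [res_apply, insert_subset_iff, b1, b2]
  have hj : X.card = j := by
    by_contra hne
    exact hX (hF.1 X hne)
  have a5 := (sInf_le (show T ∈ 𝒬 from ⟨h1, h2⟩) : sInf 𝒬 ≤ T)
    ((sInf 𝒬).smul_mem (F X)⁻¹ (a4 X))
  convert a5
  ext T
  by_cases e : T = X
  · simp [e, res_apply, hX]
  · rw [Pi.single_eq_of_ne e, Pi.smul_apply, res_apply]
    split_ifs with b
    · rw [hF.1 T fun h => e (eq_of_subset_of_card_le b (h.trans hj.symm).le).symm, smul_zero]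
    · simp

end

lemma growth (K : Type) [Field K] [CharZero K] (n d : ℕ) (hn : 4 * d ≤ n) :
    ∃ α : ℕ → ℕ, (∀ t, Hm K n (2 * d) d t = α t + Hm K n (2 * d) d (t + 1)) ∧ α 0 ≤ n.choose d ∧
      (∀ t, α (t + 1) ≤ α t - 1) ∧
      ∀ t, 2 ≤ α t → α t ≤ α (t + 1) + 1 → n.choose d ≤ α t + t := by
  have key : ∀ N : ℕ, ∀ S : Finset (Fin N),
      finrank (FractionRing (MvPolynomial (Option (Fin N) × Finset (Fin n)) K))
        ((WF (2 * d) (fun _ => d) (S.map Function.Embedding.some)
        (gp K (τ := Option (Fin N) × Finset (Fin n)))).map (actL (fm (gp K) d none))) +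
        Hm K n (2 * d) d (S.card + 1) = Hm K n (2 * d) d S.card := by
    intro N S
    have := rank_step (2 * d) (fun _ => d) (S.map Function.Embedding.some) none
      (gp K (τ := Option (Fin N) × Finset (Fin n)))
    rwa [HL, HL, card_insert_of_notMem (by simp), card_map] at this
  have hs : ∀ N : ℕ, ∀ S : Finset (Option (Fin N)), (WF (2 * d) (fun _ => d) S
      (gp K (τ := Option (Fin N) × Finset (Fin n)))).map (actL (fm (gp K) d none)) ≤
      Supp _ fun T => T.card = d := by
    rintro N S _ ⟨F, hF, rfl⟩ T hT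
    exact act_mask_supp (d := fun _ => d) _ none hF.1 T (by omega)
  refine ⟨fun t => Hm K n (2 * d) d t - Hm K n (2 * d) d (t + 1), fun t => ?_, ?_, fun t => ?_,
    fun t h1 h2 => ?_⟩
  · have := key t univ
    simp only [card_univ, Fintype.card_fin] at this ⊢
    omega
  · have h1 := key 0 ∅
    have h2 := Submodule.finrank_mono (hs 0 (map Function.Embedding.some ∅))
    rw [finrank_Supp_card] at h2
    simp only [card_empty] at h1 ⊢
    omega
  · choose δ hδ hc using exists_der (K := K) (τ := Option (Fin (t + 1)) × Finset (Fin n))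
    have h1 := key (t + 1) univ
    have h2 := key (t + 1) (univ.erase 0)
    set Q := (WF (2 * d) (fun _ => d) ((univ.erase 0).map Function.Embedding.some)
        (gp K (τ := Option (Fin (t + 1)) × Finset (Fin n)))).map (actL (fm (gp K) d none))
    set L := FractionRing (MvPolynomial (Option (Fin (t + 1)) × Finset (Fin n)) K)
    have h3 : finrank L ((WF (2 * d) (fun _ => d) (univ.map Function.Embedding.some)
        (gp K (τ := Option (Fin (t + 1)) × Finset (Fin n)))).map (actL (fm (gp K) d none))) ≤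
        finrank L ↥(Q ⊓ hy (gp K) d (some 0)) := Submodule.finrank_mono (le_inf
          (Submodule.map_mono (W_anti _ (map_subset_map.2 (subset_univ _)) _))
          (map_le_hy _ d (by simp) _))
    have h4 : finrank L ↥(Q ⊓ hy (gp K) d (some 0)) ≤ finrank L Q - 1 := by
      rcases (inf_le_left : Q ⊓ hy (gp K) d (some 0) ≤ Q).lt_or_eq with h | h
      · exact Nat.le_sub_one_of_lt (Submodule.finrank_lt_finrank_of_lt h)
      · rw [St_bot δ hδ _ hc d (some 0) Q (St_map δ hδ _ hc d (by simp)
          (St_W δ hδ _ hc d (by simp))) (hs _ _) (inf_eq_left.1 h)]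
        simp
    simp only [card_univ, Fintype.card_fin, card_erase_of_mem (mem_univ _),
      Nat.add_sub_cancel] at h1 h2
    exact (Nat.eq_sub_of_add_eq h1).ge.trans ((h3.trans h4).trans
      (Nat.sub_le_sub_right (Nat.eq_sub_of_add_eq h2).le 1))
  · choose δ hδ hc using exists_der (K := K) (τ := Option (Fin (t + 2)) × Finset (Fin n))
    simp only at h1 h2 ⊢
    obtain ⟨Q0, q1, q2, q3⟩ := common (κ := Fin (t + 2)) (Supp _ fun T => T.card = d)
      (fun b => hy (gp K) d (some b)) (fun b => St δ d (some b))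
      (fun a b Q hab => St_hy δ hδ _ hc d _ _ Q (by simpa using hab))
      (fun b => St_sup δ d _) (fun b => St_bot δ hδ _ hc d _) t (by simp) _
      (fun S => (WF (2 * d) (fun _ => d) (S.map Function.Embedding.some) (gp K)).map
        (actL (fm (gp K) d none))) h1 (fun S _ => hs _ _)
      (fun S _ a ha => map_le_hy _ d (by simpa using ha) _)
      (fun S hS => by have := key _ S; rw [hS] at this; omega)
      (fun S _ b hb => St_map δ hδ _ hc d (by simp) (St_W δ hδ _ hc d (by simpa using hb)))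
      (fun M hM a ha b hb hab => by
        have a1 := key _ (insert a (insert b M))
        rw [card_insert_of_notMem (by simp [ha, hab]), card_insert_of_notMem hb, hM] at a1
        refine h2.trans (Nat.add_le_add_right (le_trans (Nat.eq_sub_of_add_eq a1).ge
          (Submodule.finrank_mono (le_inf (Submodule.map_mono (W_anti _ (map_subset_map.2
            (insert_subset_insert a (subset_insert b M))) _))
            (Submodule.map_mono (W_anti _ (map_subset_map.2 (subset_insert a _)) _))))) _))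
    obtain ⟨S, -, hS⟩ := exists_subset_card_eq (s := (univ : Finset (Fin (t + 2)))) (n := t)
      (by simp)
    obtain ⟨⟨F, hF⟩, hF0⟩ := finrank_pos_iff_exists_ne_zero.1 (show 0 < finrank _
      (WF (2 * d) (fun _ => d) (S.map Function.Embedding.some)
        (gp K (τ := Option (Fin (t + 2)) × Finset (Fin n)))) by rw [HL, card_map, hS]; omega)
    have a1 : WF (2 * d) (fun _ => d) (map Function.Embedding.some ∅) (gp K) ≤
        Q0.comap (actL (fm (gp K) d none)) := by
      intro G hG
      rw [← univ_sum_single G]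
      refine Submodule.sum_mem _ fun X _ => ?_
      by_cases hX : X.card = 2 * d
      · obtain ⟨F', hF', h0⟩ := supp_symm hF (fun h => hF0 (Subtype.ext h)) X hX
        rw [← mul_one (G X), ← smul_eq_mul, Pi.single_smul]
        refine Submodule.smul_mem _ _ (single_mem δ hδ _ hc d
          (Submodule.map_le_iff_le_comap.1 (q3 S hS)) (fun b hb => ?_) hF' h0)
        obtain ⟨b, -, rfl⟩ := mem_map.1 hb
        exact St_comap δ hδ _ hc d (by simp) (q2 b)
      · rw [hG.1 X hX]; simp
    have a2 := Submodule.finrank_mono (Submodule.map_le_iff_le_comap.2 a1)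
    have a3 := key (t + 2) ∅
    have a4 := Hm_one (L := K) d hn
    have a5 := HL (K := K) (ι := Fin 0) n (2 * d) d ∅
    rw [finrank_WF_empty, Fintype.card_fin] at a5
    simp only [card_empty, zero_add] at a3 a5
    omega

end Pool.Agent.P.MP_3acc10_al
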