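import Mathlib

set_option autoImplicit false

namespace Pool.Agent.P.MP_3acc10_al.Hd

open Finset

variable {n : ℕ}

/-- raising operator -/
def up (f : Finset (Fin n) → ℝ) (A : Finset (Fin n)) : ℝ := ∑ a ∈ A, f (A.erase a)

/-- lowering operator -/
def dn (f : Finset (Fin n) → ℝ) (A : Finset (Fin n)) : ℝ := ∑ a ∈ Aᶜ, f (insert a A)

/-- supported on one level -/
def Lv (i : ℕ) (f : Finset (Fin n) → ℝ) : Prop := ∀ A, A.card ≠ i → f A = 0

lemma adj (f g : Finset (Fin n) → ℝ) : ∑ A, up f A * g A = ∑ B, f B * dn g B := by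
  have h1 : ∀ A : Finset (Fin n), up f A * g A =
      ∑ a, if a ∈ A then f (A.erase a) * g A else 0 := by
    intro A
    rw [up, sum_mul, ← sum_filter]
    exact sum_congr (by ext; simp) fun _ _ => rfl
  have h2 : ∀ B : Finset (Fin n), f B * dn g B =
      ∑ a, if a ∉ B then f B * g (insert a B) else 0 := by
    intro B
    rw [dn, mul_sum, ← sum_filter]
    exact sum_congr (by ext; simp) fun _ _ => rfl
  simp only [h1, h2]
  rw [sum_comm, sum_comm (f := fun (B : Finset (Fin n)) a =>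
    if a ∉ B then f B * g (insert a B) else 0)]
  refine sum_congr rfl fun a _ => ?_
  rw [← sum_filter, ← sum_filter]
  refine sum_bij' (fun Y _ => Y.erase a) (fun Y _ => insert a Y) (by simp) (by simp)
    (fun Y hY => insert_erase (mem_filter.1 hY).2)
    (fun Y hY => erase_insert (mem_filter.1 hY).2) fun Y hY => ?_
  rw [insert_erase (mem_filter.1 hY).2]

lemma dn_up (G : Finset (Fin n) → ℝ) (T : Finset (Fin n)) :
    dn (up G) T = up (dn G) T + ((n : ℝ) - 2 * T.card) * G T := by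
  have hc : T.card ≤ n := by simpa using card_le_univ T
  have h1 : dn (up G) T = ((n : ℝ) - T.card) * G T +
      ∑ x ∈ Tᶜ, ∑ y ∈ T, G (insert x (T.erase y)) := by
    rw [dn, show ((n : ℝ) - T.card) * G T = ∑ x ∈ Tᶜ, G T by simp [card_compl, Nat.cast_sub hc],
      ← sum_add_distrib]
    refine sum_congr rfl fun x hx => ?_
    have hx := mem_compl.1 hx
    rw [up, sum_insert hx, erase_insert hx]
    congr 1
    exact sum_congr rfl fun y hy => by rw [erase_insert_of_ne (ne_of_mem_of_not_mem hy hx).symm]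
  have h2 : up (dn G) T = T.card * G T + ∑ y ∈ T, ∑ x ∈ Tᶜ, G (insert x (T.erase y)) := by
    rw [up, show (T.card : ℝ) * G T = ∑ x ∈ T, G T by simp, ← sum_add_distrib]
    refine sum_congr rfl fun y hy => ?_
    rw [dn, compl_erase, sum_insert (by simpa using hy), insert_erase hy]
  rw [h1, h2, sum_comm]
  ring

lemma Lv.dn {i : ℕ} {f : Finset (Fin n) → ℝ} (h : Lv (i + 1) f) : Lv i (dn f) := fun T hT =>
  sum_eq_zero fun x hx => h _ (by rw [card_insert_of_notMem (mem_compl.1 hx)]; omega)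

lemma sum_dn {i : ℕ} {f : Finset (Fin n) → ℝ} (h : Lv i f) : ∑ A, dn f A = i * ∑ A, f A := by
  have := adj (fun _ => 1) f
  simp only [one_mul] at this
  rw [← this, mul_sum]
  refine sum_congr rfl fun A _ => ?_
  by_cases hA : A.card = i
  · simp [up, hA]
  · simp [h A hA]

lemma sum_up {i : ℕ} {f : Finset (Fin n) → ℝ} (h : Lv i f) :
    ∑ A, up f A = ((n : ℝ) - i) * ∑ A, f A := by
  have := adj f (fun _ => 1)
  simp only [mul_one] at this
  rw [this, mul_sum]
  refine sum_congr rfl fun A _ => ?_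
  have hc : A.card ≤ n := by simpa using card_le_univ A
  by_cases hA : A.card = i
  · simp [dn, card_compl, Nat.cast_sub hc, hA.symm, mul_comm]
  · simp [h A hA]

lemma up_sq (i : ℕ) : ∀ f : Finset (Fin n) → ℝ, i < n → Lv i f → ∑ A, f A = 0 →
    ∑ A, up f A ^ 2 ≤ i * ((n : ℝ) - i - 1) * ∑ A, f A ^ 2 := by
  induction i with
  | zero =>
    intro f _ hf h0
    have : f = 0 := by
      ext A
      by_cases hA : A = ∅
      · rw [sum_eq_single ∅ (fun B _ hB => hf B (by simpa using hB)) (by simp)] at h0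
        rw [hA, h0]; rfl
      · exact hf A (by simpa using hA)
    simp [this, up]
  | succ i ih =>
    intro f hi hf h0
    have h1 := ih (dn f) (by omega) hf.dn (by rw [sum_dn hf, h0, mul_zero])
    have e1 : ∑ A, up (dn f) A * f A = ∑ A, dn f A ^ 2 := by
      rw [adj]; exact sum_congr rfl fun A _ => by ring
    have e2 : ∑ A, up f A ^ 2 = ∑ A, dn f A ^ 2 + ((n : ℝ) - 2 * (i + 1)) * ∑ A, f A ^ 2 := by
      have := adj f (up f)
      rw [← e1, mul_sum, ← sum_add_distrib]
      refine Eq.trans (sum_congr rfl fun A _ => by ring) (this.trans (sum_congr rfl fun A _ => ?_))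
      rw [dn_up]
      by_cases hA : A.card = i + 1
      · rw [hA]; push_cast; ring
      · simp [hf A hA]
    have h2 := sum_mul_sq_le_sq_mul_sq univ (up (dn f)) f
    rw [e1] at h2
    have p1 : 0 ≤ ∑ A, dn f A ^ 2 := sum_nonneg fun _ _ => sq_nonneg _
    have p2 : 0 ≤ ∑ A, f A ^ 2 := sum_nonneg fun _ _ => sq_nonneg _
    have p3 : (0 : ℝ) ≤ i * ((n : ℝ) - i - 1) := by
      have : (i : ℝ) + 1 < n := by exact_mod_cast hi
      exact mul_nonneg (Nat.cast_nonneg _) (by linarith)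
    have h3 : ∑ A, dn f A ^ 2 ≤ i * ((n : ℝ) - i - 1) * ∑ A, f A ^ 2 := by
      rcases p1.eq_or_lt with h | h
      · rw [← h]; positivity
      · refine le_of_mul_le_mul_left ?_ h
        nlinarith [mul_le_mul_of_nonneg_right h1 p2]
    rw [e2]
    push_cast
    nlinarith

/-- sums over the subsets of size `k` -/
def sb (k t : ℕ) (f : Finset (Fin n) → ℝ) (X : Finset (Fin n)) : ℝ :=
  if X.card = k + t then ∑ A ∈ X.powersetCard k, f A else 0

lemma sb_lv (k t : ℕ) (f : Finset (Fin n) → ℝ) : Lv (k + t) (sb k t f) :=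
  fun _ h => if_neg h

lemma sb_zero {k : ℕ} {f : Finset (Fin n) → ℝ} (h : Lv k f) : sb k 0 f = f := by
  ext X
  rw [sb]
  split_ifs with hX
  · rw [← show X.card = k from hX, powersetCard_self, sum_singleton]
  · exact (h X hX).symm

lemma up_sb (k t : ℕ) (f : Finset (Fin n) → ℝ) (X : Finset (Fin n)) :
    up (sb k t f) X = (t + 1) * sb k (t + 1) f X := by
  rw [up]
  by_cases hX : X.card = k + (t + 1)
  · have h1 : ∀ a ∈ X, sb k t f (X.erase a) =
        ∑ A ∈ X.powersetCard k, if a ∉ A then f A else 0 := by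
      intro a ha
      rw [sb, if_pos (by rw [card_erase_of_mem ha]; omega), ← sum_filter]
      refine sum_congr ?_ fun _ _ => rfl
      ext A
      simp only [mem_powersetCard, mem_filter, subset_erase]
      tauto
    rw [sum_congr rfl h1, sum_comm, sb, if_pos hX, mul_sum]
    refine sum_congr rfl fun A hA => ?_
    have hA := mem_powersetCard.1 hA
    rw [← sum_filter, sum_const, nsmul_eq_mul, ← sdiff_eq_filter, card_sdiff_of_subset hA.1,
      show X.card - A.card = t + 1 by omega]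
    push_cast; rfl
  · rw [sb, if_neg hX, mul_zero]
    exact sum_eq_zero fun a ha => if_neg (by rw [← card_erase_add_one ha] at hX; omega)

lemma sb_sq {k : ℕ} (hk : 0 < k) {f : Finset (Fin n) → ℝ} (h : Lv k f) (h0 : ∑ A, f A = 0) :
    ∀ t, k + t ≤ n → ∑ X, sb k t f X = 0 ∧
      (∑ X, sb k t f X ^ 2) * ((k + t) * ((n : ℝ) - k)) ≤
        k * ((n : ℝ) - k - t) * ((k + t).choose k * (n - k).choose t) * ∑ A, f A ^ 2 := by
  intro t
  induction t with
  | zero => intro _; rw [sb_zero h]; exact ⟨h0, by simp [mul_comm]⟩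
  | succ t ih =>
    intro ht
    obtain ⟨a1, a2⟩ := ih (by omega)
    have b1 := sum_up (sb_lv k t f)
    have b2 := up_sq (k + t) _ (by omega) (sb_lv k t f) a1
    simp only [up_sb] at b1 b2
    rw [a1, mul_zero, ← mul_sum] at b1
    have t0 : (0 : ℝ) < t + 1 := by positivity
    refine ⟨(mul_eq_zero.1 b1).resolve_left t0.ne', ?_⟩
    simp only [mul_pow, ← mul_sum] at b2
    have c1 : ((k + t).choose k : ℝ) * (k + t + 1) = (k + (t + 1)).choose k * (t + 1) := by
      have := Nat.choose_mul_succ_eq (k + t) k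
      rw [show k + t + 1 - k = t + 1 by omega] at this
      exact_mod_cast this
    have c2 : ((n - k).choose (t + 1) : ℝ) * (t + 1) = (n - k).choose t * ((n : ℝ) - k - t) := by
      have := Nat.choose_succ_right_eq (n - k) t
      have e : ((n - k - t : ℕ) : ℝ) = (n : ℝ) - k - t := by
        rw [Nat.cast_sub (by omega), Nat.cast_sub (by omega)]
      rw [← e]
      exact_mod_cast this
    have ht' : (k : ℝ) + (t + 1) ≤ n := by exact_mod_cast ht
    have k0 : (0 : ℝ) < k := by exact_mod_cast hk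
    have t1 : (0 : ℝ) ≤ t := Nat.cast_nonneg _
    refine le_of_mul_le_mul_left ?_ (pow_pos t0 2)
    push_cast at b2 ⊢
    set S := ∑ X, sb k (t + 1) f X ^ 2
    set R := ∑ X, sb k t f X ^ 2
    set Q := ∑ A, f A ^ 2
    have d1 := mul_le_mul_of_nonneg_right b2
      (show (0 : ℝ) ≤ (k + (t + 1)) * (n - k) from mul_nonneg (by linarith) (by linarith))
    have d2 := mul_le_mul_of_nonneg_right a2
      (show (0 : ℝ) ≤ (n - (k + t) - 1) * (k + (t + 1)) from
        mul_nonneg (by linarith) (by linarith))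
    have d3 : (t + 1 : ℝ) ^ 2 * (k * (n - k - (t + 1)) *
        ((k + (t + 1)).choose k * (n - k).choose (t + 1)) * Q) =
        k * (n - k - (t + 1)) * (((k + (t + 1)).choose k * (t + 1)) *
          ((n - k).choose (t + 1) * (t + 1))) * Q := by ring
    rw [d3, ← c1, c2]
    nlinarith

/-- differences of nested members of two families -/
def cov (𝒜 𝒳 : Finset (Finset (Fin n))) : Finset (Finset (Fin n)) :=
  ((𝒜 ×ˢ 𝒳).filter fun p => p.1 ⊆ p.2).image fun p => p.2 \ p.1

lemma mem_cov {𝒜 𝒳 : Finset (Finset (Fin n))} {C : Finset (Fin n)} :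
    C ∈ cov 𝒜 𝒳 ↔ ∃ A ∈ 𝒜, ∃ X ∈ 𝒳, A ⊆ X ∧ X \ A = C := by
  simp only [cov, mem_image, mem_filter, mem_product, Prod.exists]
  constructor
  · rintro ⟨A, X, ⟨⟨h1, h2⟩, h3⟩, h4⟩
    exact ⟨A, h1, X, h2, h3, h4⟩
  · rintro ⟨A, h1, X, h2, h3, h4⟩
    exact ⟨A, X, ⟨⟨h1, h2⟩, h3⟩, h4⟩

lemma cov_mono {𝒜 𝒜' 𝒳 : Finset (Finset (Fin n))} (h : 𝒜 ⊆ 𝒜') : cov 𝒜 𝒳 ⊆ cov 𝒜' 𝒳 := by
  intro C hC
  obtain ⟨A, h1, X, h2, h3⟩ := mem_cov.1 hC
  exact mem_cov.2 ⟨A, h h1, X, h2, h3⟩

lemma pairs_le {k d : ℕ} {𝒜 𝒳 : Finset (Finset (Fin n))} (hA : ∀ A ∈ 𝒜, A.card = k)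
    (hX : ∀ X ∈ 𝒳, X.card = k + d) :
    ∑ X ∈ 𝒳, (𝒜.filter (· ⊆ X)).card ≤ (n - d).choose k * (cov 𝒜 𝒳).card := by
  have e : ∑ X ∈ 𝒳, (𝒜.filter (· ⊆ X)).card = ((𝒜 ×ˢ 𝒳).filter fun p => p.1 ⊆ p.2).card := by
    rw [card_filter, sum_product_right]
    exact sum_congr rfl fun X _ => card_filter _ _
  rw [e]
  refine card_le_mul_card_image _ _ fun C hC => ?_
  obtain ⟨A0, h1, X0, h2, h3, h4⟩ := mem_cov.1 hC
  have hc : Cᶜ.card = n - d := by
    rw [card_compl, ← h4, card_sdiff_of_subset h3, hA _ h1, hX _ h2]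
    simp
  rw [← hc, ← card_powersetCard]
  refine card_le_card_of_injOn Prod.fst (fun p hp => ?_) fun p hp q hq e => ?_
  · simp only [coe_filter, mem_filter, mem_product, Set.mem_ofPred_eq] at hp
    refine mem_coe.2 (mem_powersetCard.2 ⟨fun x hx => ?_, hA _ hp.1.1.1⟩)
    rw [← hp.2]
    simp [hx]
  · simp only [coe_filter, mem_filter, mem_product, Set.mem_ofPred_eq] at hp hq
    refine Prod.ext e ?_
    rw [← union_sdiff_of_subset hp.1.2, ← union_sdiff_of_subset hq.1.2, hp.2, hq.2, e]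

/-- centred indicator function -/
noncomputable def cen (k : ℕ) (𝒜 : Finset (Finset (Fin n))) (A : Finset (Fin n)) : ℝ :=
  (if A ∈ 𝒜 then 1 else 0) - if A.card = k then (𝒜.card : ℝ) / n.choose k else 0

lemma sum_lv (k : ℕ) (x : ℝ) :
    ∑ A : Finset (Fin n), (if A.card = k then x else 0) = n.choose k * x := by
  rw [← sum_filter, sum_const, nsmul_eq_mul, ← powerset_univ, ← powersetCard_eq_filter,
    card_powersetCard, card_univ, Fintype.card_fin]

lemma cen_spec {k : ℕ} (hk : k ≤ n) {𝒜 : Finset (Finset (Fin n))} (hA : ∀ A ∈ 𝒜, A.card = k) :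
    Lv k (cen k 𝒜) ∧ ∑ A, cen k 𝒜 A = 0 ∧ ∑ A, cen k 𝒜 A ^ 2 =
      n.choose k * (𝒜.card / n.choose k * (1 - 𝒜.card / n.choose k)) := by
  have h0 : (n.choose k : ℝ) ≠ 0 := by exact_mod_cast (Nat.choose_pos hk).ne'
  have h1 : ∀ y : ℝ, ∑ A : Finset (Fin n), (if A ∈ 𝒜 then y else 0) = 𝒜.card * y := by
    intro y; simp
  refine ⟨fun A h => ?_, ?_, ?_⟩
  · rw [cen, if_neg h, if_neg fun e => h (hA A e), sub_zero]
  · simp only [cen, sum_sub_distrib, h1, sum_lv]
    field_simp
    ring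
  · have : ∀ A, cen k 𝒜 A ^ 2 = (if A ∈ 𝒜 then 1 - 2 * ((𝒜.card : ℝ) / n.choose k) else 0) +
        if A.card = k then ((𝒜.card : ℝ) / n.choose k) ^ 2 else 0 := by
      intro A
      rw [cen]
      by_cases h : A ∈ 𝒜
      · simp only [h, hA A h, if_true]; ring
      · simp only [h, if_false]
        split_ifs <;> ring
    simp only [this, sum_add_distrib, h1, sum_lv]
    field_simp
    ring

lemma dens_le {k : ℕ} {𝒜 : Finset (Finset (Fin n))} (hA : ∀ A ∈ 𝒜, A.card = k) :
    𝒜.card ≤ n.choose k := by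
  have : 𝒜 ⊆ univ.powersetCard k := fun A h => mem_powersetCard.2 ⟨subset_univ _, hA A h⟩
  simpa using card_le_card this

/-- averaging bound and mixing bound -/
theorem cov_ge {k d : ℕ} (hk : 0 < k) (hd : 0 < d) (hn : k + d ≤ n)
    {𝒜 𝒳 : Finset (Finset (Fin n))}
    (hA : ∀ A ∈ 𝒜, A.card = k) (hX : ∀ X ∈ 𝒳, X.card = k + d) {x b : ℝ}
    (hx : x = 𝒜.card / n.choose k) (hb : b = 𝒳.card / n.choose (k + d)) :
    x + b - 1 ≤ (cov 𝒜 𝒳).card / n.choose d ∧ ∀ Λ : ℝ, 0 ≤ Λ →
      k * ((n : ℝ) - k - d) ≤ Λ ^ 2 * ((k + d) * ((n : ℝ) - k)) →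
      x * b - Λ * √(x * (1 - x) * (b * (1 - b))) ≤ (cov 𝒜 𝒳).card / n.choose d := by
  obtain ⟨f1, f2, f3⟩ := cen_spec (by omega : k ≤ n) hA
  obtain ⟨g1, g2, g3⟩ := cen_spec hn hX
  obtain ⟨s1, s2⟩ := sb_sq hk f1 f2 d hn
  rw [← hx] at f3
  rw [← hb] at g3
  have p1 : (0 : ℝ) < n.choose k := by exact_mod_cast Nat.choose_pos (by omega)
  have p2 : (0 : ℝ) < n.choose (k + d) := by exact_mod_cast Nat.choose_pos hn
  have p3 : (0 : ℝ) < n.choose d := by exact_mod_cast Nat.choose_pos (by omega)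
  have p4 : (0 : ℝ) < (k + d).choose k := by exact_mod_cast Nat.choose_pos (by omega)
  have m1 : (n.choose (k + d) : ℝ) * (k + d).choose k = n.choose k * (n - k).choose d := by
    have := Nat.choose_mul (n := n) (k := k + d) (s := k) (by omega)
    rw [Nat.add_sub_cancel_left] at this
    exact_mod_cast this
  have m2 : (n.choose (k + d) : ℝ) * (k + d).choose k = n.choose d * (n - d).choose k := by
    have := Nat.choose_mul (n := n) (k := k + d) (s := d) (by omega)
    rw [Nat.add_sub_cancel, ← Nat.choose_symm_add] at this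
    exact_mod_cast this
  set M : ℝ := n.choose (k + d) * (k + d).choose k with hM
  have pM : 0 < M := mul_pos p2 p4
  set g := sb k d (cen k 𝒜) with hg
  have e1 : ∀ X : Finset (Fin n), X.card = k + d →
      g X = (𝒜.filter (· ⊆ X)).card - x * (k + d).choose k := by
    intro X h
    rw [hg, sb, if_pos h]
    simp only [cen, sum_sub_distrib]
    congr 1
    · rw [← sum_filter, sum_const, nsmul_eq_mul, mul_one]
      congr 2
      ext A
      simp only [mem_filter, mem_powersetCard]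
      exact ⟨fun h => ⟨h.2, h.1.1⟩, fun h => ⟨⟨h.2, hA A h.1⟩, h.1⟩⟩
    · rw [sum_congr rfl fun A hA => if_pos (mem_powersetCard.1 hA).2, sum_const, nsmul_eq_mul,
        card_powersetCard, h, ← hx, mul_comm]
  have e2 : (𝒳.card : ℝ) = b * n.choose (k + d) := by rw [hb, div_mul_cancel₀ _ p2.ne']
  have e3 : ∑ X ∈ 𝒳, g X + x * b * M ≤ M * ((cov 𝒜 𝒳).card / n.choose d) := by
    have h1 : ((∑ X ∈ 𝒳, (𝒜.filter (· ⊆ X)).card : ℕ) : ℝ) ≤
        ((n - d).choose k * (cov 𝒜 𝒳).card : ℕ) := by exact_mod_cast pairs_le hA hX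
    push_cast at h1
    rw [sum_congr rfl fun X h => e1 X (hX X h), sum_sub_distrib, sum_const, nsmul_eq_mul, e2]
    have : M * ((cov 𝒜 𝒳).card / n.choose d) = (n - d).choose k * (cov 𝒜 𝒳).card := by
      rw [m2, mul_comm (n.choose d : ℝ), mul_assoc, mul_div_cancel₀ _ p3.ne']
    rw [this, hM]
    linarith
  constructor
  · refine le_of_mul_le_mul_left (le_trans ?_ e3) pM
    have h1 : ∑ X ∈ 𝒳ᶜ, g X ≤ ∑ X ∈ 𝒳ᶜ, if X.card = k + d then
        (1 - x) * ((k + d).choose k : ℝ) else 0 := by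
      refine sum_le_sum fun X _ => ?_
      split_ifs with h
      · have : (𝒜.filter (· ⊆ X)).card ≤ (k + d).choose k := by
          rw [← h, ← card_powersetCard]
          exact card_le_card fun A hA' =>
            mem_powersetCard.2 ⟨(mem_filter.1 hA').2, hA A (mem_filter.1 hA').1⟩
        have : ((𝒜.filter (· ⊆ X)).card : ℝ) ≤ (k + d).choose k := by exact_mod_cast this
        rw [e1 X h]
        linarith
      · exact (sb_lv k d _ X h).le
    have h2 := sum_add_sum_compl 𝒳 g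
    have h3 := sum_add_sum_compl 𝒳 fun X => if X.card = k + d then
        (1 - x) * ((k + d).choose k : ℝ) else 0
    rw [sum_lv, sum_congr rfl fun X h => if_pos (hX X h), sum_const, nsmul_eq_mul, e2] at h3
    rw [s1] at h2
    rw [hM]
    linarith
  · intro Λ hΛ h
    refine le_of_mul_le_mul_left (le_trans ?_ e3) pM
    have h1 : ∑ X, cen (k + d) 𝒳 X * g X = ∑ X ∈ 𝒳, g X := by
      have : ∀ X, cen (k + d) 𝒳 X * g X = (if X ∈ 𝒳 then g X else 0) - b * g X := by
        intro X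
        rw [cen, ← hb]
        by_cases h : X.card = k + d
        · rw [if_pos h]; split_ifs <;> ring
        · rw [show g X = 0 from sb_lv k d _ X h]; simp
      simp only [this, sum_sub_distrib, ← mul_sum, s1]
      simp
    have h2 := sum_mul_sq_le_sq_mul_sq univ (cen (k + d) 𝒳) g
    rw [h1, g3] at h2
    have q1 : 0 ≤ ∑ A, cen k 𝒜 A ^ 2 := sum_nonneg fun _ _ => sq_nonneg _
    have q2 : 0 ≤ ∑ A, cen (k + d) 𝒳 A ^ 2 := sum_nonneg fun _ _ => sq_nonneg _
    have q3 : (0 : ℝ) < (k + d) * ((n : ℝ) - k) := by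
      have : (k : ℝ) < n := by exact_mod_cast (by omega : k < n)
      have : (0 : ℝ) < k := by exact_mod_cast hk
      exact mul_pos (by positivity) (by linarith)
    have h3 : ∑ X, g X ^ 2 ≤
        Λ ^ 2 * ((k + d).choose k * (n - k).choose d) * ∑ A, cen k 𝒜 A ^ 2 := by
      refine le_of_mul_le_mul_right (s2.trans ?_) q3
      have := mul_le_mul_of_nonneg_right h (show (0 : ℝ) ≤
        ((k + d).choose k * (n - k).choose d) * ∑ A, cen k 𝒜 A ^ 2 by positivity)
      linarith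
    rw [g3] at q2
    rw [f3] at h3 q1
    have q4 : 0 ≤ x * (1 - x) * (b * (1 - b)) :=
      mul_nonneg (nonneg_of_mul_nonneg_right q1 p1) (nonneg_of_mul_nonneg_right q2 p2)
    have h4 : (∑ X ∈ 𝒳, g X) ^ 2 ≤ (M * (Λ * √(x * (1 - x) * (b * (1 - b))))) ^ 2 := by
      refine (h2.trans (mul_le_mul_of_nonneg_left h3 q2)).trans_eq ?_
      have e4 : M ^ 2 = (n.choose (k + d) * (k + d).choose k) *
          (n.choose k * (n - k).choose d) := by rw [← m1, ← hM, pow_two]
      rw [mul_pow M, mul_pow Λ, Real.sq_sqrt q4, e4]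
      ring
    have h5 := (abs_le_of_sq_le_sq' h4 (by positivity)).1
    linarith

end Pool.Agent.P.MP_3acc10_al.Hd
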