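import Pool.Agent.P.MP_3acc10_al.HdBase
import Pool.Agent.P.MP_3acc10_al.HdMix

set_option autoImplicit false

namespace Pool.Agent.P.MP_3acc10_al.Hd

open Module Finset

variable {L : Type*} [Field L] {n : ℕ}

lemma finrank_le_add {V V' : Type*} [AddCommGroup V] [Module L V] [AddCommGroup V'] [Module L V']
    [FiniteDimensional L V] [FiniteDimensional L V'] (W W0 : Submodule L V) (R : Submodule L V')
    (f : V →ₗ[L] V') (h1 : ∀ x ∈ W, f x ∈ R) (h2 : ∀ x ∈ W, f x = 0 → x ∈ W0) :
    finrank L W ≤ finrank L R + finrank L W0 := by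
  rw [← LinearMap.finrank_range_add_finrank_ker (f.domRestrict W)]
  refine add_le_add (Submodule.finrank_mono ?_) ?_
  · rintro _ ⟨x, rfl⟩
    exact h1 x x.2
  · rw [← Submodule.finrank_map_subtype_eq]
    refine Submodule.finrank_mono ?_
    rintro _ ⟨x, hx, rfl⟩
    exact h2 x x.2 hx

lemma rank_null {V V' : Type*} [AddCommGroup V] [Module L V] [AddCommGroup V'] [Module L V']
    [FiniteDimensional L V] (U : Submodule L V) (f : V →ₗ[L] V') :
    finrank L (U.map f) + finrank L ↥(U ⊓ LinearMap.ker f) = finrank L U := by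
  rw [← LinearMap.finrank_range_add_finrank_ker (f.domRestrict U), LinearMap.range_domRestrict,
    LinearMap.ker_domRestrict, ← Submodule.finrank_map_subtype_eq U, Submodule.map_comap_subtype]

section
variable {α β : Type*} [Fintype α] [LinearOrder β]

open Classical in
/-- leading positions of a space of functions for a weight -/
noncomputable def ld (w : α → β) (Z : Submodule L (α → L)) : Finset α :=
  univ.filter fun X => ∃ F ∈ Z, F X ≠ 0 ∧ ∀ Y, w X < w Y → F Y = 0

lemma mem_ld {w : α → β} {Z : Submodule L (α → L)} {X : α} :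
    X ∈ ld w Z ↔ ∃ F ∈ Z, F X ≠ 0 ∧ ∀ Y, w X < w Y → F Y = 0 := by simp [ld]

lemma ld_mono {w : α → β} {Z Z' : Submodule L (α → L)} (h : Z ≤ Z') : ld w Z ⊆ ld w Z' := by
  intro X hX
  obtain ⟨F, h1, h2⟩ := mem_ld.1 hX
  exact mem_ld.2 ⟨F, h h1, h2⟩

lemma card_ld {w : α → β} (hw : Function.Injective w) (Z : Submodule L (α → L)) :
    (ld w Z).card = finrank L Z := by
  classical
  apply le_antisymm
  · choose F hF h1 h2 using fun X : ld w Z => mem_ld.1 X.2
    have : LinearIndependent L fun X : ld w Z => (⟨F X, hF X⟩ : Z) := by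
      rw [Fintype.linearIndependent_iff]
      intro a ha
      by_contra hne
      push Not at hne
      obtain ⟨X0, hX0⟩ := hne
      obtain ⟨X, hX, hmax⟩ := exists_max_image (univ.filter fun X => a X ≠ 0) (fun X => w X.1)
        ⟨X0, by simpa using hX0⟩
      have h3 := congrFun (congrArg Subtype.val ha) X
      simp only [Submodule.coe_sum, Submodule.coe_smul, Finset.sum_apply, Pi.smul_apply,
        smul_eq_mul, Submodule.coe_zero, Pi.zero_apply] at h3
      rw [sum_eq_single X (fun Y _ hY => ?_) (by simp)] at h3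
      · exact mul_ne_zero (mem_filter.1 hX).2 (h1 X) h3
      · by_cases hY' : a Y = 0
        · rw [hY', zero_mul]
        · rw [h2 Y X ((hmax Y (by simpa using hY')).lt_of_ne
            fun e => hY (Subtype.ext (hw e))), mul_zero]
    simpa using this.fintype_card_le_finrank
  · have := finrank_le_sum Z (ld w Z) (fun X => LinearMap.proj X) (fun _ => ⊤) (by simp)
      (fun F hF h => by
        by_contra hne
        obtain ⟨X0, hX0⟩ := Function.ne_iff.1 hne
        obtain ⟨X, hX, hmax⟩ := exists_max_image (univ.filter fun X => F X ≠ 0) w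
          ⟨X0, by simpa using hX0⟩
        refine (mem_filter.1 hX).2 (h X (mem_ld.2 ⟨F, hF, (mem_filter.1 hX).2, fun Y hY => ?_⟩))
        by_contra hY'
        exact absurd (hmax Y (by simpa using hY')) (not_le.2 hY))
    simpa using this

end

/-- functions on the sets of size `k` -/
abbrev lev (L : Type*) [Field L] (n k : ℕ) : Submodule L (Finset (Fin n) → L) :=
  Supp L fun X => X.card = k

lemma finrank_lev (k : ℕ) : finrank L (lev L n k) = n.choose k := by
  rw [finrank_Supp_eq, ← powerset_univ, ← powersetCard_eq_filter, card_powersetCard, card_univ,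
    Fintype.card_fin]

lemma ld_card {β : Type*} [LinearOrder β] {w : Finset (Fin n) → β} {k : ℕ}
    {Z : Submodule L (Finset (Fin n) → L)} (h : Z ≤ lev L n k) : ∀ X ∈ ld w Z, X.card = k := by
  intro X hX
  obtain ⟨F, h1, h2, -⟩ := mem_ld.1 hX
  by_contra hne
  exact h2 (h h1 X hne)

def wz (X : Finset (Fin n)) : ℤ := wt X

def wn (X : Finset (Fin n)) : ℤ := -wt X

lemma wz_inj : Function.Injective (wz (n := n)) := fun _ _ h => wt_inj (Int.ofNat_injective h)

lemma wn_inj : Function.Injective (wn (n := n)) := fun _ _ h => wz_inj (neg_injective h)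

lemma zero_act (F : Finset (Fin n) → L) : act 0 F = 0 := by
  ext T; simp [act]

lemma act_lev {a j : ℕ} {u G : Finset (Fin n) → L} (hu : u ∈ lev L n a) (hG : G ∈ lev L n j)
    (T : Finset (Fin n)) (hT : ¬ T.card + a = j) : act u G T = 0 := by
  refine sum_eq_zero fun Y _ => ?_
  split_ifs with hdis
  · by_cases hY : Y.card = a
    · rw [hG _ (by simp only [card_union_of_disjoint hdis]; omega), mul_zero]
    · rw [hu Y hY, zero_mul]
  · rfl

lemma ld_act {u G : Finset (Fin n) → L} {A X : Finset (Fin n)} (u1 : u A ≠ 0)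
    (u2 : ∀ Y, wn A < wn Y → u Y = 0) (g1 : G X ≠ 0) (g2 : ∀ Y, wz X < wz Y → G Y = 0)
    (h : A ⊆ X) : act u G (X \ A) ≠ 0 ∧ ∀ T, wz (X \ A) < wz T → act u G T = 0 := by
  have e1 : wt X = wt (X \ A) + wt A := (sum_sdiff h).symm
  have key : ∀ Y T, Disjoint Y T → u Y * G (Y ∪ T) ≠ 0 → wt A ≤ wt Y ∧ wt Y + wt T ≤ wt X := by
    intro Y T hd hne
    have e2 : wt (Y ∪ T) = wt Y + wt T := sum_union hd
    have a1 := mt (u2 Y) (left_ne_zero_of_mul hne)
    have a2 := mt (g2 _) (right_ne_zero_of_mul hne)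
    simp only [wn, wz] at a1 a2
    omega
  constructor
  · rw [act, sum_eq_single A (fun Y _ hY => ?_) (by simp), if_pos disjoint_sdiff,
      union_sdiff_of_subset h]
    · exact mul_ne_zero u1 g1
    · split_ifs with hd
      · by_contra hne
        have := key Y _ hd hne
        exact hY (wt_inj (by omega))
      · rfl
  · intro T hT
    refine sum_eq_zero fun Y _ => ?_
    split_ifs with hd
    · by_contra hne
      have := key Y _ hd hne
      simp only [wz] at hT
      omega
    · rfl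

lemma cov_le {J T R : Submodule L (Finset (Fin n) → L)} (h : ∀ u ∈ J, ∀ G ∈ T, act u G ∈ R) :
    (cov (ld wn J) (ld wz T)).card ≤ finrank L R := by
  rw [← card_ld wz_inj]
  refine card_le_card fun C hC => ?_
  obtain ⟨A, h1, X, h2, h3, rfl⟩ := mem_cov.1 hC
  obtain ⟨u, hu, u1, u2⟩ := mem_ld.1 h1
  obtain ⟨G, hG, g1, g2⟩ := mem_ld.1 h2
  exact mem_ld.2 ⟨_, h u hu G hG, ld_act u1 u2 g1 g2 h3⟩

lemma dot_act (a b F : Finset (Fin n) → L) : a ⬝ᵥ act b F = b ⬝ᵥ act a F := by
  simp only [dotProduct, act, mul_sum]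
  rw [sum_comm]
  refine sum_congr rfl fun Y _ => sum_congr rfl fun T _ => ?_
  rw [union_comm]
  by_cases h : Disjoint Y T
  · rw [if_pos h, if_pos h.symm]; ring
  · rw [if_neg h, if_neg fun e => h e.symm]; ring

/-- contractions of `F` by forms of degree `k` -/
def Ak (k : ℕ) (F : Finset (Fin n) → L) : Submodule L (Finset (Fin n) → L) :=
  (lev L n k).map (actL.flip F)

/-- forms of degree `k` which kill `F` -/
def Jk (k : ℕ) (F : Finset (Fin n) → L) : Submodule L (Finset (Fin n) → L) :=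
  lev L n k ⊓ LinearMap.ker (actL.flip F)

lemma mem_Jk {k : ℕ} {F u : Finset (Fin n) → L} : u ∈ Jk k F ↔ u ∈ lev L n k ∧ act u F = 0 :=
  Iff.rfl

lemma Ak_add_Jk (k : ℕ) (F : Finset (Fin n) → L) :
    finrank L (Ak k F) + finrank L (Jk k F) = n.choose k := by
  rw [← finrank_lev (L := L) k]
  exact rank_null _ _

lemma eq_zero_of_dot {d : ℕ} {H : Finset (Fin n) → L} (h1 : ∀ T, ¬ T.card = d → H T = 0)
    (h2 : ∀ Y : Finset (Fin n), Y.card = d → Pi.single Y 1 ⬝ᵥ H = 0) : H = 0 := by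
  ext T
  by_cases hT : T.card = d
  · simpa using h2 T hT
  · exact h1 T hT

lemma single_lev {Y : Finset (Fin n)} {d : ℕ} (h : Y.card = d) :
    (Pi.single Y 1 : Finset (Fin n) → L) ∈ lev L n d := fun X hX =>
  Pi.single_eq_of_ne (fun e => hX (by rw [e]; exact h)) _

lemma le_Ak_add_Jk {k d : ℕ} {F : Finset (Fin n) → L} (hF : F ∈ lev L n (k + d)) :
    n.choose k ≤ finrank L (Ak d F) + finrank L (Jk k F) := by
  let φ : (Finset (Fin n) → L) →ₗ[L] Dual L (Ak d F) :=
    (Ak d F).subtype.dualMap ∘ₗ dotProductBilin L L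
  have := finrank_le_add (lev L n k) (Jk k F) ⊤ φ (by simp) fun u hu h0 =>
    ⟨hu, eq_zero_of_dot (d := d) (fun T hT => act_lev hu hF T (by omega)) fun Y hY => by
      have := LinearMap.congr_fun h0 ⟨_, Pi.single Y 1, single_lev hY, rfl⟩
      exact (dot_act _ _ _).trans this⟩
  rwa [finrank_lev, finrank_top, Subspace.dual_finrank_eq] at this

lemma Jk_zero {j : ℕ} {F : Finset (Fin n) → L} (h0 : F ≠ 0) : finrank L (Jk (j - j) F) = 0 := by
  rw [Submodule.finrank_eq_zero, eq_bot_iff, Nat.sub_self]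
  rintro u ⟨h1, h2⟩
  obtain ⟨X, hX⟩ := Function.ne_iff.1 h0
  have h3 : act u F X = 0 := congrFun h2 X
  rw [act, sum_eq_single ∅ (fun Y _ hY => by rw [h1 Y (by simpa using hY)]; simp) (by simp)] at h3
  have h4 : u ∅ = 0 := by simpa [show F X ≠ 0 from hX] using h3
  ext Y
  by_cases hY : Y = ∅
  · rw [hY, h4]; rfl
  · exact h1 Y (by simpa using hY)

/-- coefficientwise derivative -/
def Dv {α : Type*} (δ : L →+ L) (F : α → L) : α → L := fun X => δ (F X)

lemma Dv_lev (δ : L →+ L) {k : ℕ} {F : Finset (Fin n) → L} (h : F ∈ lev L n k) :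
    Dv δ F ∈ lev L n k := fun X hX => by rw [Dv, h X hX, map_zero]

lemma Dv_zero {α : Type*} (δ : L →+ L) : Dv δ (0 : α → L) = 0 := funext fun _ => map_zero _

lemma Dv_act {δ : L →+ L} (hδ : ∀ x y, δ (x * y) = x * δ y + δ x * y)
    (g F : Finset (Fin n) → L) : Dv δ (act g F) = act g (Dv δ F) + act (Dv δ g) F := by
  ext T
  simp only [Dv, act, map_sum, Pi.add_apply, ← sum_add_distrib]
  refine sum_congr rfl fun Y _ => ?_
  split_ifs
  · exact hδ _ _
  · simp

/-- the tangent space -/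
def Tg {π : Type*} (δ : π → L →+ L) (F : Finset (Fin n) → L) : Submodule L (Finset (Fin n) → L) :=
  Submodule.span L (insert F (Set.range fun p => Dv (δ p) F))

lemma Tg_le {π : Type*} {δ : π → L →+ L} {F : Finset (Fin n) → L}
    {Q : Submodule L (Finset (Fin n) → L)} (h1 : F ∈ Q) (h2 : ∀ p, Dv (δ p) F ∈ Q) :
    Tg δ F ≤ Q := by
  rw [Tg, Submodule.span_le]
  rintro _ (rfl | ⟨p, rfl⟩)
  · exact h1
  · exact h2 p

lemma Tg_lev {π : Type*} (δ : π → L →+ L) {j : ℕ} {F : Finset (Fin n) → L} (h : F ∈ lev L n j) :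
    Tg δ F ≤ lev L n j := Tg_le h fun _ => Dv_lev _ h

lemma act_Tg {π : Type*} {δ : π → L →+ L} (hδ : ∀ p x y, δ p (x * y) = x * δ p y + δ p x * y)
    {k : ℕ} {F : Finset (Fin n) → L} : ∀ u ∈ Jk k F, ∀ G ∈ Tg δ F, act u G ∈ Ak k F := by
  intro u hu
  suffices h : Tg δ F ≤ (Ak k F).comap (actL u) from h
  refine Tg_le ?_ fun p => ?_
  · show act u F ∈ Ak k F
    rw [(mem_Jk.1 hu).2]; exact Submodule.zero_mem _
  · have h := Dv_act (hδ p) u F
    rw [(mem_Jk.1 hu).2, Dv_zero, eq_comm, add_eq_zero_iff_eq_neg] at h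
    show act u (Dv (δ p) F) ∈ Ak k F
    rw [h]
    exact Submodule.neg_mem _ ⟨_, Dv_lev _ hu.1, rfl⟩

section
variable {ι : Type*} [Fintype ι] [DecidableEq ι] {δ : ι × Finset (Fin n) → L →+ L}
  (hδ : ∀ p x y, δ p (x * y) = x * δ p y + δ p x * y)
  {c : ι × Finset (Fin n) → L} (hc : ∀ p q, δ p (c q) = if q = p then 1 else 0) {d : ι → ℕ}

include hc in
omit [Fintype ι] in
lemma Dv_mask (l i : ι) (Y : Finset (Fin n)) (hY : Y.card = d l) :
    Dv (δ (l, Y)) (mask (fun i Y => Y.card = d i) c i) = if i = l then Pi.single Y 1 else 0 := by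
  ext X
  by_cases h1 : i = l <;> by_cases h2 : X = Y <;> by_cases h3 : X.card = d i <;>
    simp_all [Dv, mask]

include hδ hc

lemma low {j : ℕ} {F : Finset (Fin n) → L} (hF : F ∈ WF j d univ c) (h0 : F ≠ 0) :
    ∑ i, finrank L (Ak (d i) F) < finrank L (Tg δ F) := by
  let Φ : (Finset (Fin n) → L) →ₗ[L] (ι → Finset (Fin n) → L) :=
    LinearMap.pi fun i => actL (mask (fun i Y => Y.card = d i) c i)
  let ψ : (∀ i, Ak (d i) F) →ₗ[L] (ι → Finset (Fin n) → L) :=
    LinearMap.pi fun i => (Ak (d i) F).subtype ∘ₗ LinearMap.proj i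
  have hψ : Function.Injective ψ := fun x y h => funext fun i => Subtype.ext (congrFun h i)
  have h1 : ∀ l, ∀ s ∈ Ak (d l) F,
      (Pi.single l s : ι → Finset (Fin n) → L) ∈ (Tg δ F).map Φ := by
    rintro l _ ⟨g, hg, rfl⟩
    suffices h : g ∈ (((Tg δ F).map Φ).comap (LinearMap.single L (fun _ => _) l)).comap
      (actL.flip F) from h
    rw [← univ_sum_single g]
    refine Submodule.sum_mem _ fun Y _ => ?_
    by_cases hY : Y.card = d l
    swap
    · rw [hg Y hY, Pi.single_zero]; exact Submodule.zero_mem _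
    rw [show (Pi.single Y (g Y) : Finset (Fin n) → L) = g Y • Pi.single Y 1 by
      rw [← Pi.single_smul', smul_eq_mul, mul_one]]
    refine Submodule.smul_mem _ _ ⟨-Dv (δ (l, Y)) F,
      Submodule.neg_mem _ (Submodule.subset_span (Or.inr ⟨_, rfl⟩)), ?_⟩
    rw [map_neg]
    funext i
    have h2 := Dv_act (hδ (l, Y)) (mask (fun i Y => Y.card = d i) c i) F
    rw [hF.2 i (mem_univ _), Dv_mask hc l i Y hY, Dv_zero, eq_comm, add_eq_zero_iff_neg_eq] at h2
    refine h2.trans ?_
    by_cases h : i = l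
    · subst h; simp
    · rw [if_neg h, zero_act]
      simp [h]
  have h2 : ∑ i, finrank L (Ak (d i) F) ≤ finrank L ((Tg δ F).map Φ) := by
    rw [← finrank_pi_fintype, ← LinearMap.finrank_range_of_inj hψ]
    refine Submodule.finrank_mono ?_
    rintro _ ⟨x, rfl⟩
    rw [← univ_sum_single (ψ x)]
    exact Submodule.sum_mem _ fun l _ => h1 l _ (x l).2
  have h3 := rank_null (Tg δ F) Φ
  have h4 : finrank L ↥(Tg δ F ⊓ LinearMap.ker Φ) ≠ 0 := by
    rw [Ne, Submodule.finrank_eq_zero]
    intro h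
    have : F ∈ Tg δ F ⊓ LinearMap.ker Φ :=
      ⟨Submodule.subset_span (Or.inl rfl), funext fun i => hF.2 i (mem_univ _)⟩
    rw [h] at this
    exact h0 this
  omega

/-- the square case -/
lemma Tg_le_Jk (h2 : (2 : L) ≠ 0) {j k : ℕ} {F : Finset (Fin n) → L} (hF : F ∈ WF j d univ c)
    {l : ι} (hl : k + d l = j) (hn : k + j = n) : finrank L (Tg δ F) ≤ finrank L (Jk k F) := by
  let hat : (Finset (Fin n) → L) →ₗ[L] (Finset (Fin n) → L) := LinearMap.funLeft L L compl
  have e0 : ∀ G Y, hat G Y = G Yᶜ := fun _ _ => rfl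
  have e1 : ∀ G ∈ lev L n j, hat G ∈ lev L n k := fun G hG Y hY =>
    hG _ (by
      have : Y.card ≤ n := by simpa using card_le_univ Y
      simp only [card_compl, Fintype.card_fin] at hY ⊢
      omega)
  have e2 : ∀ G H, act (hat G) H = act (hat H) G := by
    intro G H
    ext T
    simp only [act, e0, ← sum_filter]
    have a1 : ∀ Y, Disjoint Y T → ((Y ∪ T)ᶜ ∪ T)ᶜ = Y := fun Y h => by
      ext x
      have : x ∈ Y → x ∉ T := fun e => disjoint_left.1 h e
      simp only [mem_compl, mem_union]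
      tauto
    have a2 : ∀ Y : Finset (Fin n), Disjoint (Y ∪ T)ᶜ T := fun Y => by
      rw [disjoint_left]
      intro x
      simp only [mem_compl, mem_union]
      tauto
    refine sum_bij' (fun Y _ => (Y ∪ T)ᶜ) (fun Y _ => (Y ∪ T)ᶜ) (fun Y _ => by simpa using a2 Y)
      (fun Y _ => by simpa using a2 Y) (fun Y hY => a1 Y (mem_filter.1 hY).2)
      (fun Y hY => a1 Y (mem_filter.1 hY).2) fun Y hY => ?_
    rw [compl_compl, mul_comm]
    congr 2
    exact compl_injective (by rw [a1 Y (mem_filter.1 hY).2, compl_compl])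
  have e3 : act (hat F) F = 0 := by
    refine eq_zero_of_dot (d := d l) (fun T hT => act_lev (e1 F hF.1) hF.1 T (by omega))
      fun Y hY => ?_
    have h := Dv_act (hδ (l, Y)) (mask (fun i Y => Y.card = d i) c l) F
    rw [hF.2 l (mem_univ _), Dv_mask hc l l Y hY, Dv_zero, if_pos rfl] at h
    have h' := congrArg (hat F ⬝ᵥ ·) h
    simp only [dotProduct_zero, dotProduct_add] at h'
    rw [dot_act, e2, dot_act, hF.2 l (mem_univ _), dotProduct_zero, zero_add, dot_act] at h'
    exact h'.symm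
  have e4 : Tg δ F ≤ (Jk k F).comap hat := by
    refine Tg_le ⟨e1 F hF.1, e3⟩ fun p => ⟨e1 _ (Dv_lev _ hF.1), ?_⟩
    have h := Dv_act (hδ p) (hat F) F
    rw [e3, Dv_zero, e2, show Dv (δ p) (hat F) = hat (Dv (δ p) F) from rfl, ← two_smul L] at h
    exact (smul_eq_zero.1 h.symm).resolve_left h2
  have := finrank_le_add (Tg δ F) ⊥ (Jk k F) hat (fun G hG => e4 hG) fun G _ h => by
    ext Y
    simpa [e0] using congrFun h Yᶜ
  simpa using this

end

end Pool.Agent.P.MP_3acc10_al.Hd
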