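import Mathlib
import Pool.Agent.P.MP_3acc10_al.Defs

set_option autoImplicit false

namespace Pool.Agent.P.MP_3acc10_al.Hd

section
open MvPolynomial Module

variable {K : Type*} [Field K]

/-- holds on a nonempty principal Zariski open set -/
def Gen {τ : Type*} (Φ : (τ → K) → Prop) : Prop :=
  ∃ P : MvPolynomial τ K, P ≠ 0 ∧ ∀ c, eval c P ≠ 0 → Φ c

section
variable {τ : Type*} {Φ Ψ : (τ → K) → Prop}

lemma Gen.mono (h : Gen Φ) (hi : ∀ c, Φ c → Ψ c) : Gen Ψ := by
  obtain ⟨P, hP, h⟩ := h
  exact ⟨P, hP, fun c hc => hi c (h c hc)⟩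

lemma Gen.and (h : Gen Φ) (h' : Gen Ψ) : Gen fun c => Φ c ∧ Ψ c := by
  obtain ⟨P, hP, h⟩ := h
  obtain ⟨Q, hQ, h'⟩ := h'
  refine ⟨P * Q, mul_ne_zero hP hQ, fun c hc => ?_⟩
  rw [map_mul] at hc
  exact ⟨h c (left_ne_zero_of_mul hc), h' c (right_ne_zero_of_mul hc)⟩

lemma Gen.of_forall (h : ∀ c, Φ c) : Gen Φ := ⟨1, one_ne_zero, fun c _ => h c⟩

lemma Gen.all {α : Type*} (s : Finset α) {Θ : α → (τ → K) → Prop} (h : ∀ a ∈ s, Gen (Θ a)) :
    Gen fun c => ∀ a ∈ s, Θ a c := by
  classical
  induction s using Finset.induction_on with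
  | empty => exact Gen.of_forall (by simp)
  | insert a s _ ih =>
    refine ((h a (by simp)).and (ih fun b hb => h b (by simp [hb]))).mono ?_
    rintro c ⟨h1, h2⟩ b hb
    rcases Finset.mem_insert.1 hb with rfl | hb
    · exact h1
    · exact h2 b hb

lemma Gen.exists [Infinite K] (h : Gen Φ) : ∃ c, Φ c := by
  obtain ⟨P, hP, h⟩ := h
  by_contra hc
  push Not at hc
  apply hP
  apply MvPolynomial.funext
  intro x
  by_contra hx
  exact hc x (h x (by simpa using hx))

lemma gen_coord (s : τ) : Gen fun c : τ → K => c s ≠ 0 :=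
  ⟨X s, X_ne_zero s, fun c hc => by simpa using hc⟩

end

lemma gen_det {τ : Type*} [Fintype τ] {C : Type*} [AddCommGroup C] [Module K C]
    [FiniteDimensional K C] (M : (τ → K) →ₗ[K] (C →ₗ[K] C)) (c0 : τ → K)
    (h0 : M c0 = LinearMap.id) : Gen fun c => Function.Injective (M c) := by
  classical
  let b := Module.finBasis K C
  let PM : Matrix (Fin (finrank K C)) (Fin (finrank K C)) (MvPolynomial τ K) :=
    fun a a' => ∑ s, X s * MvPolynomial.C (LinearMap.toMatrix b b (M (Pi.single s 1)) a a')
  have key : ∀ c, eval c PM.det = (LinearMap.toMatrix b b (M c)).det := by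
    intro c
    rw [RingHom.map_det]
    congr 1
    ext a a'
    have : c = ∑ s, c s • Pi.single s (1 : K) := by
      ext t; simp [Finset.sum_apply, Pi.single_apply]
    conv_rhs => rw [this]
    rw [RingHom.mapMatrix_apply, Matrix.map_apply]
    simp [PM, map_sum, Matrix.sum_apply]
  refine ⟨PM.det, fun h => ?_, fun c hc => ?_⟩
  · have := key c0
    rw [h, h0] at this
    simp at this
  · rw [key, LinearMap.det_toMatrix] at hc
    exact (LinearMap.ker_eq_bot).1 (by
      by_contra hk
      exact hc (LinearMap.det_eq_zero_iff_ker_ne_bot.2 hk))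

lemma gen_ker {τ : Type*} [Fintype τ] {V V' : Type*} [AddCommGroup V] [Module K V]
    [AddCommGroup V'] [Module K V'] [FiniteDimensional K V]
    (L : (τ → K) →ₗ[K] (V →ₗ[K] V')) (U : Submodule K V) (m : ℕ) (c0 : τ → K)
    (h : finrank K ↥(U ⊓ LinearMap.ker (L c0)) ≤ m) :
    Gen fun c => finrank K ↥(U ⊓ LinearMap.ker (L c)) ≤ m := by
  set Z := U ⊓ LinearMap.ker (L c0) with hZ
  obtain ⟨Q, hQ⟩ := Submodule.exists_isCompl Z
  set C := U ⊓ Q with hC
  have hZC : Z ⊓ C = ⊥ := by
    rw [eq_bot_iff, ← hQ.inf_eq_bot]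
    exact inf_le_inf_left _ inf_le_right
  have hsup : Z ⊔ C = U := by
    rw [hC, inf_comm, ← sup_inf_assoc_of_le _ (show Z ≤ U from inf_le_left), hQ.sup_eq_top,
      top_inf_eq]
  have hd : finrank K U = finrank K Z + finrank K C := by
    have := Submodule.finrank_sup_add_finrank_inf_eq Z C
    rw [hZC, hsup] at this
    simpa using this
  have hinj : LinearMap.ker ((L c0).domRestrict C) = ⊥ := by
    rw [eq_bot_iff]
    rintro ⟨x, hx⟩ hx0
    have : x ∈ Z ⊓ C := ⟨⟨hx.1, by simpa using hx0⟩, hx⟩
    rw [hZC] at this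
    simpa using this
  obtain ⟨p, hp⟩ := LinearMap.exists_leftInverse_of_injective _ hinj
  let M : (τ → K) →ₗ[K] (C →ₗ[K] C) :=
    { toFun := fun c => p ∘ₗ (L c).domRestrict C
      map_add' := fun c c' => by ext x; simp
      map_smul' := fun a c => by ext x; simp }
  refine (gen_det M c0 hp).mono fun c hc => ?_
  have h1 : (U ⊓ LinearMap.ker (L c)) ⊓ C = ⊥ := by
    rw [eq_bot_iff]
    rintro x ⟨⟨_, hx0⟩, hx⟩
    have : M c ⟨x, hx⟩ = M c 0 := by
      have : L c x = 0 := hx0
      simp [M, this]
    simpa using hc this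
  have h2 := Submodule.finrank_sup_add_finrank_inf_eq (U ⊓ LinearMap.ker (L c)) C
  rw [h1] at h2
  have h3 : finrank K ↥((U ⊓ LinearMap.ker (L c)) ⊔ C) ≤ finrank K U :=
    Submodule.finrank_mono (sup_le inf_le_left inf_le_left)
  simp only [finrank_bot, add_zero] at h2
  omega

/-- a space detected by finitely many maps into smaller spaces -/
lemma finrank_le_sum {V V' α : Type*} [AddCommGroup V] [Module K V] [AddCommGroup V']
    [Module K V'] [FiniteDimensional K V'] (W : Submodule K V) (s : Finset α)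
    (φ : α → V →ₗ[K] V') (W' : α → Submodule K V') (h : ∀ a ∈ s, ∀ x ∈ W, φ a x ∈ W' a)
    (hinj : ∀ x ∈ W, (∀ a ∈ s, φ a x = 0) → x = 0) :
    finrank K W ≤ ∑ a ∈ s, finrank K (W' a) := by
  classical
  let Φ : W →ₗ[K] (∀ a : s, W' a) :=
    LinearMap.pi fun a => ((φ a).domRestrict W).codRestrict (W' a) fun x => h a a.2 x x.2
  have hi : Function.Injective Φ := by
    rw [← LinearMap.ker_eq_bot, eq_bot_iff]
    rintro ⟨x, hx⟩ h0
    have : x = 0 := hinj x hx fun a ha => by
      exact congrArg Subtype.val (congrFun (show Φ ⟨x, hx⟩ = 0 from h0) ⟨a, ha⟩)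
    exact (Submodule.mem_bot K).2 (Subtype.ext this)
  have := LinearMap.finrank_le_finrank_of_injective hi
  rw [Module.finrank_pi_fintype] at this
  rw [← Finset.sum_coe_sort s]
  exact this

end

section
open Module Finset

variable {K : Type*} [Field K] {σ ι : Type*} [Fintype σ] [DecidableEq σ]

/-- contraction of a functional on the square-free algebra by an element of that algebra -/
def act (g F : Finset σ → K) : Finset σ → K :=
  fun T => ∑ Y : Finset σ, if Disjoint Y T then g Y * F (Y ∪ T) else 0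

def actL : (Finset σ → K) →ₗ[K] (Finset σ → K) →ₗ[K] (Finset σ → K) :=
  LinearMap.mk₂ K act
    (fun g g' F => by
      ext T; simp only [act, Pi.add_apply, ← sum_add_distrib]
      refine sum_congr rfl fun Y _ => ?_
      split_ifs <;> ring)
    (fun a g F => by
      ext T; simp only [act, Pi.smul_apply, smul_eq_mul, mul_sum]
      refine sum_congr rfl fun Y _ => ?_
      split_ifs <;> ring)
    (fun g F F' => by
      ext T; simp only [act, Pi.add_apply, ← sum_add_distrib]
      refine sum_congr rfl fun Y _ => ?_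
      split_ifs <;> ring)
    (fun a g F => by
      ext T; simp only [act, Pi.smul_apply, smul_eq_mul, mul_sum]
      refine sum_congr rfl fun Y _ => ?_
      split_ifs <;> ring)

@[simp] lemma actL_apply (g F : Finset σ → K) : actL g F = act g F := rfl

lemma act_zero (g : Finset σ → K) : act g 0 = 0 := map_zero (actL g)

lemma act_comm (g g' F : Finset σ → K) : act g (act g' F) = act g' (act g F) := by
  ext T
  have key : ∀ g g' : Finset σ → K, act g (act g' F) T = ∑ Y : Finset σ, ∑ Z : Finset σ,
      if Disjoint Y T ∧ Disjoint Z T ∧ Disjoint Y Z then g Y * g' Z * F (Y ∪ Z ∪ T) else 0 := by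
    intro g g'
    simp only [act]
    refine sum_congr rfl fun Y _ => ?_
    by_cases h : Disjoint Y T
    · rw [if_pos h, mul_sum]
      refine sum_congr rfl fun Z _ => ?_
      have e : Z ∪ (Y ∪ T) = Y ∪ Z ∪ T := by rw [← union_assoc, union_comm Z Y]
      by_cases h1 : Disjoint Z T <;> by_cases h2 : Disjoint Y Z <;>
        simp [h, h1, h2, e, disjoint_union_right, disjoint_comm (a := Z) (b := Y), mul_assoc]
    · simp [h]
  rw [key, key, sum_comm]
  refine sum_congr rfl fun Y _ => sum_congr rfl fun Z _ => ?_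
  rw [union_comm Z Y, mul_comm (g' Y)]
  congr 1
  simp only [eq_iff_iff, disjoint_comm (a := Z) (b := Y)]
  tauto

lemma act_single (S : Finset σ) (F : Finset σ → K) (T : Finset σ) :
    act (Pi.single S 1) F T = if Disjoint S T then F (S ∪ T) else 0 := by
  rw [act, sum_eq_single S]
  · simp
  · intro Y _ hY; simp [hY]
  · simp

/-- functions supported on a family of sets -/
def Supp (K : Type*) [Field K] (𝓤 : Finset σ → Prop) : Submodule K (Finset σ → K) where
  carrier := {F | ∀ X, ¬ 𝓤 X → F X = 0}
  add_mem' := fun h h' X hX => by simp [h X hX, h' X hX]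
  zero_mem' := fun _ _ => rfl
  smul_mem' := fun a F h X hX => by simp [h X hX]

omit [DecidableEq σ] in
lemma finrank_Supp (𝓤 : Finset σ → Prop) [DecidablePred 𝓤] :
    finrank K (Supp K 𝓤) ≤ (univ.filter 𝓤).card := by
  have := finrank_le_sum (Supp K 𝓤) (univ.filter 𝓤) (fun X => LinearMap.proj X) (fun _ => ⊤)
    (by simp) (fun F hF h => by
      ext X
      by_cases hX : 𝓤 X
      · exact h X (by simpa using hX)
      · exact hF X hX)
  simpa using this

/-- the inverse system -/
def W (𝓤 : Finset σ → Prop) (A : Finset ι) (G : ι → Finset σ → K) :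
    Submodule K (Finset σ → K) where
  carrier := {F | (∀ X, ¬ 𝓤 X → F X = 0) ∧ ∀ i ∈ A, act (G i) F = 0}
  add_mem' := fun {F F'} h h' => ⟨fun X hX => by simp [h.1 X hX, h'.1 X hX], fun i hi => by
    have := map_add (actL (G i)) F F'
    simp only [actL_apply] at this
    rw [this, h.2 i hi, h'.2 i hi, add_zero]⟩
  zero_mem' := ⟨fun _ _ => rfl, fun i _ => act_zero _⟩
  smul_mem' := fun a F h => ⟨fun X hX => by simp [h.1 X hX], fun i hi => by
    have := map_smul (actL (G i)) a F
    simp only [actL_apply] at this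
    rw [this, h.2 i hi, smul_zero]⟩

lemma mem_W {𝓤 : Finset σ → Prop} {A : Finset ι} {G : ι → Finset σ → K} {F : Finset σ → K} :
    F ∈ W 𝓤 A G ↔ (∀ X, ¬ 𝓤 X → F X = 0) ∧ ∀ i ∈ A, act (G i) F = 0 := Iff.rfl

lemma W_le_Supp (𝓤 : Finset σ → Prop) (A : Finset ι) (G : ι → Finset σ → K) :
    W 𝓤 A G ≤ Supp K 𝓤 := fun _ h => h.1

lemma W_anti (𝓤 : Finset σ → Prop) {A A' : Finset ι} (h : A ⊆ A') (G : ι → Finset σ → K) :
    W 𝓤 A' G ≤ W 𝓤 A G := fun _ hF => ⟨hF.1, fun i hi => hF.2 i (h hi)⟩

lemma W_congr (𝓤 : Finset σ → Prop) {A : Finset ι} {G G' : ι → Finset σ → K}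
    (h : ∀ i ∈ A, G i = G' i) : W 𝓤 A G = W 𝓤 A G' := by
  ext F
  simp only [mem_W]
  exact and_congr_right fun _ => forall₂_congr fun i hi => by rw [h i hi]

open Classical in
/-- keep only the coefficients on a prescribed family -/
noncomputable def mask (𝓨 : ι → Finset σ → Prop) (c : ι × Finset σ → K) :
    ι → Finset σ → K := fun i Y => if 𝓨 i Y then c (i, Y) else 0

lemma gen_W [Fintype ι] (𝓤 : Finset σ → Prop) (A : Finset ι) (𝓨 : ι → Finset σ → Prop) (m : ℕ)
    (c0 : ι × Finset σ → K) (h : finrank K (W 𝓤 A (mask 𝓨 c0)) ≤ m) :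
    Gen fun c : ι × Finset σ → K => finrank K (W 𝓤 A (mask 𝓨 c)) ≤ m := by
  let L : (ι × Finset σ → K) →ₗ[K] ((Finset σ → K) →ₗ[K] (A → Finset σ → K)) :=
    { toFun := fun c => LinearMap.pi fun i => actL (mask 𝓨 c i)
      map_add' := fun c c' => by
        refine LinearMap.ext fun F => funext fun i => ?_
        have : mask 𝓨 (c + c') i = mask 𝓨 c i + mask 𝓨 c' i := by
          ext Y; simp only [mask, Pi.add_apply]; split_ifs <;> simp
        simp [this]
      map_smul' := fun a c => by
        refine LinearMap.ext fun F => funext fun i => ?_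
        have : mask 𝓨 (a • c) i = a • mask 𝓨 c i := by
          ext Y; simp only [mask, Pi.smul_apply]; split_ifs <;> simp
        simp [this] }
  have e : ∀ c, W 𝓤 A (mask 𝓨 c) = Supp K 𝓤 ⊓ LinearMap.ker (L c) := by
    intro c
    ext F
    simp only [mem_W, Submodule.mem_inf, LinearMap.mem_ker]
    refine and_congr Iff.rfl ⟨fun h => funext fun i => h i i.2, fun h i hi => congrFun h ⟨i, hi⟩⟩
  rw [e] at h
  exact (gen_ker L _ m c0 h).mono fun c hc => by rw [e]; exact hc

end

section
open Module Finset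

variable {K : Type*} [Field K] {σ ι : Type*} [Fintype σ] [DecidableEq σ]
  [Fintype ι] [DecidableEq ι]

/-- the degree `j` part of the inverse system of the ideal -/
noncomputable abbrev WF (j : ℕ) (d : ι → ℕ) (A : Finset ι) (c : ι × Finset σ → K) :
    Submodule K (Finset σ → K) :=
  W (fun X => X.card = j) A (mask (fun i Y => Y.card = d i) c)

open Classical in
/-- restriction to a family -/
noncomputable def res (p : Finset σ → Prop) : (Finset σ → K) →ₗ[K] (Finset σ → K) where
  toFun F X := if p X then F X else 0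
  map_add' F F' := by ext X; simp only [Pi.add_apply]; split_ifs <;> simp
  map_smul' a F := by ext X; simp only [Pi.smul_apply]; split_ifs <;> simp

open Classical in
omit [Fintype σ] [DecidableEq σ] in
lemma res_apply (p : Finset σ → Prop) (F : Finset σ → K) (X : Finset σ) :
    res p F X = if p X then F X else 0 := rfl

omit [Fintype ι] [DecidableEq ι] in
lemma act_mask_supp {j : ℕ} {d : ι → ℕ} (c : ι × Finset σ → K) (l : ι) {F : Finset σ → K}
    (hF : ∀ X : Finset σ, ¬ X.card = j → F X = 0) (T : Finset σ) (hT : ¬ T.card + d l = j) :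
    act (mask (fun i Y => Y.card = d i) c l) F T = 0 := by
  refine sum_eq_zero fun Y _ => ?_
  split_ifs with hdis
  · by_cases hY : Y.card = d l
    · rw [hF _ (by rw [card_union_of_disjoint hdis]; omega), mul_zero]
    · simp [mask, hY]
  · rfl

omit [Fintype ι] in
lemma lower_step (j : ℕ) (d : ι → ℕ) (A : Finset ι) (l : ι) (c : ι × Finset σ → K) :
    finrank K (WF j d A c) ≤ finrank K (WF j d (insert l A) c) +
      if d l ≤ j then finrank K (WF (j - d l) d A c) else 0 := by
  let f := (actL (mask (fun i Y => Y.card = d i) c l)).domRestrict (WF j d A c)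
  have h1 := LinearMap.finrank_range_add_finrank_ker f
  have h2 : finrank K (LinearMap.ker f) ≤ finrank K (WF j d (insert l A) c) := by
    rw [← Submodule.finrank_map_subtype_eq]
    refine Submodule.finrank_mono ?_
    rintro _ ⟨⟨F, hF⟩, h0, rfl⟩
    refine ⟨hF.1, fun i hi => ?_⟩
    rcases mem_insert.1 hi with rfl | hi
    · exact h0
    · exact hF.2 i hi
  have h3 : finrank K (LinearMap.range f) ≤
      if d l ≤ j then finrank K (WF (j - d l) d A c) else 0 := by
    split_ifs with h
    · refine Submodule.finrank_mono ?_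
      rintro _ ⟨⟨F, hF⟩, rfl⟩
      refine ⟨fun T hT => act_mask_supp c l hF.1 T (by omega), fun i hi => ?_⟩
      show act _ (act _ F) = 0
      rw [act_comm, hF.2 i hi, act_zero]
    · have : LinearMap.range f = ⊥ := by
        rw [eq_bot_iff]
        rintro _ ⟨⟨F, hF⟩, rfl⟩
        exact funext fun T => act_mask_supp c l hF.1 T (by omega)
      rw [this, finrank_bot]
  omega

omit [DecidableEq σ] in
lemma finrank_Supp_eq (𝓤 : Finset σ → Prop) [DecidablePred 𝓤] :
    finrank K (Supp K 𝓤) = (univ.filter 𝓤).card := by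
  refine le_antisymm (finrank_Supp _) ?_
  have h1 : Supp K 𝓤 ⊔ Supp K (fun X => ¬ 𝓤 X) = ⊤ := by
    rw [eq_top_iff]
    intro F _
    refine Submodule.mem_sup.2 ⟨res 𝓤 F, fun X hX => by simp [res_apply, hX],
      res (fun X => ¬ 𝓤 X) F, fun X hX => by rw [res_apply, if_neg hX], ?_⟩
    ext X
    by_cases hX : 𝓤 X <;> simp [res_apply, hX]
  have h2 := Submodule.finrank_add_le_finrank_add_finrank (Supp K 𝓤) (Supp K (fun X => ¬ 𝓤 X))
  have h3 := finrank_Supp (K := K) (fun X => ¬ 𝓤 X)
  have h4 := card_filter_add_card_filter_not (s := univ) 𝓤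
  rw [h1, finrank_top, finrank_fintype_fun_eq_card, ← card_univ] at h2
  omega

omit [Fintype ι] [DecidableEq ι] in
lemma finrank_WF_empty (j : ℕ) (d : ι → ℕ) (c : ι × Finset σ → K) :
    finrank K (WF j d ∅ c) = (Fintype.card σ).choose j := by
  have : WF j d ∅ c = Supp K fun X => X.card = j :=
    le_antisymm (W_le_Supp _ _ _) fun F hF => ⟨hF, by simp⟩
  rw [this, finrank_Supp_eq, ← card_univ, ← card_powersetCard, powersetCard_eq_filter,
    powerset_univ]

omit [Fintype ι] [DecidableEq ι] in
lemma finrank_WF_le (j : ℕ) (d : ι → ℕ) (A : Finset ι) (c : ι × Finset σ → K) :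
    finrank K (WF j d A c) ≤ (Fintype.card σ).choose j :=
  (Submodule.finrank_mono (W_anti _ (empty_subset A) _)).trans (finrank_WF_empty j d c).le

omit [Fintype ι] [DecidableEq ι] in
lemma finrank_WF_succ (j : ℕ) (d : ι → ℕ) (A : Finset ι) (c : ι × Finset σ → K) :
    finrank K (WF (j + 1) d A c) ≤ Fintype.card σ * finrank K (WF j d A c) := by
  have := finrank_le_sum (WF (j + 1) d A c) univ (fun x : σ => actL (Pi.single {x} 1))
    (fun _ => WF j d A c) ?_ ?_
  · simpa using this
  · intro x _ F hF
    refine ⟨fun X hX => ?_, fun i hi => ?_⟩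
    · rw [actL_apply, act_single]
      split_ifs with hd
      · refine hF.1 _ fun h => hX ?_
        have h : ({x} ∪ X).card = j + 1 := h
        rw [card_union_of_disjoint hd, card_singleton] at h
        show X.card = j
        omega
      · rfl
    · rw [actL_apply, act_comm, hF.2 i hi, act_zero]
  · intro F hF h0
    ext X
    by_cases hX : X.card = j + 1
    · obtain ⟨x, hx⟩ : X.Nonempty := card_pos.1 (by omega)
      have := congrFun (h0 x (mem_univ _)) (X.erase x)
      rw [actL_apply, act_single, if_pos (by simp), ← insert_eq, insert_erase hx] at this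
      exact this
    · exact hF.1 X hX

omit [Fintype ι] [DecidableEq ι] in
lemma finrank_WF_add (j k : ℕ) (d : ι → ℕ) (A : Finset ι) (c : ι × Finset σ → K) :
    finrank K (WF (j + k) d A c) ≤ Fintype.card σ ^ k * finrank K (WF j d A c) := by
  induction k with
  | zero => simp
  | succ k ih =>
    rw [← add_assoc, pow_succ', mul_assoc]
    exact (finrank_WF_succ _ d A c).trans (Nat.mul_le_mul_left _ ih)

end

section
open Finset Polynomial

variable {ι : Type*} [DecidableEq ι]

/-- coefficients of the predicted series before truncation -/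
noncomputable def al (n : ℕ) (d : ι → ℕ) (A : Finset ι) (i : ℕ) : ℤ :=
  ((1 + X : ℤ[X]) ^ n * ∏ l ∈ A, (1 - X ^ d l)).coeff i

omit [DecidableEq ι] in
@[simp] lemma al_empty (n : ℕ) (d : ι → ℕ) (i : ℕ) : al n d ∅ i = n.choose i := by
  simp [al, coeff_one_add_X_pow]

lemma al_insert (n : ℕ) (d : ι → ℕ) {A : Finset ι} {l : ι} (hl : l ∉ A) (i : ℕ) :
    al n d (insert l A) i = al n d A i - if d l ≤ i then al n d A (i - d l) else 0 := by
  rw [al, prod_insert hl, mul_left_comm, mul_comm (1 - X ^ d l), mul_sub, mul_one, coeff_sub,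
    coeff_mul_X_pow']
  rfl

end

section
open Module Finset MvPolynomial

variable {K : Type} [Field K] {n r : ℕ}

noncomputable def ind (S : Finset (Fin n)) : Fin n →₀ ℕ := ∑ s ∈ S, Finsupp.single s 1

lemma ind_apply (S : Finset (Fin n)) (s : Fin n) : ind S s = if s ∈ S then 1 else 0 := by
  simp [ind, Finsupp.finsetSum_apply, Finsupp.single_apply]

lemma prod_X (S : Finset (Fin n)) :
    ∏ s ∈ S, (X s : MvPolynomial (Fin n) K) = monomial (ind S) 1 := by
  rw [ind, monomial_sum_one]; rfl

lemma ind_support {m : Fin n →₀ ℕ} (h : ∀ s, m s ≤ 1) : ind m.support = m := by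
  ext s
  have := h s
  rw [ind_apply]
  split_ifs with h1
  · have := Finsupp.mem_support_iff.1 h1; omega
  · exact (Finsupp.notMem_support_iff.1 h1).symm

lemma support_ind (S : Finset (Fin n)) : (ind S).support = S := by
  ext s; simp [ind_apply]

lemma degree_ind (S : Finset (Fin n)) : (ind S).degree = S.card := by
  simp [ind]

lemma ind_add {S T : Finset (Fin n)} (h : Disjoint S T) : ind S + ind T = ind (S ∪ T) := by
  rw [ind, ind, ind, sum_union h]

lemma monomial_mul_form (e : ℕ) (g : Finset (Fin n) → K) (m : Fin n →₀ ℕ) :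
    monomial m 1 * form e g =
      ∑ Y : Finset (Fin n), (if Y.card = e then g Y else 0) • monomial (ind Y + m) (1 : K) := by
  rw [form, mul_sum, powersetCard_eq_filter, powerset_univ, sum_filter]
  refine sum_congr rfl fun Y _ => ?_
  split_ifs
  · rw [prod_X, C_mul', mul_smul_comm, monomial_mul, add_comm, one_mul]
  · simp

lemma mem_idl_of_two (d : Fin r → ℕ) (c : Fin r × Finset (Fin n) → K) {m : Fin n →₀ ℕ}
    (h : ¬ ∀ s, m s ≤ 1) : monomial m (1 : K) ∈ idl d c := by
  push Not at h
  obtain ⟨s, hs⟩ := h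
  have : monomial m (1 : K) = monomial (m - Finsupp.single s 2) 1 * X s ^ 2 := by
    rw [X_pow_eq_monomial, monomial_mul, tsub_add_cancel_of_le (Finsupp.single_le_iff.2 hs),
      one_mul]
  rw [this]
  exact Ideal.mul_mem_left _ _ (Ideal.subset_span (Or.inl ⟨s, rfl⟩))

lemma sqfree_add {Y : Finset (Fin n)} {m : Fin n →₀ ℕ} :
    (∀ s, (ind Y + m) s ≤ 1) ↔ (∀ s, m s ≤ 1) ∧ Disjoint Y m.support := by
  simp only [Finsupp.add_apply, ind_apply, disjoint_left, Finsupp.notMem_support_iff]
  constructor
  · intro h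
    exact ⟨fun s => by have := h s; omega, fun s hs => by have := h s; rw [if_pos hs] at this; omega⟩
  · rintro ⟨h1, h2⟩ s
    split_ifs with hs
    · simp [h2 hs]
    · simpa using h1 s

open Classical in
noncomputable def lam (F : Finset (Fin n) → K) : MvPolynomial (Fin n) K →ₗ[K] K :=
  (basisMonomials (Fin n) K).constr K fun m => if ∀ s, m s ≤ 1 then F m.support else 0

open Classical in
lemma lam_monomial (F : Finset (Fin n) → K) (m : Fin n →₀ ℕ) :
    lam F (monomial m 1) = if ∀ s, m s ≤ 1 then F m.support else 0 :=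
  (basisMonomials (Fin n) K).constr_basis K _ m

lemma lam_ind (F : Finset (Fin n) → K) (S : Finset (Fin n)) : lam F (monomial (ind S) 1) = F S := by
  rw [lam_monomial, if_pos, support_ind]
  intro s; rw [ind_apply]; split_ifs <;> simp

lemma mask_eq (d : Fin r → ℕ) (c : Fin r × Finset (Fin n) → K) (i : Fin r) (Y : Finset (Fin n)) :
    mask (fun i Y => Y.card = d i) c i Y = if Y.card = d i then c (i, Y) else 0 := by
  simp [mask]

lemma lam_idl {j : ℕ} {d : Fin r → ℕ} {c : Fin r × Finset (Fin n) → K} {F : Finset (Fin n) → K}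
    (hF : F ∈ WF j d univ c) {p : MvPolynomial (Fin n) K} (hp : p ∈ idl d c) : lam F p = 0 := by
  have key : ∀ q, lam F (q * p) = 0 := by
    induction hp using Submodule.span_induction with
    | mem g hg =>
      intro q
      have : ∀ m : Fin n →₀ ℕ, lam F (monomial m 1 * g) = 0 := by
        intro m
        rcases hg with ⟨s, rfl⟩ | ⟨i, rfl⟩
        · simp only
          rw [X_pow_eq_monomial, monomial_mul, one_mul, lam_monomial, if_neg]
          intro h
          have := h s
          simp at this
        · simp only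
          rw [monomial_mul_form, map_sum]
          by_cases hm : ∀ s, m s ≤ 1
          · refine Eq.trans ?_ (congrFun (hF.2 i (mem_univ _)) m.support)
            refine sum_congr rfl fun Y _ => ?_
            rw [map_smul, lam_monomial, mask_eq, smul_eq_mul]
            by_cases hd : Disjoint Y m.support
            · rw [if_pos (sqfree_add.2 ⟨hm, hd⟩), if_pos hd]
              conv_lhs => rw [← ind_support hm, ind_add hd, support_ind]
            · rw [if_neg fun h => hd (sqfree_add.1 h).2, if_neg hd, mul_zero]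
          · refine sum_eq_zero fun Y _ => ?_
            rw [map_smul, lam_monomial, if_neg fun h => hm (sqfree_add.1 h).1, smul_zero]
      induction q using MvPolynomial.induction_on' with
      | monomial m a =>
        rw [show monomial m a = a • monomial m (1 : K) by simp [smul_monomial], smul_mul_assoc,
          map_smul, this, smul_zero]
      | add q q' h h' => rw [add_mul, map_add, h, h', add_zero]
    | zero => simp
    | add x y _ _ hx hy => intro q; rw [mul_add, map_add, hx, hy, add_zero]
    | smul a x _ hx => intro q; rw [smul_eq_mul, ← mul_assoc, hx]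
  simpa using key 1

theorem hilb_eq (d : Fin r → ℕ) (c : Fin r × Finset (Fin n) → K) (j : ℕ) :
    hilb d c j = finrank K (WF j d univ c) := by
  classical
  set π := (Ideal.Quotient.mkₐ K (idl d c)).toLinearMap with hπ
  set H := (homogeneousSubmodule (Fin n) K j).map π with hH
  have hπ0 : ∀ p, π p = 0 ↔ p ∈ idl d c := fun p => Ideal.Quotient.eq_zero_iff_mem
  have hmem : ∀ S : Finset (Fin n), S.card = j → π (monomial (ind S) 1) ∈ H := fun S hS =>
    ⟨_, isHomogeneous_monomial _ (by rw [degree_ind, hS]), rfl⟩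
  let v : Finset (Fin n) → H := fun S => if hS : S.card = j then ⟨_, hmem S hS⟩ else 0
  have hspan : Submodule.span K (Set.range v) = ⊤ := by
    rw [eq_top_iff]
    rintro ⟨_, p, hp, rfl⟩ -
    have : π p ∈ (Submodule.span K (Set.range v)).map H.subtype := by
      rw [p.as_sum, map_sum]
      refine Submodule.sum_mem _ fun m hm => ?_
      rw [show monomial m (coeff m p) = coeff m p • monomial m (1 : K) by simp [smul_monomial],
        map_smul]
      refine Submodule.smul_mem _ _ ?_
      by_cases h : ∀ s, m s ≤ 1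
      · have hc : m.support.card = j := by
          rw [← degree_ind, ind_support h, Finsupp.degree_eq_weight_one]
          exact hp (mem_support_iff.1 hm)
        refine ⟨v m.support, Submodule.subset_span ⟨_, rfl⟩, ?_⟩
        simp only [v, dif_pos hc, Submodule.subtype_apply, ind_support h]
      · rw [(hπ0 _).2 (mem_idl_of_two d c h)]; exact Submodule.zero_mem _
    obtain ⟨x, hx, e⟩ := this
    exact (Subtype.ext e : x = ⟨_, _⟩) ▸ hx
  have hfin : FiniteDimensional K H :=
    ⟨hspan ▸ Submodule.fg_span (Set.finite_range v)⟩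
  show finrank K H = _
  rw [← Subspace.dual_finrank_eq]
  let Φ : Dual K H →ₗ[K] (Finset (Fin n) → K) := LinearMap.pi fun S => LinearMap.applyₗ (v S)
  have hΦ : Function.Injective Φ := by
    rw [← LinearMap.ker_eq_bot, eq_bot_iff]
    intro ψ h0
    rw [Submodule.mem_bot]
    refine LinearMap.ext_on_range hspan fun S => congrFun (show Φ ψ = 0 from h0) S
  rw [← LinearMap.finrank_range_of_inj hΦ]
  suffices h : LinearMap.range Φ = WF j d univ c by rw [h]
  apply le_antisymm
  · rintro _ ⟨ψ, rfl⟩
    refine ⟨fun S hS => ?_, fun i _ => ?_⟩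
    · show ψ (v S) = 0
      simp only [v, dif_neg hS, map_zero]
    · ext T
      by_cases hT : T.card + d i = j
      swap
      · refine act_mask_supp c i (fun S hS => ?_) T hT
        show ψ (v S) = 0
        simp only [v, dif_neg hS, map_zero]
      have h1 : π (monomial (ind T) 1 * form (d i) fun S => c (i, S)) = 0 :=
        (hπ0 _).2 (Ideal.mul_mem_left _ _ (Ideal.subset_span (Or.inr ⟨i, rfl⟩)))
      have h2 : ∑ Y : Finset (Fin n), (if Disjoint Y T then
          mask (fun i Y => Y.card = d i) c i Y • v (Y ∪ T) else 0) = 0 := by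
        apply Subtype.ext
        rw [monomial_mul_form, map_sum] at h1
        rw [Submodule.coe_sum, Submodule.coe_zero, ← h1]
        refine sum_congr rfl fun Y _ => ?_
        rw [map_smul, mask_eq]
        by_cases hd : Disjoint Y T
        · rw [if_pos hd]
          by_cases hY : Y.card = d i
          · have : (Y ∪ T).card = j := by rw [card_union_of_disjoint hd]; omega
            simp only [v, dif_pos this, ind_add hd, Submodule.coe_smul]
          · simp [hY]
        · rw [if_neg hd, (hπ0 _).2 (mem_idl_of_two d c fun h => hd ?_), smul_zero,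
            Submodule.coe_zero]
          simpa [support_ind] using (sqfree_add.1 h).2
      have h3 := congrArg ψ h2
      rw [map_sum, map_zero] at h3
      refine Eq.trans (sum_congr rfl fun Y _ => ?_) h3
      split_ifs
      · rw [map_smul]; rfl
      · simp
  · intro F hF
    let μ : (MvPolynomial (Fin n) K ⧸ idl d c) →ₗ[K] K :=
      ((idl d c).restrictScalars K).liftQ (lam F) fun p hp => lam_idl hF hp
    refine ⟨μ ∘ₗ H.subtype, ?_⟩
    ext S
    show μ (v S) = F S
    by_cases hS : S.card = j
    · simp only [v, dif_pos hS]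
      exact lam_ind F S
    · simp only [v, dif_neg hS, Submodule.coe_zero, map_zero]
      exact (hF.1 S hS).symm

end

section
open Module Finset MvPolynomial

variable {K : Type*} [Field K] {τ : Type*}

/-- the generic point -/
noncomputable def gp (K : Type*) [Field K] (p : τ) : FractionRing (MvPolynomial τ K) :=
  algebraMap (MvPolynomial τ K) _ (X p)

lemma exists_der [DecidableEq τ] (p : τ) :
    ∃ δ : FractionRing (MvPolynomial τ K) →+ FractionRing (MvPolynomial τ K),
      (∀ x y, δ (x * y) = x * δ y + δ x * y) ∧ ∀ q, δ (gp K q) = if q = p then 1 else 0 := by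
  set L := FractionRing (MvPolynomial τ K)
  let φ0 : MvPolynomial τ K →+* TrivSqZeroExt L L :=
    eval₂Hom ((algebraMap L (TrivSqZeroExt L L)).comp
      ((algebraMap (MvPolynomial τ K) L).comp C))
      fun q => TrivSqZeroExt.inl (gp K q) + TrivSqZeroExt.inr (if q = p then 1 else 0)
  let π : TrivSqZeroExt L L →+* L := (TrivSqZeroExt.fstHom L L L).toRingHom
  have h1 : π.comp φ0 = algebraMap (MvPolynomial τ K) L := by
    refine MvPolynomial.ringHom_ext (fun a => ?_) fun q => ?_
    · simp [φ0, π, TrivSqZeroExt.algebraMap_eq_inl]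
    · by_cases e : q = p <;> simp [φ0, π, gp, e, L]
  have h2 : ∀ y : nonZeroDivisors (MvPolynomial τ K), IsUnit (φ0 y) := by
    intro y
    rw [TrivSqZeroExt.isUnit_iff_isUnit_fst]
    have : (φ0 y).fst = algebraMap (MvPolynomial τ K) L y := RingHom.congr_fun h1 y
    rw [this]
    exact IsLocalization.map_units L y
  let φ : L →+* TrivSqZeroExt L L := IsLocalization.lift h2
  have h3 : π.comp φ = RingHom.id L := by
    refine IsLocalization.ringHom_ext (nonZeroDivisors (MvPolynomial τ K)) ?_
    rw [RingHom.comp_assoc, IsLocalization.lift_comp, h1, RingHom.id_comp]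
  have h4 : ∀ x, (φ x).fst = x := fun x => RingHom.congr_fun h3 x
  refine ⟨AddMonoidHom.mk' (fun x => (φ x).snd) fun x y => by simp, fun x y => ?_, fun q => ?_⟩
  · simp [h4, mul_comm]
  · show (φ (algebraMap _ L (X q))).snd = _
    rw [IsLocalization.lift_eq]
    by_cases e : q = p <;> simp [φ0, e]

lemma gen_rank {R C : Type*} [Fintype R] [Fintype C] (M : Matrix R C (MvPolynomial τ K)) :
    Gen fun c : τ → K => (M.map (algebraMap _ (FractionRing (MvPolynomial τ K)))).rank ≤
      (M.map (eval c)).rank := by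
  classical
  let L := FractionRing (MvPolynomial τ K)
  let P := MvPolynomial τ K
  let ML := M.map (algebraMap P L)
  have hML : ML = M.map (algebraMap P L) := rfl
  let f := ML.mulVecLin
  let b := (finBasis L (LinearMap.range f)).equivFun
  obtain ⟨g, hg⟩ := f.rangeRestrict.exists_rightInverse_of_surjective
    (LinearMap.range_rangeRestrict f)
  obtain ⟨h, hh⟩ := (LinearMap.range f).subtype.exists_leftInverse_of_injective
    (Submodule.ker_subtype _)
  let A := LinearMap.toMatrix' (b.toLinearMap ∘ₗ h)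
  let B := LinearMap.toMatrix' (g ∘ₗ b.symm.toLinearMap)
  have hAB : A * ML * B = 1 := by
    rw [← LinearMap.toMatrix'_toLin' ML, ← LinearMap.toMatrix'_comp, ← LinearMap.toMatrix'_comp,
      ← LinearMap.toMatrix'_id]
    congr 1
    refine LinearMap.ext fun x => ?_
    have e1 : f (g (b.symm x)) = b.symm x := congrArg Subtype.val (LinearMap.congr_fun hg _)
    have e2 : h (b.symm x) = b.symm x := LinearMap.congr_fun hh _
    show b (h (f (g (b.symm x)))) = x
    rw [e1, e2, b.apply_symm_apply]
  obtain ⟨a, ha⟩ := IsLocalization.exist_integer_multiples_of_finite (nonZeroDivisors P)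
    fun q : _ × R => A q.1 q.2
  obtain ⟨a', ha'⟩ := IsLocalization.exist_integer_multiples_of_finite (nonZeroDivisors P)
    fun q : C × _ => B q.1 q.2
  choose A' hA' using ha
  choose B' hB' using ha'
  let A1 : Matrix _ R P := Matrix.of fun i r => A' (i, r)
  let B1 : Matrix C _ P := Matrix.of fun s i => B' (s, i)
  have e1 : A1.map (algebraMap P L) = (a : P) • A := by ext i r; exact hA' (i, r)
  have e2 : B1.map (algebraMap P L) = (a' : P) • B := by ext i r; exact hB' (i, r)
  have e3 : A1 * M * B1 = ((a : P) * a') • (1 : Matrix _ _ P) := by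
    apply Matrix.map_injective (IsFractionRing.injective P L)
    show (A1 * M * B1).map _ = _
    rw [Matrix.map_mul, Matrix.map_mul, e1, e2, ← hML, Matrix.smul_mul, Matrix.smul_mul,
      Matrix.mul_smul, hAB, smul_smul]
    ext i i'
    show ((a : P) * a') • (1 : Matrix _ _ L) i i' =
      algebraMap P L (((a : P) * a') • (1 : Matrix _ _ P) i i')
    by_cases e : i = i' <;> simp [Matrix.one_apply, e, Algebra.smul_def]
  refine ⟨a * a', mul_ne_zero (nonZeroDivisors.coe_ne_zero a) (nonZeroDivisors.coe_ne_zero a'),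
    fun c hc => ?_⟩
  have e4 : A1.map (eval c) * M.map (eval c) * B1.map (eval c) =
      eval c ((a : P) * a') • (1 : Matrix _ _ K) := by
    rw [← Matrix.map_mul, ← Matrix.map_mul, e3]
    ext i i'
    by_cases e : i = i' <;> simp [e]
  have e5 : IsUnit (eval c ((a : P) * a') • (1 : Matrix (Fin (finrank L (LinearMap.range f)))
      (Fin (finrank L (LinearMap.range f))) K)) := by
    rw [Matrix.isUnit_iff_isUnit_det, Matrix.det_smul, Matrix.det_one, mul_one]
    exact (pow_ne_zero _ hc).isUnit
  have e6 := Matrix.rank_of_isUnit _ e5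
  rw [← e4, Fintype.card_fin] at e6
  exact e6.ge.trans ((Matrix.rank_mul_le_left _ _).trans (Matrix.rank_mul_le_right _ _))

variable {σ ι : Type*} [Fintype σ] [DecidableEq σ] [Fintype ι]

/-- the matrix of the conditions which define the inverse system -/
def Mat {R : Type*} [CommRing R] (j : ℕ) (d : ι → ℕ) (c : ι × Finset σ → R) :
    Matrix (Option ι × Finset σ) (Finset σ) R := fun p X =>
  p.1.elim (if p.2 = X ∧ ¬ X.card = j then 1 else 0) fun i =>
    ∑ Y : Finset σ, if Y ∪ p.2 = X ∧ Disjoint Y p.2 ∧ Y.card = d i then c (i, Y) else 0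

omit [Fintype ι] in
lemma Mat_map {R S : Type*} [CommRing R] [CommRing S] (f : R →+* S) (j : ℕ) (d : ι → ℕ)
    (c : ι × Finset σ → R) : (Mat j d c).map f = Mat j d fun p => f (c p) := by
  ext ⟨_ | i, T⟩ X
  · simp [Mat, apply_ite f]
  · simp [Mat, apply_ite f]

lemma Mat_rank (j : ℕ) (d : ι → ℕ) (c : ι × Finset σ → K) :
    (Mat j d c).rank + finrank K (WF j d univ c) = Fintype.card (Finset σ) := by
  have h := LinearMap.finrank_range_add_finrank_ker (Mat j d c).mulVecLin
  rw [finrank_fintype_fun_eq_card] at h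
  suffices e : LinearMap.ker (Mat j d c).mulVecLin = WF j d univ c by rw [← e]; exact h
  have h1 : ∀ F T, (Mat j d c).mulVec F (none, T) = if ¬ T.card = j then F T else 0 := by
    intro F T
    simp only [Matrix.mulVec, dotProduct, Mat, Option.elim]
    rw [sum_eq_single T (fun X _ hX => by simp [hX.symm]) (by simp)]
    simp
  have h2 : ∀ F i T, (Mat j d c).mulVec F (some i, T) =
      act (mask (fun i Y => Y.card = d i) c i) F T := by
    intro F i T
    simp only [Matrix.mulVec, dotProduct, Mat, Option.elim, act, sum_mul]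
    rw [sum_comm]
    refine sum_congr rfl fun Y _ => ?_
    rw [sum_eq_single (Y ∪ T) (fun X _ hX => by simp [hX.symm]) (by simp)]
    by_cases a1 : Disjoint Y T <;> by_cases a2 : Y.card = d i <;> simp [mask, a1, a2]
  ext F
  rw [LinearMap.mem_ker, mem_W, Matrix.mulVecLin_apply]
  constructor
  · intro h
    refine ⟨fun X hX => ?_, fun i _ => funext fun T => ?_⟩
    · have := congrFun h (none, X)
      rwa [h1, if_pos hX] at this
    · exact (h2 F i T).symm.trans (congrFun h (some i, T))
  · intro h
    ext ⟨_ | i, T⟩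
    · rw [h1]
      split_ifs with a
      · rfl
      · exact h.1 T a
    · rw [h2, h.2 i (mem_univ _)]
      rfl

lemma gen_WF (j : ℕ) (d : ι → ℕ) : Gen fun c : ι × Finset σ → K => finrank K (WF j d univ c) ≤
    finrank (FractionRing (MvPolynomial (ι × Finset σ) K))
      (WF j d univ (gp K (τ := ι × Finset σ))) := by
  refine (gen_rank (Mat j d (X : ι × Finset σ → MvPolynomial _ K))).mono fun c hc => ?_
  rw [Mat_map, Mat_map] at hc
  have h1 := Mat_rank j d c
  have h2 := Mat_rank j d (gp K (τ := ι × Finset σ))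
  simp only [eval_X] at hc
  change (Mat j d (gp K)).rank ≤ (Mat j d c).rank at hc
  omega

end

section
open Module Finset

lemma first_order {K E V V' : Type*} [Field K] [Infinite K] [AddCommGroup E] [Module K E]
    [AddCommGroup V] [Module K V] [AddCommGroup V'] [Module K V'] [FiniteDimensional K V]
    (L : E →ₗ[K] (V →ₗ[K] V')) (U : Submodule K V) :
    ∃ f, ∀ g, ∀ v ∈ U ⊓ LinearMap.ker (L f), L g v ∈ U.map (L f) := by
  classical
  have hex : ∃ m, ∃ f, finrank K ↥(U ⊓ LinearMap.ker (L f)) = m := ⟨_, 0, rfl⟩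
  obtain ⟨f, hf⟩ := Nat.find_spec hex
  refine ⟨f, fun g v hv => ?_⟩
  by_contra hne
  set Z := U ⊓ LinearMap.ker (L f) with hZ
  obtain ⟨Q, hQ⟩ := Submodule.exists_isCompl Z
  set C := U ⊓ Q with hC
  have hZC : Z ⊓ C = ⊥ := by
    rw [eq_bot_iff, ← hQ.inf_eq_bot]
    exact inf_le_inf_left _ inf_le_right
  have hsup : Z ⊔ C = U := by
    rw [hC, inf_comm, ← sup_inf_assoc_of_le _ (show Z ≤ U from inf_le_left), hQ.sup_eq_top,
      top_inf_eq]
  have hd : finrank K U = finrank K Z + finrank K C := by
    have := Submodule.finrank_sup_add_finrank_inf_eq Z C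
    rw [hZC, hsup] at this
    simpa using this
  have hv0 : v ≠ 0 := fun h => hne (by rw [h, map_zero]; exact Submodule.zero_mem _)
  have hvC : v ∉ C := fun h => hv0 ((Submodule.mem_bot K).1 (hZC ▸ (⟨hv, h⟩ : v ∈ Z ⊓ C)))
  let ψ0 : (C × K) →ₗ[K] V' :=
    ((L f).domRestrict C).coprod (LinearMap.toSpanSingleton K V' (L g v))
  let ψ1 : (C × K) →ₗ[K] V' := ((L g).domRestrict C).coprod 0
  let Ψ : (Bool → K) →ₗ[K] ((C × K) →ₗ[K] V') :=
    (LinearMap.proj false).smulRight ψ0 + (LinearMap.proj true).smulRight ψ1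
  have h0 : finrank K ↥((⊤ : Submodule K (C × K)) ⊓ LinearMap.ker (Ψ (Pi.single false 1))) ≤ 0 := by
    rw [Nat.le_zero, Submodule.finrank_eq_zero, eq_bot_iff]
    rintro ⟨c, a⟩ ⟨-, h⟩
    have h : L f c + a • L g v = 0 := by simpa [Ψ, ψ0, ψ1] using h
    have ha : a = 0 := by
      by_contra ha
      refine hne ⟨-(a⁻¹ • (c : V)), U.neg_mem (U.smul_mem _ c.2.1), ?_⟩
      rw [map_neg, map_smul, eq_neg_of_add_eq_zero_left h, smul_neg, neg_neg, smul_smul,
        inv_mul_cancel₀ ha, one_smul]
    rw [ha, zero_smul, add_zero] at h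
    have : (c : V) ∈ Z ⊓ C := ⟨⟨c.2.1, h⟩, c.2⟩
    rw [hZC, Submodule.mem_bot] at this
    simp [ha, Subtype.ext_iff, this]
  obtain ⟨s, ⟨h1, h2⟩, h3⟩ :=
    (((gen_ker Ψ ⊤ 0 _ h0).and (gen_coord false)).and (gen_coord true)).exists
  rw [Nat.le_zero, Submodule.finrank_eq_zero] at h1
  have h4 : (U ⊓ LinearMap.ker (L (s false • f + s true • g))) ⊓ (C ⊔ K ∙ v) = ⊥ := by
    rw [eq_bot_iff]
    rintro x ⟨⟨-, hx0⟩, hx⟩
    obtain ⟨c, hc, y, hy, rfl⟩ := Submodule.mem_sup.1 hx
    obtain ⟨b, rfl⟩ := Submodule.mem_span_singleton.1 hy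
    have hfv : L f v = 0 := hv.2
    have h5 : ((⟨c, hc⟩, b * s true / s false) : C × K) ∈
        (⊤ : Submodule K (C × K)) ⊓ LinearMap.ker (Ψ s) := by
      refine ⟨trivial, ?_⟩
      have hx0 : L (s false • f + s true • g) (c + b • v) = 0 := hx0
      show Ψ s _ = 0
      rw [← hx0]
      simp only [Ψ, ψ0, ψ1, LinearMap.add_apply, LinearMap.smulRight_apply, LinearMap.coe_proj,
        Function.eval, LinearMap.smul_apply, LinearMap.coprod_apply, LinearMap.domRestrict_apply,
        LinearMap.toSpanSingleton_apply, LinearMap.zero_apply, add_zero, map_add, map_smul, hfv,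
        smul_zero, zero_add, smul_add, smul_smul]
      rw [mul_div_cancel₀ _ h2]
      abel
    rw [h1, Submodule.mem_bot, Prod.mk_eq_zero] at h5
    have hb : b = 0 := by simpa [h2, h3] using h5.2
    have hc0 : c = 0 := congrArg Subtype.val h5.1
    simp [hb, hc0]
  have h5 := Submodule.finrank_sup_add_finrank_inf_eq
    (U ⊓ LinearMap.ker (L (s false • f + s true • g))) (C ⊔ K ∙ v)
  have h6 : finrank K ↥((U ⊓ LinearMap.ker (L (s false • f + s true • g))) ⊔ (C ⊔ K ∙ v)) ≤
      finrank K U := Submodule.finrank_mono (sup_le inf_le_left (sup_le inf_le_left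
        ((Submodule.span_singleton_le_iff_mem _ _).2 hv.1)))
  have h7 : finrank K C < finrank K ↥(C ⊔ K ∙ v) :=
    Submodule.finrank_lt_finrank_of_lt (left_lt_sup.2 fun h =>
      hvC ((Submodule.span_singleton_le_iff_mem _ _).1 h))
  have h8 := Nat.find_min' hex ⟨s false • f + s true • g, rfl⟩
  rw [h4, finrank_bot] at h5
  omega

variable {K : Type*} [Field K] {n : ℕ}

def wt (X : Finset (Fin n)) : ℕ := ∑ x ∈ X, 2 ^ x.val

lemma wt_inj : Function.Injective (wt (n := n)) := by
  intro X Y h
  apply map_injective Fin.valEmbedding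
  apply Finset.geomSum_injective (le_refl 2)
  simpa [sum_map, wt] using h

end

end Pool.Agent.P.MP_3acc10_al.Hd
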