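import Pool.Agent.P.MP_3acc10_al.HdTup

set_option autoImplicit false

namespace Pool.Agent.P.MP_3acc10_al.Hd

open Module Finset

variable {n : ℕ} {ι : Type*} [Fintype ι] [DecidableEq ι]

/-- the range of degrees -/
def Rg (n j d : ℕ) : Prop := j + 4 ≤ 2 * d ∨ (j < 2 * d ∧ 16 * d ≤ n)

lemma vanish {L : Type*} [Field L] [Infinite L] (h2 : (2 : L) ≠ 0)
    {δ : ι × Finset (Fin n) → L →+ L} (hδ : ∀ p x y, δ p (x * y) = x * δ p y + δ p x * y)
    {c : ι × Finset (Fin n) → L} (hc : ∀ p q, δ p (c q) = if q = p then 1 else 0) {d : ι → ℕ}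
    {j : ℕ} (hj : j ≤ n) (hd : ∀ i, d i < j → Rg n j (d i) ∧ 2 * j ≤ n + d i + 1)
    (hs : n.choose j ≤ ∑ i, if d i ≤ j then n.choose (j - d i) else 0) :
    WF j d univ c = ⊥ := by
  rw [eq_bot_iff]
  intro F hF
  by_contra h0
  have h0 : F ≠ 0 := h0
  have a1 := low hδ hc hF h0
  have a2 : ∀ i, d i ≤ j → n.choose (j - d i) ≤
      finrank L (Ak (d i) F) + finrank L (Jk (j - d i) F) := fun i hi =>
    le_Ak_add_Jk (by rw [Nat.sub_add_cancel hi]; exact hF.1)
  have a3 : finrank L (Tg δ F) ≤ n.choose j :=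
    (Submodule.finrank_mono (Tg_lev δ hF.1)).trans (finrank_lev _).le
  have p0 := Nat.choose_pos hj
  have p1 : ∀ i, 0 < n.choose (j - d i) := fun i => Nat.choose_pos (by omega)
  obtain ⟨l, hl, hm⟩ := exists_max_image (univ.filter fun i => d i ≤ j)
    (fun i => (finrank L (Jk (j - d i) F) : ℝ) / n.choose (j - d i)) (by
      by_contra hne
      rw [not_nonempty_iff_eq_empty, filter_eq_empty_iff] at hne
      rw [sum_eq_zero fun i hi => if_neg (hne hi)] at hs
      omega)
  have hl := (mem_filter.1 hl).2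
  have a4 := Ak_add_Jk (j - d l) F
  have h1 : n.choose j * n.choose (j - d l) < finrank L (Tg δ F) * n.choose (j - d l) +
      finrank L (Jk (j - d l) F) * n.choose j := by
    have b1 : ∀ i, (if d i ≤ j then n.choose (j - d i) else 0) * finrank L (Ak (j - d l) F) ≤
        finrank L (Ak (d i) F) * n.choose (j - d l) := by
      intro i
      split_ifs with hi
      · have b2 := hm i (by simpa using hi)
        rw [div_le_div_iff₀ (by exact_mod_cast p1 i) (by exact_mod_cast p1 l)] at b2
        have b2 : finrank L (Jk (j - d i) F) * n.choose (j - d l) ≤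
          finrank L (Jk (j - d l) F) * n.choose (j - d i) := by exact_mod_cast b2
        have b3 := Nat.mul_le_mul_right (n.choose (j - d l)) (a2 i hi)
        have b4 := congrArg (n.choose (j - d i) * ·) a4
        simp only [mul_add, add_mul, mul_comm (n.choose (j - d i)) (finrank L (Jk _ F))] at b3 b4
        omega
      · simp
    have b2 := sum_le_sum (s := univ) fun i _ => b1 i
    rw [← sum_mul, ← sum_mul] at b2
    have b3 := Nat.mul_le_mul_right (finrank L (Ak (j - d l) F)) hs
    have b4 := Nat.mul_lt_mul_of_pos_right a1 (p1 l)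
    have b5 := congrArg (n.choose j * ·) a4
    simp only [mul_add, mul_comm (n.choose j) (finrank L (Jk _ F))] at b5
    omega
  have a5 : finrank L (Ak (d l) F) < finrank L (Tg δ F) :=
    (single_le_sum (f := fun i => finrank L (Ak (d i) F)) (fun _ _ => Nat.zero_le _)
      (mem_univ l)).trans_lt a1
  have a6 := a2 l hl
  rcases hl.eq_or_lt with e | e
  · rw [e, Jk_zero h0, zero_mul, add_zero] at h1
    exact absurd (lt_of_mul_lt_mul_right h1 (Nat.zero_le _)) (not_lt.2 a3)
  obtain ⟨r1, r2⟩ := hd l e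
  obtain ⟨k, rfl⟩ : ∃ k, j = k + d l := ⟨j - d l, by omega⟩
  obtain ⟨m, hn⟩ : ∃ m, n = k + d l + m := ⟨n - (k + d l), by omega⟩
  rw [Nat.add_sub_cancel] at h1 a6
  have hk : 0 < k := by omega
  unfold Rg at r1
  have hd0 : 0 < d l := by omega
  have q1 : (0 : ℝ) < n.choose k := by exact_mod_cast Nat.choose_pos (by omega)
  have q3 : (0 : ℝ) < n.choose (d l) := by exact_mod_cast Nat.choose_pos (by omega)
  rcases lt_trichotomy k m with h | h | h
  · obtain ⟨g1, Λ, η, g2, g4, g5, g3⟩ := good_lt (d := d l) hk h (by omega)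
    rw [← hn] at g1 g2 g3
    exact no_lt hδ hk hd0 hj hF.1 h1 g1 g2 g4 g5 g3
  · obtain ⟨Λ, g2, g3⟩ := good_eq (d := d l) hk (by omega)
    rw [show k + d l + k = n by omega] at g2 g3
    have g4 := kap_small hδ hk hd0 hj hF.1 h1 g2
    have g5 := Tg_le_Jk hδ hc h2 hF (l := l) rfl (by omega)
    have g6 : (n.choose k : ℝ) ≤ 2 * finrank L (Jk k F) := by exact_mod_cast (by omega)
    rw [div_mul_eq_mul_div, div_lt_div_iff₀ q1 q3] at g4
    have := g2.2.1
    nlinarith [mul_le_mul_of_nonneg_right g6 (mul_pos (sub_pos.2 g2.2.1) q3).le,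
      mul_le_mul_of_nonneg_left g3 q1.le]
  · obtain rfl : k = m + 1 := by omega
    obtain ⟨Λ, g2, g3⟩ := good_gt (m := m) (d := d l) (by omega)
    rw [← hn] at g2 g3
    have g4 := kap_small hδ hk hd0 hj hF.1 h1 g2
    have g6 : (n.choose (m + 1) : ℝ) + 1 ≤ finrank L (Jk (m + 1) F) + n.choose (m + 1 + d l) := by
      exact_mod_cast (by omega)
    rw [div_mul_eq_mul_div, div_lt_div_iff₀ q1 q3] at g4
    nlinarith [mul_le_mul_of_nonneg_right g6 (mul_pos (sub_pos.2 g2.2.1) q3).le]

lemma gen_le {K : Type} [Field K] [Infinite K] (h2 : (2 : K) ≠ 0) {r : ℕ} {d : Fin r → ℕ}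
    {j : ℕ} (hj : j ≤ n) (hd : ∀ i, d i < j → Rg n j (d i) ∧ 2 * j ≤ n + d i + 1) :
    Gen fun c : Fin r × Finset (Fin n) → K => finrank K (WF j d univ c) ≤
      n.choose j - ∑ i, if d i ≤ j then n.choose (j - d i) else 0 := by
  set s := n.choose j - ∑ i, if d i ≤ j then n.choose (j - d i) else 0 with hs
  let d' : Fin r ⊕ Fin s → ℕ := Sum.elim d fun _ => j
  let τ := (Fin r ⊕ Fin s) × Finset (Fin n)
  let φ : K →+* FractionRing (MvPolynomial τ K) := (algebraMap (MvPolynomial τ K) _).comp MvPolynomial.C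
  have : Infinite (FractionRing (MvPolynomial τ K)) := Infinite.of_injective φ φ.injective
  choose δ h1 h3 using exists_der (K := K) (τ := τ)
  have h4 := vanish (d := d') (fun e => h2 (φ.injective (by rw [map_ofNat, e, map_zero]))) h1 h3 hj
    (by
      rintro (i | i) hi
      · exact hd i hi
      · exact absurd hi (lt_irrefl _))
    (by
      simp only [d', Fintype.sum_sum_type, Sum.elim_inl, Sum.elim_inr, le_refl, if_true,
        Nat.sub_self, Nat.choose_zero_right, sum_const, card_univ, Fintype.card_fin, smul_eq_mul]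
      omega)
  obtain ⟨c, hc⟩ := (gen_WF (K := K) (σ := Fin n) j d').exists
  rw [h4, finrank_bot] at hc
  refine gen_W _ _ _ s (fun p => c (Sum.inl p.1, p.2)) ?_
  have e : ∀ i, mask (fun i Y => Y.card = d i) (fun p : Fin r × Finset (Fin n) =>
      c (Sum.inl p.1, p.2)) i = mask (fun i Y => Y.card = d' i) c (Sum.inl i) := fun i => rfl
  have := finrank_le_add (WF j d univ fun p => c (Sum.inl p.1, p.2)) (WF j d' univ c) ⊤
    (LinearMap.pi fun b : Fin s => LinearMap.proj ∅ ∘ₗ
      actL (mask (fun i Y => Y.card = d' i) c (Sum.inr b))) (by simp) fun F hF h0 => ⟨hF.1, by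
        rintro (i | i) -
        · exact hF.2 i (mem_univ _)
        · ext T
          by_cases hT : T = ∅
          · rw [hT]; exact congrFun h0 i
          · exact act_mask_supp c _ hF.1 T (by simpa [d'] using hT)⟩
  rw [finrank_top, finrank_fin_fun] at this
  exact this.trans (by omega)

omit [Fintype ι] in
lemma lower_all {K : Type*} [Field K] (j : ℕ) (d : ι → ℕ) (A : Finset ι)
    (c : ι × Finset (Fin n) → K) : n.choose j ≤ finrank K (WF j d A c) +
      ∑ i ∈ A, if d i ≤ j then n.choose (j - d i) else 0 := by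
  induction A using Finset.induction_on with
  | empty => rw [finrank_WF_empty]; simp
  | insert l A hl ih =>
    have h1 := lower_step j d A l c
    have h2 := finrank_WF_le (j - d l) d A c
    rw [Fintype.card_fin] at h2
    rw [sum_insert hl]
    split_ifs at h1 ⊢ <;> omega

omit [Fintype ι] in
lemma al_low (d : ι → ℕ) (A : Finset ι) : ∀ j, (∀ l ∈ A, j < 2 * d l) →
    al n d A j = n.choose j - ((∑ i ∈ A, if d i ≤ j then n.choose (j - d i) else 0 : ℕ) : ℤ) := by
  induction A using Finset.induction_on with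
  | empty => simp
  | insert l A hl ih =>
    intro j hj
    have h1 := fun i hi => hj i (mem_insert_of_mem hi)
    have hl' := hj l (by simp)
    rw [al_insert n d hl, sum_insert hl, ih j h1]
    split_ifs with h
    · rw [ih _ fun i hi => by have := h1 i hi; omega, sum_eq_zero (s := A)
        (f := fun i => if d i ≤ j - d l then n.choose (j - d l - d i) else 0)
          fun i hi => if_neg (by have := h1 i hi; omega)]
      push_cast; ring
    · simp

theorem main {K : Type} [Field K] [Infinite K] (h2 : (2 : K) ≠ 0) (n r : ℕ) (d : Fin r → ℕ) :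
    Gen fun c : Fin r × Finset (Fin n) → K =>
      (∀ j, (∀ i, Rg n j (d i)) → (hilb d c j : ℤ) = truncCoeff (series n d univ) j) ∧
      (∀ J, (∀ i, Rg n J (d i)) → truncCoeff (series n d univ) J = 0 →
        ∀ j, (hilb d c j : ℤ) = truncCoeff (series n d univ) j) ∧
      ((∀ i, n + 8 ≤ 3 * d i) → ∀ j, (hilb d c j : ℤ) = truncCoeff (series n d univ) j) := by
  have h1 : ∀ j ∈ range (n + 1), Gen fun c : Fin r × Finset (Fin n) → K =>
      (∀ i, d i < j → Rg n j (d i) ∧ 2 * j ≤ n + d i + 1) → finrank K (WF j d univ c) ≤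
        n.choose j - ∑ i, if d i ≤ j then n.choose (j - d i) else 0 := by
    intro j hj
    by_cases h : ∀ i, d i < j → Rg n j (d i) ∧ 2 * j ≤ n + d i + 1
    · exact (gen_le h2 (by have := mem_range.1 hj; omega) h).mono fun c hc _ => hc
    · exact Gen.of_forall fun c h' => absurd h' h
  refine (Gen.all _ h1).mono fun c hc => ?_
  have et : ∀ j, truncCoeff (series n d univ) j =
      if ∀ i ≤ j, 0 < al n d univ i then al n d univ j else 0 := fun j => by
    unfold truncCoeff
    congr
  have ea : ∀ j, (∀ i, Rg n j (d i)) → al n d univ j =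
      n.choose j - ((∑ i, if d i ≤ j then n.choose (j - d i) else 0 : ℕ) : ℤ) := fun j hj =>
    al_low d univ j fun l _ => by have := hj l; unfold Rg at this; omega
  have mo : ∀ i j, i ≤ j → (∀ l, Rg n j (d l)) → ∀ l, Rg n i (d l) := fun i j h hj l => by
    have := hj l; unfold Rg at this ⊢; omega
  have up : ∀ i j, i ≤ j → finrank K (WF i d univ c) = 0 → finrank K (WF j d univ c) = 0 := by
    intro i j h h0
    have := finrank_WF_add i (j - i) d univ c
    rw [show i + (j - i) = j by omega, h0] at this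
    omega
  have q : ∀ j, (∀ i, Rg n j (d i)) → (∀ i < j, 0 < al n d univ i) → finrank K (WF j d univ c) ≤
      n.choose j - ∑ i, if d i ≤ j then n.choose (j - d i) else 0 := by
    intro j hj hp
    by_cases hn : n < j
    · have := finrank_WF_le j d univ c
      rw [Fintype.card_fin, Nat.choose_eq_zero_of_lt hn] at this
      omega
    refine hc j (mem_range.2 (by omega)) fun i hi => ⟨hj i, ?_⟩
    by_contra hne
    have a1 := hp (j - 1) (by omega)
    rw [ea _ (mo _ j (by omega) hj)] at a1
    have a2 := single_le_sum (f := fun i => if d i ≤ j - 1 then n.choose (j - 1 - d i) else 0)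
      (fun _ _ => Nat.zero_le _) (mem_univ i)
    simp only [if_pos (show d i ≤ j - 1 by omega)] at a2
    have a3 := choose_mono (n := n) (a := n - (j - 1)) (b := j - 1 - d i) (by omega) (by omega)
    rw [Nat.choose_symm (by omega)] at a3
    omega
  have r1 : ∀ j, (∀ i, Rg n j (d i)) → (hilb d c j : ℤ) = truncCoeff (series n d univ) j := by
    intro j hj
    rw [hilb_eq, et]
    split_ifs with h
    · have a1 := q j hj fun i hi => h i hi.le
      have a2 := lower_all j d univ c
      have a3 := h j le_rfl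
      rw [ea j hj] at a3 ⊢
      omega
    · have hex : ∃ i, i ≤ j ∧ ¬ 0 < al n d univ i := by simpa using h
      obtain ⟨a1, a2⟩ := Nat.find_spec hex
      have a3 := q _ (mo _ j a1 hj) fun i hi => by
        by_contra hne
        exact Nat.find_min hex hi ⟨by omega, hne⟩
      rw [ea _ (mo _ j a1 hj)] at a2
      rw [up _ j a1 (by omega), Nat.cast_zero]
  have r2 : ∀ J, (∀ i, Rg n J (d i)) → truncCoeff (series n d univ) J = 0 →
      ∀ j, (hilb d c j : ℤ) = truncCoeff (series n d univ) j := by
    intro J hJ h0 j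
    rcases le_total j J with h | h
    · exact r1 j (mo j J h hJ)
    have a1 := r1 J hJ
    rw [h0, hilb_eq] at a1
    rw [hilb_eq, up J j h (by exact_mod_cast a1), et, if_neg, Nat.cast_zero]
    intro hp
    rw [et, if_pos fun i hi => hp i (hi.trans h)] at h0
    exact (hp J h).ne' h0
  refine ⟨r1, r2, fun hd j => ?_⟩
  rcases isEmpty_or_nonempty (Fin r) with he | he
  · exact r1 j fun i => he.elim i
  obtain ⟨l, -, hl⟩ := exists_min_image univ d univ_nonempty
  have hJ : ∀ i, Rg n ((n + d l + 1) / 2) (d i) := fun i => Or.inl (by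
    have := hl i (mem_univ _); have := hd l; omega)
  refine r2 _ hJ ?_ j
  rw [et, if_neg]
  intro hp
  have a1 := hp _ le_rfl
  rw [ea _ hJ] at a1
  by_cases hn : n < (n + d l + 1) / 2
  · rw [Nat.choose_eq_zero_of_lt hn] at a1
    omega
  have a2 := single_le_sum (f := fun i => if d i ≤ (n + d l + 1) / 2 then
    n.choose ((n + d l + 1) / 2 - d i) else 0) (fun _ _ => Nat.zero_le _) (mem_univ l)
  simp only [if_pos (show d l ≤ (n + d l + 1) / 2 by omega)] at a2
  have a3 := choose_mono (n := n) (a := n - (n + d l + 1) / 2) (b := (n + d l + 1) / 2 - d l)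
    (by omega) (by omega)
  rw [Nat.choose_symm (by omega)] at a3
  omega

end Pool.Agent.P.MP_3acc10_al.Hd
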