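import Mathlib

set_option autoImplicit false

namespace Pool.Agent.P.MP_3acc10_al.Hd

open Finset

lemma small {κ τ Λ ε : ℝ} (k1 : κ ≤ 1) (t1 : τ ≤ 1) (l0 : 0 ≤ Λ) (e0 : 0 < ε)
    (h1 : 1 < τ + κ) (h2 : κ * τ - Λ * √(κ * (1 - κ) * (τ * (1 - τ))) ≤ ε * (1 - κ)) :
    κ * (1 - Λ) < ε := by
  have k0 : 0 < κ := by linarith
  have t0 : 0 < τ := by linarith
  have h3 : √(κ * (1 - κ) * (τ * (1 - τ))) ≤ κ * τ := by
    refine Real.sqrt_le_iff.2 ⟨by positivity, ?_⟩
    have : (1 - κ) * (1 - τ) ≤ κ * τ := by nlinarith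
    nlinarith [mul_le_mul_of_nonneg_left this (mul_pos k0 t0).le]
  refine lt_of_mul_lt_mul_left ?_ t0.le
  nlinarith [mul_le_mul_of_nonneg_left h3 l0, mul_pos e0 (show 0 < τ + κ - 1 by linarith)]

lemma big {κ τ α x σ Λ ε η : ℝ} (t1 : τ ≤ 1) (a1 : α ≤ 1) (l0 : 0 ≤ Λ)
    (l1 : Λ < 1) (e0 : 0 < ε) (s0 : 3 / 2 ≤ σ) (s1 : σ ≤ 3)
    (h0 : κ * (1 - Λ) < ε) (h1 : 1 < τ + κ) (h2 : κ ≤ x) (h3 : τ * σ ≤ α * σ + (x - κ))
    (h4 : x ≤ (1 - α) * (1 + σ * ε))
    (h5 : x * α - Λ * ((x * α + (1 - x) * (1 - α)) / 2) ≤ (1 - α) * (σ * ε))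
    (e1 : ε ≤ η) (e2 : 5 * η ≤ 1) (hc : 2 * η ≤ (1 - Λ - 3 * η) * (2 - 3 * η)) : False := by
  have k0 : 0 < κ := by linarith
  obtain ⟨z, rfl⟩ : ∃ z, α = 1 - z := ⟨1 - α, by ring⟩
  obtain ⟨B, rfl⟩ : ∃ B, Λ = 1 - B := ⟨1 - Λ, by ring⟩
  have z0 : 0 ≤ z := by linarith
  have B0 : 0 < B := by linarith
  simp only [sub_sub_cancel] at h0 h4 h5 hc
  have e3 : z * (σ * ε) ≤ z * (σ * η) := by gcongr
  have e4 : 0 < η := by linarith
  have h6 : z * σ < κ * (σ - 1) + x := by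
    nlinarith [mul_pos (show 0 < τ + κ - 1 by linarith) (show 0 < σ by linarith)]
  have h7 : z < x := by
    refine lt_of_mul_lt_mul_right ?_ (show 0 ≤ σ by linarith)
    nlinarith [mul_le_mul_of_nonneg_right h2 (show 0 ≤ σ - 1 by linarith)]
  have h8 : (1 - z) * B < σ * η := by
    refine lt_of_mul_lt_mul_left ?_ (show 0 ≤ x by linarith)
    nlinarith [mul_le_mul_of_nonneg_left h7.le l0,
      mul_lt_mul_of_pos_right h7 (mul_pos (show 0 < σ by linarith) e4)]
  have h9 : z * (σ - 1 - σ * η) < κ * (σ - 1) := by nlinarith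
  have t0 : 0 < σ - 1 - σ * η := by nlinarith
  have b1 := mul_lt_mul_of_pos_right h9 B0
  have b2 := mul_lt_mul_of_pos_right h8 t0
  have b3 := mul_lt_mul_of_pos_right (h0.trans_le e1) (show 0 < σ - 1 by linarith)
  have b4 : (B - σ * η) * (σ - 1 - σ * η) < η * (σ - 1) := by nlinarith
  have b5 : 4 * η ≤ B := by
    by_contra h
    nlinarith [mul_pos e4 e4]
  have b6 : η / 2 ≤ (B - 3 / 2 * η) * (1 / 2 - 3 / 2 * η) := by
    nlinarith [mul_le_mul_of_nonneg_right b5 (show 0 ≤ 1 / 2 - 3 / 2 * η by linarith),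
      mul_le_mul_of_nonneg_right e2 e4.le]
  nlinarith [mul_le_mul_of_nonneg_right hc (show 0 ≤ σ - 3 / 2 by linarith),
    mul_le_mul_of_nonneg_right b6 (show 0 ≤ 3 - σ by linarith),
    mul_nonneg (mul_nonneg (show 0 ≤ σ - 3 / 2 by linarith) (show 0 ≤ 3 - σ by linarith))
      (mul_nonneg e4.le (show 0 ≤ 1 - η by linarith))]

lemma sqrt_le {x a : ℝ} (x0 : 0 ≤ x) (x1 : x ≤ 1) (a0 : 0 ≤ a) (a1 : a ≤ 1) :
    √(x * (1 - x) * (a * (1 - a))) ≤ (x * a + (1 - x) * (1 - a)) / 2 := by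
  have h1 := mul_nonneg x0 a0
  have h2 := mul_nonneg (sub_nonneg.2 x1) (sub_nonneg.2 a1)
  refine Real.sqrt_le_iff.2 ⟨by linarith, ?_⟩
  nlinarith [sq_nonneg (x * a - (1 - x) * (1 - a))]

lemma choose_mono {n a b : ℕ} (h1 : a ≤ b) (h2 : a + b ≤ n) : n.choose a ≤ n.choose b := by
  have key : ∀ b, a ≤ b → b ≤ n / 2 → n.choose a ≤ n.choose b := by
    intro b h
    induction b, h using Nat.le_induction with
    | base => intro _; exact le_rfl
    | succ b _ ih =>
      intro h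
      exact (ih (by omega)).trans (Nat.choose_le_succ_of_lt_half_left (by omega))
  by_cases h : b ≤ n / 2
  · exact key b h1 h
  · rw [← Nat.choose_symm (by omega : b ≤ n)]
    exact key _ (by omega) (by omega)

lemma step1 {n k : ℕ} (h : k ≤ n) {c : ℝ} (hc : c * (k + 1) ≤ n - k) :
    c * n.choose k ≤ n.choose (k + 1) := by
  have e : (n.choose (k + 1) : ℝ) * (k + 1) = n.choose k * ((n : ℝ) - k) := by
    rw [← Nat.cast_sub h]
    exact_mod_cast Nat.choose_succ_right_eq n k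
  refine le_of_mul_le_mul_right ?_ (show (0 : ℝ) < k + 1 by positivity)
  rw [e]
  nlinarith [mul_le_mul_of_nonneg_left hc (Nat.cast_nonneg (α := ℝ) (n.choose k))]

lemma ratio {n k : ℕ} (t : ℕ) (h : k + t ≤ n) : (n.choose (k + t) : ℝ) *
    ∏ i ∈ range t, ((k : ℝ) + 1 + i) = n.choose k * ∏ i ∈ range t, ((n : ℝ) - k - i) := by
  induction t with
  | zero => simp
  | succ t ih =>
    have e : (n.choose (k + t + 1) : ℝ) * (k + t + 1) = n.choose (k + t) * ((n : ℝ) - k - t) := by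
      have e : ((n - (k + t) : ℕ) : ℝ) = (n : ℝ) - k - t := by
        rw [Nat.cast_sub (by omega)]; push_cast; ring
      rw [← e]
      exact_mod_cast Nat.choose_succ_right_eq n (k + t)
    rw [prod_range_succ, prod_range_succ, ← add_assoc]
    linear_combination (∏ i ∈ range t, ((k : ℝ) + 1 + i)) * e + ((n : ℝ) - k - t) * ih (by omega)

lemma ratio_le {n k d : ℕ} (t : ℕ) (h1 : k + t ≤ d) (h2 : k + t + d ≤ n) {c : ℝ}
    (hc : c * ∏ i ∈ range t, ((k : ℝ) + 1 + i) ≤ ∏ i ∈ range t, ((n : ℝ) - k - i)) :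
    c * n.choose k ≤ n.choose d := by
  have h3 : (n.choose (k + t) : ℝ) ≤ n.choose d := by exact_mod_cast choose_mono h1 h2
  refine le_trans (le_of_mul_le_mul_right ?_
    (show (0 : ℝ) < ∏ i ∈ range t, ((k : ℝ) + 1 + i) by positivity)) h3
  rw [ratio t (by omega)]
  nlinarith [mul_le_mul_of_nonneg_left hc (Nat.cast_nonneg (α := ℝ) (n.choose k))]

lemma four {n k d : ℕ} (h1 : k + 4 ≤ d) (h2 : k + 4 + d ≤ n) {c c1 c2 c3 c4 : ℝ}
    (hc : c ≤ c1 * c2 * c3 * c4) (p1 : 0 ≤ c1) (p2 : 0 ≤ c2) (p3 : 0 ≤ c3) (p4 : 0 ≤ c4)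
    (q1 : c1 * (k + 1) ≤ n - k - 3) (q2 : c2 * (k + 2) ≤ n - k - 2)
    (q3 : c3 * (k + 3) ≤ n - k - 1) (q4 : c4 * (k + 4) ≤ n - k) :
    c * n.choose k ≤ n.choose d := by
  refine ratio_le 4 h1 h2 ?_
  have r1 : (0 : ℝ) ≤ n - k - 3 := le_trans (by positivity) q1
  have r2 : (0 : ℝ) ≤ n - k - 2 := by linarith
  have r3 : (0 : ℝ) ≤ n - k - 1 := by linarith
  have h : c1 * (k + 1) * (c2 * (k + 2)) * (c3 * (k + 3)) * (c4 * (k + 4)) ≤
      ((n : ℝ) - k - 3) * (n - k - 2) * (n - k - 1) * (n - k) := by gcongr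
  have h' := mul_le_mul_of_nonneg_right hc
    (show (0 : ℝ) ≤ (k + 1) * (k + 2) * (k + 3) * (k + 4) by positivity)
  simp only [prod_range_succ, prod_range_zero]
  push_cast
  linarith

/-- an upper bound for the second singular value -/
def Lam (n k d : ℕ) (Λ : ℝ) : Prop :=
  0 ≤ Λ ∧ Λ < 1 ∧ k * ((n : ℝ) - k - d) ≤ Λ ^ 2 * ((k + d) * ((n : ℝ) - k))

lemma good_lt {k d m : ℕ} (hk : 0 < k) (hm : k < m)
    (h : k + 4 ≤ d ∨ (k < d ∧ 16 * d ≤ k + d + m)) :
    3 * (k + d + m).choose k ≤ 2 * (k + d + m).choose (k + d) ∧ ∃ Λ η : ℝ,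
      Lam (k + d + m) k d Λ ∧ 5 * η ≤ 1 ∧ 2 * η ≤ (1 - Λ - 3 * η) * (2 - 3 * η) ∧
      (k + d + m).choose k ≤ η * (k + d + m).choose d := by
  have hd : k < d := by omega
  have k0 : (1 : ℝ) ≤ k := by exact_mod_cast hk
  have hd' : (k : ℝ) + 1 ≤ d := by exact_mod_cast hd
  have hm' : (k : ℝ) + 1 ≤ m := by exact_mod_cast hm
  constructor
  · have h1 := step1 (n := k + d + m) (k := k) (by omega) (c := 2) (by push_cast; linarith)
    have h2 := choose_mono (n := k + d + m) (a := k + 1) (b := k + d) (by omega) (by omega)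
    have h1 : 2 * (k + d + m).choose k ≤ (k + d + m).choose (k + 1) := by exact_mod_cast h1
    omega
  have L1 : Lam (k + d + m) k d (5 / 7) := by
    refine ⟨by norm_num, by norm_num, ?_⟩
    push_cast
    nlinarith [mul_nonneg (show (0 : ℝ) ≤ d - k by linarith) (show (0 : ℝ) ≤ m by linarith),
      mul_nonneg (show (0 : ℝ) ≤ d + k by linarith) (show (0 : ℝ) ≤ d by linarith),
      mul_nonneg (show (0 : ℝ) ≤ k by linarith) (show (0 : ℝ) ≤ m by linarith)]
  rcases h with h | h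
  swap
  · refine ⟨_, 1 / 15, L1, by norm_num, by norm_num, ?_⟩
    have h' : 16 * (d : ℝ) ≤ k + d + m := by exact_mod_cast h.2
    have := ratio_le (n := k + d + m) (k := k) (d := d) 1 (by omega) (by omega) (c := 15)
      (by simp only [prod_range_succ, prod_range_zero]; push_cast; linarith)
    linarith
  have h' : (k : ℝ) + 4 ≤ d := by exact_mod_cast h
  by_cases c1 : d < m
  · refine ⟨_, 1 / 15, L1, by norm_num, by norm_num, ?_⟩
    have c1' : (d : ℝ) + 1 ≤ m := by exact_mod_cast c1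
    have := four (n := k + d + m) h (by omega) (c := 15) (c1 := 2) (c2 := 2) (c3 := 2) (c4 := 2)
      (by norm_num) (by norm_num) (by norm_num) (by norm_num) (by norm_num)
      (by push_cast; linarith) (by push_cast; linarith) (by push_cast; linarith)
      (by push_cast; linarith)
    linarith
  have c1' : (m : ℝ) ≤ d := by exact_mod_cast not_lt.1 c1
  by_cases c2 : 4 ≤ m
  · have c2' : (4 : ℝ) ≤ m := by exact_mod_cast c2
    refine ⟨1 / 2, 1 / 9, ⟨by norm_num, by norm_num, ?_⟩, by norm_num, by norm_num, ?_⟩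
    · push_cast
      nlinarith [mul_le_mul (show 2 * (k : ℝ) ≤ k + d by linarith)
        (show 2 * (m : ℝ) ≤ d + m by linarith) (by linarith) (by linarith)]
    · have := four (n := k + d + m) h (by omega) (c := 9) (c1 := 2) (c2 := 9 / 5) (c3 := 5 / 3)
        (c4 := 11 / 7) (by norm_num) (by norm_num) (by norm_num) (by norm_num) (by norm_num)
        (by push_cast; linarith) (by push_cast; linarith) (by push_cast; linarith)
        (by push_cast; linarith)
      linarith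
  have c2' : (m : ℝ) ≤ 3 := by exact_mod_cast (by omega : m ≤ 3)
  refine ⟨1 / 3, 1 / 7, ⟨by norm_num, by norm_num, ?_⟩, by norm_num, by norm_num, ?_⟩
  · push_cast
    nlinarith [mul_le_mul (show 3 * (k : ℝ) ≤ k + d by linarith)
      (show 3 * (m : ℝ) ≤ d + m + 1 by linarith) (by linarith) (by linarith)]
  · suffices 7 * ((k + d + m).choose k : ℝ) ≤ (k + d + m).choose d by linarith
    by_cases c3 : k = 1
    · subst c3
      refine ratio_le 2 (by omega) (by omega) ?_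
      simp only [prod_range_succ, prod_range_zero]
      push_cast at *
      nlinarith
    · obtain rfl : k = 2 := by omega
      obtain rfl : m = 3 := by omega
      refine ratio_le 3 (by omega) (by omega) ?_
      simp only [prod_range_succ, prod_range_zero]
      push_cast at *
      have h : (9 : ℝ) * 8 * 7 ≤ ((d : ℝ) + 3) * (d + 2) * (d + 1) := by gcongr <;> linarith
      linarith

lemma good_eq {k d : ℕ} (hk : 0 < k) (h : k + 4 ≤ d) : ∃ Λ, Lam (k + d + k) k d Λ ∧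
    2 * ((k + d + k).choose k : ℝ) ≤ (1 - Λ) * (k + d + k).choose d := by
  have h' : (k : ℝ) + 4 ≤ d := by exact_mod_cast h
  by_cases c : k = 1
  · subst c
    refine ⟨1 / 3, ⟨by norm_num, by norm_num, ?_⟩, ?_⟩
    · push_cast at *
      nlinarith
    · have := ratio_le (n := 1 + d + 1) (k := 1) (d := d) 1 (by omega) (by omega) (c := 3)
        (by simp only [prod_range_succ, prod_range_zero]; push_cast at *; linarith)
      linarith
  have k0 : (2 : ℝ) ≤ k := by exact_mod_cast (by omega : 2 ≤ k)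
  refine ⟨1 / 2, ⟨by norm_num, by norm_num, ?_⟩, ?_⟩
  · push_cast
    nlinarith [mul_le_mul (show 2 * (k : ℝ) ≤ k + d by linarith)
      (show 2 * (k : ℝ) ≤ d + k by linarith) (by linarith) (by linarith)]
  · have := ratio_le (n := k + d + k) (k := k) (d := d) 2 (by omega) (by omega) (c := 4) (by
      simp only [prod_range_succ, prod_range_zero]
      push_cast
      nlinarith [mul_le_mul (show 2 * ((k : ℝ) + 1) ≤ d + k - 1 by linarith)
        (show 2 * ((k : ℝ) + 2) ≤ d + k by linarith) (by linarith) (by linarith)])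
    linarith

lemma good_gt {m d : ℕ} (h : m + 1 + 4 ≤ d) : ∃ Λ, Lam (m + 1 + d + m) (m + 1) d Λ ∧
    ((m + 1 + d + m).choose (m + 1) : ℝ) ^ 2 ≤ (1 - Λ) * (m + 1 + d + m).choose d *
      ((m + 1 + d + m).choose (m + 1) - (m + 1 + d + m).choose (m + 1 + d) + 1) := by
  have h' : (m : ℝ) + 1 + 4 ≤ d := by exact_mod_cast h
  have m0 : (0 : ℝ) ≤ m := Nat.cast_nonneg _
  rw [Nat.choose_symm_add]
  have key : ∀ Λ c c' : ℝ, 0 < c → 0 ≤ 1 - Λ → 1 ≤ c' → c' ≤ (1 - Λ) * c * (c' - 1) →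
      c * ((m + 1 + d + m).choose (m + 1) : ℝ) ≤ (m + 1 + d + m).choose d →
      c' * (m + 1) ≤ m + 1 + d →
      ((m + 1 + d + m).choose (m + 1) : ℝ) ^ 2 ≤ (1 - Λ) * (m + 1 + d + m).choose d *
        ((m + 1 + d + m).choose (m + 1) - (m + 1 + d + m).choose m + 1) := by
    intro Λ c c' c0 l0 c1 c2 a1 a2
    have a3 := step1 (n := m + 1 + d + m) (k := m) (by omega) (c := c') (by push_cast; linarith)
    have x0 : (0 : ℝ) ≤ (m + 1 + d + m).choose (m + 1) := Nat.cast_nonneg _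
    have y0 : (0 : ℝ) ≤ (m + 1 + d + m).choose d := Nat.cast_nonneg _
    generalize (((m + 1 + d + m).choose (m + 1) : ℕ) : ℝ) = x at *
    generalize (((m + 1 + d + m).choose d : ℕ) : ℝ) = y at *
    generalize (((m + 1 + d + m).choose m : ℕ) : ℝ) = z at *
    refine le_of_mul_le_mul_left ?_ (show 0 < c' by linarith)
    have b1 : (1 - Λ) * (c * x) * ((c' - 1) * x) ≤ (1 - Λ) * y * (c' * (x - z + 1)) := by
      have : 0 ≤ (c' - 1) * x := mul_nonneg (by linarith) x0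
      exact mul_le_mul (mul_le_mul_of_nonneg_left a1 l0) (by linarith) this (mul_nonneg l0 y0)
    nlinarith [mul_le_mul_of_nonneg_right c2 (mul_nonneg x0 x0)]
  rcases Nat.eq_zero_or_pos m with rfl | c
  · refine ⟨0, ⟨le_rfl, by norm_num, by simp⟩, ?_⟩
    simp [Nat.add_comm 1 d, pow_two]
  by_cases c1 : m = 1
  · subst c1
    refine ⟨1 / 3, ⟨by norm_num, by norm_num, ?_⟩, key _ (7 / 3) 4 (by norm_num) (by norm_num)
      (by norm_num) (by norm_num) (ratio_le 1 (by omega) (by omega) ?_) ?_⟩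
    · push_cast at *
      nlinarith
    · simp only [prod_range_succ, prod_range_zero]; push_cast at *; linarith
    · push_cast at *; linarith
  have L1 : Lam (m + 1 + d + m) (m + 1) d (1 / 2) := by
    refine ⟨by norm_num, by norm_num, ?_⟩
    push_cast
    nlinarith [mul_le_mul (show 2 * ((m : ℝ) + 1) ≤ m + 1 + d by linarith)
      (show 2 * (m : ℝ) ≤ d + m by linarith) (by linarith) (by linarith)]
  by_cases c2 : m = 2
  · subst c2
    refine ⟨_, L1, key _ (18 / 5) (10 / 3) (by norm_num) (by norm_num)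
      (by norm_num) (by norm_num) (ratio_le 2 (by omega) (by omega) ?_) ?_⟩
    · simp only [prod_range_succ, prod_range_zero]; push_cast at *; nlinarith
    · push_cast at *; linarith
  refine ⟨_, L1, key _ 4 2 (by norm_num) (by norm_num)
    (by norm_num) (by norm_num) (ratio_le 3 (by omega) (by omega) ?_) (by linarith)⟩
  simp only [prod_range_succ, prod_range_zero]
  push_cast
  have m3 : (3 : ℝ) ≤ m := by exact_mod_cast (by omega : 3 ≤ m)
  have h : 2 * ((m : ℝ) + 2) * (3 / 2 * (m + 3)) * (4 / 3 * (m + 4)) ≤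
      ((d : ℝ) + m - 1) * (d + m - 2) * (d + m) := by
    have r1 : (0 : ℝ) ≤ d + m - 2 := by linarith
    have r2 : (0 : ℝ) ≤ d + m - 1 := by linarith
    gcongr <;> linarith
  linarith

lemma exists_s {a b : ℕ} (ha : 0 < a) (h : 3 * a ≤ 2 * b) :
    ∃ s, 0 < s ∧ 3 * (s * a) ≤ 2 * b ∧ b ≤ 3 * (s * a) := by
  by_cases c : b ≤ 3 * a
  · exact ⟨1, one_pos, by omega, by omega⟩
  · have h1 := Nat.div_add_mod b (3 * a)
    have h2 := Nat.mod_lt b (show 0 < 3 * a by omega)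
    have h3 : 3 * ((b / (3 * a) + 1) * a) = 3 * a * (b / (3 * a)) + 3 * a := by ring
    refine ⟨b / (3 * a) + 1, Nat.succ_pos _, ?_, ?_⟩ <;> omega

end Pool.Agent.P.MP_3acc10_al.Hd
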