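import Pool.Agent.P.MP_3acc10_al.HdAlg
import Pool.Agent.P.MP_3acc10_al.HdNum

set_option autoImplicit false

namespace Pool.Agent.P.MP_3acc10_al.Hd

open Module Finset

variable {L : Type*} [Field L] {n s : ℕ}

/-- one row of a tuple -/
def row (i : Fin s) : (Fin s × Finset (Fin n) → L) →ₗ[L] (Finset (Fin n) → L) :=
  LinearMap.funLeft L L fun A => (i, A)

lemma row_apply (i : Fin s) (v : Fin s × Finset (Fin n) → L) (A : Finset (Fin n)) :
    row i v A = v (i, A) := rfl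

/-- contraction by a tuple of forms -/
def Lm : (Fin s × Finset (Fin n) → L) →ₗ[L] (Finset (Fin n) → L) →ₗ[L]
    (Fin s × Finset (Fin n) → L) :=
  LinearMap.mk₂ L (fun v G p => actL (row p.1 v) G p.2)
    (fun v v' G => by ext p; simp only [map_add, LinearMap.add_apply, Pi.add_apply])
    (fun a v G => by ext p; simp only [map_smul, LinearMap.smul_apply, Pi.smul_apply])
    (fun v G G' => by ext p; simp only [map_add, Pi.add_apply])
    (fun a v G => by ext p; simp only [map_smul, Pi.smul_apply])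

lemma Lm_apply (v : Fin s × Finset (Fin n) → L) (G : Finset (Fin n) → L)
    (p : Fin s × Finset (Fin n)) : Lm v G p = act (row p.1 v) G p.2 := rfl

lemma Dv_Lm {δ : L →+ L} (hδ : ∀ x y, δ (x * y) = x * δ y + δ x * y)
    (v : Fin s × Finset (Fin n) → L) (G : Finset (Fin n) → L) :
    Dv δ (Lm v G) = Lm v (Dv δ G) + Lm (Dv δ v) G :=
  funext fun p => congrFun (Dv_act hδ (row p.1 v) G) p.2

/-- lexicographic weight -/
def lx (w : Finset (Fin n) → ℤ) (p : Fin s × Finset (Fin n)) : Fin s ×ₗ ℤ := toLex (p.1, w p.2)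

lemma lx_inj {w : Finset (Fin n) → ℤ} (h : Function.Injective w) :
    Function.Injective (lx (s := s) w) := fun p q e => by
  have := Prod.ext_iff.1 (toLex.injective e)
  exact Prod.ext this.1 (h this.2)

lemma lx_lt {w : Finset (Fin n) → ℤ} {p q : Fin s × Finset (Fin n)} :
    lx w p < lx w q ↔ p.1 < q.1 ∨ p.1 = q.1 ∧ w p.2 < w q.2 := Prod.Lex.toLex_lt_toLex

/-- fibre of a family of pairs -/
def fib (S : Finset (Fin s × Finset (Fin n))) (i : Fin s) : Finset (Finset (Fin n)) :=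
  univ.filter fun A => (i, A) ∈ S

lemma mem_fib {S : Finset (Fin s × Finset (Fin n))} {i : Fin s} {A : Finset (Fin n)} :
    A ∈ fib S i ↔ (i, A) ∈ S := by simp [fib]

lemma sum_fib (S : Finset (Fin s × Finset (Fin n))) : ∑ i, (fib S i).card = S.card := by
  simp only [fib, card_filter]
  rw [← Fintype.sum_prod_type' fun i A => if (i, A) ∈ S then 1 else 0]
  simp

lemma cov_tup {P R : Submodule L (Fin s × Finset (Fin n) → L)}
    {Q : Submodule L (Finset (Fin n) → L)} (h : ∀ v ∈ P, ∀ G ∈ Q, Lm v G ∈ R) :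
    ∑ i, (cov (fib (ld (lx wn) P) i) (ld wz Q)).card ≤ finrank L R := by
  rw [← card_ld (lx_inj wz_inj), ← sum_fib]
  refine sum_le_sum fun i _ => card_le_card fun C hC => ?_
  obtain ⟨A, h1, X, h2, h3, rfl⟩ := mem_cov.1 hC
  obtain ⟨v, hv, v1, v2⟩ := mem_ld.1 (mem_fib.1 h1)
  obtain ⟨G, hG, g1, g2⟩ := mem_ld.1 h2
  have := ld_act (u := row i v) v1 (fun Y hY => v2 (i, Y) (lx_lt.2 (Or.inr ⟨rfl, hY⟩))) g1 g2 h3
  refine mem_fib.2 (mem_ld.2 ⟨_, h v hv G hG, this.1, ?_⟩)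
  rintro ⟨i', T⟩ hT
  rcases lx_lt.1 hT with e | ⟨e, e'⟩
  · rw [Lm_apply, show row i' v = 0 from funext fun Y => v2 (i', Y) (lx_lt.2 (Or.inl e)), zero_act]
    rfl
  · obtain rfl : i = i' := e
    exact this.2 T e'

lemma tuple [Infinite L] {π : Type*} {δ : π → L →+ L}
    (hδ : ∀ p x y, δ p (x * y) = x * δ p y + δ p x * y) (k j s : ℕ) (F : Finset (Fin n) → L)
    (hF : F ∈ lev L n j) :
    ∃ (𝒬 : Fin s → Finset (Finset (Fin n))) (ℐ : Finset (Finset (Fin n))),
      (∀ i, ∀ A ∈ 𝒬 i, A.card = k) ∧ (∀ X ∈ ℐ, X.card = j) ∧ (∀ i, ld wn (Jk k F) ⊆ 𝒬 i) ∧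
      ∑ i, (cov (𝒬 i) ℐ).card + ℐ.card ≤ n.choose j ∧
      finrank L (Tg δ F) + s * finrank L (Jk k F) ≤ ℐ.card + ∑ i, (𝒬 i).card := by
  classical
  let JS : Submodule L (Fin s × Finset (Fin n) → L) := ⨅ i, (Jk k F).comap (row i)
  have mJ : ∀ v, v ∈ JS ↔ ∀ i, row i v ∈ Jk k F := fun v => by simp [JS]
  obtain ⟨u, hu⟩ := first_order (Lm ∘ₗ JS.subtype) (lev L n j)
  set An := lev L n j ⊓ LinearMap.ker (Lm u.1) with hAn
  set G := (lev L n j).map (Lm u.1) with hG
  let P : Submodule L (Fin s × Finset (Fin n) → L) :=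
    (⨅ i, (lev L n k).comap (row i)) ⊓ ⨅ b : An, G.comap (Lm.flip b.1)
  have mP : ∀ v, v ∈ P ↔ (∀ i, row i v ∈ lev L n k) ∧ ∀ b ∈ An, Lm v b ∈ G := fun v => by
    simp [P]
  have hJP : JS ≤ P := fun v hv =>
    (mP v).2 ⟨fun i => ((mJ v).1 hv i).1, fun b hb => hu ⟨v, hv⟩ b hb⟩
  have hJ0 : ∀ v ∈ JS, Lm v F = 0 := fun v hv => funext fun p =>
    congrFun ((mJ v).1 hv p.1).2 p.2
  have hK : ∀ i, ld wn (Jk k F) ⊆ fib (ld (lx wn) JS) i := by
    intro i A hA
    obtain ⟨w, hw, w1, w2⟩ := mem_ld.1 hA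
    refine mem_fib.2 (mem_ld.2 ⟨fun p => if p.1 = i then w p.2 else 0, (mJ _).2 fun i' => ?_,
      by simpa using w1, ?_⟩)
    · by_cases e : i' = i
      · have : row i' (fun p : Fin s × Finset (Fin n) => if p.1 = i then w p.2 else 0) = w := by
          ext Y; simp [row_apply, e]
        rwa [this]
      · have : row i' (fun p : Fin s × Finset (Fin n) => if p.1 = i then w p.2 else 0) = 0 := by
          ext Y; simp [row_apply, e]
        rw [this]; exact Submodule.zero_mem _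
    · rintro ⟨i', Y⟩ hY
      rcases lx_lt.1 hY with e | ⟨-, e⟩
      · exact if_neg (ne_of_gt e)
      · simp [w2 Y e]
  refine ⟨fib (ld (lx wn) P), ld wz An, fun i A hA => ?_, ld_card inf_le_left, fun i A hA =>
    mem_fib.2 (ld_mono hJP (mem_fib.1 (hK i hA))), ?_, ?_⟩
  · obtain ⟨v, hv, v1, -⟩ := mem_ld.1 (mem_fib.1 hA)
    by_contra hne
    exact v1 (((mP v).1 hv).1 i A hne)
  · have h1 := cov_tup (P := P) (Q := An) (R := G) fun v hv => ((mP v).1 hv).2
    have h2 := rank_null (lev L n j) (Lm u.1)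
    rw [finrank_lev, ← hG, ← hAn] at h2
    rw [card_ld wz_inj]
    omega
  · rw [sum_fib, card_ld wz_inj, card_ld (lx_inj wn_inj)]
    have h1 : Tg δ F ≤ (P.map (Lm.flip F)).comap (Lm u.1) := by
      refine Tg_le ?_ fun p => ?_
      · show Lm u.1 F ∈ P.map (Lm.flip F)
        rw [hJ0 _ u.2]; exact Submodule.zero_mem _
      · have h := Dv_Lm (hδ p) u.1 F
        rw [hJ0 _ u.2, Dv_zero, eq_comm, add_eq_zero_iff_eq_neg] at h
        show Lm u.1 (Dv (δ p) F) ∈ P.map (Lm.flip F)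
        rw [h]
        refine Submodule.neg_mem _ ⟨_, (mP _).2 ⟨fun i => Dv_lev _ ((mJ _).1 u.2 i).1,
          fun b hb => ?_⟩, rfl⟩
        have h := Dv_Lm (hδ p) u.1 b
        rw [show Lm u.1 b = 0 from hb.2, Dv_zero, eq_comm, add_eq_zero_iff_neg_eq] at h
        rw [← h]
        exact Submodule.neg_mem _ ⟨_, Dv_lev _ hb.1, rfl⟩
    have h2 := finrank_le_add (Tg δ F) An (P.map (Lm.flip F)) (Lm u.1) (fun x hx => h1 hx)
      fun x hx h0 => ⟨Tg_lev δ hF hx, h0⟩
    have h3 := rank_null P (Lm.flip F)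
    have h4 : finrank L JS ≤ finrank L ↥(P ⊓ LinearMap.ker (Lm.flip F)) :=
      Submodule.finrank_mono fun v hv => ⟨hJP hv, hJ0 v hv⟩
    have h5 : s * finrank L (Jk k F) ≤ finrank L JS := by
      rw [← card_ld (lx_inj wn_inj), ← sum_fib, ← card_ld wn_inj]
      simpa using sum_le_sum (s := univ) fun i _ => card_le_card (hK i)
    omega

variable {π : Type*} {δ : π → L →+ L} (hδ : ∀ p x y, δ p (x * y) = x * δ p y + δ p x * y)
  {k d : ℕ} (hk : 0 < k) (hd : 0 < d) (hn : k + d ≤ n) {F : Finset (Fin n) → L}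
  (hF : F ∈ lev L n (k + d))
  (h1 : n.choose (k + d) * n.choose k <
    finrank L (Tg δ F) * n.choose k + finrank L (Jk k F) * n.choose (k + d))

include hn h1 in
lemma one_lt : (1 : ℝ) < (finrank L (Tg δ F) : ℝ) / n.choose (k + d) +
    (finrank L (Jk k F) : ℝ) / n.choose k := by
  have p1 : (0 : ℝ) < n.choose k := by exact_mod_cast Nat.choose_pos (by omega)
  have p2 : (0 : ℝ) < n.choose (k + d) := by exact_mod_cast Nat.choose_pos hn
  rw [div_add_div _ _ p2.ne' p1.ne', one_lt_div (mul_pos p2 p1), mul_comm _ (finrank L _ : ℝ)]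
  exact_mod_cast h1

include hδ hk hd hn hF h1

lemma kap_small {Λ : ℝ} (hΛ : Lam n k d Λ) :
    (finrank L (Jk k F) : ℝ) / n.choose k * (1 - Λ) < (n.choose k : ℝ) / n.choose d := by
  have p1 : (0 : ℝ) < n.choose k := by exact_mod_cast Nat.choose_pos (by omega)
  have p2 : (0 : ℝ) < n.choose (k + d) := by exact_mod_cast Nat.choose_pos hn
  have p3 : (0 : ℝ) < n.choose d := by exact_mod_cast Nat.choose_pos (by omega)
  have a1 := Ak_add_Jk k F
  have a2 : finrank L (Tg δ F) ≤ n.choose (k + d) :=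
    (Submodule.finrank_mono (Tg_lev δ hF)).trans (finrank_lev _).le
  have a3 := (cov_ge hk hd hn (ld_card (w := wn) (Z := Jk k F) inf_le_left)
    (ld_card (w := wz) (Tg_lev δ hF)) rfl rfl).2 Λ hΛ.1 hΛ.2.2
  have a4 := cov_le (act_Tg hδ (k := k) (F := F))
  rw [card_ld wn_inj, card_ld wz_inj] at a3
  refine small ((div_le_one p1).2 (by exact_mod_cast (by omega))) ((div_le_one p2).2
    (by exact_mod_cast a2)) hΛ.1 (div_pos p1 p3) (one_lt hn h1) (a3.trans ?_)
  have a5 : ((cov (ld wn (Jk k F)) (ld wz (Tg δ F))).card : ℝ) + finrank L (Jk k F) ≤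
      n.choose k := by exact_mod_cast (by omega)
  rw [one_sub_div p1.ne', div_mul_div_comm, mul_comm (n.choose d : ℝ), mul_div_mul_left _ _ p1.ne']
  gcongr
  linarith

lemma no_lt [Infinite L] (h3 : 3 * n.choose k ≤ 2 * n.choose (k + d)) {Λ η : ℝ}
    (hΛ : Lam n k d Λ) (e2 : 5 * η ≤ 1) (e3 : 2 * η ≤ (1 - Λ - 3 * η) * (2 - 3 * η))
    (hc : n.choose k ≤ η * n.choose d) : False := by
  have p1 : (0 : ℝ) < n.choose k := by exact_mod_cast Nat.choose_pos (by omega)
  have p2 : (0 : ℝ) < n.choose (k + d) := by exact_mod_cast Nat.choose_pos hn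
  have p3 : (0 : ℝ) < n.choose d := by exact_mod_cast Nat.choose_pos (by omega)
  obtain ⟨s, s0, s1, s2⟩ := exists_s (Nat.choose_pos (by omega : k ≤ n)) h3
  obtain ⟨𝒬, ℐ, b1, b2, b3, b4, b5⟩ := tuple hδ k (k + d) s F hF
  have p4 : (0 : ℝ) < s := by exact_mod_cast s0
  have a2 : finrank L (Tg δ F) ≤ n.choose (k + d) :=
    (Submodule.finrank_mono (Tg_lev δ hF)).trans (finrank_lev _).le
  have q5 : (ℐ.card : ℝ) / n.choose (k + d) ≤ 1 :=
    (div_le_one p2).2 (by exact_mod_cast dens_le b2)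
  have c1 := sum_le_sum (s := univ) fun i _ => le_trans (sub_le_sub_left
    (mul_le_mul_of_nonneg_left (sqrt_le (by positivity) ((div_le_one p1).2
      (by exact_mod_cast dens_le (b1 i))) (by positivity) q5) hΛ.1) _)
    ((cov_ge hk hd hn (b1 i) b2 rfl rfl).2 Λ hΛ.1 hΛ.2.2)
  have c2 := sum_le_sum (s := univ) fun i _ => (cov_ge hk hd hn (b1 i) b2 rfl rfl).1
  have c3 : s * finrank L (Jk k F) ≤ ∑ i, (𝒬 i).card := by
    rw [← card_ld wn_inj]
    simpa using sum_le_sum (s := univ) fun i _ => card_le_card (b3 i)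
  simp only [sum_sub_distrib, sum_add_distrib, ← sum_div, ← sum_mul, ← mul_sum, sum_const,
    card_univ, Fintype.card_fin, nsmul_eq_mul, mul_one, ← Nat.cast_sum] at c1 c2
  have b4' : ((∑ i, (cov (𝒬 i) ℐ).card : ℕ) : ℝ) + ℐ.card ≤ n.choose (k + d) := by
    exact_mod_cast b4
  have b5' : (finrank L (Tg δ F) : ℝ) + s * finrank L (Jk k F) ≤
      ℐ.card + (∑ i, (𝒬 i).card : ℕ) := by exact_mod_cast b5
  have c3' : (s : ℝ) * finrank L (Jk k F) ≤ (∑ i, (𝒬 i).card : ℕ) := by exact_mod_cast c3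
  have s1' : 3 * ((s : ℝ) * n.choose k) ≤ 2 * n.choose (k + d) := by exact_mod_cast s1
  have s2' : (n.choose (k + d) : ℝ) ≤ 3 * (s * n.choose k) := by exact_mod_cast s2
  have a2' : (finrank L (Tg δ F) : ℝ) ≤ n.choose (k + d) := by exact_mod_cast a2
  have q1 := kap_small hδ hk hd hn hF h1 hΛ
  have q2 := one_lt hn h1
  generalize ((∑ i, (cov (𝒬 i) ℐ).card : ℕ) : ℝ) = g at *
  generalize ((∑ i, (𝒬 i).card : ℕ) : ℝ) = p at *
  generalize (ℐ.card : ℝ) = a at *
  generalize (finrank L (Tg δ F) : ℝ) = t at *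
  generalize (finrank L (Jk k F) : ℝ) = κ at *
  generalize (n.choose k : ℝ) = N1 at *
  generalize (n.choose (k + d) : ℝ) = N2 at *
  generalize (n.choose d : ℝ) = N3 at *
  have p5 := mul_pos p4 p1
  have e1 : (1 - a / N2) * (N2 / (s * N1) * (N1 / N3)) = (N2 - a) / N3 / s := by field_simp
  have e4 : g / N3 ≤ (N2 - a) / N3 := by gcongr; linarith
  have e5 : p / N1 = p / (s * N1) * s := by field_simp
  refine big (x := p / (s * N1)) (σ := N2 / (s * N1)) ((div_le_one p2).2 a2') q5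
    hΛ.1 hΛ.2.1 (div_pos p1 p3)
    ((le_div_iff₀ p5).2 (by linarith)) ((div_le_iff₀ p5).2 s2') q1 q2 ?_ ?_ ?_ ?_
    ((div_le_iff₀ p3).2 hc) e2 e3
  · rw [div_le_div_iff₀ p1 p5]
    nlinarith [mul_le_mul_of_nonneg_right c3' p1.le]
  · have : t / N2 * (N2 / (s * N1)) = t / (s * N1) := by field_simp
    rw [this]
    have : a / N2 * (N2 / (s * N1)) + (p / (s * N1) - κ / N1) = (a + p - s * κ) / (s * N1) := by
      field_simp; ring
    rw [this]
    gcongr
    linarith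
  · rw [mul_add, e1, mul_one, mul_comm (s : ℝ), ← div_div, div_le_iff₀ p4, add_mul,
      div_mul_cancel₀ _ p4.ne']
    have e2 : s * a / N2 = a / N2 * s := by ring
    linarith
  · rw [e1, le_div_iff₀ p4]
    rw [e5] at c1
    refine le_trans (le_of_eq ?_) (c1.trans e4)
    ring

end Pool.Agent.P.MP_3acc10_al.Hd
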