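import Mathlib

set_option autoImplicit false

namespace Pool.Agent.P.MP_3acc10_al

open Finset

variable {B ι : Type*} [DecidableEq B] [DecidableEq ι]

def op (S : Finset B) (P : Finset B → ℤ) : Finset B → ℤ :=
  fun U => P U - if S ⊆ U then P (U \ S) else 0

lemma sub_sdiff_iff {S S' U : Finset B} : (S ⊆ U ∧ S' ⊆ U \ S) ↔ (S' ⊆ U ∧ S ⊆ U \ S') := by
  simp only [subset_sdiff, disjoint_comm (a := S)]
  tauto

instance : LeftCommutative (op (B := B)) := ⟨fun S S' P => by
  ext U
  have e : (U \ S) \ S' = (U \ S') \ S := sdiff_sdiff_comm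
  have := @sub_sdiff_iff B _ S S' U
  simp only [op]
  by_cases h1 : S ⊆ U <;> by_cases h2 : S' ⊆ U <;> by_cases h3 : S' ⊆ U \ S <;>
    by_cases h4 : S ⊆ U \ S' <;> simp_all <;> ring⟩

/-- the (scaled) independence polynomial of the intersection graph at negative weights -/
def Ind (N : ℕ) (supp : ι → Finset B) (A : Finset ι) : Finset B → ℤ :=
  (A.val.map supp).foldr op fun U => (N : ℤ) ^ U.card

variable {N : ℕ} {supp : ι → Finset B}

omit [DecidableEq ι] in
@[simp] lemma Ind_empty (U : Finset B) : Ind N supp ∅ U = (N : ℤ) ^ U.card := rfl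

lemma Ind_insert {A : Finset ι} {i : ι} (hi : i ∉ A) (U : Finset B) :
    Ind N supp (insert i A) U =
      Ind N supp A U - if supp i ⊆ U then Ind N supp A (U \ supp i) else 0 := by
  rw [Ind, insert_val_of_notMem hi, Multiset.map_cons, Multiset.foldr_cons]
  rfl

omit [DecidableEq ι] in
lemma Ind_congr {supp' : ι → Finset B} {A : Finset ι} (h : ∀ i ∈ A, supp i = supp' i) :
    Ind N supp A = Ind N supp' A := by
  rw [Ind, Ind, Multiset.map_congr rfl h]

lemma Ind_filter (p : ι → Prop) [DecidablePred p] (A : Finset ι) (U0 : Finset B)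
    (h : ∀ i ∈ A, ¬ p i → ¬ supp i ⊆ U0) :
    ∀ U ⊆ U0, Ind N supp (A.filter p) U = Ind N supp A U := by
  induction A using Finset.induction_on with
  | empty => simp
  | insert i A hi ih =>
    intro U hU
    have ih := ih fun l hl => h l (by simp [hl])
    rw [filter_insert, Ind_insert hi]
    split_ifs with h1 h2 h2
    · rw [Ind_insert (by simp [hi]), if_pos h2, ih U hU, ih _ (sdiff_subset.trans hU)]
    · rw [Ind_insert (by simp [hi]), if_neg h2, ih U hU]
    · exact absurd (h2.trans hU) (h i (by simp) h1)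
    · rw [ih U hU, sub_zero]

lemma Ind_rec (b : B) (A : Finset ι) : ∀ U : Finset B, b ∈ U →
    Ind N supp A U = N * Ind N supp A (U.erase b) -
      ∑ i ∈ A, if b ∈ supp i ∧ supp i ⊆ U then Ind N supp A (U \ supp i) else 0 := by
  induction A using Finset.induction_on with
  | empty =>
    intro U hU
    simp only [Ind_empty, sum_empty, sub_zero]
    rw [← card_erase_add_one hU, pow_succ']
  | insert i A hi ih =>
    intro U hU
    rw [sum_insert hi]
    simp only [Ind_insert hi]
    by_cases hb : b ∈ supp i
    · have h1 : ¬ supp i ⊆ U.erase b := fun h => by simpa using h hb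
      have h2 : ¬ supp i ⊆ U \ supp i := fun h => by simpa [hb] using h hb
      have h3 : ∑ l ∈ A, (if b ∈ supp l ∧ supp l ⊆ U then Ind N supp A (U \ supp l) -
          (if supp i ⊆ U \ supp l then Ind N supp A ((U \ supp l) \ supp i) else 0) else 0) =
          ∑ l ∈ A, if b ∈ supp l ∧ supp l ⊆ U then Ind N supp A (U \ supp l) else 0 := by
        refine sum_congr rfl fun l _ => ?_
        split_ifs with h4 h5
        · exact absurd (mem_sdiff.1 (h5 hb)).2 (by simpa using h4.1)
        · simp
        · rfl
      rw [h3, ih U hU, if_neg h1, if_neg h2]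
      simp only [hb, true_and]
      ring_nf
    · rw [if_neg (show ¬ (b ∈ supp i ∧ supp i ⊆ U) from fun h => hb h.1), zero_add]
      by_cases hS : supp i ⊆ U
      · have h1 : supp i ⊆ U.erase b := fun y hy =>
          mem_erase.2 ⟨fun e => hb (e ▸ hy), hS hy⟩
        have h2 : (U \ supp i).erase b = U.erase b \ supp i := by
          ext y; simp only [mem_erase, mem_sdiff]; tauto
        rw [if_pos hS, if_pos h1, ih U hU, ih (U \ supp i) (mem_sdiff.2 ⟨hU, hb⟩), h2]
        have h3 : ∑ l ∈ A, (if b ∈ supp l ∧ supp l ⊆ U then Ind N supp A (U \ supp l) -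
            (if supp i ⊆ U \ supp l then Ind N supp A ((U \ supp l) \ supp i) else 0) else 0) =
            (∑ l ∈ A, if b ∈ supp l ∧ supp l ⊆ U then Ind N supp A (U \ supp l) else 0) -
            ∑ l ∈ A, if b ∈ supp l ∧ supp l ⊆ U \ supp i then
              Ind N supp A ((U \ supp i) \ supp l) else 0 := by
          rw [← sum_sub_distrib]
          refine sum_congr rfl fun l _ => ?_
          have e : (U \ supp l) \ supp i = (U \ supp i) \ supp l := sdiff_sdiff_comm
          have := @sub_sdiff_iff B _ (supp i) (supp l) U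
          by_cases h4 : b ∈ supp l <;> by_cases h5 : supp l ⊆ U <;>
            by_cases h6 : supp i ⊆ U \ supp l <;> by_cases h7 : supp l ⊆ U \ supp i <;> simp_all
        rw [h3]; ring
      · have h1 : ¬ supp i ⊆ U.erase b := fun h => hS (h.trans (erase_subset _ _))
        have h3 : ∀ l, ¬ supp i ⊆ U \ supp l := fun l h => hS (h.trans sdiff_subset)
        simp only [if_neg hS, if_neg h1, if_neg (h3 _), sub_zero]
        exact ih U hU

lemma Ind_union (A T : Finset ι) (hd : Disjoint T A) (S : Finset B) (hS : S.Nonempty)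
    (h : ∀ i ∈ T, supp i = S) : ∀ U, Ind N supp (T ∪ A) U =
      Ind N supp A U - if S ⊆ U then T.card * Ind N supp A (U \ S) else 0 := by
  induction T using Finset.induction_on with
  | empty => simp
  | insert i T hi ih =>
    intro U
    rw [disjoint_insert_left] at hd
    have ih := ih hd.2 fun l hl => h l (by simp [hl])
    have h2 : ¬ S ⊆ U \ S := fun h => by
      obtain ⟨y, hy⟩ := hS
      simpa [hy] using h hy
    rw [insert_union, Ind_insert (by simp [hi, hd.1]), h i (by simp), ih, ih, if_neg h2,
      card_insert_of_notMem hi]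
    split_ifs
    · push_cast; ring
    · simp

lemma Ind_of_empty_supp {A : Finset ι} {i : ι} (hi : i ∈ A) (h : supp i = ∅) (U : Finset B) :
    Ind N supp A U = 0 := by
  rw [← insert_erase hi, Ind_insert (notMem_erase _ _), h]
  simp

lemma Ind_at_empty {A : Finset ι} (h : ∀ i ∈ A, supp i ≠ ∅) : Ind N supp A ∅ = 1 := by
  rw [← Ind_filter (fun _ => False) A ∅ (fun i hi _ => by simpa using h i hi) ∅ Subset.rfl]
  simp

lemma Ind_le_pow (A : Finset ι) : ∀ (k : ℕ) (U : Finset B), U.card = k →
    (∀ U' ⊆ U, 0 < Ind N supp A U') → Ind N supp A U ≤ (N : ℤ) ^ k := by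
  intro k
  induction k with
  | zero =>
    intro U hU hpos
    rw [card_eq_zero] at hU
    subst hU
    by_cases h : ∀ i ∈ A, supp i ≠ ∅
    · simp [Ind_at_empty h]
    · push Not at h
      obtain ⟨i, hi, h⟩ := h
      simp [Ind_of_empty_supp hi h]
  | succ k ih =>
    intro U hU hpos
    obtain ⟨b, hb⟩ : U.Nonempty := card_pos.1 (by omega)
    have h1 := ih (U.erase b) (by rw [card_erase_of_mem hb]; omega)
      fun U' h => hpos U' (h.trans (erase_subset _ _))
    have h2 : 0 ≤ ∑ i ∈ A, if b ∈ supp i ∧ supp i ⊆ U then Ind N supp A (U \ supp i) else 0 :=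
      sum_nonneg fun i _ => by
        split_ifs
        · exact (hpos _ sdiff_subset).le
        · rfl
    rw [Ind_rec b A U hb, pow_succ']
    have : (N : ℤ) * Ind N supp A (U.erase b) ≤ N * N ^ k :=
      mul_le_mul_of_nonneg_left h1 (by positivity)
    linarith

open Classical in
/-- Shearer's bound -/
noncomputable def Sh (N : ℕ) (supp : ι → Finset B) (A : Finset ι) (J : Finset B) : ℤ :=
  if ∀ U ⊆ J, 0 < Ind N supp A U then Ind N supp A J else 0

omit [DecidableEq ι] in
lemma Sh_nonneg (A : Finset ι) (J : Finset B) : 0 ≤ Sh N supp A J := by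
  rw [Sh]; split_ifs with h
  · exact (h J Subset.rfl).le
  · rfl

omit [DecidableEq ι] in
lemma Sh_le_max (A : Finset ι) (J : Finset B) : Sh N supp A J ≤ max (Ind N supp A J) 0 := by
  rw [Sh]; split_ifs <;> simp

omit [DecidableEq ι] in
lemma Sh_eq_zero {A : Finset ι} {J U : Finset B} (hU : U ⊆ J) (h : Ind N supp A U ≤ 0) :
    Sh N supp A J = 0 := by
  rw [Sh, if_neg fun h' => absurd (h' U hU) (not_lt.2 h)]

/-- greedy distribution of forms among variables -/
lemma exists_assign {σ : Type*} [DecidableEq σ] (𝒮 : Finset (Finset B)) (k : Finset B → ℕ)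
    (hk : ∀ S ∈ 𝒮, 0 < k S) (Xs : Finset σ) : ∀ A : Finset ι, ∃ T : σ → Finset ι,
      (∀ x ∈ Xs, T x ⊆ A) ∧ (∀ x ∈ Xs, ∀ y ∈ Xs, x ≠ y → Disjoint (T x) (T y)) ∧
      (∀ x ∈ Xs, T x = ∅ ∨ ∃ S ∈ 𝒮, (T x).card = k S ∧ ∀ i ∈ T x, supp i = S) ∧
      (Xs.filter fun x => T x = ∅).card ≤
        Xs.card - ∑ S ∈ 𝒮, (A.filter fun i => supp i = S).card / k S := by
  induction Xs using Finset.induction_on with
  | empty => intro A; exact ⟨fun _ => ∅, by simp⟩
  | insert x Xs hx ih =>
    intro A
    by_cases h : ∃ S ∈ 𝒮, k S ≤ (A.filter fun i => supp i = S).card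
    · obtain ⟨S, hS, hle⟩ := h
      obtain ⟨T0, hT0, hc⟩ := exists_subset_card_eq hle
      obtain ⟨T, h1, h2, h3, h4⟩ := ih (A \ T0)
      have hne : ∀ y ∈ Xs, Function.update T x T0 y = T y := fun y hy =>
        Function.update_of_ne (fun e : y = x => hx (e ▸ hy)) _ _
      have hT0A : T0 ⊆ A := hT0.trans (filter_subset _ _)
      have hdis : ∀ y ∈ Xs, Disjoint T0 (T y) := fun y hy =>
        disjoint_sdiff.mono_right (h1 y hy)
      refine ⟨Function.update T x T0, ?_, ?_, ?_, ?_⟩
      · intro y hy
        rcases mem_insert.1 hy with rfl | hy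
        · simpa using hT0A
        · rw [hne y hy]; exact (h1 y hy).trans sdiff_subset
      · intro y hy z hz hyz
        rcases mem_insert.1 hy with hy' | hy' <;> rcases mem_insert.1 hz with hz' | hz'
        · exact absurd (hy'.trans hz'.symm) hyz
        · rw [hne z hz', hy', Function.update_self]; exact hdis z hz'
        · rw [hne y hy', hz', Function.update_self]; exact (hdis y hy').symm
        · rw [hne y hy', hne z hz']; exact h2 y hy' z hz' hyz
      · intro y hy
        rcases mem_insert.1 hy with rfl | hy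
        · right
          rw [Function.update_self]
          exact ⟨S, hS, hc, fun i hi => (mem_filter.1 (hT0 hi)).2⟩
        · rw [hne y hy]; exact h3 y hy
      · have hT0ne : T0 ≠ ∅ := by
          rw [← card_eq_zero.ne, hc]; exact (hk S hS).ne'
        rw [filter_insert, Function.update_self, if_neg hT0ne,
          filter_congr (q := fun y => T y = ∅) fun y hy => by rw [hne y hy],
          card_insert_of_notMem hx]
        have e : ∑ S' ∈ 𝒮, (A.filter fun i => supp i = S').card / k S' =
            ∑ S' ∈ 𝒮, ((A \ T0).filter fun i => supp i = S').card / k S' + 1 := by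
          rw [← add_sum_erase _ _ hS, ← add_sum_erase _ _ hS, add_right_comm]
          congr 1
          · have : (A \ T0).filter (fun i => supp i = S) = A.filter (fun i => supp i = S) \ T0 := by
              ext i; simp only [mem_filter, mem_sdiff]; tauto
            rw [this, card_sdiff_of_subset hT0, hc, Nat.div_eq_sub_div (hk S hS) hle]
          · refine sum_congr rfl fun S' hS' => ?_
            congr 2
            ext i
            simp only [mem_filter, mem_sdiff]
            refine ⟨fun h => ⟨⟨h.1, fun hi => ?_⟩, h.2⟩, fun h => ⟨h.1.1, h.2⟩⟩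
            exact (mem_erase.1 hS').1 (h.2.symm.trans (mem_filter.1 (hT0 hi)).2)
        omega
    · push Not at h
      refine ⟨fun _ => ∅, by simp, by simp, by simp, ?_⟩
      rw [sum_eq_zero fun S hS => Nat.div_eq_of_lt (h S hS)]
      simp

end Pool.Agent.P.MP_3acc10_al
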