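import Pool.Agent.P.MP_3acc10_al.Growth

set_option autoImplicit false

namespace Pool.Agent.P.MP_3acc10_al

open Module Finset

lemma numer (a r s : ℕ) (α : ℕ → ℕ) (E : ℕ → ℤ) (e0 : E 0 = 0)
    (e1 : ∀ t, E (t + 1) = E t + (a - t - α t)) (h0 : α 0 ≤ a) (h1 : ∀ t, α (t + 1) ≤ α t - 1)
    (h2 : ∀ t, 2 ≤ α t → α t ≤ α (t + 1) + 1 → a ≤ α t + t) (ha : r + 2 * s + 1 ≤ a) :
    E r = 0 ∨ (s : ℤ) * s ≤ 2 * E (r + s) := by
  have a1 : ∀ t, α t ≤ a - t := by
    intro t
    induction t with
    | zero => omega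
    | succ t ih => have := h1 t; omega
  have a2 : ∀ t ≤ r, 0 ≤ E t ∧ (E t = 0 ∨ α t + t + 1 ≤ a) := by
    intro t
    induction t with
    | zero => simp [e0]
    | succ t ih =>
      intro ht
      have := ih (by omega)
      have := e1 t
      have := a1 t
      have := h1 t
      have := h2 t
      omega
  refine (a2 r le_rfl).2.imp_right fun h => ?_
  have a3 : ∀ k ≤ s, α (r + k) + r + 2 * k + 1 ≤ a ∧ (k : ℤ) * k ≤ 2 * E (r + k) := by
    intro k
    induction k with
    | zero => simpa [h] using (a2 r le_rfl).1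
    | succ k ih =>
      intro hk
      have := ih (by omega)
      have := e1 (r + k)
      have := h1 (r + k)
      have := h2 (r + k)
      rw [← add_assoc, Nat.cast_succ, show ((k : ℤ) + 1) * (k + 1) = k * k + 2 * k + 1 by ring]
      omega
  exact (a3 s le_rfl).2

lemma al_two {ι : Type*} [DecidableEq ι] (n d : ℕ) (hd : 0 < d) (A : Finset ι) :
    al n (fun _ => d) A (2 * d) = n.choose (2 * d) - A.card * n.choose d + A.card.choose 2 := by
  induction A using Finset.induction_on with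
  | empty => simp
  | insert l A hl ih =>
    rw [al_insert n _ hl, if_pos (by omega), show 2 * d - d = d by omega, ih,
      (al_same n _ d hd A fun _ _ => rfl).2, card_insert_of_notMem hl, Nat.choose_succ_succ' _ 1]
    push_cast
    simp only [Nat.choose_one_right]
    ring

lemma al_card {ι κ : Type*} (n d i : ℕ) (A : Finset ι) (B : Finset κ) (h : A.card = B.card) :
    al n (fun _ => d) A i = al n (fun _ => d) B i := by
  simp only [al, prod_const, h]

theorem koszul (d : ℕ) (hd : 0 < d) : ∃ (C : ℝ) (n0 : ℕ), ∀ (K : Type) [Field K] [CharZero K]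
    (n r s : ℕ), n0 ≤ n → C * (n : ℝ) ^ ((d : ℝ) - 1 / 4) ≤ s →
    0 < truncCoeff (series n (fun _ : Fin (r + s) => d) univ) (2 * d) →
    Gen fun c : Fin r × Finset (Fin n) → K => ∀ j ≤ 2 * d,
      (hilb (fun _ => d) c j : ℤ) = truncCoeff (series n (fun _ : Fin r => d) univ) j := by
  obtain ⟨n0, h0⟩ := exact_low d
  obtain ⟨C, hC, h1⟩ := asym (2 * d)
  refine ⟨2 * C + 4, n0 + 4 * d, fun K _ _ n r s hn hs hp => ?_⟩
  change 0 < ex n _ univ _ at hp
  have p1 : ∀ i ≤ 2 * d, 0 < al n (fun _ : Fin (r + s) => d) univ i := by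
    by_contra h
    rw [ex, if_neg h] at hp
    exact hp.false
  have p2 : ∀ t ≤ r + s, ∀ i ≤ 2 * d, 0 < al n (fun _ : Fin t => d) univ i := by
    intro t ht i hi
    obtain ⟨A, -, hA⟩ := exists_subset_card_eq (s := (univ : Finset (Fin (r + s)))) (n := t)
      (by simpa using ht)
    rw [al_card n d i _ A (by simp [hA])]
    exact (p1 i hi).trans_le (al_le_of_subset n _ _ (subset_univ A) (fun _ _ => hd) p1 i hi)
  have p3 : ∀ t ≤ r + s, ex n (fun _ : Fin t => d) univ (2 * d) =
      n.choose (2 * d) - t * n.choose d + t.choose 2 := by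
    intro t ht
    rw [ex, if_pos (p2 t ht), al_two n d hd, card_univ, Fintype.card_fin]
  have p4 := p1 d (by omega)
  rw [(al_same n _ d hd _ fun _ _ => rfl).2, card_univ, Fintype.card_fin] at p4
  obtain ⟨α, g1, g2, g3, g4⟩ := growth K n d (by omega)
  have g0 := HL (K := K) (ι := Fin 0) n (2 * d) d ∅
  rw [finrank_WF_empty, Fintype.card_fin, card_empty] at g0
  have key := numer (n.choose d) r (s / 2) α
    (fun t => Hm K n (2 * d) d t - (n.choose (2 * d) - t * n.choose d + t.choose 2))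
    (by simp [g0]) (fun t => by
      rw [g1 t, Nat.choose_succ_succ' _ 1]
      push_cast
      simp only [Nat.choose_one_right]
      ring) g2 g3 g4 (by omega)
  rw [← p3 r (by omega), ← p3 (r + s / 2) (by omega)] at key
  have hr : (Hm K n (2 * d) d r : ℤ) = ex n (fun _ : Fin r => d) univ (2 * d) := by
    refine sub_eq_zero.1 (key.resolve_right fun h => ?_)
    obtain ⟨c, c1, c2⟩ := ((h1 K (Fin (r + s / 2)) n (fun _ => d) univ fun _ _ => hd).and
      (gen_Hm n (2 * d) d _)).exists
    rw [c2] at c1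
    have hn0 : (1 : ℝ) ≤ n := by exact_mod_cast (by omega : 1 ≤ n)
    set x := (n : ℝ) ^ ((d : ℝ) - 1 / 4)
    have x1 : 1 ≤ x := Real.one_le_rpow hn0 (by
      have : (1 : ℝ) ≤ d := by exact_mod_cast hd
      linarith)
    have x2 : x * x * √n = (n : ℝ) ^ (2 * d) := by
      rw [Real.sqrt_eq_rpow, ← Real.rpow_add (by linarith), ← Real.rpow_add (by linarith),
        ← Real.rpow_natCast]
      congr 1
      push_cast
      ring
    have x3 : (s : ℝ) ≤ 2 * (s / 2 : ℕ) + 1 := by exact_mod_cast (by omega : s ≤ 2 * (s / 2) + 1)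
    have x4 : ((s / 2 : ℕ) : ℝ) * (s / 2 : ℕ) ≤ 2 * ((Hm K n (2 * d) d (r + s / 2) : ℝ) -
        ex n (fun _ : Fin (r + s / 2) => d) univ (2 * d)) := by
      simpa only [Int.cast_mul, Int.cast_natCast, Int.cast_sub, Int.cast_ofNat] using
        (Int.cast_le (R := ℝ)).2 h
    have x5 : 0 < √(n : ℝ) := Real.sqrt_pos.2 (by linarith)
    rw [← x2, ← mul_assoc] at c1
    have x6 := (le_abs_self _).trans (le_of_mul_le_mul_right c1 x5)
    have x7 : (C + 1) * x ≤ (s / 2 : ℕ) := by linarith
    have x8 := mul_self_le_mul_self (by positivity) x7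
    nlinarith [mul_self_nonneg (C * x)]
  refine ((h0 K n r _ (by omega) fun _ => le_rfl).and (gen_Hm n (2 * d) d r)).mono
    fun c ⟨c1, c2⟩ j hj => ?_
  rcases hj.lt_or_eq with h | rfl
  · exact c1 j h
  · rw [hilb_eq, c2]
    exact hr

end Pool.Agent.P.MP_3acc10_al
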