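import Pool.Agent.P.MP_3acc10_al.Vanish
import Pool.Agent.P.MP_3acc10_al.Count

set_option autoImplicit false

namespace Pool.Agent.P.MP_3acc10_al

open Module Finset

variable {K : Type*} [Field K]

lemma finrank_le_add {V V' : Type*} [AddCommGroup V] [Module K V] [AddCommGroup V'] [Module K V']
    [FiniteDimensional K V] [FiniteDimensional K V'] (W W0 : Submodule K V) (R : Submodule K V')
    (f : V →ₗ[K] V') (h1 : ∀ x ∈ W, f x ∈ R) (h2 : ∀ x ∈ W, f x = 0 → x ∈ W0) :
    finrank K W ≤ finrank K R + finrank K W0 := by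
  rw [← LinearMap.finrank_range_add_finrank_ker (f.domRestrict W)]
  refine add_le_add (Submodule.finrank_mono ?_) ?_
  · rintro _ ⟨x, rfl⟩
    exact h1 x x.2
  · rw [← Submodule.finrank_map_subtype_eq]
    refine Submodule.finrank_mono ?_
    rintro _ ⟨x, hx, rfl⟩
    exact h2 x x.2 hx

section
variable {α : Type*} [Fintype α]

open Classical in
/-- leading positions of a space of functions for a weight -/
noncomputable def ld (w : α → ℤ) (Z : Submodule K (α → K)) : Finset α :=
  univ.filter fun X => ∃ F ∈ Z, F X ≠ 0 ∧ ∀ Y, w X < w Y → F Y = 0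

lemma mem_ld {w : α → ℤ} {Z : Submodule K (α → K)} {X : α} :
    X ∈ ld w Z ↔ ∃ F ∈ Z, F X ≠ 0 ∧ ∀ Y, w X < w Y → F Y = 0 := by simp [ld]

lemma card_ld {w : α → ℤ} (hw : Function.Injective w) (Z : Submodule K (α → K)) :
    (ld w Z).card = finrank K Z := by
  classical
  apply le_antisymm
  · choose F hF h1 h2 using fun X : ld w Z => mem_ld.1 X.2
    have : LinearIndependent K fun X : ld w Z => (⟨F X, hF X⟩ : Z) := by
      rw [Fintype.linearIndependent_iff]
      intro a ha
      by_contra hne
      push Not at hne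
      obtain ⟨X0, hX0⟩ := hne
      obtain ⟨X, hX, hmax⟩ := exists_max_image (univ.filter fun X => a X ≠ 0) (fun X => w X.1)
        ⟨X0, by simpa using hX0⟩
      have h3 := congrFun (congrArg Subtype.val ha) X
      simp only [Submodule.coe_sum, Submodule.coe_smul, Finset.sum_apply, Pi.smul_apply,
        smul_eq_mul, Submodule.coe_zero, Pi.zero_apply] at h3
      rw [sum_eq_single X (fun Y _ hY => ?_) (by simp)] at h3
      · exact mul_ne_zero (mem_filter.1 hX).2 (h1 X) h3
      · by_cases hY' : a Y = 0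
        · rw [hY', zero_mul]
        · rw [h2 Y X ((hmax Y (by simpa using hY')).lt_of_ne
            fun e => hY (Subtype.ext (hw e))), mul_zero]
    simpa using this.fintype_card_le_finrank
  · have := finrank_le_sum Z (ld w Z) (fun X => LinearMap.proj X) (fun _ => ⊤) (by simp)
      (fun F hF h => by
        by_contra hne
        obtain ⟨X0, hX0⟩ := Function.ne_iff.1 hne
        obtain ⟨X, hX, hmax⟩ := exists_max_image (univ.filter fun X => F X ≠ 0) w
          ⟨X0, by simpa using hX0⟩
        refine (mem_filter.1 hX).2 (h X (mem_ld.2 ⟨F, hF, (mem_filter.1 hX).2, fun Y hY => ?_⟩))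
        by_contra hY'
        exact absurd (hmax Y (by simpa using hY')) (not_le.2 hY))
    simpa using this

lemma ld_disj {w : α → ℤ} (hw : Function.Injective w) {S Z : Submodule K (α → K)}
    (h : ∀ z ∈ Z, ∀ H ∈ S, z ⬝ᵥ H = 0) : Disjoint (ld w S) (ld (fun X => -w X) Z) := by
  refine disjoint_left.2 fun T h1 h2 => ?_
  obtain ⟨H, hH, a1, a2⟩ := mem_ld.1 h1
  obtain ⟨z, hz, b1, b2⟩ := mem_ld.1 h2
  have := h z hz H hH
  rw [dotProduct, sum_eq_single T (fun Y _ hY => ?_) (by simp)] at this
  · exact mul_ne_zero b1 a1 this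
  · rcases lt_or_gt_of_ne (hw.ne hY) with e | e
    · rw [b2 Y (by simpa using e), zero_mul]
    · rw [a2 Y e, mul_zero]

/-- the orthogonal space -/
def perp (Z : Submodule K (α → K)) : Submodule K (α → K) where
  carrier := {H | ∀ z ∈ Z, z ⬝ᵥ H = 0}
  add_mem' := fun h h' z hz => by rw [dotProduct_add, h z hz, h' z hz, add_zero]
  zero_mem' := fun z _ => dotProduct_zero z
  smul_mem' := fun a H h z hz => by rw [dotProduct_smul, h z hz, smul_zero]

end

variable {n : ℕ}

/-- the weight of a set -/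
def wz (X : Finset (Fin n)) : ℤ := wt X

lemma wz_inj : Function.Injective (wz (n := n)) := fun _ _ h => wt_inj (Int.ofNat_injective h)

lemma ld_card {w : Finset (Fin n) → ℤ} {p : Finset (Fin n) → Prop}
    {S : Submodule K (Finset (Fin n) → K)} (h : S ≤ Supp K p) : ∀ T ∈ ld w S, p T := by
  intro T hT
  obtain ⟨F, hF, h1, -⟩ := mem_ld.1 hT
  by_contra hne
  exact h1 (h hF T hne)

/-- functionals of degree `j` whose contractions by monomials of degree `e` lie in `S` -/
def EE (j e : ℕ) (S : Submodule K (Finset (Fin n) → K)) : Submodule K (Finset (Fin n) → K) :=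
  Supp K (fun X => X.card = j) ⊓
    ⨅ Y : {Y : Finset (Fin n) // Y.card = e}, S.comap (actL (Pi.single Y.1 1))

lemma mem_EE {j e : ℕ} {S : Submodule K (Finset (Fin n) → K)} {G : Finset (Fin n) → K} :
    G ∈ EE j e S ↔ G ∈ Supp K (fun X => X.card = j) ∧
      ∀ Y : Finset (Fin n), Y.card = e → act (Pi.single Y 1) G ∈ S := by
  simp [EE]

lemma finrank_EE {j e k : ℕ} (hk : k + e = j) (S : Submodule K (Finset (Fin n) → K)) :
    finrank K (EE j e S) ≤ (Fu j k (ld wz S)).card := by
  rw [← card_ld wz_inj]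
  refine card_le_card fun X hX => ?_
  obtain ⟨F, hF, h1, h2⟩ := mem_ld.1 hX
  have hF := mem_EE.1 hF
  have hXj : X.card = j := by
    by_contra hne
    exact h1 (hF.1 X hne)
  refine mem_Fu.2 ⟨hXj, fun T hTX hT => mem_ld.2 ⟨_, hF.2 (X \ T) ?_, ?_, fun Y hY => ?_⟩⟩
  · rw [card_sdiff_of_subset hTX]; omega
  · rwa [act_single, if_pos sdiff_disjoint, sdiff_union_of_subset hTX]
  · rw [act_single]
    split_ifs with hd
    · refine h2 _ ?_
      have e1 : wt X = wt (X \ T) + wt T := (sum_sdiff hTX).symm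
      have e2 : wt (X \ T ∪ Y) = wt (X \ T) + wt Y := sum_union hd
      simp only [wz] at hY ⊢
      omega
    · rfl

lemma finrank_EE_perp {j e k : ℕ} (hk : k + e = j) (Z : Submodule K (Finset (Fin n) → K))
    (hZ : Z ≤ Supp K fun T => T.card = k) :
    finrank K (EE j e (perp Z)) + (Up j (ld (fun X => -wz X) Z)).card ≤ n.choose j := by
  refine (Nat.add_le_add_right (finrank_EE hk _) _).trans ?_
  rw [← card_union_of_disjoint]
  · refine (card_le_card (t := univ.powersetCard j) fun X hX => ?_).trans (by simp)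
    refine mem_powersetCard.2 ⟨subset_univ _, ?_⟩
    rcases mem_union.1 hX with h | h
    · exact (mem_Fu.1 h).1
    · exact (mem_Up.1 h).1
  · refine disjoint_left.2 fun X h1 h2 => ?_
    obtain ⟨-, T, hT, hTX⟩ := mem_Up.1 h2
    exact disjoint_left.1 (ld_disj wz_inj (S := perp Z) fun z hz H hH => hH z hz)
      ((mem_Fu.1 h1).2 T hTX (ld_card hZ T hT)) hT

lemma finrank_Supp_card (k : ℕ) :
    finrank K (Supp K fun T : Finset (Fin n) => T.card = k) = n.choose k := by
  rw [finrank_Supp_eq, ← powerset_univ, ← powersetCard_eq_filter]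
  simp

lemma perp_le {k : ℕ} {S Z : Submodule K (Finset (Fin n) → K)}
    (hS : S ≤ Supp K fun T => T.card = k) (hZ : Z ≤ Supp K fun T => T.card = k)
    (h : ∀ z ∈ Z, ∀ H ∈ S, z ⬝ᵥ H = 0) : finrank K S + finrank K Z ≤ n.choose k := by
  rw [← card_ld wz_inj S, ← card_ld (w := fun X => -wz X) (neg_injective.comp wz_inj) Z,
    ← card_union_of_disjoint (ld_disj wz_inj h)]
  refine (card_le_card (t := univ.powersetCard k) fun X hX => ?_).trans (by simp)
  refine mem_powersetCard.2 ⟨subset_univ _, ?_⟩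
  rcases mem_union.1 hX with h | h
  · exact ld_card hS X h
  · exact ld_card hZ X h

end Pool.Agent.P.MP_3acc10_al
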