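import Pool.Agent.P.MP_3acc10_al.WnTow

set_option autoImplicit false

namespace Pool.Agent.P.MP_3acc10_al.Sh

open Finset Module Hd Wn

variable {L : Type*} [Field L] {n : ℕ} {ι : Type*} {G : ι → Finset (Fin n) → L} {A : Finset ι}

/-- all contractions of `Y` by monomials of degree `e` in the variables `M` lie in `X` -/
def Con (M : Finset (Fin n)) (e : ℕ) (Y X : Submodule L (Finset (Fin n) → L)) : Prop :=
  ∀ S ⊆ M, S.card = e → ∀ F ∈ Y, mon S F ∈ X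

lemma split {M : Finset (Fin n)} {y : Fin n} (hy : y ∉ M) {e : ℕ} {s j : ℤ}
    {X Y : Submodule L (Finset (Fin n) → L)} (hX : X ≤ WM G (insert y M) A s)
    (hY : Y ≤ WM G (insert y M) A j) (h : Con (insert y M) (e + 1) Y X) :
    ∃ X0 X1 Y0 Y1 : Submodule L (Finset (Fin n) → L), X0 ≤ WM G M A s ∧ X1 ≤ WM G M A (s - 1) ∧
      Y0 ≤ WM G M A j ∧ Y1 ≤ WM G M A (j - 1) ∧
      wd G (insert y M) A s - finrank L X ≤
        (wd G M A s - finrank L X0) + (wd G M A (s - 1) - finrank L X1) ∧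
      (finrank L Y : ℝ) = finrank L Y0 + finrank L Y1 ∧
      Con M (e + 1) Y0 X0 ∧ Con M (e + 1) Y1 X1 ∧ Con M e Y1 X0 := by
  refine ⟨_, _, _, _, split0 hX, split1 hX, split0 hY, split1 hY, ?_, split2 y Y, ?_, ?_, ?_⟩
  · rw [split2 y X]
    linarith [wd_insert (G := G) (M := M) (A := A) y s]
  · rintro S hS hc F ⟨f1, f2⟩
    exact ⟨h S (hS.trans (subset_insert _ _)) hc F f1, by
      show mon {y} (mon S F) = 0
      rw [mon_comm, show mon {y} F = 0 from f2, map_zero]⟩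
  · rintro S hS hc _ ⟨F, f1, rfl⟩
    exact ⟨_, h S (hS.trans (subset_insert _ _)) hc F f1, mon_comm _ _ _⟩
  · rintro S hS hc _ ⟨F, f1, rfl⟩
    have hyS : y ∉ S := fun h => hy (hS h)
    exact ⟨mon_insert hyS F ▸ h _ (insert_subset_insert _ hS)
      (by rw [card_insert_of_notMem hyS, hc]) F f1, by
      show mon {y} (mon S (mon {y} F)) = 0
      rw [mon_comm, mon_sq, map_zero]⟩

lemma live {x γ g a e u0 u1 R0 R1 : ℝ} (hx : 0 < x) (hγ : 0 ≤ γ) (he : 0 ≤ e) (hg : γ = g * (1 - γ))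
    (i0 : x * u0 ≤ a * g * (x + e) * R0) (i1 : (x + 1) * u1 ≤ a * g * (x + 1 + e) * R1)
    (i2 : (x + 1) * u0 ≤ a * (x + e) * R1) :
    (x + γ) * (u0 + u1) ≤ a * g * (x + γ + e) * (R0 + R1) := by
  refine le_of_mul_le_mul_left ?_ (show 0 < (x + 1) * (x + e) by positivity)
  have b0 := mul_le_mul_of_nonneg_left i0 (show 0 ≤ (x + 1) * (x + γ + e) by positivity)
  have b1 := mul_le_mul_of_nonneg_left i1 (show 0 ≤ (x + γ) * (x + e) by positivity)
  have b2 := mul_le_mul_of_nonneg_left i2 (show 0 ≤ e * γ by positivity)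
  have b3 : a * (x + e) * e * R1 * γ = a * (x + e) * e * R1 * (g * (1 - γ)) := by rw [← hg]
  linarith

lemma dead {x γ g a e u0 u1 R1 : ℝ} (hx : x ≤ 0) (h0 : 0 < x + γ) (h1 : γ < 1) (he : 0 ≤ e)
    (hg : γ = g * (1 - γ)) (ha : 0 ≤ a * R1) (i1 : (x + 1) * u1 ≤ a * g * (x + 1 + e) * R1)
    (i2 : (x + 1) * u0 ≤ a * (x + e) * R1) :
    (x + γ) * (u0 + u1) ≤ a * g * (x + γ + e) * R1 := by
  refine le_of_mul_le_mul_left ?_ (show 0 < x + 1 by linarith)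
  have b1 := mul_le_mul_of_nonneg_left i1 h0.le
  have b2 := mul_le_mul_of_nonneg_left i2 h0.le
  have b3 : a * R1 * e * γ = a * R1 * e * (g * (1 - γ)) := by rw [← hg]
  have b4 := mul_nonneg ha (mul_nonneg (neg_nonneg.2 hx) (show 0 ≤ x + γ + e by linarith))
  linarith

theorem expand {p Φ : ℕ → ℤ → ℝ} {Ξ : ℕ → ℤ → ℝ → ℝ} {m0 : ℕ} {j0 : ℤ} {γ g : ℝ} (g0 : 0 ≤ γ)
    (g1 : γ < 1) (hg : γ = g * (1 - γ)) (hp : ∀ m j, p (m + 1) j = p m j + p m (j - 1))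
    (h0 : ∀ m j Δ, 0 < Δ → Φ m j ≤ Ξ m j Δ)
    (h1 : ∀ m j Δ, γ < Δ → Ξ m j (Δ - γ) + Ξ m (j - 1) (Δ - γ + 1) ≤ Ξ (m + 1) j Δ)
    (h2 : ∀ m j Δ, 0 < Δ → Φ m j + Ξ m (j - 1) (Δ - γ + 1) ≤ Ξ (m + 1) j Δ)
    (hE : ∀ M : Finset (Fin n), M.card < m0 → ∀ j ≤ j0, wd G M A j ≤ p M.card j + Φ M.card j)
    (M : Finset (Fin n)) : M.card < m0 → ∀ (e : ℕ) (j : ℤ) (Δ : ℝ)
      (X Y : Submodule L (Finset (Fin n) → L)), j ≤ j0 → 0 < Δ → Δ + j ≤ γ * M.card + 1 →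
      X ≤ WM G M A (j - e) → Y ≤ WM G M A j → Con M e Y X →
      Δ * (wd G M A (j - e) - finrank L X) ≤
        g ^ e * (Δ + e) * (p M.card j + Ξ M.card j Δ - finrank L Y) := by
  have gg : 0 ≤ g := nonneg_of_mul_nonneg_left (hg ▸ g0) (by linarith)
  have t0 : ∀ M : Finset (Fin n), M.card < m0 → ∀ (j : ℤ) (Δ : ℝ)
      (Y : Submodule L (Finset (Fin n) → L)), j ≤ j0 → 0 < Δ → Y ≤ WM G M A j →
      0 ≤ p M.card j + Ξ M.card j Δ - finrank L Y := fun M hM j Δ Y jj d0 hY => by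
    linarith [le_wd hY, hE M hM j jj, h0 M.card j Δ d0]
  have t1 : ∀ M : Finset (Fin n), M.card < m0 → ∀ (j : ℤ) (Δ : ℝ)
      (X Y : Submodule L (Finset (Fin n) → L)), j ≤ j0 → 0 < Δ → Con M 0 Y X →
      Δ * (wd G M A (j - (0 : ℕ)) - finrank L X) ≤
        g ^ 0 * (Δ + (0 : ℕ)) * (p M.card j + Ξ M.card j Δ - finrank L Y) := by
    intro M hM j Δ X Y jj d0 h
    have a2 : (finrank L Y : ℝ) ≤ finrank L X := by
      exact_mod_cast Submodule.finrank_mono (show Y ≤ X from fun F hF =>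
        mon_empty F ▸ h ∅ (by simp) (by simp) F hF)
    simp only [Nat.cast_zero, sub_zero, pow_zero, add_zero, one_mul]
    exact mul_le_mul_of_nonneg_left (by linarith [hE M hM j jj, h0 M.card j Δ d0]) d0.le
  induction M using Finset.induction_on with
  | empty =>
    intro hM e j Δ X Y jj d0 d1 hX hY h
    rcases e with _ | e
    · exact t1 _ hM j Δ X Y jj d0 h
    have : (j : ℝ) < 1 := by simp at d1; linarith
    have : j < 1 := by exact_mod_cast this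
    rw [wd_neg (by omega)]
    exact (mul_nonpos_of_nonneg_of_nonpos d0.le (by simp)).trans
      (mul_nonneg (by positivity) (t0 _ hM j Δ Y jj d0 hY))
  | insert y M hy ih =>
    intro hM e j Δ X Y jj d0 d1 hX hY h
    rcases e with _ | e
    · exact t1 _ hM j Δ X Y jj d0 h
    obtain ⟨X0, X1, Y0, Y1, x0, x1, y0, y1, u, v, c0, c1, c2⟩ := split hy hX hY h
    rw [card_insert_of_notMem hy] at *
    have hm : M.card < m0 := by omega
    push_cast at d1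
    have e1 : j - 1 - ((e + 1 : ℕ) : ℤ) = j - (e + 1 : ℕ) - 1 := by ring
    have e2 : j - 1 - (e : ℤ) = j - (e + 1 : ℕ) := by push_cast; ring
    have i1 := ih hm (e + 1) (j - 1) (Δ - γ + 1) X1 Y1 (by omega) (by linarith)
      (by push_cast; linarith) (e1 ▸ x1) y1 c1
    have i2 := ih hm e (j - 1) (Δ - γ + 1) X0 Y1 (by omega) (by linarith)
      (by push_cast; linarith) (e2 ▸ x0) y1 c2
    have r1 := t0 M hm (j - 1) (Δ - γ + 1) Y1 (by omega) (by linarith) y1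
    rw [e1, pow_succ] at i1
    rw [e2, show Δ - γ + 1 + e = Δ - γ + (e + 1 : ℕ) by push_cast; ring] at i2
    have q : 0 ≤ g ^ e * g * (Δ - γ + γ + (e + 1 : ℕ)) := by rw [sub_add_cancel]; positivity
    refine (mul_le_mul_of_nonneg_left u d0.le).trans ?_
    rw [hp, v, pow_succ]
    nth_rw 1 2 [← sub_add_cancel Δ γ]
    rcases le_or_gt Δ γ with hd | hd
    · refine (dead (sub_nonpos.2 hd) (by linarith) g1 (by positivity) hg
        (mul_nonneg (by positivity) r1) i1 i2).trans (mul_le_mul_of_nonneg_left ?_ q)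
      linarith [h2 M.card j Δ d0, le_wd y0, hE M hm j jj]
    · have i0 := ih hm (e + 1) j (Δ - γ) X0 Y0 jj (by linarith) (by linarith) x0 y0 c0
      rw [pow_succ] at i0
      refine (live (sub_pos.2 hd) g0 (by positivity) hg i0 i1 i2).trans
        (mul_le_mul_of_nonneg_left ?_ q)
      linarith [h1 M.card j Δ hd]

theorem top {p Φ : ℕ → ℤ → ℝ} {Ξ : ℕ → ℤ → ℝ → ℝ} {γ g : ℝ} (g0 : 0 ≤ γ) (g1 : γ < 1)
    (hg : γ = g * (1 - γ)) (hp : ∀ m j, p (m + 1) j = p m j + p m (j - 1))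
    (h0 : ∀ m j Δ, 0 < Δ → Φ m j ≤ Ξ m j Δ)
    (h1 : ∀ m j Δ, γ < Δ → Ξ m j (Δ - γ) + Ξ m (j - 1) (Δ - γ + 1) ≤ Ξ (m + 1) j Δ)
    (h2 : ∀ m j Δ, 0 < Δ → Φ m j + Ξ m (j - 1) (Δ - γ + 1) ≤ Ξ (m + 1) j Δ)
    {M : Finset (Fin n)} {m : ℕ} (hM : M.card = m + 1) {j : ℤ}
    (hE : ∀ M' : Finset (Fin n), M'.card < m + 1 → ∀ i ≤ j, wd G M' A i ≤ p M'.card i + Φ M'.card i)
    {e : ℕ} {X Y : Submodule L (Finset (Fin n) → L)} (hj : (j : ℝ) ≤ γ * (m + 1))
    (hX : X ≤ WM G M A (j - (e + 1 : ℕ))) (hY : Y ≤ WM G M A j) (h : Con M (e + 1) Y X) :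
    wd G M A (j - (e + 1 : ℕ)) - finrank L X ≤ (g ^ e * (1 + e) + g ^ (e + 1) * (2 + e)) *
      (p (m + 1) j - finrank L Y + (Φ m j + Ξ m (j - 1) 1)) := by
  have gg : 0 ≤ g := nonneg_of_mul_nonneg_left (hg ▸ g0) (by linarith)
  obtain ⟨y, M, hy, rfl, rfl⟩ := card_eq_succ.1 hM
  obtain ⟨X0, X1, Y0, Y1, x0, x1, y0, y1, u, v, -, c1, c2⟩ := split hy hX hY h
  have ih := expand g0 g1 hg hp h0 h1 h2 hE M (Nat.lt_succ_self _)
  have e1 : j - 1 - ((e + 1 : ℕ) : ℤ) = j - (e + 1 : ℕ) - 1 := by ring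
  have e2 : j - 1 - (e : ℤ) = j - (e + 1 : ℕ) := by push_cast; ring
  have i1 := ih (e + 1) (j - 1) 1 X1 Y1 (by omega) one_pos (by push_cast; linarith) (e1 ▸ x1) y1 c1
  have i2 := ih e (j - 1) 1 X0 Y1 (by omega) one_pos (by push_cast; linarith) (e2 ▸ x0) y1 c2
  rw [e1, one_mul, show (1 : ℝ) + (e + 1 : ℕ) = 2 + e by push_cast; ring] at i1
  rw [e2, one_mul] at i2
  refine (u.trans (add_le_add i2 i1)).trans ?_
  rw [← add_mul, hp, v]
  exact mul_le_mul_of_nonneg_left (by linarith [le_wd y0, hE M (Nat.lt_succ_self _) j le_rfl])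
    (by positivity)

lemma Yq_step' [DecidableEq ι] {d : ι → ℕ} {c : ι × Finset (Fin n) → L} {M : Finset (Fin n)} {l : ι}
    {δ : ι × Finset (Fin n) → L →+ L}
    (hδ : ∀ p x y, δ p (x * y) = x * δ p y + δ p x * y)
    (hc : ∀ p q, δ p (c q) = if q = p then 1 else 0) (hl : l ∉ A) (i : ℤ) (q : ℕ)
    (hq : ((q + 1) * d l : ℕ) ≤ i → ((q + 1 : ℕ) : L) ≠ 0)
    {S : Finset (Fin n)} (hS : S.card = d l) :
    ∀ F ∈ Yq d c M A l i q, mon S F ∈ Yq d c M A l i (q + 1) := by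
  rcases lt_or_ge i ((q + 1) * d l : ℕ) with hi | hi
  · intro F hF
    refine (show mon S F = 0 from funext fun T => ?_) ▸ Submodule.zero_mem _
    rw [mon_apply]
    split_ifs with hd
    · refine (Yq_le i q hF).1 _ fun e => ?_
      have := e.1
      rw [card_union_of_disjoint hd, hS] at this
      push_cast at hi this
      linarith [(T.card).cast_nonneg (α := ℤ)]
    · rfl
  rintro _ ⟨F, ⟨h1, h2⟩, rfl⟩
  have a0 : ∀ H, fE d c l (mon S H) = mon S (fE d c l H) := fun H =>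
    act_comm (Gm d c l) (Pi.single S 1) H
  have a1 : ∀ q : ℕ, Dv (δ (l, S)) ((fE d c l ^ (q + 1)) F) =
      (fE d c l ^ (q + 1)) (Dv (δ (l, S)) F) + ((q : L) + 1) • mon S ((fE d c l ^ q) F) := by
    have b : ∀ H, Dv (δ (l, S)) (fE d c l H) = fE d c l (Dv (δ (l, S)) H) + mon S H := by
      intro H
      have := Dv_act (hδ (l, S)) (Gm d c l) H
      rwa [Gm, Dv_mask hc l l S hS, if_pos rfl] at this
    intro q
    induction q with
    | zero => simpa using b F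
    | succ q ih =>
      rw [pow_succ' _ (q + 1), Module.End.mul_apply, b, ih, map_add, map_smul, a0,
        ← Module.End.mul_apply _ (fE d c l ^ q), ← pow_succ', Module.End.mul_apply]
      push_cast
      module
  have a2 := a1 q
  rw [show (fE d c l ^ (q + 1)) F = 0 from h2, Dv_zero] at a2
  have a3 : (fE d c l ^ (q + 1)) (Dv (δ (l, S)) F) = -(((q : L) + 1) • mon S ((fE d c l ^ q) F)) :=
    eq_neg_of_add_eq_zero_left a2.symm
  have a4 : (q : L) + 1 ≠ 0 := by exact_mod_cast hq hi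
  refine ⟨-((q : L) + 1)⁻¹ • Dv (δ (l, S)) F, Submodule.smul_mem _ _ ⟨⟨fun X hX => ?_,
    fun k hk => ?_⟩, ?_⟩, ?_⟩
  · rw [Dv, h1.1 X hX, map_zero]
  · have := Dv_act (hδ (l, S)) (Gm d c k) F
    rwa [h1.2 k hk, Dv_zero, Gm, Dv_mask hc l k S hS, if_neg (fun e : k = l => hl (e ▸ hk)), zero_act,
      add_zero, eq_comm] at this
  · show (fE d c l ^ (q + 1 + 1)) _ = 0
    rw [pow_succ', Module.End.mul_apply, a3, map_neg, map_smul, a0,
      ← Module.End.mul_apply _ (fE d c l ^ q), ← pow_succ', show (fE d c l ^ (q + 1)) F = 0 from h2, map_zero, smul_zero, neg_zero]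
  · rw [map_smul, a3, smul_neg, neg_smul, neg_neg, smul_smul, inv_mul_cancel₀ a4, one_smul]

end Pool.Agent.P.MP_3acc10_al.Sh
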