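import Pool.Agent.P.MP_3acc10_al.LtPot
import Pool.Agent.P.MP_3acc10_al.SqExp

set_option autoImplicit false

namespace Pool.Agent.P.MP_3acc10_al.Wn

open Finset Module Hd Real

variable {L : Type*} [Field L] {n : ℕ} {ι : Type*} [DecidableEq ι]

theorem core3 {δ : ι × Finset (Fin n) → L →+ L}
    (hδ : ∀ p x y, δ p (x * y) = x * δ p y + δ p x * y) {c : ι × Finset (Fin n) → L}
    (hc : ∀ p q, δ p (c q) = if q = p then 1 else 0) {d : ι → ℕ} (hd : ∀ l, 1 ≤ d l) {J y : ℕ}
    (hch : ∀ l (q : ℕ), (q + 1) * d l ≤ J → ((q + 1 : ℕ) : L) ≠ 0) {ε B z lam o ρ g : ℝ}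
    (p : Par ε B z lam o ρ g y) (M : Finset (Fin n)) :
    ∀ (A : Finset ι) (i : ℤ), i ≤ J →
      |wd (Gm d c) M A i - pz M.card d A i| ≤ Fx B (1 + ε) g d A M.card i := by
  induction h : M.card using Nat.strong_induction_on generalizing M with
  | _ m ihm =>
  subst h
  obtain ⟨b0, b1, z0, z1, l0, l1, hg, r4, o0, b2⟩ := p.bd
  have r0 := p.r0
  have hP : ∀ A i, 0 < Fx B (1 + ε) g d A M.card i := fun A i => exp_pos _
  have hq : ∀ q : ℕ, exp (-(o * q)) ≤ 2 / 2 ^ (q + 1) := fun q => by
    rw [show -(o * q) = q * -o by ring, exp_nat_mul, p.ho,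
      show (2 : ℝ) / 2 ^ (q + 1) = (1 / 2) ^ q by rw [one_div, inv_pow, pow_succ]; field_simp]
    exact pow_le_pow_left₀ z0.le (by linarith) q
  intro A
  induction A using Finset.induction_on with
  | empty => intro i _; simpa [wd_empty, pz_empty] using (hP _ _).le
  | insert l A hl ih =>
  have := hd l
  have d0 : 0 < d l := by omega
  have r1 : ∀ i, Fx B (1 + ε) g d A M.card i = Fx B (1 + ε) g d (insert l A) M.card i *
      exp (-(B * (1 + ε) * (xi g d (insert l A) i - xi g d A i))) := fun i => by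
    rw [Fx, Fx, ← exp_add]; congr 1; ring
  have r5 : ∀ i, Fx B (1 + ε) g d A M.card i ≤ Fx B (1 + ε) g d (insert l A) M.card i := fun i =>
    exp_le_exp.2 (mul_le_mul_of_nonneg_left (sub_le_sub_right (mul_le_mul_of_nonneg_left
      (xi_mono hg hd hl i) (by linarith [p.e0])) _) b0.le)
  have r2 : ∀ (i : ℤ) (q : ℕ), i - q * d l < d l → vq d c M A l i (q + 1) = 0 := fun i q hi =>
    le_antisymm ((vq_le i _).trans (ch_neg _ (by push_cast; linarith)).le) (vq_nonneg _ _)
  have r3 : ∀ i, 0 ≤ ∑ q ∈ range (J + 1), vq d c M A l i q := fun i =>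
    sum_nonneg fun q _ => vq_nonneg _ _
  suffices H : ∀ i, i ≤ (J : ℤ) → |wd (Gm d c) M (insert l A) i - pz M.card d (insert l A) i| ≤
      Fx B (1 + ε) g d (insert l A) M.card i ∧
      ∑ q ∈ range (J + 1), vq d c M A l i q ≤ 4 * Fx B (1 + ε) g d (insert l A) M.card i from
    fun i hi => (H i hi).1
  have r6 : ∀ i < (d l : ℤ), ∑ q ∈ range (J + 1), vq d c M A l i q = 0 := fun i hi =>
    sum_eq_zero fun q _ => by
      rcases q with _ | q
      · exact vq_zero i
      · exact r2 i q (by linarith [show (0 : ℤ) ≤ q * d l by positivity])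
  refine zind (fun i hi _ => ?_) fun i _ ihN hJ => ?_
  · rw [wd_neg hi, pz_neg _ _ _ hi, r6 i (by omega)]
    exact ⟨by simpa using (hP _ _).le, by linarith [hP (insert l A) i]⟩
  have t0 := wd_rec (c := c) (M := M) (A := A) d0 (show i < (J + 1 : ℕ) by omega)
  have t1 := pz_insert M.card d hl i
  have t2 := abs_le.1 (ih i hJ)
  have u5 := hP (insert l A) i
  rw [abs_le]
  rcases lt_or_ge i (d l) with h1 | h1
  · rw [r6 i h1, r6 _ (by omega), wd_neg (i := i - d l) (by omega)] at t0
    rw [pz_neg (i := i - d l) _ _ _ (by omega)] at t1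
    exact ⟨⟨by linarith [r5 i], by linarith [r5 i]⟩, (r6 i h1).trans_le (by linarith)⟩
  obtain ⟨q0, q1, q5⟩ := tz_one p hd (A := insert l A) (show 0 < i by omega) this
  have q2 := p.close q0 q1 (tz_shift p hd hl (by omega))
  have q3 := Fx_tz p hd (A := insert l A) M.card d0 h1
  have q4 := fun h => ch_tz p hd (A := insert l A) (m := M.card) d0 h1 h
  have u1 := abs_le.1 ((ih (i - d l) (by omega)).trans ((r5 _).trans q3))
  have u2 := (ihN (i - d l) (by omega) (by omega)).2.trans
    (mul_le_mul_of_nonneg_left q3 (by norm_num))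
  have y1 := (r1 i).symm.trans_le (r5 i)
  rw [r1] at t2
  have w0 : Xz g d (insert l A) i ≤ M.card → ∀ q : ℕ, d l ≤ i - q * d l →
      vq d c M A l i (q + 1) ≤ tz g d (insert l A) (i - q * d l) (d l) * (vq d c M A l i q +
      (Fx B (1 + ε) g d (insert l A) M.card (i - q * d l) * (exp B + lam) +
        (pz M.card d (insert l A) (i - q * d l) - wd (Gm d c) M (insert l A) (i - q * d l)))) := by
    intro h2 q hq
    have w1 : (0 : ℤ) ≤ q * d l := by positivity
    have w2 := inner3 p hd (G := Gm d c) (A := insert l A) (i := i - q * d l) d0 (by omega)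
      ((((Ps_X hd i).le h2).lev (by omega)).X_le)
      (fun M' hM j hj => by
        linarith [(abs_le.1 (ihm _ hM M' rfl (insert l A) j (by omega))).2])
      (X := Yq d c M A l i (q + 1))
      (by rw [show i - q * d l - d l = i - (q + 1 : ℕ) * d l by push_cast; ring]; exact Yq_le i _)
      (Yq_le i q) fun T _ hT => Sh.Yq_step' hδ hc hl i q (fun h => hch l q (by omega)) hT
    rw [show i - q * d l - d l = i - (q + 1 : ℕ) * d l by push_cast; ring] at w2
    refine w2.trans (le_of_eq ?_)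
    rw [vq]; ring
  have w4 : Xz g d (insert l A) i ≤ M.card → ∀ (q : ℕ) (b : ℝ), d l ≤ i - (q + 1 : ℕ) * d l → 0 ≤ b →
      vq d c M A l i (q + 1) + Fx B (1 + ε) g d (insert l A) M.card i * (lam * (2 / 2 ^ (q + 1))) +
        (pz M.card d (insert l A) (i - (q + 1 : ℕ) * d l) -
          wd (Gm d c) M (insert l A) (i - (q + 1 : ℕ) * d l)) ≤ b →
      vq d c M A l i (q + 2) ≤ ρ * b := by
    intro h2 q b hq' b3 hb
    have w1 : ((q + 1 : ℕ) : ℤ) * 1 ≤ (q + 1 : ℕ) * d l :=
      mul_le_mul_of_nonneg_left (by omega) (by omega)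
    have w3 : exp (-(o * (i - (i - (q + 1 : ℕ) * d l : ℤ)))) ≤ 2 / 2 ^ (q + 1) :=
      (exp_le_exp.2 (neg_le_neg (mul_le_mul_of_nonneg_left (by exact_mod_cast (by omega)) o0))).trans
        (hq q)
    have w2 := inner4 p hd (G := Gm d c) (A := insert l A) (i := i) (j := i - (q + 1 : ℕ) * d l) d0
      (by omega) (by omega) h2 (fun M' hM j hj => by
        linarith [(abs_le.1 (ihm _ hM M' rfl (insert l A) j (by omega))).2])
      (X := Yq d c M A l i (q + 2))
      (by rw [show i - (q + 1 : ℕ) * d l - d l = i - (q + 2 : ℕ) * d l by push_cast; ring]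
          exact Yq_le i _) (Yq_le i (q + 1))
      (fun T _ hT => Sh.Yq_step' hδ hc hl i _ (fun h => hch l _ (by omega)) hT) b3 (by
        rw [vq] at hb
        linarith [mul_le_mul_of_nonneg_left (mul_le_mul_of_nonneg_left w3 l0.le) u5.le])
    rwa [show i - (q + 1 : ℕ) * d l - d l = i - (q + 2 : ℕ) * d l by push_cast; ring] at w2
  have w1 := fun h => w0 h 0 (by simpa using h1)
  simp only [vq_zero, Nat.cast_zero, zero_mul, sub_zero, zero_add] at w1
  generalize tz g d (insert l A) i (d l) = τ at q0 q1 q2 q3 q4 q5 u1 u2 w1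
  generalize exp (-(B * (1 + ε) * (xi g d (insert l A) i - xi g d A i))) = η at q2 t2 y1
  generalize Fx B (1 + ε) g d (insert l A) M.card i = P at q3 q4 t2 y1 u1 u2 u5 w1 w4 ⊢
  have v1 : 0 ≤ lam * τ * P := by positivity
  have v2 := mul_le_mul_of_nonneg_left q2 u5.le
  have v3 := mul_le_mul_of_nonneg_left (show 24 * lam ≤ exp B - 1 by
    linarith [add_one_le_exp B, p.hl, mul_le_mul_of_nonneg_left p.e1 b0.le]) (mul_nonneg u5.le q0)
  have v7 : 0 ≤ P * η := by linarith [t2.1, t2.2]
  have v4 := mul_nonneg r0 (sub_nonneg.2 y1)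
  have v5 := r3 i
  have v6 := r3 (i - d l)
  have v0 : pz M.card d (insert l A) i - wd (Gm d c) M (insert l A) i ≤ P := by linarith
  rcases lt_or_ge M.card (Xz g d (insert l A) i) with h2 | h2
  · have : ∑ q ∈ range (J + 1), vq d c M A l i q ≤ 2 * (lam * τ * P) := by
      refine sum_half (by positivity) (vq_zero i) (fun q => ?_) J
      exact (vq_le i _).trans ((q4 h2.le q).trans
        ((mul_le_mul_of_nonneg_left (hq q) v1).trans (le_of_eq (by ring))))
    exact ⟨⟨by linarith, by linarith⟩, by linarith⟩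
  have w2 := sum_tw (σ := 2 * ρ) (a := 12 * ρ * (lam * τ * P)) (by positivity) (vq_zero i)
    (vq_nonneg i) (w1 h2) (fun q => by
      have a0 := vq_nonneg (d := d) (c := c) (M := M) (A := A) (l := l) i (q + 1)
      rcases lt_or_ge (i - (q + 1 : ℕ) * d l) (d l) with a | a
      · rw [r2 i _ a]; positivity
      have a1 : (q : ℤ) * 1 ≤ q * d l := mul_le_mul_of_nonneg_left (by omega) (by omega)
      have a5 : i - (q + 1 : ℕ) * d l = i - d l - q * d l := by push_cast; ring
      have a2 := (abs_le.1 (ihN (i - (q + 1 : ℕ) * d l) (by omega) (by omega)).1).1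
      have a6 := hP (insert l A) (i - (q + 1 : ℕ) * d l)
      have a7 := (Fx_low p hd (A := insert l A) M.card (i := i - d l) (j := i - (q + 1 : ℕ) * d l)
        (by omega) (by omega)).trans (mul_le_mul q3 ((exp_le_exp.2 (neg_le_neg
          (mul_le_mul_of_nonneg_left (by exact_mod_cast (by omega)) o0))).trans (hq q))
          (exp_pos _).le v1)
      have a8 : 0 ≤ lam * τ * P * (2 / 2 ^ (q + 1)) := by positivity
      rcases this.eq_or_lt with e1 | e1
      · refine (w4 h2 q (2 * (vq d c M A l i (q + 1) + 3 * (lam * τ * P * (2 / 2 ^ (q + 1))))) a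
          (by positivity) ?_).trans (le_of_eq (by ring))
        linarith [mul_le_mul_of_nonneg_left (q5 e1.symm)
          (show 0 ≤ lam * P * (2 / 2 ^ (q + 1)) by positivity)]
      obtain ⟨a3, a4⟩ := tz_bd p hd (A := insert l A) (show 0 < i - (q + 1 : ℕ) * d l by omega) e1
      refine (w0 h2 _ a).trans ((mul_le_mul a4 (show _ ≤ vq d c M A l i (q + 1) +
        3 * (lam * τ * P * (2 / 2 ^ (q + 1))) by
          linarith [mul_le_mul_of_nonneg_left (show exp B + lam ≤ 2 by linarith) a6.le]) ?_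
        (by linarith)).trans (le_of_eq (by ring)))
      linarith [mul_le_mul_of_nonneg_left (show 1 ≤ exp B + lam by linarith [one_le_exp b0.le]) a6.le,
        (abs_le.1 (ihN (i - (q + 1 : ℕ) * d l) (by omega) (by omega)).1).2]) J
  generalize ∑ q ∈ range (J + 1), vq d c M A l i q = K at t0 v5 w2 ⊢
  have x1 := mul_le_mul_of_nonneg_right r4 v1
  refine ⟨⟨by linarith, le_of_mul_le_mul_left (a := 1 - 2 * ρ + τ) ?_ (by linarith)⟩, ?_⟩
  · linarith [mul_le_mul_of_nonneg_left (show wd (Gm d c) M (insert l A) i -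
      pz M.card d (insert l A) i ≤ P * η + lam * τ * P + K by linarith)
      (show 0 ≤ 1 - 2 * ρ by linarith)]
  · linarith [mul_le_mul_of_nonneg_left (show P * (exp B + lam) + (pz M.card d (insert l A) i -
      wd (Gm d c) M (insert l A) i) ≤ 3 * P by
        linarith [mul_le_mul_of_nonneg_left (show exp B + lam ≤ 2 by linarith) u5.le]) q0,
      mul_le_mul_of_nonneg_right r4 v5, mul_le_mul_of_nonneg_right (show τ ≤ 9 / 8 by
        linarith [mul_le_mul_of_nonneg_right r4 q0]) u5.le, mul_le_mul_of_nonneg_right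
        (show lam ≤ 1 / 16 by linarith) (mul_nonneg q0 u5.le)]

end Pool.Agent.P.MP_3acc10_al.Wn
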