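import Pool.Agent.P.MP_3acc10_al.LtThr

set_option autoImplicit false

namespace Pool.Agent.P.MP_3acc10_al.Wn

open Finset Module Hd

variable {L : Type*} [Field L] {n : ℕ} {ι : Type*} [DecidableEq ι] {G : ι → Finset (Fin n) → L}
  {A : Finset ι} {g a : ℝ} {d : ι → ℕ}

theorem lymq (hg : 0 ≤ g) (hd : ∀ l, 1 ≤ d l) {R : ℕ → ℤ → ℝ} {m0 N0 : ℕ} {j0 : ℤ}
    (ha : a = 0 ∧ N0 ≤ m0 ∨ a = 1 ∧ ∀ m j, 0 ≤ R m j)
    (h1 : ∀ m, ∀ j ≤ j0, R m j + R m (j - 1) ≤ R (m + 1) j)
    (h2 : ∀ (M : Finset (Fin n)) (N : ℕ) (j : ℤ), M.card < m0 → N + m0 = M.card + N0 → j ≤ j0 →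
      Ps g d A (N + 1) j → (a = 0 ∨ ¬Ps g d A N j) → wd G M A j ≤ R M.card j)
    (M : Finset (Fin n)) : ∀ (N e : ℕ) (s : ℤ) (X Y : Submodule L (Finset (Fin n) → L)) (w : ℝ),
      M.card ≤ m0 → N + m0 = M.card + N0 → (M.card = m0 → 0 < e) → s + e ≤ j0 →
      X ≤ WM G M A s → Y ≤ WM G M A (s + e) → (∀ S ⊆ M, S.card = e → ∀ F ∈ Y, mon S F ∈ X) →
      Ps g d A N (s + e) → (w = qz g d A N (s + e) + a * qz g d A N (s + e - 1) ∨ 0 < e ∧
        ¬Ps g d A (N - 1) (s + e) ∧
        w = qz g d A (N - 1) (s + e - 1) + a * qz g d A (N - 1) (s + e - 1 - 1)) →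
      w * ((1 - a) * wd G M A s - finrank L X) ≤ qz g d A N s * (R M.card (s + e) - finrank L Y) := by
  have a0 : 0 ≤ a ∧ a ≤ 1 := by rcases ha with ⟨rfl, -⟩ | ⟨rfl, -⟩ <;> simp
  have t0 : ∀ (M : Finset (Fin n)) (N : ℕ) (s : ℤ) (X Y : Submodule L (Finset (Fin n) → L)),
      M.card < m0 → N + m0 = M.card + N0 → s ≤ j0 → Y ≤ X → Ps g d A N s →
      (qz g d A N s + a * qz g d A N (s - 1)) * ((1 - a) * wd G M A s - finrank L X) ≤
        qz g d A N s * (R M.card s - finrank L Y) := by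
    intro M N s X Y hM hN hs hY hal
    have a2 : (finrank L Y : ℝ) ≤ finrank L X := by exact_mod_cast Submodule.finrank_mono hY
    have a3 := hal.nonneg _ le_rfl
    rcases ha with ⟨rfl, -⟩ | ⟨rfl, hR⟩
    · rw [zero_mul, add_zero]
      exact mul_le_mul_of_nonneg_left
        (by linarith [h2 M N s hM hN hs (hal.le (by omega)) (Or.inl rfl)]) a3
    · linarith [mul_nonneg a3 (hR M.card s), mul_le_mul_of_nonneg_left a2 a3,
        mul_nonneg (hal.nonneg (s - 1) (by omega)) (finrank L X).cast_nonneg]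
  have t1 : ∀ (N : ℕ) (j : ℤ) (w : ℝ) (p : Prop), Ps g d A N j →
      (w = qz g d A N j + a * qz g d A N (j - 1) ∨ p ∧ ¬Ps g d A (N - 1) j ∧
        w = qz g d A (N - 1) (j - 1) + a * qz g d A (N - 1) (j - 1 - 1)) → 0 ≤ w := by
    rintro N j w p h (rfl | ⟨-, b, rfl⟩)
    · exact add_nonneg (h.nonneg _ le_rfl) (mul_nonneg a0.1 (h.nonneg _ (by omega)))
    rcases N with _ | N
    · exact absurd h b
    have := h.pred hg hd
    exact add_nonneg (this.nonneg _ le_rfl) (mul_nonneg a0.1 (this.nonneg _ (by omega)))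
  have t2 : ∀ (M : Finset (Fin n)) (N : ℕ) (s : ℤ) (X : Submodule L (Finset (Fin n) → L))
      (w b : ℝ), s < 0 → 0 ≤ w → w * ((1 - a) * wd G M A s - finrank L X) ≤ qz g d A N s * b := by
    intro M N s X w b hs hw
    rw [qz_neg hs, wd_neg hs, zero_mul]
    exact mul_nonpos_of_nonneg_of_nonpos hw (by simp)
  induction M using Finset.induction_on with
  | empty =>
    intro N e s X Y w hM hN he hs hX hY hXY hal hw
    have w0 := t1 _ _ _ _ hal hw
    rcases e with _ | e
    · simp only [Nat.cast_zero, add_zero, lt_irrefl, false_and, or_false] at hs hal hw he ⊢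
      exact hw ▸ t0 ∅ N s X Y (hM.lt_of_ne he) hN hs
        (fun F hF => mon_empty F ▸ hXY ∅ (by simp) (by simp) F hF) hal
    rcases lt_or_ge s 0 with hs0 | hs0
    · exact t2 _ _ _ _ _ _ hs0 w0
    rw [card_empty] at *
    rcases ha with ⟨-, b⟩ | ⟨rfl, hR⟩
    · exact absurd (by omega) (hal.ne hg hd (by omega))
    have b3 := (le_wd hY).trans (wd_le _)
    rw [card_empty, ch_big (by omega)] at b3
    exact (mul_nonpos_of_nonneg_of_nonpos w0 (by simp)).trans
      (mul_nonneg (hal.nonneg _ (by omega)) (by linarith [hR 0 (s + (e + 1 : ℕ))]))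
  | insert y M hy ih =>
    intro N e s X Y w hM hN he hs hX hY hXY hal hw
    have w0 := t1 _ _ _ _ hal hw
    rcases e with _ | e
    · simp only [Nat.cast_zero, add_zero, lt_irrefl, false_and, or_false] at hs hal hw he ⊢
      exact hw ▸ t0 _ N s X Y (hM.lt_of_ne he) hN hs
        (fun F hF => mon_empty F ▸ hXY ∅ (by simp) (by simp) F hF) hal
    rcases lt_or_ge s 0 with hs0 | hs0
    · exact t2 _ _ _ _ _ _ hs0 w0
    rw [card_insert_of_notMem hy] at *
    have hm : M.card < m0 := by omega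
    obtain ⟨N, rfl⟩ := Nat.exists_eq_succ_of_ne_zero (hal.ne hg hd (by omega))
    have hp := hal.pred hg hd
    have i0 := fun h => ih N (e + 1) s _ _ _ hm.le (by omega) (by omega) hs (split0 hX) (split0 hY)
      (by
        rintro S hS hc F ⟨f1, f2⟩
        exact ⟨hXY S (hS.trans (subset_insert _ _)) hc F f1, by
          show mon {y} (mon S F) = 0
          rw [mon_comm, show mon {y} F = 0 from f2, map_zero]⟩) h (Or.inl rfl)
    have i1 := ih N (e + 1) (s - 1) _ (Y.map (mon {y})) _ hm.le (by omega) (by omega) (by omega)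
      (split1 hX) (by rw [sub_add_eq_add_sub]; exact split1 hY) (by
        rintro S hS hc _ ⟨F, f1, rfl⟩
        exact ⟨_, hXY S (hS.trans (subset_insert _ _)) hc F f1, mon_comm _ _ _⟩)
      (hp.lev (by omega)) (Or.inl rfl)
    have i2 := ih N e s _ (Y.map (mon {y})) _ hm.le (by omega) (by omega) (by omega) (split0 hX)
      (by rw [show s + e = s + (e + 1 : ℕ) - 1 by omega]; exact split1 hY) (by
        rintro S hS hc _ ⟨F, f1, rfl⟩
        have hyS : y ∉ S := fun h => hy (hS h)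
        exact ⟨mon_insert hyS F ▸ hXY _ (insert_subset_insert _ hS)
          (by rw [card_insert_of_notMem hyS, hc]) F f1, by
          show mon {y} (mon S (mon {y} F)) = 0
          rw [mon_comm, mon_sq, map_zero]⟩) (hp.lev (by omega)) (Or.inl rfl)
    have u0 := le_wd (split0 hX)
    have u1 := le_wd (split1 hX)
    have u2 := mul_le_mul_of_nonneg_left (wd_insert (G := G) (M := M) (A := A) y s) (sub_nonneg.2 a0.2)
    have u3 := le_wd (split0 hY)
    have u4 := h2 M N _ hm (by omega) hs hal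
    have u5 : s < s + (e + 1 : ℕ) := by omega
    rw [show s + (e : ℤ) = s + (e + 1 : ℕ) - 1 by omega] at i2
    rw [sub_add_eq_add_sub] at i1
    generalize s + ((e + 1 : ℕ) : ℤ) = j at *
    have c0 := hp s hs0 (by omega)
    have c1 := hp.nonneg (s - 1) (by omega)
    have w1 : 0 < qz g d A N (j - 1) + a * qz g d A N (j - 1 - 1) := add_pos_of_pos_of_nonneg
      (hp _ (by omega) le_rfl) (mul_nonneg a0.1 (hp.nonneg _ (by omega)))
    have g1 := h1 M.card j hs
    have g2 := hal j (by omega) le_rfl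
    simp only [Nat.succ_eq_add_one, add_tsub_cancel_right, qz_succ] at hw g2 ⊢
    rw [split2 y X, split2 y Y]
    refine (mul_le_mul_of_nonneg_left
      (c := (1 - a) * wd G M A s - finrank L ↥(X ⊓ LinearMap.ker (mon {y})) +
        ((1 - a) * wd G M A (s - 1) - finrank L (X.map (mon {y})))) (by linarith) w0).trans
      (le_trans ?_ (mul_le_mul_of_nonneg_left
      (b := R M.card j - finrank L ↥(Y ⊓ LinearMap.ker (mon {y})) +
        (R M.card (j - 1) - finrank L (Y.map (mon {y})))) (by linarith) (by linarith)))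
    by_cases hv : Ps g d A N j
    · rw [hw.resolve_right fun h => h.2.1 hv, show ∀ x y z : ℝ, x + y + a * (y + z) =
        x + a * y + (y + a * z) from fun _ _ _ => by ring]
      refine mix (add_pos_of_pos_of_nonneg (hv _ (by omega) le_rfl)
        (mul_nonneg a0.1 (hp.nonneg _ le_rfl))) w1 c0 c1 ?_ (i0 hv) i1 i2
      linarith [lc hg hd N j hp s u5.le, mul_le_mul_of_nonneg_left
        (lc hg hd N (j - 1) (hp.lev (by omega)) s (by omega)) a0.1]
    have v0 := mul_nonneg (add_nonneg c0.le c1) (sub_nonneg.2 (u3.trans (u4 (Or.inr hv))))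
    rcases hw with rfl | ⟨-, -, rfl⟩
    · rcases ha with ⟨rfl, -⟩ | ⟨rfl, -⟩
      · have := not_lt.1 fun h => hv (hp.top fun _ => h)
        linarith [mul_nonneg (neg_nonneg.2 this) (add_nonneg (sub_nonneg.2 u0) (sub_nonneg.2 u1))]
      · linarith [mul_nonneg g2.le (add_nonneg (finrank L ↥(X ⊓ LinearMap.ker (mon {y}))).cast_nonneg
          (finrank L (X.map (mon {y}))).cast_nonneg)]
    · linarith

theorem lymt (hg : 0 ≤ g) (hd : ∀ l, 1 ≤ d l) {R : ℕ → ℤ → ℝ} {M : Finset (Fin n)} {N e : ℕ} {i : ℤ}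
    (he : 0 < e) (hN : Xz g d A i = N + 1)
    (ha : a = 0 ∧ N + 1 ≤ M.card ∨ a = 1 ∧ ∀ m j, 0 ≤ R m j)
    (h1 : ∀ m, ∀ j ≤ i, R m j + R m (j - 1) ≤ R (m + 1) j)
    (h2 : ∀ (M' : Finset (Fin n)) (k : ℕ) (j : ℤ), M'.card + k + 1 = M.card → j ≤ i →
      Xz g d A j + k ≤ N + 1 → (a = 0 ∨ Xz g d A j + k = N + 1) → wd G M' A j ≤ R M'.card j)
    {X Y : Submodule L (Finset (Fin n) → L)} (hX : X ≤ WM G M A (i - e)) (hY : Y ≤ WM G M A i)
    (hXY : ∀ S ⊆ M, S.card = e → ∀ F ∈ Y, mon S F ∈ X) :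
    (qz g d A N (i - 1) + a * qz g d A N (i - 1 - 1)) * ((1 - a) * wd G M A (i - e) - finrank L X) ≤
      qz g d A (N + 1) (i - e) * (R M.card i - finrank L Y) := by
  have := lymq (G := G) (A := A) hg hd (m0 := M.card) (N0 := N + 1) ha h1
    (fun M' N' j b1 b2 b3 b4 b5 => h2 M' (M.card - M'.card - 1) j (by omega) b3
      (by have := b4.X_le; omega) (b5.imp_right fun b => by
        have := b4.X_le
        have : ¬Xz g d A j ≤ N' := fun h => b ((Ps_X hd j).le h)
        omega))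
    M (N + 1) e (i - e) X Y _ le_rfl (by omega) (fun _ => he) (by omega) hX
    (by rwa [sub_add_cancel]) hXY (by rw [sub_add_cancel, ← hN]; exact Ps_X hd i)
    (Or.inr ⟨he, fun h => by rw [sub_add_cancel] at h; have := h.X_le; omega, rfl⟩)
  rwa [sub_add_cancel, add_tsub_cancel_right] at this

end Pool.Agent.P.MP_3acc10_al.Wn
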