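import Pool.Agent.P.MP_3acc10_al.LtSeq

set_option autoImplicit false

namespace Pool.Agent.P.MP_3acc10_al.Wn

open Finset Hd

lemma tr_eq {r : ℕ} (d : Fin r → ℕ) (m j : ℕ) : truncCoeff (series m d univ) j =
    if ∀ i ≤ j, 0 < al m d univ i then al m d univ j else 0 := by
  unfold truncCoeff
  congr

lemma tr_iff {r : ℕ} {d : Fin r → ℕ} (m J : ℕ) :
    truncCoeff (series m d univ) J ≠ 0 ↔ Ps 0 d univ m J := by
  rw [tr_eq]
  constructor
  · intro h j a b
    lift j to ℕ using a
    rw [qz_g0, pz_nat]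
    exact_mod_cast (of_not_not fun hh => h (if_neg hh)) j (by exact_mod_cast b)
  · intro h
    have hp : ∀ i ≤ J, 0 < al m d univ i := fun i hi => by
      have := h i (by positivity) (by exact_mod_cast hi)
      rw [qz_g0, pz_nat] at this
      exact_mod_cast this
    rw [if_pos hp]
    exact (hp J le_rfl).ne'

end Pool.Agent.P.MP_3acc10_al.Wn
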