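import Pool.Agent.P.MP_3acc10_al.LtPot
import Pool.Agent.P.MP_3acc10_al.SqExp

set_option autoImplicit false

namespace Pool.Agent.P.MP_3acc10_al.Wn

open Finset Module Hd Real

lemma close_up {ε B r δ : ℝ} (e0 : 0 < ε) (e1 : ε ≤ 1 / 2) (hB : B = ε / 8) (r0 : 0 ≤ r)
    (r1 : r ≤ 1) (d0 : 0 ≤ δ) (d1 : (1 - 3 * (ε / 16)) * δ ≤ r) :
    exp (B * δ) - 1 ≤ r * (1 - exp (-(B * (1 + ε))) - B * ε / 8) := by
  have b0 : 0 < B := by linarith
  have a0 : δ ≤ (1 + ε / 4) * r := by
    nlinarith [mul_le_mul_of_nonneg_left d1 (show 0 ≤ 1 + ε / 4 by linarith),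
      mul_nonneg (mul_nonneg e0.le d0) (sub_nonneg.2 e1)]
  have a1 : B * δ ≤ 9 * ε / 64 := (mul_le_mul_of_nonneg_left
    (show δ ≤ 9 / 8 by nlinarith) b0.le).trans (by linarith)
  have a2 := ex_up (e := ε / 6) (mul_nonneg b0.le d0) (by nlinarith) (by linarith)
  have a3 := ex_dn (e := ε / 4) (show 0 ≤ B * (1 + ε) by positivity) (by nlinarith)
  have a4 : (1 + ε / 4) * ((1 + ε / 6) * (1 + ε / 4) + ε / 8) ≤ 1 + ε := by
    nlinarith [mul_le_mul_of_nonneg_left e1 (sq_nonneg ε)]
  refine le_of_mul_le_mul_left ?_ (show 0 < 1 + ε / 4 by linarith)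
  linarith [mul_le_mul_of_nonneg_left a3 r0, mul_le_mul_of_nonneg_left a4 (mul_nonneg b0.le r0),
    mul_le_mul_of_nonneg_left a2 (show 0 ≤ 1 + ε / 4 by linarith),
    mul_le_mul_of_nonneg_left a0 (show 0 ≤ (1 + ε / 4) * (1 + ε / 6) * B by positivity)]

variable {L : Type*} [Field L] {n : ℕ} {ι : Type*} [DecidableEq ι]

/-- the potential for vanishing -/
noncomputable def Fv (B θ k : ℝ) (d : ι → ℕ) (A : Finset ι) (m : ℕ) (i : ℤ) : ℝ :=
  exp (B * (θ * m - xi 0 d A i) + k * i)

omit [DecidableEq ι] in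
lemma lin_card (d : ι → ℕ) (A : Finset ι) : lin d A = #{l ∈ A | d l = 1} := by
  rw [lin, sum_boole]

lemma wd_lin {δ : ι × Finset (Fin n) → L →+ L}
    (hδ : ∀ p x y, δ p (x * y) = x * δ p y + δ p x * y) {c : ι × Finset (Fin n) → L}
    (hc : ∀ p q, δ p (c q) = if q = p then 1 else 0) (d : ι → ℕ) (A : Finset ι)
    (M : Finset (Fin n)) : ∀ i, wd (Gm d c) M A i ≤ ch (M.card - #{l ∈ A | d l = 1}) i := by
  have H : ∀ M, finrank L (WM (Gm d c) M A 1) ≤ M.card - #{l ∈ A | d l = 1} := fun M => by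
    induction A using Finset.induction_on with
    | empty =>
      have := wd_le (G := Gm d c) (M := M) (A := ∅) (1 : ℕ)
      rw [ch_nat, Nat.choose_one_right, wd] at this
      exact_mod_cast this
    | insert l A hl ih =>
      have t0 := Y01 (d := d) (c := c) (M := M) (A := A) (l := l) 1
      rw [wd, wd, ← Nat.cast_add, Nat.cast_le] at t0
      rw [filter_insert]
      split_ifs with h
      · rw [card_insert_of_notMem fun e => hl (mem_filter.1 e).1]
        rcases Nat.eq_zero_or_pos (finrank L (Yq d c M A l 1 1)) with e | e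
        · rw [Submodule.finrank_eq_zero] at e
          rw [Submodule.finrank_eq_zero.2 (eq_bot_iff.2 fun F hF => funext fun X => by_contra
            fun hX => ?_)]
          · exact Nat.zero_le _
          have x0 : X.card = d l := by
            have := (of_not_not fun e => hX (hF.1 X e)).1
            omega
          have := Sh.Yq_step' (M := M) hδ hc hl 1 0 (fun _ => by simp) x0 F (by rwa [Yq_zero])
          rw [e, Submodule.mem_bot] at this
          simpa [mon_apply, show F X ≠ 0 from hX] using congrFun this ∅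
        · omega
      · omega
  induction M using Finset.induction_on with
  | empty => exact fun i => by simpa using wd_le (G := Gm d c) (M := ∅) (A := A) i
  | insert y M hy ih =>
    intro i
    have a := (wd_insert y i).trans (add_le_add (ih i) (ih (i - 1)))
    rcases le_or_gt #{l ∈ A | d l = 1} M.card with h | h
    · rwa [card_insert_of_notMem hy, Nat.succ_sub h, ch_succ]
    have b := H (insert y M)
    rw [card_insert_of_notMem hy, Nat.sub_eq_zero_of_le h] at b ⊢
    rw [Nat.sub_eq_zero_of_le h.le] at a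
    rcases eq_or_ne i 1 with rfl | e
    · rw [wd, Nat.le_zero.1 b, Nat.cast_zero]; exact ch_nonneg _ _
    rcases lt_or_gt_of_ne e with e | e
    · rwa [ch_neg 0 (i := i - 1) (by omega), add_zero] at a
    · rwa [ch_big (m := 0) (i := i - 1) (by omega), add_zero] at a

theorem van3 {δ : ι × Finset (Fin n) → L →+ L}
    (hδ : ∀ p x y, δ p (x * y) = x * δ p y + δ p x * y) {c : ι × Finset (Fin n) → L}
    (hc : ∀ p q, δ p (c q) = if q = p then 1 else 0) {d : ι → ℕ} (hd : ∀ l, 1 ≤ d l)
    {ε B G o k : ℝ} (e0 : 0 < ε) (e1 : ε ≤ 1 / 2) (hB : B = ε / 8) (hG : 65 ≤ ε * G)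
    (ho : exp (-o) = B * ε) (k1 : exp (o - k) ≤ B * ε / 8) (k2 : exp (-(k - B * G)) ≤ B)
    (M : Finset (Fin n)) : ∀ (A : Finset ι) (i : ℤ),
      wd (Gm d c) M A i ≤ Fv B (1 + ε) k d A M.card i := by
  induction h : M.card using Nat.strong_induction_on generalizing M with
  | _ m ihm =>
  subst h
  have b0 : 0 < B := by linarith
  have b1 := mul_pos b0 e0
  have g0 : 130 ≤ G := by nlinarith
  have H : ∀ (A : Finset ι) (i : ℤ), (0 < i → xi 0 d A i ≤ G * i + lin d A) →
      wd (Gm d c) M A i ≤ Fv B (1 + ε) k d A M.card i := fun A i h => by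
    have b2 := mul_nonneg b1.le M.card.cast_nonneg
    rcases le_or_gt i 0 with i0 | i0
    · refine (wd_le _).trans (i0.eq_or_lt.elim ?_ fun i0 => (ch_neg _ i0).trans_le (exp_pos _).le)
      rintro rfl
      rw [Fv, xi_zero hd le_rfl]
      simpa [ch] using (show 0 ≤ B * ((1 + ε) * M.card) by positivity)
    refine (wd_lin hδ hc d A M i).trans ?_
    rcases le_or_gt #{l ∈ A | d l = 1} M.card with e | e
    · refine (ch_exp (k - B * G) _ _).trans (exp_le_exp.2 ?_)
      have e' : (#{l ∈ A | d l = 1} : ℝ) ≤ M.card := by exact_mod_cast e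
      rw [Nat.cast_sub e, ← lin_card]
      rw [← lin_card] at e'
      linarith [mul_le_mul_of_nonneg_right k2 (sub_nonneg.2 e'),
        mul_le_mul_of_nonneg_left (h i0) b0.le]
    · rw [Nat.sub_eq_zero_of_le e.le, ch_big (by omega)]; exact (exp_pos _).le
  intro A
  induction A using Finset.induction_on with
  | empty =>
    refine fun i => H _ i fun h => ?_
    obtain ⟨i, rfl⟩ := Int.eq_ofNat_of_zero_le h.le
    have a : (Xz 0 d ∅ i : ℝ) ≤ i := Nat.cast_le.2 (Ps.X_le fun j a b => by
      rw [qz_g0, pz_empty]; exact ch_pos a b)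
    push_cast
    nlinarith [(xi_bd le_rfl hd ∅ i).1, i.cast_nonneg (α := ℝ), lin_nonneg d ∅]
  | insert l A hl ih =>
  intro i
  have := hd l
  have t0 := Y01 (d := d) (c := c) (M := M) (A := A) (l := l) i
  have t1 := ih i
  by_cases h : 0 < i → xi 0 d (insert l A) i ≤ G * i + lin d (insert l A)
  · exact H _ i h
  obtain ⟨i0, h⟩ := Classical.not_imp.1 h
  have h := not_le.1 h
  have n0 := lin_nonneg d A
  have n1 : lin d A ≤ lin d (insert l A) := by
    rw [lin, lin, sum_insert hl]; split_ifs <;> linarith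
  obtain ⟨N, -, f0, a, -⟩ := X_spec le_rfl hd (insert l A) i0
  have i1 : (1 : ℝ) ≤ i := by exact_mod_cast i0
  have x0 := (xi_bd le_rfl hd (insert l A) i).1
  have x1 := x0
  rw [f0] at x1
  obtain ⟨N, rfl⟩ : ∃ N', N = N' + 1 := Nat.exists_eq_succ_of_ne_zero (by
    rintro rfl
    push_cast at x1
    nlinarith)
  have hr : 1 < i → 4 * (i : ℝ) ≤ ε / 16 * ((N + 1 + 1 : ℕ) - i + 1 - 0 - lin d (insert l A)) :=
    fun _ => by nlinarith [mul_le_mul_of_nonneg_left (h.le.trans x1) e0.le]
  have hr' := rat le_rfl hd (a.ins hd hl) (ρ := ε / 16) (by linarith) (by linarith) fun u =>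
    (hr u).trans (mul_le_mul_of_nonneg_left (by linarith) (by linarith))
  have q1 := a (i - 1) (by omega) (by omega)
  have q2 := a.nonneg (i - d l) (by omega)
  have s0 : (1 - 3 * (ε / 16)) * (xi 0 d (insert l A) i - xi 0 d A i) *
      qz 0 d (insert l A) (N + 2) (i - 1) ≤ qz 0 d (insert l A) (N + 2) (i - d l) ∧
      qz 0 d (insert l A) (N + 2) (i - d l) ≤ qz 0 d (insert l A) (N + 2) (i - 1) := by
    rcases this.eq_or_lt with u | u
    · rw [← u, Nat.cast_one]
      exact ⟨mul_le_of_le_one_left q1.le (shift_one le_rfl hd hl u.symm i0 f0 (by linarith)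
        (by linarith) hr'), le_rfl⟩
    · exact ⟨shift_up le_rfl hd hl u i0 f0 (by linarith) (by linarith) hr', (rat le_rfl hd a
        (by linarith) (by linarith) hr (i - 1) (by omega) (i - d l) (by omega)).trans
          (mul_le_of_le_one_left q1.le (by linarith))⟩
  have s2 := close_up e0 e1 hB (div_nonneg q2 q1.le) ((div_le_one q1).2 s0.2)
    (sub_nonneg.2 (xi_mono le_rfl hd hl i)) ((le_div_iff₀ q1).2 s0.1)
  rw [div_mul_eq_mul_div, le_div_iff₀' q1] at s2
  have P0 : 0 < Fv B (1 + ε) k d (insert l A) M.card i := exp_pos _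
  have t2 : Fv B (1 + ε) k d A M.card i ≤ Fv B (1 + ε) k d (insert l A) M.card i *
      exp (B * (xi 0 d (insert l A) i - xi 0 d A i)) := by
    rw [Fv, Fv, ← exp_add, exp_le_exp]
    linarith
  have t3 := lymt (G := Gm d c) (a := 1) (R := fun m j => Fv B (1 + ε) k d (insert l A) M.card i *
    ((if j = i then exp (-(B * (1 + ε))) else 0) +
      B * ε / 8 * exp (-(B * ε * (M.card - m)) - o * (i - j)))) le_rfl hd (show 0 < d l by omega) f0
    (Or.inr ⟨rfl, fun m j => by positivity⟩) (fun m j hj => tent ho (by positivity) P0.le _ i m j hj)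
    (fun M' s j c0 c1 _ c2 => by
      have c2 := c2.resolve_left one_ne_zero
      have c3 : (M.card : ℝ) = M'.card + s + 1 := by exact_mod_cast c0.symm
      have c4 : (Xz 0 d (insert l A) j : ℝ) + s = Xz 0 d (insert l A) i := by
        rw [f0]; exact_mod_cast c2
      refine (ihm _ (by omega) M' rfl _ j).trans ?_
      rcases c1.eq_or_lt with rfl | c1
      · rw [if_pos rfl, mul_add]
        refine le_add_of_le_of_nonneg (le_of_eq ?_) (by positivity)
        rw [Fv, Fv, ← exp_add, c3, show s = 0 by omega]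
        push_cast; congr 1; ring
      rw [if_neg c1.ne, zero_add]
      refine le_trans ?_ (mul_le_mul_of_nonneg_left (mul_le_mul_of_nonneg_right k1
        (exp_pos _).le) P0.le)
      have c5 : (j : ℝ) + 1 ≤ i := by exact_mod_cast c1
      rw [Fv, Fv, ← exp_add, ← exp_add, c3, exp_le_exp]
      linarith [mul_le_mul_of_nonneg_left (xi_bd le_rfl hd (insert l A) j).2 b0.le,
        mul_le_mul_of_nonneg_left x0 b0.le, congrArg (B * ·) c4,
        mul_nonneg (neg_nonneg.2 (exp_le_one_iff.1 (k1.trans (by nlinarith)))) (sub_nonneg.2 c5)])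
    (X := Yq d c M A l i 1) (by simpa using Yq_le (d := d) (c := c) (M := M) (A := A) (l := l) i 1)
    le_rfl fun S _ hS => Yq_zero (d := d) (c := c) (M := M) (A := A) (l := l) i ▸
      Sh.Yq_step' hδ hc hl i 0 (fun _ => by simp) hS
  simp only [one_mul, ← qz_succ, sub_self, zero_mul, mul_zero, neg_zero, exp_zero, mul_one,
    if_true] at t3
  refine le_of_mul_le_mul_left ?_ (add_pos_of_pos_of_nonneg q1 q2)
  rw [wd] at t0 ⊢
  linarith [mul_le_mul_of_nonneg_left s2 P0.le,
    mul_le_mul_of_nonneg_left (t0.trans (t1.trans t2)) q1.le]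

end Pool.Agent.P.MP_3acc10_al.Wn
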