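import Pool.Agent.P.MP_3acc10_al.LtEx
import Pool.Agent.P.MP_3acc10_al.LtVan
import Pool.Agent.P.MP_3acc10_al.LtTr

set_option autoImplicit false

namespace Pool.Agent.P.MP_3acc10_al.Wn

open Finset Module Hd Real

lemma par_ex {ε : ℝ} (e0 : 0 < ε) (e1 : ε ≤ 1 / 4) : ∃ (B z lam o ρ : ℝ) (y : ℕ),
    Par ε B z lam o ρ (8 * (y + 1)) y ∧ ε ^ 2 * (y + 1) ≤ 305 * -log ε := by
  have l0 : log 2 ≤ -log ε := by
    rw [← log_inv]; exact log_le_log two_pos (by rw [le_inv_comm₀ two_pos e0]; linarith)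
  have l1 := log_two_gt_d9
  have e2 : 0 < ε ^ 2 := by positivity
  obtain ⟨y, hy⟩ : ∃ y : ℕ, y = ⌈304 * -log ε / ε ^ 2⌉₊ := ⟨_, rfl⟩
  have y0 : 304 * -log ε ≤ y * ε ^ 2 := by rw [← div_le_iff₀ e2, hy]; exact Nat.le_ceil _
  have y1 : y * ε ^ 2 ≤ 304 * -log ε + ε ^ 2 := by
    rw [← le_div_iff₀ e2, add_div, div_self e2.ne', hy]
    exact (Nat.ceil_lt_add_one (div_nonneg (by linarith) e2.le)).le
  have y2 : (0 : ℝ) < y + 1 := by positivity
  refine ⟨_, _, _, -log (ε / 8 * ε / 4), 1 / (y + 1), y, ⟨e0, e1, rfl, rfl, rfl,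
    by rw [neg_neg, exp_log (by positivity)], by positivity, ?_, le_of_eq (by field_simp), ?_, ?_⟩,
    by nlinarith⟩
  · rw [div_le_iff₀ y2]
    nlinarith [mul_le_mul_of_nonneg_left e1 (mul_pos e0 y2).le]
  · rw [mul_one_div, div_lt_one y2]; linarith
  · rw [← le_log_iff_exp_le (by positivity), sub_le_iff_le_add, neg_le_iff_add_nonneg, add_right_comm,
      ← log_mul (by positivity) (by positivity)]
    have := log_le_log (show 0 < ε ^ 4 / 2 ^ 15 by positivity)
      (show _ ≤ ε / 8 * ε / 24 / 4 * (ε / 8 * ε / 4) by nlinarith [pow_pos e0 4])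
    rw [log_div (by positivity) (by positivity), log_pow, log_pow] at this
    push_cast at this
    linarith

variable {L : Type*} [Field L] {n : ℕ} {ι : Type*} [DecidableEq ι] {d : ι → ℕ} (hd : ∀ l, 1 ≤ d l)
include hd

lemma damp {A : Finset ι} {m y : ℕ} {J : ℤ} {g : ℝ} (h : Ps 0 d A m J) (g0 : 0 < g)
    (g1 : 2 * g ≤ y) (h1 : 1 < J → 8 * y * (J : ℝ) ≤ m + y - J + 1 - lin d A) : Ps g d A (m + y) J := by
  intro k k0 k1
  have h' := h.le (Nat.le_add_right m y)
  have y0 : (0 : ℝ) < y := by linarith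
  have y1 : (1 : ℝ) ≤ y := by exact_mod_cast (show 0 < y by exact_mod_cast y0)
  have r0 : (0 : ℝ) < 1 / (2 * y) := by positivity
  have r1 : (y : ℝ) * (1 / (2 * y)) = 1 / 2 := by field_simp
  have a := (desc le_rfl hd (h'.lev (show k - 1 ≤ J by omega)) r0.le (rat le_rfl hd h' r0.le
    (by rw [div_le_one (by positivity)]; linarith) (fun u => by
      rw [one_div, le_inv_mul_iff₀ (by positivity)]; push_cast; linarith [h1 u]) _ (by omega) _ (by omega))
    y m rfl (by linarith)).2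
  have b := ((h.lev (show k - 1 ≤ J by omega)).up y).2
  have c := h k k0 k1
  have e := h.nonneg (k - 1) (by omega)
  rw [r1] at a
  rw [qz]
  simp only [qz_g0] at a b c e
  linarith [mul_le_mul_of_nonneg_left a g0.le, mul_le_mul_of_nonneg_right g1 e]

variable [Fintype ι] {δ : ι × Finset (Fin n) → L →+ L}
  (hδ : ∀ p x y, δ p (x * y) = x * δ p y + δ p x * y) {c : ι × Finset (Fin n) → L}
  (hc : ∀ p q, δ p (c q) = if q = p then 1 else 0) {J a : ℕ} (a0 : 0 < a) (a1 : 2 * a ≤ n)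
  (hs : 10 ^ 6 * log (n / a) * n * (n + J * a) ≤ a ^ 3)

omit hd in
include a0 a1 hs in
lemma sz : ∃ ε : ℝ, 0 < ε ∧ ε ≤ 1 / 4 ∧ a = 2 * ε * n ∧ 1 / 2 ≤ -log ε ∧ (0 : ℝ) < n ∧
    10 ^ 4 * -log ε ≤ ε ^ 3 * n ∧ 10 ^ 5 * -log ε * J ≤ ε ^ 2 * n ∧ -log ε ≤ 2 * log (n / a) := by
  have b0 : (0 : ℝ) < a := by exact_mod_cast a0
  have b1 : 2 * (a : ℝ) ≤ n := by exact_mod_cast a1
  have n0 : (0 : ℝ) < n := by linarith
  obtain ⟨ε, he⟩ : ∃ ε : ℝ, ε = a / (2 * n) := ⟨_, rfl⟩
  have e0 : 0 < ε := by rw [he]; positivity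
  have e1 : (a : ℝ) = 2 * ε * n := by rw [he]; field_simp
  have l0 : log 2 ≤ log (n / a) := log_le_log two_pos (by rw [le_div_iff₀ b0]; exact b1)
  have l1 : -log ε = log 2 + log (n / a) := by
    rw [← log_inv, ← log_mul (by positivity) (by positivity), he]; congr 1; field_simp
  have l2 := log_two_gt_d9
  have h := (mul_le_mul_of_nonneg_right (mul_le_mul_of_nonneg_right (show 10 ^ 6 / 2 * -log ε ≤
    10 ^ 6 * log (n / a) by linarith) n0.le) (by positivity)).trans hs
  have l3 : 0 < -log ε := by linarith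
  rw [e1] at h
  refine ⟨ε, e0, by nlinarith, e1, by linarith, n0, le_of_mul_le_mul_right ?_ (mul_pos n0 n0),
    le_of_mul_le_mul_right ?_ (mul_pos (mul_pos n0 n0) e0), by linarith⟩
  · linarith [show 0 ≤ -log ε * n * (J * ε * n) by positivity, show 0 ≤ -log ε * n * n by positivity]
  · linarith [show 0 ≤ -log ε * n * (J * ε * n) by positivity, show 0 ≤ -log ε * n * n by positivity]

include hδ hc a0 a1 hs

omit [Fintype ι] in
theorem exact3 {U : Finset ι} (h : Ps 0 d U (n - a) J)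
    (hv : 10 ^ 7 * log (n / a) * J * n ^ 2 ≤ a ^ 2 * (n - #{l ∈ U | d l = 1} : ℕ)) {A : Finset ι} (hA : A ⊆ U) {i : ℕ}
    (hi : i ≤ J) (hch : ∀ l (q : ℕ), (q + 1) * d l ≤ i → ((q + 1 : ℕ) : L) ≠ 0) :
    (finrank L (WF i d A c) : ℤ) = al n d A i := by
  obtain ⟨ε, e0, e1, ea, l0, n0, s0, s1, s2⟩ := sz a0 a1 hs
  obtain ⟨B, z, lam, o, ρ, y, p, hy⟩ := par_ex e0 e1
  have b1 : 2 * (a : ℝ) ≤ n := by exact_mod_cast a1
  have e2 : 0 < ε ^ 2 := by positivity
  have y0 : (0 : ℝ) < y + 1 := by positivity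
  have y1 : 32 * ((y : ℝ) + 1) ≤ ε * n := le_of_mul_le_mul_left (by linarith) e2
  have j0 := J.cast_nonneg (α := ℝ)
  have y2 : 4000 * ((y : ℝ) + 1) * J ≤ (n - #{l ∈ U | d l = 1} : ℕ) := by
    refine le_of_mul_le_mul_left ?_ (mul_pos e2 (pow_pos n0 2))
    have u := mul_nonneg j0 (pow_pos n0 2).le
    nth_rewrite 2 [ea] at hv
    linarith [mul_le_mul_of_nonneg_right hy u, mul_le_mul_of_nonneg_right s2 u,
      mul_nonneg (show 0 ≤ -log ε by linarith) u]
  have y3 : (J : ℝ) ≤ ε * n := by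
    linarith [mul_le_mul_of_nonneg_right l0 j0, mul_le_mul_of_nonneg_right e1 (mul_pos e0 n0).le]
  have c0 : ((n - a : ℕ) : ℝ) = n - a := Nat.cast_sub (by omega)
  have c1 : 4 * ((a / 4 : ℕ) : ℝ) ≤ a := by exact_mod_cast Nat.mul_div_le a 4
  have c2 : (a : ℝ) ≤ 4 * (a / 4 : ℕ) + 3 := by exact_mod_cast (show a ≤ 4 * (a / 4) + 3 by omega)
  have h1 := damp hd (h.le (Nat.le_add_right _ (a / 4))) (g := 8 * (y + 1)) (y := 16 * (y + 1))
    (by positivity) (by push_cast; linarith) fun u => by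
      have := h.big le_rfl hd (by omega)
      have u1 : (1 : ℝ) ≤ J := by exact_mod_cast u.le
      rw [Nat.cast_add, c0] at *
      push_cast at this ⊢
      rw [Nat.cast_sub (Nat.cast_le (α := ℝ).1 (by
        linarith [lin_card d U, a.cast_nonneg (α := ℝ)])), ← lin_card] at y2
      linarith [y.cast_nonneg (α := ℝ)]
  have h2 : (Xz (8 * (y + 1)) d A i : ℝ) ≤ (n - a + a / 4 + 16 * (y + 1) : ℕ) :=
    Nat.cast_le.2 ((Ps.sub hd U h1 A hA).lev (by omega)).X_le
  have H := core3 hδ hc hd hch p univ A i le_rfl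
  rw [wd, WM_univ, card_univ, Fintype.card_fin, pz_nat] at H
  have H1 := H.trans_lt (exp_lt_one_iff.2 (mul_neg_of_pos_of_neg p.bd.1 ?_))
  · have : |(finrank L (WF i d A c) : ℤ) - al n d A i| < 1 := by exact_mod_cast H1
    rwa [Int.abs_lt_one_iff, sub_eq_zero] at this
  rw [Nat.cast_add, Nat.cast_add, c0] at h2
  push_cast at h2
  linarith [mul_le_mul_of_nonneg_left (show xi (8 * (y + 1)) d A i ≤ n - ε * n by
    linarith [(xi_bd (g := 8 * (y + 1)) (by positivity) hd A i).1]) (show 0 ≤ 1 + ε by linarith), mul_pos e2 n0]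

omit [Fintype ι] in
theorem zero3 {U : Finset ι} (h : ¬Ps 0 d U (n + a) J) : finrank L (WF J d U c) = 0 := by
  obtain ⟨ε, e0, e1, ea, l0, n0, s0, s1, s2⟩ := sz a0 a1 hs
  have l1 : log 2 ≤ -log ε := by
    rw [← log_inv]; exact log_le_log two_pos (by rw [le_inv_comm₀ two_pos e0]; linarith)
  have l2 := log_two_gt_d9
  have l3 : ∀ k : ℕ, log (ε / 2 ^ k) = log ε - k * log 2 := fun k => by
    rw [log_div (by positivity) (by positivity), log_pow]
  have H := van3 hδ hc hd e0 (by linarith) rfl (G := 65 / ε) (o := -log (ε / 8 * ε)) (k := 19 * -log ε)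
    (le_of_eq (by field_simp)) (by rw [neg_neg, exp_log (by positivity)])
    (by
      rw [← le_log_iff_exp_le (by positivity), show ε / 8 * ε / 8 = ε / 2 ^ 6 * ε by ring,
        show ε / 8 * ε = ε / 2 ^ 3 * ε by ring, log_mul (by positivity) e0.ne',
        log_mul (by positivity) e0.ne', l3, l3]
      push_cast; linarith)
    (by
      rw [← le_log_iff_exp_le (by positivity), show ε / 8 * (65 / ε) = 65 / 8 by field_simp,
        show ε / 8 = ε / 2 ^ 3 by ring, l3]
      push_cast; linarith) univ U J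
  rw [wd, WM_univ, card_univ, Fintype.card_fin] at H
  have h1 : ((n + a + 1 : ℕ) : ℝ) ≤ Xz 0 d U J :=
    Nat.cast_le.2 (not_le.1 fun e => h ((Ps_X hd _).le e))
  refine Nat.cast_lt_one.1 (H.trans_lt (exp_lt_one_iff.2 ?_))
  push_cast at h1 ⊢
  linarith [mul_le_mul_of_nonneg_left (show n + 2 * ε * n ≤ xi 0 d U J by
    linarith [(xi_bd le_rfl hd U J).2]) e0.le,
    mul_pos (pow_pos e0 2) n0]

omit hd hδ hc a0 a1 hs

theorem stable : ∃ C : ℝ, 0 < C ∧ ∀ (K : Type) [Field K] [Infinite K] (n r : ℕ)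
    (d : Fin r → ℕ), (∀ i, 1 ≤ d i) → Gen fun c : Fin r × Finset (Fin n) → K => ∀ j J a : ℕ,
      0 < a → 2 * a ≤ n → C * log (n / a) * n * (n + J * a) ≤ a ^ 3 →
      ((ringChar K = 0 ∨ ∀ i, j < ringChar K * d i) ∧ j ≤ J ∧
          C * log (n / a) * J * n ^ 2 ≤ a ^ 2 * (n - #{l | d l = 1} : ℕ) ∧
          truncCoeff (series (n - a) d univ) J ≠ 0 ∨
        J ≤ j ∧ truncCoeff (series (n + a) d univ) J = 0) →
      (hilb d c j : ℤ) = truncCoeff (series n d univ) j := by
  refine ⟨10 ^ 7, by norm_num, fun K _ _ n r d hd => ?_⟩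
  let τ := Fin r × Finset (Fin n)
  let L := FractionRing (MvPolynomial τ K)
  choose δ h1 h3 using exists_der (K := K) (τ := τ)
  have g1 : Gen fun c : τ → K => ∀ j ∈ range (n + 1), ∀ A ∈ (univ : Finset (Finset (Fin r))),
      finrank K (WF j d A c) ≤ finrank L (WF j d A (gp K (τ := τ))) :=
    Gen.all _ fun j _ => Gen.all _ fun A _ =>
      (gen_WF j fun i => if i ∈ A then d i else n + 1).mono fun c hc => by
        rwa [WF_sub, WF_sub] at hc
  refine g1.mono fun c c1 j J a a0 a1 hs h => ?_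
  have hs : 10 ^ 6 * log (n / a) * n * (n + J * a) ≤ a ^ 3 := by
    have : 0 ≤ log (n / a) := log_nonneg (by
      rw [le_div_iff₀ (by exact_mod_cast a0), one_mul]; exact_mod_cast (by omega))
    linarith [show 0 ≤ log (n / a) * n * (n + J * a) by positivity]
  have c2 : ∀ j A, finrank K (WF j d A c) ≤ finrank L (WF j d A (gp K (τ := τ))) := fun j A => by
    rcases lt_or_ge n j with hn | hn
    · have := finrank_WF_le j d A c
      rw [Fintype.card_fin, Nat.choose_eq_zero_of_lt hn] at this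
      omega
    · exact c1 j (mem_range.2 (by omega)) A (mem_univ _)
  rw [hilb_eq]
  rcases h with ⟨hq, h, hv, hJ⟩ | ⟨h, hJ⟩
  · rw [tr_iff] at hJ
    have E : ∀ A, ∀ i ≤ j, (finrank K (WF i d A c) : ℤ) = al n d A i := by
      intro A
      induction A using Finset.induction_on with
      | empty => intro i _; rw [finrank_WF_empty]; simp
      | insert l A hl ih =>
        intro i hi
        refine le_antisymm ?_ ?_
        · rw [← exact3 hd h1 h3 a0 a1 hs hJ hv (subset_univ _) (hi.trans h) fun l q a3 a4 => ?_]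
          · exact_mod_cast c2 i _
          rw [← map_natCast (algebraMap K L), map_eq_zero, ringChar.spec] at a4
          rcases hq with hq | hq
          · exact q.succ_ne_zero (zero_dvd_iff.1 (hq ▸ a4))
          · exact (hq l).not_ge ((Nat.mul_le_mul_right _ (Nat.le_of_dvd q.succ_pos a4)).trans
              (a3.trans hi))
        · have := lower_step i d A l c
          rw [al_insert n d hl, ← ih i hi, ← ih (i - d l) (by omega)]
          split_ifs at this ⊢ <;> omega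
    have := (tr_iff n j).2 ((hJ.le (Nat.sub_le n a)).lev (by omega))
    rw [tr_eq] at this ⊢
    rw [E univ j le_rfl, if_pos (of_not_not fun hh => this (if_neg hh))]
  · have hp : ¬Ps 0 d univ (n + a) J := fun e => (tr_iff _ _).2 e hJ
    have b := finrank_WF_add J (j - J) d univ c
    have e := c2 J univ
    rw [zero3 hd h1 h3 a0 a1 hs hp] at e
    rw [show J + (j - J) = j by omega, Nat.le_zero.1 e, mul_zero, Nat.le_zero] at b
    rw [of_not_not fun e => hp ((((tr_iff n j).1 e).le (Nat.le_add_right n a)).lev (by omega)), b]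
    rfl

end Pool.Agent.P.MP_3acc10_al.Wn
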