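import Pool.Agent.P.MP_3acc10_al.LtMain

set_option autoImplicit false

namespace Pool.Agent.P.MP_3acc10_al.Wn

open Finset Hd Real

lemma qz_le {ι : Type*} [DecidableEq ι] {d : ι → ℕ} (hd : ∀ l, 1 ≤ d l) (A : Finset ι) {m k : ℕ}
    (h : Ps 0 d A m k) : qz 0 d A m k ≤ m ^ k := by
  induction A using Finset.induction_on with
  | empty => rw [qz_g0, pz_empty, ch_nat]; exact_mod_cast Nat.choose_le_pow m k
  | insert l A hl ih =>
    have := hd l
    rw [qz_insert hl]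
    linarith [ih (h.ins hd hl), (h.ins hd hl).nonneg (k - d l) (by omega)]

/-- the case of a bounded cut with a polynomial margin -/
theorem margin (J : ℕ) : ∃ n0 : ℕ, ∀ (K : Type) [Field K] [CharZero K] (n r : ℕ) (d : Fin r → ℕ),
    n0 ≤ n → (∀ i, 0 < d i) → (∀ i < J, 0 < truncCoeff (series n d univ) i →
      (n : ℝ) ^ ((i + 1 : ℝ) - 1 / 4) ≤ |(((series n d univ).coeff (i + 1) : ℤ) : ℝ)|) →
    Gen fun c : Fin r × Finset (Fin n) → K => ∀ j, (j ≤ J ∨ truncCoeff (series n d univ) J = 0) →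
      (hilb d c j : ℤ) = truncCoeff (series n d univ) j := by
  classical
  obtain ⟨C, hC, H⟩ := stable
  obtain ⟨T, hT⟩ : ∃ T : ℝ, T = 2 ^ (J + 1) := ⟨_, rfl⟩
  have T2 : 2 ≤ T := hT ▸ le_self_pow₀ one_le_two J.succ_ne_zero
  refine ⟨⌈(64 * C * (J + 1) * T ^ 3 + T) ^ 8⌉₊, fun K _ _ n r d hn hd hm => ?_⟩
  obtain ⟨x, x0, x8⟩ : ∃ x : ℝ, 0 ≤ x ∧ x ^ 8 = n :=
    ⟨n ^ ((8 : ℕ) : ℝ)⁻¹, by positivity, rpow_inv_natCast_pow n.cast_nonneg (by norm_num)⟩
  have c0 : 0 ≤ 64 * C * (J + 1) * T ^ 3 := by positivity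
  have x1 : 64 * C * (J + 1) * T ^ 3 + T ≤ x :=
    le_of_pow_le_pow_left₀ (n := 8) (by norm_num) x0 (x8 ▸ Nat.ceil_le.1 hn)
  have x2 : 1 ≤ x := by linarith
  have x6 : x ≤ x ^ 6 := le_self_pow₀ x2 (by norm_num)
  have x7 : x ^ 6 ≤ n := x8 ▸ pow_le_pow_right₀ x2 (by norm_num)
  have T0 : 0 < T := by linarith
  obtain ⟨a, a1, a2⟩ : ∃ a : ℕ, a * T ≤ x ^ 6 ∧ x ^ 6 < (a + 1) * T :=
    ⟨⌊x ^ 6 / T⌋₊, (le_div_iff₀ T0).1 (Nat.floor_le (by positivity)),
      (div_lt_iff₀ T0).1 (Nat.lt_floor_add_one _)⟩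
  have a0 : 0 < a := Nat.pos_of_ne_zero fun e => by rw [e] at a2; push_cast at a2; linarith
  have a3 : (1 : ℝ) ≤ a := by exact_mod_cast a0
  have a4 : 2 * (a : ℝ) ≤ x ^ 6 := by nlinarith
  have a5 : 2 * a ≤ n := by exact_mod_cast a4.trans x7
  have n0 : (0 : ℝ) < n := by linarith
  have l0 : 0 ≤ log (n / a) := log_nonneg (by rw [le_div_iff₀ (by linarith)]; linarith)
  have l1 : log (n / a) ≤ 8 * x := by
    refine (log_le_log (by positivity) (div_le_self n0.le a3)).trans ?_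
    rw [← x8, log_pow]
    push_cast
    linarith [log_le_sub_one_of_pos (show 0 < x by linarith)]
  have k0 : C * log (n / a) * (J + 1) * n ^ 2 ≤ a ^ 3 := by
    refine le_of_mul_le_mul_left ?_ (show 0 < (2 * T) ^ 3 by positivity)
    calc _ ≤ (2 * T) ^ 3 * (C * (8 * x) * (J + 1) * n ^ 2) := by gcongr
      _ = 64 * C * (J + 1) * T ^ 3 * x ^ 17 := by rw [← x8]; ring
      _ ≤ x * x ^ 17 := by gcongr; linarith
      _ = (x ^ 6) ^ 3 := by ring
      _ ≤ (2 * T * a) ^ 3 := by gcongr; nlinarith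
      _ = _ := by ring
  have k1 : ∀ s ≤ J, C * log (n / a) * n * (n + (s : ℕ) * a) ≤ a ^ 3 := fun s hs => by
    have : (s : ℝ) * a ≤ J * n := mul_le_mul (by exact_mod_cast hs) (by linarith) (by linarith)
      J.cast_nonneg
    linarith [mul_le_mul_of_nonneg_left this (show 0 ≤ C * log (n / a) * n by positivity)]
  have k2 : ∀ i < J, Ps 0 d univ n (i : ℕ) → n ^ i * x ^ 6 ≤ |qz 0 d univ n (i + 1 : ℕ)| := by
    intro i hi h
    have b := (tr_iff n i).2 h
    have c := h i (by omega) le_rfl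
    rw [qz_g0, pz_nat] at c ⊢
    refine le_trans (le_of_eq ?_) (hm i hi ?_)
    · rw [show (i + 1 : ℝ) - 1 / 4 = i + (6 : ℕ) / (8 : ℕ) by norm_num; ring, rpow_add n0,
        rpow_natCast, ← x8, ← rpow_natCast x 8, ← rpow_mul x0, ← rpow_natCast x 6]
      norm_num
    · rw [tr_eq] at b ⊢
      rw [if_pos (of_not_not fun e => b (if_neg e))]
      exact_mod_cast c
  refine (H K n r d hd).mono fun c hc j hj => ?_
  by_cases h : Ps 0 d univ n j
  · have j1 : j ≤ J := hj.elim id fun e => not_lt.1 fun u => (tr_iff n J).2 (h.lev (by omega)) e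
    rcases j with _ | j
    · exact hc 0 0 a a0 a5 (k1 0 j1) (Or.inl ⟨Or.inl ringChar.eq_zero, le_rfl,
        by rw [Nat.cast_zero, mul_zero, zero_mul]; positivity, (tr_iff _ _).2 (Ps_zero hd le_rfl)⟩)
    have b0 := k2 j j1 (h.lev (by omega))
    have b1 := qz_le hd univ (h.lev (show (j : ℤ) ≤ (j + 1 : ℕ) by omega))
    have b2 : 0 < x ^ 6 := by positivity
    rw [abs_of_pos (h _ (by omega) le_rfl)] at b0
    have b3 := (desc le_rfl hd h (ρ := 1 / x ^ 6) (by positivity) (by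
      rw [show ((j + 1 : ℕ) : ℤ) - 1 = j by omega, one_div, le_inv_mul_iff₀ b2]
      linarith [mul_le_mul_of_nonneg_left b1 b2.le]) a (n - a) (by omega)
      (by rw [mul_one_div, div_lt_one b2]; linarith)).1
    have b4 := (b3.lev (show 1 ≤ ((j + 1 : ℕ) : ℤ) by omega)).big le_rfl hd one_pos
    rw [lin_card] at b4
    have b5 : (a : ℝ) ≤ (n - #{l | d l = 1} : ℕ) := Nat.cast_le.2 (by
      have : #{l | d l = 1} < n - a := Nat.cast_lt (α := ℝ).1 (by push_cast at b4; linarith)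
      omega)
    refine hc _ _ a a0 a5 (k1 _ j1) (Or.inl ⟨Or.inl ringChar.eq_zero, le_rfl, ?_, (tr_iff _ _).2 b3⟩)
    calc _ ≤ C * log (n / a) * (J + 1) * n ^ 2 := by gcongr; exact_mod_cast j1.trans J.le_succ
      _ ≤ a ^ 2 * a := by linarith
      _ ≤ _ := by gcongr
  have e : ∃ s : ℕ, ¬Ps 0 d univ n s := ⟨j, h⟩
  have s1 : Nat.find e ≤ j := Nat.find_min' e h
  have s2 : Nat.find e ≤ J := hj.elim s1.trans fun u => Nat.find_min' e fun v => (tr_iff n J).2 v u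
  refine hc j _ a a0 a5 (k1 _ s2) (Or.inr ⟨s1, of_not_not fun u => ?_⟩)
  rw [← ne_eq, tr_iff] at u
  have s3 := Nat.find_spec e
  have s4 := fun s => Nat.find_min e (m := s)
  generalize Nat.find e = s at s2 s3 s4 u
  rcases s with _ | s
  · exact s3 (Ps_zero hd le_rfl)
  have b := of_not_not (s4 s s.lt_succ_self)
  have e1 : ((s + 1 : ℕ) : ℤ) - 1 = s := by omega
  have b0 := k2 s s2 b
  rw [abs_of_nonpos (not_lt.1 fun v => s3 (Ps.top (e1 ▸ b) fun _ => v))] at b0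
  have b1 : ∀ y ≤ a, qz 0 d univ (n + y) (s + 1 : ℕ) ≤
      qz 0 d univ n (s + 1 : ℕ) + y * qz 0 d univ (n + a) s := by
    intro y
    induction y with
    | zero => simp
    | succ y ih =>
      intro hy
      rw [← add_assoc, qz_succ, e1, Nat.cast_succ y]
      linarith [ih (by omega), ((b.le (Nat.le_add_right n y)).lev (show (s : ℤ) - 1 ≤ s by omega)).mono
        (show n + y ≤ n + a by omega)]
  have b2 : qz 0 d univ (n + a) s ≤ T * n ^ s := by
    refine (qz_le hd univ (b.le (Nat.le_add_right n a))).trans ?_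
    calc _ ≤ (2 * (n : ℝ)) ^ s := by gcongr; push_cast; linarith
      _ = 2 ^ s * n ^ s := mul_pow _ _ _
      _ ≤ _ := by rw [hT]; gcongr; exacts [one_le_two, by omega]
  linarith [b1 a le_rfl, u _ (by omega) le_rfl, mul_le_mul_of_nonneg_left b2 a.cast_nonneg,
    mul_le_mul_of_nonneg_right a1 (pow_pos n0 s).le]

end Pool.Agent.P.MP_3acc10_al.Wn
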