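import Pool.Agent.P.MP_3acc10_al.LtLym

set_option autoImplicit false

namespace Pool.Agent.P.MP_3acc10_al.Wn

open Finset Module Hd Real

lemma ex_up {e x : ℝ} (x0 : 0 ≤ x) (x1 : (1 + e) * x ≤ e) (e0 : 0 < e) :
    exp x - 1 ≤ (1 + e) * x := by
  have a : x < 1 := by nlinarith
  have := exp_bound_div_one_sub_of_interval x0 a
  rw [le_div_iff₀ (by linarith)] at this
  refine le_of_mul_le_mul_right ?_ (sub_pos.2 a)
  nlinarith

lemma ex_dn {e x : ℝ} (x0 : 0 ≤ x) (x1 : x ≤ e) : x ≤ (1 + e) * (1 - exp (-x)) := by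
  have a : exp (-x) * (1 + x) ≤ 1 := by
    rw [exp_neg, inv_mul_le_iff₀ (exp_pos _)]; linarith [add_one_le_exp x]
  have b : exp (-x) ≤ 1 := exp_le_one_iff.2 (by linarith)
  nlinarith

lemma tent {z o lam E P : ℝ} (ho : exp (-o) = z) (hl : 0 ≤ lam) (hP : 0 ≤ P) (m0 : ℕ) (i : ℤ)
    (m : ℕ) (j : ℤ) (hj : j ≤ i) :
    P * ((if j = i then E else 0) + lam * exp (-(z * (m0 - m)) - o * (i - j))) +
      P * ((if j - 1 = i then E else 0) + lam * exp (-(z * (m0 - m)) - o * (i - (j - 1 : ℤ)))) ≤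
      P * ((if j = i then E else 0) + lam * exp (-(z * (m0 - (m + 1 : ℕ))) - o * (i - j))) := by
  have e0 : exp (-(z * (m0 - (m + 1 : ℕ))) - o * (i - j)) =
      exp (-(z * (m0 - m)) - o * (i - j)) * exp z := by
    rw [← exp_add]; push_cast; congr 1; ring
  have e1 : exp (-(z * (m0 - m)) - o * (i - (j - 1 : ℤ))) =
      exp (-(z * (m0 - m)) - o * (i - j)) * z := by
    conv_rhs => rw [← ho]
    rw [← exp_add, ho]; push_cast; congr 1; ring
  rw [e0, e1, if_neg (show j - 1 ≠ i by omega)]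
  linarith [mul_le_mul_of_nonneg_left (add_one_le_exp z)
    (mul_nonneg (mul_nonneg hP hl) (exp_pos (-(z * (m0 - m)) - o * (i - j))).le)]

lemma sum_tw {v : ℕ → ℝ} {σ a r : ℝ} (ha : 0 ≤ a) (h0 : v 0 = 0) (hv : ∀ q, 0 ≤ v q)
    (h1 : v 1 ≤ r) (h : ∀ q, v (q + 2) ≤ σ * v (q + 1) + a / 2 ^ (q + 1)) (Q : ℕ) :
    ∑ q ∈ range (Q + 1), v q ≤ r + σ * ∑ q ∈ range (Q + 1), v q + a := by
  have : ∑ q ∈ range (Q + 1 + 1), v q ≤ r + σ * ∑ q ∈ range (Q + 1), v q + a - a / 2 ^ Q := by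
    induction Q with
    | zero => simpa [h0, sum_range_succ] using h1
    | succ Q ih =>
      have e : a / 2 ^ Q = 2 * (a / 2 ^ (Q + 1)) := by field_simp; ring
      rw [sum_range_succ _ (Q + 1 + 1), sum_range_succ _ (Q + 1)] at *
      linarith [h Q]
  rw [sum_range_succ] at this
  linarith [hv (Q + 1), show 0 ≤ a / 2 ^ Q by positivity]

variable {L : Type*} [Field L] {n : ℕ} {ι : Type*} [DecidableEq ι]

/-- the potential for exactness -/
noncomputable def Fx (B θ g : ℝ) (d : ι → ℕ) (A : Finset ι) (m : ℕ) (i : ℤ) : ℝ :=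
  exp (B * (θ * xi g d A i - m))

/-- the weight ratio at a threshold -/
noncomputable def tz (g : ℝ) (d : ι → ℕ) (A : Finset ι) (i : ℤ) (e : ℕ) : ℝ :=
  qz g d A (Xz g d A i) (i - e) / qz g d A (Xz g d A i - 1) (i - 1)

/-- the parameters for exactness -/
structure Par (ε B z lam o ρ g : ℝ) (y : ℕ) : Prop where
  e0 : 0 < ε
  e1 : ε ≤ 1 / 4
  hB : B = ε / 8
  hz : z = B * ε / 4
  hl : lam = B * ε / 24
  ho : exp (-o) = z
  r0 : 0 ≤ ρ
  r1 : ρ ≤ ε / 16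
  r2 : 8 ≤ ρ * g
  r3 : y * ρ < 1
  hy : exp (o - B * ε / 2 * y) ≤ lam / 4

variable {ε B z lam o ρ g : ℝ} {y : ℕ} {d : ι → ℕ} {A : Finset ι}

lemma Par.bd (p : Par ε B z lam o ρ g y) : 0 < B ∧ B ≤ 1 / 16 ∧ 0 < z ∧ z ≤ B ∧ 0 < lam ∧
    lam ≤ B ∧ 0 ≤ g ∧ ρ ≤ 1 / 32 ∧ 0 ≤ o ∧ exp B ≤ 3 / 2 := by
  obtain ⟨e0, e1, hB, hz, hl, ho, r0, r1, r2, -⟩ := p
  have b0 : 0 < B := by linarith
  have b1 := mul_pos b0 e0
  have b2 := mul_le_mul_of_nonneg_left e1 b0.le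
  refine ⟨b0, by linarith, by linarith, by linarith, by linarith, by linarith,
    (pos_of_mul_pos_right (by linarith) r0).le, by linarith, ?_, ?_⟩
  · exact neg_nonpos.1 (exp_le_one_iff.1 (by linarith))
  · linarith [ex_up (e := 1) b0.le (by linarith) one_pos]

lemma Par.close (p : Par ε B z lam o ρ g y) {τ δ : ℝ} (t0 : 0 ≤ τ) (t1 : (1 - 3 * ρ) * τ ≤ 1)
    (t2 : (1 - 3 * ρ) * τ ≤ δ) :
    τ * (exp B - 1 + 3 * lam) ≤ (1 - 2 * ρ) * (1 - exp (-(B * (1 + ε) * δ))) := by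
  obtain ⟨b0, b1, -, -, -, -, -, r4, -⟩ := p.bd
  obtain ⟨e0, e1, hB, -, hl, -, r0, r1, -⟩ := p
  have a0 : 0 ≤ B * (1 + ε) := by positivity
  have a1 := exp_le_exp.2 (neg_le_neg (mul_le_mul_of_nonneg_left t2 a0))
  have a2 := ex_dn (e := 5 * ε / 32) (mul_nonneg a0 (mul_nonneg (show 0 ≤ 1 - 3 * ρ by linarith) t0))
    ((mul_le_of_le_one_right a0 t1).trans (by nlinarith))
  have a3 := ex_up (e := ε / 4) b0.le (by nlinarith) (by linarith)
  have a4 : (1 + 5 * ε / 32) * (1 + 3 * ε / 8) ≤ (1 - 2 * ρ) * ((1 + ε) * (1 - 3 * ρ)) := by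
    nlinarith [mul_nonneg (sq_nonneg ρ) e0.le]
  refine le_of_mul_le_mul_left ?_ (show 0 < 1 + 5 * ε / 32 by linarith)
  have a5 := mul_le_mul_of_nonneg_left (a2.trans (mul_le_mul_of_nonneg_left
    (sub_le_sub_left a1 1) (by linarith))) (show 0 ≤ 1 - 2 * ρ by linarith)
  rw [hl]
  linarith [mul_le_mul_of_nonneg_left a4 (mul_nonneg b0.le t0),
    mul_le_mul_of_nonneg_left a3 (mul_nonneg (show 0 ≤ 1 + 5 * ε / 32 by linarith) t0)]

variable (p : Par ε B z lam o ρ g y) (hd : ∀ l, 1 ≤ d l)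
include p hd

lemma node {i j : ℤ} (j0 : 0 ≤ j) (hj : j < i) {κ κ' : ℝ}
    (k0 : Xz g d A j + κ ≤ Xz g d A i + 1) (k1 : 2 * Xz g d A j + κ' ≤ 2 * Xz g d A i + 2) :
    exp (B * (1 + ε) * (xi g d A j - xi g d A i) + B * κ + z * κ' + o * (i - j)) ≤ lam := by
  obtain ⟨b0, b1, z0, z1, l0, l1, hg, r4, -, b2⟩ := p.bd
  obtain ⟨h, rfl⟩ : ∃ h : ℕ, i = j + (h + 1 : ℕ) := ⟨(i - j - 1).toNat, by omega⟩
  have a0 : (Xz g d A j : ℝ) + y * (h + 1) ≤ Xz g d A (j + (h + 1 : ℕ)) := by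
    exact_mod_cast space (A := A) hg hd p.r0 (by linarith) p.r2 p.r3 j0 (h + 1)
  have a1 := (xi_bd hg hd A j).1
  have a2 := (xi_bd hg hd A (j + (h + 1 : ℕ))).2
  have a3 : o - B * ε / 2 * y ≤ 0 := exp_le_one_iff.1 (p.hy.trans (by linarith))
  have a4 := mul_pos b0 p.e0
  have a5 := mul_le_mul_of_nonneg_left p.e1 b0.le
  have a6 : exp (3 * B) ≤ 4 := by
    rw [show 3 * B = (3 : ℕ) * B by norm_num, exp_nat_mul]
    exact (pow_le_pow_left₀ (exp_pos _).le b2 3).trans (by norm_num)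
  refine le_trans (exp_le_exp.2 (show _ ≤ 3 * B + (o - B * ε / 2 * y) from ?_)) ?_
  · have := p.hz
    push_cast at *
    linarith [mul_le_mul_of_nonneg_left k0 b0.le, mul_le_mul_of_nonneg_left k1 z0.le,
      mul_le_mul_of_nonneg_left a0 a4.le, mul_nonneg h.cast_nonneg (neg_nonneg.2 a3),
      mul_le_mul_of_nonneg_left (add_le_add a1 a2) (add_pos b0 a4).le,
      congrArg (· * (Xz g d A j : ℝ)) this, congrArg (· * (Xz g d A (j + (h + 1)) : ℝ)) this]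
  · rw [exp_add]
    linarith [mul_le_mul a6 p.hy (exp_pos _).le (by norm_num)]

lemma tz_bd {i : ℤ} (hi : 0 < i) {e : ℕ} (he : 2 ≤ e) : 0 ≤ tz g d A i e ∧ tz g d A i e ≤ 2 * ρ := by
  obtain ⟨-, -, -, -, -, -, hg, r4, -⟩ := p.bd
  obtain ⟨N, -, e0, a, b, -⟩ := X_spec hg hd A hi
  have b0 := b _ (by omega) le_rfl
  have c := rat8 hg hd a p.r0 (by linarith) p.r2 (i - 1) (by omega)
  have f := (desc hg hd (a.lev (show i - 1 ≤ i by omega)) p.r0 (c _ (by omega)) 1 N rfl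
    (by push_cast; linarith)).2
  rw [tz, e0, add_tsub_cancel_right, div_le_iff₀ b0]
  refine ⟨div_nonneg (a.nonneg _ (by omega)) b0.le, (c _ (by omega)).trans ?_⟩
  push_cast at f
  nlinarith [mul_le_mul_of_nonneg_left f p.r0, mul_nonneg p.r0 (a.nonneg (i - 1) (by omega))]

lemma tz_one {i : ℤ} (hi : 0 < i) {e : ℕ} (he : 1 ≤ e) : 0 ≤ tz g d A i e ∧
    (1 - 3 * ρ) * tz g d A i e ≤ 1 ∧ (e = 1 → 1 ≤ tz g d A i e) := by
  obtain ⟨-, -, -, -, -, -, hg, r4, -⟩ := p.bd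
  have r0 := p.r0
  rcases he.eq_or_lt with rfl | he
  · obtain ⟨N, -, e0, a, b, -⟩ := X_spec hg hd A hi
    have b0 := b _ (by omega) le_rfl
    have c := rat8 hg hd a p.r0 (by linarith) p.r2 (i - 1) (by omega)
    have f := (desc hg hd (a.lev (show i - 1 ≤ i by omega)) p.r0 (c _ (by omega)) 1 N rfl
      (by push_cast; linarith)).2
    have k := a.nonneg (i - 1) (by omega)
    rw [tz, e0, add_tsub_cancel_right, ← mul_div_assoc, div_le_one b0, one_le_div b0]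
    push_cast at f ⊢
    exact ⟨div_nonneg k b0.le, by linarith [mul_nonneg r0 k], fun _ => (b.up 1).1⟩
  · obtain ⟨a, b⟩ := tz_bd p hd (A := A) hi he
    exact ⟨a, by linarith [mul_nonneg r0 a], by omega⟩

lemma tz_path {i : ℤ} {e : ℕ} (he : 0 < e) (hi : e ≤ i) :
    exp (-(o * e) - z * (Xz g d A i - Xz g d A (i - e))) ≤ tz g d A i e := by
  obtain ⟨-, -, z0, -, -, -, hg, -, o0, -⟩ := p.bd
  obtain ⟨N, -, e0, a, b, -⟩ := X_spec hg hd A (show 0 < i by omega)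
  obtain ⟨e, rfl⟩ := Nat.exists_eq_succ_of_ne_zero he.ne'
  have b0 := b _ (by omega) le_rfl
  have c : i - (e + 1 : ℕ) + e = i - 1 := by omega
  have f := path hg hd z0.le (show 0 ≤ i - (e + 1 : ℕ) by omega) N N.le_succ e (c ▸ b)
  rw [c, ← div_le_iff₀' (exp_pos _), mul_div_assoc] at f
  rw [tz, e0, add_tsub_cancel_right, le_div_iff₀' b0]
  refine le_trans (mul_le_mul_of_nonneg_left ?_ b0.le) f
  conv_rhs => enter [1]; rw [← p.ho]
  rw [← exp_nat_mul, ← exp_sub, exp_le_exp]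
  push_cast
  linarith

lemma tz_shift {l : ι} (hl : l ∉ A) {i : ℤ} (hi : 0 < i) :
    (1 - 3 * ρ) * tz g d (insert l A) i (d l) ≤ xi g d (insert l A) i - xi g d A i := by
  obtain ⟨-, -, -, -, -, -, hg, r4, -⟩ := p.bd
  obtain ⟨N, -, e0, a, b, -⟩ := X_spec hg hd (insert l A) hi
  rw [tz, e0, add_tsub_cancel_right, ← mul_div_assoc, div_le_iff₀ (b _ (by omega) le_rfl)]
  exact shift_dn hg hd hl hi e0 p.r0 (by linarith)
    (rat8 hg hd (a.ins hd hl) p.r0 (by linarith) p.r2) (rat8 hg hd a p.r0 (by linarith) p.r2)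

lemma Fx_low (m : ℕ) {i j : ℤ} (j0 : 0 ≤ j) (hj : j ≤ i) :
    Fx B (1 + ε) g d A m j ≤ Fx B (1 + ε) g d A m i * exp (-(o * (i - j))) := by
  rcases hj.eq_or_lt with rfl | hj
  · simp
  obtain ⟨-, b1, -, -, -, l1, -⟩ := p.bd
  have a : (Xz g d A j : ℝ) ≤ Xz g d A i := Nat.cast_le.2 ((Ps_X hd i).lev hj.le).X_le
  have := exp_le_one_iff.1 ((node p hd (A := A) j0 hj (κ := 0) (κ' := 0) (by linarith)
    (by linarith)).trans (by linarith))
  rw [Fx, Fx, ← exp_add, exp_le_exp]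
  linarith

lemma Fx_tz (m : ℕ) {i : ℤ} {e : ℕ} (he : 0 < e) (hi : e ≤ i) :
    Fx B (1 + ε) g d A m (i - e) ≤ lam * tz g d A i e * Fx B (1 + ε) g d A m i := by
  have a : (Xz g d A (i - e) : ℝ) ≤ Xz g d A i := Nat.cast_le.2 ((Ps_X hd i).lev (by omega)).X_le
  refine le_trans (le_of_eq ?_) (mul_le_mul_of_nonneg_right (mul_le_mul
    (node p hd (A := A) (i := i) (j := i - e) (by omega) (by omega) (κ := 0)
      (κ' := Xz g d A i - Xz g d A (i - e)) (by linarith) (by linarith))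
    (tz_path p hd he hi) (exp_pos _).le p.bd.2.2.2.2.1.le) (exp_pos _).le)
  rw [Fx, Fx, ← exp_add, ← exp_add]
  push_cast; congr 1; ring

lemma ch_tz {m : ℕ} {i : ℤ} {e : ℕ} (he : 0 < e) (hi : e ≤ i) (hm : m ≤ Xz g d A i) (q : ℕ) :
    ch m (i - (q + 1 : ℕ) * e) ≤ lam * tz g d A i e * Fx B (1 + ε) g d A m i * exp (-(o * q)) := by
  obtain ⟨-, -, z0, -, l0, -, hg, -, o0, -⟩ := p.bd
  have a : (m : ℝ) ≤ Xz g d A i := Nat.cast_le.2 hm
  have a0 : Xz g d A 0 = 0 := Nat.le_zero.1 (Ps_zero hd le_rfl).X_le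
  have a1 : (1 : ℝ) ≤ e := by exact_mod_cast he
  refine (ch_exp o _ _).trans (le_trans ?_ (mul_le_mul_of_nonneg_right (mul_le_mul_of_nonneg_right
    (mul_le_mul (node p hd (A := A) (i := i) le_rfl (by omega) (κ := m) (κ' := m + Xz g d A i)
      (by rw [a0]; push_cast; linarith) (by rw [a0]; push_cast; linarith))
    (tz_path p hd he hi) (exp_pos _).le l0.le) (exp_pos _).le) (exp_pos _).le))
  rw [Fx, ← exp_add, ← exp_add, ← exp_add, exp_le_exp, p.ho, xi_zero hd le_rfl]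
  push_cast
  linarith [mul_nonneg z0.le (Xz g d A (i - e)).cast_nonneg,
    mul_le_mul_of_nonneg_left a1 (mul_nonneg o0 q.cast_nonneg)]

lemma leaf {G : ι → Finset (Fin n) → L} {M : Finset (Fin n)} {i : ℤ}
    (hE : ∀ M' : Finset (Fin n), M'.card < M.card → ∀ j ≤ i,
      wd G M' A j ≤ pz M'.card d A j + Fx B (1 + ε) g d A M'.card j) (M' : Finset (Fin n)) (k : ℕ)
    (j : ℤ) (c0 : M'.card + k + 1 = M.card) (c1 : j ≤ i) (c2 : Xz g d A j + k ≤ Xz g d A i) :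
    wd G M' A j ≤ pz M'.card d A j + Fx B (1 + ε) g d A M.card i * ((if j = i then exp B else 0) +
      lam * exp (-(z * (M.card - M'.card)) - o * (i - j))) := by
  obtain ⟨-, -, z0, -, l0, -, hg, -⟩ := p.bd
  have P0 : 0 < Fx B (1 + ε) g d A M.card i := exp_pos _
  have c3 : (M.card : ℝ) = M'.card + k + 1 := by exact_mod_cast c0.symm
  have c4 : (Xz g d A j : ℝ) + k ≤ Xz g d A i := by exact_mod_cast c2
  rcases lt_or_ge j 0 with h | h
  · rw [wd_neg h, pz_neg _ _ _ h, zero_add]; positivity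
  refine (hE M' (by omega) j c1).trans (add_le_add le_rfl ?_)
  rcases c1.eq_or_lt with rfl | c1
  · rw [if_pos rfl, mul_add]
    refine le_add_of_le_of_nonneg (le_of_eq ?_) (by positivity)
    rw [Fx, Fx, ← exp_add, c3, show k = 0 by omega]
    push_cast; congr 1; ring
  rw [if_neg c1.ne, zero_add]
  refine le_trans (le_of_eq ?_) (mul_le_mul_of_nonneg_left (mul_le_mul_of_nonneg_right
    (node p hd (A := A) h c1 (κ := k + 1) (κ' := k + 1) (by linarith)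
      (by linarith [k.cast_nonneg (α := ℝ)])) (exp_pos _).le) P0.le)
  rw [Fx, Fx, ← exp_add, ← exp_add, c3]
  congr 1; ring

lemma inner3 {G : ι → Finset (Fin n) → L} {M : Finset (Fin n)} {e : ℕ} {i : ℤ} (he : 0 < e)
    (hi : 0 < i) (hm : Xz g d A i ≤ M.card)
    (hE : ∀ M' : Finset (Fin n), M'.card < M.card → ∀ j ≤ i,
      wd G M' A j ≤ pz M'.card d A j + Fx B (1 + ε) g d A M'.card j)
    {X Y : Submodule L (Finset (Fin n) → L)} (hX : X ≤ WM G M A (i - e)) (hY : Y ≤ WM G M A i)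
    (hXY : ∀ T ⊆ M, T.card = e → ∀ F ∈ Y, mon T F ∈ X) :
    wd G M A (i - e) - finrank L X ≤ tz g d A i e *
      (pz M.card d A i + Fx B (1 + ε) g d A M.card i * (exp B + lam) - finrank L Y) := by
  obtain ⟨-, -, z0, -, l0, -, hg, -⟩ := p.bd
  obtain ⟨N, -, e0, a, b, -⟩ := X_spec hg hd A hi
  have P0 : 0 < Fx B (1 + ε) g d A M.card i := exp_pos _
  have := lymt (G := G) (a := 0) (R := fun m j => pz m d A j + Fx B (1 + ε) g d A M.card i *
    ((if j = i then exp B else 0) + lam * exp (-(z * (M.card - m)) - o * (i - j)))) hg hd he e0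
    (Or.inl ⟨rfl, e0 ▸ hm⟩) (fun m j hj => by
      rw [pz_succ]
      linarith [tent (E := exp B) p.ho l0.le P0.le M.card i m j hj])
    (fun M' k j c0 c1 c2 _ => leaf p hd hE M' k j c0 c1 (e0 ▸ c2)) hX hY hXY
  rw [tz, e0, add_tsub_cancel_right, div_mul_eq_mul_div, le_div_iff₀' (b _ (by omega) le_rfl)]
  simpa using this

lemma inner4 {G : ι → Finset (Fin n) → L} {M : Finset (Fin n)} {e : ℕ} {i j : ℤ} (he : 0 < e)
    (j0 : 0 ≤ j) (hj : j < i) (hm : Xz g d A i ≤ M.card)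
    (hE : ∀ M' : Finset (Fin n), M'.card < M.card → ∀ j ≤ i,
      wd G M' A j ≤ pz M'.card d A j + Fx B (1 + ε) g d A M'.card j)
    {X Y : Submodule L (Finset (Fin n) → L)} (hX : X ≤ WM G M A (j - e)) (hY : Y ≤ WM G M A j)
    (hXY : ∀ T ⊆ M, T.card = e → ∀ F ∈ Y, mon T F ∈ X) {b : ℝ} (b0 : 0 ≤ b)
    (hb : pz M.card d A j + Fx B (1 + ε) g d A M.card i * (lam * exp (-(o * (i - j)))) -
      finrank L Y ≤ b) : wd G M A (j - e) - finrank L X ≤ ρ * b := by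
  obtain ⟨-, -, z0, -, l0, -, hg, r4, -⟩ := p.bd
  have a := Ps_X (g := g) (A := A) hd i
  have P0 : 0 < Fx B (1 + ε) g d A M.card i := exp_pos _
  have := lymq (G := G) (A := A) (a := 0) (R := fun m j => pz m d A j + Fx B (1 + ε) g d A M.card i *
    ((if j = i then exp B else 0) + lam * exp (-(z * (M.card - m)) - o * (i - j)))) hg hd
    (m0 := M.card) (N0 := Xz g d A i) (j0 := j) (Or.inl ⟨rfl, hm⟩) (fun m k hk => by
      rw [pz_succ]
      linarith [tent (E := exp B) p.ho l0.le P0.le M.card i m k (by omega)])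
    (fun M' N k c0 c1 c2 c3 _ => leaf p hd hE M' (M.card - M'.card - 1) k (by omega) (by omega)
      (by have := c3.X_le; omega)) M _ e (j - e) X Y _ le_rfl (add_comm _ _) (fun _ => he)
    (by omega) hX (by rwa [sub_add_cancel]) hXY (a.lev (by omega)) (Or.inl rfl)
  simp only [sub_add_cancel, zero_mul, add_zero, sub_zero, one_mul, if_neg hj.ne, zero_add, sub_self,
    mul_zero, neg_zero, zero_sub] at this
  refine le_of_mul_le_mul_left (this.trans ((mul_le_mul_of_nonneg_left hb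
    (a.nonneg _ (by omega))).trans ?_)) (a j j0 hj.le)
  linarith [mul_le_mul_of_nonneg_right (rat8 hg hd a p.r0 (by linarith) p.r2 j hj (j - e)
    (by omega)) b0]

end Pool.Agent.P.MP_3acc10_al.Wn
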