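import Pool.Agent.P.MP_3acc10_al.WnMain

set_option autoImplicit false

namespace Pool.Agent.P.MP_3acc10_al.Wn

open Finset Hd

lemma zind {P : ℤ → Prop} (h0 : ∀ j < 0, P j) (h : ∀ j, 0 ≤ j → (∀ k < j, P k) → P j) (j : ℤ) :
    P j := by
  have H : ∀ N : ℕ, ∀ j : ℤ, j < N → P j := by
    intro N
    induction N with
    | zero => exact h0
    | succ N ih =>
      exact fun j hj => (lt_or_ge j 0).elim (h0 j) fun a => h j a fun k hk => ih k (by omega)
  exact H (j.toNat + 1) j (by omega)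

section
variable {u w : ℤ → ℝ} {c : ℝ} {e : ℤ} (he : 0 < e) (hc : 0 ≤ c)
  (hw : ∀ j, w j = u j + c * w (j - e)) (h0 : ∀ j < 0, w j = 0)
include he hc hw h0

lemma dv_nonneg {i : ℤ} (hu : ∀ j ≤ i, 0 ≤ u j) (j : ℤ) : j ≤ i → 0 ≤ w j := by
  refine zind (P := fun j => j ≤ i → 0 ≤ w j) (fun j a _ => (h0 j a).ge) (fun j _ ih b => ?_) j
  rw [hw]
  exact add_nonneg (hu j b) (mul_nonneg hc (ih _ (by omega) (by omega)))

lemma dv_lc {b : ℤ} (hu : ∀ a ≤ b, u (a - 1) * u b ≤ u a * u (b - 1)) (a : ℤ) :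
    a ≤ b → w (a - 1) * u b ≤ w a * u (b - 1) := by
  refine zind (P := fun a => a ≤ b → w (a - 1) * u b ≤ w a * u (b - 1))
    (fun j a _ => by rw [h0 j a, h0 _ (by omega), zero_mul, zero_mul]) (fun j _ ih h => ?_) a
  have := mul_le_mul_of_nonneg_left (ih (j - e) (by omega) (by omega)) hc
  rw [hw j, hw (j - 1), sub_right_comm]
  linarith [hu j h]

end

variable {ι : Type*} [DecidableEq ι]

/-- damped predicted coefficients -/
noncomputable def qz (g : ℝ) (d : ι → ℕ) (A : Finset ι) (m : ℕ) (j : ℤ) : ℝ :=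
  pz m d A j - g * pz m d A (j - 1)

/-- positivity up to a level -/
def Ps (g : ℝ) (d : ι → ℕ) (A : Finset ι) (m : ℕ) (i : ℤ) : Prop :=
  ∀ j, 0 ≤ j → j ≤ i → 0 < qz g d A m j

/-- the lagged terms of the recurrence -/
noncomputable def Tz (g : ℝ) (d : ι → ℕ) (A : Finset ι) (m : ℕ) (k : ℤ) : ℝ :=
  g * (1 + g) * pz m d A (k - 2) +
    ∑ l ∈ A, d l * (qz g d (A.erase l) m (k - max (d l) 2) + qz g d (A.erase l) m (k - 1 - d l))

/-- the number of linear forms -/
noncomputable def lin (d : ι → ℕ) (A : Finset ι) : ℝ := ∑ l ∈ A, if d l = 1 then 1 else 0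

omit [DecidableEq ι] in
lemma lin_nonneg (d : ι → ℕ) (A : Finset ι) : 0 ≤ lin d A :=
  sum_nonneg fun l _ => by split_ifs <;> norm_num

variable {g : ℝ} {d : ι → ℕ} {A : Finset ι} {m : ℕ} {i : ℤ}

omit [DecidableEq ι] in
lemma qz_neg {j : ℤ} (h : j < 0) : qz g d A m j = 0 := by
  rw [qz, pz_neg _ _ _ h, pz_neg _ _ _ (by omega), mul_zero, sub_zero]

omit [DecidableEq ι] in
lemma qz_g0 (j : ℤ) : qz 0 d A m j = pz m d A j := by rw [qz, zero_mul, sub_zero]

lemma qz_succ (j : ℤ) : qz g d A (m + 1) j = qz g d A m j + qz g d A m (j - 1) := by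
  simp only [qz, pz_succ]; ring

lemma qz_insert {l : ι} (hl : l ∉ A) (j : ℤ) :
    qz g d (insert l A) m j = qz g d A m j - qz g d A m (j - d l) := by
  simp only [qz, pz_insert _ _ hl, sub_right_comm j 1]; ring

lemma qz_rec (hd : ∀ l, 1 ≤ d l) (k : ℤ) :
    qz g d A m k * k = (m - k + 1 - g - lin d A) * qz g d A m (k - 1) - Tz g d A m k := by
  have f : ∑ l ∈ A, (d l : ℝ) * (qz g d (A.erase l) m (k - d l) + qz g d (A.erase l) m (k - 1 - d l)) =
      ∑ l ∈ A, (d l : ℝ) * (qz g d (A.erase l) m (k - max (d l) 2) +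
        qz g d (A.erase l) m (k - 1 - d l)) + lin d A * qz g d A m (k - 1) := by
    rw [lin, sum_mul, ← sum_add_distrib]
    refine sum_congr rfl fun l hl => ?_
    split_ifs with h
    · have := qz_insert (g := g) (d := d) (m := m) (notMem_erase l A) (k - 1)
      rw [insert_erase hl] at this
      rw [this, h, show k - (max 1 2 : ℕ) = k - 1 - (1 : ℕ) by omega]
      push_cast; ring
    · rw [max_eq_left (by have := hd l; omega), zero_mul, add_zero]
  have a := pz_rec m d A k
  have b := pz_rec m d A (k - 1)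
  have e : ∑ l ∈ A, (d l : ℝ) * (qz g d (A.erase l) m (k - d l) + qz g d (A.erase l) m (k - 1 - d l)) =
      ∑ l ∈ A, d l * (pz m d (A.erase l) (k - d l) + pz m d (A.erase l) (k - 1 - d l)) -
      g * ∑ l ∈ A, d l * (pz m d (A.erase l) (k - 1 - d l) + pz m d (A.erase l) (k - 1 - 1 - d l)) := by
    rw [mul_sum, ← sum_sub_distrib]
    refine sum_congr rfl fun l _ => ?_
    simp only [qz, sub_right_comm _ (d l : ℤ) 1]; ring
  rw [e, qz] at f
  rw [Tz, qz, qz, show k - 2 = k - 1 - 1 by ring]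
  push_cast at b
  linear_combination a - g * b - f

omit [DecidableEq ι] in
lemma Ps.nonneg (h : Ps g d A m i) (j : ℤ) (hj : j ≤ i) : 0 ≤ qz g d A m j :=
  (lt_or_ge j 0).elim (fun a => (qz_neg a).ge) fun a => (h j a hj).le

omit [DecidableEq ι] in
lemma Ps.lev (h : Ps g d A m i) {j : ℤ} (hj : j ≤ i) : Ps g d A m j :=
  fun k a b => h k a (b.trans hj)

omit [DecidableEq ι] in
lemma Ps.top (h : Ps g d A m (i - 1)) (h1 : 0 ≤ i → 0 < qz g d A m i) : Ps g d A m i :=
  fun k a b => b.eq_or_lt.elim (fun e => e ▸ h1 (e ▸ a)) fun e => h k a (by omega)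

lemma Ps.le (h : Ps g d A m i) {m' : ℕ} (hm : m ≤ m') : Ps g d A m' i := by
  induction hm with
  | refl => exact h
  | step _ ih =>
    exact fun j a b => by rw [qz_succ]; linarith [ih j a b, ih.nonneg (j - 1) (by omega)]

lemma Ps.up (h : Ps g d A m (i - 1)) (y : ℕ) :
    qz g d A m (i - 1) ≤ qz g d A (m + y) (i - 1) ∧
      qz g d A m i + y * qz g d A m (i - 1) ≤ qz g d A (m + y) i := by
  induction y with
  | zero => simp
  | succ y ih =>
    rw [← add_assoc, qz_succ, qz_succ]
    push_cast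
    exact ⟨by linarith [(h.le (Nat.le_add_right m y)).nonneg (i - 1 - 1) (by omega)], by linarith⟩

lemma Ps.mono (h : Ps g d A m (i - 1)) {m' : ℕ} (hm : m ≤ m') : qz g d A m i ≤ qz g d A m' i := by
  obtain ⟨y, rfl⟩ := Nat.exists_eq_add_of_le hm
  linarith [(h.up y).2, mul_nonneg y.cast_nonneg (h.nonneg _ le_rfl)]

omit [DecidableEq ι] in
lemma pz_dv (j : ℤ) : pz m d A j = qz g d A m j + g * pz m d A (j - 1) := by rw [qz]; ring

lemma qz_dv {l : ι} (hl : l ∉ A) (j : ℤ) :
    qz g d A m j = qz g d (insert l A) m j + 1 * qz g d A m (j - d l) := by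
  rw [qz_insert hl]; ring

variable (hg : 0 ≤ g) (hd : ∀ l, 1 ≤ d l)

omit [DecidableEq ι] in
include hg in
lemma Ps.g0 (h : Ps g d A m i) : Ps 0 d A m i := fun j a b => by
  rw [qz_g0, pz_dv (g := g)]
  linarith [h j a b, mul_nonneg hg (dv_nonneg one_pos hg pz_dv (fun _ => pz_neg _ _ _) h.nonneg
    (j - 1) (by omega))]

include hd

lemma qz_zero : qz g d A m 0 = 1 := by
  have := pz_nat m d A 0
  rw [al_zero m hd] at this
  rw [qz, pz_neg (i := 0 - 1) _ _ _ (by omega)]
  simpa using this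

lemma Ps.ins {l : ι} (hl : l ∉ A) (h : Ps g d (insert l A) m i) : Ps g d A m i := fun j a b => by
  have := hd l
  rw [qz_dv hl]
  linarith [h j a b, dv_nonneg (show (0 : ℤ) < d l by omega) zero_le_one (qz_dv hl)
    (fun _ => qz_neg) h.nonneg (j - d l) (by omega)]

lemma Ps.erase (h : Ps g d A m i) {l : ι} (hl : l ∈ A) : Ps g d (A.erase l) m i :=
  Ps.ins hd (notMem_erase l A) (by rwa [insert_erase hl])

lemma Ps.sub (B : Finset ι) : Ps g d B m i → ∀ A ⊆ B, Ps g d A m i := by
  induction B using Finset.strongInduction with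
  | H B ih =>
    intro h A hA
    rcases hA.eq_or_ssubset with rfl | h1
    · exact h
    obtain ⟨l, hl, hl'⟩ := exists_of_ssubset h1
    exact ih _ (erase_ssubset hl) (h.erase hd hl) A (subset_erase.2 ⟨hA, hl'⟩)

include hg

lemma Tz_nonneg {k : ℤ} (h : Ps g d A m (k - 2)) : 0 ≤ Tz g d A m k := by
  have := (h.g0 hg).nonneg _ le_rfl
  rw [qz_g0] at this
  refine add_nonneg (by positivity) (sum_nonneg fun l hl => mul_nonneg (by positivity) ?_)
  have := hd l
  exact add_nonneg ((h.erase hd hl).nonneg _ (by omega)) ((h.erase hd hl).nonneg _ (by omega))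

lemma Ps.pred (h : Ps g d A (m + 1) i) : Ps g d A m (i - 1) := by
  have H : ∀ j, 0 ≤ j → j ≤ i - 1 → Ps g d A m (j - 1) → 0 < (m + 1 - g - lin d A) * qz g d A m j := by
    intro j a b c
    have a1 := qz_rec (g := g) (d := d) (A := A) (m := m) hd (j + 1)
    have a2 := Tz_nonneg hg hd (k := j + 1) (c.lev (by omega))
    have a3 := mul_pos (h (j + 1) (by omega) (by omega))
      (show (0 : ℝ) < (j + 1 : ℤ) by exact_mod_cast (by omega))
    rw [qz_succ, add_sub_cancel_right] at *
    linarith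
  intro j
  refine zind (P := fun j => 0 ≤ j → j ≤ i - 1 → 0 < qz g d A m j) (by omega) (fun j a ih _ b => ?_) j
  have := H 0 le_rfl (by omega) fun k => by omega
  rw [qz_zero hd, mul_one] at this
  exact (mul_pos_iff_of_pos_left this).1 (H j a b fun k a1 a2 => ih k (by omega) a1 (by omega))

lemma Ps.big (h : Ps g d A m i) (hi : 0 < i) : g * i < m - i + 1 - lin d A := by
  have a := qz_rec (g := 0) (d := d) (A := A) (m := m) hd i
  have b := Tz_nonneg le_rfl hd (k := i) ((h.g0 hg).lev (by omega))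
  have c := h.g0 hg (i - 1) (by omega) (by omega)
  have e := mul_pos (h i hi.le le_rfl) (show (0 : ℝ) < i by exact_mod_cast hi)
  rw [qz] at e
  simp only [qz_g0] at a c
  refine lt_of_mul_lt_mul_right ?_ c.le
  linarith

lemma Ps.ne (h : Ps g d A m i) (hi : 0 < i) : m ≠ 0 := by
  rintro rfl
  have a : (1 : ℝ) ≤ i := by exact_mod_cast hi
  have := h.big hg hd hi
  push_cast at this
  nlinarith [lin_nonneg d A]

theorem lc (m : ℕ) : ∀ b, Ps g d A m (b - 1) → ∀ a ≤ b,
    qz g d A m (a - 1) * qz g d A m b ≤ qz g d A m a * qz g d A m (b - 1) := by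
  induction m with
  | zero =>
    intro b h a hab
    rcases hab.eq_or_lt with rfl | hab
    · exact (mul_comm _ _).le
    rcases le_or_gt a 0 with h0 | h0
    · rw [qz_neg (j := a - 1) (by omega), zero_mul]
      exact mul_nonneg (h.nonneg _ (by omega)) (h.nonneg _ le_rfl)
    · exact absurd rfl (h.ne hg hd (by omega))
  | succ m ih =>
    intro b h a hab
    rcases hab.eq_or_lt with rfl | hab
    · exact (mul_comm _ _).le
    rcases le_or_gt (qz g d A (m + 1) b) 0 with h0 | h0
    · exact (mul_nonpos_of_nonneg_of_nonpos (h.nonneg _ (by omega)) h0).trans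
        (mul_nonneg (h.nonneg _ (by omega)) (h.nonneg _ le_rfl))
    have h1 := (h.top fun _ => h0).pred hg hd
    have h2 := h1.lev (show b - 1 - 1 ≤ b - 1 by omega)
    simp only [qz_succ]
    linarith [ih b h1 a hab.le, ih b h1 (a - 1) (by omega), ih _ h2 a (by omega),
      ih _ h2 (a - 1) (by omega)]

lemma Tz_lc {k : ℤ} (h : Ps g d A m (k - 2 - 1)) :
    Tz g d A m (k - 1) * qz g d A m (k - 2) ≤ Tz g d A m k * qz g d A m (k - 2 - 1) := by
  have a := dv_lc one_pos hg pz_dv (fun _ => pz_neg _ _ _) (lc hg hd m _ h) (k - 2) le_rfl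
  rw [Tz, Tz, add_mul, add_mul, sum_mul, sum_mul, sub_right_comm k 1]
  simp only [mul_assoc]
  refine add_le_add (mul_le_mul_of_nonneg_left (mul_le_mul_of_nonneg_left a (by linarith)) hg)
    (sum_le_sum fun l hl => mul_le_mul_of_nonneg_left ?_ (by positivity))
  have := hd l
  have b := dv_lc (show (0 : ℤ) < d l by omega) zero_le_one (qz_dv (notMem_erase l A))
    (fun _ => qz_neg) (by rw [insert_erase hl]; exact lc hg hd m _ h)
  rw [insert_erase hl] at b
  have b1 := b (k - (max (d l) 2 : ℕ)) (by omega)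
  have b2 := b (k - 1 - d l) (by omega)
  rw [sub_right_comm] at b1 b2
  linarith

theorem rat (h : Ps g d A m i) {ρ : ℝ} (r0 : 0 ≤ ρ) (r1 : ρ ≤ 1)
    (hr : 1 < i → 4 * i ≤ ρ * (m - i + 1 - g - lin d A)) :
    ∀ k < i, ∀ j < k, qz g d A m j ≤ ρ * qz g d A m k := by
  suffices H : ∀ k < i, qz g d A m (k - 1) ≤ ρ * qz g d A m k by
    intro k
    refine zind (P := fun k => k < i → ∀ j < k, qz g d A m j ≤ ρ * qz g d A m k)
      (fun k a _ j b => by rw [qz_neg a, qz_neg (by omega), mul_zero]) (fun k _ ih a j b => ?_) k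
    rcases (show j = k - 1 ∨ j < k - 1 by omega) with rfl | c
    · exact H k a
    · exact (ih _ (by omega) (by omega) j c).trans ((mul_le_of_le_one_left
        (h.nonneg _ (by omega)) r1).trans (H k a))
  intro k hk
  rcases le_or_gt k 0 with k0 | k0
  · rw [qz_neg (j := k - 1) (by omega)]
    exact mul_nonneg r0 (h.nonneg _ hk.le)
  have a0 := h (i - 1) (by omega) (by omega)
  have b0 := h (i - 2) (by omega) (by omega)
  have i0 : (0 : ℝ) < i := by exact_mod_cast (show 0 < i by omega)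
  have hr := hr (by omega)
  suffices H : qz g d A m (i - 2) ≤ ρ * qz g d A m (i - 1) by
    have := lc hg hd m (i - 1) (h.lev (by omega)) k (by omega)
    rw [show i - 1 - 1 = i - 2 by ring] at this
    refine le_of_mul_le_mul_right (this.trans ?_) a0
    linarith [mul_le_mul_of_nonneg_left H (h.nonneg k hk.le)]
  by_contra! hn
  have t0 := qz_rec (g := g) (d := d) (A := A) (m := m) hd i
  have t1 := mul_pos (h i (by omega) le_rfl) i0
  have m0 : 0 < m - i + 1 - g - lin d A := pos_of_mul_pos_right (by linarith) r0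
  generalize hμ : m - i + 1 - g - lin d A = μ at *
  have H1 : ∀ s : ℕ, Tz g d A m (i - s) * qz g d A m (i - 2) ≤
      μ * qz g d A m (i - 1) * qz g d A m (i - s - 2) := by
    intro s
    induction s with
    | zero =>
      rw [Nat.cast_zero, sub_zero]
      exact mul_le_mul_of_nonneg_right (by linarith) b0.le
    | succ s ih =>
      rw [show i - (s + 1 : ℕ) = i - s - 1 by omega, sub_right_comm (i - s) 1]
      rcases lt_or_ge (i - s - 2) 0 with c | c
      · rw [Tz, pz_neg _ _ _ (by omega), sum_eq_zero fun l _ => by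
          have := hd l
          rw [qz_neg (by omega), qz_neg (by omega), add_zero, mul_zero], qz_neg (j := i - s - 2 - 1) (by omega)]
        simp
      refine le_of_mul_le_mul_right ?_ (h _ c (by omega))
      nlinarith [mul_le_mul_of_nonneg_right (Tz_lc hg hd (k := i - s) (h.lev (by omega))) b0.le,
        mul_le_mul_of_nonneg_right ih (h.nonneg (i - s - 2 - 1) (by omega))]
  have H2 : ∀ k, k < i → 2 * qz g d A m (i - 1) * qz g d A m (k - 1) ≤
      qz g d A m (i - 2) * qz g d A m k := by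
    refine zind (fun k a _ => by rw [qz_neg a, qz_neg (j := k - 1) (by omega), mul_zero, mul_zero])
      fun k a ih b => ?_
    have c0 := ih (k - 1) (by omega) (by omega)
    have c1 := H1 (i - k).toNat
    have c2 := qz_rec (g := g) (d := d) (A := A) (m := m) hd k
    have c3 : (k : ℝ) ≤ i := by exact_mod_cast b.le
    have c4 := h.nonneg (k - 1) (by omega)
    have c5 := h k a b.le
    rw [show i - (i - k).toNat = k by omega, show k - 2 = k - 1 - 1 by ring] at c1
    have c6 : μ * qz g d A m (k - 1) ≤ 2 * (qz g d A m k * i) := by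
      refine le_of_mul_le_mul_right ?_ b0
      rw [show (m : ℝ) - k + 1 - g - lin d A = μ + (i - k) by linarith] at c2
      linarith [mul_le_mul_of_nonneg_left c0 m0.le, mul_le_mul_of_nonneg_left c3 (mul_pos c5 b0).le,
        mul_nonneg (mul_nonneg (sub_nonneg.2 c3) c4) b0.le, congrArg (· * qz g d A m (i - 2)) c2]
    refine le_of_mul_le_mul_left ?_ m0
    nlinarith [mul_le_mul_of_nonneg_left c6 a0.le, mul_le_mul_of_nonneg_left hr (mul_pos a0 c5).le,
      mul_le_mul_of_nonneg_left hn.le (mul_pos m0 c5).le]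
  have := H2 (i - 1) (by omega)
  rw [show i - 1 - 1 = i - 2 by ring] at this
  nlinarith [mul_pos a0 b0]

lemma desc {M : ℕ} {j : ℤ} {ρ : ℝ} (h : Ps g d A M j) (r0 : 0 ≤ ρ)
    (hr : qz g d A M (j - 1) ≤ ρ * qz g d A M j) (s : ℕ) : ∀ m, m + s = M → s * ρ < 1 →
    Ps g d A m j ∧ (1 - s * ρ) * qz g d A M j ≤ qz g d A m j := by
  induction s with
  | zero => rintro m rfl _; exact ⟨h, by simp⟩
  | succ s ih =>
    intro m e hs
    push_cast at hs ⊢
    obtain ⟨a, b⟩ := ih (m + 1) (by omega) (by linarith)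
    have c := a.pred hg hd
    have f := (c.lev (show j - 1 - 1 ≤ j - 1 by omega)).mono (show m ≤ M by omega)
    rw [qz_succ] at b
    have k : (1 - (s + 1) * ρ) * qz g d A M j ≤ qz g d A m j := by linarith
    exact ⟨c.top fun j0 => (mul_pos (by linarith) (h j j0 le_rfl)).trans_le k, k⟩

end Pool.Agent.P.MP_3acc10_al.Wn
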