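import Pool.Agent.P.MP_3acc10_al.LtSeq

set_option autoImplicit false

namespace Pool.Agent.P.MP_3acc10_al.Wn

open Finset Hd Real

variable {ι : Type*} [DecidableEq ι]

/-- the least number of variables with positivity -/
noncomputable def Xz (g : ℝ) (d : ι → ℕ) (A : Finset ι) (i : ℤ) : ℕ := sInf {m | Ps g d A m i}

/-- the interpolated threshold -/
noncomputable def xi (g : ℝ) (d : ι → ℕ) (A : Finset ι) (i : ℤ) : ℝ :=
  Xz g d A i - qz g d A (Xz g d A i) i / qz g d A (Xz g d A i - 1) (i - 1)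

variable {g : ℝ} {d : ι → ℕ} {A : Finset ι} {m : ℕ} {i : ℤ}

omit [DecidableEq ι] in
lemma Ps.X_le (h : Ps g d A m i) : Xz g d A i ≤ m := Nat.sInf_le h

variable (hg : 0 ≤ g) (hd : ∀ l, 1 ≤ d l)
include hd

lemma Ps_zero (hi : i ≤ 0) : Ps g d A m i := fun j a b => by
  rw [show j = 0 by omega, qz_zero hd]; exact one_pos

lemma Ps_X (i : ℤ) : Ps g d A (Xz g d A i) i := by
  refine Nat.sInf_mem (s := {m | Ps g d A m i}) ?_
  refine zind (P := fun i => ∃ m, Ps g d A m i) (fun j a => ⟨0, Ps_zero hd a.le⟩)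
    (fun j a ih => ?_) i
  rcases a.eq_or_lt with rfl | a
  · exact ⟨0, Ps_zero hd le_rfl⟩
  obtain ⟨m, h⟩ := ih (j - 1) (by omega)
  have b := h (j - 1) (by omega) le_rfl
  obtain ⟨y, hy⟩ := exists_nat_gt (-qz g d A m j / qz g d A m (j - 1))
  rw [div_lt_iff₀ b] at hy
  exact ⟨m + y, (h.le (Nat.le_add_right m y)).top fun _ => by linarith [(h.up y).2]⟩

lemma xi_zero (hi : i ≤ 0) : xi g d A i = 0 := by
  rw [xi, qz_neg (j := i - 1) (by omega), Nat.le_zero.1 (Ps_zero hd hi).X_le]; simp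

include hg

lemma X_spec (A : Finset ι) (hi : 0 < i) : ∃ (m : ℕ) (t : ℝ), Xz g d A i = m + 1 ∧
    Ps g d A (m + 1) i ∧ Ps g d A m (i - 1) ∧ ¬Ps g d A m i ∧ xi g d A i = m + 1 - t ∧ 0 ≤ t ∧
    t ≤ 1 ∧ t * qz g d A m (i - 1) = qz g d A (m + 1) i := by
  have a := Ps_X (g := g) (A := A) hd i
  obtain ⟨m, e⟩ := Nat.exists_eq_succ_of_ne_zero (a.ne hg hd hi)
  rw [e] at a
  have b := a.pred hg hd
  have c : ¬Ps g d A m i := fun h => by have := h.X_le; omega
  have b0 := b (i - 1) (by omega) le_rfl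
  refine ⟨m, _, e, a, b, c, by rw [xi, e]; simp, div_nonneg (a.nonneg _ le_rfl) b0.le, ?_,
    div_mul_cancel₀ _ b0.ne'⟩
  rw [div_le_one b0, qz_succ, add_le_iff_nonpos_left]
  exact not_lt.1 fun h => c (b.top fun _ => h)

lemma xi_bd (A : Finset ι) (i : ℤ) : xi g d A i ≤ Xz g d A i ∧ Xz g d A i ≤ xi g d A i + 1 := by
  rcases le_or_gt i 0 with h | h
  · rw [xi_zero hd h, Nat.le_zero.1 (Ps_zero hd h).X_le]; simp
  · obtain ⟨m, t, e, -, -, -, e1, t0, t1, -⟩ := X_spec hg hd A h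
    rw [e, e1]; push_cast
    exact ⟨by linarith, by linarith⟩

lemma xi_cv (hi : 0 < i) (h : Ps g d A (m + 1) i) :
    qz g d A (m + 1) i ≤ (m + 1 - xi g d A i) * qz g d A m (i - 1) := by
  obtain ⟨k, t, e, -, b, -, e1, t0, -, e2⟩ := X_spec hg hd A hi
  have := h.X_le
  obtain ⟨s, rfl⟩ := Nat.exists_eq_add_of_le (show k ≤ m by omega)
  rw [e1]
  clear this h
  induction s with
  | zero => rw [add_zero, ← e2]; exact le_of_eq (by ring)
  | succ s ih =>
    have := ((b.le (Nat.le_add_right k s)).up 1).1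
    rw [← add_assoc, qz_succ]
    push_cast at *
    nlinarith [s.cast_nonneg (α := ℝ)]

variable {l : ι} (hl : l ∉ A)
include hl

lemma xi_gap (hi : 0 < i) (e : Xz g d (insert l A) i = m + 1) : qz g d A m (i - d l) ≤
    (xi g d (insert l A) i - xi g d A i) * qz g d A m (i - 1) := by
  obtain ⟨k, t, e0, a, b, -, e1, t0, t1, e2⟩ := X_spec hg hd (insert l A) hi
  obtain rfl : k = m := by omega
  have c := xi_cv hg hd hi (a.ins hd hl)
  have f := (b.ins hd hl).nonneg (i - 1 - d l) (by omega)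
  rw [qz_insert hl, qz_insert hl, qz_succ (i - d l), sub_right_comm i _ 1] at e2
  rw [e1]
  nlinarith

lemma xi_mono (i : ℤ) : xi g d A i ≤ xi g d (insert l A) i := by
  rcases le_or_gt i 0 with h | h
  · rw [xi_zero hd h, xi_zero hd h]
  obtain ⟨k, t, e0, -, b, -⟩ := X_spec hg hd (insert l A) h
  have b := b.ins hd hl
  have := hd l
  exact sub_nonneg.1 (nonneg_of_mul_nonneg_left ((b.nonneg _ (by omega)).trans
    (xi_gap hg hd hl h e0)) (b _ (by omega) le_rfl))

theorem shift_dn (hi : 0 < i) (e : Xz g d (insert l A) i = m + 1) {ρ : ℝ} (r0 : 0 ≤ ρ) (r1 : ρ < 1)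
    (hr : ∀ k < i, ∀ j < k, qz g d A (m + 1) j ≤ ρ * qz g d A (m + 1) k)
    (hr' : ∀ k < i, ∀ j < k, qz g d (insert l A) (m + 1) j ≤ ρ * qz g d (insert l A) (m + 1) k) :
    (1 - 3 * ρ) * qz g d (insert l A) (m + 1) (i - d l) ≤
      (xi g d (insert l A) i - xi g d A i) * qz g d (insert l A) m (i - 1) := by
  have a := e ▸ Ps_X (g := g) (A := insert l A) hd i
  have b := (a.pred hg hd).ins hd hl
  have := hd l
  have c0 := xi_gap hg hd hl hi e
  have c1 := sub_nonneg.2 (xi_mono hg hd hl i)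
  have c2 := fun j (h : j < i) => (desc hg hd (a.lev h.le) r0 (hr' j h (j - 1) (by omega)) 1 m rfl
    (by simpa using r1)).2
  have c3 := c2 (i - d l) (by omega)
  have c4 := c2 (i - 1) (by omega)
  have c5 := (b.up 1).1
  have c6 := hr (i - 1) (by omega) (i - 1 - d l) (by omega)
  have c7 := qz_insert (g := g) (d := d) (m := m + 1) hl (i - 1)
  have c8 := qz_insert (g := g) (d := d) (m := m) hl (i - d l)
  have c9 := b.nonneg (i - d l - d l) (by omega)
  have r2 : 0 ≤ 1 - ρ := by linarith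
  push_cast at c3 c4
  have f0 : (1 - ρ) ^ 2 * qz g d A m (i - 1) ≤ qz g d (insert l A) m (i - 1) := by
    linarith [mul_le_mul_of_nonneg_left c5 (pow_nonneg r2 2),
      mul_le_mul_of_nonneg_left (show (1 - ρ) * qz g d A (m + 1) (i - 1) ≤
        qz g d (insert l A) (m + 1) (i - 1) by linarith) r2]
  linarith [mul_le_mul_of_nonneg_left f0 c1, mul_le_mul_of_nonneg_left (show (1 - ρ) *
    qz g d (insert l A) (m + 1) (i - d l) ≤ _ from (by linarith : _ ≤ qz g d A m (i - d l)).trans c0)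
    (pow_nonneg r2 2), mul_nonneg (mul_nonneg (sq_nonneg ρ) (show 0 ≤ 3 - ρ by linarith))
    (a.nonneg (i - d l) (by omega))]

theorem shift_up (h2 : 2 ≤ d l) (hi : 0 < i) (e : Xz g d (insert l A) i = m + 2) {ρ : ℝ} (r0 : 0 ≤ ρ)
    (r1 : 3 * ρ ≤ 1) (hr : ∀ k < i, ∀ j < k, qz g d A (m + 2) j ≤ ρ * qz g d A (m + 2) k) :
    (1 - 3 * ρ) * (xi g d (insert l A) i - xi g d A i) * qz g d (insert l A) (m + 2) (i - 1) ≤
      qz g d (insert l A) (m + 2) (i - d l) := by
  obtain ⟨k', t', e0, a, b, -, e1, t0, t1, e2⟩ := X_spec hg hd (insert l A) hi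
  obtain rfl : k' = m + 1 := by omega
  obtain ⟨k, t, f0, -, -, -, f1, -, -, f2⟩ := X_spec hg hd A hi
  have a := a.ins hd hl
  have b := b.ins hd hl
  have := hd l
  have c1 := sub_nonneg.2 (xi_mono hg hd hl i)
  obtain ⟨c2, c3⟩ := desc hg hd (a.lev (show i - 1 ≤ i by omega)) r0
    (hr _ (by omega) _ (by omega)) 2 m rfl (by push_cast; linarith)
  have c4 := hr (i - 1) (by omega) (i - d l) (by omega)
  have c5 := hr (i - d l) (by omega) (i - d l - d l) (by omega)
  have c6 := mul_nonneg t0 (b.nonneg (i - 1 - d l) (by omega))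
  have c7 := (c2.up 1).1
  have c8 := a.nonneg (i - 1) (by omega)
  have c9 := a.nonneg (i - 1 - d l) (by omega)
  have s0 := qz_succ (g := g) (d := d) (A := A) (m := m + 1) i
  have s1 := mul_nonneg (sub_nonneg.2 t1) (b.nonneg _ le_rfl)
  rw [qz_insert hl, qz_insert hl] at e2 ⊢
  push_cast at c3 e1
  have H : (xi g d (insert l A) i - xi g d A i) * qz g d A m (i - 1) ≤
      qz g d A (m + 2) (i - d l) := by
    have := a.X_le
    rcases (show k = m + 1 ∨ k = m ∨ k < m by omega) with rfl | rfl | h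
    · refine (mul_le_mul_of_nonneg_left c7 c1).trans ?_
      rw [e1, f1]; push_cast
      linarith
    · rw [e1, f1]
      linarith [mul_le_mul_of_nonneg_left c7 (sub_nonneg.2 t1)]
    · have := ((Ps_X (g := g) (A := A) hd i).le (show _ ≤ m by omega)) i hi.le le_rfl
      have := qz_succ (g := g) (d := d) (A := A) (m := m) i
      nlinarith
  nlinarith [mul_le_mul_of_nonneg_left H (show 0 ≤ 1 - ρ by linarith),
    mul_le_mul_of_nonneg_left c3 (mul_nonneg c1 (show 0 ≤ 1 - ρ by linarith)),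
    mul_nonneg (mul_nonneg c1 (show 0 ≤ 1 - 3 * ρ by linarith)) c9,
    mul_nonneg (mul_nonneg c1 (sq_nonneg ρ)) c8]

theorem shift_one (h1 : d l = 1) (hi : 0 < i) (e : Xz g d (insert l A) i = m + 2) {ρ : ℝ}
    (r0 : 0 ≤ ρ) (r1 : 6 * ρ ≤ 1)
    (hr : ∀ k < i, ∀ j < k, qz g d A (m + 2) j ≤ ρ * qz g d A (m + 2) k) :
    (1 - 3 * ρ) * (xi g d (insert l A) i - xi g d A i) ≤ 1 := by
  obtain ⟨k', t', e0, a, b, -, e1, t0, t1, e2⟩ := X_spec hg hd (insert l A) hi
  obtain rfl : k' = m + 1 := by omega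
  obtain ⟨k, t, f0, f5, f6, -, f1, f3, f4, f2⟩ := X_spec hg hd A hi
  have a := a.ins hd hl
  have b := b.ins hd hl
  have c1 := sub_nonneg.2 (xi_mono hg hd hl i)
  have c2 := fun s m' e h => desc hg hd (a.lev (show i - 1 ≤ i by omega)) r0
    (hr _ (by omega) _ (by omega)) s m' e h
  have c6 := mul_nonneg t0 (b.nonneg (i - 1 - 1) (by omega))
  have c8 := a (i - 1) (by omega) (by omega)
  have s0 := qz_succ (g := g) (d := d) (A := A) (m := m + 1) i
  have s1 := mul_nonneg (sub_nonneg.2 t1) (b.nonneg _ le_rfl)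
  rw [qz_insert hl, qz_insert hl, h1, Nat.cast_one] at e2
  have := a.X_le
  push_cast at e1
  rcases (show k = m + 1 ∨ k ≤ m by omega) with rfl | h
  · rw [e1, f1] at c1 ⊢
    push_cast at c1 ⊢
    linarith [mul_nonneg r0 c1]
  obtain ⟨y, rfl⟩ := Nat.exists_eq_add_of_le h
  rcases le_or_gt y 1 with h | h
  · have y1 : (y : ℝ) ≤ 1 := by exact_mod_cast h
    have c3 := (c2 (y + 2) k (by omega) (by push_cast; nlinarith)).2
    have c4 := (f6.up 1).1
    have c5 := ((f6.le (Nat.le_succ k)).up y).2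
    have c7 := (f6.up (y + 1)).1
    rw [Nat.succ_eq_add_one, add_right_comm] at c5
    rw [← add_assoc] at c7
    refine le_of_mul_le_mul_right ?_ c8
    push_cast at c3
    have c9 := mul_le_mul_of_nonneg_left (show (1 - 3 * ρ) * qz g d A (k + y + 1 + 1) (i - 1) ≤
      qz g d A k (i - 1) by linarith [mul_nonneg (mul_nonneg r0 c8.le) (sub_nonneg.2 y1)]) c1
    rw [e1, f1] at c9 ⊢
    push_cast at c9 ⊢
    linarith [mul_le_mul_of_nonneg_left c4 y.cast_nonneg,
      mul_le_mul_of_nonneg_left c7 (sub_nonneg.2 t1)]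
  · obtain ⟨y, rfl⟩ := Nat.exists_eq_add_of_le' (show 2 ≤ y from h)
    have c3 := c2 3 (k + y + 1) (by omega) (by push_cast; linarith)
    have c4 := (c3.1.up 2).2
    have c5 := (f5.le (show k + 1 ≤ k + y + 1 by omega)) i hi.le le_rfl
    rw [show k + y + 1 + 2 = k + (y + 2) + 1 by omega] at c4
    push_cast at c3 c4
    linarith [c3.2, mul_le_mul_of_nonneg_right r1 c8.le]

omit hl

lemma rat8 (h : Ps g d A m i) {ρ : ℝ} (r0 : 0 ≤ ρ) (r1 : ρ ≤ 1) (r2 : 8 ≤ ρ * g) :
    ∀ k < i, ∀ j < k, qz g d A m j ≤ ρ * qz g d A m k :=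
  rat hg hd h r0 r1 fun hi => by
    have a : (2 : ℝ) ≤ i := by exact_mod_cast hi
    nlinarith [mul_le_mul_of_nonneg_left (h.big hg hd (by omega)).le r0]

lemma space {ρ : ℝ} {y : ℕ} (r0 : 0 ≤ ρ) (r1 : ρ ≤ 1) (r2 : 8 ≤ ρ * g) (r3 : y * ρ < 1) {j : ℤ}
    (hj : 0 ≤ j) (h : ℕ) : Xz g d A j + y * h ≤ Xz g d A (j + h) := by
  induction h with
  | zero => simp
  | succ h ih =>
    have a := Ps_X (g := g) (A := A) hd (j + (h + 1 : ℕ))
    have b := (a.lev (show 1 ≤ j + (h + 1 : ℕ) by omega)).big hg hd one_pos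
    have c : (y : ℝ) ≤ Xz g d A (j + (h + 1 : ℕ)) := by
      push_cast at b ⊢
      refine le_trans (le_of_mul_le_mul_right (a := ρ) (by linarith) ?_) (by linarith [lin_nonneg d A] : g ≤ _)
      exact r0.lt_of_ne (by rintro rfl; linarith)
    obtain ⟨m, e⟩ := Nat.exists_eq_add_of_le' (Nat.cast_le.1 c)
    have := (desc hg hd (a.lev (show j + h ≤ j + (h + 1 : ℕ) by omega)) r0
      (rat8 hg hd a r0 r1 r2 _ (by omega) _ (by omega)) y m e.symm r3).1.X_le
    rw [mul_add]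
    omega

lemma path {z : ℝ} (hz : 0 ≤ z) {j : ℤ} (hj : 0 ≤ j) {M : ℕ} (m : ℕ) : m ≤ M → ∀ h : ℕ,
    Ps g d A m (j + h) → qz g d A m (j + h) * z ^ h ≤ exp (z * (m - Xz g d A j)) * qz g d A M j := by
  have H : ∀ m ≤ M, Ps g d A m j → qz g d A m j ≤ exp (z * (m - Xz g d A j)) * qz g d A M j :=
    fun m a b => ((b.lev (by omega)).mono a).trans (le_mul_of_one_le_left
      ((b.le a).nonneg _ le_rfl) (one_le_exp (mul_nonneg hz (sub_nonneg.2 (Nat.cast_le.2 b.X_le)))))
  induction m with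
  | zero =>
    rintro a (_ | h) b
    · simpa using H 0 a (by simpa using b)
    · exact absurd rfl (b.ne hg hd (by omega))
  | succ m ih =>
    rintro a (_ | h) b
    · simpa using H _ a (by simpa using b)
    have c := b.pred hg hd
    have e : j + (h + 1 : ℕ) - 1 = j + h := by omega
    have f := ih (by omega) h (e ▸ c)
    have p : 0 ≤ exp (z * (m - Xz g d A j)) * qz g d A M j :=
      mul_nonneg (exp_pos _).le ((b.le a).nonneg _ (by omega))
    have k : qz g d A m (j + (h + 1 : ℕ)) * z ^ (h + 1) ≤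
        exp (z * (m - Xz g d A j)) * qz g d A M j := by
      rcases le_or_gt (qz g d A m (j + (h + 1 : ℕ))) 0 with u | u
      · exact (mul_nonpos_of_nonpos_of_nonneg u (pow_nonneg hz _)).trans p
      · exact ih (by omega) _ (c.top fun _ => u)
    rw [qz_succ, e, show z * ((m + 1 : ℕ) - Xz g d A j) = z + z * (m - Xz g d A j) by
      push_cast; ring, exp_add, add_mul, pow_succ z h, ← pow_succ z h, pow_succ' z h]
    rw [pow_succ' z h] at k
    nlinarith [mul_le_mul_of_nonneg_left f hz, mul_le_mul_of_nonneg_right (add_one_le_exp z) p]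

end Pool.Agent.P.MP_3acc10_al.Wn
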