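import Pool.Agent.P.MP_3acc10_al.LtMain

set_option autoImplicit false

namespace Pool.Agent.P.MP_3acc10_al.Wn

open Finset Hd Real

lemma win_num {C : ℝ} (hC : 0 < C) : ∃ C' : ℝ, 0 < C' ∧ ∀ (n r : ℕ) (d : Fin r → ℕ),
    (∀ i, 1 ≤ d i) → ∀ s k v : ℕ, 0 < k → k ≤ s → 0 < v → v + #{l | d l = 1} ≤ n →
    C' * s ^ 3 * log (2 * s * n / (k * v)) * n ^ 2 ≤ k ^ 2 * v ^ 3 →
    truncCoeff (series n d univ) s = 0 → ∃ i a : ℕ, i ≤ s ∧ 0 < a ∧ 2 * a ≤ n ∧
      (∀ J : ℕ, J ≤ 2 * s → C * log (n / a) * n * (n + J * a) ≤ a ^ 3 ∧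
        C * log (n / a) * J * n ^ 2 ≤ a ^ 2 * (n - #{l | d l = 1} : ℕ)) ∧
      (∀ j < i, truncCoeff (series (n - a) d univ) j ≠ 0) ∧
      truncCoeff (series (n + a) d univ) (i + k) = 0 := by
  classical
  refine ⟨16 * 128 ^ 3 * C + 512, by positivity, fun n r d hd s k v k0 ks v0 v1 hn hs => ?_⟩
  have h1 : ¬Ps 0 d univ n s := fun h => (tr_iff n s).2 h hs
  have k1 : (1 : ℝ) ≤ k := by exact_mod_cast k0
  have k2 : (k : ℝ) ≤ s := by exact_mod_cast ks
  have s1 : (1 : ℝ) ≤ s := k1.trans k2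
  have v2 : (0 : ℝ) < v := by exact_mod_cast v0
  have v3 : (v : ℝ) + #{l | d l = 1} ≤ n := by exact_mod_cast v1
  have v4 : (v : ℝ) ≤ n := by exact_mod_cast (show v ≤ n by omega)
  have q1 : 2 ≤ 2 * (s : ℝ) * n / (k * v) := by
    rw [le_div_iff₀ (by positivity)]
    linarith [mul_le_mul k2 v4 v2.le (by positivity)]
  have l1 : 1 / 2 ≤ log (2 * s * n / (k * v)) := by
    linarith [log_two_gt_d9, log_le_log two_pos q1]
  have c0 : 0 ≤ C * s ^ 3 * log (2 * s * n / (k * v)) * n ^ 2 := by positivity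
  have c1 : 0 ≤ s ^ 3 * log (2 * s * n / (k * v)) * n ^ 2 := by positivity
  have n1 : (256 : ℝ) * s ≤ v := le_of_mul_le_mul_left (a := (s : ℝ) ^ 2 * v ^ 2) (by
    linarith [mul_le_mul (mul_le_mul_of_nonneg_left l1 (show 0 ≤ (s : ℝ) ^ 3 by positivity))
      (pow_le_pow_left₀ v2.le v4 2) (by positivity) (by positivity),
      mul_le_mul_of_nonneg_right (pow_le_pow_left₀ (by linarith) k2 2) (pow_pos v2 3).le])
    (by positivity)
  have n2 : 256 * s ≤ v := by exact_mod_cast n1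
  obtain ⟨b, b1, b2⟩ : ∃ b : ℕ, 64 * s * b ≤ v ∧ v < 64 * s * (b + 1) :=
    ⟨v / (64 * s), Nat.mul_div_le _ _, Nat.lt_mul_div_succ _ (by omega)⟩
  have b0 : 0 < b := Nat.pos_of_ne_zero fun e => by rw [e] at b2; omega
  have b3 : (64 : ℝ) * s * b ≤ v := by exact_mod_cast b1
  have b4 : (1 : ℝ) ≤ b := by exact_mod_cast b0
  have b5 : (v : ℝ) ≤ 128 * s * b := by
    have : (v : ℝ) ≤ 64 * s * (b + 1) := by exact_mod_cast b2.le
    nlinarith
  have b6 : 64 * (k * b) ≤ v := by nlinarith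
  have n0 : (0 : ℝ) < n := by linarith
  have st : ∀ (y t m i : ℕ), y ≤ 2 * b → i + t ≤ 2 * s → 2 * n ≤ 2 * m + v →
      Ps 0 d univ (m + t * y) (i + t : ℕ) → Ps 0 d univ m i := by
    intro y t m i hy
    induction t with
    | zero => intro _ _ h; simpa using h
    | succ t ih =>
      intro hi hm h
      refine ih (by omega) hm ?_
      have i1 : (i : ℝ) + (t + 1) ≤ 2 * s := by exact_mod_cast hi
      have y1 : (y : ℝ) ≤ 2 * b := by exact_mod_cast hy
      have m1 : 2 * (n : ℝ) ≤ 2 * m + v := by exact_mod_cast hm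
      have r0 : 0 ≤ 24 * (s : ℝ) / v := by positivity
      have r1 : 24 * (s : ℝ) / v * v = 24 * s := by field_simp
      refine (desc le_rfl hd (h.lev (by omega)) r0 (rat le_rfl hd h r0
        (by rw [div_le_one v2]; linarith) (fun _ => ?_) _ (by omega) _ (by omega)) y _
        (by ring) ?_).1
      · push_cast
        linarith [mul_le_mul_of_nonneg_left (show (v : ℝ) / 3 ≤ m + (t + 1) * y - (i + (t + 1)) + 1 - 0 -
          lin d univ by linarith [show (0 : ℝ) ≤ (t + 1) * y by positivity, lin_card d univ]) r0]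
      · rw [← mul_div_assoc, div_lt_one v2]
        linarith [mul_le_mul_of_nonneg_right y1 (show 0 ≤ 24 * (s : ℝ) by positivity)]
  have ex : ∃ i : ℕ, ¬Ps 0 d univ (n + k * b) (i + k : ℕ) :=
    ⟨s, fun h => h1 (st b k n s (by omega) (by omega) (by omega) h)⟩
  have i0 : Nat.find ex ≤ s :=
    Nat.find_min' ex fun h => h1 (st b k n s (by omega) (by omega) (by omega) h)
  refine ⟨Nat.find ex, k * b, i0, by positivity, by omega, fun J hJ => ?_,
    fun j hj => (tr_iff _ _).2 (st (2 * b) k _ j le_rfl (by omega) (by omega) ?_),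
    of_not_not fun h => Nat.find_spec ex ((tr_iff _ _).1 h)⟩
  · have J1 : (J : ℝ) ≤ 2 * s := by exact_mod_cast hJ
    rw [Nat.cast_mul]
    have e1 : log (n / (k * b)) ≤ 7 * log (2 * s * n / (k * v)) := by
      rw [show (7 : ℝ) = (7 : ℕ) by norm_num, ← log_pow]
      refine log_le_log (by positivity) (le_trans (b := 2 ^ 6 * (2 * (s : ℝ) * n / (k * v))) ?_ ?_)
      · rw [← mul_div_assoc, div_le_div_iff₀ (by positivity) (by positivity)]
        linarith [mul_le_mul_of_nonneg_left b5 (show (0 : ℝ) ≤ n * k by positivity)]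
      · rw [pow_succ _ 6]
        gcongr
    have e2 : (n : ℝ) + J * (k * b) ≤ 2 * (k * n) := by
      nlinarith [mul_le_mul_of_nonneg_right J1 (show (0 : ℝ) ≤ k * b by positivity),
        mul_le_mul_of_nonneg_left (b3.trans v4) (zero_le_one.trans k1)]
    generalize log (2 * s * n / (k * v) : ℝ) = x at e1 hn l1 c0 c1
    have x0 : 0 ≤ x := by linarith
    refine ⟨le_of_mul_le_mul_left ?_ (show 0 < (128 * (s : ℝ)) ^ 3 by positivity),
      le_of_mul_le_mul_left ?_ (show 0 < (128 * (s : ℝ)) ^ 2 by positivity)⟩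
    · calc _ ≤ (128 * (s : ℝ)) ^ 3 * (C * (7 * x) * n * (2 * (k * n))) := by gcongr
        _ = k * (14 * 128 ^ 3 * C * s ^ 3 * x * n ^ 2) := by ring
        _ ≤ k * (k ^ 2 * v ^ 3) := mul_le_mul_of_nonneg_left (by linarith) (by positivity)
        _ ≤ k * (k ^ 2 * (128 * s * b) ^ 3) := by gcongr
        _ = _ := by ring
    · calc _ ≤ (128 * (s : ℝ)) ^ 2 * (C * (7 * x) * (2 * s) * n ^ 2) := by gcongr
        _ ≤ (k : ℝ) ^ 2 * v ^ 2 * v := by linarith
        _ ≤ k ^ 2 * (128 * s * b) ^ 2 * (n - #{l | d l = 1} : ℕ) := by gcongr; omega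
        _ = _ := by ring
  · rw [show n - k * b + k * (2 * b) = n + k * b by rw [mul_left_comm]; omega]
    exact of_not_not (Nat.find_min ex hj)

theorem window : ∃ C : ℝ, 0 < C ∧ ∀ (K : Type) [Field K] [Infinite K] (n r : ℕ) (d : Fin r → ℕ),
    (∀ i, 1 ≤ d i) → ∀ s k v : ℕ, 0 < k → k ≤ s → 0 < v → v + #{l | d l = 1} ≤ n →
    C * s ^ 3 * log (2 * s * n / (k * v)) * n ^ 2 ≤ k ^ 2 * v ^ 3 →
    truncCoeff (series n d univ) s = 0 → ∃ i ≤ s, truncCoeff (series n d univ) (i + k) = 0 ∧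
    Gen fun c : Fin r × Finset (Fin n) → K => ∀ j,
      (j < i ∧ (ringChar K = 0 ∨ ∀ l, j < ringChar K * d l) ∨ i + k ≤ j) →
      (hilb d c j : ℤ) = truncCoeff (series n d univ) j := by
  obtain ⟨C, hC, h⟩ := stable
  obtain ⟨C', c0, H⟩ := win_num hC
  refine ⟨C', c0, fun K _ _ n r d hd s k v k0 k1 v0 v1 h1 h2 => ?_⟩
  obtain ⟨i, a, b1, b2, b3, b4, b5, b6⟩ := H n r d hd s k v k0 k1 v0 v1 h1 h2
  refine ⟨i, b1, of_not_not fun e => (tr_iff _ _).2 (((tr_iff _ _).1 e).le (Nat.le_add_right n a)) b6,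
    (h K n r d hd).mono ?_⟩
  rintro c hc j (⟨e, e'⟩ | e)
  · exact hc j j a b2 b3 (b4 j (by omega)).1 (Or.inl ⟨e', le_rfl, (b4 j (by omega)).2, b5 j e⟩)
  · exact hc j (i + k) a b2 b3 (b4 _ (by omega)).1 (Or.inr ⟨e, b6⟩)

end Pool.Agent.P.MP_3acc10_al.Wn
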