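import Pool.Agent.P.MP_3acc10_al.Act
import Pool.Agent.P.MP_3acc10_al.Indep

set_option autoImplicit false

namespace Pool.Agent.P.MP_3acc10_al

open Module Finset

variable {K : Type*} [Field K] {σ ι B : Type*} [Fintype σ] [DecidableEq σ] [DecidableEq B]
  [Fintype ι] [DecidableEq ι]

/-- `X` has exactly one variable in each block of `J` and no other variable -/
def tr (β : σ → B) (J : Finset B) (X : Finset σ) : Prop := Set.InjOn β X ∧ X.image β = J

variable {β : σ → B}

omit [Fintype σ] [DecidableEq σ] in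
lemma tr.card {J : Finset B} {X : Finset σ} (h : tr β J X) : X.card = J.card := by
  rw [← h.2, card_image_of_injOn h.1]

omit [Fintype σ] [DecidableEq σ] in
lemma tr_empty {X : Finset σ} : tr β ∅ X ↔ X = ∅ := by
  simp only [tr, image_eq_empty]
  exact ⟨fun h => h.2, fun h => ⟨by simp [h], h⟩⟩

omit [Fintype σ] in
lemma tr_erase {S : Finset B} {Y : Finset σ} {x : σ} (hx : x ∈ Y) (hb : β x ∈ S) :
    tr β S Y ↔ tr β (S.erase (β x)) (Y.erase x) := by
  constructor
  · rintro ⟨h1, h2⟩
    refine ⟨h1.mono (by simp), ?_⟩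
    ext b
    simp only [← h2, mem_image, mem_erase]
    constructor
    · rintro ⟨y, ⟨hy, hy'⟩, rfl⟩
      exact ⟨fun e => hy (h1 hy' hx e), y, hy', rfl⟩
    · rintro ⟨hne, y, hy, rfl⟩
      exact ⟨y, ⟨fun e => hne (e ▸ rfl), hy⟩, rfl⟩
  · rintro ⟨h1, h2⟩
    have h3 : ∀ y ∈ Y, y ≠ x → β y ≠ β x := fun y hy hne e => by
      have : β y ∈ S.erase (β x) := h2 ▸ mem_image_of_mem β (mem_erase.2 ⟨hne, hy⟩)
      exact (mem_erase.1 this).1 e
    refine ⟨fun y hy z hz e => ?_, ?_⟩
    · by_cases h4 : y = x <;> by_cases h5 : z = x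
      · rw [h4, h5]
      · exact absurd (h4 ▸ e.symm) (h3 z hz h5)
      · exact absurd (h5 ▸ e) (h3 y hy h4)
      · exact h1 (by simpa using ⟨hy, h4⟩) (by simpa using ⟨hz, h5⟩) e
    · rw [← insert_erase hx, image_insert, h2, insert_erase hb]

omit [Fintype σ] in
lemma tr_union {J S : Finset B} {Y T : Finset σ} (hY : tr β S Y) (hd : Disjoint Y T) :
    tr β J (Y ∪ T) ↔ S ⊆ J ∧ tr β (J \ S) T := by
  constructor
  · rintro ⟨h1, h2⟩
    refine ⟨?_, h1.mono (by simp), ?_⟩
    · rw [← h2, ← hY.2]; exact image_subset_image subset_union_left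
    · ext b
      simp only [← h2, ← hY.2, mem_image, mem_sdiff, mem_union]
      constructor
      · rintro ⟨y, hy, rfl⟩
        refine ⟨⟨y, Or.inr hy, rfl⟩, ?_⟩
        rintro ⟨z, hz, e⟩
        have : z = y := h1 (by simp [hz]) (by simp [hy]) e
        exact disjoint_left.1 hd hz (this ▸ hy)
      · rintro ⟨⟨y, hy | hy, rfl⟩, h⟩
        · exact absurd ⟨y, hy, rfl⟩ h
        · exact ⟨y, hy, rfl⟩
  · rintro ⟨hS, h1, h2⟩
    have h3 : ∀ y ∈ Y, ∀ z ∈ T, β y ≠ β z := fun y hy z hz e => by
      have a : β y ∈ S := hY.2 ▸ mem_image_of_mem β hy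
      have b : β z ∈ J \ S := h2 ▸ mem_image_of_mem β hz
      exact (mem_sdiff.1 b).2 (e ▸ a)
    refine ⟨fun y hy z hz e => ?_, ?_⟩
    · rcases mem_union.1 (mem_coe.1 hy) with hy | hy <;>
        rcases mem_union.1 (mem_coe.1 hz) with hz | hz
      · exact hY.1 hy hz e
      · exact absurd e (h3 y hy z hz)
      · exact absurd e.symm (h3 z hz y hy)
      · exact h1 hy hz e
    · rw [image_union, hY.2, h2, union_sdiff_of_subset hS]

omit [DecidableEq ι] in
lemma gen_WZ (𝓤 : Finset σ → Prop) (A : Finset ι) (𝓨 : ι → Finset σ → Prop) (z : ℤ)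
    (h : ∃ c0 : ι × Finset σ → K, (finrank K (W 𝓤 A (mask 𝓨 c0)) : ℤ) ≤ z) :
    Gen fun c : ι × Finset σ → K => (finrank K (W 𝓤 A (mask 𝓨 c)) : ℤ) ≤ z := by
  obtain ⟨c0, h⟩ := h
  exact (gen_W 𝓤 A 𝓨 _ c0 le_rfl).mono fun c hc => (Int.ofNat_le.2 hc).trans h

/-- multilinear instance -/
noncomputable abbrev WM (β : σ → B) (J : Finset B) (supp : ι → Finset B) (A : Finset ι)
    (c : ι × Finset σ → K) : Submodule K (Finset σ → K) :=
  W (tr β J) A (mask (fun i => tr β (supp i)) c)

lemma split [Infinite K] (J : Finset B) (supp : ι → Finset B) (A : Finset ι) {b : B} (hb : b ∈ J)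
    (T : σ → Finset ι) (z : σ → ℤ)
    (h1 : ∀ x ∈ univ.filter (β · = b), T x ⊆ A.filter fun i => b ∈ supp i)
    (h2 : ∀ x ∈ univ.filter (β · = b), ∀ y ∈ univ.filter (β · = b), x ≠ y →
      Disjoint (T x) (T y))
    (h3 : ∀ x ∈ univ.filter (β · = b), Gen fun c : ι × Finset σ → K =>
      (finrank K (WM β (J.erase b) (fun i => (supp i).erase b)
        (T x ∪ A.filter fun i => b ∉ supp i) c) : ℤ) ≤ z x) :
    Gen fun c : ι × Finset σ → K =>
      (finrank K (WM β J supp A c) : ℤ) ≤ ∑ x ∈ univ.filter (β · = b), z x := by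
  classical
  obtain ⟨h, hh⟩ := (Gen.all _ h3).exists
  let g : ι × Finset σ → K := fun p =>
    if hx : ∃ x ∈ univ.filter (β · = b), p.1 ∈ T x then
      mulX hx.choose (fun Y => h (p.1, Y)) p.2 else h p
  refine gen_WZ _ _ _ _ ⟨g, le_trans ?_ (sum_le_sum hh)⟩
  rw [← Nat.cast_sum, Int.ofNat_le]
  refine finrank_le_sum _ _ (fun x => actL (Pi.single {x} 1)) _ ?_ ?_
  · intro x hx F hF
    have hxb : β x = b := (mem_filter.1 hx).2
    refine ⟨fun X hX => ?_, fun i hi => ?_⟩
    · rw [actL_apply, act_single]
      split_ifs with hd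
      · refine hF.1 _ fun ht => hX ?_
        have hxX : x ∉ X := by simpa using hd
        have := (tr_erase (show x ∈ {x} ∪ X by simp) (hxb ▸ hb)).1 ht
        rwa [hxb, ← insert_eq, erase_insert hxX] at this
      · rfl
    · rw [actL_apply]
      rcases mem_union.1 hi with hi | hi
      · have hi' := mem_filter.1 (h1 x hx hi)
        rw [← act_mulX, ← hF.2 i hi'.1]
        congr 1
        ext Y
        have hex : ∃ x ∈ univ.filter (β · = b), i ∈ T x := ⟨x, hx, hi⟩
        have hch : hex.choose = x := by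
          by_contra hne
          exact disjoint_left.1 (h2 _ hex.choose_spec.1 x hx hne) hex.choose_spec.2 hi
        simp only [mask, g, dif_pos hex, hch, mulX]
        by_cases hY : x ∈ Y
        · simp only [if_pos hY, tr_erase hY (hxb ▸ hi'.2), hxb]
        · simp [hY]
      · have hi' := mem_filter.1 hi
        have hex : ¬ ∃ x ∈ univ.filter (β · = b), i ∈ T x := by
          rintro ⟨y, hy, hiy⟩
          exact hi'.2 (mem_filter.1 (h1 y hy hiy)).2
        have e : mask (fun i => tr β ((supp i).erase b)) h i = mask (fun i => tr β (supp i)) g i := by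
          ext Y
          simp only [mask, g, dif_neg hex, erase_eq_of_notMem hi'.2]
        rw [e, act_comm, hF.2 i hi'.1, act_zero]
  · intro F hF h0
    ext X
    by_cases hX : tr β J X
    · obtain ⟨x, hx, hxb⟩ := mem_image.1 (hX.2 ▸ hb : b ∈ X.image β)
      have := congrFun (h0 x (by simpa using hxb)) (X.erase x)
      rw [actL_apply, act_single, if_pos (by simp), ← insert_eq, insert_erase hx] at this
      exact this
    · exact hF.1 X hX

lemma loss {c0 cS : ℤ} {r N : ℕ} (h0 : 0 < c0) (hS : 0 < cS)
    (hq : r / ((c0 + cS - 1) / cS).toNat ≤ N) :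
    r * cS ≤ (r / ((c0 + cS - 1) / cS).toNat : ℕ) * c0 + (N * cS + c0) := by
  set k := ((c0 + cS - 1) / cS).toNat with hk
  have hk0 : (k : ℤ) = (c0 + cS - 1) / cS :=
    Int.toNat_of_nonneg (Int.ediv_nonneg (by omega) hS.le)
  have h1 : (k : ℤ) * cS ≤ c0 + cS - 1 := hk0 ▸ Int.ediv_mul_le _ hS.ne'
  have hk1 : 1 ≤ (k : ℤ) := by
    rw [hk0]; exact Int.le_ediv_of_mul_le hS (by omega)
  have h2 : (r : ℤ) = k * (r / k : ℕ) + (r % k : ℕ) := by exact_mod_cast (Nat.div_add_mod r k).symm
  have h3 : ((r % k : ℕ) : ℤ) + 1 ≤ k := by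
    exact_mod_cast Nat.mod_lt r (by exact_mod_cast hk1 : 0 < k)
  have hq' : ((r / k : ℕ) : ℤ) ≤ N := by exact_mod_cast hq
  have hq0 : (0 : ℤ) ≤ (r / k : ℕ) := by positivity
  generalize ((r / k : ℕ) : ℤ) = q at *
  generalize ((r % k : ℕ) : ℤ) = ρ at *
  rw [h2]
  have a1 : q * (k * cS) ≤ q * (c0 + cS) := mul_le_mul_of_nonneg_left (by omega) hq0
  have a2 : ρ * cS ≤ (k - 1) * cS := mul_le_mul_of_nonneg_right (by omega) hS.le
  have a3 : q * cS ≤ N * cS := mul_le_mul_of_nonneg_right hq' hS.le
  nlinarith

lemma ceil_mul {c0 cS : ℤ} (h0 : 0 < c0) (hS : 0 < cS) :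
    c0 ≤ (((c0 + cS - 1) / cS).toNat : ℤ) * cS ∧ 0 < ((c0 + cS - 1) / cS).toNat := by
  have hk0 : (((c0 + cS - 1) / cS).toNat : ℤ) = (c0 + cS - 1) / cS :=
    Int.toNat_of_nonneg (Int.ediv_nonneg (by omega) hS.le)
  have hk1 : 1 ≤ (c0 + cS - 1) / cS := Int.le_ediv_of_mul_le hS (by omega)
  refine ⟨?_, by omega⟩
  rw [hk0]
  have := Int.lt_ediv_add_one_mul_self (c0 + cS - 1) hS
  nlinarith

theorem gen_WM [Infinite K] (N : ℕ) (hN : 1 ≤ N) : ∀ (j : ℕ) (J : Finset B), J.card = j →
    (∀ b ∈ J, (univ.filter (β · = b)).card = N) → ∀ (supp : ι → Finset B) (A : Finset ι),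
    Gen fun c : ι × Finset σ → K =>
      (finrank K (WM β J supp A c) : ℤ) ≤ Sh N supp A J + j * 2 ^ (j + 1) * N ^ (j - 1) := by
  intro j
  induction j with
  | zero =>
    intro J hJ _ supp A
    rw [card_eq_zero] at hJ
    subst hJ
    by_cases h : ∀ i ∈ A, supp i ≠ ∅
    · refine Gen.of_forall fun c => ?_
      have h1 : Sh N supp A ∅ = 1 := by
        rw [Sh, if_pos, Ind_at_empty h]
        intro U hU
        rw [subset_empty.1 hU, Ind_at_empty h]; exact one_pos
      classical
      have h2 := (Submodule.finrank_mono (W_le_Supp (tr β ∅) A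
        (mask (fun i => tr β (supp i)) c))).trans (finrank_Supp _)
      have h3 : (univ.filter (tr β (∅ : Finset B))).card ≤ 1 :=
        card_le_one.2 fun X hX Y hY => by
          rw [tr_empty.1 (mem_filter.1 hX).2, tr_empty.1 (mem_filter.1 hY).2]
      rw [h1]
      simp only [Nat.cast_zero, zero_mul, add_zero]
      exact_mod_cast h2.trans h3
    · push Not at h
      obtain ⟨i, hi, h⟩ := h
      refine (gen_coord (i, ∅)).mono fun c hc => ?_
      have : WM β ∅ supp A c = ⊥ := by
        rw [eq_bot_iff]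
        intro F hF
        rw [Submodule.mem_bot]
        ext X
        have := congrFun (hF.2 i hi) X
        rw [act, sum_eq_single ∅ (fun Y _ hY => by simp [mask, h, tr_empty, hY]) (by simp)] at this
        simpa [mask, h, tr_empty, hc] using this
      rw [this]
      simpa using Sh_nonneg A ∅
  | succ j ih =>
    intro J hJ hβ supp A
    have hE : (N : ℤ) * (j * 2 ^ (j + 1) * N ^ (j - 1)) ≤ j * 2 ^ (j + 1) * N ^ j := by
      rcases j with _ | j
      · simp
      · rw [Nat.add_sub_cancel, pow_succ (N : ℤ) j]; apply le_of_eq; ring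
    have ih' : ∀ b ∈ J, ∀ A' : Finset ι, Gen fun c : ι × Finset σ → K =>
        (finrank K (WM β (J.erase b) (fun i => (supp i).erase b) A' c) : ℤ) ≤
          Sh N (fun i => (supp i).erase b) A' (J.erase b) + j * 2 ^ (j + 1) * N ^ (j - 1) :=
      fun b hb A' => ih _ (by rw [card_erase_of_mem hb]; omega)
        (fun b' hb' => hβ b' (mem_of_mem_erase hb')) _ _
    have hI0 : ∀ b, ∀ U ⊆ J.erase b, Ind N (fun i => (supp i).erase b)
        (A.filter fun i => b ∉ supp i) U = Ind N supp A U := by
      intro b U hU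
      rw [Ind_congr (supp' := supp) fun i hi => erase_eq_of_notMem (mem_filter.1 hi).2]
      refine Ind_filter _ A (J.erase b) (fun i _ hi h => ?_) U hU
      simpa using h (not_not.1 hi)
    have hpw : (0 : ℤ) ≤ 2 ^ (j + 1) * N ^ j := by positivity
    simp only [Nat.add_sub_cancel]
    by_cases hA : ∀ U ⊂ J, 0 < Ind N supp A U
    swap
    · push Not at hA
      obtain ⟨U, hU, hA⟩ := hA
      obtain ⟨b, hb, hbU⟩ := exists_of_ssubset hU
      have hU' : U ⊆ J.erase b := fun y hy => mem_erase.2 ⟨fun e => hbU (e ▸ hy), hU.1 hy⟩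
      refine (split (β := β) J supp A hb (fun _ => ∅) (fun _ => j * 2 ^ (j + 1) * N ^ (j - 1))
        (by simp) (by simp) fun x _ => (ih' b hb (∅ ∪ A.filter fun i => b ∉ supp i)).mono
          fun c hc => ?_).mono fun c hc => ?_
      · rwa [Sh_eq_zero hU' (by rw [empty_union, hI0 b U hU']; exact hA), zero_add] at hc
      · rw [sum_const, hβ b hb, nsmul_eq_mul] at hc
        have := Sh_nonneg (N := N) (supp := supp) A J
        push_cast
        rw [pow_succ (2 : ℤ) (j + 1)]
        have h5 : (0 : ℤ) ≤ j * 2 ^ (j + 1) * N ^ j := by positivity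
        nlinarith
    obtain ⟨b, hb⟩ : J.Nonempty := card_pos.1 (by omega)
    set c0 := Ind N supp A (J.erase b) with hc0
    have hc0p : 0 < c0 := hA _ (erase_ssubset hb)
    let 𝒮 := J.powerset.filter (b ∈ ·)
    have hss : ∀ S ∈ 𝒮, J \ S ⊆ J.erase b := fun S hS y hy =>
      mem_erase.2 ⟨fun e => (mem_sdiff.1 hy).2 (e ▸ (mem_filter.1 hS).2), (mem_sdiff.1 hy).1⟩
    have hcS : ∀ S ∈ 𝒮, 0 < Ind N supp A (J \ S) := fun S hS =>
      hA _ (Finset.ssubset_of_subset_of_ssubset (hss S hS) (erase_ssubset hb))
    let k : Finset B → ℕ := fun S => ((c0 + Ind N supp A (J \ S) - 1) / Ind N supp A (J \ S)).toNat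
    obtain ⟨T, h1, h2, h3, h4⟩ := exists_assign (supp := supp) 𝒮 k
      (fun S hS => (ceil_mul hc0p (hcS S hS)).2) (univ.filter (β · = b)) A
    refine (split J supp A hb T
      (fun x => (if T x = ∅ then c0 else 0) + j * 2 ^ (j + 1) * N ^ (j - 1)) ?_ h2
      fun x hx => (ih' b hb _).mono fun c hc => hc.trans ?_).mono fun c hc => hc.trans ?_
    · intro x hx i hi
      refine mem_filter.2 ⟨h1 x hx hi, ?_⟩
      rcases h3 x hx with h | ⟨S, hS, -, h⟩
      · simp [h] at hi
      · rw [h i hi]; exact (mem_filter.1 hS).2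
    · refine add_le_add_left ?_ _
      split_ifs with hT
      · rw [hT, empty_union]
        refine (Sh_le_max _ _).trans ?_
        rw [hI0 b _ Subset.rfl]
        exact max_le le_rfl hc0p.le
      · obtain ⟨S, hS, hcard, h⟩ := (h3 x hx).resolve_left hT
        refine le_of_eq (Sh_eq_zero Subset.rfl ?_)
        have hbS := (mem_filter.1 hS).2
        have hSJ := mem_powerset.1 (mem_filter.1 hS).1
        by_cases hS' : S.erase b = ∅
        · obtain ⟨i, hi⟩ := nonempty_iff_ne_empty.2 hT
          exact le_of_eq (Ind_of_empty_supp (mem_union_left _ hi) (by simp only [h i hi, hS']) _)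
        · rw [Ind_union _ _ _ (S.erase b) (nonempty_iff_ne_empty.2 hS')
            (fun i hi => by simp only [h i hi]), if_pos (erase_subset_erase _ hSJ),
            hI0 b _ Subset.rfl, hI0 b _ sdiff_subset, hcard]
          · have e : J.erase b \ S.erase b = J \ S := by
              ext y
              simp only [mem_sdiff, mem_erase]
              by_cases hy : y = b
              · simp [hy, hbS]
              · simp [hy]
            rw [e]
            have := (ceil_mul hc0p (hcS S hS)).1
            linarith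
          · exact disjoint_left.2 fun i hi hi' => (mem_filter.1 hi').2 (h i hi ▸ hbS)
    · rw [sum_add_distrib, sum_const, hβ b hb, nsmul_eq_mul, ← sum_filter, sum_const, nsmul_eq_mul]
      rw [hβ b hb] at h4
      have hSh : Ind N supp A J ≤ Sh N supp A J := by
        rw [Sh]; split_ifs with h
        · rfl
        · by_contra h'
          refine h fun U hU => ?_
          rcases hU.eq_or_ssubset with rfl | hU
          · exact not_le.1 h'
          · exact hA U hU
      have hSh0 := Sh_nonneg (N := N) (supp := supp) A J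
      have key : (((univ.filter (β · = b)).filter fun x => T x = ∅).card : ℤ) * c0 ≤
          Sh N supp A J + 2 ^ (j + 1) * (2 * N ^ j) := by
        by_cases hq : N ≤ ∑ S ∈ 𝒮, (A.filter fun i => supp i = S).card / k S
        · rw [Nat.sub_eq_zero_of_le hq, Nat.le_zero] at h4
          rw [h4]; simp only [Nat.cast_zero, zero_mul]; positivity
        · push Not at hq
          have h5 : (((univ.filter (β · = b)).filter fun x => T x = ∅).card : ℤ) ≤
              N - ∑ S ∈ 𝒮, (((A.filter fun i => supp i = S).card / k S : ℕ) : ℤ) := by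
            rw [← Nat.cast_sum, ← Nat.cast_sub hq.le]; exact_mod_cast h4
          have h6 : Ind N supp A J = N * c0 -
              ∑ S ∈ 𝒮, ((A.filter fun i => supp i = S).card : ℤ) * Ind N supp A (J \ S) := by
            rw [Ind_rec b A J hb, ← sum_filter,
              ← sum_fiberwise_of_maps_to (s := A.filter fun i => b ∈ supp i ∧ supp i ⊆ J)
                (t := 𝒮) (g := supp) (fun i hi => by
                  simpa [𝒮] using (mem_filter.1 hi).2.symm)]
            congr 1
            refine sum_congr rfl fun S hS => ?_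
            rw [sum_congr rfl (g := fun _ => Ind N supp A (J \ S))
              (fun i hi => by rw [(mem_filter.1 hi).2]), sum_const, nsmul_eq_mul, filter_filter]
            congr 3
            refine filter_congr fun i _ => ?_
            have := mem_filter.1 hS
            exact ⟨fun h => h.2, fun h => ⟨⟨h ▸ this.2, h ▸ mem_powerset.1 this.1⟩, h⟩⟩
          have hc0le : c0 ≤ (N : ℤ) ^ j := Ind_le_pow A j _ (by rw [card_erase_of_mem hb]; omega)
            fun U hU => hA U (Finset.ssubset_of_subset_of_ssubset hU (erase_ssubset hb))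
          have h7 : ∀ S ∈ 𝒮, ((A.filter fun i => supp i = S).card : ℤ) * Ind N supp A (J \ S) ≤
              (((A.filter fun i => supp i = S).card / k S : ℕ) : ℤ) * c0 + 2 * N ^ j := by
            intro S hS
            have hbS := (mem_filter.1 hS).2
            have hSJ := mem_powerset.1 (mem_filter.1 hS).1
            by_cases h8 : J \ S = J.erase b
            · have : k S = 1 := by
                simp only [k, h8, ← hc0]
                have : (c0 + c0 - 1) / c0 = 1 := by
                  rw [Int.ediv_eq_iff_of_pos hc0p]; omega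
                rw [this]; rfl
              rw [this, h8, Nat.div_one]
              have : (0 : ℤ) ≤ N ^ j := by positivity
              linarith
            · refine (loss (N := N) hc0p (hcS S hS) (le_trans (single_le_sum
                (f := fun S => (A.filter fun i => supp i = S).card / k S)
                (fun _ _ => Nat.zero_le _) hS) hq.le)).trans ?_
              have h9 : (J \ S).card < j := by
                have := card_lt_card (ssubset_of_ne_of_subset h8 (hss S hS))
                rw [card_erase_of_mem hb] at this; omega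
              have h10 := Ind_le_pow (N := N) (supp := supp) A _ (J \ S) rfl fun U hU =>
                hA U (Finset.ssubset_of_subset_of_ssubset (hU.trans (hss S hS)) (erase_ssubset hb))
              have h11 : (N : ℤ) * N ^ (J \ S).card ≤ N ^ j := by
                rw [← pow_succ']
                exact pow_le_pow_right₀ (by exact_mod_cast hN) h9
              have h12 : (N : ℤ) * Ind N supp A (J \ S) ≤ N * N ^ (J \ S).card :=
                mul_le_mul_of_nonneg_left h10 (by positivity)
              linarith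
          have h8 := sum_le_sum h7
          rw [sum_add_distrib, ← sum_mul, sum_const, nsmul_eq_mul] at h8
          have h9 : (𝒮.card : ℤ) ≤ 2 ^ (j + 1) := by
            have := card_filter_le J.powerset (b ∈ ·)
            rw [card_powerset, hJ] at this
            exact_mod_cast this
          have h10 : (𝒮.card : ℤ) * (2 * N ^ j) ≤ 2 ^ (j + 1) * (2 * N ^ j) :=
            mul_le_mul_of_nonneg_right h9 (by positivity)
          have h11 := mul_le_mul_of_nonneg_right h5 hc0p.le
          rw [sub_mul] at h11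
          linarith
      push_cast
      rw [pow_succ (2 : ℤ) (j + 1)]
      have h5 : (0 : ℤ) ≤ j * 2 ^ (j + 1) * N ^ j := by positivity
      nlinarith

end Pool.Agent.P.MP_3acc10_al
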