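import Pool.Agent.P.MP_3acc10_al.Act

set_option autoImplicit false

namespace Pool.Agent.P.MP_3acc10_al.Nak

open Module Finset

variable {n : ℕ} {ι : Type} [Fintype ι] [DecidableEq ι]

/-- multiplication in the square-free algebra -/
noncomputable def mul (h F : Finset (Fin n) → ℂ) : Finset (Fin n) → ℂ :=
  fun X => ∑ Y : Finset (Fin n), if Y ⊆ X then h Y * F (X \ Y) else 0

/-- the curvature form of the Koszul complex -/
noncomputable def Qf (G φ : ι → Finset (Fin n) → ℂ) : ℂ :=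
  ∑ X : Finset (Fin n), star (∑ a, mul (star (G a)) (φ a) X) * (∑ a, mul (star (G a)) (φ a) X) -
    ∑ a, ∑ b, ∑ T : Finset (Fin n), star (act (G a) (φ b) T) * act (G b) (φ a) T

/-- positivity of the curvature form in total degree at most `j` -/
def Pos (j : ℕ) (d : ι → ℕ) (G : ι → Finset (Fin n) → ℂ) : Prop :=
  ∀ φ : ι → Finset (Fin n) → ℂ, (∀ a T, ¬ T.card + d a ≤ j → φ a T = 0) → φ ≠ 0 →
    0 < (Qf G φ).re

/-- matrix entries of the commutator of a contraction and a multiplication -/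
noncomputable def sg (M I J N : Finset (Fin n)) : ℝ :=
  (if Disjoint I M ∧ Disjoint J N ∧ I ∪ M = J ∪ N then 1 else 0) -
    (if J ⊆ M ∧ I ⊆ N ∧ M \ J = N \ I then 1 else 0)

/-- the normalising factor -/
noncomputable def tt (n e : ℕ) : ℝ := (√(n : ℝ))⁻¹ ^ e

/-- the off diagonal kernel -/
noncomputable def ker (d : ι → ℕ) (j : ℕ) (x α β y : ι × Finset (Fin n)) : ℝ :=
  if α.1 = x.1 ∧ β.1 = y.1 ∧ α ≠ β ∧ α.2.card = d α.1 ∧ β.2.card = d β.1 ∧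
      x.2.card + d x.1 ≤ j ∧ y.2.card + d y.1 ≤ j then
    tt n (d x.1) * tt n (d y.1) * sg x.2 α.2 β.2 y.2 else 0

/-- the matrix of a kernel for given phases -/
noncomputable def YM {Ω Λ : Type} [Fintype Λ] (e : Ω → Λ → Λ → Ω → ℝ) (A : Λ → ℂ) :
    Matrix Ω Ω ℂ :=
  Matrix.of fun y x => ∑ α, ∑ β, A α * star (A β) * (e x α β y : ℂ)

/-- open labels through a point -/
def uu (d : ι → ℕ) (c : ι × Finset (Fin n) → ℤ) (s : Fin n) : ℕ :=
  ∑ γ ∈ univ.filter (fun γ : ι × Finset (Fin n) => s ∈ γ.2 ∧ γ.2.card = d γ.1), (c γ).toNat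

/-- open conjugate labels with a given index -/
def zz (c : ι × Finset (Fin n) → ℤ) (a : ι) : ℕ := ∑ I : Finset (Fin n), (-c (a, I)).toNat

/-- the potential -/
noncomputable def Phi (d : ι → ℕ) (ω : ℝ) (c : ι × Finset (Fin n) → ℤ) : ℝ :=
  (∏ γ : ι × Finset (Fin n), (ω * tt n (d γ.1)) ^ (c γ).toNat * tt n (d γ.1) ^ (-c γ).toNat) *
    (∏ s, ((uu d c s).factorial : ℝ)) * ∏ a, ((zz c a).factorial : ℝ)

/-- cost of the first label of a step -/
noncomputable def rA (d : ι → ℕ) (ω : ℝ) (c : ι × Finset (Fin n) → ℤ) (α : ι × Finset (Fin n)) : ℝ :=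
  if 0 ≤ c α then ω * ((n : ℝ) ^ d α.1)⁻¹ * ∏ s ∈ α.2, ((uu d c s : ℝ) + 1)
  else (zz c α.1 : ℝ)⁻¹

/-- cost of the second label of a step -/
noncomputable def rB (d : ι → ℕ) (ω : ℝ) (c : ι × Finset (Fin n) → ℤ) (β : ι × Finset (Fin n)) : ℝ :=
  if 0 < c β then (ω * ∏ s ∈ β.2, (uu d c s : ℝ))⁻¹
  else ((n : ℝ) ^ d β.1)⁻¹ * ((zz c β.1 : ℝ) + 1)

/-- the part of the load which comes from the forms -/
noncomputable def ld (n : ℕ) (d : ι → ℕ) (j : ℕ) : ℝ :=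
  ∑ a ∈ univ.filter (fun a => d a ≤ j), (j : ℝ) ^ (d a - 1) / (n : ℝ) ^ d a

lemma tt_pos (hn : 0 < n) (e : ℕ) : 0 < tt n e := by
  have : (0 : ℝ) < n := by exact_mod_cast hn
  unfold tt; positivity

lemma tt_nonneg (n e : ℕ) : 0 ≤ tt n e := by
  unfold tt; positivity

lemma tt_sq (n e : ℕ) : tt n e * tt n e = ((n : ℝ) ^ e)⁻¹ := by
  rw [tt, ← mul_pow, ← mul_inv, Real.mul_self_sqrt (Nat.cast_nonneg n), inv_pow]

lemma sg_symm (M I J N : Finset (Fin n)) : sg M I J N = sg N J I M := by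
  unfold sg
  congr 1
  · exact if_congr ⟨fun h => ⟨h.2.1, h.1, h.2.2.symm⟩, fun h => ⟨h.2.1, h.1, h.2.2.symm⟩⟩ rfl rfl
  · exact if_congr ⟨fun h => ⟨h.2.1, h.1, h.2.2.symm⟩, fun h => ⟨h.2.1, h.1, h.2.2.symm⟩⟩ rfl rfl

omit [Fintype ι] in
lemma ker_symm (d : ι → ℕ) (j : ℕ) (x α β y : ι × Finset (Fin n)) :
    ker d j x α β y = ker d j y β α x := by
  unfold ker
  rw [sg_symm x.2, mul_comm (tt n (d x.1))]
  exact if_congr ⟨fun h => ⟨h.2.1, h.1, h.2.2.1.symm, h.2.2.2.2.1, h.2.2.2.1, h.2.2.2.2.2.2,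
    h.2.2.2.2.2.1⟩, fun h => ⟨h.2.1, h.1, h.2.2.1.symm, h.2.2.2.2.1, h.2.2.2.1, h.2.2.2.2.2.2,
    h.2.2.2.2.2.1⟩⟩ rfl rfl

lemma YM_herm {Ω Λ : Type} [Fintype Λ] (e : Ω → Λ → Λ → Ω → ℝ)
    (he : ∀ x α β y, e x α β y = e y β α x) (A : Λ → ℂ) : (YM e A).IsHermitian := by
  ext y x
  simp only [Matrix.conjTranspose_apply, YM, Matrix.of_apply, star_sum, star_mul', star_star]
  rw [sum_comm]
  refine sum_congr rfl fun α _ => sum_congr rfl fun β _ => ?_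
  rw [he y β α x, mul_comm (star (A β))]
  simp

omit [DecidableEq ι] in
lemma Phi_nonneg (d : ι → ℕ) {ω : ℝ} (hω : 0 ≤ ω) (c : ι × Finset (Fin n) → ℤ) :
    0 ≤ Phi d ω c := by
  unfold Phi
  refine mul_nonneg (mul_nonneg (prod_nonneg fun γ _ => ?_) (prod_nonneg fun _ _ => ?_))
    (prod_nonneg fun _ _ => ?_)
  · have := tt_nonneg n (d γ.1)
    positivity
  · positivity
  · positivity

omit [DecidableEq ι] in
lemma Phi_zero (d : ι → ℕ) (ω : ℝ) : Phi (n := n) d ω 0 = 1 := by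
  simp [Phi, uu, zz]

omit [DecidableEq ι] in
lemma rA_nonneg (d : ι → ℕ) {ω : ℝ} (hω : 0 ≤ ω) (c : ι × Finset (Fin n) → ℤ)
    (α : ι × Finset (Fin n)) : 0 ≤ rA d ω c α := by
  unfold rA
  split_ifs
  · exact mul_nonneg (by positivity) (prod_nonneg fun _ _ => by positivity)
  · positivity

omit [DecidableEq ι] in
lemma rB_nonneg (d : ι → ℕ) {ω : ℝ} (hω : 0 ≤ ω) (c : ι × Finset (Fin n) → ℤ)
    (β : ι × Finset (Fin n)) : 0 ≤ rB d ω c β := by
  unfold rB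
  split_ifs
  · exact inv_nonneg.2 (mul_nonneg hω (prod_nonneg fun _ _ => by positivity))
  · positivity

omit [DecidableEq ι] in
lemma ld_nonneg (n : ℕ) (d : ι → ℕ) (j : ℕ) : 0 ≤ ld n d j :=
  sum_nonneg fun _ _ => by positivity

end Pool.Agent.P.MP_3acc10_al.Nak
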