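import Pool.Agent.P.MP_3acc10_al.WnPos

set_option autoImplicit false

namespace Pool.Agent.P.MP_3acc10_al.Sh

open Finset Hd Wn

lemma sum_scale {r : ℕ} {d : Fin r → ℕ} (hd : ∀ l, 2 ≤ d l) (A : Finset (Fin r)) {u t : ℝ}
    (h0 : 0 ≤ u) (h1 : u ≤ 1) (ht : 0 ≤ t) :
    ∑ l ∈ A, (d l : ℝ) * (u * t) ^ d l ≤ u ^ 2 * ∑ l ∈ A, (d l : ℝ) * t ^ d l := by
  rw [mul_sum]
  refine sum_le_sum fun l _ => ?_
  have a := pow_le_pow_of_le_one h0 h1 (hd l)
  have b : (0 : ℝ) ≤ d l * t ^ d l := by positivity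
  rw [mul_pow]
  nlinarith [mul_le_mul_of_nonneg_right a b]

lemma scale {η : ℝ} (h0 : 0 < η) (h1 : η ≤ 1 / 2) {r : ℕ} {d : Fin r → ℕ} (hd : ∀ l, 2 ≤ d l)
    (A : Finset (Fin r)) {x t : ℝ} (hx : 0 ≤ x) (ht : 0 < t) : ∃ s : ℝ, 0 < s ∧ s ≤ t ∧
      ((1 - η) / (1 + η)) ^ 3 * ((1 + η) * x * t - (1 - η) * ∑ l ∈ A, d l * t ^ d l) ≤
        (1 - η) * x * s - (1 + η) * ∑ l ∈ A, d l * s ^ d l := by
  have _ := hx
  have p : 0 < 1 + η := by linarith
  obtain ⟨u, hu⟩ : ∃ u : ℝ, u = (1 - η) / (1 + η) := ⟨_, rfl⟩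
  have e : 1 - η = u * (1 + η) := by rw [hu, div_mul_cancel₀ _ p.ne']
  have u0 : 0 < u := hu ▸ div_pos (by linarith) p
  have u1 : u ≤ 1 := hu ▸ (div_le_one p).2 (by linarith)
  have u2 : u ^ 2 ≤ 1 := pow_le_one₀ u0.le u1
  refine ⟨u ^ 2 * t, by positivity, by nlinarith, ?_⟩
  have a := mul_le_mul_of_nonneg_left (sum_scale hd A (by positivity) u2 ht.le) p.le
  rw [← hu, e]
  nlinarith

/-- the cut lemma for a real sequence with the recursive inequality of the coefficients -/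
lemma cut_seq {q : ℝ} (h0 : 1 < q) {K : ℕ} (k8 : 8 ≤ q ^ K) (k16 : q ^ K ≤ 16) {r D : ℕ}
    {d : Fin r → ℕ} (A : Finset (Fin r)) (hd : ∀ l, 2 ≤ d l ∧ d l ≤ D) {n : ℝ} {J I : ℤ}
    (hI : 0 < I) (hJ : J = I + (K + 1) * D) (p : ℤ → ℝ) (hp : ∀ i, 0 ≤ i → i ≤ J → 0 < p i)
    (hq : ∀ i, i ≤ J → 0 ≤ p i)
    (h3 : ∀ i, 0 < i → i ≤ J → p i * i + ∑ l ∈ A, d l * p (i - d l) ≤ n * p (i - 1)) :
    ∃ t : ℝ, 0 < t ∧ t * n ≤ 16 * J ∧ (I : ℝ) ≤ q * (n * t - ∑ l ∈ A, d l * t ^ d l) := by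
  by_contra H
  push Not at H
  have D0 : (0 : ℤ) ≤ D := by positivity
  have IJ : I ≤ J := by rw [hJ]; nlinarith [show (0 : ℤ) ≤ K by positivity]
  have I0 : (0 : ℝ) < I := by exact_mod_cast hI
  have IJ' : (I : ℝ) ≤ J := by exact_mod_cast IJ
  have s0 : ∀ i, i ≤ J → 0 ≤ ∑ l ∈ A, d l * p (i - d l) := fun i b =>
    sum_nonneg fun l _ => mul_nonneg (by positivity) (hq _ (by omega))
  have n0 : 0 < n := by
    have a := h3 I hI IJ
    have b := mul_pos (hp I hI.le IJ) I0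
    have c := hp (I - 1) (by omega) (by omega)
    by_contra h
    nlinarith [s0 I IJ, mul_nonneg (neg_nonneg.2 (not_lt.1 h)) c.le]
  have key : ∀ (a : ℤ) (v : ℝ), 0 < a → 0 < v → (∀ i, a ≤ i → i ≤ J → v * p i ≤ p (i - 1)) →
      ∀ i, a + D ≤ i → i ≤ J →
      v * (p i * i) ≤ (n * v - ∑ l ∈ A, d l * v ^ d l) * p (i - 1) := by
    intro a v a0 v0 h i hi hiJ
    have c : ∀ e : ℕ, a + e ≤ i → v ^ e * p (i - 1) ≤ p (i - 1 - e) := by
      intro e
      induction e with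
      | zero => intro _; simp
      | succ e ih =>
        intro he
        have b := h (i - 1 - e) (by omega) (by omega)
        have b' := mul_le_mul_of_nonneg_left (ih (by omega)) v0.le
        rw [show i - 1 - ((e + 1 : ℕ) : ℤ) = i - 1 - e - 1 by omega, pow_succ]
        linarith
    have c2 : (∑ l ∈ A, d l * v ^ d l) * p (i - 1) ≤ v * ∑ l ∈ A, d l * p (i - d l) := by
      rw [sum_mul, mul_sum]
      refine sum_le_sum fun l _ => ?_
      obtain ⟨e, he⟩ : ∃ e, d l = e + 1 := ⟨d l - 1, by have := (hd l).1; omega⟩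
      have b := c e (by have := (hd l).2; omega)
      rw [show i - 1 - e = i - d l by omega] at b
      have b' := mul_le_mul_of_nonneg_left b (show (0 : ℝ) ≤ d l * v by positivity)
      calc _ = d l * v * (v ^ e * p (i - 1)) := by rw [show v ^ d l = v ^ e * v by rw [he, pow_succ]]; ring
        _ ≤ _ := b'
        _ = _ := by ring
    have b := mul_le_mul_of_nonneg_left (h3 i (by omega) hiJ) v0.le
    nlinarith
  have q0 : 0 < q := by linarith
  have cl : ∀ m : ℕ, m ≤ K → ∀ i, I + m * D ≤ i → i ≤ J → q ^ m * I / n * p i ≤ p (i - 1) := by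
    intro m
    induction m with
    | zero =>
      intro _ i hi hiJ
      have hi' : I ≤ i := by simpa using hi
      have a := h3 i (by omega) hiJ
      have b : (I : ℝ) ≤ i := by exact_mod_cast hi'
      rw [pow_zero, one_mul, div_mul_eq_mul_div, div_le_iff₀ n0]
      nlinarith [s0 i hiJ, hq i hiJ]
    | succ m ih =>
      intro hm i hi hiJ
      have mD : (0 : ℤ) ≤ m * D := by positivity
      have v0 : 0 < q ^ m * I / n := by positivity
      have hi2 : I + m * D + D ≤ i := by push_cast at hi; linarith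
      have a := key (I + m * D) _ (by omega) v0 (ih (by omega)) i hi2 hiJ
      have qm : q ^ m ≤ 16 := (pow_le_pow_right₀ h0.le (by omega)).trans k16
      have b := H _ v0 (by rw [div_mul_cancel₀ _ n0.ne']; nlinarith)
      have c : (I : ℝ) ≤ i := by exact_mod_cast (show I ≤ i by omega)
      have p1 := hq (i - 1) (by omega)
      have p2 := hq i hiJ
      rw [show q ^ (m + 1) * I / n = q * (q ^ m * I / n) by ring]
      generalize q ^ m * I / n = v at *
      refine le_of_mul_le_mul_left ?_ I0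
      have a1 := mul_le_mul_of_nonneg_left a q0.le
      have a2 := mul_le_mul_of_nonneg_right b.le p1
      have a3 := mul_le_mul_of_nonneg_left c (show 0 ≤ q * v * p i by positivity)
      nlinarith
  have KD : (0 : ℤ) ≤ K * D := by positivity
  have v0 : 0 < q ^ K * I / n := by positivity
  have a := key (I + K * D) _ (by omega) v0 (cl K le_rfl) J (by rw [hJ]; linarith) le_rfl
  have e : n * (q ^ K * I / n) = q ^ K * I := by field_simp
  have b := H (1 / 2 * (q ^ K * I / n)) (by positivity) (by nlinarith)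
  have c := sum_scale (fun l => (hd l).1) A (u := 1 / 2) (by norm_num) (by norm_num) v0.le
  generalize q ^ K * I / n = v at *
  have p1 := hp (J - 1) (by omega) (by omega)
  have p2 := mul_pos v0 (mul_pos (hp J (by omega) le_rfl) (I0.trans_le IJ'))
  have f : 0 < n * v - ∑ l ∈ A, d l * v ^ d l := by
    by_contra h
    nlinarith [mul_nonneg (neg_nonneg.2 (not_lt.1 h)) p1.le]
  have g : 2 * I ≤ n * (1 / 2 * v) - ∑ l ∈ A, d l * (1 / 2 * v) ^ d l := by nlinarith
  nlinarith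

theorem cut {ε : ℝ} (h0 : 0 < ε) (h1 : ε ≤ 1) : ∃ k : ℕ, ∀ (n r D J : ℕ) (d : Fin r → ℕ)
    (A : Finset (Fin r)), (∀ l, 2 ≤ d l ∧ d l ≤ D) → k * D < J → (∀ i ≤ J, 0 < al n d A i) →
    ∃ t : ℝ, 0 < t ∧ t * n ≤ 16 * J ∧
      (J : ℝ) - k * D ≤ (1 + ε) * (n * t - ∑ l ∈ A, d l * t ^ d l) := by
  have q1 : 1 < 1 + ε := by linarith
  have ex : ∃ K : ℕ, 8 ≤ (1 + ε) ^ K := (pow_unbounded_of_one_lt 8 q1).imp fun _ h => h.le
  have k8 := Nat.find_spec ex
  have k16 : (1 + ε) ^ Nat.find ex ≤ 16 := by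
    rcases h : Nat.find ex with _ | m
    · norm_num
    · have := not_le.1 (Nat.find_min ex (show m < Nat.find ex by omega))
      rw [pow_succ]
      nlinarith [pow_pos (show 0 < 1 + ε by linarith) m]
  generalize Nat.find ex = K at *
  refine ⟨K + 1, fun n r D J d A hd hJ h => ?_⟩
  have hd0 : ∀ l, 0 < d l := fun l => by have := (hd l).1; omega
  have a0 : ∀ i : ℤ, 0 ≤ i → i ≤ J → 0 < pz n d A i := fun i a b => by
    obtain ⟨k, rfl⟩ := Int.eq_ofNat_of_zero_le a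
    rw [pz_nat]
    exact_mod_cast h k (by omega)
  have a1 : ∀ i : ℤ, i ≤ J → 0 ≤ pz n d A i := fun i b => by
    rcases lt_or_ge i 0 with a | a
    · rw [pz_neg _ _ _ a]
    · exact (a0 i a b).le
  have a2 := fun l => pos_sub hd0 A a1 (A.erase l) (erase_subset l A)
  have a3 : ∀ i : ℤ, 0 < i → i ≤ J → pz n d A i * i + ∑ l ∈ A, d l * pz n d A (i - d l) ≤
      n * pz n d A (i - 1) := fun i a b => by
    have c : ∑ l ∈ A, d l * pz n d A (i - d l) ≤
        ∑ l ∈ A, d l * (pz n d (A.erase l) (i - d l) + pz n d (A.erase l) (i - 1 - d l)) :=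
      sum_le_sum fun l _ => mul_le_mul_of_nonneg_left (by
        linarith [a2 l (i - d l) (by omega), a2 l (i - 1 - d l) (by omega),
          a1 (i - 1 - d l) (by omega)]) (by positivity)
    have c1 : (1 : ℝ) ≤ i := by exact_mod_cast a
    rw [pz_rec]
    nlinarith [a1 (i - 1) (by omega)]
  have hI : (0 : ℤ) < J - (K + 1) * D := by
    have : (((K + 1) * D : ℕ) : ℤ) < J := by exact_mod_cast hJ
    push_cast at this
    linarith
  obtain ⟨t, t0, t1, t2⟩ := cut_seq q1 k8 k16 A hd (n := n) (J := J) hI (by ring) _ a0 a1 a3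
  push_cast at t1 t2 ⊢
  exact ⟨t, t0, t1, t2⟩

end Pool.Agent.P.MP_3acc10_al.Sh
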