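import Pool.Agent.P.MP_3acc10_al.SqMain
import Pool.Agent.P.MP_3acc10_al.Vanish

set_option autoImplicit false

namespace Pool.Agent.P.MP_3acc10_al.Sh

theorem van0 : Van0 := vanish

end Pool.Agent.P.MP_3acc10_al.Sh
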