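import Pool.Agent.P.MP_3acc10_al.HdAlg

set_option autoImplicit false

namespace Pool.Agent.P.MP_3acc10_al.Sh

open Finset Module Hd

lemma parts0 {ι : Type*} [DecidableEq ι] (a k : ℕ) : ∀ R : Finset ι, k * a ≤ R.card →
    ∃ f : ι → ℕ, ∀ u < k, a ≤ #{l ∈ R | f l = u} := by
  induction k with
  | zero => exact fun R _ => ⟨fun _ => 0, fun u hu => by omega⟩
  | succ k ih =>
    intro R h
    rw [Nat.succ_mul] at h
    obtain ⟨S, hS, hc⟩ := exists_subset_card_eq (show a ≤ R.card by omega)
    obtain ⟨f, hf⟩ := ih (R \ S) (by rw [card_sdiff_of_subset hS]; omega)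
    refine ⟨fun l => if l ∈ S then k else f l, fun u hu => ?_⟩
    rcases (Nat.lt_succ_iff.1 hu).eq_or_lt with rfl | hu
    · exact hc.ge.trans (card_le_card fun l hl => mem_filter.2 ⟨hS hl, if_pos hl⟩)
    · refine (hf u hu).trans (card_le_card fun l hl => ?_)
      obtain ⟨h1, h2⟩ := mem_filter.1 hl
      exact mem_filter.2 ⟨(mem_sdiff.1 h1).1, (if_neg (mem_sdiff.1 h1).2).trans h2⟩

lemma parts {r : ℕ} (d : Fin r → ℕ) (k : ℕ) : ∃ f : Fin r → ℕ, ∀ e, ∀ u < k,
    #{l | d l = e} / k ≤ #{l | d l = e ∧ f l = u} := by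
  choose f hf using fun e => parts0 (#{l | d l = e} / k) k {l | d l = e} (Nat.mul_div_le _ _)
  refine ⟨fun l => f (d l) l, fun e u hu => (hf e u hu).trans (card_le_card fun l hl => ?_)⟩
  simp only [mem_filter, mem_univ, true_and] at hl ⊢
  exact ⟨hl.1, hl.1 ▸ hl.2⟩

lemma act_map {K σ τ : Type*} [Field K] [Fintype σ] [DecidableEq σ] [Fintype τ] [DecidableEq τ]
    (φ : σ ↪ τ) (g H : Finset τ → K) (hg : ∀ Y, (∀ Z : Finset σ, Z.map φ ≠ Y) → g Y = 0)
    (T : Finset σ) : act (fun Z => g (Z.map φ)) (fun Z => H (Z.map φ)) T = act g H (T.map φ) := by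
  unfold act
  refine sum_of_injOn (fun Z => Z.map φ) (fun _ _ _ _ h => map_injective φ h)
    (fun _ _ => mem_univ _) (fun Y _ hY => ?_) fun Z _ => ?_
  · rw [hg Y fun Z e => hY ⟨Z, mem_coe.2 (mem_univ _), e⟩, zero_mul, ite_self]
  · simp only [disjoint_map, map_union]

theorem tensor {K : Type} [Field K] {n r N k J j : ℕ} (d : Fin r → ℕ) (f : Fin r → ℕ)
    (hN : N ≤ n) (hk : n ≤ k * N) (hj : k * J < j)
    (h : ∀ b < k, ∃ c : Fin r × Finset (Fin N) → K,
      hilb (fun l => if f l = b then d l else N + 1) c (J + 1) = 0) :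
    Gen fun c : Fin r × Finset (Fin n) → K => hilb d c j = 0 := by
  classical
  choose! c hc using h
  let φ : ℕ → Fin N ↪ Fin n := fun b =>
    ⟨fun x => ⟨min (b * N) (n - N) + x, by have := x.2; omega⟩, fun x y e => by
      simpa [Fin.ext_iff] using e⟩
  let c0 : Fin r × Finset (Fin n) → K := fun p =>
    ∑ Z : Finset (Fin N), if Z.map (φ (f p.1)) = p.2 then c (f p.1) (p.1, Z) else 0
  refine (gen_W (fun X => X.card = j) univ (fun i Y => Y.card = d i) 0 c0 ?_).mono fun c hc => by
    rw [hilb_eq]; exact Nat.le_zero.1 hc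
  rw [Nat.le_zero, Submodule.finrank_eq_zero, eq_bot_iff]
  intro F hF
  refine funext fun X => ?_
  by_contra hX
  have x0 : X.card = j := by_contra fun e => hX (hF.1 X e)
  have N0 : 0 < N := by
    refine Nat.pos_of_ne_zero fun e => ?_
    have := card_le_univ X
    rw [e] at hk
    simp only [Fintype.card_fin] at this
    omega
  obtain ⟨b, hb, h1⟩ := exists_lt_card_fiber_of_mul_lt_card_of_maps_to (s := X) (t := range k)
    (f := fun y => y.val / N) (n := J) (fun y _ => mem_range.2 (by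
      rw [Nat.div_lt_iff_lt_mul N0]; exact y.2.trans_le hk)) (by rwa [card_range, x0])
  obtain ⟨X1, h2, h3⟩ := exists_subset_card_eq (Nat.succ_le_of_lt h1)
  have h4 : X1 ⊆ X := h2.trans (filter_subset _ _)
  obtain ⟨Z, rfl⟩ : ∃ Z : Finset (Fin N), Z.map (φ b) = X1 := by
    refine ⟨univ.filter fun x => φ b x ∈ X1, ext fun y => ?_⟩
    simp only [mem_map, mem_filter, mem_univ, true_and]
    refine ⟨by rintro ⟨x, hx, rfl⟩; exact hx, fun hy => ?_⟩
    have a1 : y.val / N = b := (mem_filter.1 (h2 hy)).2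
    have a2 := Nat.div_add_mod y.val N
    have a3 := Nat.mod_lt y.val N0
    have a4 := y.2
    rw [a1, mul_comm] at a2
    have e : φ b ⟨y - min (b * N) (n - N), by omega⟩ = y := Fin.ext (by
      show min (b * N) (n - N) + (y - min (b * N) (n - N)) = y
      omega)
    exact ⟨_, e.symm ▸ hy, e⟩
  have h5 := hc b (mem_range.1 hb)
  rw [hilb_eq, Submodule.finrank_eq_zero, eq_bot_iff] at h5
  have h6 := h5 (x := fun T => act (Pi.single (X \ Z.map (φ b)) 1) F (T.map (φ b)))
    ⟨fun T hT => ?_, fun l _ => ?_⟩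
  · have := congrFun h6 Z
    rw [act_single, if_pos sdiff_disjoint, sdiff_union_of_subset h4] at this
    exact hX this
  · show act _ _ _ = 0
    rw [act_single]
    split_ifs with hd
    · refine hF.1 _ fun (e : _ = _) => hT (show _ = _ from ?_)
      rw [card_union_of_disjoint hd, card_sdiff_of_subset h4, h3, card_map] at e
      have := card_le_card h4
      omega
    · rfl
  by_cases hl : f l = b
  · have e : mask (fun i Y => Y.card = if f i = b then d i else N + 1) (c b) l =
        fun T => mask (fun i Y => Y.card = d i) c0 l (T.map (φ b)) := by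
      ext T
      simp [mask, hl, c0]
    ext T
    rw [e, act_map (φ b) _ _ fun Y hY => by simp [mask, c0, hl, hY], act_comm, hF.2 l (mem_univ _),
      act_zero]
    rfl
  · rw [show mask (fun i Y => Y.card = if f i = b then d i else N + 1) (c b) l = 0 from ?_, zero_act]
    ext Y
    have : Y.card ≤ N := by simpa using card_le_univ Y
    simp [mask, hl, show Y.card ≠ N + 1 by omega]

end Pool.Agent.P.MP_3acc10_al.Sh
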