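import Pool.Agent.P.MP_3acc10_al.ShCut
import Pool.Agent.P.MP_3acc10_al.ShTen

set_option autoImplicit false

namespace Pool.Agent.P.MP_3acc10_al.Sh

open Finset Module Hd Wn Real Filter Topology

/-- vanishing at the cut once enough spare forms of one degree are added -/
def Van0 : Prop := ∀ j e : ℕ, 0 < e → e ≤ j → ∃ C : ℝ,
    ∀ (K : Type) [Field K] [Infinite K] (n r : ℕ) (d : Fin r → ℕ) (A : Finset (Fin r)),
    (∀ i, 0 < d i) → truncCoeff (series n d A) j = 0 →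
    C * (n : ℝ) ^ ((e : ℝ) - e / (2 * j)) ≤ (Aᶜ.filter fun i => d i = e).card →
    ∃ P : MvPolynomial (Fin r × Finset (Fin n)) K, P ≠ 0 ∧ ∀ c, MvPolynomial.eval c P ≠ 0 →
      hilb d c j = 0

lemma sum_deg {r D : ℕ} {d : Fin r → ℕ} (hd : ∀ l, 2 ≤ d l ∧ d l ≤ D) (A : Finset (Fin r))
    (t : ℝ) : ∑ l ∈ A, d l * t ^ d l = ∑ e ∈ Icc 2 D, #{l ∈ A | d l = e} * (e * t ^ e) := by
  rw [← sum_fiberwise_of_maps_to' (t := Icc 2 D) (g := d) (fun l _ => mem_Icc.2 (hd l))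
    fun e => (e : ℝ) * t ^ e]
  simp

lemma core_card {r k s b q e : ℕ} {d f : Fin r → ℕ} (hs : 0 < s) (hb : b < k)
    (h : ∀ u < k * s, q ≤ #{l | d l = e ∧ f l = u}) :
    (s - 1) * q ≤ #{l ∈ ({l | f l / s = b ∧ f l % s ≠ 0} : Finset (Fin r)) | d l = e} := by
  rw [card_eq_sum_card_fiberwise (f := fun l => f l % s) (t := Ico 1 s) fun l hl => by
    simp only [coe_filter, mem_filter, mem_univ, true_and, Set.mem_ofPred_eq] at hl
    have := Nat.mod_lt (f l) hs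
    simp only [coe_Ico, Set.mem_Ico]
    omega]
  refine le_trans ?_ (card_nsmul_le_sum _ _ q fun v hv => ?_)
  · simp
  · obtain ⟨v1, v2⟩ := mem_Ico.1 hv
    refine (h (s * b + v) (by nlinarith)).trans (card_le_card fun l hl => ?_)
    simp only [mem_filter, mem_univ, true_and] at hl ⊢
    have a1 : f l % s = v := by rw [hl.2, Nat.mul_add_mod, Nat.mod_eq_of_lt v2]
    have a2 : f l / s = b := by rw [hl.2, Nat.mul_add_div hs, Nat.div_eq_of_lt v2, add_zero]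
    exact ⟨⟨⟨a2, by omega⟩, hl.1⟩, a1⟩

lemma core {r D k s : ℕ} {d : Fin r → ℕ} (hd : ∀ l, 2 ≤ d l ∧ d l ≤ D) {A : Finset (Fin r)}
    {η t : ℝ} (h1 : η ≤ 1) (hk : 0 < k) (hs : 0 < s) (hη : 1 ≤ η * s) (ht : 0 < t) (t1 : t ≤ 1)
    (t2 : t * (s * D ^ 2) ≤ 1) (h : ∀ e, (s - 1) * (#{l | d l = e} / (k * s)) ≤ #{l ∈ A | d l = e}) :
    (1 - η) * ∑ l, d l * t ^ d l - k ≤ k * ∑ l ∈ A, d l * t ^ d l := by
  have a1 : ∑ e ∈ Icc 2 D, (s : ℝ) * (e * t ^ e) ≤ 1 := by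
    refine (sum_le_card_nsmul _ _ (s * (D * t)) fun e he => ?_).trans ?_
    · obtain ⟨e1, e2⟩ := mem_Icc.1 he
      have : t ^ e ≤ t := pow_le_of_le_one ht.le t1 (by omega)
      gcongr
    · have : (#(Icc 2 D) : ℝ) ≤ D := by exact_mod_cast (by simp : #(Icc 2 D) ≤ D)
      rw [nsmul_eq_mul]
      nlinarith [mul_le_mul_of_nonneg_right this (show 0 ≤ (s : ℝ) * (D * t) by positivity)]
  have a2 : ∑ e ∈ Icc 2 D, (1 - η) * ((#{l | d l = e} : ℝ) * (e * t ^ e)) ≤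
      ∑ e ∈ Icc 2 D, (k * ((#{l ∈ A | d l = e} : ℝ) * (e * t ^ e)) + k * (s * (e * t ^ e))) := by
    refine sum_le_sum fun e _ => ?_
    have b1 : (#{l | d l = e} : ℝ) ≤ k * s * ((#{l | d l = e} / (k * s) : ℕ) + 1) := by
      exact_mod_cast (Nat.lt_mul_div_succ _ (Nat.mul_pos hk hs)).le
    have b2 : ((s : ℝ) - 1) * (#{l | d l = e} / (k * s) : ℕ) ≤ #{l ∈ A | d l = e} := by
      have := (Nat.cast_le (α := ℝ)).2 (h e)
      rwa [Nat.cast_mul, Nat.cast_pred hs] at this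
    generalize ((#{l | d l = e} / (k * s) : ℕ) : ℝ) = q at b1 b2
    have k0 : (0 : ℝ) < k := by exact_mod_cast hk
    have s0 : (0 : ℝ) < s := by exact_mod_cast hs
    have q0 : 0 ≤ k * (q + 1) := by
      by_contra hh
      nlinarith [mul_pos s0 (neg_pos.2 (not_le.1 hh)), (#{l | d l = e}).cast_nonneg (α := ℝ)]
    have b3 : (1 - η) * #{l | d l = e} ≤ k * #{l ∈ A | d l = e} + k * s := by
      nlinarith [mul_le_mul_of_nonneg_left b1 (sub_nonneg.2 h1), mul_le_mul_of_nonneg_left b2 k0.le,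
        mul_le_mul_of_nonneg_right hη q0]
    nlinarith [mul_le_mul_of_nonneg_right b3 (show 0 ≤ (e : ℝ) * t ^ e by positivity)]
  rw [sum_add_distrib, ← mul_sum, ← mul_sum, ← mul_sum, ← sum_deg hd, ← sum_deg hd] at a2
  nlinarith [mul_le_mul_of_nonneg_left a1 (k.cast_nonneg (α := ℝ))]

lemma spare (D s J : ℕ) (hJ : 0 < J) (c : ℕ → ℝ) (T : ℝ) : ∃ X : ℝ, ∀ (r k N : ℕ) (d : Fin r → ℕ)
    (t : ℝ), (∀ l, 2 ≤ d l ∧ d l ≤ D) → 0 < k → 0 < s → 0 < N → X ≤ N → 0 < t → t ≤ 1 → t * N ≤ T →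
    k ≤ ∑ l, d l * t ^ d l → ∃ e ∈ Icc 2 D,
      c e * (N : ℝ) ^ ((e : ℝ) - e / (2 * J)) ≤ (#{l | d l = e} / (k * s) : ℕ) := by
  have a1 : Tendsto (fun x : ℝ => ∑ e ∈ Icc 2 D,
      (s * e * (|c e| * T ^ e * x ^ (-((e : ℝ) / (2 * J))) + T * x⁻¹))) atTop (𝓝 0) := by
    refine sum_const_zero (s := Icc 2 D) (M := ℝ) ▸ tendsto_finsetSum _ fun e he => ?_
    have e0 : (0 : ℝ) < e := by exact_mod_cast (by have := (mem_Icc.1 he).1; omega : 0 < e)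
    simpa using (((tendsto_rpow_neg_atTop (show 0 < (e : ℝ) / (2 * J) by positivity)).const_mul
      (|c e| * T ^ e)).add (tendsto_inv_atTop_zero.const_mul T)).const_mul ((s : ℝ) * e)
  obtain ⟨X, hX⟩ := eventually_atTop.1 (a1.eventually (gt_mem_nhds one_pos))
  refine ⟨X, fun r k N d t hd hk hs hN h1 ht t1 t2 h => ?_⟩
  by_contra hh
  push Not at hh
  have k0 : (0 : ℝ) < k := by exact_mod_cast hk
  have N0 : (0 : ℝ) < N := by exact_mod_cast hN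
  refine lt_irrefl _ (h.trans_lt (lt_of_le_of_lt ?_
    ((mul_lt_mul_of_pos_left (hX N h1) k0).trans_eq (mul_one _))))
  rw [sum_deg hd, mul_sum]
  refine sum_le_sum fun e he => ?_
  have b1 : (#{l | d l = e} : ℝ) ≤ k * s * ((#{l | d l = e} / (k * s) : ℕ) + 1) := by
    exact_mod_cast (Nat.lt_mul_div_succ _ (Nat.mul_pos hk hs)).le
  have b2 : t ^ e ≤ T * (N : ℝ)⁻¹ :=
    (pow_le_of_le_one ht.le t1 (by have := (mem_Icc.1 he).1; omega)).trans
      (by rwa [← div_eq_mul_inv, le_div_iff₀ N0])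
  have b3 : (#{l | d l = e} / (k * s) : ℕ) * t ^ e ≤
      |c e| * T ^ e * (N : ℝ) ^ (-((e : ℝ) / (2 * J))) := by
    calc _ ≤ |c e| * (N : ℝ) ^ ((e : ℝ) - e / (2 * J)) * t ^ e := by
          gcongr
          exact (hh e he).le.trans (by gcongr; exact le_abs_self _)
      _ = |c e| * (t * N) ^ e * (N : ℝ) ^ (-((e : ℝ) / (2 * J))) := by
          rw [sub_eq_add_neg, rpow_add N0, rpow_natCast]; ring
      _ ≤ _ := by gcongr
  calc _ ≤ k * s * ((#{l | d l = e} / (k * s) : ℕ) + 1) * (e * t ^ e) := by gcongr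
    _ = k * (s * e * ((#{l | d l = e} / (k * s) : ℕ) * t ^ e + t ^ e)) := by ring
    _ ≤ _ := by gcongr

lemma big {a ε : ℝ} (b : ℝ) (ha : 0 < a) (h : 1 < (1 + ε) * a) (M : ℕ) :
    ∃ J : ℕ, M < J + 1 ∧ 1 ≤ a * (J + 1) - b ∧ (J : ℝ) + 1 ≤ (1 + ε) * (a * (J + 1) - b) := by
  obtain ⟨J, hJ⟩ := exists_nat_ge (max (M : ℝ) (max ((b + 1) / a) ((1 + ε) * b / ((1 + ε) * a - 1))))
  simp only [max_le_iff, div_le_iff₀ ha, div_le_iff₀ (sub_pos.2 h), Nat.cast_le] at hJ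
  exact ⟨J, by omega, by linarith [hJ.2.1], by linarith [hJ.2.2]⟩

theorem van (H : Van0) (D : ℕ) {ε : ℝ} (h0 : 0 < ε) : ∃ η0 : ℝ, 0 < η0 ∧ ∀ η t0 : ℝ, 0 < η → η ≤ η0 →
    0 < t0 → ∃ C : ℝ, ∀ (K : Type) [Field K] [Infinite K] (n r : ℕ) (d : Fin r → ℕ),
    (∀ l, 2 ≤ d l ∧ d l ≤ D) → ∀ J j : ℕ, C * (J + 1) ≤ n →
    (∀ t : ℝ, 0 < t → t ≤ t0 → (1 - η) * n * t - (1 + η) * ∑ l, d l * t ^ d l ≤ J) →
    (1 + ε) * J + C ≤ j → Gen fun c : Fin r × Finset (Fin n) → K => hilb d c j = 0 := by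
  refine ⟨min (ε / 16) (1 / 10), by positivity, fun η t0 e0 e1 t00 => ?_⟩
  obtain ⟨e2, e3⟩ := le_min_iff.1 e1
  obtain ⟨k0, hc⟩ := cut e0 (by linarith)
  obtain ⟨μ, hμ⟩ : ∃ μ, μ = ((1 - η) / (1 + η)) ^ 3 := ⟨_, rfl⟩
  have e4 : 0 < 1 - η := by linarith
  have μ0 : 0 < μ := by rw [hμ]; positivity
  obtain ⟨a, ha⟩ : ∃ a, a = μ / (1 + η) := ⟨_, rfl⟩
  have a0 : 0 < a := by rw [ha]; positivity
  have a1 : a * (1 + η) = μ := by rw [ha]; field_simp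
  have a2 : 1 < (1 + ε) * a := by
    rw [ha, hμ, div_pow, div_div, ← mul_div_assoc, one_lt_div (by positivity)]
    have b1 : (1 + η) ^ 3 * (1 + η) ≤ 1 + 5 * η := by
      linarith [mul_nonneg e0.le (sub_nonneg.2 e3), mul_nonneg (sq_nonneg η) (sub_nonneg.2 e3),
        mul_nonneg (pow_pos e0 3).le (sub_nonneg.2 e3)]
    have b2 : 1 - 3 * η ≤ (1 - η) ^ 3 := by linarith [mul_nonneg (sq_nonneg η) e4.le, sq_nonneg η]
    linarith [mul_le_mul (show 1 + 16 * η ≤ 1 + ε by linarith) b2 (by linarith) (by linarith),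
      mul_nonneg e0.le (sub_nonneg.2 e3)]
  obtain ⟨J0, j1, j2, j3⟩ := big (a * (k0 * D) + μ) a0 a2 (k0 * D + D)
  obtain ⟨J1, hJ1⟩ : ∃ J1, J1 = a * (J0 + 1) - (a * (k0 * D) + μ) := ⟨_, rfl⟩
  rw [← hJ1] at j2 j3
  obtain ⟨s, hs⟩ := exists_nat_ge (1 / η)
  have s0 : 0 < s := by exact_mod_cast (one_div_pos.2 e0).trans_le hs
  rw [div_le_iff₀' e0] at hs
  choose c hv using fun e : Icc 2 D => H (J0 + 1) e (by have := (mem_Icc.1 e.2).1; omega)
    (by have := (mem_Icc.1 e.2).2; omega)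
  obtain ⟨X, hX⟩ := spare D s (J0 + 1) J0.succ_pos (fun e => if h : e ∈ Icc 2 D then c ⟨e, h⟩ else 0)
    (8 * (J1 + 1))
  obtain ⟨t1, t10, t11, t12, t13⟩ : ∃ t1 : ℝ, 0 < t1 ∧ t1 ≤ t0 ∧ t1 ≤ 1 ∧ t1 * (s * D ^ 2) ≤ 1 := by
    have : min t0 (1 / (s * D ^ 2 + 1)) * (s * D ^ 2 + 1) ≤ 1 :=
      (le_div_iff₀ (by positivity)).1 (min_le_right _ _)
    have h2 : 0 < min t0 (1 / (s * D ^ 2 + 1)) := by positivity
    refine ⟨_, h2, min_le_left _ _, ?_, by linarith⟩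
    linarith [mul_nonneg h2.le (show (0 : ℝ) ≤ s * D ^ 2 by positivity)]
  obtain ⟨C, c1, c2, c3⟩ : ∃ C : ℝ, X ≤ C ∧ 1 ≤ η * C ∧ 16 * (J0 + 1) ≤ t1 * C :=
    ⟨max X (max (1 / η) (16 * (J0 + 1) / t1)), le_max_left _ _,
      (div_le_iff₀' e0).1 (le_max_of_le_right (le_max_left _ _)),
      (div_le_iff₀' t10).1 (le_max_of_le_right (le_max_right _ _))⟩
  have C0 : 0 < C := (mul_pos_iff_of_pos_left e0).1 (one_pos.trans_le c2)
  have J00 := J0.cast_nonneg (α := ℝ)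
  have c4 : (J0 : ℝ) + 1 ≤ C := by linarith [mul_le_mul_of_nonneg_right t12 C0.le]
  refine ⟨C, fun K _ _ n r d hd J j hn hJ hj => ?_⟩
  have J2 := J.cast_nonneg (α := ℝ)
  obtain ⟨k, k1, k2, k3⟩ : ∃ k : ℕ, 0 < k ∧ (J : ℝ) < k * J1 ∧ k * J1 ≤ J + J1 := by
    refine ⟨⌊J / J1⌋₊ + 1, Nat.succ_pos _, ?_, ?_⟩
    · exact_mod_cast (div_lt_iff₀ (by linarith)).1 (Nat.lt_floor_add_one (J / J1))
    · have := (le_div_iff₀ (by linarith)).1 (Nat.floor_le (show 0 ≤ J / J1 by positivity))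
      push_cast
      linarith
  have k4 : (1 : ℝ) ≤ k := by exact_mod_cast k1
  have k5 : (k : ℝ) ≤ J + 1 := by linarith [mul_nonneg (sub_nonneg.2 k4) (sub_nonneg.2 j2)]
  have n0 : (0 : ℝ) < n := lt_of_lt_of_le (by positivity) hn
  have n1 : 0 < n := by exact_mod_cast n0
  obtain ⟨N, N1, N2, N3⟩ : ∃ N : ℕ, N ≤ n ∧ n ≤ k * N ∧ k * N ≤ n + k := by
    have b1 := Nat.div_le_self (n - 1) k
    have b2 := Nat.lt_mul_div_succ (n - 1) k1
    have b3 := Nat.mul_div_le (n - 1) k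
    exact ⟨(n - 1) / k + 1, by omega, by omega, by rw [mul_add]; omega⟩
  have N4 : (n : ℝ) ≤ k * N := by exact_mod_cast N2
  have N5 : (k : ℝ) * N ≤ (1 + η) * n := by
    have : (k : ℝ) * N ≤ n + k := by exact_mod_cast N3
    linarith [mul_le_mul_of_nonneg_left hn e0.le,
      mul_le_mul_of_nonneg_right c2 (show 0 ≤ (J : ℝ) + 1 by linarith)]
  have N6 : C ≤ N := le_of_mul_le_mul_left (a := (k : ℝ))
    (by linarith [mul_le_mul_of_nonneg_left k5 C0.le]) (by linarith)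
  have N7 : (0 : ℝ) < N := C0.trans_le N6
  obtain ⟨f, hf⟩ := parts d (k * s)
  refine tensor (N := N) (k := k) (J := J0) d (fun l => f l / s) N1 N2 ?_ fun b hb => ?_
  · have b1 : (k : ℝ) * (J0 + 1) ≤ (1 + ε) * J + (J0 + 1) := by
      linarith [mul_le_mul_of_nonneg_left j3 (sub_nonneg.2 k4),
        mul_le_mul_of_nonneg_left k3 (show 0 ≤ 1 + ε by linarith)]
    exact_mod_cast (by linarith : (k : ℝ) * J0 < j)
  obtain ⟨u, u0, u1⟩ : ∃ u : ℝ, 0 < u ∧ u * n = 4 * (J + 1) :=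
    ⟨4 * (J + 1) / n, by positivity, by field_simp⟩
  have u2 : u ≤ t1 := le_of_mul_le_mul_right (a := (n : ℝ)) (by
    linarith [mul_le_mul_of_nonneg_left hn t10.le,
      mul_le_mul_of_nonneg_right c3 (show 0 ≤ (J : ℝ) + 1 by linarith), mul_nonneg J00 J2]) n0
  obtain ⟨e, he, h⟩ := hX r k N d u hd k1 s0 (by exact_mod_cast N7) (c1.trans N6) u0 (u2.trans t12)
    (le_of_mul_le_mul_left (a := (k : ℝ)) (by
      linarith [mul_le_mul_of_nonneg_left N5 u0.le,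
        mul_le_mul_of_nonneg_left e3 (mul_pos u0 n0).le])
      (by linarith)) (by
      have b1 := hJ u u0 (u2.trans t11)
      by_contra hh
      linarith [mul_lt_mul_of_pos_left ((not_le.1 hh).trans_le k5) (show 0 < 1 + η by linarith),
        mul_le_mul_of_nonneg_right e3 (show 0 ≤ (J : ℝ) + 1 by linarith),
        mul_le_mul_of_nonneg_left e3 (mul_pos u0 n0).le])
  rw [dif_pos he] at h
  refine Gen.exists (hv ⟨e, he⟩ K N r _ {l | f l / s = b ∧ f l % s ≠ 0} (fun l => ?_) ?_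
    (h.trans (Nat.cast_le.2 ((hf e (s * b) (by nlinarith)).trans (card_le_card fun l hl => ?_)))))
  · have := (hd l).1
    split_ifs <;> omega
  · refine if_neg fun hh => ?_
    obtain ⟨t, t2, t3, t4⟩ := hc N r D (J0 + 1) d {l | f l / s = b ∧ f l % s ≠ 0} hd (by omega)
      fun i hi => by
        refine (hh i hi).trans_eq (congrArg (fun p => Polynomial.coeff (_ * p) i) ?_)
        exact prod_congr rfl fun l hl => by simp only [if_pos (mem_filter.1 hl).2.1]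
    push_cast at t3 t4
    have t5 : t ≤ t1 := le_of_mul_le_mul_right (a := (N : ℝ))
      (by linarith [mul_le_mul_of_nonneg_left N6 t10.le]) N7
    have b1 := core hd (by linarith) k1 s0 hs t2 (t5.trans t12)
      (le_trans (by gcongr) t13) fun e => core_card s0 hb (hf e)
    obtain ⟨v, v0, v1, v2⟩ := scale e0 (by linarith) (fun l => (hd l).1) univ n0.le t2
    have b2 := hJ v v0 (v1.trans (t5.trans t11))
    rw [← hμ] at v2
    have b3 := mul_le_mul_of_nonneg_left t4 a0.le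
    rw [← mul_assoc, a1] at b3
    have b4 := mul_le_mul_of_nonneg_left b3 (k.cast_nonneg (α := ℝ))
    have b5 := mul_le_mul_of_nonneg_left b1 μ0.le
    have b6 := mul_le_mul_of_nonneg_left N5 (mul_pos μ0 t2).le
    rw [hJ1] at k2
    linarith
  · simp only [mem_filter, mem_univ, true_and, mem_compl] at hl ⊢
    have b1 : f l / s = b := by rw [hl.2, Nat.mul_div_cancel_left _ s0]
    exact ⟨fun hh => hh.2 (by rw [hl.2, Nat.mul_mod_right]), by rw [if_pos b1, hl.1]⟩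

end Pool.Agent.P.MP_3acc10_al.Sh
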