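import Pool.Agent.P.MP_3acc10_al.HdAlg

set_option autoImplicit false

namespace Pool.Agent.P.MP_3acc10_al.Wn

open Finset Module Hd

variable {K : Type*} [Field K] {n : ℕ}

/-- raising operator -/
def Up : Module.End K (Finset (Fin n) → K) where
  toFun f A := ∑ a ∈ A, f (A.erase a)
  map_add' f g := by ext A; simp [sum_add_distrib]
  map_smul' a f := by ext A; simp [mul_sum]

/-- lowering operator -/
def Dn : Module.End K (Finset (Fin n) → K) where
  toFun f A := ∑ a ∈ Aᶜ, f (insert a A)
  map_add' f g := by ext A; simp [sum_add_distrib]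
  map_smul' a f := by ext A; simp [mul_sum]

lemma Up_apply (f : Finset (Fin n) → K) (A : Finset (Fin n)) :
    Up f A = ∑ a ∈ A, f (A.erase a) := rfl

lemma Dn_apply (f : Finset (Fin n) → K) (A : Finset (Fin n)) :
    Dn f A = ∑ a ∈ Aᶜ, f (insert a A) := rfl

/-- supported on one level -/
def Lz (i : ℤ) (f : Finset (Fin n) → K) : Prop := ∀ A, (A.card : ℤ) ≠ i → f A = 0

lemma Lz.up {i : ℤ} {f : Finset (Fin n) → K} (h : Lz i f) : Lz (i + 1) (Up f) := fun T hT =>
  sum_eq_zero fun x hx => h _ (by rw [← card_erase_add_one hx] at hT; omega)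

lemma Lz.dn {i : ℤ} {f : Finset (Fin n) → K} (h : Lz i f) (d : ℕ) :
    Lz (i - d) ((Dn ^ d : Module.End K _) f) := by
  induction d with
  | zero => simpa using h
  | succ d ih =>
    rw [pow_succ', Module.End.mul_apply]
    exact fun T hT => sum_eq_zero fun x hx =>
      ih _ (by rw [card_insert_of_notMem (mem_compl.1 hx)]; omega)

lemma Dn_Up {i : ℤ} {G : Finset (Fin n) → K} (h : Lz i G) :
    Dn (Up G) = Up (Dn G) + ((n : K) - 2 * i) • G := by
  ext T
  have hc : T.card ≤ n := by simpa using card_le_univ T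
  have h1 : Dn (Up G) T = ((n : K) - T.card) * G T +
      ∑ x ∈ Tᶜ, ∑ y ∈ T, G (insert x (T.erase y)) := by
    rw [Dn_apply, show ((n : K) - T.card) * G T = ∑ x ∈ Tᶜ, G T by
      simp [card_compl, Nat.cast_sub hc], ← sum_add_distrib]
    refine sum_congr rfl fun x hx => ?_
    have hx := mem_compl.1 hx
    rw [Up_apply, sum_insert hx, erase_insert hx]
    congr 1
    exact sum_congr rfl fun y hy => by rw [erase_insert_of_ne (ne_of_mem_of_not_mem hy hx).symm]
  have h2 : Up (Dn G) T = T.card * G T + ∑ y ∈ T, ∑ x ∈ Tᶜ, G (insert x (T.erase y)) := by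
    rw [Up_apply, show (T.card : K) * G T = ∑ x ∈ T, G T by simp, ← sum_add_distrib]
    refine sum_congr rfl fun y hy => ?_
    rw [Dn_apply, compl_erase, sum_insert (by simpa using hy), insert_erase hy]
  rw [Pi.add_apply, Pi.smul_apply, smul_eq_mul, h1, h2, sum_comm]
  by_cases e : (T.card : ℤ) = i
  · rw [← e]; push_cast; ring
  · rw [h T e]; ring

lemma pow_Up {i : ℤ} {G : Finset (Fin n) → K} (h : Lz i G) (d : ℕ) :
    (Dn ^ (d + 1) : Module.End K _) (Up G) = Up ((Dn ^ (d + 1) : Module.End K _) G) +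
      (((d : K) + 1) * (n - 2 * i + d)) • (Dn ^ d : Module.End K _) G := by
  induction d with
  | zero => simpa using Dn_Up h
  | succ d ih =>
    rw [pow_succ' _ (d + 1), Module.End.mul_apply, ih, map_add, map_smul, Dn_Up (h.dn (d + 1)),
      ← Module.End.mul_apply _ (Dn ^ d), ← pow_succ', Module.End.mul_apply, add_assoc, ← add_smul]
    congr 2
    push_cast; ring

lemma lef [CharZero K] (k : ℕ) : ∀ (j : ℤ) (d : ℕ) (F : Finset (Fin n) → K), n < j + k →
    n + d ≤ 2 * j → Lz j F → (Dn ^ d : Module.End K _) F = 0 → F = 0 := by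
  induction k with
  | zero =>
    intro j d F h _ hF _
    exact funext fun T => hF T (by have : T.card ≤ n := by simpa using card_le_univ T
                                   omega)
  | succ k ih =>
    intro j d F h h1 hF
    induction d with
    | zero => simp
    | succ d ihd =>
      intro h0
      have a := pow_Up hF d
      rw [h0, map_zero, zero_add] at a
      have b := ih (j + 1) (d + 1 + 1) _ (by omega) (by omega) hF.up (by
        rw [pow_succ', Module.End.mul_apply, a, map_smul, ← Module.End.mul_apply, ← pow_succ', h0,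
          smul_zero])
      rw [b, map_zero, eq_comm, smul_eq_zero] at a
      refine ihd (by omega) (a.resolve_left (mul_ne_zero (Nat.cast_add_one_ne_zero d) fun e => ?_))
      have : (n : ℤ) - 2 * j + d = 0 := by exact_mod_cast e
      omega

lemma Dn_pow (F : Finset (Fin n) → K) (k : ℕ) : ∀ T, (Dn ^ k : Module.End K _) F T =
    k.factorial * ∑ Y ∈ Tᶜ.powersetCard k, F (Y ∪ T) := by
  induction k with
  | zero => simp
  | succ k ih =>
    intro T
    have h1 : ∀ a ∈ Tᶜ, ∑ Y ∈ (insert a T)ᶜ.powersetCard k, F (Y ∪ insert a T) =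
        ∑ Y ∈ Tᶜ.powersetCard (k + 1), if a ∈ Y then F (Y ∪ T) else 0 := by
      intro a ha
      rw [← sum_filter, compl_insert]
      refine sum_bij' (fun Y _ => insert a Y) (fun Y _ => Y.erase a) (fun Y hY => ?_)
        (fun Y hY => ?_) (fun Y hY => ?_) (fun Y hY => insert_erase (mem_filter.1 hY).2)
        fun Y _ => by simp
      · obtain ⟨h1, h2⟩ := mem_powersetCard.1 hY
        rw [subset_erase] at h1
        exact mem_filter.2 ⟨mem_powersetCard.2 ⟨insert_subset ha h1.1,
          by rw [card_insert_of_notMem h1.2, h2]⟩, mem_insert_self _ _⟩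
      · obtain ⟨h1, h2⟩ := mem_filter.1 hY
        obtain ⟨h1, h3⟩ := mem_powersetCard.1 h1
        exact mem_powersetCard.2 ⟨erase_subset_erase _ h1, by rw [card_erase_of_mem h2, h3]; rfl⟩
      · exact erase_insert (subset_erase.1 (mem_powersetCard.1 hY).1).2
    rw [pow_succ', Module.End.mul_apply, Dn_apply]
    simp only [ih]
    rw [← mul_sum, sum_congr rfl h1, sum_comm, Nat.factorial_succ, Nat.cast_mul,
      mul_comm _ (k.factorial : K), mul_assoc, mul_sum _ _ ((k + 1 : ℕ) : K)]
    congr 1
    refine sum_congr rfl fun Y hY => ?_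
    obtain ⟨h1, h2⟩ := mem_powersetCard.1 hY
    rw [← sum_filter, sum_const, nsmul_eq_mul, filter_mem_eq_inter, inter_eq_right.2 h1, h2]

lemma gen_lef [CharZero K] {ι : Type*} [Fintype ι] (d : ι → ℕ) (l : ι) {j : ℕ}
    (h : n + d l ≤ 2 * j) :
    Gen fun c : ι × Finset (Fin n) → K => finrank K (WF j d univ c) ≤ 0 := by
  refine gen_W _ _ _ 0 (fun _ => 1) ?_
  rw [Nat.le_zero, Submodule.finrank_eq_zero, eq_bot_iff]
  intro F hF
  refine lef (n + 1) j (d l) F (by omega) (by omega) (fun T hT => hF.1 T (by omega))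
    (funext fun T => ?_)
  have := congrFun (hF.2 l (mem_univ _)) T
  rw [Dn_pow, Pi.zero_apply, mul_eq_zero]
  refine Or.inr (Eq.trans ?_ this)
  rw [act, powersetCard_eq_filter, ← filter_subset_univ, filter_filter, sum_filter]
  refine sum_congr rfl fun Y _ => ?_
  by_cases h1 : Disjoint Y T <;> by_cases h2 : Y.card = d l <;>
    simp [mask, h1, h2, subset_compl_iff_disjoint_right]

end Pool.Agent.P.MP_3acc10_al.Wn
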