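import Pool.Agent.P.MP_3acc10_al.WnCh

set_option autoImplicit false

namespace Pool.Agent.P.MP_3acc10_al.Wn

open Finset Hd

variable {ι : Type*} [DecidableEq ι] {n : ℕ} {d : ι → ℕ}

lemma pz_rec (n : ℕ) (d : ι → ℕ) (A : Finset ι) : ∀ i : ℤ, pz n d A i * i =
    pz n d A (i - 1) * (n - i + 1) -
      ∑ l ∈ A, d l * (pz n d (A.erase l) (i - d l) + pz n d (A.erase l) (i - 1 - d l)) := by
  induction A using Finset.induction_on with
  | empty => intro i; simp only [pz_empty, sum_empty, sub_zero, ch_rec]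
  | insert k A hk ih =>
    intro i
    have e : ∀ l ∈ A, (d l : ℝ) * (pz n d ((insert k A).erase l) (i - d l) +
        pz n d ((insert k A).erase l) (i - 1 - d l)) =
        d l * (pz n d (A.erase l) (i - d l) + pz n d (A.erase l) (i - 1 - d l)) -
        d l * (pz n d (A.erase l) (i - d k - d l) + pz n d (A.erase l) (i - d k - 1 - d l)) := by
      intro l hl
      have h : k ∉ A.erase l := fun e => hk (mem_of_mem_erase e)
      rw [erase_insert_of_ne (ne_of_mem_of_not_mem hl hk).symm, pz_insert _ _ h, pz_insert _ _ h,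
        show i - d l - d k = i - d k - d l by ring, show i - 1 - d l - d k = i - d k - 1 - d l by ring]
      ring
    have h2 := ih (i - d k)
    rw [sum_insert hk, erase_insert hk, sum_congr rfl e, sum_sub_distrib, pz_insert _ _ hk,
      pz_insert _ _ hk, show i - 1 - d k = i - d k - 1 by ring]
    push_cast at h2
    linear_combination ih i - h2

lemma pos_step {A : Finset ι} {l : ι} (hl : l ∉ A) (hd : 0 < d l) {J : ℤ}
    (h : ∀ i ≤ J, 0 ≤ pz n d (insert l A) i) : ∀ i ≤ J, 0 ≤ pz n d A i := by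
  have H : ∀ k : ℕ, ∀ i : ℤ, i < k → i ≤ J → 0 ≤ pz n d A i := by
    intro k
    induction k with
    | zero => intro i h0 _; rw [pz_neg _ _ _ (by omega)]
    | succ k ih =>
      intro i h0 h1
      have := h i h1
      rw [pz_insert _ _ hl] at this
      linarith [ih (i - d l) (by omega) (by omega)]
  exact fun i hi => H (i.toNat + 1) i (by omega) hi

lemma pos_sub (hd : ∀ l, 0 < d l) {J : ℤ} (B : Finset ι) : (∀ i ≤ J, 0 ≤ pz n d B i) →
    ∀ A ⊆ B, ∀ i ≤ J, pz n d B i ≤ pz n d A i := by
  induction B using Finset.strongInduction with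
  | H B ih =>
    intro h A hA i hi
    rcases hA.eq_or_ssubset with rfl | h1
    · rfl
    obtain ⟨l, hl, hl'⟩ := exists_of_ssubset h1
    have h2 := pos_step (notMem_erase l B) (hd l) (J := J) (by rwa [insert_erase hl])
    refine le_trans ?_ (ih (B.erase l) (erase_ssubset hl) h2 A (subset_erase.2 ⟨hA, hl'⟩) i hi)
    have := pz_insert n d (notMem_erase l B) i
    rw [insert_erase hl] at this
    linarith [h2 (i - d l) (by have := hd l; omega)]

theorem pos [Fintype ι] (hd : ∀ l, 0 < d l) {J : ℕ} (hJ0 : 0 < J)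
    (h : ∀ i ≤ J, 0 < al n d univ i) :
    J ≤ n ∧ (∀ l, ch n (J - d l) ≤ ch n J) ∧ ∑ l, ch n (J - d l) / ch n J ≤ J := by
  have h0 : ∀ i : ℤ, 0 ≤ i → i ≤ J → 0 < pz n d univ i := fun i a b => by
    obtain ⟨k, rfl⟩ := Int.eq_ofNat_of_zero_le a
    rw [pz_nat]
    exact_mod_cast h k (by omega)
  have h1 : ∀ i : ℤ, i ≤ J → 0 ≤ pz n d univ i := fun i b => by
    rcases lt_or_ge i 0 with a | a
    · rw [pz_neg _ _ _ a]
    · exact (h0 i a b).le
  have h2 := fun A => pos_sub hd univ h1 A (subset_univ A)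
  have p0 : 0 < ch n J := pz_empty n d J ▸ (h0 J (by omega) le_rfl).trans_le (h2 ∅ J le_rfl)
  have hJ := (of_ch_pos p0).2
  have h3 : ∀ i : ℤ, i ≤ J → pz n d univ i * i + ∑ l, pz n d univ (i - d l) ≤
      pz n d univ (i - 1) * (n - i + 1) := fun i b => by
    rw [pz_rec, sub_add, sub_le_self_iff, ← sum_sub_distrib]
    refine sum_nonneg fun l _ => ?_
    have a : (1 : ℝ) ≤ d l := by exact_mod_cast hd l
    have a1 := h2 (univ.erase l) (i - d l) (by omega)
    have a2 := h2 (univ.erase l) (i - 1 - d l) (by omega)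
    nlinarith [h1 (i - d l) (by omega), h1 (i - 1 - d l) (by omega)]
  have h4 : ∀ k : ℕ, pz n d univ (J - 1) * ch n (J - 1 - k) ≤
      pz n d univ (J - 1 - k) * ch n (J - 1) := by
    intro k
    induction k with
    | zero => simp
    | succ k ih =>
      rw [show (J : ℤ) - 1 - (k + 1 : ℕ) = J - 1 - k - 1 by omega]
      generalize ht : (J : ℤ) - 1 - k = t at *
      rcases le_or_gt t 0 with a | a
      · rw [ch_neg _ (by omega), pz_neg n d univ (i := t - 1) (by omega), mul_zero, zero_mul]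
      have a1 : (0 : ℝ) < t := by exact_mod_cast a
      have a2 := h3 t (by omega)
      have a3 := sum_nonneg (s := univ) fun l _ => h1 (t - d l) (by omega)
      have a4 : pz n d univ t * ch n (t - 1) ≤ pz n d univ (t - 1) * ch n t := by
        refine le_of_mul_le_mul_right ?_ a1
        rw [mul_assoc _ (ch n t), ch_rec]
        nlinarith [ch_nonneg n (t - 1)]
      refine le_of_mul_le_mul_right ?_ (ch_pos (m := n) a.le (by omega))
      nlinarith [mul_le_mul_of_nonneg_right ih (ch_nonneg n (t - 1)),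
        mul_le_mul_of_nonneg_right a4 (ch_nonneg n (J - 1))]
  refine ⟨by omega, fun l => ?_, ?_⟩
  · have := (h1 J le_rfl).trans (h2 (insert l ∅) J le_rfl)
    rwa [pz_insert _ _ (notMem_empty l), pz_empty, pz_empty, sub_nonneg] at this
  rw [← sum_div, div_le_iff₀ p0, mul_comm]
  refine le_of_mul_le_mul_left ?_ (h0 (J - 1) (by omega) (by omega))
  have a1 := sum_le_sum (s := univ) fun l _ =>
    (show (J : ℤ) - 1 - (d l - 1 : ℕ) = J - d l by have := hd l; omega) ▸ h4 (d l - 1)
  have a2 := h3 J le_rfl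
  have a3 := ch_rec n J
  rw [← mul_sum, ← sum_mul] at a1
  push_cast at a2 a3
  rw [a3]
  nlinarith [ch_nonneg n (J - 1), mul_nonneg (h1 J le_rfl) J.cast_nonneg]

end Pool.Agent.P.MP_3acc10_al.Wn
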