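import Pool.Agent.P.MP_3acc10_al.WnTow

set_option autoImplicit false

namespace Pool.Agent.P.MP_3acc10_al.Wn

open Finset Module Hd Real
open scoped FinsetFamily

variable {L : Type*} [Field L] {n : ℕ} {ι : Type*} [DecidableEq ι]

lemma kk_dim {J e k : ℕ} {X Y : Submodule L (Finset (Fin n) → L)} (hY : Y ≤ lev L n J)
    (h : ∀ S : Finset (Fin n), S.card = e → ∀ F ∈ Y, mon S F ∈ X) (h1 : e ≤ J) (h2 : J ≤ k)
    (h3 : k ≤ n) (h4 : k.choose J ≤ finrank L Y) : k.choose (J - e) ≤ finrank L X := by
  rw [← card_ld wz_inj] at h4 ⊢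
  refine (kruskal_katona_lovasz_form h1 h2 h3 (fun T hT => ld_card hY T hT) h4).trans
    (card_le_card fun T hT => ?_)
  obtain ⟨s, hs, a1, a2⟩ := mem_shadow_iterate_iff_exists_sdiff.1 hT
  obtain ⟨F, f0, f1, f2⟩ := mem_ld.1 hs
  have := ld_act (u := Pi.single (s \ T) 1) (A := s \ T) (by simp)
    (fun Z hZ => Pi.single_eq_of_ne (fun e => by rw [e] at hZ; exact hZ.false) _) f1 f2 sdiff_subset
  rw [Finset.sdiff_sdiff_eq_self a1] at this
  exact mem_ld.2 ⟨_, h _ a2 F f0, this⟩

lemma num_kk {J d k : ℕ} (hd : 0 < d) (h1 : d ≤ J) (h2 : J ≤ k) (h3 : k ≤ n) (h4 : 2 * J ≤ n) :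
    ch (k + 1) J * ch n (J - d) * n ≤ 2 * (k + 1) * ch k (J - d) * ch n J := by
  have a0 : (0 : ℝ) < J := by exact_mod_cast (show 0 < J by omega)
  have a1 : (k : ℝ) ≤ n := by exact_mod_cast h3
  have a2 : 2 * (J : ℝ) ≤ n := by exact_mod_cast h4
  have b := ch_cmp (m := k) (m' := n) (j := J - 1) (j' := J - 1) zero_le_one (by omega) (by omega)
    (d - 1) (by omega) fun s hs => by
      have : (s : ℝ) + 1 ≤ J := by exact_mod_cast (show s + 1 ≤ J by omega)
      rw [one_mul]
      exact mul_le_mul_of_nonneg_left (by linarith) (by push_cast; linarith)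
  rw [one_pow, one_mul, show (J : ℤ) - 1 - (d - 1 : ℕ) = J - d by omega] at b
  have r1 := ch_rec n J
  have r2 := ch_rec k J
  have r3 := ch_succ k J
  push_cast at r1 r2
  have r4 : ch (k + 1) J * J = (k + 1) * ch k (J - 1) := by rw [r3]; linarith
  have r5 : ch n (J - 1) * n ≤ 2 * (ch n J * J) := by
    rw [r1]; nlinarith [ch_nonneg n (J - 1)]
  refine le_of_mul_le_mul_right ?_ a0
  calc _ = (ch (k + 1) J * J) * ch n (J - d) * n := by ring
    _ = (k + 1) * n * (ch n (J - d) * ch k (J - 1)) := by rw [r4]; ring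
    _ ≤ (k + 1) * n * (ch k (J - d) * ch n (J - 1)) := mul_le_mul_of_nonneg_left b (by positivity)
    _ = (k + 1) * ch k (J - d) * (ch n (J - 1) * n) := by ring
    _ ≤ (k + 1) * ch k (J - d) * (2 * (ch n J * J)) :=
        mul_le_mul_of_nonneg_left r5 (mul_nonneg (by positivity) (ch_nonneg _ _))
    _ = _ := by ring

lemma exp_half {y : ℝ} (h0 : 0 ≤ y) (h1 : y ≤ 1) : exp (y / 2) ≤ 1 + y := by
  refine (exp_bound_div_one_sub_of_interval (by linarith) (by linarith)).trans ?_
  rw [div_le_iff₀ (by linarith)]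
  nlinarith

theorem vanish [CharZero L] [Fintype ι] {δ : ι × Finset (Fin n) → L →+ L}
    (hδ : ∀ p x y, δ p (x * y) = x * δ p y + δ p x * y) {c : ι × Finset (Fin n) → L}
    (hc : ∀ p q, δ p (c q) = if q = p then 1 else 0) {d : ι → ℕ} (hd : ∀ l, 0 < d l) {J : ℕ}
    (hJ0 : 0 < J) (hJ : J ≤ n) (hx : ∀ l, ch n (J - d l) ≤ ch n J)
    (hs : 22 * (J : ℝ) < ∑ l, ch n (J - d l) / ch n J) : wd (Gm d c) univ univ J < 1 := by
  have n0 : (0 : ℝ) < n := by exact_mod_cast (show 0 < n by omega)
  have J0 : (0 : ℝ) < J := by exact_mod_cast hJ0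
  have p0 : 0 < ch n J := ch_pos (by omega) (by omega)
  have cu : (univ : Finset (Fin n)).card = n := by simp
  have x0 : ∀ l, 0 ≤ ch n (J - d l) / ch n J := fun l => div_nonneg (ch_nonneg _ _) p0.le
  have x1 : ∀ l, ch n (J - d l) / ch n J ≤ 1 := fun l => (div_le_one p0).2 (hx l)
  have st : ∀ (A : Finset ι) l, l ∉ A → ∀ S : Finset (Fin n), S.card = d l →
      ∀ F ∈ WM (Gm d c) univ (insert l A) J, mon S F ∈ Yq d c univ A l J 1 := fun A l hl S hS =>
    Yq_zero (d := d) (c := c) (M := univ) (A := A) (l := l) J ▸ Yq_step hδ hc hl J 0 hS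
  rcases lt_or_ge n (2 * J) with h2 | h2
  · have H : ∀ A : Finset ι, wd (Gm d c) univ A J * exp ((∑ l ∈ A, ch n (J - d l) / ch n J) / 2) ≤
        ch n J := by
      intro A
      induction A using Finset.induction_on with
      | empty => simp [wd_empty]
      | insert l A hl ih =>
        have a := lym (G := Gm d c) (M := univ) (s := J - d l) (hd l) (X := Yq d c univ A l J 1)
          (Y := WM (Gm d c) univ (insert l A) J)
          ((Yq_le J 1).trans (by
            rw [Nat.cast_one, one_mul]; exact W_anti _ (empty_subset _) _))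
          (by rw [sub_add_cancel]; exact W_anti _ (empty_subset _) _) (fun S _ => st A l hl S)
          (by rwa [cu, sub_add_cancel])
        rw [cu, sub_add_cancel, ← div_le_iff₀' p0, mul_div_right_comm] at a
        have b := Y01 (d := d) (c := c) (M := univ) (A := A) (l := l) J
        have e := mul_le_mul_of_nonneg_left (exp_half (x0 l) (x1 l))
          (show 0 ≤ wd (Gm d c) univ (insert l A) J from Nat.cast_nonneg _)
        rw [sum_insert hl, add_div, exp_add, ← mul_assoc]
        refine le_trans (mul_le_mul_of_nonneg_right (e.trans ?_) (exp_pos _).le) ih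
        rw [wd] at b ⊢
        linarith
    have a := (H univ).trans (ch_exp 0 n J)
    have b : (n : ℝ) < 2 * J := by exact_mod_cast h2
    refine lt_of_mul_lt_mul_right (a.trans_lt ?_) (exp_pos _).le
    rw [one_mul, exp_lt_exp]
    simp only [neg_zero, exp_zero]
    linarith
  have H : ∀ A : Finset ι, wd (Gm d c) univ A J < 1 ∨ ∃ u : ℝ, 0 ≤ u ∧ wd (Gm d c) univ A J ≤ u ^ J ∧
      u ≤ exp 1 * n / J - n / (8 * J ^ 2) * ∑ l ∈ A, ch n (J - d l) / ch n J := by
    intro A
    induction A using Finset.induction_on with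
    | empty =>
      refine Or.inr ⟨exp 1 * n / J, by positivity, ?_, by simp⟩
      rw [wd_empty, cu, ch_nat]
      exact choose_up hJ0 (by omega)
    | insert l A hl ih =>
      have b := Y01 (d := d) (c := c) (M := univ) (A := A) (l := l) J
      have b0 : (0 : ℝ) ≤ finrank L (Yq d c univ A l J 1) := Nat.cast_nonneg _
      refine (lt_or_ge _ 1).imp_right fun h1 => ?_
      obtain ⟨U, U0, U1, U2⟩ := ih.resolve_left (by linarith)
      rw [sum_insert hl, mul_add]
      rcases lt_or_ge J (d l) with h3 | h3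
      · rw [ch_neg n (i := J - d l) (by omega)]
        exact ⟨U, U0, by linarith, by simpa using U2⟩
      have w1 := wd_le (G := Gm d c) (M := univ) (A := insert l A) J
      have w2 := fun k a1 a2 a3 => kk_dim (k := k) (Y := WM (Gm d c) univ (insert l A) J)
        (fun F hF X hX => hF.1 X fun e => hX (by exact_mod_cast e.1)) (st A l hl) h3 a1 a2 a3
      rw [cu, ch_nat] at w1
      rw [wd] at b h1 w1 ⊢
      generalize finrank L (WM (Gm d c) univ (insert l A) J) = ψ at *
      have k1 : J ≤ n.findGreatest fun k => k.choose J ≤ ψ :=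
        Nat.le_findGreatest hJ (by rw [Nat.choose_self]; exact_mod_cast h1)
      have k2 := Nat.findGreatest_le (P := fun k => k.choose J ≤ ψ) n
      have k3 := Nat.findGreatest_spec (P := fun k => k.choose J ≤ ψ) hJ
        (by rw [Nat.choose_self]; exact_mod_cast h1)
      have k4 := fun a => Nat.findGreatest_is_greatest (P := fun k => k.choose J ≤ ψ)
        (Nat.lt_succ_self (n.findGreatest fun k => k.choose J ≤ ψ)) a
      generalize (n.findGreatest fun k => k.choose J ≤ ψ) = k at *
      have k5 : (ψ : ℝ) ≤ ch (k + 1) J := by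
        rw [ch_nat]
        rcases k2.eq_or_lt with e | e
        · exact w1.trans (by exact_mod_cast Nat.choose_le_choose _ (by omega))
        · exact_mod_cast (not_le.1 (k4 e)).le
      have k6 : ch k (J - d l) ≤ finrank L (Yq d c univ A l J 1) := by
        rw [← Nat.cast_sub h3, ch_nat]; exact_mod_cast w2 k k1 k2 k3
      obtain ⟨u, u1, u2⟩ : ∃ u : ℝ, 1 ≤ u ∧ u ^ J = ψ :=
        ⟨_, one_le_rpow h1 (by positivity), rpow_inv_natCast_pow (by linarith) hJ0.ne'⟩
      have u3 : (k : ℝ) ≤ J * u := by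
        rw [← pow_le_pow_iff_left₀ (by positivity) (by positivity) hJ0.ne', mul_pow, u2]
        exact_mod_cast (choose_low k1).trans (Nat.mul_le_mul_left _ k3)
      have u4 : (1 : ℝ) ≤ J * u := one_le_mul_of_one_le_of_one_le (by exact_mod_cast hJ0) u1
      have z0 := x0 l
      have z1 : ch n (J - d l) / ch n J * n ≤ 2 * J := by
        rw [div_mul_eq_mul_div, div_le_iff₀ p0]; exact ch_two (hd l) (hx l)
      have z2 : ψ * (ch n (J - d l) / ch n J * n) ≤ 4 * (J * u) * ch k (J - d l) := by
        refine (mul_le_mul_of_nonneg_right k5 (by positivity)).trans (le_trans ?_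
          (mul_le_mul_of_nonneg_right (show 2 * ((k : ℝ) + 1) ≤ _ by linarith) (ch_nonneg _ _)))
        rw [div_mul_eq_mul_div, ← mul_div_assoc, div_le_iff₀ p0, ← mul_assoc]
        exact num_kk (hd l) h3 k1 k2 h2
      generalize ch n (J - d l) / ch n J = x at *
      obtain ⟨y, hy⟩ : ∃ y, y = x * n / (4 * (J * u)) := ⟨_, rfl⟩
      have y0 : 0 ≤ y := by rw [hy]; positivity
      have y1 : y ≤ 1 := by
        rw [hy, div_le_one (by positivity)]
        linarith [le_mul_of_one_le_right J0.le u1]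
      have y2 : ψ * y ≤ ch k (J - d l) := by
        rwa [hy, ← mul_div_assoc, div_le_iff₀' (by positivity)]
      have y3 : (1 + y / 2 / J) ^ J ≤ 1 + y := by
        refine le_trans ?_ (exp_half y0 y1)
        rw [show y / 2 = J * (y / 2 / J) by field_simp, exp_nat_mul, mul_div_cancel_left₀ _ J0.ne']
        exact pow_le_pow_left₀ (by positivity) (by linarith [add_one_le_exp (y / 2 / J)]) _
      have y4 : u + n / (8 * J ^ 2) * x ≤ U := by
        rw [← pow_le_pow_iff_left₀ (by positivity) U0 hJ0.ne',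
          show u + n / (8 * J ^ 2) * x = u * (1 + y / 2 / J) by rw [hy]; field_simp; ring,
          mul_pow, u2]
        linarith [mul_le_mul_of_nonneg_left y3 (show (0 : ℝ) ≤ ψ by linarith)]
      exact ⟨u, by linarith, u2.ge, by linarith⟩
  refine (H univ).resolve_right ?_
  rintro ⟨u, u0, -, u2⟩
  have a := mul_lt_mul_of_pos_left hs (show (0 : ℝ) < n / (8 * J ^ 2) by positivity)
  have b : exp 1 * n / J ≤ n / (8 * J ^ 2) * (22 * J) := by
    rw [show (n : ℝ) / (8 * J ^ 2) * (22 * J) = 11 / 4 * n / J by field_simp; ring]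
    gcongr
    linarith [exp_one_lt_d9]
  linarith

end Pool.Agent.P.MP_3acc10_al.Wn
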