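import Pool.Agent.P.MP_3acc10_al.WnNum
import Pool.Agent.P.MP_3acc10_al.WnVan
import Pool.Agent.P.MP_3acc10_al.WnLef
import Pool.Agent.P.MP_3acc10_al.WnPos

set_option autoImplicit false

namespace Pool.Agent.P.MP_3acc10_al.Wn

open Finset Module Hd Real

lemma params : ∃ C : ℝ, 0 < C ∧ ∀ D : ℕ, 0 < D → ∃ σ lam Λ : ℝ, 0 < σ ∧ σ ≤ 1 / 2 ∧ 1 ≤ lam ∧
    7 * exp (3 / σ) ≤ Λ ∧ (1 - σ) ^ 3 ≤ σ * D ∧ 64 * Λ * (6 + log lam) ≤ σ ^ 2 * lam ^ D ∧
    16896 * Λ * lam ≤ σ ^ 2 * lam ^ max D 2 ∧ (D = 1 → 3072 * Λ ≤ σ ^ 2 * C) ∧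
    lam ≤ (1 - σ) ^ 5 * (1 + C / √D) := by
  obtain ⟨Λ, hΛ⟩ : ∃ Λ : ℝ, Λ = 7 * exp 6 := ⟨_, rfl⟩
  obtain ⟨t, ht⟩ : ∃ t : ℝ, t = 10 ^ 5 * Λ := ⟨_, rfl⟩
  have L1 : 7 ≤ Λ := by linarith [one_le_exp (show (0 : ℝ) ≤ 6 by norm_num)]
  have t1 : 3 ≤ t := by linarith
  have t2 : t ≤ t ^ 2 := by nlinarith
  refine ⟨512 * t ^ 2, by positivity, fun D hD => ?_⟩
  have D1 : (1 : ℝ) ≤ D := by exact_mod_cast hD
  have q0 : 0 < √(D : ℝ) := by positivity
  rcases le_or_gt 256 D with h | h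
  · have q1 : 16 ≤ √(D : ℝ) := le_sqrt_of_sq_le (by exact_mod_cast h)
    obtain ⟨σ, hσ⟩ : ∃ σ, σ = 8 / √(D : ℝ) := ⟨_, rfl⟩
    have s0 : 0 < σ := by rw [hσ]; positivity
    have s1 : σ ≤ 1 / 2 := by rw [hσ, div_le_iff₀ q0]; linarith
    have s2 : σ * D = 64 / σ := by
      rw [eq_div_iff s0.ne', mul_right_comm, ← sq, hσ, div_pow, sq_sqrt (by linarith)]
      field_simp; norm_num
    have s3 : 2 ≤ 1 / σ := by rw [le_div_iff₀ s0]; linarith
    obtain ⟨E, hE⟩ : ∃ E, E = exp (1 / σ) := ⟨_, rfl⟩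
    have e1 : 1 / σ + 1 ≤ E := hE ▸ add_one_le_exp _
    have e2 : E ^ 32 ≤ (1 + σ) ^ D := by
      refine le_trans (le_of_eq ?_) (pow_le_pow_left₀ (exp_pos _).le (exp_half s0.le (by linarith)) D)
      rw [hE, ← exp_nat_mul, ← exp_nat_mul]
      congr 1
      linear_combination (-1 / 2) * s2
    have e3 : 1 ≤ σ * E := by rw [← div_le_iff₀' s0]; linarith
    have e4 : 3 ^ 27 * E ^ 3 ≤ σ ^ 2 * (1 + σ) ^ D := by
      refine le_trans ?_ (mul_le_mul_of_nonneg_left e2 (by positivity))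
      rw [show σ ^ 2 * E ^ 32 = (σ * E) ^ 2 * E ^ 27 * E ^ 3 by ring]
      refine mul_le_mul_of_nonneg_right ?_ (pow_nonneg (by linarith) _)
      exact (pow_le_pow_left₀ (by norm_num) (by linarith) _).trans
        (le_mul_of_one_le_left (pow_nonneg (by linarith) _) (one_le_pow₀ e3))
    have e5 : 0 ≤ E ^ 3 := pow_nonneg (by linarith) _
    have b1 := one_add_mul_le_pow (a := -σ) (by linarith) 5
    have b2 := pow_le_pow_left₀ (by norm_num) (show 1 / 2 ≤ 1 - σ by linarith) 5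
    refine ⟨σ, 1 + σ, 7 * E ^ 3, s0, s1, by linarith, le_of_eq ?_, ?_, ?_, ?_, fun e => by omega, ?_⟩
    · rw [hE, ← exp_nat_mul]
      congr 2
      push_cast; ring
    · refine (pow_le_one₀ (by linarith) (by linarith)).trans ?_
      rw [s2, le_div_iff₀ s0]; linarith
    · nlinarith [log_le_sub_one_of_pos (show 0 < 1 + σ by linarith)]
    · rw [max_eq_left (by omega)]; nlinarith
    · rw [show 512 * t ^ 2 / √D = 64 * t ^ 2 * σ by rw [hσ]; ring]
      rw [← sub_eq_add_neg] at b1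
      push_cast at b1
      nlinarith [mul_le_mul b2 (show 192 * σ ≤ 64 * t ^ 2 * σ by nlinarith) (by positivity)
        (by linarith)]
  · have q1 : √(D : ℝ) ≤ 16 := sqrt_le_iff.2 ⟨by norm_num, by exact_mod_cast (by omega)⟩
    have l1 : 1 ≤ t ^ 2 := by linarith
    refine ⟨1 / 2, t ^ 2, Λ, by norm_num, le_rfl, l1, le_of_eq ?_, by linarith, ?_, ?_,
      fun _ => by linarith, ?_⟩
    · rw [hΛ]; norm_num
    · have := le_self_pow₀ l1 hD.ne'
      rw [log_pow]
      push_cast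
      nlinarith [log_le_sub_one_of_pos (show 0 < t by linarith)]
    · nlinarith [pow_le_pow_right₀ l1 (le_max_right D 2)]
    · have : 32 * t ^ 2 ≤ 512 * t ^ 2 / √D := by rw [le_div_iff₀ q0]; nlinarith
      linarith

theorem win : ∃ C : ℝ, 0 < C ∧ ∀ (L : Type) [Field L] [CharZero L] (n r D : ℕ) (d : Fin r → ℕ)
    (δ : Fin r × Finset (Fin n) → L →+ L) (c : Fin r × Finset (Fin n) → L),
    (∀ p x y, δ p (x * y) = x * δ p y + δ p x * y) →
    (∀ p q, δ p (c q) = if q = p then 1 else 0) → 0 < D → (∀ i, D ≤ d i) →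
    C * #{i | d i = 1} ≤ n → ∀ J : ℕ, 0 < J → J ≤ n → (∀ l, ch n (J - d l) ≤ ch n J) →
    ∑ l, ch n (J - d l) / ch n J ≤ 22 * J → ∀ A (i : ℕ), (1 + C / √D) * i ≤ J →
    (finrank L (WF i d A c) : ℤ) = al n d A i := by
  obtain ⟨C, C0, h⟩ := params
  refine ⟨C, C0, fun L _ _ n r D d δ c hδ hc D0 hD hn J J0 hJ hx hs A i hi => ?_⟩
  obtain ⟨σ, lam, Λ, s0, s1, l1, a1, a2, a3, a4, a5, a6⟩ := h D D0
  have hd : ∀ l, 0 < d l := fun l => D0.trans_le (hD l)
  have n0 : (0 : ℝ) < n := by exact_mod_cast (show 0 < n by omega)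
  have j0 : (0 : ℝ) < J := by exact_mod_cast J0
  have p0 : 0 < ch n J := ch_pos (by omega) (by omega)
  have L0 : 0 < Λ := lt_of_lt_of_le (by positivity) a1
  have l0 : 0 < lam := by linarith
  refine exact hδ hc hd J0 hJ s0 s1 l1 a1 hx
    (fun l => a2.trans (by gcongr; exact hD l))
    (fun l => a3.trans (by gcongr; exact hD l)) ?_ A i ?_
  · have b1 : ∀ l, ch n (J - d l) / ch n J / lam ^ d l ≤ ch n (J - d l) / ch n J / lam ^ max D 2 +
        if d l = 1 then 2 * J / n / lam else 0 := fun l => by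
      have x0 : 0 ≤ ch n (J - d l) / ch n J := div_nonneg (ch_nonneg _ _) p0.le
      split_ifs with e
      · refine le_add_of_nonneg_of_le (by positivity) ?_
        rw [show lam ^ d l = lam by rw [e, pow_one]]
        refine div_le_div_of_nonneg_right ?_ l0.le
        rw [div_le_div_iff₀ p0 n0]
        exact ch_two (hd l) (hx l)
      · rw [add_zero]
        exact div_le_div_of_nonneg_left x0 (by positivity)
          (pow_le_pow_right₀ l1 (max_le (hD l) (by have := hd l; omega)))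
    have b2 := sum_le_sum (s := univ) fun l _ => b1 l
    rw [sum_add_distrib, ← sum_div, ← sum_filter, sum_const, nsmul_eq_mul] at b2
    have b3 : 3072 * Λ * #{i | d i = 1} ≤ σ ^ 2 * n := by
      by_cases e : D = 1
      · nlinarith [mul_le_mul_of_nonneg_right (a5 e) (#{i | d i = 1}).cast_nonneg,
          mul_le_mul_of_nonneg_left hn (sq_nonneg σ)]
      · rw [filter_eq_empty_iff.2 fun l _ => by have := hD l; omega]
        simp; positivity
    have b4 : 24 * Λ * lam * ((∑ l, ch n (J - d l) / ch n J) / lam ^ max D 2) ≤ σ ^ 2 * J / 32 := by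
      rw [← mul_div_assoc, div_le_iff₀ (by positivity)]
      nlinarith [mul_le_mul_of_nonneg_left hs (show 0 ≤ 24 * Λ * lam by positivity),
        mul_le_mul_of_nonneg_right a4 j0.le]
    have b5 : 24 * Λ * lam * (#{i | d i = 1} * (2 * J / n / lam)) ≤ σ ^ 2 * J / 64 := by
      rw [show 24 * Λ * lam * (#{i | d i = 1} * (2 * J / n / lam)) =
        3072 * Λ * #{i | d i = 1} * J / 64 / n by field_simp; ring, div_le_iff₀ n0]
      nlinarith [mul_le_mul_of_nonneg_right b3 j0.le]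
    have b6 := pow_le_pow_left₀ (by norm_num) (show 1 / 2 ≤ 1 - σ by linarith) 4
    have b7 : 0 < σ ^ 2 * J := by positivity
    nlinarith [mul_le_mul_of_nonneg_left b2 (show 0 ≤ 24 * Λ * lam by positivity),
      mul_le_mul_of_nonneg_left b6 b7.le]
  · nlinarith [mul_le_mul_of_nonneg_left a6 i.cast_nonneg,
      mul_le_mul_of_nonneg_left hi (pow_nonneg (show 0 ≤ 1 - σ by linarith) 5)]

lemma WF_sub {K : Type*} [Field K] {n : ℕ} {ι : Type*} [Fintype ι] [DecidableEq ι] (j : ℕ)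
    (d : ι → ℕ) (A : Finset ι) (c : ι × Finset (Fin n) → K) :
    WF j (fun i => if i ∈ A then d i else n + 1) univ c = WF j d A c := by
  have e : ∀ i ∈ A, mask (fun i Y => Y.card = if i ∈ A then d i else n + 1) c i =
      mask (fun i Y => Y.card = d i) c i := fun i hi => by ext Y; simp [mask, hi]
  ext F
  refine and_congr_right fun _ => ⟨fun h i hi => e i hi ▸ h i (mem_univ _), fun h i _ => ?_⟩
  by_cases hi : i ∈ A
  · exact (e i hi).symm ▸ h i hi
  · refine Eq.trans ?_ (zero_act F)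
    congr 1
    ext Y
    have : Y.card ≤ n := by simpa using card_le_univ Y
    simp [mask, hi, show Y.card ≠ n + 1 by omega]

lemma al_zero {ι : Type*} [DecidableEq ι] (n : ℕ) {d : ι → ℕ} (hd : ∀ l, 0 < d l) (A : Finset ι) :
    al n d A 0 = 1 := by
  induction A using Finset.induction_on with
  | empty => simp
  | insert l A hl ih => rw [al_insert n d hl, ih, if_neg (hd l).not_ge, sub_zero]

theorem main : ∃ C : ℝ, 0 < C ∧ ∀ (K : Type) [Field K] [CharZero K] (n r D : ℕ) (d : Fin r → ℕ),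
    0 < D → (∀ i, D ≤ d i) → C * #{i | d i = 1} ≤ n → Gen fun c : Fin r × Finset (Fin n) → K => ∀ j J : ℕ,
      ((1 + C / √D) * j ≤ J ∧ truncCoeff (series n d univ) J ≠ 0 ∨
        (1 + C / √D) * J ≤ j ∧ truncCoeff (series n d univ) J = 0) →
      (hilb d c j : ℤ) = truncCoeff (series n d univ) j := by
  obtain ⟨C, C0, hC⟩ := win
  refine ⟨C, C0, fun K _ _ n r D d D0 hD hn => ?_⟩
  let τ := Fin r × Finset (Fin n)
  let L := FractionRing (MvPolynomial τ K)
  choose δ h1 h3 using exists_der (K := K) (τ := τ)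
  have hd : ∀ l, 0 < d l := fun l => D0.trans_le (hD l)
  have g1 : Gen fun c : τ → K => ∀ j ∈ range (n + 1), ∀ A ∈ (univ : Finset (Finset (Fin r))),
      finrank K (WF j d A c) ≤ finrank L (WF j d A (gp K (τ := τ))) :=
    Gen.all _ fun j _ => Gen.all _ fun A _ =>
      (gen_WF j fun i => if i ∈ A then d i else n + 1).mono fun c hc => by
        rwa [WF_sub, WF_sub] at hc
  have g2 : Gen fun c : τ → K => ∀ j ∈ range (n + 1), ∀ l ∈ (univ : Finset (Fin r)),
      n + d l ≤ 2 * j → finrank K (WF j d univ c) ≤ 0 :=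
    Gen.all _ fun j _ => Gen.all _ fun l _ => by
      by_cases h : n + d l ≤ 2 * j
      · exact (gen_lef d l h).mono fun c hc _ => hc
      · exact Gen.of_forall fun c h' => absurd h' h
  refine (g1.and g2).mono ?_
  rintro c ⟨c1, c2⟩
  have f0 : 0 ≤ C / √D := by positivity
  have f1 : ∀ i j : ℕ, (1 + C / √D) * i ≤ j → i ≤ j := fun i j h => by
    exact_mod_cast (le_mul_of_one_le_left i.cast_nonneg (by linarith)).trans h
  have E : ∀ J : ℕ, J ≤ n → (0 < J → (∀ l, ch n (J - d l) ≤ ch n J) ∧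
      ∑ l, ch n (J - d l) / ch n J ≤ 22 * J) → ∀ A (i : ℕ), (1 + C / √D) * i ≤ J →
      (finrank K (WF i d A c) : ℤ) = al n d A i := by
    intro J hJ h A
    induction A using Finset.induction_on with
    | empty => intro i _; rw [finrank_WF_empty]; simp
    | insert l A hl ih =>
      intro i hi
      have iJ := f1 i J hi
      refine le_antisymm ?_ ?_
      · rcases J.eq_zero_or_pos with e | e
        · obtain rfl : i = 0 := by omega
          rw [al_zero n hd]
          exact_mod_cast (finrank_WF_le 0 d _ c).trans (Nat.choose_zero_right _).le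
        · rw [← hC L n r D d δ _ h1 h3 D0 hD hn J e hJ (h e).1 (h e).2 _ i hi]
          exact_mod_cast c1 i (mem_range.2 (by omega)) _ (mem_univ _)
      · have := lower_step i d A l c
        rw [al_insert n d hl, ← ih i hi, ← ih (i - d l) (le_trans (by gcongr; omega) hi)]
        split_ifs at this ⊢ <;> omega
  have et : ∀ j, truncCoeff (series n d univ) j =
      if ∀ i ≤ j, 0 < al n d univ i then al n d univ j else 0 := fun j => by
    unfold truncCoeff
    congr
  intro j J h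
  rw [hilb_eq]
  simp only [et] at h ⊢
  rcases h with ⟨h, hJ⟩ | ⟨h, hJ⟩
  · have hp : ∀ i ≤ J, 0 < al n d univ i := by
      by_contra hh
      exact hJ (if_neg hh)
    rw [if_pos fun i hi => hp i (hi.trans (f1 j J h))]
    refine E J ?_ (fun e => ⟨(pos hd e hp).2.1, (pos hd e hp).2.2.trans ?_⟩) univ j h
    · exact J.eq_zero_or_pos.elim (by omega) fun e => (pos hd e hp).1
    · linarith [J.cast_nonneg (α := ℝ)]
  have hp : ¬ ∀ i ≤ J, 0 < al n d univ i := fun hh => (hh J le_rfl).ne' (by rwa [if_pos hh] at hJ)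
  have Jj := f1 J j h
  rw [if_neg fun hh => hp fun i hi => hh i (hi.trans Jj), Int.natCast_eq_zero, ← Nat.le_zero]
  rcases lt_or_ge n j with hn' | hn'
  · have := finrank_WF_le j d univ c
    rwa [Fintype.card_fin, Nat.choose_eq_zero_of_lt hn'] at this
  have jn : j ∈ range (n + 1) := mem_range.2 (by omega)
  by_cases hx : ∀ l, ch n (j - d l) ≤ ch n j
  swap
  · obtain ⟨l, hl⟩ := not_forall.1 hx
    exact c2 j jn l (mem_univ _) (ch_flip hn' (not_le.1 hl))
  by_cases hs : 0 < j → ∑ l, ch n (j - d l) / ch n j ≤ 22 * j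
  · push Not at hp
    obtain ⟨i, hi, hp⟩ := hp
    have a := E j hn' (fun e => ⟨hx, hs e⟩) univ i (le_trans (by gcongr) h)
    have b := finrank_WF_add i (j - i) d univ c
    rwa [show i + (j - i) = j by omega, show finrank K (WF i d univ c) = 0 by omega] at b
  · push Not at hs
    have a := vanish h1 h3 hd hs.1 hn' hx hs.2
    rw [wd, WM_univ, Nat.cast_lt_one] at a
    exact a ▸ c1 j jn univ (mem_univ _)

end Pool.Agent.P.MP_3acc10_al.Wn
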