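import Pool.Agent.P.MP_3acc10_al.SqPot
import Pool.Agent.P.MP_3acc10_al.ShVan
import Pool.Agent.P.MP_3acc10_al.WnMain

set_option autoImplicit false

namespace Pool.Agent.P.MP_3acc10_al.Sh

open Finset Module Hd Wn Real

lemma posi {η : ℝ} (h0 : 0 < η) (h1 : η ≤ 1 / 2) : ∃ t0 : ℝ, 0 < t0 ∧ ∀ (r : ℕ) (d : Fin r → ℕ),
    (∀ l, 2 ≤ d l) → ∀ t : ℝ, 0 < t → t ≤ t0 → ∀ n i : ℕ,
    (i : ℝ) + 1 < (1 - η) * n * t - (1 + η) * ∑ l, d l * t ^ d l → 0 < al n d univ i := by
  obtain ⟨t0, t1, hA⟩ := exact h0 h1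
  refine ⟨min 1 t0, lt_min one_pos t1, fun r d hd t a0 a1 n => ?_⟩
  obtain ⟨a2, a3⟩ := le_min_iff.1 a1
  have a4 : 0 ≤ (1 + η) * ∑ l, (d l : ℝ) * t ^ d l := by positivity
  induction n with
  | zero =>
    intro i h
    simp only [Nat.cast_zero, mul_zero, zero_mul] at h
    linarith [i.cast_nonneg (α := ℝ)]
  | succ n ih =>
    rintro (_ | i) h
    · rw [al_zero _ fun l => by have := hd l; omega]; exact one_pos
    push_cast at h
    have a5 : (i : ℝ) + 1 < (1 - η) * n * t - (1 + η) * ∑ l, d l * t ^ d l := by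
      linarith [mul_pos h0 a0]
    choose δ b1 b2 using exists_der (K := ℚ) (τ := Fin r × Finset (Fin n))
    have b3 := hA _ n r d δ _ b1 b2 hd t a0 a3 univ (i + 1)
      (fun _ q _ => Nat.cast_ne_zero.2 q.succ_ne_zero) (by exact_mod_cast a5)
    have b4 := pz_succ n d univ (i + 1 : ℕ)
    rw [show ((i + 1 : ℕ) : ℤ) - 1 = i by push_cast; ring, pz_nat, pz_nat, pz_nat] at b4
    have b5 : al (n + 1) d univ (i + 1) = al n d univ (i + 1) + al n d univ i := by exact_mod_cast b4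
    have := ih i a5
    omega

theorem main (H : Van0) (D : ℕ) {ε : ℝ} (h0 : 0 < ε) : ∃ C : ℝ, 0 < C ∧
    ∀ (K : Type) [Field K] [Infinite K] (n r : ℕ) (d : Fin r → ℕ), (∀ i, 2 ≤ d i ∧ d i ≤ D) →
    Gen fun c : Fin r × Finset (Fin n) → K => ∀ j J : ℕ, C * J ≤ n →
      ((ringChar K = 0 ∨ ∀ i, j < ringChar K * d i) ∧ (1 + ε) * j + C ≤ J ∧
          truncCoeff (series n d univ) J ≠ 0 ∨
        (1 + ε) * J + C ≤ j ∧ truncCoeff (series n d univ) J = 0) →
      (hilb d c j : ℤ) = truncCoeff (series n d univ) j := by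
  obtain ⟨η0, y0, hV⟩ := van H D h0
  obtain ⟨e, e0, e1, e2⟩ : ∃ e : ℝ, 0 < e ∧ e ≤ 1 ∧ e ≤ ε :=
    ⟨min 1 ε, lt_min one_pos h0, min_le_left _ _, min_le_right _ _⟩
  obtain ⟨η, y1, y2, y3⟩ : ∃ η : ℝ, 0 < η ∧ η ≤ η0 ∧ η ≤ e / 24 :=
    ⟨min η0 (e / 24), lt_min y0 (by linarith), min_le_left _ _, min_le_right _ _⟩
  obtain ⟨t0, t1, hA⟩ := exact y1 (by linarith)
  obtain ⟨t2, t3, hP⟩ := posi y1 (by linarith)
  obtain ⟨u, u0, u1, u2, u3⟩ : ∃ u : ℝ, 0 < u ∧ u ≤ 1 ∧ u ≤ t0 ∧ u ≤ t2 :=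
    ⟨min 1 (min t0 t2), lt_min one_pos (lt_min t1 t3), min_le_left _ _,
      min_le_of_right_le (min_le_left _ _), min_le_of_right_le (min_le_right _ _)⟩
  obtain ⟨B, hB⟩ := hV η u y1 y2 u0
  obtain ⟨k, hk⟩ := cut (ε := e / 3) (by linarith) (by linarith)
  obtain ⟨C, C1, C2, C3⟩ : ∃ C : ℝ, k * D + 1 ≤ C ∧ 16 / u ≤ C ∧ 3 * |B| + (1 + ε) ≤ C := by
    have a : (0 : ℝ) ≤ k * D := by positivity
    have b : 0 ≤ 16 / u := by positivity
    exact ⟨k * D + 1 + 16 / u + (3 * |B| + (1 + ε)), by linarith [abs_nonneg B],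
      by linarith [abs_nonneg B], by linarith⟩
  have C0 : 1 ≤ C := by linarith [show (0 : ℝ) ≤ k * D by positivity]
  refine ⟨C, by linarith, fun K _ _ n r d hD => ?_⟩
  let τ := Fin r × Finset (Fin n)
  let L := FractionRing (MvPolynomial τ K)
  choose δ h1 h3 using exists_der (K := K) (τ := τ)
  have hd : ∀ l, 0 < d l := fun l => by have := (hD l).1; omega
  have g1 : Gen fun c : τ → K => ∀ j ∈ range (n + 1), ∀ A ∈ (univ : Finset (Finset (Fin r))),
      finrank K (WF j d A c) ≤ finrank L (WF j d A (gp K (τ := τ))) :=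
    Gen.all _ fun j _ => Gen.all _ fun A _ =>
      (gen_WF j fun i => if i ∈ A then d i else n + 1).mono fun c hc => by
        rwa [WF_sub, WF_sub] at hc
  have g2 : Gen fun c : τ → K => ∀ j ∈ range (n + 1), ∀ J ∈ range (n + 2), B * (J + 1) ≤ n ∧
      (∀ t : ℝ, 0 < t → t ≤ u → (1 - η) * n * t - (1 + η) * ∑ l, d l * t ^ d l ≤ J) ∧
      (1 + ε) * J + B ≤ j → hilb d c j = 0 :=
    Gen.all _ fun j _ => Gen.all _ fun J _ => by
      by_cases h : B * (J + 1) ≤ n ∧
        (∀ t : ℝ, 0 < t → t ≤ u → (1 - η) * n * t - (1 + η) * ∑ l, d l * t ^ d l ≤ J) ∧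
        (1 + ε) * J + B ≤ j
      · exact (hB K n r d hD J j h.1 h.2.1 h.2.2).mono fun c hc _ => hc
      · exact Gen.of_forall fun c h' => absurd h' h
  refine (g1.and g2).mono ?_
  rintro c ⟨c1, c2⟩
  have n0 : (0 : ℝ) ≤ n := n.cast_nonneg
  have E : ∀ s : ℝ, 0 < s → s ≤ u → ∀ A (i : ℕ),
      (∀ l q, (q + 1) * d l ≤ i → ((q + 1 : ℕ) : L) ≠ 0) → (i : ℝ) < (1 - η) * n * s - (1 + η) * ∑ l, d l * s ^ d l →
      (finrank K (WF i d A c) : ℤ) = al n d A i := by
    intro s s0 s1 A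
    induction A using Finset.induction_on with
    | empty => intro i _ _; rw [finrank_WF_empty]; simp
    | insert l A hl ih =>
      intro i hq hi
      refine le_antisymm ?_ ?_
      · have a1 : ∑ l ∈ insert l A, (d l : ℝ) * s ^ d l ≤ ∑ l, d l * s ^ d l :=
          sum_le_sum_of_subset_of_nonneg (subset_univ _) fun l _ _ => by positivity
        have a2 : 0 ≤ ∑ l, (d l : ℝ) * s ^ d l := sum_nonneg fun l _ => by positivity
        have a3 : (i : ℝ) ≤ n := by
          nlinarith [mul_le_mul_of_nonneg_left (s1.trans u1) n0, mul_nonneg n0 s0.le]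
        rw [← hA L n r d δ _ h1 h3 (fun l => (hD l).1) s s0 (s1.trans u2) _ i hq (by nlinarith)]
        exact_mod_cast c1 i (mem_range.2 (Nat.lt_succ_of_le (by exact_mod_cast a3))) _ (mem_univ _)
      · have := lower_step i d A l c
        rw [al_insert n d hl, ← ih i hq hi, ← ih (i - d l) (fun l q h => hq l q (by omega))
          (lt_of_le_of_lt (by exact_mod_cast Nat.sub_le _ _) hi)]
        split_ifs at this ⊢ <;> omega
  have et : ∀ j, truncCoeff (series n d univ) j =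
      if ∀ i ≤ j, 0 < al n d univ i then al n d univ j else 0 := fun j => by
    unfold truncCoeff
    congr
  have f1 : ∀ i j : ℕ, (1 + ε) * i + C ≤ j → i ≤ j := fun i j h => by
    have : (i : ℝ) ≤ j := by nlinarith [i.cast_nonneg (α := ℝ)]
    exact_mod_cast this
  intro j J hJn h
  have J0 : (0 : ℝ) ≤ J := J.cast_nonneg
  simp only [et] at h ⊢
  rcases h with ⟨hq, h, hJ⟩ | ⟨h, hJ⟩
  · have hp : ∀ i ≤ J, 0 < al n d univ i := by
      by_contra hh
      exact hJ (if_neg hh)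
    have j0 : (0 : ℝ) ≤ j := j.cast_nonneg
    have j1 : (1 + e) * j ≤ (1 + ε) * j := by gcongr
    rw [if_pos fun i hi => hp i (hi.trans (f1 j J h)), hilb_eq]
    obtain ⟨t, a0, a1, a2⟩ := hk n r D J d univ hD (by
      have : (k : ℝ) * D < J := by nlinarith
      exact_mod_cast this) hp
    obtain ⟨s, b0, b1, b2⟩ := scale y1 (by linarith) (fun l => (hD l).1) univ n0 a0
    have J1 : (0 : ℝ) < J := by nlinarith
    refine E s b0 (b1.trans ?_) univ j (fun l q a3 a4 => ?_) (lt_of_lt_of_le ?_ b2)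
    · rw [div_le_iff₀ u0] at C2
      refine le_of_mul_le_mul_right ?_ (mul_pos (show 0 < C by linarith) J1)
      nlinarith [mul_le_mul_of_nonneg_left hJn a0.le, mul_le_mul_of_nonneg_right C2 J0]
    · rw [← map_natCast (algebraMap K L), map_eq_zero, ringChar.spec] at a4
      rcases hq with hq | hq
      · exact q.succ_ne_zero (zero_dvd_iff.1 (hq ▸ a4))
      · exact (hq l).not_ge ((Nat.mul_le_mul_right _ (Nat.le_of_dvd q.succ_pos a4)).trans a3)
    have a3 : 0 ≤ ∑ l, (d l : ℝ) * t ^ d l := sum_nonneg fun l _ => by positivity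
    have a4 : 1 - 6 * η ≤ ((1 - η) / (1 + η)) ^ 3 := by
      refine le_trans ?_ (pow_le_pow_left₀ (show 0 ≤ 1 - 2 * η by linarith) ?_ 3)
      · linarith [one_add_mul_le_pow (a := -(2 * η)) (by linarith) 3, show (1 + -(2 * η)) ^ 3 =
          (1 - 2 * η) ^ 3 by ring, show ((3 : ℕ) : ℝ) * -(2 * η) = -(6 * η) by push_cast; ring]
      · rw [le_div_iff₀ (by linarith)]
        nlinarith
    generalize ∑ l, (d l : ℝ) * t ^ d l = S at *
    have a5 : (1 + e) * j < (1 + e / 3) * (n * t - S) := by linarith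
    have a6 : 0 < n * t - S := pos_of_mul_pos_right (a := 1 + e / 3) (by nlinarith) (by linarith)
    refine lt_of_lt_of_le ?_ (mul_le_mul (show 1 - e / 4 ≤ _ by linarith)
      (show n * t - S ≤ _ by nlinarith [mul_nonneg n0 a0.le]) a6.le (by linarith))
    refine lt_of_mul_lt_mul_left (a5.trans_le ?_) (show 0 ≤ 1 + e by linarith)
    rw [← mul_assoc]
    exact mul_le_mul_of_nonneg_right (by nlinarith) a6.le
  have hp : ¬ ∀ i ≤ J, 0 < al n d univ i := fun hh => (hh J le_rfl).ne' (by rwa [if_pos hh] at hJ)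
  have Jj := f1 J j h
  rw [if_neg fun hh => hp fun i hi => hh i (hi.trans Jj), Int.natCast_eq_zero]
  rcases lt_or_ge n j with hn' | hn'
  · have := finrank_WF_le j d univ c
    rwa [Fintype.card_fin, Nat.choose_eq_zero_of_lt hn', Nat.le_zero, ← hilb_eq] at this
  push Not at hp
  obtain ⟨i, hi, hp⟩ := hp
  have i0 : i ≠ 0 := by
    rintro rfl
    rw [al_zero n hd] at hp
    omega
  have J1 : (1 : ℝ) ≤ J := by exact_mod_cast (show 1 ≤ J by omega)
  refine c2 j (mem_range.2 (by omega)) (J + 1) (mem_range.2 (by omega)) ⟨?_, fun t a4 a5 => ?_, ?_⟩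
  · push_cast
    linarith [mul_le_mul_of_nonneg_right (le_abs_self B) (show 0 ≤ (J : ℝ) + 1 + 1 by linarith),
      mul_le_mul_of_nonneg_left J1 (abs_nonneg B), mul_le_mul_of_nonneg_right C3 J0,
      mul_nonneg (show 0 ≤ 1 + ε by linarith) J0]
  · exact (not_lt.1 fun h => (hP r d (fun l => (hD l).1) t a4 (a5.trans u3) n i h).not_ge hp).trans
      (by exact_mod_cast Nat.succ_le_succ hi)
  · push_cast
    linarith [le_abs_self B, abs_nonneg B]

end Pool.Agent.P.MP_3acc10_al.Sh
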