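import Pool.Agent.P.MP_3acc10_al.WnPot

set_option autoImplicit false

namespace Pool.Agent.P.MP_3acc10_al.Wn

open Finset Module Hd Real

lemma num_out {β α γ σ ω κ : ℝ} {d m q : ℕ} {i : ℤ} (hd : 0 < d) (g0 : 0 < γ) (g1 : γ ≤ 1)
    (hω : exp (-ω) = γ / 2) (hβ : β * σ = 2 + ω) (b0 : 0 ≤ β) (s1 : σ ≤ 1) (hα : α = (1 - σ) * γ)
    (hκ : (γ / exp 1) ^ d ≤ κ) (hi : γ * m < i) :
    ch m (i - (q + 1 : ℕ) * d) ≤ κ * Ph β α 0 m i / 2 ^ (q + 1) := by
  have k0 : 0 ≤ κ := le_trans (by positivity) hκ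
  rcases lt_or_ge i ((q + 1 : ℕ) * d) with h | h
  · rw [ch_neg _ (by omega), Ph]; positivity
  have h1 : (d : ℝ) ≤ i := by
    have : (d : ℤ) ≤ i := le_trans (by push_cast; nlinarith [show (0 : ℤ) ≤ q * d by positivity]) h
    exact_mod_cast this
  have h2 : (0 : ℝ) ≤ d := d.cast_nonneg
  refine (ch_exp ω m _).trans ?_
  have e1 : exp (exp (-ω) * m + ω * (i - (q + 1 : ℕ) * d : ℤ)) =
      exp (γ / 2 * m + ω * i) * (γ / 2) ^ ((q + 1) * d) := by
    conv_rhs => rw [← hω]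
    rw [← exp_nat_mul, ← exp_add]; push_cast; congr 1; ring
  have e2 : (γ / 2) ^ ((q + 1) * d) ≤ γ ^ d / 2 ^ (q + 1) := by
    rw [div_pow]
    exact div_le_div₀ (by positivity) (pow_le_pow_of_le_one g0.le g1 (by nlinarith))
      (by positivity) (pow_le_pow_right₀ (by norm_num) (by nlinarith))
  have e3 : exp (γ / 2 * m + ω * i) * exp 1 ^ d ≤ Ph β α 0 m i := by
    rw [← exp_nat_mul, ← exp_add, Ph, exp_le_exp, hα]
    have : ω * i = β * σ * i - 2 * i := by rw [hβ]; ring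
    nlinarith [mul_nonneg (mul_nonneg b0 (sub_nonneg.2 s1)) (sub_nonneg.2 hi.le)]
  have e4 : γ ^ d ≤ κ * exp 1 ^ d := by rwa [div_pow, div_le_iff₀ (by positivity)] at hκ
  rw [e1]
  refine (mul_le_mul_of_nonneg_left e2 (exp_pos _).le).trans ?_
  rw [← mul_div_assoc]
  refine div_le_div_of_nonneg_right ?_ (by positivity)
  nlinarith [mul_le_mul_of_nonneg_left e4 (exp_pos (γ / 2 * m + ω * i)).le,
    mul_le_mul_of_nonneg_left e3 k0]

lemma num_inn {σ lam γ : ℝ} {n J d m : ℕ} {i : ℤ} (s0 : 0 < σ) (s1 : σ ≤ 1 / 2) (hl : 1 ≤ lam)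
    (hJ0 : 0 < J) (hJ : J ≤ n) (hγ : γ = (1 - σ) ^ 3 * (J / n) / lam) (hD : (1 - σ) ^ 3 ≤ σ * d)
    (hm : m ≤ n) (hd : d ≤ J) (h1 : (d : ℤ) ≤ i) (h2 : i ≤ γ * m) : ∃ (j0 : ℤ) (z : ℕ),
      i ≤ j0 ∧ (z : ℤ) ≤ j0 ∧ j0 ≤ m ∧ γ * (m + 1) ≤ j0 - z + 1 ∧ σ * j0 ≤ z ∧
      lam ^ d * ch m (j0 - d) * ch n J ≤ ch n (J - d) * ch m j0 := by
  have n0 : (0 : ℝ) < n := by exact_mod_cast (show 0 < n by omega)
  have a1 : (J : ℝ) ≤ n := by exact_mod_cast hJ
  have a2 : (m : ℝ) ≤ n := by exact_mod_cast hm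
  have a3 : (d : ℝ) ≤ i := by exact_mod_cast h1
  have a4 : (d : ℝ) ≤ J := by exact_mod_cast hd
  obtain ⟨ν, hν⟩ : ∃ ν : ℝ, ν = m / n := ⟨_, rfl⟩
  obtain ⟨μ, hμ⟩ : ∃ μ : ℝ, μ = ν * J / lam := ⟨_, rfl⟩
  obtain ⟨t, ht⟩ : ∃ t : ℝ, t = 1 - σ := ⟨_, rfl⟩
  rw [← ht] at hγ hD
  have t0 : 0 < t := by linarith
  have t1 : t ≤ 1 := by linarith
  have v0 : 0 ≤ ν := by rw [hν]; positivity
  have v1 : ν ≤ 1 := by rwa [hν, div_le_one n0]
  have v2 : ν * n = m := by rw [hν]; field_simp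
  have m0 : 0 ≤ μ := by rw [hμ]; positivity
  have m1 : lam * μ = ν * J := by rw [hμ]; field_simp
  have m2 : γ * m = t ^ 3 * μ := by rw [hγ, hμ, hν]; field_simp
  have m3 : 1 ≤ σ * μ := le_of_mul_le_mul_left (a := t ^ 3)
    (by linarith [mul_le_mul_of_nonneg_left (a3.trans (h2.trans m2.le)) s0.le]) (by positivity)
  have m4 : μ ≤ ν * J := m1 ▸ le_mul_of_one_le_left m0 hl
  have m5 : γ ≤ t ^ 2 := by
    rw [hγ]
    refine (div_le_self (by positivity) hl).trans ?_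
    refine (mul_le_of_le_one_right (by positivity) (by rwa [div_le_one n0])).trans ?_
    exact pow_le_pow_of_le_one t0.le t1 (by norm_num)
  have c0 := Int.le_ceil (t * μ)
  have c1 := Int.ceil_lt_add_one (t * μ)
  generalize ⌈t * μ⌉ = j0 at c0 c1
  have c2 : (j0 : ℝ) ≤ μ := by rw [ht] at c1; linarith
  have c3 : (0 : ℝ) ≤ j0 := le_trans (by positivity) c0
  have d0 := Nat.le_ceil (σ * j0)
  have d1 := Nat.ceil_lt_add_one (show 0 ≤ σ * j0 by positivity)
  generalize ⌈σ * j0⌉₊ = z at d0 d1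
  have f0 : (i : ℝ) ≤ j0 := by
    refine h2.trans (m2.le.trans (le_trans (mul_le_mul_of_nonneg_right ?_ m0) c0))
    simpa using pow_le_pow_of_le_one t0.le t1 (show 1 ≤ 3 by norm_num)
  have f1 : i ≤ j0 := by exact_mod_cast f0
  have f2 : (j0 : ℝ) ≤ m := by linarith [mul_le_mul_of_nonneg_left a1 v0]
  have f3 : j0 ≤ m := by exact_mod_cast f2
  refine ⟨j0, z, f1, ?_, f3, ?_, d0, ch_cmp (by linarith) (by exact_mod_cast hJ) f3 d (by omega)
    fun s hs => ?_⟩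
  · have : (z : ℝ) < j0 + 1 := by
      linarith [mul_le_of_le_one_left c3 (show σ ≤ 1 by linarith)]
    have : (z : ℤ) < j0 + 1 := by exact_mod_cast this
    omega
  · have := mul_le_mul_of_nonneg_left m3 (show 0 ≤ t ^ 2 by positivity)
    have := mul_le_mul_of_nonneg_left c0 t0.le
    have : t ^ 3 * μ + t ^ 2 * (σ * μ) = t * (t * μ) := by rw [ht]; ring
    have : t * j0 = j0 - σ * j0 := by rw [ht]; ring
    linarith
  · have s0 : (0 : ℝ) ≤ s := s.cast_nonneg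
    have s1 : (s : ℝ) < d := by exact_mod_cast hs
    push_cast
    have b1 : lam * (j0 - s) ≤ ν * (J - s) := by
      linarith [mul_le_mul_of_nonneg_left c2 (show 0 ≤ lam by linarith),
        mul_le_mul_of_nonneg_right (v1.trans hl) s0]
    have b2 : ν * (n - J + s + 1) ≤ m - j0 + s + 1 := by
      linarith [mul_le_of_le_one_left (show (0 : ℝ) ≤ s + 1 by linarith) v1]
    linarith [mul_le_mul_of_nonneg_right b1 (show (0 : ℝ) ≤ n - J + s + 1 by linarith),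
      mul_le_mul_of_nonneg_left b2 (show (0 : ℝ) ≤ J - s by linarith)]

variable {L : Type*} [Field L] {n : ℕ} {ι : Type*} [DecidableEq ι]

omit [DecidableEq ι] in
lemma WM_univ (d : ι → ℕ) (c : ι × Finset (Fin n) → L) (A : Finset ι) (i : ℕ) :
    WM (Gm d c) univ A i = WF i d A c := by
  unfold WM WF Gm
  congr 1
  ext X
  simp

theorem exact [CharZero L] [Fintype ι] {δ : ι × Finset (Fin n) → L →+ L}
    (hδ : ∀ p x y, δ p (x * y) = x * δ p y + δ p x * y) {c : ι × Finset (Fin n) → L}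
    (hc : ∀ p q, δ p (c q) = if q = p then 1 else 0) {d : ι → ℕ} (hd : ∀ l, 0 < d l) {J : ℕ}
    (hJ0 : 0 < J) (hJ : J ≤ n) {σ lam Λ : ℝ} (s0 : 0 < σ) (s1 : σ ≤ 1 / 2) (hl : 1 ≤ lam)
    (hΛ : 7 * exp (3 / σ) ≤ Λ) (hx : ∀ l, ch n (J - d l) ≤ ch n J)
    (hD : ∀ l, (1 - σ) ^ 3 ≤ σ * d l) (N1 : ∀ l, 64 * Λ * (6 + log lam) ≤ σ ^ 2 * lam ^ d l)
    (N2 : 24 * Λ * lam * ∑ l, ch n (J - d l) / ch n J / lam ^ d l < σ ^ 2 * (1 - σ) ^ 4 * J)
    (A : Finset ι) (i : ℕ) (hi : i * lam ≤ (1 - σ) ^ 5 * J) :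
    (finrank L (WF i d A c) : ℤ) = al n d A i := by
  have n0 : (0 : ℝ) < n := by exact_mod_cast (show 0 < n by omega)
  have J0 : (0 : ℝ) < J := by exact_mod_cast hJ0
  have p0 : 0 < ch n J := ch_pos (by omega) (by omega)
  obtain ⟨a, ha⟩ : ∃ a : ℝ, a = J / n := ⟨_, rfl⟩
  obtain ⟨t, ht⟩ : ∃ t : ℝ, t = 1 - σ := ⟨_, rfl⟩
  obtain ⟨γ, hγ⟩ : ∃ γ : ℝ, γ = t ^ 3 * a / lam := ⟨_, rfl⟩
  obtain ⟨ω, hω⟩ : ∃ ω : ℝ, ω = log (2 / γ) := ⟨_, rfl⟩
  obtain ⟨β, hβ⟩ : ∃ β : ℝ, β = (2 + ω) / σ := ⟨_, rfl⟩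
  have a0 : 0 < a := by rw [ha]; positivity
  have a1 : a ≤ 1 := by rw [ha, div_le_one n0]; exact_mod_cast hJ
  have t0 : 1 / 2 ≤ t := by linarith
  have t1 : t ≤ 1 := by linarith
  have t2 : t ^ 3 ≤ 1 := pow_le_one₀ (by linarith) t1
  have l0 : 0 < lam := by linarith
  have g0 : 0 < γ := by rw [hγ]; positivity
  have g2 : γ ≤ a / lam := by
    rw [hγ]; exact div_le_div_of_nonneg_right (mul_le_of_le_one_left a0.le t2) l0.le
  have g1 : γ ≤ 1 := g2.trans ((div_le_self a0.le hl).trans a1)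
  have o0 : 0 ≤ ω := by rw [hω]; exact log_nonneg (by rw [le_div_iff₀ g0]; linarith)
  have o1 : exp (-ω) = γ / 2 := by rw [exp_neg, hω, exp_log (by positivity), inv_div]
  have o2 : γ * ω ≤ 2 - γ := by
    have := mul_le_mul_of_nonneg_left (log_le_sub_one_of_pos (show 0 < 2 / γ by positivity)) g0.le
    rwa [← hω, mul_sub, mul_div_cancel₀ _ g0.ne', mul_one] at this
  have o3 : a * (2 + ω) ≤ 6 + log lam := by
    have e1 : 2 / γ ≤ 16 / a * lam := by
      have : (1 / 2 : ℝ) ^ 3 ≤ t ^ 3 := pow_le_pow_left₀ (by norm_num) t0 3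
      rw [hγ, div_le_iff₀ (by positivity)]
      have : 16 / a * lam * (t ^ 3 * a / lam) = 16 * t ^ 3 := by field_simp
      linarith
    have e2 := log_le_log (by positivity) e1
    rw [← hω, log_mul (by positivity) l0.ne', show 16 / a = 2 ^ 4 * a⁻¹ by ring,
      log_mul (by positivity) (by positivity), log_pow] at e2
    have e3 := mul_le_mul_of_nonneg_left (log_le_sub_one_of_pos (inv_pos.2 a0)) a0.le
    rw [mul_sub, mul_inv_cancel₀ a0.ne'] at e3
    have e4 := log_two_lt_d9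
    have e5 := mul_le_of_le_one_left (log_nonneg hl) a1
    have e6 := mul_le_of_le_one_left (log_nonneg (show (1 : ℝ) ≤ 2 by norm_num)) a1
    push_cast at e2
    linarith [mul_le_mul_of_nonneg_left e2 a0.le]
  have b1 : β * σ = 2 + ω := by rw [hβ]; field_simp
  have b0 : 0 < β := by rw [hβ]; positivity
  have b2 : 2 + ω ≤ β := b1 ▸ mul_le_of_le_one_right b0.le (by linarith)
  have L0 : 7 ≤ Λ := by linarith [one_le_exp (show 0 ≤ 3 / σ by positivity)]
  have c0 : 1 ≤ 8 * Λ * (β / σ) := by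
    have : 1 ≤ β / σ := by rw [le_div_iff₀ s0]; linarith
    exact one_le_mul_of_one_le_of_one_le (by linarith) this
  have x0 : ∀ l, 0 ≤ ch n (J - d l) / ch n J / lam ^ d l := fun l =>
    div_nonneg (div_nonneg (ch_nonneg _ _) p0.le) (by positivity)
  have x1 : ∀ l, d l ≤ J → (γ / exp 1) ^ d l ≤
      8 * Λ * (β / σ) * (ch n (J - d l) / ch n J / lam ^ d l) := by
    intro l h
    refine le_trans ?_ (le_mul_of_one_le_left (x0 l) c0)
    rw [le_div_iff₀ (by positivity), le_div_iff₀ p0, ← mul_pow]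
    refine le_trans (mul_le_mul_of_nonneg_right (pow_le_pow_left₀ (by positivity) ?_ _) p0.le)
      (ch_low (hd l) h hJ)
    rw [← ha, div_mul_eq_mul_div]
    exact div_le_div_of_nonneg_right ((le_div_iff₀ l0).1 g2) (exp_pos 1).le
  have hi' : (i : ℝ) ≤ t ^ 5 * J / lam := by rwa [le_div_iff₀ l0, ht]
  have hiJ : (i : ℝ) ≤ J := hi'.trans ((div_le_self (by positivity) hl).trans
    (mul_le_of_le_one_left J0.le (pow_le_one₀ (by linarith) t1)))
  have H := core hδ hc hd (J := J) (β := β) (α := t * γ) (γ := γ) (C := 1 / β) (e := σ / β) (ω := ω)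
    (Λ := Λ) (κ := fun l => 8 * Λ * (β / σ) * (ch n (J - d l) / ch n J / lam ^ d l)) g1
    (by positivity) (by positivity) (by positivity) (by linarith) ?_ (by linarith) ?_
    (fun l => ⟨mul_nonneg (by linarith) (x0 l), ?_⟩) (fun l h => le_trans ?_ (x1 l h))
    (fun l m q i h h' => num_out (hd l) g0 g1 o1 b1 b0.le (by linarith) (by rw [ht]) (x1 l h) h')
    (fun l m i h0 h1 h2 h3 => ?_) univ A i (by exact_mod_cast hiJ)
  · rw [wd, WM_univ, card_univ, Fintype.card_fin, pz_nat] at H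
    have H1 := H.trans_lt (exp_lt_one_iff.2 (show _ < 0 from ?_))
    · have : |(finrank L (WF i d A c) : ℤ) - al n d A i| < 1 := by exact_mod_cast H1
      rwa [Int.abs_lt_one_iff, sub_eq_zero] at this
    have e1 := sum_le_sum_of_subset_of_nonneg (subset_univ A) fun l _ _ => x0 l
    have e2 : t * γ * n = t ^ 4 * J / lam := by rw [hγ, ha]; field_simp
    have e3 : t ^ 5 * J / lam = t ^ 4 * J / lam - σ * (t ^ 4 * J / lam) := by rw [ht]; ring
    have e4 : 24 * Λ / σ * ∑ l, ch n (J - d l) / ch n J / lam ^ d l < σ * (t ^ 4 * J / lam) := by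
      rw [div_mul_eq_mul_div, ← mul_div_assoc, div_lt_div_iff₀ s0 l0, ht]
      linarith
    have e5 := mul_le_mul_of_nonneg_left e1 (show 0 ≤ 24 * Λ / σ by positivity)
    rw [← mul_sum, e2, Int.cast_natCast]
    have e6 := mul_pos b0 (show 0 < t ^ 4 * J / lam - i -
      24 * Λ / σ * ∑ l ∈ A, ch n (J - d l) / ch n J / lam ^ d l by linarith)
    linear_combination e6
  · rw [o1, show β * (t * γ) - (β - ω) * γ = -(2 * γ) by
      rw [ht]; linear_combination (-γ) * b1, exp_neg, inv_mul_le_iff₀ (exp_pos _)]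
    linarith [add_one_le_exp (2 * γ)]
  · have e1 : β * (t * γ) + (β - ω) * (1 / β) ≤ 1 + 3 / σ := by
      have : β * γ ≤ 3 / σ := by
        rw [le_div_iff₀ s0, mul_right_comm, b1]; linarith
      have : (β - ω) * (1 / β) ≤ 1 := by rw [mul_one_div, div_le_one b0]; linarith
      linarith [mul_le_of_le_one_left (mul_pos b0 g0).le t1]
    have e2 := exp_le_exp.2 e1
    rw [exp_add 1] at e2
    linarith [mul_le_mul_of_nonneg_right (show exp 1 ≤ 3 by linarith [exp_one_lt_d9])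
      (exp_pos (3 / σ)).le, one_le_exp (show 0 ≤ 3 / σ by positivity)]
  · have e1 : ch n (J - d l) / ch n J ≤ 2 * a := by
      rw [div_le_iff₀ p0, ha, mul_div_assoc', div_mul_eq_mul_div, le_div_iff₀ n0]
      exact ch_two (hd l) (hx l)
    have e2 : 8 * Λ * (β / σ) * (2 * a / lam ^ d l) ≤ 1 / 4 := by
      rw [hβ, show 8 * Λ * ((2 + ω) / σ / σ) * (2 * a / lam ^ d l) =
        16 * Λ * (a * (2 + ω)) / (σ ^ 2 * lam ^ d l) by field_simp; ring,
        div_le_iff₀ (by positivity)]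
      linarith [N1 l, mul_le_mul_of_nonneg_left o3 (show 0 ≤ Λ by linarith)]
    refine le_trans (mul_le_mul_of_nonneg_left ?_ (by linarith)) e2
    exact div_le_div_of_nonneg_right e1 (by positivity)
  · rw [neg_mul_eq_neg_mul, mul_comm, exp_nat_mul]
    refine pow_le_pow_left₀ (exp_pos _).le ((exp_le_exp.2 (show -β ≤ -ω - 1 by linarith)).trans ?_) _
    rw [exp_sub, o1]
    exact div_le_div_of_nonneg_right (by linarith) (exp_pos 1).le
  · obtain ⟨j0, z, r0, r1, r2, r3, r4, r5⟩ := num_inn s0 s1 hl hJ0 hJ (γ := γ)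
      (by rw [hγ, ht, ha]) (hD l) h0 h1 h2 h3
    refine ⟨j0, z, r0, r1, r2, r3, ?_, ?_⟩
    · rw [div_mul_eq_mul_div, mul_one_div]; exact div_le_div_of_nonneg_right r4 b0.le
    · have e1 : ch m (j0 - d l) ≤ ch n (J - d l) / ch n J / lam ^ d l * ch m j0 := by
        rw [div_div, div_mul_eq_mul_div, le_div_iff₀ (by positivity)]
        linarith
      have e2 : σ / β ≤ 1 := by rw [div_le_one b0]; linarith
      rw [show 8 * Λ * (β / σ) * (ch n (J - d l) / ch n J / lam ^ d l) * (σ / β * ch m j0) =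
        4 * Λ * (2 * (ch n (J - d l) / ch n J / lam ^ d l * ch m j0)) by field_simp; ring]
      refine mul_le_mul_of_nonneg_left ?_ (by linarith)
      exact mul_le_mul (by linarith) e1 (ch_nonneg _ _) (by norm_num)

end Pool.Agent.P.MP_3acc10_al.Wn
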