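import Pool.Agent.P.MP_3acc10_al.SqExp
import Pool.Agent.P.MP_3acc10_al.WnNum

set_option autoImplicit false

namespace Pool.Agent.P.MP_3acc10_al.Sh

open Finset Module Hd Wn Real

variable {L : Type*} [Field L] {n : ℕ} {ι : Type*} [DecidableEq ι]

lemma wd_low {d : ι → ℕ} {c : ι × Finset (Fin n) → L} {M : Finset (Fin n)} {A : Finset ι} {l : ι}
    (i : ℤ) : wd (Gm d c) M A i ≤ wd (Gm d c) M (insert l A) i + wd (Gm d c) M A (i - d l) := by
  have h := rank_null (WM (Gm d c) M A i) (fE d c l)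
  have a : (WM (Gm d c) M A i).map (fE d c l) ≤ WM (Gm d c) M A (i - d l) := by
    rintro _ ⟨F, hF, rfl⟩
    exact fE_mem hF
  have b : WM (Gm d c) M A i ⊓ LinearMap.ker (fE d c l) ≤ WM (Gm d c) M (insert l A) i :=
    fun F hF => mem_ins.2 ⟨hF.1, hF.2⟩
  have a := le_wd a
  have b := le_wd b
  rw [wd, ← h]
  push_cast
  linarith

/-- the weight of the first step -/
noncomputable def ta (g : ℝ) (d : ℕ) : ℝ := g ^ (d - 1) * d + g ^ d * (d + 1)

lemma top' {G : ι → Finset (Fin n) → L} {d : ι → ℕ} {A : Finset ι} {M : Finset (Fin n)}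
    {β ω γ g t S : ℝ} (g0 : 0 ≤ γ) (g1 : γ < 1) (hg : γ = g * (1 - γ)) (ht : exp (-ω) = t)
    (k0 : t ≤ 1 / 4) (k1 : ω ≤ β) (k2 : β * t + t ≤ (β - ω) * γ) (k3 : exp (β * t) ≤ 4 / 3)
    (hM : 0 < M.card) {j : ℤ} (hE : ∀ M' : Finset (Fin n), M'.card < M.card → ∀ i ≤ j,
      wd G M' A i ≤ pz M'.card d A i + Ph β t S M'.card i)
    {e : ℕ} (he : 0 < e) {X Y : Submodule L (Finset (Fin n) → L)}
    (hj : (j : ℝ) ≤ γ * M.card) (hX : X ≤ WM G M A (j - e)) (hY : Y ≤ WM G M A j)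
    (h : Con M e Y X) : wd G M A (j - e) - finrank L X ≤ ta g e *
      (pz M.card d A j - finrank L Y + exp (β * t) * (1 + 2 * t) * Ph β t S M.card j) := by
  obtain ⟨e, rfl⟩ : ∃ k, e = k + 1 := ⟨e - 1, by omega⟩
  obtain ⟨m, hm⟩ : ∃ k, M.card = k + 1 := ⟨M.card - 1, by omega⟩
  rw [hm] at hE hj ⊢
  have t0 : 0 < t := ht ▸ exp_pos _
  let F : ℕ → ℤ → ℝ → ℝ := fun m j Δ => exp ((β - ω) * Δ + (β * (j - t * m) + S))
  have F0 : ∀ m j Δ, 0 < F m j Δ := fun _ _ _ => exp_pos _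
  obtain ⟨a, ha⟩ : ∃ a, a = exp (β * t - (β - ω) * γ) := ⟨_, rfl⟩
  have a0 : 0 < a := ha ▸ exp_pos _
  have a1 : a * (1 + t) ≤ 1 := by
    refine (mul_le_mul_of_nonneg_left (show 1 + t ≤ exp t by linarith [add_one_le_exp t])
      a0.le).trans ?_
    rw [ha, ← exp_add, exp_le_one_iff]
    linarith
  have e0 : ∀ m j Δ, F m j (Δ - γ) = F (m + 1) j Δ * a := fun m j Δ => by
    rw [ha, ← exp_add]; simp only [F]; push_cast; congr 1; ring
  have e1 : ∀ m j Δ, F m (j - 1) (Δ - γ + 1) = F (m + 1) j Δ * (a * t) := fun m j Δ => by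
    rw [ha]
    nth_rw 2 [← ht]
    rw [← exp_add, ← exp_add]; simp only [F]; push_cast; congr 1; ring
  have e2 : ∀ m j Δ, 0 < Δ → Ph β t S m j ≤ F m j Δ := fun m j Δ h =>
    exp_le_exp.2 (le_add_of_nonneg_left (mul_nonneg (sub_nonneg.2 k1) h.le))
  have e3 : ∀ m j, Ph β t S m j = Ph β t S (m + 1) j * exp (β * t) := fun m j => by
    rw [Ph, Ph, ← exp_add]; push_cast; congr 1; ring
  have e4 : F m (j - 1) 1 = Ph β t S (m + 1) j * exp (β * t) * t := by
    nth_rw 3 [← ht]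
    rw [Ph, ← exp_add, ← exp_add]; simp only [F]; push_cast; congr 1; ring
  have := top (G := G) (A := A) (p := fun m => pz m d A) (Φ := Ph β t S)
    (Ξ := fun m j Δ => 2 * F m j Δ) g0 g1 hg (fun m => pz_succ m d A)
    (fun m j Δ h => by linarith [e2 m j Δ h, F0 m j Δ])
    (fun m j Δ _ => by
      rw [e0, e1]
      linarith [mul_le_mul_of_nonneg_left a1 (F0 (m + 1) j Δ).le])
    (fun m j Δ h => by
      rw [e1, e3]
      have b1 := mul_le_mul (e2 (m + 1) j Δ h) k3 (exp_pos _).le (F0 _ _ _).le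
      have b2 : a * t ≤ 1 / 4 := by nlinarith
      linarith [mul_le_mul_of_nonneg_left b2 (F0 (m + 1) j Δ).le, F0 (m + 1) j Δ])
    hm hE (by exact_mod_cast hj) hX hY h
  refine this.trans (le_of_eq ?_)
  rw [e4, e3 m j, ta, Nat.add_sub_cancel]
  push_cast
  ring

lemma sum_two {v : ℕ → ℝ} {a : ℝ} (ha : 0 ≤ a) (h0 : v 0 = 0)
    (h : ∀ q, v (q + 2) ≤ a / 2 ^ (q + 1)) (Q : ℕ) : ∑ q ∈ range (Q + 2), v q ≤ v 1 + a := by
  have : ∑ q ∈ range (Q + 2), v q ≤ v 1 + a - a / 2 ^ Q := by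
    induction Q with
    | zero => simp [h0, sum_range_succ]
    | succ Q ih =>
      have e : a / 2 ^ Q = 2 * (a / 2 ^ (Q + 1)) := by field_simp; ring
      rw [sum_range_succ]
      linarith [h Q]
  exact this.trans (sub_le_self _ (by positivity))

theorem pot {δ : ι × Finset (Fin n) → L →+ L}
    (hδ : ∀ p x y, δ p (x * y) = x * δ p y + δ p x * y) {c : ι × Finset (Fin n) → L}
    (hc : ∀ p q, δ p (c q) = if q = p then 1 else 0) {d : ι → ℕ} (hd : ∀ l, 0 < d l)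
    {i0 : ℤ} (hq : ∀ l (q : ℕ), ((q + 1) * d l : ℕ) ≤ i0 → ((q + 1 : ℕ) : L) ≠ 0)
    {β ω γ g t : ℝ} {b : ι → ℝ} (g0 : 0 ≤ γ) (g1 : γ < 1) (hg : γ = g * (1 - γ))
    (ht : exp (-ω) = t) (k0 : t ≤ 1 / 4) (k1 : ω ≤ β) (k2 : β * t + t ≤ (β - ω) * γ)
    (k3 : exp (β * t) ≤ 4 / 3) (k4 : ∀ l, ta g (d l) ≤ 1 / 4 ∧ t ^ d l ≤ ta g (d l) ∧
      3 * t ^ d l ≤ b l ∧ 1 + t ^ d l ≤ (1 + b l) *
        (1 - ta g (d l) * (exp (β * t) * (1 + 2 * t) - 1 + 12 * ta g (d l))))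
    (M : Finset (Fin n)) : ∀ (A : Finset ι), ∀ i ≤ i0,
      |wd (Gm d c) M A i - pz M.card d A i| ≤ Ph β t (∑ l ∈ A, b l) M.card i := by
  induction h : M.card using Nat.strong_induction_on generalizing M with
  | _ m ihm =>
  subst h
  have hP : ∀ S i, 0 < Ph β t S M.card i := fun S i => exp_pos _
  have t0 : 0 < t := ht ▸ exp_pos _
  have b0 : ∀ l, 0 ≤ b l := fun l => le_trans (by positivity) (k4 l).2.2.1
  intro A
  induction A using Finset.induction_on with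
  | empty => intro i _; simpa [wd_empty, pz_empty] using (hP _ _).le
  | insert l A hl ih =>
  obtain ⟨q0, q1, q2, q3⟩ := k4 l
  obtain ⟨T, hT⟩ : ∃ T, T = t ^ d l := ⟨_, rfl⟩
  obtain ⟨τ, hτ⟩ : ∃ τ, τ = ta g (d l) := ⟨_, rfl⟩
  obtain ⟨Λ, hΛ⟩ : ∃ Λ, Λ = exp (β * t) * (1 + 2 * t) := ⟨_, rfl⟩
  have T0 : 0 < T := by rw [hT]; positivity
  have Λ1 : Λ ≤ 2 := by rw [hΛ]; nlinarith [exp_pos (β * t)]
  have Λ0 : 0 < Λ := by rw [hΛ]; positivity
  have eT : exp (-(ω * d l)) = T := by rw [hT, ← ht, ← exp_nat_mul]; congr 1; ring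
  rw [← hT, ← hτ] at q1
  rw [← hT] at q2
  rw [← hτ] at q0
  rw [← hT, ← hτ, ← hΛ] at q3
  set S := ∑ l ∈ insert l A, b l with hS
  set S0 := ∑ l ∈ A, b l with hS0
  have r0 : ∀ i, Ph β t S0 M.card i * (1 + b l) ≤ Ph β t S M.card i := by
    intro i
    have : Ph β t S M.card i = Ph β t S0 M.card i * exp (b l) := by
      rw [Ph, Ph, ← exp_add, hS, sum_insert hl]; congr 1; ring
    rw [this]
    exact mul_le_mul_of_nonneg_left (by linarith [add_one_le_exp (b l)]) (hP _ _).le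
  have r1 : ∀ (S : ℝ) (i : ℤ) (q : ℕ), Ph β t S M.card (i - q * d l) ≤
      Ph β t S M.card i * T ^ q := fun S i q => by
    rw [← eT, Ph, Ph, ← exp_nat_mul, ← exp_add, exp_le_exp]
    push_cast
    linarith [mul_le_mul_of_nonneg_right k1 (show (0 : ℝ) ≤ q * d l by positivity)]
  have r2 : ∀ i ≤ i0, |wd (Gm d c) M A i - pz M.card d A i -
      (wd (Gm d c) M A (i - d l) - pz M.card d A (i - d l))| ≤ Ph β t S0 M.card i * (1 + T) := by
    intro i hi
    have := r1 S0 i 1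
    rw [Nat.cast_one, one_mul, pow_one] at this
    linarith [abs_sub (wd (Gm d c) M A i - pz M.card d A i)
      (wd (Gm d c) M A (i - d l) - pz M.card d A (i - d l)), ih i hi, ih (i - d l) (by omega)]
  have r3 : ∀ i ≤ i0,
      pz M.card d (insert l A) i - wd (Gm d c) M (insert l A) i ≤ Ph β t S M.card i := by
    intro i hi
    rw [pz_insert _ _ hl]
    linarith [(abs_le.1 (r2 i hi)).1, wd_low (d := d) (c := c) (M := M) (A := A) (l := l) i, r0 i,
      mul_le_mul_of_nonneg_left (show T ≤ b l by linarith) (hP S0 i).le]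
  intro i hi
  have hi' : ∀ q : ℕ, i - q * d l ≤ i0 := fun q =>
    (sub_le_self _ (by positivity)).trans hi
  refine abs_le.2 ⟨by linarith [r3 i hi], ?_⟩
  have u0 := wd_rec (c := c) (M := M) (A := A) (hd l) (show i < (i.toNat + 2 : ℕ) by omega)
  have u1 : 0 ≤ ∑ q ∈ range (i.toNat + 2), vq d c M A l (i - d l) q :=
    sum_nonneg fun q _ => vq_nonneg _ _
  have u2 := (abs_le.1 (r2 i hi)).2
  have u3 := pz_insert M.card d hl i
  have u4 := r0 i
  have u5 := hP S0 i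
  have u6 := hP S i
  have := hd l
  by_cases h1 : 0 < i ∧ (i : ℝ) ≤ γ * M.card
  swap
  · have v1 : ∑ q ∈ range (i.toNat + 1 + 1), vq d c M A l i q ≤ 2 * T * Ph β t S0 M.card i := by
      refine sum_half (by positivity) (vq_zero i) (fun q => (vq_le i _).trans ?_) _
      rcases le_or_gt i 0 with h2 | h2
      · rw [ch_neg _ (by push_cast; nlinarith [show (0 : ℤ) ≤ q * d l by positivity])]
        positivity
      have h3 : γ * M.card < i := not_le.1 fun e => h1 ⟨h2, e⟩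
      have a1 : T ^ (q + 1) ≤ 2 * T / 2 ^ (q + 1) := by
        rw [le_div_iff₀ (by positivity), pow_succ, pow_succ, mul_mul_mul_comm, ← mul_pow, mul_comm T 2]
        exact mul_le_of_le_one_left (by positivity) (pow_le_one₀ (by positivity) (by linarith))
      refine (ch_exp ω _ _).trans (le_trans ?_ ((mul_le_mul_of_nonneg_left a1 u5.le).trans
        (le_of_eq (by ring))))
      rw [ht, ← eT, Ph, ← exp_nat_mul, ← exp_add, exp_le_exp]
      push_cast
      have a2 : 0 ≤ S0 := sum_nonneg fun l _ => b0 l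
      linarith [mul_le_mul_of_nonneg_left h3.le (sub_nonneg.2 k1),
        mul_le_mul_of_nonneg_right k2 (M.card.cast_nonneg (α := ℝ))]
    linarith [mul_le_mul_of_nonneg_left q2 u5.le]
  have hm : 0 < M.card := by
    by_contra e
    have := h1.2
    rw [show M.card = 0 by omega, Nat.cast_zero, mul_zero] at this
    exact not_lt.2 this (by exact_mod_cast h1.1)
  have w0 : ∀ q : ℕ, vq d c M A l i (q + 1) ≤ τ * (pz M.card d (insert l A) (i - q * d l) -
      wd (Gm d c) M (insert l A) (i - q * d l) + vq d c M A l i q +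
      Λ * Ph β t S M.card (i - q * d l)) := fun q => by
    have e : i - q * d l - d l = i - (q + 1 : ℕ) * d l := by push_cast; ring
    have := top' (G := Gm d c) (d := d) (A := insert l A) (S := S) g0 g1 hg ht k0 k1 k2 k3 hm
      (j := i - q * d l) (fun M' hM j hj => by
        linarith [(abs_le.1 (ihm _ hM M' rfl (insert l A) j (hj.trans (hi' q)))).2]) (hd l) (X := Yq d c M A l i (q + 1))
      (by push_cast; linarith [h1.2, show (0 : ℝ) ≤ q * d l by positivity])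
      (e ▸ Yq_le i _) (Yq_le i q) fun T _ hT =>
        Yq_step' hδ hc hl i q (fun h => hq l q (h.trans hi)) hT
    rw [e, ← hτ, ← hΛ] at this
    refine this.trans (le_of_eq ?_)
    rw [vq]; ring
  have τ0 : 0 < τ := by linarith
  have w1 : ∀ q : ℕ, vq d c M A l i (q + 1) ≤
      τ * (vq d c M A l i q + 3 * τ ^ q * Ph β t S M.card i) := fun q => by
    refine (w0 q).trans (mul_le_mul_of_nonneg_left ?_ τ0.le)
    have a1 := (r1 S i q).trans (mul_le_mul_of_nonneg_left (pow_le_pow_left₀ T0.le q1 q) u6.le)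
    linarith [r3 (i - q * d l) (hi' q), mul_le_mul_of_nonneg_right Λ1 (hP S (i - q * d l)).le]
  have w2 : ∀ q : ℕ, vq d c M A l i (q + 1) ≤ 3 * τ * (2 * τ) ^ q * Ph β t S M.card i := by
    intro q
    induction q with
    | zero => simpa [vq_zero, mul_assoc, mul_left_comm] using w1 0
    | succ q ihq =>
      refine (w1 _).trans ?_
      have a1 : τ ^ q ≤ (2 * τ) ^ q := pow_le_pow_left₀ τ0.le (by linarith) q
      rw [pow_succ, pow_succ]
      linarith [mul_le_mul_of_nonneg_left ihq τ0.le,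
        mul_le_mul_of_nonneg_left a1 (show 0 ≤ τ * τ * Ph β t S M.card i by positivity)]
  have w3 := sum_two (v := vq d c M A l i) (a := 12 * τ ^ 2 * Ph β t S M.card i) (by positivity)
    (vq_zero i) (fun q => (w2 (q + 1)).trans (by
      have a1 : (2 * τ) ^ q * 2 ^ q ≤ 1 := by
        rw [← mul_pow]
        exact pow_le_one₀ (by positivity) (by linarith)
      rw [le_div_iff₀ (by positivity), pow_succ, pow_succ]
      linarith [mul_le_mul_of_nonneg_left a1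
        (show 0 ≤ τ * τ * Ph β t S M.card i by positivity)])) i.toNat
  have w4 := w0 0
  simp only [Nat.cast_zero, zero_mul, sub_zero, vq_zero, add_zero, zero_add] at w4
  have w5 : 0 < 1 - τ * (Λ - 1 + 12 * τ) :=
    pos_of_mul_pos_right (show 0 < (1 + b l) * _ by linarith) (by linarith [b0 l])
  refine le_of_mul_le_mul_left ?_ (show 0 < 1 + τ by linarith)
  linarith [mul_le_mul_of_nonneg_left q3 u5.le, mul_le_mul_of_nonneg_right u4 w5.le]

lemma deg {ε g t U E : ℝ} (e0 : 0 < ε) (e1 : ε ≤ 1 / 32) (t0 : 0 < t) (t1 : t ≤ g) (u1 : U ≤ ε)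
    (u2 : 64 * g ≤ ε * U) (E0 : 1 ≤ E) (E1 : E ≤ 1 + U * (1 + 2 * ε)) {d : ℕ} (hd : 2 ≤ d) :
    ta g d ≤ 1 / 4 ∧ t ^ d ≤ ta g d ∧ 3 * t ^ d ≤ (1 + 16 * ε) * (d * g ^ (d - 1) * U) ∧
      1 + t ^ d ≤ (1 + (1 + 16 * ε) * (d * g ^ (d - 1) * U)) *
        (1 - ta g d * (E * (1 + 2 * t) - 1 + 12 * ta g d)) := by
  obtain ⟨e, rfl⟩ : ∃ e, d = e + 2 := ⟨d - 2, by omega⟩
  have g0 : 0 < g := by linarith
  have u0 : 0 < U := pos_of_mul_pos_right (show 0 < ε * U by linarith) e0.le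
  have g1 : g ≤ ε := by nlinarith
  have a1 := pow_le_pow_left₀ t0.le t1 (e + 2)
  have a2 : ((e : ℝ) + 2) * g ^ e ≤ 2 := by
    have b1 : (e : ℝ) + 1 ≤ 2 ^ e := by exact_mod_cast Nat.lt_two_pow_self
    have b2 : 2 ^ e * g ^ e ≤ 1 := by
      rw [← mul_pow]
      exact pow_le_one₀ (by positivity) (by linarith)
    nlinarith [mul_le_mul_of_nonneg_right b1 (pow_pos g0 e).le, pow_pos g0 e,
      e.cast_nonneg (α := ℝ)]
  rw [ta, show e + 2 - 1 = e + 1 by omega, pow_succ g (e + 1)] at *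
  push_cast
  obtain ⟨x, hx⟩ : ∃ x, x = g ^ (e + 1) := ⟨_, rfl⟩
  have x0 : 0 < x := by rw [hx]; positivity
  obtain ⟨P, hP⟩ : ∃ P, P = ((e : ℝ) + 2) * x := ⟨_, rfl⟩
  have p0 : x ≤ P := by nlinarith [e.cast_nonneg (α := ℝ)]
  have p1 : P ≤ 2 * g := by
    rw [hP, hx, pow_succ, ← mul_assoc]
    exact mul_le_mul_of_nonneg_right a2 g0.le
  rw [← hx] at a1 ⊢
  rw [← hP, show x * (e + 2) + x * g * (e + 2 + 1) = P + (P + x) * g by rw [hP]; ring]
  obtain ⟨τ, hτ⟩ : ∃ τ, τ = P + (P + x) * g := ⟨_, rfl⟩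
  have c0 : x * g ≤ τ := by nlinarith
  have c1 : τ ≤ P * (1 + 2 * ε) := by nlinarith
  have c2 : τ ≤ 4 * g := by nlinarith
  rw [← hτ]
  obtain ⟨W, hW⟩ : ∃ W, W = P * U := ⟨_, rfl⟩
  have w0 : 0 < W := by rw [hW]; exact mul_pos (by linarith) u0
  have w1 : W ≤ ε := by nlinarith
  have w2 : x * g ≤ ε * W := by nlinarith
  have c3 : E * (1 + 2 * t) - 1 + 12 * τ ≤ U * (1 + 3 * ε) := by
    have : E ≤ 3 / 2 := by nlinarith
    nlinarith
  have c4 : τ * (E * (1 + 2 * t) - 1 + 12 * τ) ≤ W * (1 + 6 * ε) := by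
    refine (mul_le_mul c1 c3 (by nlinarith) (by nlinarith)).trans ?_
    rw [mul_mul_mul_comm, ← hW]
    exact mul_le_mul_of_nonneg_left (by nlinarith) w0.le
  rw [← hW]
  refine ⟨by linarith, by linarith, by nlinarith, ?_⟩
  refine le_trans ?_ (mul_le_mul_of_nonneg_left (sub_le_sub_left c4 1) (by positivity))
  have c5 : (1 + 16 * ε) * (1 + 6 * ε) * W ≤ 2 * ε := by nlinarith
  nlinarith [mul_le_mul_of_nonneg_left c5 w0.le]

theorem exact {η : ℝ} (h0 : 0 < η) (h1 : η ≤ 1 / 2) : ∃ t0 : ℝ, 0 < t0 ∧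
    ∀ (L : Type) [Field L] (n r : ℕ) (d : Fin r → ℕ)
    (δ : Fin r × Finset (Fin n) → L →+ L) (c : Fin r × Finset (Fin n) → L),
    (∀ p x y, δ p (x * y) = x * δ p y + δ p x * y) →
    (∀ p q, δ p (c q) = if q = p then 1 else 0) → (∀ l, 2 ≤ d l) → ∀ t : ℝ, 0 < t → t ≤ t0 →
    ∀ (A : Finset (Fin r)) (i : ℕ), (∀ l q, (q + 1) * d l ≤ i → ((q + 1 : ℕ) : L) ≠ 0) →
    (i : ℝ) < (1 - η) * n * t - (1 + η) * ∑ l ∈ A, d l * t ^ d l →
    (finrank L (WF i d A c) : ℤ) = al n d A i := by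
  refine ⟨(η ^ 2 / 10 ^ 5) ^ 2, by positivity, fun L _ n r d δ c hδ hc hd g g0 g1 A i hq hi => ?_⟩
  obtain ⟨t, ht⟩ : ∃ t, t = (1 - η) * g := ⟨_, rfl⟩
  have t1 : t ≤ g := by nlinarith
  have t2 : g ≤ 2 * t := by nlinarith
  have t0 : 0 < t := by linarith
  obtain ⟨s, s0, hs⟩ : ∃ s, 0 < s ∧ s ^ 2 = t := ⟨√t, sqrt_pos.2 t0, sq_sqrt t0.le⟩
  have s1 : s ≤ η ^ 2 / 10 ^ 5 := by
    rw [← pow_le_pow_iff_left₀ s0.le (by positivity) two_ne_zero]; linarith
  have s2 : s ≤ η / 10 ^ 5 := by nlinarith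
  have s3 : t ≤ s / 10 ^ 5 := by nlinarith
  obtain ⟨ω, hω⟩ : ∃ ω, ω = -log t := ⟨_, rfl⟩
  have o0 : 0 ≤ ω := by rw [hω]; linarith [log_nonpos t0.le (by linarith)]
  have o1 : t * ω ≤ 2 * s := by
    have := log_le_sub_one_of_pos (inv_pos.2 s0)
    have := mul_le_mul_of_nonneg_left this s0.le
    rw [mul_sub, mul_inv_cancel₀ s0.ne', log_inv] at this
    rw [hω, ← hs, log_pow]
    push_cast
    nlinarith
  obtain ⟨β, hβ⟩ : ∃ β, β * η = 1024 + 2 * ω := ⟨_, div_mul_cancel₀ _ h0.ne'⟩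
  have b0 : 0 < β := pos_of_mul_pos_left (show 0 < β * η by linarith) h0.le
  have b1 : β * g ≤ η / 16 := by
    refine le_of_mul_le_mul_right ?_ h0
    rw [mul_right_comm, hβ]
    nlinarith [mul_le_mul_of_nonneg_left t2 o0]
  have b2 : β * t ≤ β * g := mul_le_mul_of_nonneg_left t1 b0.le
  have b3 : 0 < β * t := mul_pos b0 t0
  have b4 : exp (β * t) ≤ 1 + β * g * (1 + 2 * (η / 16)) := by
    refine (exp_le_exp.2 b2).trans
      ((exp_bound_div_one_sub_of_interval (by linarith) (by linarith)).trans ?_)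
    rw [div_le_iff₀ (by linarith)]
    nlinarith [mul_nonneg (b3.le.trans b2) (sub_nonneg.2 b1)]
  obtain ⟨γ, hγ⟩ : ∃ γ, γ * (1 + g) = g := ⟨_, div_mul_cancel₀ _ (by linarith)⟩
  have y0 : 0 < γ := pos_of_mul_pos_left (show 0 < γ * (1 + g) by linarith) (by linarith)
  have y1 : γ ≤ g := by nlinarith
  have H := pot hδ hc (d := d) (fun l => by have := hd l; omega) (i0 := i)
    (fun l q h => hq l q (by exact_mod_cast h)) (β := β) (ω := ω) (γ := γ) (g := g)
    (t := t) (b := fun l => (1 + 16 * (η / 16)) * (d l * g ^ (d l - 1) * (β * g))) y0.le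
    (by linarith) (by linarith) (by rw [hω, neg_neg, exp_log t0]) (by linarith) (by nlinarith)
    (by
      have a1 : g * η / 2 ≤ γ - t := by nlinarith
      nlinarith [mul_le_mul_of_nonneg_left a1 b0.le, mul_le_mul_of_nonneg_left y1 o0])
    (by nlinarith)
    (fun l => deg (by linarith) (by linarith) t0 t1 b1 (by nlinarith) (one_le_exp b3.le) b4 (hd l))
    univ A i le_rfl
  rw [wd, WM_univ, card_univ, Fintype.card_fin, pz_nat] at H
  have H1 := H.trans_lt (exp_lt_one_iff.2 (show _ < 0 from ?_))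
  · have : |(finrank L (WF i d A c) : ℤ) - al n d A i| < 1 := by exact_mod_cast H1
    rwa [Int.abs_lt_one_iff, sub_eq_zero] at this
  have e : ∑ l ∈ A, (1 + 16 * (η / 16)) * (d l * g ^ (d l - 1) * (β * g)) =
      β * ((1 + η) * ∑ l ∈ A, d l * g ^ d l) := by
    rw [mul_sum, mul_sum]
    refine sum_congr rfl fun l _ => ?_
    rw [← pow_sub_one_mul (show d l ≠ 0 by have := hd l; omega) g]
    ring
  rw [e, ← mul_add]
  refine mul_neg_of_pos_of_neg b0 ?_
  push_cast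
  rw [ht]
  linarith

end Pool.Agent.P.MP_3acc10_al.Sh
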