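import Pool.Agent.P.MP_3acc10_al.StTr

set_option autoImplicit false

namespace Pool.Agent.P.MP_3acc10_al.Wn

open Finset Hd Real

lemma one_num {C : ℝ} (hC : 0 < C) : ∃ C' : ℝ, 0 < C' ∧ ∀ (n r : ℕ) (d : Fin r → ℕ),
    (∀ i, 2 ≤ d i) → ∀ s : ℕ, C' * s ^ 3 * log (2 * s) ≤ n → truncCoeff (series n d univ) s = 0 →
    ∃ i a : ℕ, i ≤ s ∧ 0 < a ∧ 2 * a ≤ n ∧
      (∀ J : ℕ, J ≤ s + 1 → C * log (n / a) * n * (n + J * a) ≤ a ^ 3) ∧
      (∀ j < i, truncCoeff (series (n - a) d univ) j ≠ 0) ∧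
      truncCoeff (series (n + a) d univ) (i + 1) = 0 := by
  classical
  refine ⟨14 * 128 ^ 3 * C + 256, by positivity, fun n r d hd s hn hs => ?_⟩
  have h1 : ¬ Ps 0 d univ n s := fun h => (tr_iff n s).2 h hs
  have z : ∀ m, Ps 0 d univ m (0 : ℕ) := fun m j a b => by
    rw [show j = 0 by omega, qz_zero hd]; exact one_pos
  have s0 : 1 ≤ s := Nat.pos_of_ne_zero fun e => h1 (e ▸ z n)
  have s1 : (1 : ℝ) ≤ s := by exact_mod_cast s0
  have l1 : 1 / 2 ≤ log (2 * s) := by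
    linarith [log_two_gt_d9, log_le_log two_pos (show (2 : ℝ) ≤ 2 * s by linarith)]
  have s3 : (s : ℝ) ≤ s ^ 3 := le_self_pow₀ s1 (by omega)
  have c0 : 0 ≤ 14 * 128 ^ 3 * C * s ^ 3 * log (2 * s) := by positivity
  have n1 : (128 : ℝ) * s ≤ n := by
    linarith [mul_le_mul s3 l1 (by norm_num) (by positivity)]
  have n2 : 128 * s ≤ n := by exact_mod_cast n1
  obtain ⟨a, a1, a2⟩ : ∃ a : ℕ, 32 * (s + 1) * a ≤ n ∧ n < 32 * (s + 1) * (a + 1) :=
    ⟨n / (32 * (s + 1)), Nat.mul_div_le _ _, Nat.lt_mul_div_succ _ (by omega)⟩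
  have a0 : 0 < a := Nat.pos_of_ne_zero fun e => by rw [e] at a2; omega
  have a3 : (32 : ℝ) * (s + 1) * a ≤ n := by exact_mod_cast a1
  have a4 : (1 : ℝ) ≤ a := by exact_mod_cast a0
  have a5 : (n : ℝ) ≤ 128 * s * a := by
    have : (n : ℝ) ≤ 32 * (s + 1) * (a + 1) := by exact_mod_cast a2.le
    nlinarith [mul_nonneg (sub_nonneg.2 s1) (sub_nonneg.2 a4)]
  have a6 : 2 * a ≤ n := by nlinarith
  have n0 : (0 : ℝ) < n := by linarith
  have st : ∀ (i : ℕ) (m y : ℕ), i ≤ s → m + y = n + a → y ≤ 2 * a →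
      Ps 0 d univ (n + a) (i + 1 : ℕ) → Ps 0 d univ m i := fun i m y hi e hy h => by
    have i1 : (i : ℝ) ≤ s := by exact_mod_cast hi
    have y1 : (y : ℝ) ≤ 2 * a := by exact_mod_cast hy
    have r0 : 0 ≤ 8 * ((s : ℝ) + 1) / n := by positivity
    have r1 : 8 * ((s : ℝ) + 1) / n * n = 8 * (s + 1) := by field_simp
    refine (desc le_rfl hd (h.lev (by omega)) r0 (rat le_rfl hd h r0
      (by rw [div_le_one n0]; linarith) (fun _ => ?_) i (by omega) _ (by omega)) y m e ?_).1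
    · push_cast
      linarith [mul_le_mul_of_nonneg_left
        (show (n : ℝ) / 2 ≤ n + a - (i + 1) + 1 - 0 by linarith) r0]
    · rw [← mul_div_assoc, div_lt_one n0]
      linarith [mul_le_mul_of_nonneg_right y1 (show 0 ≤ 8 * ((s : ℝ) + 1) by positivity)]
  refine ⟨Nat.findGreatest (fun i => Ps 0 d univ (n + a) i) s, a, Nat.findGreatest_le s, a0, a6,
    fun J hJ => ?_, fun j hj => (tr_iff _ _).2 ?_, of_not_not fun h => ?_⟩
  · have J1 : (J : ℝ) ≤ s + 1 := by exact_mod_cast hJ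
    have b1 : log (n / a) ≤ 7 * log (2 * s) := by
      rw [show (7 : ℝ) = (7 : ℕ) by norm_num, ← log_pow]
      refine log_le_log (by positivity) ((div_le_iff₀ (by linarith)).2 (a5.trans ?_))
      have : (s : ℝ) ≤ s ^ 7 := le_self_pow₀ s1 (by omega)
      rw [mul_pow]
      gcongr
      norm_num
    have b2 : (n : ℝ) + J * a ≤ 2 * n := by
      linarith [mul_le_mul_of_nonneg_right J1 (zero_le_one.trans a4)]
    refine le_of_mul_le_mul_left ?_ (show 0 < (128 * (s : ℝ)) ^ 3 by positivity)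
    calc _ ≤ (128 * (s : ℝ)) ^ 3 * (C * (7 * log (2 * s)) * n * (2 * n)) := by gcongr
      _ = 14 * 128 ^ 3 * C * s ^ 3 * log (2 * s) * n ^ 2 := by ring
      _ ≤ n * n ^ 2 := by
          gcongr
          linarith [show 0 ≤ (s : ℝ) ^ 3 * log (2 * s) by positivity]
      _ = n ^ 3 := by ring
      _ ≤ (128 * s * a) ^ 3 := by gcongr
      _ = _ := by ring
  · have := Nat.findGreatest_le (P := fun i => Ps 0 d univ (n + a) i) s
    exact st j _ (2 * a) (by omega) (by omega) le_rfl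
      ((Nat.findGreatest_spec (P := fun i => Ps 0 d univ (n + a) i) s.zero_le (z _)).lev (by omega))
  · rw [← ne_eq, tr_iff] at h
    rcases (Nat.findGreatest_le (P := fun i => Ps 0 d univ (n + a) i) s).eq_or_lt with e | e
    · rw [e] at h
      exact h1 (st s n a le_rfl rfl (by omega) h)
    · exact Nat.findGreatest_is_greatest (P := fun i => Ps 0 d univ (n + a) i)
        (Nat.lt_succ_self _) e h

/-- all degrees but at most one, characteristic zero -/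
theorem one (h : ∃ C : ℝ, 0 < C ∧ ∀ (K : Type) [Field K] [CharZero K] (n r : ℕ) (d : Fin r → ℕ),
    (∀ i, 2 ≤ d i) → Gen fun c : Fin r × Finset (Fin n) → K => ∀ j J a : ℕ, 0 < a → 2 * a ≤ n →
      C * log (n / a) * n * (n + J * a) ≤ a ^ 3 →
      (j ≤ J ∧ truncCoeff (series (n - a) d univ) J ≠ 0 ∨
        J ≤ j ∧ truncCoeff (series (n + a) d univ) J = 0) →
      (hilb d c j : ℤ) = truncCoeff (series n d univ) j) :
    ∃ C : ℝ, 0 < C ∧ ∀ (K : Type) [Field K] [CharZero K] (n r : ℕ) (d : Fin r → ℕ),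
    (∀ i, 2 ≤ d i) → ∀ s : ℕ, C * s ^ 3 * log (2 * s) ≤ n → truncCoeff (series n d univ) s = 0 →
    ∃ i ≤ s, Gen fun c : Fin r × Finset (Fin n) → K => ∀ j ≠ i,
      (hilb d c j : ℤ) = truncCoeff (series n d univ) j := by
  obtain ⟨C, hC, h⟩ := h
  obtain ⟨C', c0, H⟩ := one_num hC
  refine ⟨C', c0, fun K _ _ n r d hd s h1 h2 => ?_⟩
  obtain ⟨i, a, b1, b2, b3, b4, b5, b6⟩ := H n r d hd s h1 h2
  refine ⟨i, b1, (h K n r d hd).mono fun c hc j hj => ?_⟩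
  rcases hj.lt_or_gt with e | e
  · exact hc j j a b2 b3 (b4 j (by omega)) (Or.inl ⟨le_rfl, b5 j e⟩)
  · exact hc j (i + 1) a b2 b3 (b4 _ (by omega)) (Or.inr ⟨e, b6⟩)

/-- all degrees but at most one, every infinite field -/
theorem one_inf (h : ∃ C : ℝ, 0 < C ∧ ∀ (K : Type) [Field K] [Infinite K] (n r : ℕ)
    (d : Fin r → ℕ), (∀ i, 2 ≤ d i) → Gen fun c : Fin r × Finset (Fin n) → K => ∀ j J a : ℕ,
      0 < a → 2 * a ≤ n → C * log (n / a) * n * (n + J * a) ≤ a ^ 3 →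
      ((ringChar K = 0 ∨ ∀ i, j < ringChar K * d i) ∧ j ≤ J ∧
          truncCoeff (series (n - a) d univ) J ≠ 0 ∨
        J ≤ j ∧ truncCoeff (series (n + a) d univ) J = 0) →
      (hilb d c j : ℤ) = truncCoeff (series n d univ) j) :
    ∃ C : ℝ, 0 < C ∧ ∀ (K : Type) [Field K] [Infinite K] (n r : ℕ) (d : Fin r → ℕ),
    (∀ i, 2 ≤ d i) → ∀ s : ℕ, C * s ^ 3 * log (2 * s) ≤ n → truncCoeff (series n d univ) s = 0 →
    ∃ i ≤ s, Gen fun c : Fin r × Finset (Fin n) → K => ∀ j,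
      (j < i ∧ (ringChar K = 0 ∨ ∀ l, j < ringChar K * d l) ∨ i < j) →
      (hilb d c j : ℤ) = truncCoeff (series n d univ) j := by
  obtain ⟨C, hC, h⟩ := h
  obtain ⟨C', c0, H⟩ := one_num hC
  refine ⟨C', c0, fun K _ _ n r d hd s h1 h2 => ?_⟩
  obtain ⟨i, a, b1, b2, b3, b4, b5, b6⟩ := H n r d hd s h1 h2
  refine ⟨i, b1, (h K n r d hd).mono ?_⟩
  rintro c hc j (⟨e, e'⟩ | e)
  · exact hc j j a b2 b3 (b4 j (by omega)) (Or.inl ⟨e', le_rfl, b5 j e⟩)
  · exact hc j (i + 1) a b2 b3 (b4 _ (by omega)) (Or.inr ⟨e, b6⟩)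

end Pool.Agent.P.MP_3acc10_al.Wn
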