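import Pool.Agent.P.MP_3acc10_al.Full

set_option autoImplicit false

namespace Pool.Agent.P.MP_3acc10_al

open Module Finset

lemma card_block (n N b : ℕ) (hN : 0 < N) (h : (b + 1) * N ≤ n) :
    (univ.filter fun x : Fin n => x.val / N = b).card = N := by
  rw [← card_image_of_injective _ Fin.val_injective]
  have : (univ.filter fun x : Fin n => x.val / N = b).image Fin.val = Ico (b * N) (b * N + N) := by
    ext y
    simp only [mem_image, mem_filter, mem_univ, true_and, mem_Ico]
    constructor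
    · rintro ⟨x, rfl, rfl⟩
      exact ⟨Nat.div_mul_le_self _ _, Nat.lt_div_mul_add hN⟩
    · rintro ⟨h1, h2⟩
      refine ⟨⟨y, by nlinarith⟩, ?_, rfl⟩
      exact Nat.div_eq_of_lt_le h1 (by nlinarith)
  rw [this]; simp

lemma load_le (n m N e j r : ℕ) (he : e ≤ j) (hm : 2 * j ≤ m) (h2 : n ≤ (m + 1) * N)
    (hr : r ≤ n ^ e) : r / m.choose e ≤ 2 ^ j * j.factorial * N ^ e := by
  have h1 : n ^ e ≤ (2 ^ j * j.factorial * N ^ e) * m.choose e := by
    have a1 : n ≤ 2 * (m + 1 - e) * N :=
      h2.trans (Nat.mul_le_mul_right _ (by omega))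
    have a2 := Nat.pow_sub_le_descFactorial m e
    rw [Nat.descFactorial_eq_factorial_mul_choose] at a2
    calc n ^ e ≤ (2 * (m + 1 - e) * N) ^ e := Nat.pow_le_pow_left a1 e
      _ = 2 ^ e * (m + 1 - e) ^ e * N ^ e := by rw [mul_pow, mul_pow]
      _ ≤ 2 ^ j * (j.factorial * m.choose e) * N ^ e := by
        refine Nat.mul_le_mul_right _ (Nat.mul_le_mul (Nat.pow_le_pow_right (by norm_num) he) ?_)
        exact a2.trans (Nat.mul_le_mul_right _ (Nat.factorial_le he))
      _ = _ := by ring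
  exact Nat.div_le_of_le_mul (by rw [mul_comm]; exact hr.trans h1)

variable {B ι : Type*} [DecidableEq B] [DecidableEq ι]

lemma sum_sub_insert (M S : Finset B) (hS : S ⊆ M) (i : ℕ) (hi : S.card ≤ i) (f : Finset B → ℝ) :
    ∑ U ∈ M.powersetCard i, (if S ⊆ U then f (U \ S) else 0) =
      ∑ U ∈ (M \ S).powersetCard (i - S.card), f U := by
  rw [← sum_filter]
  refine sum_bij' (fun U _ => U \ S) (fun U _ => U ∪ S) ?_ ?_ ?_ ?_ fun _ _ => rfl
  · intro U hU
    have h1 := mem_filter.1 hU
    have h2 := mem_powersetCard.1 h1.1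
    exact mem_powersetCard.2 ⟨sdiff_subset_sdiff h2.1 Subset.rfl,
      by rw [card_sdiff_of_subset h1.2, h2.2]⟩
  · intro U hU
    have h2 := mem_powersetCard.1 hU
    have h3 := subset_sdiff.1 h2.1
    exact mem_filter.2 ⟨mem_powersetCard.2 ⟨union_subset h3.1 hS,
      by rw [card_union_of_disjoint h3.2]; omega⟩, subset_union_right⟩
  · intro U hU; exact sdiff_union_of_subset (mem_filter.1 hU).2
  · intro U hU
    exact union_sdiff_cancel_right (subset_sdiff.1 (mem_powersetCard.1 hU).1).2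

/-- comparison of the block model with the predicted coefficients -/
lemma compare (j : ℕ) : ∃ C : ℝ, 0 ≤ C ∧ ∀ (ι : Type) [DecidableEq ι] (n m N : ℕ) (d : ι → ℕ)
    (A0 : Finset ι), 0 < N → N ≤ m → 2 * j ≤ m → m * N ≤ n → n ≤ (m + 1) * N →
    (∀ l ∈ A0, 0 < d l) →
    (∀ e ≤ j, 0 < e → ((A0.filter fun l => d l = e).card : ℝ) ≤ (n : ℝ) ^ e) →
    ∃ (A' : Finset ι) (supp : ι → Finset ℕ) (φ : ℤ), A' ⊆ A0 ∧ (∀ i ∈ A', (supp i).card = d i) ∧
      (∀ J ∈ (range m).powersetCard j, Ind N supp A' J = φ) ∧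
      (m.choose j * φ : ℝ) ≤ al n d A0 j + C * ((n : ℝ) ^ j / N) := by
  set c : ℕ := 2 ^ j * j.factorial with hc
  set D : ℝ := (1 + 2 ^ j * c) ^ j with hD
  have hD0 : 0 ≤ D := by positivity
  refine ⟨3 ^ j * ((j + 1) * (D + 1)), by positivity, ?_⟩
  intro ι _ n m N d A0 hN hNm hm h1 h2 hd hcnt
  let ρ : ℕ → ℕ := fun e => (A0.filter fun l => d l = e).card / m.choose e
  let 𝒮 := (range m).powerset.filter fun S => 0 < S.card ∧ S.card ≤ j
  have hfil : ∀ e ≤ j, 0 < e → 𝒮.filter (fun S => S.card = e) = (range m).powersetCard e := by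
    intro e he he0
    ext S
    simp only [𝒮, mem_filter, mem_powerset, mem_powersetCard]
    exact ⟨fun h => ⟨h.1.1, h.2⟩, fun h => ⟨⟨h.1, by omega⟩, h.2⟩⟩
  obtain ⟨A', supp, hA', hs, hload⟩ := exists_unif d ρ 𝒮 A0 (fun e => by
    by_cases he : e ≤ j ∧ 0 < e
    · rw [hfil e he.1 he.2, card_powersetCard, card_range]
      exact Nat.mul_div_le _ _
    · rw [filter_eq_empty_iff.2 fun S hS h => he (by have := (mem_filter.1 hS).2; omega)]
      simp)
  have hne : ∀ i ∈ A', supp i ≠ ∅ := fun i hi h => by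
    have := (mem_filter.1 (hs i hi).1).2.1
    simp [h] at this
  obtain ⟨φ, hφ⟩ := Ind_unif (N := N) (range m) j ρ A' hne fun S h1 h2 h3 =>
    hload S (mem_filter.2 ⟨mem_powerset.2 h1, card_pos.2 (nonempty_iff_ne_empty.2 h3), h2⟩)
  refine ⟨A', supp, φ j, hA', fun i hi => (hs i hi).2, fun J hJ => ?_, ?_⟩
  · have := mem_powersetCard.1 hJ
    rw [hφ J this.1 this.2.le, this.2]
  have hNr : (0 : ℝ) < N := by exact_mod_cast hN
  have b1 : (m : ℝ) * N ≤ n := by exact_mod_cast h1
  have b0 : (N : ℝ) ≤ m := by exact_mod_cast hNm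
  have hn : (0 : ℝ) < n := lt_of_lt_of_le (mul_pos (hNr.trans_le b0) hNr) b1
  set η : ℝ := 1 / N with hη
  have hη0 : 0 < η := by positivity
  have hηN : (N : ℝ) ≤ η * n := by
    rw [hη, one_div, ← div_eq_inv_mul, le_div_iff₀ hNr]; nlinarith
  have hηm : (m : ℝ) ≤ η * n := by
    rw [hη, one_div, ← div_eq_inv_mul, le_div_iff₀ hNr]; exact b1
  have hmn : (m : ℝ) ≤ n := by
    have : (1 : ℝ) ≤ N := by exact_mod_cast hN
    nlinarith [hNr.trans_le b0]
  have habs : ∀ A : Finset ι, ∀ k ≤ j, ∀ U : Finset ℕ, U.card = k →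
      |(Ind N supp (A ∩ A') U : ℝ)| ≤ D * (N : ℝ) ^ k := by
    intro A k hk U hU
    have := Ind_abs (N := N) (supp := supp) j c (A ∩ A')
      (fun i hi => hne i (mem_inter.1 hi).2) (fun S hS => ?_) k hk U hU
    · have h3 : |(Ind N supp (A ∩ A') U : ℝ)| ≤ (1 + 2 ^ j * c) ^ k * (N : ℝ) ^ k := by
        exact_mod_cast this
      refine h3.trans (mul_le_mul_of_nonneg_right (pow_le_pow_right₀ ?_ hk) (by positivity))
      have : (0 : ℝ) ≤ 2 ^ j * c := by positivity
      linarith
    · refine (card_le_card (filter_subset_filter _ inter_subset_right)).trans ?_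
      by_cases h : S ∈ 𝒮
      · rw [hload S h]
        refine load_le n m N _ j _ hS hm h2 ?_
        exact_mod_cast hcnt _ hS (mem_filter.1 h).2.1
      · rw [filter_eq_empty_iff.2 fun i hi (e : supp i = S) => h (e ▸ (hs i hi).1)]; simp
  have hsum : ∀ A : Finset ι, ∀ k ≤ j, ∀ 𝒯 ⊆ (range m).powersetCard k,
      |∑ U ∈ 𝒯, (Ind N supp (A ∩ A') U : ℝ)| ≤ 𝒯.card * (D * (N : ℝ) ^ k) := by
    intro A k hk 𝒯 h𝒯
    refine (abs_sum_le_sum_abs _ _).trans ?_
    rw [← nsmul_eq_mul]
    exact sum_le_card_nsmul _ _ _ fun U hU => habs A k hk U (mem_powersetCard.1 (h𝒯 hU)).2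
  have hpow : ∀ k : ℕ, (m : ℝ) ^ k * N ^ k ≤ (n : ℝ) ^ k := fun k => by
    rw [← mul_pow]; exact pow_le_pow_left₀ (by positivity) b1 k
  have key := pert (fun A i => ∑ U ∈ (range m).powersetCard i, (Ind N supp (A ∩ A') U : ℝ) -
      al n d A i) A0 d hd j n ((j + 1) * (D + 1) * η) hn.le (by positivity)
    (fun l => if l ∈ A' then j * D * η else D) (fun l => by split_ifs <;> positivity)
    (fun i hi => ?_) (fun A hA l hl hlA i hi => ?_) hcnt (fun e he he0 => ?_) j le_rfl A0 Subset.rfl
  · rw [inter_eq_right.2 hA', sum_congr rfl (g := fun _ => (φ j : ℝ)) (fun J hJ => by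
      have := mem_powersetCard.1 hJ
      rw [hφ J this.1 this.2.le, this.2]), sum_const, card_powersetCard, card_range,
      nsmul_eq_mul] at key
    have := (abs_le.1 key).2
    have e : (n : ℝ) ^ j / N = η * (n : ℝ) ^ j := by rw [hη]; ring
    rw [e]
    linarith
  · rw [empty_inter, sum_congr rfl (g := fun _ => (N : ℝ) ^ i) (fun J hJ => by
      rw [Ind_empty, (mem_powersetCard.1 hJ).2]; simp), sum_const, card_powersetCard, card_range,
      nsmul_eq_mul, al_empty, abs_sub_comm]
    have a1 := choose_gap n m N h1 h2 i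
    have a2 : m.choose i * N ^ i ≤ n.choose i := by
      have := card_nontr (fun x : Fin n => x.val / N) N i (range m) fun b hb =>
        card_block n N b hN ((Nat.mul_le_mul_right _ (mem_range.1 hb)).trans h1)
      rw [card_range, Fintype.card_fin] at this
      omega
    have a3 : (m.choose i : ℝ) * N ^ i ≤ n.choose i := by exact_mod_cast a2
    push_cast
    rw [abs_of_nonneg (by linarith)]
    refine le_of_mul_le_mul_right (a1.trans ?_) hn
    have a4 : (i : ℝ) ≤ (j + 1) * (D + 1) := by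
      have : (i : ℝ) ≤ j := by exact_mod_cast hi
      have : (0 : ℝ) ≤ j := by positivity
      nlinarith
    calc (i : ℝ) * N * (n : ℝ) ^ i ≤ ((j + 1) * (D + 1)) * (η * n) * (n : ℝ) ^ i := by gcongr
      _ = _ := by ring
  · simp only [al_insert n d hlA]
    by_cases hl' : l ∈ A'
    · have hS := mem_powerset.1 (mem_filter.1 (hs l hl').1).1
      have hcd := (hs l hl').2
      rw [insert_inter_of_mem hl', if_pos hl']
      simp only [Ind_insert (show l ∉ A ∩ A' from fun h => hlA (mem_inter.1 h).1)]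
      push_cast
      rw [sum_sub_distrib]
      split_ifs with h
      · rw [sum_sub_insert _ _ hS i (hcd ▸ h) fun U => (Ind N supp (A ∩ A') U : ℝ), hcd]
        have hsub : (range m \ supp l).powersetCard (i - d l) ⊆ (range m).powersetCard (i - d l) :=
          powersetCard_mono sdiff_subset
        have a1 := hsum A (i - d l) (by omega) _ (sdiff_subset (s := (range m).powersetCard (i - d l))
          (t := (range m \ supp l).powersetCard (i - d l)))
        rw [sum_sdiff_eq_sub hsub, card_sdiff_of_subset hsub, card_powersetCard, card_powersetCard,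
          card_sdiff_of_subset hS, card_range, hcd] at a1
        have a2 : ((m.choose (i - d l) - (m - d l).choose (i - d l) : ℕ) : ℝ) *
            (D * (N : ℝ) ^ (i - d l)) ≤ j * D * η * (n : ℝ) ^ (i - d l) := by
          rcases hk : i - d l with _ | k
          · simp; positivity
          · have a3 := choose_add_le (m - d l) (d l) k
            rw [Nat.sub_add_cancel (by omega)] at a3
            have a4 : ((m.choose (k + 1) - (m - d l).choose (k + 1) : ℕ) : ℝ) ≤ j * (m : ℝ) ^ k := by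
              have : m.choose (k + 1) - (m - d l).choose (k + 1) ≤ j * m ^ k :=
                le_trans (by omega) (Nat.mul_le_mul_right (m ^ k) (show d l ≤ j by omega))
              exact_mod_cast this
            have := hpow k
            calc _ ≤ (j * (m : ℝ) ^ k) * (D * (N : ℝ) ^ (k + 1)) := by gcongr
              _ = j * D * ((m : ℝ) ^ k * N ^ k) * N := by ring
              _ ≤ j * D * (n : ℝ) ^ k * (η * n) := by gcongr
              _ = _ := by ring
        have a5 := abs_le.1 (a1.trans a2)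
        have a6 := le_abs_self (∑ U ∈ (range m).powersetCard (i - d l),
          (Ind N supp (A ∩ A') U : ℝ) - al n d A (i - d l))
        have a7 := neg_abs_le (∑ U ∈ (range m).powersetCard (i - d l),
          (Ind N supp (A ∩ A') U : ℝ) - al n d A (i - d l))
        rw [abs_le]
        constructor <;> linarith
      · rw [sum_eq_zero (f := fun U => if supp l ⊆ U then (Ind N supp (A ∩ A') (U \ supp l) : ℝ)
          else 0) fun U hU => if_neg fun h' => h (by
            have := card_le_card h'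
            rw [(mem_powersetCard.1 hU).2] at this; omega)]
        simp
    · rw [insert_inter_of_notMem hl', if_neg hl']
      split_ifs with h
      · have a1 := hsum A (i - d l) (by omega) _ Subset.rfl
        rw [card_powersetCard, card_range] at a1
        have a2 : (m.choose (i - d l) : ℝ) * (D * (N : ℝ) ^ (i - d l)) ≤ D * (n : ℝ) ^ (i - d l) := by
          have := hpow (i - d l)
          have := choose_le_pow_real m (i - d l)
          calc _ ≤ (m : ℝ) ^ (i - d l) * (D * (N : ℝ) ^ (i - d l)) := by gcongr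
            _ = D * ((m : ℝ) ^ (i - d l) * N ^ (i - d l)) := by ring
            _ ≤ _ := by gcongr
        have a5 := abs_le.1 (a1.trans a2)
        have a6 := le_abs_self (∑ U ∈ (range m).powersetCard (i - d l),
          (Ind N supp (A ∩ A') U : ℝ) - al n d A (i - d l))
        have a7 := neg_abs_le (∑ U ∈ (range m).powersetCard (i - d l),
          (Ind N supp (A ∩ A') U : ℝ) - al n d A (i - d l))
        push_cast
        rw [abs_le]
        constructor <;> linarith
      · simp
  · rw [sum_ite, sum_const, sum_const, nsmul_eq_mul, nsmul_eq_mul]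
    have a1 : (((A0.filter fun l => d l = e).filter (· ∈ A')).card : ℝ) ≤ (n : ℝ) ^ e :=
      le_trans (by exact_mod_cast card_filter_le _ _) (hcnt e he he0)
    have a2 : ((A0.filter fun l => d l = e).filter (· ∈ A')).card = m.choose e * ρ e := by
      rw [card_eq_sum_card_fiberwise (f := supp) (t := (range m).powersetCard e) (fun i hi => by
        have hi := mem_filter.1 (mem_coe.1 hi)
        have := hs i hi.2
        exact mem_coe.2 (mem_powersetCard.2 ⟨mem_powerset.1 (mem_filter.1 this.1).1,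
          this.2.trans (mem_filter.1 hi.1).2⟩)),
        sum_congr rfl (g := fun _ => ρ e), sum_const, card_powersetCard, card_range, smul_eq_mul]
      intro S hS
      have hS' := hS
      rw [← hfil e he he0, mem_filter] at hS'
      rw [← hS'.2, ← hload S hS'.1]
      congr 1
      ext i
      simp only [mem_filter]
      refine ⟨fun h => ⟨h.1.2, h.2⟩, fun h => ⟨⟨⟨hA' h.1, ?_⟩, h.1⟩, h.2⟩⟩
      rw [← (hs i h.1).2, h.2]
    have a3 := card_filter_add_card_filter_not (s := A0.filter fun l => d l = e) (· ∈ A')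
    have a4 := Nat.div_add_mod (A0.filter fun l => d l = e).card (m.choose e)
    have a5 := Nat.mod_lt (A0.filter fun l => d l = e).card (Nat.choose_pos (show e ≤ m by omega))
    have a6 : (((A0.filter fun l => d l = e).filter (· ∉ A')).card : ℝ) ≤ η * (n : ℝ) ^ e := by
      have : ((A0.filter fun l => d l = e).filter (· ∉ A')).card ≤ m.choose e := by
        simp only [ρ] at a2
        omega
      refine le_trans (by exact_mod_cast this) ((choose_le_pow_real m e).trans ?_)
      obtain ⟨k, rfl⟩ : ∃ k, e = k + 1 := ⟨e - 1, by omega⟩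
      calc (m : ℝ) ^ (k + 1) = m * (m : ℝ) ^ k := by ring
        _ ≤ (η * n) * (n : ℝ) ^ k := by gcongr
        _ = _ := by ring
    have a7 : (0 : ℝ) ≤ η * (n : ℝ) ^ e := by positivity
    calc _ ≤ (n : ℝ) ^ e * (j * D * η) + η * (n : ℝ) ^ e * D := by gcongr
      _ = (j + 1) * D * (η * (n : ℝ) ^ e) := by ring
      _ ≤ (j + 1) * (D + 1) * (η * (n : ℝ) ^ e) := by gcongr; linarith
      _ = _ := by ring

theorem upper (j : ℕ) : ∃ C : ℝ, 0 ≤ C ∧ ∀ (K : Type) [Field K] [Infinite K] (ι : Type)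
    [Fintype ι] [DecidableEq ι] (n m N : ℕ) (d : ι → ℕ)
    (A0 : Finset ι), 0 < N → N ≤ m → 2 * j ≤ m → m * N ≤ n → n ≤ (m + 1) * N →
    (∀ l ∈ A0, 0 < d l) →
    (∀ e ≤ j, 0 < e → ((A0.filter fun l => d l = e).card : ℝ) ≤ (n : ℝ) ^ e) →
    Gen fun c : ι × Finset (Fin n) → K => (finrank K (WF j d A0 c) : ℝ) ≤
      max (al n d A0 j : ℝ) 0 + C * ((n : ℝ) ^ j / N) := by
  obtain ⟨C, hC, h⟩ := compare j
  refine ⟨C + j * 2 ^ (j + 1) + j, by positivity, ?_⟩
  intro K _ _ ι _ _ n m N d A0 hN hNm hm h1 h2 hd hcnt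
  obtain ⟨A', supp, φ, hA', hs, hφ, hle⟩ := h ι n m N d A0 hN hNm hm h1 h2 hd hcnt
  have hβ : ∀ b ∈ range m, (univ.filter fun x : Fin n => x.val / N = b).card = N := fun b hb =>
    card_block n N b hN ((Nat.mul_le_mul_right _ (mem_range.1 hb)).trans h1)
  refine (assemble (K := K) (fun x : Fin n => x.val / N) N j (range m) hβ d supp A' hs
    (max φ 0 + j * 2 ^ (j + 1) * N ^ (j - 1)) fun J hJ => ?_).mono fun c hc => ?_
  · have hJ' := mem_powersetCard.1 hJ
    refine (gen_WM N hN j J hJ'.2 (fun b hb => hβ b (hJ'.1 hb)) supp A').mono fun c hc =>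
      hc.trans (add_le_add_left ?_ _)
    exact hφ J hJ ▸ Sh_le_max A' J
  have hNr : (0 : ℝ) < N := by exact_mod_cast hN
  have b1 : (m : ℝ) * N ≤ n := by exact_mod_cast h1
  have b0 : (N : ℝ) ≤ m := by exact_mod_cast hNm
  have hn : (0 : ℝ) < n := lt_of_lt_of_le (mul_pos (hNr.trans_le b0) hNr) b1
  have a0 : (finrank K (WF j d A0 c) : ℝ) ≤ finrank K (WF j d A' c) := by
    exact_mod_cast Submodule.finrank_mono (W_anti _ hA' _)
  rw [card_range, Fintype.card_fin] at hc
  have a1 : (finrank K (WF j d A' c) : ℝ) ≤ m.choose j * (max (φ : ℝ) 0 +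
      j * 2 ^ (j + 1) * (N : ℝ) ^ (j - 1)) + (n.choose j - m.choose j * (N : ℝ) ^ j) := by
    exact_mod_cast hc
  have a2 : (n.choose j - m.choose j * (N : ℝ) ^ j) ≤ j * ((n : ℝ) ^ j / N) := by
    refine le_of_mul_le_mul_right ((choose_gap n m N h1 h2 j).trans ?_) hn
    have : (N : ℝ) ≤ n / N := by rw [le_div_iff₀ hNr]; nlinarith
    calc (j : ℝ) * N * (n : ℝ) ^ j ≤ j * (n / N) * (n : ℝ) ^ j := by gcongr
      _ = _ := by ring
  have a3 : (m.choose j : ℝ) * (j * 2 ^ (j + 1) * (N : ℝ) ^ (j - 1)) ≤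
      j * 2 ^ (j + 1) * ((n : ℝ) ^ j / N) := by
    rcases j with _ | j
    · simp
    · have := choose_le_pow_real m (j + 1)
      have h3 : ((m : ℝ) * N) ^ (j + 1) ≤ (n : ℝ) ^ (j + 1) := by gcongr
      rw [Nat.add_sub_cancel]
      calc _ ≤ (m : ℝ) ^ (j + 1) * (((j + 1 : ℕ) : ℝ) * 2 ^ (j + 1 + 1) * (N : ℝ) ^ j) := by gcongr
        _ = ((j + 1 : ℕ) : ℝ) * 2 ^ (j + 1 + 1) * (((m : ℝ) * N) ^ (j + 1) / N) := by
          field_simp; ring
        _ ≤ _ := by gcongr
  have a4 : (0 : ℝ) ≤ C * ((n : ℝ) ^ j / N) := by positivity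
  have a5 : (m.choose j : ℝ) * max (φ : ℝ) 0 ≤ max (al n d A0 j : ℝ) 0 + C * ((n : ℝ) ^ j / N) := by
    rcases le_total (φ : ℝ) 0 with h | h
    · rw [max_eq_right h, mul_zero]; positivity
    · rw [max_eq_left h]; linarith [le_max_left (al n d A0 j : ℝ) 0]
  nlinarith

end Pool.Agent.P.MP_3acc10_al
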