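import Pool.Agent.P.MP_3acc10_al.Exact

namespace Pool.Agent.P.MP_3acc10_al.VariantExactRange

open Pool.Agent.P.MP_3acc10_al

theorem result (D : ℕ) : ∃ (C : ℝ) (n0 : ℕ), ∀ (K : Type) [Field K] [Infinite K] (n r : ℕ)
    (d : Fin r → ℕ) (A : Finset (Fin r)) (e : ℕ), n0 ≤ n → (∀ i, D ≤ d i) → 0 < e → e ≤ 2 * D →
    truncCoeff (series n d A) (2 * D) = 0 →
    C * (n : ℝ) ^ ((e : ℝ) - e / (4 * D)) ≤ (Aᶜ.filter fun i => d i = e).card →
    ∃ P : MvPolynomial (Fin r × Finset (Fin n)) K, P ≠ 0 ∧ ∀ c, MvPolynomial.eval c P ≠ 0 →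
      ∀ j, (hilb d c j : ℤ) = truncCoeff (series n d Finset.univ) j := by
  obtain ⟨C, n0, h⟩ := exact_range D
  exact ⟨C, n0, fun K _ _ n r d A e hn hd => (h K n r d hn hd).2 A e⟩

end Pool.Agent.P.MP_3acc10_al.VariantExactRange
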