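import Pool.Agent.P.MP_3acc10_al.NMain

namespace Pool.Agent.P.MP_3acc10_al.VariantFraction

open Pool.Agent.P.MP_3acc10_al

theorem result (D : ℕ) : ∃ L : ℕ, 0 < L ∧ ∀ (K : Type) [Field K] [CharZero K] (n r : ℕ)
    (d : Fin r → ℕ), 0 < n → (∀ i, 0 < d i ∧ d i ≤ D) →
    L * (Finset.univ.filter fun i => d i = 1).card ≤ n →
    ∃ P : MvPolynomial (Fin r × Finset (Fin n)) K, P ≠ 0 ∧ ∀ c, MvPolynomial.eval c P ≠ 0 →
      ∀ j : ℕ, 0 < truncCoeff (series n d Finset.univ) (L * j) →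
        (hilb d c j : ℤ) = truncCoeff (series n d Finset.univ) j :=
  Nak.fraction D

end Pool.Agent.P.MP_3acc10_al.VariantFraction
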