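import Pool.Agent.P.MP_3acc10_al.BMain

namespace Pool.Agent.P.MP_3acc10_al.VariantMargin

open Pool.Agent.P.MP_3acc10_al

theorem result (J : ℕ) : ∃ (γ : ℝ) (n0 : ℕ), 0 < γ ∧ ∀ (K : Type) [Field K] [CharZero K]
    (n r : ℕ) (d : Fin r → ℕ), n0 ≤ n → (∀ i, 0 < d i) →
    (∀ i < J, 0 < truncCoeff (series n d Finset.univ) i →
      (n : ℝ) ^ ((i + 1 : ℝ) - γ) ≤ |(((series n d Finset.univ).coeff (i + 1) : ℤ) : ℝ)|) →
    ∃ P : MvPolynomial (Fin r × Finset (Fin n)) K, P ≠ 0 ∧ ∀ c, MvPolynomial.eval c P ≠ 0 →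
      ∀ j, (j ≤ J ∨ truncCoeff (series n d Finset.univ) J = 0) →
        (hilb d c j : ℤ) = truncCoeff (series n d Finset.univ) j :=
  Bld.margin J

end Pool.Agent.P.MP_3acc10_al.VariantMargin
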