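import Pool.Agent.P.MP_3acc10_al.ShFin

namespace Pool.Agent.P.MP_3acc10_al.VariantSharp

open Pool.Agent.P.MP_3acc10_al

theorem result (D : ℕ) (ε : ℝ) (hε : 0 < ε) : ∃ C : ℝ, 0 < C ∧ ∀ (K : Type) [Field K] [Infinite K]
    (n r : ℕ) (d : Fin r → ℕ), (∀ i, 2 ≤ d i ∧ d i ≤ D) →
    ∃ P : MvPolynomial (Fin r × Finset (Fin n)) K, P ≠ 0 ∧ ∀ c, MvPolynomial.eval c P ≠ 0 →
      ∀ j J : ℕ, C * J ≤ n →
        ((ringChar K = 0 ∨ ∀ i, j < ringChar K * d i) ∧ (1 + ε) * j + C ≤ J ∧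
            truncCoeff (series n d Finset.univ) J ≠ 0 ∨
          (1 + ε) * J + C ≤ j ∧ truncCoeff (series n d Finset.univ) J = 0) →
        (hilb d c j : ℤ) = truncCoeff (series n d Finset.univ) j :=
  Sh.main Sh.van0 D hε

end Pool.Agent.P.MP_3acc10_al.VariantSharp
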