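import Pool.Agent.P.MP_3acc10_al.StWin

namespace Pool.Agent.P.MP_3acc10_al.VariantStable

open Pool.Agent.P.MP_3acc10_al

theorem result : ∃ C : ℝ, 0 < C ∧ ∀ (K : Type) [Field K] [Infinite K] (n r : ℕ) (d : Fin r → ℕ),
    (∀ i, 2 ≤ d i) →
    ∃ P : MvPolynomial (Fin r × Finset (Fin n)) K, P ≠ 0 ∧ ∀ c, MvPolynomial.eval c P ≠ 0 →
      ∀ j J a : ℕ, 0 < a → 2 * a ≤ n → C * Real.log (n / a) * n * (n + J * a) ≤ a ^ 3 →
        ((ringChar K = 0 ∨ ∀ i, j < ringChar K * d i) ∧ j ≤ J ∧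
            truncCoeff (series (n - a) d Finset.univ) J ≠ 0 ∨
          J ≤ j ∧ truncCoeff (series (n + a) d Finset.univ) J = 0) →
        (hilb d c j : ℤ) = truncCoeff (series n d Finset.univ) j :=
  Wn.stable

/-- Consequence: if the predicted series is cut by a degree `s` with `C s ^ 3 log (2 s) ≤ n`, the
Hilbert function is the predicted one in all degrees but at most one. -/
theorem allButOne : ∃ C : ℝ, 0 < C ∧ ∀ (K : Type) [Field K] [Infinite K] (n r : ℕ)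
    (d : Fin r → ℕ), (∀ i, 2 ≤ d i) → ∀ s : ℕ, C * s ^ 3 * Real.log (2 * s) ≤ n →
    truncCoeff (series n d Finset.univ) s = 0 → ∃ i ≤ s,
    ∃ P : MvPolynomial (Fin r × Finset (Fin n)) K, P ≠ 0 ∧ ∀ c, MvPolynomial.eval c P ≠ 0 →
      ∀ j : ℕ, (j < i ∧ (ringChar K = 0 ∨ ∀ l, j < ringChar K * d l) ∨ i < j) →
        (hilb d c j : ℤ) = truncCoeff (series n d Finset.univ) j :=
  Wn.one_inf result

/-- Consequence: outside `k` consecutive degrees at the cut when `C s ^ 3 log (2 s / k) ≤ k ^ 2 n`. -/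
theorem window : ∃ C : ℝ, 0 < C ∧ ∀ (K : Type) [Field K] [Infinite K] (n r : ℕ)
    (d : Fin r → ℕ), (∀ i, 2 ≤ d i) → ∀ s k : ℕ, 0 < k → k ≤ s →
    C * s ^ 3 * Real.log (2 * s / k) ≤ k ^ 2 * n → truncCoeff (series n d Finset.univ) s = 0 →
    ∃ i ≤ s, truncCoeff (series n d Finset.univ) (i + k) = 0 ∧
    ∃ P : MvPolynomial (Fin r × Finset (Fin n)) K, P ≠ 0 ∧ ∀ c, MvPolynomial.eval c P ≠ 0 →
      ∀ j : ℕ, (j < i ∧ (ringChar K = 0 ∨ ∀ l, j < ringChar K * d l) ∨ i + k ≤ j) →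
        (hilb d c j : ℤ) = truncCoeff (series n d Finset.univ) j :=
  Wn.window

end Pool.Agent.P.MP_3acc10_al.VariantStable
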