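import Pool.Agent.P.MP_3acc10_al.HdAlg

set_option autoImplicit false

namespace Pool.Agent.P.MP_3acc10_al.Wn

open Finset Hd

/-- binomial coefficients with an integer lower index -/
noncomputable def ch (m : ℕ) (i : ℤ) : ℝ := if 0 ≤ i then (m.choose i.toNat : ℝ) else 0

lemma ch_nat (m k : ℕ) : ch m k = m.choose k := by simp [ch]

lemma ch_neg (m : ℕ) {i : ℤ} (h : i < 0) : ch m i = 0 := if_neg (not_le.2 h)

lemma ch_nonneg (m : ℕ) (i : ℤ) : 0 ≤ ch m i := by unfold ch; split_ifs <;> positivity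

lemma ch_big {m : ℕ} {i : ℤ} (h : (m : ℤ) < i) : ch m i = 0 := by
  obtain ⟨k, rfl⟩ := Int.eq_ofNat_of_zero_le (show 0 ≤ i by omega)
  rw [ch_nat, Nat.choose_eq_zero_of_lt (by omega), Nat.cast_zero]

lemma ch_pos {m : ℕ} {i : ℤ} (h0 : 0 ≤ i) (h : i ≤ m) : 0 < ch m i := by
  obtain ⟨k, rfl⟩ := Int.eq_ofNat_of_zero_le h0
  rw [ch_nat]
  exact_mod_cast Nat.choose_pos (by omega)

lemma of_ch_pos {m : ℕ} {i : ℤ} (h : 0 < ch m i) : 0 ≤ i ∧ i ≤ m :=
  ⟨by by_contra h'; exact h.ne' (ch_neg m (by omega)),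
    by by_contra h'; exact h.ne' (ch_big (by omega))⟩

lemma ch_succ (m : ℕ) (i : ℤ) : ch (m + 1) i = ch m i + ch m (i - 1) := by
  rcases lt_trichotomy i 0 with h | rfl | h
  · rw [ch_neg _ h, ch_neg _ h, ch_neg _ (by omega), add_zero]
  · rw [ch_neg m (i := 0 - 1) (by omega)]; simp [ch]
  · obtain ⟨k, rfl⟩ : ∃ k : ℕ, i = (k + 1 : ℕ) := ⟨(i - 1).toNat, by omega⟩
    rw [show ((k + 1 : ℕ) : ℤ) - 1 = k by omega, ch_nat, ch_nat, ch_nat, Nat.choose_succ_succ']
    push_cast; ring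

lemma ch_rec (m : ℕ) (i : ℤ) : ch m i * i = ch m (i - 1) * (m - i + 1) := by
  rcases le_or_gt i 0 with h | h
  · rw [ch_neg m (i := i - 1) (by omega), zero_mul]
    rcases h.eq_or_lt with rfl | h
    · simp
    · rw [ch_neg m h, zero_mul]
  · obtain ⟨k, rfl⟩ : ∃ k : ℕ, i = (k + 1 : ℕ) := ⟨(i - 1).toNat, by omega⟩
    rw [show ((k + 1 : ℕ) : ℤ) - 1 = k by omega, ch_nat, ch_nat]
    rcases le_or_gt k m with h' | h'
    · have := congrArg (Nat.cast : ℕ → ℝ) (Nat.choose_succ_right_eq m k)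
      push_cast [Nat.cast_sub h'] at this ⊢
      linarith
    · rw [Nat.choose_eq_zero_of_lt h', Nat.choose_eq_zero_of_lt (by omega)]; simp

lemma ch_lc (m : ℕ) {a b : ℤ} (h : a ≤ b) : ch m (a - 1) * ch m b ≤ ch m a * ch m (b - 1) := by
  have p := mul_nonneg (ch_nonneg m a) (ch_nonneg m (b - 1))
  rcases le_or_gt a 0 with ha | ha
  · rwa [ch_neg m (i := a - 1) (by omega), zero_mul]
  rcases lt_or_ge (m : ℤ) b with hb | hb
  · rwa [ch_big hb, mul_zero]
  have a1 : (0 : ℝ) < a := by exact_mod_cast ha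
  have a2 : (a : ℝ) ≤ b := by exact_mod_cast h
  have a3 : (b : ℝ) ≤ m := by exact_mod_cast hb
  refine le_of_mul_le_mul_right ?_ (show (0 : ℝ) < (m - a + 1) * b by
    apply mul_pos <;> linarith)
  calc _ = (ch m (a - 1) * (m - a + 1)) * (ch m b * b) := by ring
    _ = ch m a * ch m (b - 1) * (a * (m - b + 1)) := by rw [← ch_rec, ch_rec m b]; ring
    _ ≤ _ := mul_le_mul_of_nonneg_left (by nlinarith) p

lemma ch_cmp {m m' : ℕ} {j j' : ℤ} {lam : ℝ} (hl : 0 ≤ lam) (hj : j ≤ m) (hj' : j' ≤ m') :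
    ∀ z : ℕ, (z : ℤ) ≤ j' → (∀ s : ℕ, s < z → lam * (j' - s) * (m - j + s + 1) ≤
      (j - s) * (m' - j' + s + 1)) →
      lam ^ z * ch m' (j' - z) * ch m j ≤ ch m (j - z) * ch m' j' := by
  intro z
  induction z with
  | zero => intro _ _; simp [mul_comm]
  | succ z ih =>
    intro hz h
    have ih := ih (by omega) fun s hs => h s (by omega)
    have h1 := h z (by omega)
    have a1 : (j : ℝ) ≤ m := by exact_mod_cast hj
    have a2 : (j' : ℝ) ≤ m' := by exact_mod_cast hj'
    have a3 : (z : ℝ) + 1 ≤ j' := by exact_mod_cast hz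
    have a4 : (0 : ℝ) ≤ z := z.cast_nonneg
    have r1 := ch_rec m (j - z)
    have r2 := ch_rec m' (j' - z)
    rw [show j - ((z + 1 : ℕ) : ℤ) = j - z - 1 by omega,
      show j' - ((z + 1 : ℕ) : ℤ) = j' - z - 1 by omega]
    push_cast at r1 r2
    refine le_of_mul_le_mul_right ?_ (show (0 : ℝ) < (m' - j' + z + 1) * (m - j + z + 1) by
      apply mul_pos <;> linarith)
    have p := mul_nonneg (ch_nonneg m (j - z)) (ch_nonneg m' j')
    calc _ = lam ^ z * (ch m' (j' - z - 1) * (m' - (j' - z) + 1)) * ch m j *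
          (lam * (m - j + z + 1)) := by ring
      _ = lam ^ z * ch m' (j' - z) * ch m j * (lam * (j' - z) * (m - j + z + 1)) := by
          rw [← r2]; ring
      _ ≤ ch m (j - z) * ch m' j' * (lam * (j' - z) * (m - j + z + 1)) :=
          mul_le_mul_of_nonneg_right ih (mul_nonneg (mul_nonneg hl (by linarith)) (by linarith))
      _ ≤ ch m (j - z) * ch m' j' * ((j - z) * (m' - j' + z + 1)) :=
          mul_le_mul_of_nonneg_left h1 p
      _ = (ch m (j - z) * (j - z)) * ch m' j' * (m' - j' + z + 1) := by ring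
      _ = _ := by rw [r1]; ring

lemma ch_mono {m : ℕ} {j : ℤ} (hj : 2 * j ≤ m + 1) : ∀ k : ℕ, ch m (j - k) ≤ ch m j := by
  intro k
  induction k with
  | zero => simp
  | succ k ih =>
    refine le_trans ?_ ih
    rcases le_or_gt (j - k) 0 with h | h
    · rw [ch_neg m (by omega)]; exact ch_nonneg _ _
    have r := ch_rec m (j - k)
    have a1 : (0 : ℝ) < ((j - k : ℤ) : ℝ) := by exact_mod_cast h
    have a2 : ((j - k : ℤ) : ℝ) ≤ m - ((j - k : ℤ) : ℝ) + 1 := by
      have : j - k ≤ m - (j - k) + 1 := by omega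
      exact_mod_cast this
    rw [show j - ((k + 1 : ℕ) : ℤ) = j - k - 1 by omega]
    refine le_of_mul_le_mul_right ?_ a1
    rw [r]
    exact mul_le_mul_of_nonneg_left a2 (ch_nonneg _ _)

lemma ch_exp (o : ℝ) (m : ℕ) : ∀ i : ℤ, ch m i ≤ Real.exp (Real.exp (-o) * m + o * i) := by
  induction m with
  | zero =>
    intro i
    rcases lt_trichotomy i 0 with h | rfl | h
    · rw [ch_neg _ h]; positivity
    · simp [ch]
    · rw [ch_big (by simpa using h)]; positivity
  | succ m ih =>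
    intro i
    rw [ch_succ]
    have h1 := ih i
    have h2 := ih (i - 1)
    have e1 : Real.exp (Real.exp (-o) * m + o * (i - 1 : ℤ)) =
        Real.exp (Real.exp (-o) * m + o * i) * Real.exp (-o) := by
      rw [← Real.exp_add]; push_cast; congr 1; ring
    have e2 : Real.exp (Real.exp (-o) * (m + 1 : ℕ) + o * i) =
        Real.exp (Real.exp (-o) * m + o * i) * Real.exp (Real.exp (-o)) := by
      rw [← Real.exp_add]; push_cast; congr 1; ring
    have h3 := Real.add_one_le_exp (Real.exp (-o))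
    rw [e2]
    nlinarith [Real.exp_pos (Real.exp (-o) * m + o * i)]

lemma choose_up {n k : ℕ} (hk : 0 < k) (hn : 0 < n) :
    (n.choose k : ℝ) ≤ (Real.exp 1 * n / k) ^ k := by
  have a1 : (0 : ℝ) < k := by exact_mod_cast hk
  have a2 : (0 : ℝ) < n := by exact_mod_cast hn
  have h := ch_exp (Real.log (n / k)) n k
  rw [ch_nat, Real.exp_neg, Real.exp_log (by positivity)] at h
  refine h.trans (le_of_eq ?_)
  rw [Real.exp_add, Int.cast_natCast, mul_comm (Real.log _), Real.exp_nat_mul,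
    Real.exp_log (by positivity), mul_div_assoc, mul_pow, ← Real.exp_nat_mul]
  congr 2
  field_simp

lemma choose_low {N k : ℕ} (h : k ≤ N) : N ^ k ≤ k ^ k * N.choose k := by
  have h1 : N ^ k * k.factorial ≤ k ^ k * N.descFactorial k := by
    rw [← Nat.descFactorial_self, Nat.descFactorial_eq_prod_range, Nat.descFactorial_eq_prod_range]
    have e : ∀ a : ℕ, a ^ k = ∏ _i ∈ range k, a := fun a => by simp
    rw [e, e, ← prod_mul_distrib, ← prod_mul_distrib]
    refine prod_le_prod' fun s hs => ?_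
    have := mem_range.1 hs
    rw [Nat.mul_sub, Nat.mul_sub, mul_comm N k]
    exact Nat.sub_le_sub_left (by rw [mul_comm N s, mul_comm k s]; exact Nat.mul_le_mul_left _ h) _
  rw [Nat.descFactorial_eq_factorial_mul_choose, mul_comm k.factorial, ← mul_assoc] at h1
  exact le_of_mul_le_mul_right h1 k.factorial_pos

lemma ch_low {n J d : ℕ} (hd : 0 < d) (h1 : d ≤ J) (h2 : J ≤ n) :
    (J / n / Real.exp 1) ^ d * ch n J ≤ ch n (J - d) := by
  have a1 : (0 : ℝ) < d := by exact_mod_cast hd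
  have a2 : (0 : ℝ) < n := by exact_mod_cast (show 0 < n by omega)
  have e1 := Nat.choose_mul (n := n) (show J - d ≤ J by omega)
  rw [Nat.choose_symm h1, show J - (J - d) = d by omega] at e1
  have e2 : (n.choose J : ℝ) * J.choose d = n.choose (J - d) * (n - (J - d)).choose d := by
    exact_mod_cast e1
  have e3 : ((n - (J - d)).choose d : ℝ) ≤ (Real.exp 1 * n / d) ^ d :=
    le_trans (by exact_mod_cast Nat.choose_le_choose d (Nat.sub_le _ _)) (choose_up hd (by omega))
  have e4 : (J : ℝ) ^ d ≤ d ^ d * J.choose d := by exact_mod_cast choose_low h1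
  rw [← Nat.cast_sub h1, ch_nat, ch_nat]
  refine le_of_mul_le_mul_right ?_ (show 0 < (Real.exp 1 * n / d) ^ d by positivity)
  calc _ = (n.choose J : ℝ) * ((J : ℝ) ^ d / d ^ d) := by
        rw [mul_right_comm, ← mul_pow, ← div_pow, mul_comm]
        congr 2
        field_simp
    _ ≤ n.choose J * J.choose d := by
        refine mul_le_mul_of_nonneg_left ?_ (by positivity)
        rwa [div_le_iff₀' (by positivity)]
    _ ≤ _ := by rw [e2]; exact mul_le_mul_of_nonneg_left e3 (by positivity)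

lemma ch_two {n J d : ℕ} (hd : 0 < d) (h : ch n (J - d) ≤ ch n J) :
    ch n (J - d) * n ≤ 2 * J * ch n J := by
  have p := ch_nonneg n J
  rcases le_or_gt n (2 * J) with h3 | h3
  · have : (n : ℝ) ≤ 2 * J := by exact_mod_cast h3
    nlinarith [ch_nonneg n (J - d)]
  have h4 := ch_mono (m := n) (j := J - 1) (by omega) (d - 1)
  rw [show (J : ℤ) - 1 - (d - 1 : ℕ) = J - d by omega] at h4
  have r := ch_rec n J
  have a : 2 * (J : ℝ) < n := by exact_mod_cast h3
  push_cast at r
  nlinarith [ch_nonneg n (J - d), ch_nonneg n (J - 1), mul_le_mul_of_nonneg_right h4 n.cast_nonneg]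

lemma ch_flip {n J d : ℕ} (h2 : J ≤ n) (h : ch n J < ch n (J - d)) :
    n + d ≤ 2 * J := by
  by_contra h3
  refine not_le.2 h ?_
  rcases le_or_gt (2 * J) n with h4 | h4
  · exact ch_mono (by omega) d
  · have := ch_mono (m := n) (j := (n - J : ℕ)) (by omega) (n + d - 2 * J)
    rwa [ch_nat, Nat.choose_symm h2, ← ch_nat,
      show ((n - J : ℕ) : ℤ) - (n + d - 2 * J : ℕ) = J - d by omega] at this

section
variable {ι : Type*} [DecidableEq ι]

/-- predicted coefficients with an integer index -/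
noncomputable def pz (m : ℕ) (d : ι → ℕ) (A : Finset ι) (i : ℤ) : ℝ :=
  if 0 ≤ i then (al m d A i.toNat : ℝ) else 0

omit [DecidableEq ι] in
lemma pz_nat (m : ℕ) (d : ι → ℕ) (A : Finset ι) (k : ℕ) : pz m d A k = al m d A k := by simp [pz]

omit [DecidableEq ι] in
lemma pz_neg (m : ℕ) (d : ι → ℕ) (A : Finset ι) {i : ℤ} (h : i < 0) : pz m d A i = 0 :=
  if_neg (not_le.2 h)

omit [DecidableEq ι] in
lemma pz_empty (m : ℕ) (d : ι → ℕ) (i : ℤ) : pz m d ∅ i = ch m i := by simp [pz, ch]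

lemma pz_insert (m : ℕ) (d : ι → ℕ) {A : Finset ι} {l : ι} (hl : l ∉ A) (i : ℤ) :
    pz m d (insert l A) i = pz m d A i - pz m d A (i - d l) := by
  rcases lt_or_ge i 0 with h | h
  · rw [pz_neg _ _ _ h, pz_neg _ _ _ h, pz_neg _ _ _ (by omega), sub_zero]
  obtain ⟨k, rfl⟩ := Int.eq_ofNat_of_zero_le h
  rw [pz_nat, pz_nat, al_insert m d hl]
  split_ifs with h1
  · rw [← Nat.cast_sub h1, pz_nat]; push_cast; ring
  · rw [pz_neg _ _ _ (by omega)]; simp

lemma pz_succ (m : ℕ) (d : ι → ℕ) (A : Finset ι) :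
    ∀ i : ℤ, pz (m + 1) d A i = pz m d A i + pz m d A (i - 1) := by
  induction A using Finset.induction_on with
  | empty => intro i; simp only [pz_empty, ch_succ]
  | insert l A hl ih =>
    intro i
    simp only [pz_insert _ d hl, ih]
    rw [show i - d l - 1 = i - 1 - d l by ring]
    ring

end

end Pool.Agent.P.MP_3acc10_al.Wn
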