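import Pool.Agent.P.MP_3acc10_al.WnCh

set_option autoImplicit false

namespace Pool.Agent.P.MP_3acc10_al.Wn

open Finset Module Hd

variable {L : Type*} [Field L] {n : ℕ} {ι : Type*}

/-- inverse system in degree `i` on the variables in `M` -/
def WM (G : ι → Finset (Fin n) → L) (M : Finset (Fin n)) (A : Finset ι) (i : ℤ) :
    Submodule L (Finset (Fin n) → L) := W (fun X => (X.card : ℤ) = i ∧ X ⊆ M) A G

/-- its dimension -/
noncomputable def wd (G : ι → Finset (Fin n) → L) (M : Finset (Fin n)) (A : Finset ι) (i : ℤ) : ℝ :=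
  finrank L (WM G M A i)

/-- contraction by a monomial -/
def mon (S : Finset (Fin n)) : (Finset (Fin n) → L) →ₗ[L] (Finset (Fin n) → L) :=
  actL (Pi.single S 1)

lemma mon_apply (S : Finset (Fin n)) (F : Finset (Fin n) → L) (T : Finset (Fin n)) :
    mon S F T = if Disjoint S T then F (S ∪ T) else 0 := act_single S F T

lemma mon_empty (F : Finset (Fin n) → L) : mon ∅ F = F := by
  ext T; simp [mon_apply]

lemma mon_comm (S S' : Finset (Fin n)) (F : Finset (Fin n) → L) :
    mon S (mon S' F) = mon S' (mon S F) := act_comm (Pi.single S 1) (Pi.single S' 1) F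

lemma mon_insert {S : Finset (Fin n)} {y : Fin n} (h : y ∉ S) (F : Finset (Fin n) → L) :
    mon (insert y S) F = mon S (mon {y} F) := by
  ext T
  simp only [mon_apply, disjoint_insert_left, disjoint_singleton_left, mem_union, h, false_or]
  by_cases h1 : y ∈ T <;> by_cases h2 : Disjoint S T <;> simp [h1, h2]

lemma mon_sq (y : Fin n) (F : Finset (Fin n) → L) : mon {y} (mon {y} F) = 0 := by
  ext T; simp [mon_apply]

variable {G : ι → Finset (Fin n) → L} {M : Finset (Fin n)} {A : Finset ι}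

lemma WM_neg {i : ℤ} (h : i < 0) : WM G M A i = ⊥ := by
  rw [eq_bot_iff]
  intro F hF
  exact funext fun X => hF.1 X fun e => by have := e.1; omega

lemma wd_neg {i : ℤ} (h : i < 0) : wd G M A i = 0 := by simp [wd, WM_neg h]

lemma le_wd {i : ℤ} {X : Submodule L (Finset (Fin n) → L)} (h : X ≤ WM G M A i) :
    (finrank L X : ℝ) ≤ wd G M A i := by
  unfold wd; exact_mod_cast Submodule.finrank_mono h

lemma split0 {y : Fin n} {i : ℤ} {X : Submodule L (Finset (Fin n) → L)}
    (h : X ≤ WM G (insert y M) A i) : X ⊓ LinearMap.ker (mon {y}) ≤ WM G M A i := by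
  rintro F ⟨h1, h2⟩
  refine ⟨fun T hT => ?_, (h h1).2⟩
  by_cases hy : y ∈ T
  · have := congrFun (show mon {y} F = 0 from h2) (T.erase y)
    rwa [mon_apply, if_pos (by simp), ← insert_eq, insert_erase hy] at this
  · exact (h h1).1 T fun e => hT ⟨e.1, (subset_insert_iff_of_notMem hy).1 e.2⟩

lemma split1 {y : Fin n} {i : ℤ} {X : Submodule L (Finset (Fin n) → L)}
    (h : X ≤ WM G (insert y M) A i) : X.map (mon {y}) ≤ WM G M A (i - 1) := by
  rintro _ ⟨F, h1, rfl⟩
  refine ⟨fun T hT => ?_, fun l hl => ?_⟩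
  · rw [mon_apply]
    split_ifs with hd
    · have hy : y ∉ T := by simpa using hd
      refine (h h1).1 _ fun e => hT ⟨?_, (subset_insert_iff_of_notMem hy).1
        (subset_union_right.trans e.2)⟩
      have := e.1
      rw [← insert_eq, card_insert_of_notMem hy] at this
      omega
    · rfl
  · show act _ (act _ F) = 0
    rw [act_comm, (h h1).2 l hl, act_zero]

lemma split2 (y : Fin n) (X : Submodule L (Finset (Fin n) → L)) : (finrank L X : ℝ) =
    finrank L ↥(X ⊓ LinearMap.ker (mon {y})) + finrank L (X.map (mon {y})) := by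
  rw [← rank_null X (mon {y})]; push_cast; ring

lemma wd_insert (y : Fin n) (i : ℤ) : wd G (insert y M) A i ≤ wd G M A i + wd G M A (i - 1) := by
  rw [wd, split2 y]
  exact add_le_add (le_wd (split0 le_rfl)) (le_wd (split1 le_rfl))

lemma wd_empty (i : ℤ) : wd G M ∅ i = ch M.card i := by
  rcases lt_or_ge i 0 with h | h
  · rw [wd_neg h, ch_neg _ h]
  obtain ⟨k, rfl⟩ := Int.eq_ofNat_of_zero_le h
  have : WM G M ∅ k = Supp L fun X => (X.card : ℤ) = k ∧ X ⊆ M :=
    le_antisymm (W_le_Supp _ _ _) fun F hF => ⟨hF, by simp⟩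
  rw [wd, this, finrank_Supp_eq, ch_nat, ← card_powersetCard]
  congr 2
  ext X
  simp [mem_powersetCard, and_comm]

lemma wd_le (i : ℤ) : wd G M A i ≤ ch M.card i := by
  rw [← wd_empty (G := G)]; exact le_wd (W_anti _ (empty_subset A) _)

lemma mix {w0 w1 c0 c1 u0 u1 R0 R1 : ℝ} (hw0 : 0 < w0) (hw1 : 0 < w1) (hc0 : 0 < c0) (hc1 : 0 ≤ c1)
    (h : w0 * c1 ≤ w1 * c0) (a : w0 * u0 ≤ c0 * R0) (b : w1 * u1 ≤ c1 * R1)
    (c : w1 * u0 ≤ c0 * R1) : (w0 + w1) * (u0 + u1) ≤ (c0 + c1) * (R0 + R1) := by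
  refine le_of_mul_le_mul_left ?_ hc0
  have a1 := mul_le_mul_of_nonneg_left a (show 0 ≤ c0 + c1 by linarith)
  rcases le_total (u1 * c0) (u0 * c1) with h1 | h1
  · nlinarith [mul_le_mul_of_nonneg_left c (show 0 ≤ c0 + c1 by linarith),
      mul_le_mul_of_nonneg_left h1 hw0.le, mul_le_mul_of_nonneg_left h1 hw1.le]
  rcases hc1.eq_or_lt with rfl | hc1
  · have : u1 ≤ 0 := nonpos_of_mul_nonpos_right (by simpa using b) hw1
    nlinarith [mul_le_mul_of_nonneg_left c hc0.le, mul_nonneg (mul_pos hc0 (add_pos hw0 hw1)).le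
      (neg_nonneg.2 this)]
  refine le_of_mul_le_mul_left ?_ hc1
  nlinarith [mul_le_mul_of_nonneg_left b (show 0 ≤ c0 * (c0 + c1) by positivity),
    mul_le_mul_of_nonneg_left a1 hc1.le, mul_nonneg (sub_nonneg.2 h1) (sub_nonneg.2 h)]

theorem expand {p w Φ Ξ : ℕ → ℤ → ℝ} {m0 : ℕ} {j0 x : ℤ} (hx : 0 ≤ x)
    (hp : ∀ m j, p (m + 1) j = p m j + p m (j - 1))
    (hw : ∀ m j, w (m + 1) j = w m j + w m (j - 1)) (hle : ∀ m j, w m j ≤ ch m j)
    (hmo : ∀ m j, ch m (j - 1) * w m j ≤ w m (j - 1) * ch m j)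
    (h0 : ∀ m ≤ m0, ∀ j, 0 < w m (j + x) → Φ m j ≤ Ξ m j)
    (h1 : ∀ m < m0, ∀ j, Ξ m j + Ξ m (j - 1) ≤ Ξ (m + 1) j)
    (h2 : ∀ m < m0, ∀ j, 0 < w (m + 1) (j + x) → Φ m j + Ξ m (j - 1) ≤ Ξ (m + 1) j)
    (hE : ∀ M : Finset (Fin n), M.card < m0 → ∀ j ≤ j0, wd G M A j ≤ p M.card j + Φ M.card j)
    (M : Finset (Fin n)) : M.card ≤ m0 → ∀ (e : ℕ) (s : ℤ) (X Y : Submodule L (Finset (Fin n) → L)),
      (M.card = m0 → 0 < e) → s + e ≤ j0 → X ≤ WM G M A s → Y ≤ WM G M A (s + e) →
      (∀ S ⊆ M, S.card = e → ∀ F ∈ Y, mon S F ∈ X) → 0 < w M.card (s + e + x) →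
      w M.card (s + e + x) * (wd G M A s - finrank L X) ≤
        ch M.card (s + x) * (p M.card (s + e) + Ξ M.card (s + e) - finrank L Y) := by
  have t0 : ∀ M : Finset (Fin n), M.card < m0 → ∀ (s : ℤ) (X Y : Submodule L (Finset (Fin n) → L)),
      s ≤ j0 → X ≤ WM G M A s → Y ≤ X → 0 < w M.card (s + x) →
      w M.card (s + x) * (wd G M A s - finrank L X) ≤
        ch M.card (s + x) * (p M.card s + Ξ M.card s - finrank L Y) := by
    intro M hM s X Y hs hX hY hal
    have a1 := le_wd hX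
    have a2 : (finrank L Y : ℝ) ≤ finrank L X := by exact_mod_cast Submodule.finrank_mono hY
    have a3 := hE M hM s hs
    have a4 := h0 _ hM.le s hal
    exact mul_le_mul (hle _ _) (by linarith) (by linarith) (ch_nonneg _ _)
  have t1 : ∀ (M : Finset (Fin n)) (s : ℤ) (X : Submodule L (Finset (Fin n) → L)) (a R : ℝ),
      s + x < 0 → 0 < a → a * (wd G M A s - finrank L X) ≤ ch M.card (s + x) * R := by
    intro M s X a R hs ha
    rw [ch_neg _ hs, wd_neg (by omega), zero_mul]
    exact mul_nonpos_of_nonneg_of_nonpos ha.le (by simp)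
  induction M using Finset.induction_on with
  | empty =>
    intro hM e s X Y he hs hX hY hXY hal
    rcases e with _ | e
    · simp only [Nat.cast_zero, add_zero] at *
      exact t0 ∅ (hM.lt_of_ne fun e => (he e).false) s X Y hs hX
        (fun F hF => mon_empty F ▸ hXY ∅ (by simp) (by simp) F hF) hal
    · have := (of_ch_pos (hal.trans_le (hle _ _))).2
      exact t1 _ _ _ _ _ (by simp at this; omega) hal
  | insert y M hy ih =>
    intro hM e s X Y he hs hX hY hXY hal
    rcases e with _ | e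
    · simp only [Nat.cast_zero, add_zero] at *
      exact t0 _ (hM.lt_of_ne fun e => (he e).false) s X Y hs hX
        (fun F hF => mon_empty F ▸ hXY ∅ (by simp) (by simp) F hF) hal
    rcases lt_or_ge (s + x) 0 with hsx | hsx
    · exact t1 _ _ _ _ _ hsx hal
    rw [card_insert_of_notMem hy] at *
    have hm : M.card < m0 := by omega
    have b0 := of_ch_pos (hal.trans_le (hle _ _))
    have i0 := ih hm.le (e + 1) s _ _ (by omega) hs (split0 hX) (split0 hY) (by
      rintro S hS hc F ⟨f1, f2⟩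
      exact ⟨hXY S (hS.trans (subset_insert _ _)) hc F f1, by
        show mon {y} (mon S F) = 0
        rw [mon_comm, show mon {y} F = 0 from f2, map_zero]⟩)
    have i1 := ih hm.le (e + 1) (s - 1) _ (Y.map (mon {y})) (by omega) (by omega) (split1 hX)
      (by rw [sub_add_eq_add_sub]; exact split1 hY) (by
      rintro S hS hc _ ⟨F, f1, rfl⟩
      exact ⟨_, hXY S (hS.trans (subset_insert _ _)) hc F f1, mon_comm _ _ _⟩)
    have i2 := ih hm.le e s _ (Y.map (mon {y})) (by omega) (by omega) (split0 hX)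
      (by rw [show s + e = s + (e + 1 : ℕ) - 1 by omega]; exact split1 hY) (by
      rintro S hS hc _ ⟨F, f1, rfl⟩
      have hyS : y ∉ S := fun h => hy (hS h)
      exact ⟨mon_insert hyS F ▸ hXY _ (insert_subset_insert _ hS)
        (by rw [card_insert_of_notMem hyS, hc]) F f1, by
        show mon {y} (mon S (mon {y} F)) = 0
        rw [mon_comm, mon_sq, map_zero]⟩)
    have u0 := le_wd (split0 hX)
    have u1 := le_wd (split1 hX)
    have u2 := wd_insert (G := G) (M := M) (A := A) y s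
    have u3 := le_wd (split0 hY)
    have u4 := hE M hm _ hs
    rw [show s + (e : ℤ) = s + (e + 1 : ℕ) - 1 by omega] at i2
    rw [sub_add_eq_add_sub, show s - 1 + x = s + x - 1 by ring] at i1
    generalize hj : s + ((e + 1 : ℕ) : ℤ) = j at *
    rw [sub_add_eq_add_sub] at i1 i2
    have c0 : 0 < ch M.card (s + x) := ch_pos hsx (by omega)
    have c1 := ch_nonneg M.card (s + x - 1)
    have g1 := h1 _ hm j
    have g2 := h2 _ hm j hal
    have hal' := hal
    rw [hw] at hal'
    rw [split2 y X, split2 y Y, ch_succ, hp]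
    refine (mul_le_mul_of_nonneg_left (c := wd G M A s - finrank L ↥(X ⊓ LinearMap.ker (mon {y})) +
      (wd G M A (s - 1) - finrank L (X.map (mon {y})))) (by linarith) hal.le).trans ?_
    rw [hw]
    rcases le_or_gt (w M.card (j + x)) 0 with hd | hd
    · have i1 := i1 (by linarith)
      have i2 := i2 (by linarith)
      nlinarith [mul_le_mul_of_nonneg_left (show (finrank L ↥(Y ⊓ LinearMap.ker (mon {y})) : ℝ) +
        Ξ M.card (j - 1) ≤ p M.card j + Ξ (M.card + 1) j by linarith) (add_nonneg c0.le c1),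
        mul_nonneg (neg_nonneg.2 hd) (add_nonneg (sub_nonneg.2 u0) (sub_nonneg.2 u1))]
    · have k0 : 0 < ch M.card (j + x) := hd.trans_le (hle _ _)
      have k1 : 0 < ch M.card (j + x - 1) := ch_pos (by omega) (by have := of_ch_pos k0; omega)
      have k2 := hmo M.card (j + x)
      have k3 := ch_lc M.card (show s + x ≤ j + x by omega)
      have k4 : 0 < w M.card (j + x - 1) := pos_of_mul_pos_left ((mul_pos k1 hd).trans_le k2) k0.le
      have k5 : w M.card (j + x) * ch M.card (s + x - 1) ≤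
          w M.card (j + x - 1) * ch M.card (s + x) := by
        refine le_of_mul_le_mul_right ?_ k0
        nlinarith [mul_le_mul_of_nonneg_left k3 hd.le, mul_le_mul_of_nonneg_left k2 c0.le]
      refine (mix hd k4 c0 c1 k5 (i0 hd) (i1 k4) (i2 k4)).trans ?_
      exact mul_le_mul_of_nonneg_left (by linarith) (add_nonneg c0.le c1)

/-- the linear LYM inequality -/
lemma lym {e : ℕ} (he : 0 < e) {s : ℤ} {X Y : Submodule L (Finset (Fin n) → L)}
    (hX : X ≤ WM G M ∅ s) (hY : Y ≤ WM G M ∅ (s + e))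
    (h : ∀ S ⊆ M, S.card = e → ∀ F ∈ Y, mon S F ∈ X) (hs : 0 < ch M.card (s + e)) :
    ch M.card s * finrank L Y ≤ ch M.card (s + e) * finrank L X := by
  have := expand (G := G) (A := ∅) (p := ch) (w := ch) (Φ := fun _ _ => 0) (Ξ := fun _ _ => 0)
    (m0 := M.card) (j0 := s + e) (x := 0) le_rfl ch_succ ch_succ (fun _ _ => le_rfl)
    (fun _ _ => le_rfl) (by simp) (by simp) (by simp) (fun M _ j _ => by simp [wd_empty]) M le_rfl
    e s X Y (fun _ => he) le_rfl hX hY h (by simpa using hs)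
  simp only [add_zero, wd_empty] at this
  linarith

end Pool.Agent.P.MP_3acc10_al.Wn
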