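import Pool.Agent.P.MP_3acc10_al.WnTow

set_option autoImplicit false

namespace Pool.Agent.P.MP_3acc10_al.Wn

open Finset Module Hd Real

lemma alive {m0 z m : ℕ} {j0 j : ℤ} {γ C δ : ℝ} (g1 : γ ≤ 1) (hC : 0 ≤ C) (hj : 0 < j0)
    (h1 : (z : ℤ) ≤ j0) (h2 : j0 ≤ m0) (h3 : γ * (m0 + 1) ≤ j0 - z + 1) (h4 : δ * j0 ≤ z * C)
    (hm : m ≤ m0) (h : ch m (j - z) * ch m0 j0 < (1 + δ) * ch m0 (j0 - z) * ch m j) :
    (j : ℝ) < j0 - γ * (m0 - m) + C := by
  by_contra hn
  push Not at hn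
  have a0 : (0 : ℝ) < j0 := by exact_mod_cast hj
  have a1 : j ≤ m := by
    by_contra e
    rw [ch_big (not_le.1 e), mul_zero] at h
    exact absurd h (not_lt.2 (mul_nonneg (ch_nonneg _ _) (ch_nonneg _ _)))
  have a2 : (j : ℝ) ≤ m := by exact_mod_cast a1
  have a3 : (0 : ℝ) ≤ m0 - m := sub_nonneg.2 (by exact_mod_cast hm)
  have a4 : (j0 : ℝ) ≤ m0 := by exact_mod_cast h2
  have a5 : 0 ≤ C / j0 := by positivity
  have b := ch_cmp (lam := 1 + C / j0) (by positivity) a1 h2 z h1 fun s hs => by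
    have s0 : (0 : ℝ) ≤ s := s.cast_nonneg
    have s1 : (s : ℝ) + 1 ≤ z := by exact_mod_cast hs
    have s2 : (z : ℝ) ≤ j0 := by exact_mod_cast h1
    have s3 : (1 + C / j0) * (j0 - s) ≤ j0 - s + C := by
      have : C / j0 * j0 = C := div_mul_cancel₀ _ a0.ne'
      nlinarith [mul_nonneg a5 s0]
    refine (mul_le_mul_of_nonneg_right s3 (by linarith)).trans ?_
    refine (mul_le_mul_of_nonneg_left (show (m : ℝ) - j + s + 1 ≤
      m0 - j0 + s + 1 - (1 - γ) * (m0 - m) by linarith) (by linarith)).trans ?_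
    refine le_trans ?_ (mul_le_mul_of_nonneg_right (show j0 - s + C - γ * (m0 - m) ≤ (j : ℝ) - s by
      linarith) (by linarith))
    nlinarith [mul_nonneg a3 (show 0 ≤ (j0 : ℝ) - s - γ * (m0 + 1) by linarith),
      mul_nonneg a3 (mul_nonneg (sub_nonneg.2 g1) hC)]
  have c := one_add_mul_le_pow (show -2 ≤ C / j0 by linarith) z
  have c1 : δ ≤ z * (C / j0) := by rw [← mul_div_assoc, le_div_iff₀ a0]; exact h4
  have c2 := mul_le_mul_of_nonneg_right (show 1 + δ ≤ (1 + C / j0) ^ z by linarith)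
    (mul_nonneg (ch_nonneg m0 (j0 - z)) (ch_nonneg m j))
  nlinarith

variable {L : Type*} [Field L] {n : ℕ} {ι : Type*} [DecidableEq ι]

/-- the potential -/
noncomputable def Ph (β α S : ℝ) (m : ℕ) (i : ℤ) : ℝ := exp (β * (i - α * m) + S)

lemma inner {G : ι → Finset (Fin n) → L} {d : ι → ℕ} {A : Finset ι} {M : Finset (Fin n)}
    {β α S γ C δ ω Λ : ℝ} {z e : ℕ} {j0 jr : ℤ} (g1 : γ ≤ 1) (hC : 0 ≤ C) (hδ : 0 < δ)
    (hj : 0 < j0) (h1 : (z : ℤ) ≤ j0) (h2 : j0 ≤ M.card) (h3 : γ * (M.card + 1) ≤ j0 - z + 1)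
    (h4 : δ * j0 ≤ z * C) (hr : jr ≤ j0) (he : 0 < e) (k0 : 0 ≤ β * α) (k1 : ω ≤ β)
    (k2 : exp (β * α - (β - ω) * γ) * (1 + exp (-ω)) ≤ 1) (k3 : exp (-ω) ≤ 1 / 2)
    (k4 : 1 + 2 * exp (β * α + (β - ω) * C) ≤ Λ)
    (hE : ∀ M' : Finset (Fin n), M'.card < M.card → ∀ j ≤ jr,
      wd G M' A j ≤ pz M'.card d A j + Ph β α S M'.card j)
    (hR : pz M.card d A jr - wd G M A jr ≤ Ph β α S M.card jr)
    {X Y : Submodule L (Finset (Fin n) → L)} (hX : X ≤ WM G M A (jr - e)) (hY : Y ≤ WM G M A jr)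
    (hXY : ∀ T ⊆ M, T.card = e → ∀ F ∈ Y, mon T F ∈ X) :
    δ * ch M.card j0 * (wd G M A (jr - e) - finrank L X) ≤ (1 + δ) * ch M.card (j0 - e) *
      (Λ * Ph β α S M.card jr + (wd G M A jr - finrank L Y)) := by
  set m0 := M.card
  have c0 : 0 < ch m0 j0 := ch_pos hj.le h2
  have c1 : 0 < ch m0 (j0 - z) := ch_pos (by omega) (by omega)
  set B := ch m0 j0 / ((1 + δ) * ch m0 (j0 - z)) with hB
  have hB0 : 0 < B := by positivity
  let g : ℕ → ℤ → ℝ := fun m j =>
    β * α + (β - ω) * (C + jr - j - γ * (m0 - m)) + (β * (j - α * m) + S)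
  have al : ∀ m ≤ m0, ∀ j : ℤ, 0 < ch m (j + (j0 - jr)) - B * ch m (j + (j0 - jr) - z) →
      β * α + (β * (j - α * m) + S) ≤ g m j := by
    intro m hm j h
    have := alive (j := j + (j0 - jr)) g1 hC hj h1 h2 h3 h4 hm (by
      rw [sub_pos, hB, div_mul_eq_mul_div, div_lt_iff₀ (by positivity)] at h
      linarith)
    push_cast at this
    have := mul_nonneg (sub_nonneg.2 k1) (show 0 ≤ C + jr - j - γ * (m0 - m) by linarith)
    simp only [g]
    linarith
  have e0 : ∀ m j, exp (g m j) = exp (g (m + 1) j) * exp (β * α - (β - ω) * γ) := fun m j => by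
    rw [← exp_add]; simp only [g]; push_cast; congr 1; ring
  have e1 : ∀ m j, exp (g m (j - 1)) =
      exp (g (m + 1) j) * (exp (β * α - (β - ω) * γ) * exp (-ω)) := fun m j => by
    rw [← exp_add, ← exp_add]; simp only [g]; push_cast; congr 1; ring
  have p0 := exp_pos (β * α - (β - ω) * γ)
  have p1 := exp_pos (-ω)
  have := expand (G := G) (A := A) (p := fun m => pz m d A)
    (w := fun m j => ch m j - B * ch m (j - z)) (Φ := Ph β α S) (Ξ := fun m j => 2 * exp (g m j))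
    (m0 := m0) (j0 := jr) (x := j0 - jr) (by omega) (fun m => pz_succ m d A)
    (fun m j => by rw [ch_succ, ch_succ m (j - z), sub_right_comm j 1]; ring)
    (fun m j => sub_le_self _ (mul_nonneg hB0.le (ch_nonneg _ _)))
    (fun m j => by
      have := mul_le_mul_of_nonneg_left (ch_lc m (show j - z ≤ j by omega)) hB0.le
      rw [sub_right_comm j 1]
      linarith)
    (fun m hm j h => by
      have := exp_le_exp.2 ((le_add_of_nonneg_left k0).trans (al m hm j h))
      have := exp_pos (g m j)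
      rw [Ph]; linarith)
    (fun m _ j => by
      rw [e0, e1]
      nlinarith [mul_le_mul_of_nonneg_left k2 (exp_pos (g (m + 1) j)).le])
    (fun m hm j h => by
      have a := al (m + 1) hm j h
      have b : Ph β α S m j ≤ exp (g (m + 1) j) :=
        exp_le_exp.2 (le_trans (le_of_eq (by push_cast; ring)) a)
      have c : exp (β * α - (β - ω) * γ) * exp (-ω) ≤ 1 / 2 := by nlinarith
      rw [e1]
      nlinarith [mul_le_mul_of_nonneg_left c (exp_pos (g (m + 1) j)).le])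
    hE M le_rfl e (jr - e) X Y (fun _ => he) (by omega) hX (by rwa [sub_add_cancel]) hXY
  have e2 : ch m0 j0 - B * ch m0 (j0 - z) = δ * ch m0 j0 / (1 + δ) := by
    rw [hB]; field_simp; ring
  simp only [sub_add_cancel, add_sub_cancel, show jr - e + (j0 - jr) = j0 - e by ring] at this
  rw [e2] at this
  have := this (by positivity)
  have e3 : exp (g m0 jr) = exp (β * α + (β - ω) * C) * Ph β α S m0 jr := by
    rw [Ph, ← exp_add]; simp only [g]; congr 1; ring
  rw [div_mul_eq_mul_div, div_le_iff₀' (by positivity), e3, ← mul_assoc] at this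
  refine this.trans (mul_le_mul_of_nonneg_left ?_ (mul_nonneg (by positivity) (ch_nonneg _ _)))
  nlinarith [mul_le_mul_of_nonneg_right k4 (show 0 ≤ Ph β α S m0 jr from (exp_pos _).le)]

lemma sum_half {v : ℕ → ℝ} {a : ℝ} (ha : 0 ≤ a) (h0 : v 0 = 0)
    (h : ∀ q, v (q + 1) ≤ a / 2 ^ (q + 1)) (Q : ℕ) : ∑ q ∈ range (Q + 1), v q ≤ a := by
  have : ∑ q ∈ range (Q + 1), v q ≤ a - a / 2 ^ Q := by
    induction Q with
    | zero => simp [h0]
    | succ Q ih =>
      have e : a / 2 ^ Q = 2 * (a / 2 ^ (Q + 1)) := by field_simp; ring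
      rw [sum_range_succ]
      linarith [h Q]
  exact this.trans (sub_le_self _ (by positivity))

theorem core [CharZero L] {δ : ι × Finset (Fin n) → L →+ L}
    (hδ : ∀ p x y, δ p (x * y) = x * δ p y + δ p x * y) {c : ι × Finset (Fin n) → L}
    (hc : ∀ p q, δ p (c q) = if q = p then 1 else 0) {d : ι → ℕ} (hd : ∀ l, 0 < d l) {J : ℕ}
    {β α γ C e ω Λ : ℝ} {κ : ι → ℝ} (g1 : γ ≤ 1) (hC : 0 ≤ C) (he : 0 < e) (k0 : 0 ≤ β * α)
    (k1 : ω ≤ β) (k2 : exp (β * α - (β - ω) * γ) * (1 + exp (-ω)) ≤ 1) (k3 : exp (-ω) ≤ 1 / 2)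
    (k4 : 1 + 2 * exp (β * α + (β - ω) * C) ≤ Λ) (k5 : ∀ l, 0 ≤ κ l ∧ κ l ≤ 1 / 4)
    (k6 : ∀ l, d l ≤ J → exp (-(β * d l)) ≤ κ l)
    (hout : ∀ l (m q : ℕ) (i : ℤ), d l ≤ J → γ * m < i →
      ch m (i - (q + 1 : ℕ) * d l) ≤ κ l * Ph β α 0 m i / 2 ^ (q + 1))
    (hinn : ∀ l (m : ℕ) (i : ℤ), m ≤ n → d l ≤ J → d l ≤ i → i ≤ γ * m → ∃ (j0 : ℤ) (z : ℕ),
      i ≤ j0 ∧ (z : ℤ) ≤ j0 ∧ j0 ≤ m ∧ γ * (m + 1) ≤ j0 - z + 1 ∧ e * j0 ≤ z * C ∧
      4 * Λ * ((1 + e) * ch m (j0 - d l)) ≤ κ l * (e * ch m j0))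
    (M : Finset (Fin n)) : ∀ (A : Finset ι) (i : ℤ), i ≤ J →
      |wd (Gm d c) M A i - pz M.card d A i| ≤ Ph β α (3 * ∑ l ∈ A, κ l) M.card i := by
  induction h : M.card using Nat.strong_induction_on generalizing M with
  | _ m ihm =>
  subst h
  have hm : M.card ≤ n := by simpa using card_le_univ M
  have hP : ∀ S i, 0 < Ph β α S M.card i := fun S i => exp_pos _
  have hΛ : 1 ≤ Λ := by linarith [exp_pos (β * α + (β - ω) * C)]
  intro A
  induction A using Finset.induction_on with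
  | empty => intro i _; simpa [wd_empty, pz_empty] using (hP _ _).le
  | insert l A hl ih =>
  obtain ⟨q0, q1⟩ := k5 l
  set S := 3 * ∑ l ∈ insert l A, κ l with hS
  have hS0 : 0 ≤ S := mul_nonneg (by norm_num) (sum_nonneg fun l _ => (k5 l).1)
  have r0 : ∀ i, Ph β α (3 * ∑ l ∈ A, κ l) M.card i * (1 + 3 * κ l) ≤ Ph β α S M.card i := by
    intro i
    have : Ph β α S M.card i = Ph β α (3 * ∑ l ∈ A, κ l) M.card i * exp (3 * κ l) := by
      rw [Ph, Ph, ← exp_add, hS, sum_insert hl]; congr 1; ring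
    rw [this]
    exact mul_le_mul_of_nonneg_left (by linarith [add_one_le_exp (3 * κ l)]) (hP _ _).le
  have r1 : ∀ (S : ℝ) (i : ℤ) (q : ℕ), Ph β α S M.card (i - q * d l) =
      Ph β α S M.card i * exp (-(β * d l)) ^ q := fun S i q => by
    rw [Ph, Ph, ← exp_nat_mul, ← exp_add]; push_cast; congr 1; ring
  have r2 : ∀ i < (d l : ℤ), ∑ q ∈ range (J + 1), vq d c M A l i q = 0 := fun i hi =>
    sum_eq_zero fun q _ => by
      rcases q with _ | q
      · exact vq_zero i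
      · refine le_antisymm ((vq_le i _).trans (ch_neg _ ?_).le) (vq_nonneg _ _)
        push_cast
        nlinarith [show (0 : ℤ) ≤ q * d l by positivity]
  have r3 : ∀ i, 0 ≤ ∑ q ∈ range (J + 1), vq d c M A l i q := fun i =>
    sum_nonneg fun q _ => vq_nonneg _ _
  suffices H : ∀ N : ℕ, ∀ i < (N : ℤ), i ≤ J →
      |wd (Gm d c) M (insert l A) i - pz M.card d (insert l A) i| ≤ Ph β α S M.card i ∧
      ∑ q ∈ range (J + 1), vq d c M A l i q ≤ κ l * Ph β α S M.card i from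
    fun i hi => (H (J + 1) i (by omega) hi).1
  intro N
  induction N with
  | zero =>
    intro i hi _
    rw [wd_neg hi, pz_neg _ _ _ hi, r2 i (by omega)]
    exact ⟨by simpa using (hP _ _).le, mul_nonneg q0 (hP _ _).le⟩
  | succ N ihN =>
  intro i hi hJ
  have t0 := wd_rec (c := c) (M := M) (A := A) (hd l) (show i < (J + 1 : ℕ) by omega)
  have t1 := pz_insert M.card d hl i
  have t2 := abs_le.1 (ih i hJ)
  have t3 := r0 i
  have t4 := hP (3 * ∑ l ∈ A, κ l) i
  have := hd l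
  rcases lt_or_ge i (d l) with h1 | h1
  · rw [r2 i h1, r2 _ (by omega), wd_neg (i := i - d l) (by omega)] at t0
    rw [pz_neg (i := i - d l) _ _ _ (by omega)] at t1
    rw [r2 i h1, abs_le]
    have := mul_nonneg t4.le q0
    exact ⟨⟨by linarith, by linarith⟩, mul_nonneg q0 (hP _ _).le⟩
  have hdJ : d l ≤ J := by omega
  have u0 := k6 l hdJ
  have u1 := abs_le.1 (ih (i - d l) (by omega))
  have u2 := (ihN (i - d l) (by omega) (by omega)).2
  have u3 := r1 S i 1
  have u4 := r1 (3 * ∑ l ∈ A, κ l) i 1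
  rw [Nat.cast_one, one_mul, pow_one] at u3 u4
  have u5 := hP S i
  have u6 := mul_le_mul_of_nonneg_left u0 t4.le
  have u7 := mul_le_mul_of_nonneg_left (u0.trans (q1.trans (by norm_num : (1 : ℝ) / 4 ≤ 1))) u5.le
  have u8 : Ph β α (3 * ∑ l ∈ A, κ l) M.card i * (1 + κ l) + κ l * Ph β α S M.card i ≤
      Ph β α S M.card i := by
    linarith only [mul_le_mul_of_nonneg_left t3 (show 0 ≤ 1 - κ l by linarith),
      mul_nonneg (mul_nonneg t4.le q0) (show 0 ≤ 1 - 3 * κ l by linarith)]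
  have v0 : pz M.card d (insert l A) i - wd (Gm d c) M (insert l A) i ≤ Ph β α S M.card i := by
    rw [u3] at u2
    linarith [r3 i, mul_le_mul_of_nonneg_left u7 q0]
  have v1 : ∑ q ∈ range (J + 1), vq d c M A l i q ≤ κ l * Ph β α S M.card i := by
    refine sum_half (mul_nonneg q0 u5.le) (vq_zero i) ?_ J
    rcases lt_or_ge (γ * M.card) i with h2 | h2
    · intro q
      refine (vq_le i _).trans ((hout l _ q i hdJ h2).trans ?_)
      have : Ph β α 0 M.card i ≤ Ph β α S M.card i := exp_le_exp.2 (by linarith)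
      gcongr
    obtain ⟨j0, z, b0, b1, b2, b3, b4, b5⟩ := hinn l _ i hm hdJ h1 h2
    have w0 : 0 < e * ch M.card j0 := mul_pos he (ch_pos (by omega) b2)
    suffices H : ∀ q, vq d c M A l i q ≤ κ l * Ph β α S M.card i / 2 ^ q from fun q => H _
    intro q
    induction q with
    | zero => rw [vq_zero]; positivity
    | succ q ihq =>
    have w1 : (0 : ℤ) ≤ q * d l := by positivity
    have w2 := inner (G := Gm d c) (d := d) (A := insert l A) (S := S) (jr := i - q * d l) g1 hC he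
      (by omega) b1 b2 b3 b4 (by omega) (hd l) k0 k1 k2 k3 k4
      (fun M' hM j hj => by
        linarith [(abs_le.1 (ihm _ hM M' rfl (insert l A) j (by omega))).2])
      (by
        rcases q with _ | q
        · simpa using v0
        · have : (0 : ℤ) < (q + 1 : ℕ) * d l := by positivity
          linarith [(abs_le.1 (ihN (i - (q + 1 : ℕ) * d l) (by omega) (by omega)).1).1])
      (X := Yq d c M A l i (q + 1))
      (by rw [show i - q * d l - d l = i - (q + 1 : ℕ) * d l by push_cast; ring]; exact Yq_le i _)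
      (Yq_le i q) fun T _ hT => Yq_step hδ hc hl i q hT
    rw [show i - q * d l - d l = i - (q + 1 : ℕ) * d l by push_cast; ring] at w2
    have w3 : Ph β α S M.card (i - q * d l) ≤ Ph β α S M.card i / 2 ^ q := by
      rw [r1, div_eq_mul_inv, ← inv_pow]
      exact mul_le_mul_of_nonneg_left (pow_le_pow_left₀ (exp_pos _).le (by linarith) q) u5.le
    have w4 : 0 < Ph β α S M.card i / 2 ^ q := by positivity
    have w5 := mul_nonneg (show 0 ≤ 1 + e by linarith) (ch_nonneg M.card (j0 - d l))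
    rw [mul_div_assoc] at ihq
    have w6 : e * ch M.card j0 * vq d c M A l i (q + 1) ≤ (1 + e) * ch M.card (j0 - d l) *
        (2 * Λ * (Ph β α S M.card i / 2 ^ q)) :=
      le_trans w2 (mul_le_mul_of_nonneg_left (by
        have := mul_le_mul_of_nonneg_left w3 (show 0 ≤ Λ by linarith)
        have := mul_le_mul_of_nonneg_right (show κ l ≤ Λ by linarith) w4.le
        rw [vq] at ihq
        linarith) w5)
    refine le_of_mul_le_mul_left (w6.trans ?_) w0
    rw [show κ l * Ph β α S M.card i / 2 ^ (q + 1) = κ l * (Ph β α S M.card i / 2 ^ q) / 2 by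
      field_simp; ring]
    linarith only [mul_le_mul_of_nonneg_right b5 w4.le]
  refine ⟨abs_le.2 ⟨by linarith, ?_⟩, v1⟩
  linarith [r3 (i - d l)]

end Pool.Agent.P.MP_3acc10_al.Wn
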