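import Pool.Agent.P.MP_3acc10_al.WnExp

set_option autoImplicit false

namespace Pool.Agent.P.MP_3acc10_al.Wn

open Finset Module Hd

variable {L : Type*} [Field L] {n : ℕ} {ι : Type*} [DecidableEq ι]

/-- the forms -/
noncomputable def Gm (d : ι → ℕ) (c : ι × Finset (Fin n) → L) : ι → Finset (Fin n) → L :=
  mask (fun i Y => Y.card = d i) c

/-- contraction by one form -/
noncomputable def fE (d : ι → ℕ) (c : ι × Finset (Fin n) → L) (l : ι) :
    Module.End L (Finset (Fin n) → L) := actL (Gm d c l)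

section
variable (d : ι → ℕ) (c : ι × Finset (Fin n) → L) (M : Finset (Fin n)) (A : Finset ι) (l : ι)
  (i : ℤ)

/-- kernel of a power -/
noncomputable def Zq (q : ℕ) : Submodule L (Finset (Fin n) → L) :=
  WM (Gm d c) M A i ⊓ LinearMap.ker (fE d c l ^ q)

/-- graded piece -/
noncomputable def Yq (q : ℕ) : Submodule L (Finset (Fin n) → L) :=
  (Zq d c M A l i (q + 1)).map (fE d c l ^ q)

/-- defect of a graded piece -/
noncomputable def vq (q : ℕ) : ℝ :=
  wd (Gm d c) M (insert l A) (i - q * d l) - finrank L (Yq d c M A l i q)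

end

variable {d : ι → ℕ} {c : ι × Finset (Fin n) → L} {M : Finset (Fin n)} {A : Finset ι} {l : ι}

omit [DecidableEq ι] in
lemma fE_mem {i : ℤ} {F : Finset (Fin n) → L} (h : F ∈ WM (Gm d c) M A i) :
    fE d c l F ∈ WM (Gm d c) M A (i - d l) := by
  refine ⟨fun T hT => ?_, fun k hk => ?_⟩
  · show act (Gm d c l) F T = 0
    refine sum_eq_zero fun Y _ => ?_
    split_ifs with hd
    · by_cases hY : Y.card = d l
      · rw [h.1 _ fun e => hT ⟨?_, subset_union_right.trans e.2⟩, mul_zero]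
        have := e.1
        rw [card_union_of_disjoint hd] at this
        omega
      · simp [Gm, mask, hY]
    · rfl
  · show act _ (act _ F) = 0
    rw [act_comm, h.2 k hk, act_zero]

omit [DecidableEq ι] in
lemma pow_mem {i : ℤ} {F : Finset (Fin n) → L} (h : F ∈ WM (Gm d c) M A i) (q : ℕ) :
    (fE d c l ^ q) F ∈ WM (Gm d c) M A (i - q * d l) := by
  induction q with
  | zero => simpa using h
  | succ q ih =>
    rw [pow_succ', Module.End.mul_apply, show i - (q + 1 : ℕ) * d l = i - q * d l - d l by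
      push_cast; ring]
    exact fE_mem ih

lemma mem_ins {i : ℤ} {F : Finset (Fin n) → L} :
    F ∈ WM (Gm d c) M (insert l A) i ↔ F ∈ WM (Gm d c) M A i ∧ fE d c l F = 0 :=
  ⟨fun h => ⟨⟨h.1, fun k hk => h.2 k (mem_insert_of_mem hk)⟩, h.2 l (mem_insert_self _ _)⟩,
    fun h => ⟨h.1.1, forall_mem_insert _ _ _ |>.2 ⟨h.2, h.1.2⟩⟩⟩

lemma Yq_le (i : ℤ) (q : ℕ) : Yq d c M A l i q ≤ WM (Gm d c) M (insert l A) (i - q * d l) := by
  rintro _ ⟨F, ⟨h1, h2⟩, rfl⟩
  refine mem_ins.2 ⟨pow_mem h1 q, ?_⟩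
  rw [← Module.End.mul_apply, ← pow_succ']
  exact h2

lemma Yq_zero (i : ℤ) : Yq d c M A l i 0 = WM (Gm d c) M (insert l A) i := by
  ext F
  simp [Yq, Zq, mem_ins, Module.End.one_eq_id]

omit [DecidableEq ι] in
lemma Zq_dim (i : ℤ) (Q : ℕ) : (finrank L (Zq d c M A l i Q) : ℝ) =
    ∑ q ∈ range Q, (finrank L (Yq d c M A l i q) : ℝ) := by
  induction Q with
  | zero => rw [Zq, pow_zero, Module.End.one_eq_id, LinearMap.ker_id, inf_bot_eq]; simp
  | succ Q ih =>
    have e : Zq d c M A l i (Q + 1) ⊓ LinearMap.ker (fE d c l ^ Q) = Zq d c M A l i Q := by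
      rw [Zq, Zq, inf_assoc]
      refine congrArg _ (inf_eq_right.2 fun F hF => ?_)
      rw [LinearMap.mem_ker, pow_succ', Module.End.mul_apply, show (fE d c l ^ Q) F = 0 from hF,
        map_zero]
    rw [sum_range_succ, ← ih, ← rank_null (Zq d c M A l i (Q + 1)) (fE d c l ^ Q), e, Yq]
    push_cast; ring

lemma vq_nonneg (i : ℤ) (q : ℕ) : 0 ≤ vq d c M A l i q := sub_nonneg.2 (le_wd (Yq_le i q))

lemma vq_zero (i : ℤ) : vq d c M A l i 0 = 0 := by
  rw [vq, Yq_zero, Nat.cast_zero, zero_mul, sub_zero, wd, sub_self]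

lemma vq_le (i : ℤ) (q : ℕ) : vq d c M A l i q ≤ ch M.card (i - q * d l) :=
  (sub_le_self _ (Nat.cast_nonneg _)).trans (wd_le _)

lemma wd_tow (hd : 0 < d l) {i : ℤ} {Q : ℕ} (h : i < Q) : wd (Gm d c) M A i =
    ∑ q ∈ range Q, wd (Gm d c) M (insert l A) (i - q * d l) - ∑ q ∈ range Q, vq d c M A l i q := by
  have e : Zq d c M A l i Q = WM (Gm d c) M A i := by
    refine inf_eq_left.2 fun F hF => ?_
    have := pow_mem (l := l) hF Q
    rwa [WM_neg (by nlinarith [show (1 : ℤ) ≤ d l by omega, show (0 : ℤ) ≤ Q by omega])] at this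
  rw [wd, ← e, Zq_dim, ← sum_sub_distrib]
  exact sum_congr rfl fun q _ => by rw [vq]; ring

lemma wd_rec (hd : 0 < d l) {i : ℤ} {Q : ℕ} (h : i < Q) : wd (Gm d c) M (insert l A) i =
    wd (Gm d c) M A i - wd (Gm d c) M A (i - d l) + ∑ q ∈ range Q, vq d c M A l i q -
      ∑ q ∈ range Q, vq d c M A l (i - d l) q := by
  have h1 := wd_tow (c := c) (M := M) (A := A) hd h
  have h2 := wd_tow (c := c) (M := M) (A := A) hd (show i - d l < Q by omega)
  have h3 := sum_range_succ' (fun q : ℕ => wd (Gm d c) M (insert l A) (i - q * d l)) Q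
  rw [sum_range_succ, wd_neg (i := i - Q * d l)
    (by nlinarith [show (1 : ℤ) ≤ d l by omega, show (0 : ℤ) ≤ Q by omega])] at h3
  have h4 : ∀ q : ℕ, i - (q + 1 : ℕ) * d l = i - d l - q * d l := fun q => by push_cast; ring
  simp only [h4, Nat.cast_zero, zero_mul, sub_zero] at h3
  linarith

lemma Y01 (i : ℤ) : wd (Gm d c) M (insert l A) i + finrank L (Yq d c M A l i 1) ≤
    wd (Gm d c) M A i := by
  have h := Zq_dim (d := d) (c := c) (M := M) (A := A) (l := l) i 2
  rw [sum_range_succ, sum_range_one, Yq_zero] at h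
  exact h.symm.le.trans (le_wd inf_le_left)

lemma Yq_step [CharZero L] {δ : ι × Finset (Fin n) → L →+ L}
    (hδ : ∀ p x y, δ p (x * y) = x * δ p y + δ p x * y)
    (hc : ∀ p q, δ p (c q) = if q = p then 1 else 0) (hl : l ∉ A) (i : ℤ) (q : ℕ)
    {S : Finset (Fin n)} (hS : S.card = d l) :
    ∀ F ∈ Yq d c M A l i q, mon S F ∈ Yq d c M A l i (q + 1) := by
  rintro _ ⟨F, ⟨h1, h2⟩, rfl⟩
  have a0 : ∀ H, fE d c l (mon S H) = mon S (fE d c l H) := fun H =>
    act_comm (Gm d c l) (Pi.single S 1) H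
  have a1 : ∀ q : ℕ, Dv (δ (l, S)) ((fE d c l ^ (q + 1)) F) =
      (fE d c l ^ (q + 1)) (Dv (δ (l, S)) F) + ((q : L) + 1) • mon S ((fE d c l ^ q) F) := by
    have b : ∀ H, Dv (δ (l, S)) (fE d c l H) = fE d c l (Dv (δ (l, S)) H) + mon S H := by
      intro H
      have := Dv_act (hδ (l, S)) (Gm d c l) H
      rwa [Gm, Dv_mask hc l l S hS, if_pos rfl] at this
    intro q
    induction q with
    | zero => simpa using b F
    | succ q ih =>
      rw [pow_succ' _ (q + 1), Module.End.mul_apply, b, ih, map_add, map_smul, a0,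
        ← Module.End.mul_apply _ (fE d c l ^ q), ← pow_succ', Module.End.mul_apply]
      push_cast
      module
  have a2 := a1 q
  rw [show (fE d c l ^ (q + 1)) F = 0 from h2, Dv_zero] at a2
  have a3 : (fE d c l ^ (q + 1)) (Dv (δ (l, S)) F) = -(((q : L) + 1) • mon S ((fE d c l ^ q) F)) :=
    eq_neg_of_add_eq_zero_left a2.symm
  have a4 : (q : L) + 1 ≠ 0 := Nat.cast_add_one_ne_zero q
  refine ⟨-((q : L) + 1)⁻¹ • Dv (δ (l, S)) F, Submodule.smul_mem _ _ ⟨⟨fun X hX => ?_,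
    fun k hk => ?_⟩, ?_⟩, ?_⟩
  · rw [Dv, h1.1 X hX, map_zero]
  · have := Dv_act (hδ (l, S)) (Gm d c k) F
    rwa [h1.2 k hk, Dv_zero, Gm, Dv_mask hc l k S hS, if_neg (fun e : k = l => hl (e ▸ hk)), zero_act,
      add_zero, eq_comm] at this
  · show (fE d c l ^ (q + 1 + 1)) _ = 0
    rw [pow_succ', Module.End.mul_apply, a3, map_neg, map_smul, a0,
      ← Module.End.mul_apply _ (fE d c l ^ q), ← pow_succ', show (fE d c l ^ (q + 1)) F = 0 from h2, map_zero, smul_zero, neg_zero]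
  · rw [map_smul, a3, smul_neg, neg_smul, neg_neg, smul_smul, inv_mul_cancel₀ a4, one_smul]

end Pool.Agent.P.MP_3acc10_al.Wn
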